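import Mathlib

/-! The Hardy space of the ball in `ℂ²` as a weighted sequence space. -/

set_option autoImplicit false
set_option linter.unusedSectionVars false
open scoped InnerProductSpace Topology ComplexConjugate ENNReal

namespace Pool.Agent.X188.HardySph

noncomputable section

abbrev HH : Type := lp (fun _ : ℕ × ℕ => ℂ) 2

/-- `N(a,b) = (a+b+1)! / (a! b!)` -/
def NN (p : ℕ × ℕ) : ℝ := ((p.1 + p.2 + 1).factorial : ℝ) / ((p.1.factorial : ℝ) * (p.2.factorial : ℝ))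

theorem NN_pos (p : ℕ × ℕ) : 0 < NN p := by unfold NN; positivity

/-- `c(a,b) = √N(a,b)` -/
def cc (p : ℕ × ℕ) : ℝ := √(NN p)
theorem cc_pos (p : ℕ × ℕ) : 0 < cc p := Real.sqrt_pos.2 (NN_pos p)

/-- weights of the two shifts -/
def w1 (p : ℕ × ℕ) : ℝ := √(((p.1 : ℝ) + 1) / (p.1 + p.2 + 2))
def w2 (p : ℕ × ℕ) : ℝ := √(((p.2 : ℝ) + 1) / (p.1 + p.2 + 2))

theorem w1_rel (a b : ℕ) : cc (a + 1, b) * w1 (a, b) = cc (a, b) := by
  unfold cc w1
  rw [← Real.sqrt_mul (NN_pos _).le]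
  congr 1
  unfold NN
  simp only
  rw [show a + 1 + b + 1 = (a + b + 1) + 1 by ring, Nat.factorial_succ (a + b + 1), Nat.factorial_succ a]
  push_cast
  have h1 : (a.factorial : ℝ) ≠ 0 := by positivity
  have h2 : (b.factorial : ℝ) ≠ 0 := by positivity
  have h3 : ((a : ℝ) + 1) ≠ 0 := by positivity
  have h4 : ((a : ℝ) + b + 2) ≠ 0 := by positivity
  field_simp
  ring

theorem w2_rel (a b : ℕ) : cc (a, b + 1) * w2 (a, b) = cc (a, b) := by
  unfold cc w2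
  rw [← Real.sqrt_mul (NN_pos _).le]
  congr 1
  unfold NN
  simp only
  rw [show a + (b + 1) + 1 = (a + b + 1) + 1 by ring, Nat.factorial_succ (a + b + 1), Nat.factorial_succ b]
  push_cast
  have h1 : (a.factorial : ℝ) ≠ 0 := by positivity
  have h2 : (b.factorial : ℝ) ≠ 0 := by positivity
  have h3 : ((b : ℝ) + 1) ≠ 0 := by positivity
  have h4 : ((a : ℝ) + b + 2) ≠ 0 := by positivity
  field_simp
  ring

theorem w_sq (p : ℕ × ℕ) : w1 p ^ 2 + w2 p ^ 2 = 1 := by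
  unfold w1 w2
  rw [Real.sq_sqrt (by positivity), Real.sq_sqrt (by positivity)]
  have h4 : ((p.1 : ℝ) + p.2 + 2) ≠ 0 := by positivity
  field_simp
  ring

theorem w1_le (p : ℕ × ℕ) : w1 p ^ 2 ≤ 1 := by have := w_sq p; nlinarith [sq_nonneg (w2 p)]
theorem w2_le (p : ℕ × ℕ) : w2 p ^ 2 ≤ 1 := by have := w_sq p; nlinarith [sq_nonneg (w1 p)]

/-- pushing a sequence forward along an injection, with weights -/
def push (i : ℕ × ℕ → ℕ × ℕ) (w : ℕ × ℕ → ℝ) (x : ℕ × ℕ → ℂ) : ℕ × ℕ → ℂ :=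
  Function.extend i (fun p => (w p : ℂ) * x p) 0

theorem push_apply {i : ℕ × ℕ → ℕ × ℕ} (hi : Function.Injective i) (w : ℕ × ℕ → ℝ) (x : ℕ × ℕ → ℂ)
    (p : ℕ × ℕ) : push i w x (i p) = (w p : ℂ) * x p := hi.extend_apply _ _ _

theorem push_out {i : ℕ × ℕ → ℕ × ℕ} (w : ℕ × ℕ → ℝ) (x : ℕ × ℕ → ℂ)
    (p : ℕ × ℕ) (hp : p ∉ Set.range i) : push i w x p = 0 := by
  unfold push
  rw [Function.extend_apply' _ _ _ (by simpa using hp)]
  rfl

theorem hasSum_push {i : ℕ × ℕ → ℕ × ℕ} (hi : Function.Injective i) {w : ℕ × ℕ → ℝ}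
    (hw : ∀ p, w p ^ 2 ≤ 1) (x : HH) :
    Memℓp (push i w x) 2 ∧ ∑' p, ‖push i w x p‖ ^ 2 = ∑' p, w p ^ 2 * ‖(x : ℕ × ℕ → ℂ) p‖ ^ 2 ∧
      Summable fun p => w p ^ 2 * ‖(x : ℕ × ℕ → ℂ) p‖ ^ 2 := by
  have h0 := lp.memℓp x
  rw [memℓp_gen_iff (by norm_num)] at h0
  have h0' : Summable fun p => ‖(x : ℕ × ℕ → ℂ) p‖ ^ 2 := by
    refine h0.congr fun p => ?_
    simp
  have h1 : Summable fun p => w p ^ 2 * ‖(x : ℕ × ℕ → ℂ) p‖ ^ 2 := by
    refine Summable.of_nonneg_of_le (fun p => by positivity) (fun p => ?_) h0'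
    exact mul_le_of_le_one_left (by positivity) (hw p)
  have h2 : (fun p => ‖push i w x p‖ ^ 2) ∘ i = fun p => w p ^ 2 * ‖(x : ℕ × ℕ → ℂ) p‖ ^ 2 := by
    funext p
    simp only [Function.comp]
    rw [push_apply hi, norm_mul, mul_pow, Complex.norm_real, Real.norm_eq_abs, sq_abs]
  have h3 : ∀ p ∉ Set.range i, ‖push i w x p‖ ^ 2 = 0 := by
    intro p hp
    rw [push_out w x p hp]; simp
  refine ⟨?_, ?_, h1⟩
  · rw [memℓp_gen_iff (by norm_num)]
    have h4 : Summable fun p => ‖push i w x p‖ ^ 2 := by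
      rw [← hi.summable_iff h3, h2]
      exact h1
    refine h4.congr fun p => ?_
    simp
  · rw [← h2]
    refine (hi.tsum_eq (f := fun p => ‖push i w x p‖ ^ 2) ?_).symm
    intro p hp
    by_contra hcon
    exact hp (h3 p hcon)

theorem inj1 : Function.Injective fun p : ℕ × ℕ => (p.1 + 1, p.2) := by
  rintro ⟨a, b⟩ ⟨c, d⟩ h
  simp only [Prod.mk.injEq, add_left_inj] at h
  exact Prod.ext h.1 h.2

theorem inj2 : Function.Injective fun p : ℕ × ℕ => (p.1, p.2 + 1) := by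
  rintro ⟨a, b⟩ ⟨c, d⟩ h
  simp only [Prod.mk.injEq, add_left_inj] at h
  exact Prod.ext h.1 h.2

/-- multiplication by `z₁` -/
def S1 (x : HH) : HH := ⟨push (fun p => (p.1 + 1, p.2)) w1 x, (hasSum_push inj1 w1_le x).1⟩
/-- multiplication by `z₂` -/
def S2 (x : HH) : HH := ⟨push (fun p => (p.1, p.2 + 1)) w2 x, (hasSum_push inj2 w2_le x).1⟩

theorem norm_sq_lp (x : HH) : ‖x‖ ^ 2 = ∑' p, ‖(x : ℕ × ℕ → ℂ) p‖ ^ 2 := by
  have h := lp.norm_rpow_eq_tsum (p := 2) (by norm_num) x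
  simpa using h

theorem S_norm (x : HH) : ‖S1 x‖ ^ 2 + ‖S2 x‖ ^ 2 = ‖x‖ ^ 2 := by
  rw [norm_sq_lp, norm_sq_lp, norm_sq_lp]
  have h1 := (hasSum_push inj1 w1_le x).2
  have h2 := (hasSum_push inj2 w2_le x).2
  have e1 : ∑' p, ‖(S1 x : ℕ × ℕ → ℂ) p‖ ^ 2 = ∑' p, w1 p ^ 2 * ‖(x : ℕ × ℕ → ℂ) p‖ ^ 2 := h1.1
  have e2 : ∑' p, ‖(S2 x : ℕ × ℕ → ℂ) p‖ ^ 2 = ∑' p, w2 p ^ 2 * ‖(x : ℕ × ℕ → ℂ) p‖ ^ 2 := h2.1
  rw [e1, e2, ← h1.2.tsum_add h2.2]
  refine tsum_congr fun p => ?_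
  rw [← add_mul, w_sq, one_mul]

/-! ### reproducing kernel vectors -/

theorem choose_bd (a b : ℕ) {x y : ℝ} (hx : 0 ≤ x) (hy : 0 ≤ y) :
    NN (a, b) * (x ^ a * y ^ b) ≤ (a + b + 1) * (x + y) ^ (a + b) := by
  have h1 : NN (a, b) = (a + b + 1) * ((a + b).choose a : ℝ) := by
    unfold NN
    simp only
    rw [Nat.factorial_succ, Nat.cast_choose ℝ (Nat.le_add_right a b), Nat.add_sub_cancel_left]
    push_cast
    ring
  have h2 : x ^ a * y ^ b * ((a + b).choose a : ℝ) ≤ (x + y) ^ (a + b) := by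
    rw [add_pow]
    have h3 := Finset.single_le_sum (f := fun m => x ^ m * y ^ (a + b - m) * ((a + b).choose m : ℝ))
      (s := Finset.range (a + b + 1)) (fun m _ => by positivity)
      (Finset.mem_range.2 (show a < a + b + 1 by omega))
    simpa using h3
  rw [h1]
  calc ((a : ℝ) + b + 1) * ((a + b).choose a : ℝ) * (x ^ a * y ^ b)
      = (a + b + 1) * (x ^ a * y ^ b * ((a + b).choose a : ℝ)) := by ring
    _ ≤ _ := by gcongr

theorem summable_succ_mul {r : ℝ} (h0 : 0 ≤ r) (h1 : r < 1) : Summable fun n : ℕ => ((n : ℝ) + 1) * r ^ n := by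
  have h2 := summable_pow_mul_geometric_of_norm_lt_one 1 (r := r) (by rwa [Real.norm_of_nonneg h0])
  have h3 := summable_geometric_of_lt_one h0 h1
  refine (h2.add h3).congr fun n => ?_
  ring

theorem summable_ker {x y : ℝ} (hx : 0 ≤ x) (hy : 0 ≤ y) (hxy : x + y < 1) :
    Summable fun p : ℕ × ℕ => NN p * (x ^ p.1 * y ^ p.2) := by
  have h1 := summable_succ_mul (add_nonneg hx hy) hxy
  have h2 := Summable.mul_of_nonneg h1 h1 (fun n => by positivity) (fun n => by positivity)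
  refine Summable.of_nonneg_of_le (fun p => mul_nonneg (NN_pos p).le (by positivity)) (fun p => ?_) h2
  refine (choose_bd p.1 p.2 hx hy).trans ?_
  have h3 : 0 ≤ x + y := add_nonneg hx hy
  rw [pow_add]
  calc ((p.1 : ℝ) + p.2 + 1) * ((x + y) ^ p.1 * (x + y) ^ p.2)
      ≤ ((p.1 + 1) * (p.2 + 1)) * ((x + y) ^ p.1 * (x + y) ^ p.2) := by
        apply mul_le_mul_of_nonneg_right _ (by positivity)
        nlinarith [(Nat.cast_nonneg p.1 : (0 : ℝ) ≤ p.1), (Nat.cast_nonneg p.2 : (0 : ℝ) ≤ p.2)]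
    _ = _ := by ring

/-- coordinates of the kernel vector -/
def kc (z : Fin 2 → ℂ) (p : ℕ × ℕ) : ℂ := (cc p : ℂ) * conj (z 0 ^ p.1 * z 1 ^ p.2)

theorem kc_mem {z : Fin 2 → ℂ} (hz : ∑ i, ‖z i‖ ^ 2 < 1) : Memℓp (kc z) 2 := by
  rw [Fin.sum_univ_two] at hz
  rw [memℓp_gen_iff (by norm_num)]
  have h := summable_ker (sq_nonneg ‖z 0‖) (sq_nonneg ‖z 1‖) hz
  refine h.congr fun p => ?_
  unfold kc
  rw [norm_mul, Complex.norm_real, Real.norm_of_nonneg (cc_pos p).le, RCLike.norm_conj, norm_mul,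
    norm_pow, norm_pow]
  simp only [ENNReal.toReal_ofNat, Real.rpow_ofNat]
  rw [mul_pow, mul_pow]
  unfold cc
  rw [Real.sq_sqrt (NN_pos p).le]
  ring

open Classical in
/-- kernel vectors -/
def kk (z : Fin 2 → ℂ) : HH := if hz : ∑ i, ‖z i‖ ^ 2 < 1 then ⟨kc z, kc_mem hz⟩ else 0

theorem kk_apply {z : Fin 2 → ℂ} (hz : ∑ i, ‖z i‖ ^ 2 < 1) (p : ℕ × ℕ) :
    (kk z : ℕ × ℕ → ℂ) p = kc z p := by
  unfold kk
  rw [dif_pos hz]

theorem kk_inner {z : Fin 2 → ℂ} (hz : ∑ i, ‖z i‖ ^ 2 < 1) (x : HH) :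
    HasSum (fun p : ℕ × ℕ => (cc p : ℂ) * (z 0 ^ p.1 * z 1 ^ p.2) * (x : ℕ × ℕ → ℂ) p) ⟪kk z, x⟫_ℂ := by
  have h := lp.hasSum_inner (𝕜 := ℂ) (kk z) x
  have e : (fun p : ℕ × ℕ => (cc p : ℂ) * (z 0 ^ p.1 * z 1 ^ p.2) * (x : ℕ × ℕ → ℂ) p) =
      fun p => ⟪(kk z : ℕ × ℕ → ℂ) p, (x : ℕ × ℕ → ℂ) p⟫_ℂ := by
    funext p
    rw [kk_apply hz]
    unfold kc
    simp only [RCLike.inner_apply, map_mul, Complex.conj_ofReal, Complex.conj_conj]
    ring
  rw [e]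
  exact h

theorem kk_S1 {z : Fin 2 → ℂ} (hz : ∑ i, ‖z i‖ ^ 2 < 1) (x : HH) :
    ⟪kk z, S1 x⟫_ℂ = z 0 * ⟪kk z, x⟫_ℂ := by
  have h1 := kk_inner hz (S1 x)
  have h2 := (kk_inner hz x).mul_left (z 0)
  rw [← inj1.hasSum_iff] at h1
  · have e : (fun p : ℕ × ℕ => z 0 * ((cc p : ℂ) * (z 0 ^ p.1 * z 1 ^ p.2) * (x : ℕ × ℕ → ℂ) p)) =
        (fun p : ℕ × ℕ => (cc p : ℂ) * (z 0 ^ p.1 * z 1 ^ p.2) * (S1 x : ℕ × ℕ → ℂ) p) ∘
          fun p : ℕ × ℕ => (p.1 + 1, p.2) := by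
      funext p
      simp only [Function.comp]
      have e1 : (S1 x : ℕ × ℕ → ℂ) (p.1 + 1, p.2) = (w1 p : ℂ) * (x : ℕ × ℕ → ℂ) p :=
        push_apply inj1 w1 x p
      have e2 : (cc (p.1 + 1, p.2) : ℂ) * (w1 p : ℂ) = (cc p : ℂ) := by
        rw [← Complex.ofReal_mul]
        congr 1
        exact w1_rel p.1 p.2
      rw [e1, pow_succ, ← e2]
      ring
    rw [e] at h2
    exact h1.unique h2
  · intro p hp
    have : (S1 x : ℕ × ℕ → ℂ) p = 0 := push_out w1 x p hp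
    rw [this, mul_zero]

theorem kk_S2 {z : Fin 2 → ℂ} (hz : ∑ i, ‖z i‖ ^ 2 < 1) (x : HH) :
    ⟪kk z, S2 x⟫_ℂ = z 1 * ⟪kk z, x⟫_ℂ := by
  have h1 := kk_inner hz (S2 x)
  have h2 := (kk_inner hz x).mul_left (z 1)
  rw [← inj2.hasSum_iff] at h1
  · have e : (fun p : ℕ × ℕ => z 1 * ((cc p : ℂ) * (z 0 ^ p.1 * z 1 ^ p.2) * (x : ℕ × ℕ → ℂ) p)) =
        (fun p : ℕ × ℕ => (cc p : ℂ) * (z 0 ^ p.1 * z 1 ^ p.2) * (S2 x : ℕ × ℕ → ℂ) p) ∘
          fun p : ℕ × ℕ => (p.1, p.2 + 1) := by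
      funext p
      simp only [Function.comp]
      have e1 : (S2 x : ℕ × ℕ → ℂ) (p.1, p.2 + 1) = (w2 p : ℂ) * (x : ℕ × ℕ → ℂ) p :=
        push_apply inj2 w2 x p
      have e2 : (cc (p.1, p.2 + 1) : ℂ) * (w2 p : ℂ) = (cc p : ℂ) := by
        rw [← Complex.ofReal_mul]
        congr 1
        exact w2_rel p.1 p.2
      rw [e1, pow_succ, ← e2]
      ring
    rw [e] at h2
    exact h1.unique h2
  · intro p hp
    have : (S2 x : ℕ × ℕ → ℂ) p = 0 := push_out w2 x p hp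
    rw [this, mul_zero]

/-! ### totality -/

theorem uniq1 {a : ℕ → ℂ} {ρ : ℝ} (hρ : 0 < ρ)
    (h : ∀ s : ℂ, ‖s‖ < ρ → HasSum (fun n => a n * s ^ n) 0) : ∀ n, a n = 0 := by
  intro n
  induction n using Nat.strong_induction_on with
  | _ n ih =>
    by_contra hne
    have key : ∀ s : ℂ, s ≠ 0 → ‖s‖ < ρ → HasSum (fun k => a (k + n) * s ^ k) 0 := by
      intro s hs hsρ
      have h1 := (hasSum_nat_add_iff' n).2 (h s hsρ)
      have h2 : ∑ i ∈ Finset.range n, a i * s ^ i = 0 :=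
        Finset.sum_eq_zero fun i hi => by rw [ih i (Finset.mem_range.1 hi), zero_mul]
      rw [h2, sub_zero] at h1
      have h3 := h1.mul_left ((s ^ n)⁻¹)
      rw [mul_zero] at h3
      have e : (fun k => a (k + n) * s ^ k) = fun k => (s ^ n)⁻¹ * (a (k + n) * s ^ (k + n)) := by
        funext k
        rw [pow_add]
        field_simp
      rw [e]
      exact h3
    set r := ρ / 2 with hr
    have hr0 : 0 < r := by positivity
    have hrc : ‖(r : ℂ)‖ < ρ := by rw [Complex.norm_real, Real.norm_of_nonneg hr0.le]; linarith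
    have hrne : (r : ℂ) ≠ 0 := by exact_mod_cast hr0.ne'
    have hs1 : Summable fun k => ‖a (k + 1 + n)‖ * r ^ k := by
      have h1 := (key r hrne hrc).summable.norm
      have h2 := ((summable_nat_add_iff 1).2 h1).mul_left r⁻¹
      refine h2.congr fun k => ?_
      rw [norm_mul, norm_pow, Complex.norm_real, Real.norm_of_nonneg hr0.le, pow_succ]
      field_simp
    set Cs := ∑' k, ‖a (k + 1 + n)‖ * r ^ k with hCs
    have hbound : ∀ t : ℝ, 0 < t → t ≤ r → ‖a n‖ ≤ t * Cs := by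
      intro t ht htr
      have htc : ‖(t : ℂ)‖ < ρ := by rw [Complex.norm_real, Real.norm_of_nonneg ht.le]; linarith
      have htne : (t : ℂ) ≠ 0 := by exact_mod_cast ht.ne'
      have h1 := (hasSum_nat_add_iff' 1).2 (key t htne htc)
      simp only [Finset.range_one, Finset.sum_singleton, pow_zero, mul_one, zero_add, zero_sub] at h1
      have h2 : HasSum (fun k => t * (‖a (k + 1 + n)‖ * r ^ k)) (t * Cs) := hs1.hasSum.mul_left t
      have h3 := h1.norm_le_of_bounded h2 (fun k => by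
        rw [norm_mul, norm_pow, Complex.norm_real, Real.norm_of_nonneg ht.le, pow_succ]
        have : t ^ k ≤ r ^ k := by gcongr
        calc ‖a (k + 1 + n)‖ * (t ^ k * t) = t * (‖a (k + 1 + n)‖ * t ^ k) := by ring
          _ ≤ _ := by gcongr)
      rwa [norm_neg] at h3
    have hC0 : 0 ≤ Cs := tsum_nonneg fun k => by positivity
    have hpos : 0 < ‖a n‖ := norm_pos_iff.2 hne
    have := hbound (min r (‖a n‖ / (2 * (Cs + 1)))) (lt_min hr0 (by positivity)) (min_le_left _ _)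
    have h5 : min r (‖a n‖ / (2 * (Cs + 1))) * Cs ≤ ‖a n‖ / (2 * (Cs + 1)) * (Cs + 1) := by
      apply mul_le_mul (min_le_right _ _) (by linarith) hC0 (by positivity)
    have h6 : ‖a n‖ / (2 * (Cs + 1)) * (Cs + 1) = ‖a n‖ / 2 := by
      field_simp
    linarith

theorem total (x : HH) (hx : ∀ z : Fin 2 → ℂ, ∑ i, ‖z i‖ ^ 2 < 1 → ⟪kk z, x⟫_ℂ = 0) : x = 0 := by
  set f : ℕ × ℕ → ℂ := fun p => (cc p : ℂ) * (x : ℕ × ℕ → ℂ) p with hf
  have h1 : ∀ s t : ℂ, ‖s‖ < 1 / 2 → ‖t‖ < 1 / 2 →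
      HasSum (fun p : ℕ × ℕ => f p * s ^ p.1 * t ^ p.2) 0 := by
    intro s t hs ht
    have hz : ∑ i, ‖(![s, t] : Fin 2 → ℂ) i‖ ^ 2 < 1 := by
      rw [Fin.sum_univ_two]
      simp only [Matrix.cons_val_zero, Matrix.cons_val_one]
      nlinarith [norm_nonneg s, norm_nonneg t]
    have h2 := kk_inner hz x
    rw [hx _ hz] at h2
    have e : (fun p : ℕ × ℕ => f p * s ^ p.1 * t ^ p.2) = fun p : ℕ × ℕ =>
        (cc p : ℂ) * ((![s, t] : Fin 2 → ℂ) 0 ^ p.1 * (![s, t] : Fin 2 → ℂ) 1 ^ p.2) *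
          (x : ℕ × ℕ → ℂ) p := by
      funext p
      simp only [hf, Matrix.cons_val_zero, Matrix.cons_val_one]
      ring
    rw [e]
    exact h2
  have h3 : ∀ t : ℂ, ‖t‖ < 1 / 2 → ∀ a : ℕ, HasSum (fun b => f (a, b) * t ^ b) 0 := by
    intro t ht
    have hsm : ∀ a : ℕ, Summable fun b => f (a, b) * t ^ b := by
      intro a
      have hs : ‖((1 / 4 : ℝ) : ℂ)‖ < 1 / 2 := by rw [Complex.norm_real]; norm_num
      have h4 := (h1 _ t hs ht).summable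
      have h5 := h4.comp_injective (i := fun b : ℕ => (a, b)) (fun b c h => (Prod.ext_iff.1 h).2)
      have h6 := h5.mul_left ((((1 / 4 : ℝ) : ℂ) ^ a)⁻¹)
      refine h6.congr fun b => ?_
      simp only [Function.comp]
      have : ((1 / 4 : ℝ) : ℂ) ≠ 0 := by norm_num
      field_simp
    have h7 : ∀ a, (∑' b, f (a, b) * t ^ b) = 0 := by
      apply uniq1 (show (0 : ℝ) < 1 / 2 by norm_num)
      intro s hs
      have h8 := h1 s t hs ht
      have h9 : ∀ a, HasSum (fun b => f (a, b) * s ^ a * t ^ b) ((∑' b, f (a, b) * t ^ b) * s ^ a) := by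
        intro a
        have := (hsm a).hasSum.mul_right (s ^ a)
        have e : (fun b => f (a, b) * s ^ a * t ^ b) = fun b => f (a, b) * t ^ b * s ^ a := by
          funext b; ring
        rw [e]; exact this
      exact h8.prod_fiberwise h9
    intro a
    rw [← h7 a]
    exact (hsm a).hasSum
  have h10 : ∀ a b, f (a, b) = 0 := by
    intro a
    apply uniq1 (show (0 : ℝ) < 1 / 2 by norm_num)
    intro t ht
    exact h3 t ht a
  ext ⟨a, b⟩
  have h11 := h10 a b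
  simp only [hf] at h11
  rcases mul_eq_zero.1 h11 with h | h
  · exact absurd h (by exact_mod_cast (cc_pos (a, b)).ne')
  · exact h

end

end Pool.Agent.X188.HardySph
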