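import Mathlib

/-! The row-valued von Neumann inequality over the ball: analytic part. -/

set_option autoImplicit false
set_option linter.unusedSectionVars false
open scoped InnerProductSpace Topology ComplexConjugate
open Polynomial

namespace Pool.Agent.X188.RowVN

/-! ### averaging over roots of unity -/

/-- sums of powers of a primitive root -/
theorem root_sum {N : ℕ} {w : ℂ} (hw : IsPrimitiveRoot w N) {n : ℕ} (h0 : 0 < n) (hn : n < N) :
    ∑ k ∈ Finset.range N, (w ^ k) ^ n = 0 := by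
  have h1 : w ^ n ≠ 1 := hw.pow_ne_one_of_pos_of_lt h0.ne' hn
  have h2 : ∑ k ∈ Finset.range N, (w ^ n) ^ k = 0 := by
    rw [geom_sum_eq h1, ← pow_mul, mul_comm, pow_mul, hw.pow_eq_one, one_pow, sub_self, zero_div]
  rw [← h2]
  refine Finset.sum_congr rfl fun k _ => ?_
  rw [← pow_mul, ← pow_mul, mul_comm]

theorem sum_eval {N : ℕ} {w : ℂ} (hw : IsPrimitiveRoot w N) (h : ℂ[X]) (hd : h.natDegree < N) (r : ℂ) :
    ∑ k ∈ Finset.range N, h.eval (r * w ^ k) = N * h.coeff 0 := by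
  have h1 : ∀ k, h.eval (r * w ^ k) = ∑ n ∈ Finset.range (h.natDegree + 1), h.coeff n * r ^ n * (w ^ k) ^ n := by
    intro k
    rw [eval_eq_sum_range]
    refine Finset.sum_congr rfl fun n _ => ?_
    rw [mul_pow, mul_assoc]
  rw [Finset.sum_congr rfl fun k _ => h1 k, Finset.sum_comm, Finset.sum_eq_single 0]
  · simp
  · intro n hn hn0
    rw [← Finset.mul_sum, root_sum hw (Nat.pos_of_ne_zero hn0), mul_zero]
    exact lt_of_lt_of_le (Finset.mem_range.1 hn) hd
  · intro h; exact absurd (Finset.mem_range.2 (Nat.succ_pos _)) h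

/-- the conjugate of a root of unity -/
theorem conj_pow {N : ℕ} {w : ℂ} (hN : 0 < N) (hw : IsPrimitiveRoot w N) (k : ℕ) :
    conj (w ^ k) * w ^ k = 1 := by
  have h1 : ‖w‖ = 1 := Complex.norm_eq_one_of_pow_eq_one hw.pow_eq_one hN.ne'
  rw [← Complex.normSq_eq_conj_mul_self, Complex.normSq_eq_norm_sq, norm_pow, h1]
  simp

theorem sum_eval_conj {N : ℕ} {w : ℂ} (hN : 0 < N) (hw : IsPrimitiveRoot w N) (h : ℂ[X])
    (hd : h.natDegree + 1 < N) (r : ℂ) :
    ∑ k ∈ Finset.range N, conj (w ^ k) * h.eval (r * w ^ k) = N * (r * h.coeff 1) := by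
  have hdx : h = h.divX * X + C (h.coeff 0) := (divX_mul_X_add h).symm
  have h1 : ∀ k, conj (w ^ k) * h.eval (r * w ^ k) =
      r * h.divX.eval (r * w ^ k) + h.coeff 0 * conj (w ^ k) := by
    intro k
    conv_lhs => rw [hdx]
    rw [eval_add, eval_mul, eval_X, eval_C, mul_add]
    have := conj_pow hN hw k
    linear_combination (r * h.divX.eval (r * w ^ k)) * this
  rw [Finset.sum_congr rfl fun k _ => h1 k, Finset.sum_add_distrib, ← Finset.mul_sum, ← Finset.mul_sum]
  have h2 : ∑ k ∈ Finset.range N, conj (w ^ k) = 0 := by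
    rw [← map_sum]
    have := root_sum hw (n := 1) one_pos (by omega)
    simp only [pow_one] at this
    rw [this, map_zero]
  have h3 : h.divX.natDegree < N := by
    have := natDegree_divX_eq_natDegree_tsub_one (p := h)
    omega
  rw [h2, mul_zero, add_zero, sum_eval hw _ h3, coeff_divX]
  ring

/-- Bessel inequality for the first two coefficients. -/
theorem bessel {N : ℕ} {w : ℂ} (hN : 0 < N) (hw : IsPrimitiveRoot w N) (h : ℂ[X])
    (hd : h.natDegree + 1 < N) (r : ℝ) :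
    N * (‖h.coeff 0‖ ^ 2 + r ^ 2 * ‖h.coeff 1‖ ^ 2) ≤
      ∑ k ∈ Finset.range N, ‖h.eval ((r : ℂ) * w ^ k)‖ ^ 2 := by
  set a := h.coeff 0 with ha
  set b := h.coeff 1 with hb
  have s0 := sum_eval hw h (by omega) (r : ℂ)
  have s1 := sum_eval_conj hN hw h hd (r : ℂ)
  have s2 : ∑ k ∈ Finset.range N, w ^ k = 0 := by
    have := root_sum hw (n := 1) one_pos (by omega)
    simpa using this
  rw [← ha] at s0
  rw [← hb] at s1
  have key : ∀ k, ‖h.eval ((r : ℂ) * w ^ k) - (a + r * b * w ^ k)‖ ^ 2 =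
      ‖h.eval ((r : ℂ) * w ^ k)‖ ^ 2 - 2 * (conj a * h.eval ((r : ℂ) * w ^ k)).re
      - 2 * (r * conj b * (conj (w ^ k) * h.eval ((r : ℂ) * w ^ k))).re
      + (‖a‖ ^ 2 + r ^ 2 * ‖b‖ ^ 2) + 2 * (r * conj a * b * w ^ k).re := by
    intro k
    set f := h.eval ((r : ℂ) * w ^ k)
    have h1 : ‖w ^ k‖ ^ 2 = 1 := by
      have := conj_pow hN hw k
      rw [← Complex.normSq_eq_conj_mul_self, Complex.normSq_eq_norm_sq] at this
      exact_mod_cast this
    rw [← Complex.normSq_eq_norm_sq] at h1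
    simp only [← Complex.normSq_eq_norm_sq]
    rw [Complex.normSq_apply] at h1
    simp only [Complex.normSq_apply, Complex.sub_re, Complex.sub_im, Complex.add_re, Complex.add_im,
      Complex.mul_re, Complex.mul_im, Complex.ofReal_re, Complex.ofReal_im, Complex.conj_re,
      Complex.conj_im]
    linear_combination (r ^ 2 * (b.re * b.re + b.im * b.im)) * h1
  have hpos : 0 ≤ ∑ k ∈ Finset.range N, ‖h.eval ((r : ℂ) * w ^ k) - (a + r * b * w ^ k)‖ ^ 2 :=
    Finset.sum_nonneg fun k _ => by positivity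
  rw [Finset.sum_congr rfl fun k _ => key k, Finset.sum_add_distrib, Finset.sum_add_distrib,
    Finset.sum_sub_distrib, Finset.sum_sub_distrib, ← Finset.mul_sum, ← Finset.mul_sum,
    ← Finset.mul_sum, ← Complex.re_sum, ← Complex.re_sum, ← Complex.re_sum, ← Finset.mul_sum,
    ← Finset.mul_sum, ← Finset.mul_sum, s0, s1, s2] at hpos
  simp only [Finset.sum_const, Finset.card_range, nsmul_eq_mul, mul_zero, Complex.zero_re] at hpos
  have e1 : (conj a * (N * a)).re = N * ‖a‖ ^ 2 := by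
    rw [← Complex.normSq_eq_norm_sq, Complex.normSq_apply]
    simp [Complex.mul_re, Complex.mul_im]
    ring
  have e2 : (r * conj b * (N * (r * b))).re = N * (r ^ 2 * ‖b‖ ^ 2) := by
    rw [← Complex.normSq_eq_norm_sq, Complex.normSq_apply]
    simp [Complex.mul_re, Complex.mul_im]
    ring
  rw [e1, e2] at hpos
  linarith

/-- average of `|u + r w^k v|²` -/
theorem avg {N : ℕ} {w : ℂ} (hN : 1 < N) (hw : IsPrimitiveRoot w N) (u v : ℂ) (r : ℝ) :
    ∑ k ∈ Finset.range N, ‖u + (r : ℂ) * w ^ k * v‖ ^ 2 = N * (‖u‖ ^ 2 + r ^ 2 * ‖v‖ ^ 2) := by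
  have s2 : ∑ k ∈ Finset.range N, w ^ k = 0 := by
    have := root_sum hw (n := 1) one_pos hN
    simpa using this
  have key : ∀ k, ‖u + (r : ℂ) * w ^ k * v‖ ^ 2 =
      (‖u‖ ^ 2 + r ^ 2 * ‖v‖ ^ 2) + 2 * (r * conj u * v * w ^ k).re := by
    intro k
    have h1 : ‖w ^ k‖ ^ 2 = 1 := by
      have := conj_pow (by omega) hw k
      rw [← Complex.normSq_eq_conj_mul_self, Complex.normSq_eq_norm_sq] at this
      exact_mod_cast this
    rw [← Complex.normSq_eq_norm_sq] at h1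
    simp only [← Complex.normSq_eq_norm_sq]
    rw [Complex.normSq_apply] at h1
    simp only [Complex.normSq_apply, Complex.add_re, Complex.add_im,
      Complex.mul_re, Complex.mul_im, Complex.ofReal_re, Complex.ofReal_im, Complex.conj_re,
      Complex.conj_im]
    linear_combination (r ^ 2 * (v.re * v.re + v.im * v.im)) * h1
  rw [Finset.sum_congr rfl fun k _ => key k, Finset.sum_add_distrib, ← Finset.mul_sum,
    ← Complex.re_sum, ← Finset.mul_sum, s2]
  simp
  ring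

/-! ### slices -/

/-- the slice polynomial `λ ↦ p(λ ζ)` -/
noncomputable def sl (z : Fin 2 → ℂ) (p : MvPolynomial (Fin 2) ℂ) : ℂ[X] :=
  MvPolynomial.aeval (fun i => C (z i) * X) p

theorem sl_eval (z : Fin 2 → ℂ) (p : MvPolynomial (Fin 2) ℂ) (t : ℂ) :
    (sl z p).eval t = MvPolynomial.eval (fun i => t * z i) p := by
  unfold sl
  induction p using MvPolynomial.induction_on with
  | C a => simp
  | add p q hp hq => simp [hp, hq]
  | mul_X p i hp => 
    rw [map_mul, map_mul, eval_mul, hp]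
    simp only [MvPolynomial.aeval_X, MvPolynomial.eval_X, eval_mul, eval_C, eval_X]
    ring

theorem sl_mono (z : Fin 2 → ℂ) (s : Fin 2 →₀ ℕ) (c : ℂ) :
    sl z (MvPolynomial.monomial s c) = C (c * (z 0 ^ s 0 * z 1 ^ s 1)) * X ^ (s 0 + s 1) := by
  unfold sl
  rw [MvPolynomial.aeval_monomial, Finsupp.prod_fintype _ _ (fun i => pow_zero _)]
  simp only [Fin.prod_univ_two, mul_pow, ← C_pow, algebraMap_eq, map_mul, pow_add]
  ring

theorem sl_coeff_zero (z : Fin 2 → ℂ) (p : MvPolynomial (Fin 2) ℂ) :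
    (sl z p).coeff 0 = MvPolynomial.coeff 0 p := by
  induction p using MvPolynomial.induction_on' with
  | monomial s c =>
    rw [sl_mono, coeff_C_mul, coeff_X_pow, MvPolynomial.coeff_monomial]
    by_cases h : s = 0
    · subst h; simp
    · have : ¬ (0 = s 0 + s 1) := by
        intro h0
        apply h
        ext i
        fin_cases i
        · simp; omega
        · simp; omega
      rw [if_neg this, if_neg h, mul_zero]
  | add p q hp hq =>
    have : sl z (p + q) = sl z p + sl z q := map_add _ _ _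
    rw [this, coeff_add, hp, hq, MvPolynomial.coeff_add]

theorem sl_coeff_one (z : Fin 2 → ℂ) (p : MvPolynomial (Fin 2) ℂ) :
    (sl z p).coeff 1 = z 0 * MvPolynomial.coeff (Finsupp.single 0 1) p +
      z 1 * MvPolynomial.coeff (Finsupp.single 1 1) p := by
  induction p using MvPolynomial.induction_on' with
  | monomial s c =>
    rw [sl_mono, coeff_C_mul, coeff_X_pow, MvPolynomial.coeff_monomial, MvPolynomial.coeff_monomial]
    have e0 : s = Finsupp.single 0 1 ↔ s 0 = 1 ∧ s 1 = 0 := by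
      constructor
      · rintro rfl; simp
      · rintro ⟨h0, h1⟩
        ext i; fin_cases i
        · simpa using h0
        · simpa using h1
    have e1 : s = Finsupp.single 1 1 ↔ s 0 = 0 ∧ s 1 = 1 := by
      constructor
      · rintro rfl; simp
      · rintro ⟨h0, h1⟩
        ext i; fin_cases i
        · simpa using h0
        · simpa using h1
    simp only [e0, e1]
    by_cases h : 1 = s 0 + s 1
    · rcases Nat.eq_zero_or_pos (s 0) with h0 | h0
      · have h1 : s 1 = 1 := by omega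
        simp [h0, h1, mul_comm]
      · have h1 : s 0 = 1 := by omega
        have h2 : s 1 = 0 := by omega
        simp [h1, h2, mul_comm]
    · rw [if_neg h, if_neg (by omega), if_neg (by omega)]
      simp
  | add p q hp hq =>
    have : sl z (p + q) = sl z p + sl z q := map_add _ _ _
    rw [this, coeff_add, hp, hq, MvPolynomial.coeff_add, MvPolynomial.coeff_add]
    ring

theorem slice_ineq {m : ℕ} (P : Fin m → MvPolynomial (Fin 2) ℂ) {c : ℝ}
    (hP : ∀ z : Fin 2 → ℂ, ∑ i, ‖z i‖ ^ 2 < 1 → ∑ j, ‖MvPolynomial.eval z (P j)‖ ^ 2 ≤ c ^ 2)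
    (z : Fin 2 → ℂ) (hz : ∑ i, ‖z i‖ ^ 2 ≤ 1) (u v : Fin m → ℂ) :
    ‖∑ j, MvPolynomial.coeff 0 (P j) * u j‖ ^ 2 +
      ‖∑ j, ((z 0 * MvPolynomial.coeff (Finsupp.single 0 1) (P j) +
        z 1 * MvPolynomial.coeff (Finsupp.single 1 1) (P j)) * u j +
        MvPolynomial.coeff 0 (P j) * v j)‖ ^ 2 ≤
      c ^ 2 * (∑ j, ‖u j‖ ^ 2 + ∑ j, ‖v j‖ ^ 2) := by
  set h : ℂ[X] := ∑ j, sl z (P j) * (C (u j) + C (v j) * X) with hh
  have h0 : h.coeff 0 = ∑ j, MvPolynomial.coeff 0 (P j) * u j := by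
    rw [hh, finsetSum_coeff]
    refine Finset.sum_congr rfl fun j _ => ?_
    rw [mul_add, coeff_add, coeff_mul_C, ← mul_assoc, coeff_mul_X_zero, sl_coeff_zero, add_zero]
  have h1 : h.coeff 1 = ∑ j, ((z 0 * MvPolynomial.coeff (Finsupp.single 0 1) (P j) +
        z 1 * MvPolynomial.coeff (Finsupp.single 1 1) (P j)) * u j +
        MvPolynomial.coeff 0 (P j) * v j) := by
    rw [hh, finsetSum_coeff]
    refine Finset.sum_congr rfl fun j _ => ?_
    rw [mul_add, coeff_add, coeff_mul_C, ← mul_assoc, coeff_mul_X, coeff_mul_C, sl_coeff_zero,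
      sl_coeff_one]
  have key : ∀ r : ℝ, 0 < r → r < 1 → ‖h.coeff 0‖ ^ 2 + r ^ 2 * ‖h.coeff 1‖ ^ 2 ≤
      c ^ 2 * (∑ j, ‖u j‖ ^ 2 + r ^ 2 * ∑ j, ‖v j‖ ^ 2) := by
    intro r hr0 hr1
    set N := h.natDegree + 2 with hN
    have hN0 : 0 < N := by omega
    have hw := Complex.isPrimitiveRoot_exp N hN0.ne'
    set w := Complex.exp (2 * Real.pi * Complex.I / N) with hwdef
    have b1 := bessel hN0 hw h (by omega) r
    have b2 : ∑ k ∈ Finset.range N, ‖h.eval ((r : ℂ) * w ^ k)‖ ^ 2 ≤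
        ∑ k ∈ Finset.range N, c ^ 2 * ∑ j, ‖u j + (r : ℂ) * w ^ k * v j‖ ^ 2 := by
      refine Finset.sum_le_sum fun k _ => ?_
      have hwk : ‖w ^ k‖ ^ 2 = 1 := by
        have := conj_pow hN0 hw k
        rw [← Complex.normSq_eq_conj_mul_self, Complex.normSq_eq_norm_sq] at this
        exact_mod_cast this
      have e1 : h.eval ((r : ℂ) * w ^ k) = ∑ j, MvPolynomial.eval (fun i => (r : ℂ) * w ^ k * z i) (P j) *
          (u j + (r : ℂ) * w ^ k * v j) := by
        rw [hh, eval_finsetSum]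
        refine Finset.sum_congr rfl fun j _ => ?_
        rw [eval_mul, sl_eval, eval_add, eval_C, eval_mul, eval_C, eval_X]
        ring
      have e2 : ∑ i, ‖(r : ℂ) * w ^ k * z i‖ ^ 2 < 1 := by
        have e3 : ∀ i, ‖(r : ℂ) * w ^ k * z i‖ ^ 2 = r ^ 2 * ‖z i‖ ^ 2 := by
          intro i
          rw [norm_mul, norm_mul, mul_pow, mul_pow, hwk, Complex.norm_real, Real.norm_of_nonneg hr0.le]
          ring
        rw [Finset.sum_congr rfl fun i _ => e3 i, ← Finset.mul_sum]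
        calc r ^ 2 * ∑ i, ‖z i‖ ^ 2 ≤ r ^ 2 * 1 := by gcongr
          _ < 1 := by rw [mul_one]; nlinarith
      rw [e1]
      have e4 : ‖∑ j, MvPolynomial.eval (fun i => (r : ℂ) * w ^ k * z i) (P j) *
          (u j + (r : ℂ) * w ^ k * v j)‖ ≤ ∑ j, ‖MvPolynomial.eval (fun i => (r : ℂ) * w ^ k * z i) (P j)‖ *
          ‖u j + (r : ℂ) * w ^ k * v j‖ :=
        (norm_sum_le _ _).trans (le_of_eq (Finset.sum_congr rfl fun j _ => norm_mul _ _))
      have e5 := Finset.sum_mul_sq_le_sq_mul_sq Finset.univ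
        (fun j => ‖MvPolynomial.eval (fun i => (r : ℂ) * w ^ k * z i) (P j)‖)
        (fun j => ‖u j + (r : ℂ) * w ^ k * v j‖)
      calc _ ≤ (∑ j, ‖MvPolynomial.eval (fun i => (r : ℂ) * w ^ k * z i) (P j)‖ *
          ‖u j + (r : ℂ) * w ^ k * v j‖) ^ 2 := by gcongr
        _ ≤ _ := e5
        _ ≤ _ := mul_le_mul_of_nonneg_right (hP _ e2) (Finset.sum_nonneg fun j _ => by positivity)
    have b3 : ∑ k ∈ Finset.range N, c ^ 2 * ∑ j, ‖u j + (r : ℂ) * w ^ k * v j‖ ^ 2 =
        N * (c ^ 2 * (∑ j, ‖u j‖ ^ 2 + r ^ 2 * ∑ j, ‖v j‖ ^ 2)) := by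
      rw [← Finset.mul_sum, Finset.sum_comm, Finset.sum_congr rfl fun j _ => avg (by omega) hw (u j) (v j) r,
        ← Finset.mul_sum, Finset.sum_add_distrib, ← Finset.mul_sum]
      ring
    have hNr : (0 : ℝ) < N := by exact_mod_cast hN0
    have b4 := b1.trans (b2.trans (le_of_eq b3))
    exact le_of_mul_le_mul_left b4 hNr
  rw [← h0, ← h1]
  -- let r → 1
  have l1 : Filter.Tendsto (fun r : ℝ => ‖h.coeff 0‖ ^ 2 + r ^ 2 * ‖h.coeff 1‖ ^ 2) (𝓝[<] 1)
      (𝓝 (‖h.coeff 0‖ ^ 2 + 1 ^ 2 * ‖h.coeff 1‖ ^ 2)) :=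
    (Continuous.tendsto (by fun_prop) 1).mono_left nhdsWithin_le_nhds
  have l2 : Filter.Tendsto (fun r : ℝ => c ^ 2 * (∑ j, ‖u j‖ ^ 2 + r ^ 2 * ∑ j, ‖v j‖ ^ 2)) (𝓝[<] 1)
      (𝓝 (c ^ 2 * (∑ j, ‖u j‖ ^ 2 + 1 ^ 2 * ∑ j, ‖v j‖ ^ 2))) :=
    (Continuous.tendsto (by fun_prop) 1).mono_left nhdsWithin_le_nhds
  have l3 := le_of_tendsto_of_tendsto l1 l2 (by
    filter_upwards [Ioo_mem_nhdsLT (show (0 : ℝ) < 1 by norm_num)] with r hr
    exact key r hr.1 hr.2)
  simpa using l3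

end Pool.Agent.X188.RowVN
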