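import Mathlib

/-! Multiplication operators by bounded measurable functions on `L²(μ)`, and translations. -/

open MeasureTheory Filter Topology Set
open scoped ENNReal

namespace Pool.Agent.X188

noncomputable section

variable {α : Type*} [MeasurableSpace α] {μ : Measure α}

/-- bounded measurable function with bound `C` -/
structure Bd (φ : α → ℂ) (C : ℝ) : Prop where
  meas : Measurable φ
  bd : ∀ x, ‖φ x‖ ≤ C

lemma Bd.memLp {φ : α → ℂ} {C : ℝ} (h : Bd φ C) : MemLp φ ∞ μ :=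
  memLp_top_of_bound h.meas.aestronglyMeasurable C (Eventually.of_forall h.bd)

/-- multiplication operator -/
def mulOp (μ : Measure α) {φ : α → ℂ} {C : ℝ} (h : Bd φ C) : Lp ℂ 2 μ →L[ℂ] Lp ℂ 2 μ :=
  (ContinuousLinearMap.mul ℂ ℂ).holderL μ ∞ 2 2 (h.memLp (μ := μ)).toLp

lemma mulOp_ae {φ : α → ℂ} {C : ℝ} (h : Bd φ C) (u : Lp ℂ 2 μ) :
    mulOp μ h u =ᵐ[μ] fun x => φ x * u x := by
  have h1 := (ContinuousLinearMap.mul ℂ ℂ).coeFn_holder (r := 2) (h.memLp (μ := μ)).toLp u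
  have h2 := (h.memLp (μ := μ)).coeFn_toLp
  simp only [mulOp, ContinuousLinearMap.holderL_apply_apply]
  filter_upwards [h1, h2] with x hx1 hx2
  rw [hx1, hx2]
  simp

lemma norm_mulOp_le {φ : α → ℂ} {C : ℝ} (h : Bd φ C) (u : Lp ℂ 2 μ) :
    ‖mulOp μ h u‖ ≤ C * ‖u‖ := by
  refine Lp.norm_le_mul_norm_of_ae_le_mul ?_
  filter_upwards [mulOp_ae h u] with x h1
  rw [h1, norm_mul]
  exact mul_le_mul_of_nonneg_right (h.bd x) (norm_nonneg _)

lemma norm_sq_eq_integral (u : Lp ℂ 2 μ) : ‖u‖ ^ 2 = ∫ x, ‖u x‖ ^ 2 ∂μ := by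
  have h := L2.inner_def (𝕜 := ℂ) u u
  have h2 : (inner ℂ u u : ℂ) = ((‖u‖ ^ 2 : ℝ) : ℂ) := by
    rw [inner_self_eq_norm_sq_to_K]; norm_cast
  have h3 : ∀ x, (inner ℂ (u x) (u x) : ℂ) = ((‖u x‖ ^ 2 : ℝ) : ℂ) := by
    intro x; rw [inner_self_eq_norm_sq_to_K]; norm_cast
  rw [h2] at h
  simp_rw [h3] at h
  rw [integral_complex_ofReal] at h
  exact_mod_cast h

lemma norm_add_sq_of_disj (u v : Lp ℂ 2 μ) (h : ∀ᵐ x ∂μ, u x = 0 ∨ v x = 0) :
    ‖u + v‖ ^ 2 = ‖u‖ ^ 2 + ‖v‖ ^ 2 := by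
  have h0 : inner ℂ u v = 0 := by
    rw [L2.inner_def]
    refine integral_eq_zero_of_ae ?_
    filter_upwards [h] with x hx
    rcases hx with hx | hx <;> simp [hx]
  have := norm_add_sq_eq_norm_sq_add_norm_sq_of_inner_eq_zero u v h0
  nlinarith [this]

/-- translation: `(trans t f)(s) = f (s - t)` -/
def trans (t : ℝ) : Lp ℂ 2 (volume : Measure ℝ) →L[ℂ] Lp ℂ 2 (volume : Measure ℝ) :=
  (Lp.compMeasurePreservingₗᵢ ℂ (fun x : ℝ => x - t)
    (measurePreserving_sub_right volume t)).toContinuousLinearMap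

lemma trans_ae (t : ℝ) (u : Lp ℂ 2 (volume : Measure ℝ)) :
    trans t u =ᵐ[volume] fun x => u (x - t) :=
  Lp.coeFn_compMeasurePreserving u (measurePreserving_sub_right volume t)

lemma norm_trans (t : ℝ) (u : Lp ℂ 2 (volume : Measure ℝ)) : ‖trans t u‖ = ‖u‖ :=
  (Lp.compMeasurePreservingₗᵢ ℂ (fun x : ℝ => x - t)
    (measurePreserving_sub_right volume t)).norm_map u

lemma continuous_trans (u : Lp ℂ 2 (volume : Measure ℝ)) : Continuous fun t => trans t u := by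
  have h : Continuous fun t : ℝ => (⟨fun x : ℝ => x - t, by fun_prop⟩ : C(ℝ, ℝ)) := by
    refine ContinuousMap.continuous_of_continuous_uncurry _ ?_
    simp only [Function.uncurry_def]
    exact continuous_snd.sub continuous_fst
  exact Continuous.compMeasurePreservingLp (f := fun _ => u) continuous_const h
    (fun t => measurePreserving_sub_right volume t) (by norm_num)

end

end Pool.Agent.X188
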