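import Mathlib

/-! Nuclear operators on Hilbert spaces: the basic obstruction. -/

set_option autoImplicit false
set_option linter.unusedSectionVars false
open scoped InnerProductSpace Topology

namespace Pool.Agent.X188.Nuc

universe u
variable {H : Type u} [NormedAddCommGroup H] [InnerProductSpace ℂ H] [CompleteSpace H]

/-- `T = ∑ ⟨x i, ·⟩ y i` with `∑ ‖x i‖ ‖y i‖ < ∞`. -/
def IsNuclear (T : H →L[ℂ] H) : Prop :=
  ∃ (ι : Type) (x y : ι → H), Summable (fun i => ‖x i‖ * ‖y i‖) ∧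
    ∀ v, HasSum (fun i => ⟪x i, v⟫_ℂ • y i) (T v)

theorem IsNuclear.comp {T : H →L[ℂ] H} (h : IsNuclear T) (A B : H →L[ℂ] H) :
    IsNuclear (B ∘L T ∘L A) := by
  obtain ⟨ι, x, y, hs, hT⟩ := h
  refine ⟨ι, fun i => (ContinuousLinearMap.adjoint A) (x i), fun i => B (y i), ?_, ?_⟩
  · refine Summable.of_nonneg_of_le (fun i => by positivity) (fun i => ?_)
      (hs.mul_left (‖ContinuousLinearMap.adjoint A‖ * ‖B‖))
    have h1 := (ContinuousLinearMap.adjoint A).le_opNorm (x i)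
    have h2 := B.le_opNorm (y i)
    calc ‖(ContinuousLinearMap.adjoint A) (x i)‖ * ‖B (y i)‖
        ≤ (‖ContinuousLinearMap.adjoint A‖ * ‖x i‖) * (‖B‖ * ‖y i‖) := by gcongr
      _ = _ := by ring
  · intro v
    have h1 := (hT (A v)).mapL B
    have e : (fun i => ⟪(ContinuousLinearMap.adjoint A) (x i), v⟫_ℂ • B (y i)) =
        fun i => B (⟪x i, A v⟫_ℂ • y i) := by
      funext i
      rw [ContinuousLinearMap.adjoint_inner_left, map_smul]
    rw [e]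
    exact h1

theorem IsNuclear.bound {S : H →L[ℂ] H} (h : IsNuclear S) :
    ∃ C : ℝ, ∀ (e g : ℕ → H), Orthonormal ℂ e → Orthonormal ℂ g → ∀ N : ℕ,
      ‖∑ k ∈ Finset.range N, ⟪g k, S (e k)⟫_ℂ‖ ≤ C := by
  obtain ⟨ι, x, y, hs, hT⟩ := h
  refine ⟨∑' i, ‖x i‖ * ‖y i‖, ?_⟩
  intro e g he hg N
  have h1 : ∀ k, HasSum (fun i => ⟪x i, e k⟫_ℂ * ⟪g k, y i⟫_ℂ) ⟪g k, S (e k)⟫_ℂ := by
    intro k
    have h2 := (hT (e k)).mapL (innerSL ℂ (g k))
    have e2 : (fun i => ⟪x i, e k⟫_ℂ * ⟪g k, y i⟫_ℂ) =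
        fun i => (innerSL ℂ (g k)) (⟪x i, e k⟫_ℂ • y i) := by
      funext i
      rw [map_smul, innerSL_apply_apply, smul_eq_mul]
    rw [e2]
    exact h2
  have h3 := hasSum_sum (s := Finset.range N) (fun k _ => h1 k)
  refine h3.norm_le_of_bounded hs.hasSum (fun i => ?_)
  refine (norm_sum_le _ _).trans ?_
  have h4 := Real.sum_mul_le_sqrt_mul_sqrt (Finset.range N) (fun k => ‖⟪x i, e k⟫_ℂ‖)
    (fun k => ‖⟪g k, y i⟫_ℂ‖)
  have h5 : √(∑ k ∈ Finset.range N, ‖⟪x i, e k⟫_ℂ‖ ^ 2) ≤ ‖x i‖ := by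
    apply Real.sqrt_le_iff.2 ⟨norm_nonneg _, ?_⟩
    have := he.sum_inner_products_le (x i) (s := Finset.range N)
    refine le_trans (le_of_eq (Finset.sum_congr rfl fun k _ => ?_)) this
    rw [norm_inner_symm]
  have h6 : √(∑ k ∈ Finset.range N, ‖⟪g k, y i⟫_ℂ‖ ^ 2) ≤ ‖y i‖ := by
    apply Real.sqrt_le_iff.2 ⟨norm_nonneg _, ?_⟩
    exact hg.sum_inner_products_le (y i) (s := Finset.range N)
  calc ∑ k ∈ Finset.range N, ‖⟪x i, e k⟫_ℂ * ⟪g k, y i⟫_ℂ‖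
      = ∑ k ∈ Finset.range N, ‖⟪x i, e k⟫_ℂ‖ * ‖⟪g k, y i⟫_ℂ‖ :=
        Finset.sum_congr rfl fun k _ => norm_mul _ _
    _ ≤ _ := h4
    _ ≤ ‖x i‖ * ‖y i‖ := mul_le_mul h5 h6 (Real.sqrt_nonneg _) (norm_nonneg _)

/-- If `S e_k = c_k g_k` with `∑ c_k = ∞`, `c_k ≥ 0`, then `S` is not nuclear. -/
theorem not_nuclear {S : H →L[ℂ] H} (e g : ℕ → H) (he : Orthonormal ℂ e) (hg : Orthonormal ℂ g)
    (c : ℕ → ℝ) (hc : ∀ k, 0 ≤ c k) (hS : ∀ k, S (e k) = (c k : ℂ) • g k) (hsum : ¬ Summable c) :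
    ¬ IsNuclear S := by
  intro h
  obtain ⟨C, hC⟩ := h.bound
  apply hsum
  refine summable_of_sum_range_le (c := C) hc (fun N => ?_)
  have h1 := hC e g he hg N
  have h2 : ∑ k ∈ Finset.range N, ⟪g k, S (e k)⟫_ℂ = ((∑ k ∈ Finset.range N, c k : ℝ) : ℂ) := by
    push_cast
    refine Finset.sum_congr rfl fun k _ => ?_
    rw [hS, inner_smul_right, inner_self_eq_norm_sq_to_K, hg.1 k]
    simp
  rw [h2, Complex.norm_real] at h1
  exact (le_abs_self _).trans h1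

theorem norm_abs_apply (T : H →L[ℂ] H) (v : H) : ‖CFC.abs T v‖ = ‖T v‖ := by
  have h1 : ‖CFC.abs T v‖ ^ 2 = ‖T v‖ ^ 2 := by
    have hs : star (CFC.abs T) = CFC.abs T := (IsSelfAdjoint.of_nonneg (CFC.abs_nonneg T)).star_eq
    have e1 : ⟪CFC.abs T v, CFC.abs T v⟫_ℂ = ⟪T v, T v⟫_ℂ := by
      have a1 : ⟪CFC.abs T v, CFC.abs T v⟫_ℂ = ⟪(CFC.abs T * CFC.abs T) v, v⟫_ℂ := by
        nth_rewrite 3 [← hs]
        exact (ContinuousLinearMap.adjoint_inner_left (CFC.abs T) v (CFC.abs T v)).symm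
      have a2 : ⟪T v, T v⟫_ℂ = ⟪(star T * T) v, v⟫_ℂ :=
        (ContinuousLinearMap.adjoint_inner_left T v (T v)).symm
      rw [a1, a2, CFC.abs_mul_abs]
    have e2 := congrArg RCLike.re e1
    rwa [inner_self_eq_norm_sq, inner_self_eq_norm_sq] at e2
  exact (sq_eq_sq₀ (norm_nonneg _) (norm_nonneg _)).1 h1

/-- if `|T|` has an orthonormal eigenbasis with summable eigenvalues then `T` is nuclear -/
theorem nuclear_of_eigen {T : H →L[ℂ] H} {ι : Type} (b : HilbertBasis ι ℂ H) (s : ι → ℝ)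
    (hb : ∀ i, CFC.abs T (b i) = (s i : ℂ) • b i) (hs : Summable s) : IsNuclear T := by
  refine ⟨ι, fun i => b i, fun i => T (b i), ?_, ?_⟩
  · refine hs.abs.congr (fun i => ?_)
    rw [← norm_abs_apply T, hb, norm_smul, b.orthonormal.1 i, Complex.norm_real]
    simp
  · intro v
    have h1 := (b.hasSum_repr v).mapL T
    have e : (fun i => ⟪b i, v⟫_ℂ • T (b i)) = fun i => T (b.repr v i • b i) := by
      funext i
      rw [map_smul, b.repr_apply_apply]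
    rw [e]
    exact h1

end Pool.Agent.X188.Nuc
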