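import Mathlib
import Pool.Agent.X188.MulOp
import Pool.Agent.X188.Nuc

/-! The fractional part integral operator on `L²([0,1])`. -/

set_option autoImplicit false
set_option linter.unusedSectionVars false
open MeasureTheory Set Filter
open scoped InnerProductSpace Topology ENNReal

namespace Pool.Agent.X188.FracOp

noncomputable section

/-- Lebesgue measure on `[0,1]` -/
abbrev mu : Measure ℝ := volume.restrict (Icc (0 : ℝ) 1)

/-- `L²([0,1])` -/
abbrev L2 : Type := Lp ℂ 2 mu

/-- the kernel -/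
def Ker (y u : ℝ) : ℝ := Int.fract (u / y) / (u / y)

instance : IsProbabilityMeasure mu := ⟨by simp [mu]⟩

theorem ker_meas : Measurable fun p : ℝ × ℝ => Ker p.1 p.2 := by
  unfold Ker
  have h1 : Measurable fun p : ℝ × ℝ => p.2 / p.1 := measurable_snd.div measurable_fst
  exact (measurable_fract.comp h1).div h1

theorem ker_bd (y u : ℝ) : |Ker y u| ≤ 1 ∨ u / y < 0 := by
  rcases lt_or_ge (u / y) 0 with h | h
  · right; exact h
  · left
    unfold Ker
    rw [abs_div, abs_of_nonneg (Int.fract_nonneg _), abs_of_nonneg h]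
    apply div_le_one_of_le₀ _ h
    rw [Int.fract]
    have : (0 : ℤ) ≤ ⌊u / y⌋ := Int.floor_nonneg.2 h
    have : (0 : ℝ) ≤ ⌊u / y⌋ := by exact_mod_cast this
    linarith

theorem ker_bd' {y u : ℝ} (hy : y ∈ Icc (0 : ℝ) 1) (hu : u ∈ Icc (0 : ℝ) 1) : |Ker y u| ≤ 1 := by
  rcases ker_bd y u with h | h
  · exact h
  · exact absurd h (not_lt.2 (div_nonneg hu.1 hy.1))

theorem ae_mem : ∀ᵐ y ∂mu, y ∈ Icc (0 : ℝ) 1 := ae_restrict_mem measurableSet_Icc

/-- the integral -/
def Tf (h : L2) (y : ℝ) : ℂ := ∫ u, (Ker y u : ℂ) * h u ∂mu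

theorem h_int (h : L2) : Integrable (fun u => h u) mu :=
  (Lp.memLp h).integrable (by norm_num)

theorem kh_int {y : ℝ} (hy : y ∈ Icc (0 : ℝ) 1) (h : L2) :
    Integrable (fun u => (Ker y u : ℂ) * h u) mu := by
  refine (h_int h).bdd_mul (c := 1) ?_ ?_
  · exact (Complex.measurable_ofReal.comp (ker_meas.comp (measurable_const.prodMk measurable_id))).aestronglyMeasurable
  · filter_upwards [ae_mem] with u hu
    rw [Complex.norm_real]
    exact ker_bd' hy hu

theorem norm_one_le (h : L2) : ∫ u, ‖h u‖ ∂mu ≤ ‖h‖ := by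
  have h1 : eLpNorm h 1 mu ≤ eLpNorm h 2 mu :=
    eLpNorm_le_eLpNorm_of_exponent_le (by norm_num) (Lp.aestronglyMeasurable h)
  have h2 : ∫ u, ‖h u‖ ∂mu = (eLpNorm h 1 mu).toReal := by
    rw [eLpNorm_one_eq_lintegral_enorm, integral_norm_eq_lintegral_enorm (Lp.aestronglyMeasurable h)]
  rw [h2, Lp.norm_def]
  exact ENNReal.toReal_mono (Lp.eLpNorm_ne_top h) h1

theorem Tf_bd (h : L2) {y : ℝ} (hy : y ∈ Icc (0 : ℝ) 1) : ‖Tf h y‖ ≤ ‖h‖ := by
  refine (norm_integral_le_integral_norm _).trans ?_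
  refine le_trans ?_ (norm_one_le h)
  refine integral_mono_ae (kh_int hy h).norm (h_int h).norm ?_
  filter_upwards [ae_mem] with u hu
  rw [norm_mul, Complex.norm_real]
  exact mul_le_of_le_one_left (norm_nonneg _) (ker_bd' hy hu)

theorem Tf_meas (h : L2) : AEStronglyMeasurable (Tf h) mu := by
  have h1 : AEStronglyMeasurable (fun p : ℝ × ℝ => (Ker p.1 p.2 : ℂ) * h p.2) (mu.prod mu) := by
    apply AEStronglyMeasurable.mul
    · exact (Complex.measurable_ofReal.comp ker_meas).aestronglyMeasurable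
    · exact (Lp.aestronglyMeasurable h).comp_snd
  exact h1.integral_prod_right'

theorem Tf_memLp (h : L2) : MemLp (Tf h) 2 mu := by
  refine MemLp.of_bound (Tf_meas h) ‖h‖ ?_
  filter_upwards [ae_mem] with y hy
  exact Tf_bd h hy

theorem Tf_add (h g : L2) {y : ℝ} (hy : y ∈ Icc (0 : ℝ) 1) : Tf (h + g) y = Tf h y + Tf g y := by
  unfold Tf
  rw [← integral_add (kh_int hy h) (kh_int hy g)]
  apply integral_congr_ae
  filter_upwards [Lp.coeFn_add h g] with u hu
  rw [hu, Pi.add_apply, mul_add]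

theorem Tf_smul (c : ℂ) (h : L2) (y : ℝ) : Tf (c • h) y = c * Tf h y := by
  unfold Tf
  rw [← integral_const_mul]
  apply integral_congr_ae
  filter_upwards [Lp.coeFn_smul c h] with u hu
  rw [hu, Pi.smul_apply, smul_eq_mul]
  ring

/-- the operator -/
def TT : L2 →L[ℂ] L2 :=
  LinearMap.mkContinuous
    { toFun := fun h => (Tf_memLp h).toLp
      map_add' := fun h g => by
        apply Lp.ext
        have h1 := Lp.coeFn_add (Tf_memLp h).toLp (Tf_memLp g).toLp
        filter_upwards [(Tf_memLp (h + g)).coeFn_toLp, (Tf_memLp h).coeFn_toLp,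
          (Tf_memLp g).coeFn_toLp, h1, ae_mem] with y a1 a2 a3 a4 a5
        rw [a1, a4, Pi.add_apply, a2, a3, Tf_add h g a5]
      map_smul' := fun c h => by
        apply Lp.ext
        have h1 := Lp.coeFn_smul c (Tf_memLp h).toLp
        filter_upwards [(Tf_memLp (c • h)).coeFn_toLp, (Tf_memLp h).coeFn_toLp, h1] with y a1 a2 a3
        rw [a1, RingHom.id_apply, a3, Pi.smul_apply, a2, Tf_smul, smul_eq_mul] } 1 (by
    intro h
    rw [one_mul]
    have h1 : ∀ᵐ y ∂mu, ‖((Tf_memLp h).toLp : L2) y‖ ≤ ‖h‖ := by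
      filter_upwards [(Tf_memLp h).coeFn_toLp, ae_mem] with y a1 a2
      rw [a1]
      exact Tf_bd h a2
    have h2 := Lp.norm_le_of_ae_bound (norm_nonneg h) h1
    refine h2.trans (le_of_eq ?_)
    have h3 : measureUnivNNReal mu = 1 := by
      unfold measureUnivNNReal
      rw [measure_univ]
      rfl
    rw [h3]
    simp)

theorem TT_ae (h : L2) : ∀ᵐ y ∂mu, TT h y = ∫ u, (Ker y u : ℂ) * h u ∂mu :=
  (Tf_memLp h).coeFn_toLp

/-! ### trigonometric integrals -/

theorem sin_int (m : ℤ) : Real.sin (4 * Real.pi * m * 1) = 0 := by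
  have : (4 * Real.pi * m * 1) = ((4 * m : ℤ) : ℝ) * Real.pi := by push_cast; ring
  rw [this, Real.sin_int_mul_pi]

theorem sin_half (m : ℤ) : Real.sin (4 * Real.pi * m * (1 / 2)) = 0 := by
  have : (4 * Real.pi * m * (1 / 2)) = ((2 * m : ℤ) : ℝ) * Real.pi := by push_cast; ring
  rw [this, Real.sin_int_mul_pi]

theorem cos_int (m : ℤ) : Real.cos (4 * Real.pi * m * 1) = 1 := by
  have : (4 * Real.pi * m * 1) = ((2 * m : ℤ) : ℝ) * (2 * Real.pi) := by push_cast; ring
  rw [this, Real.cos_int_mul_two_pi]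

theorem cos_half (m : ℤ) : Real.cos (4 * Real.pi * m * (1 / 2)) = 1 := by
  have : (4 * Real.pi * m * (1 / 2)) = (m : ℝ) * (2 * Real.pi) := by ring
  rw [this, Real.cos_int_mul_two_pi]

theorem int_cos_gen (c : ℝ) (hc : c ≠ 0) (a b : ℝ) :
    ∫ u in a..b, 2 * Real.cos (c * u) = 2 * Real.sin (c * b) / c - 2 * Real.sin (c * a) / c := by
  have h : ∀ u ∈ uIcc a b, HasDerivAt (fun u => 2 * Real.sin (c * u) / c) (2 * Real.cos (c * u)) u := by
    intro u _
    have h1 : HasDerivAt (fun u : ℝ => c * u) c u := by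
      simpa using (hasDerivAt_id u).const_mul c
    have h2 := ((h1.sin).const_mul 2).div_const c
    refine h2.congr_deriv ?_
    field_simp
  exact intervalIntegral.integral_eq_sub_of_hasDerivAt h (by
    apply Continuous.intervalIntegrable; fun_prop)

theorem int_ucos_gen (c : ℝ) (hc : c ≠ 0) (a b : ℝ) :
    ∫ u in a..b, u * (2 * Real.cos (c * u)) = 2 * (b * Real.sin (c * b) / c + Real.cos (c * b) / c ^ 2)
      - 2 * (a * Real.sin (c * a) / c + Real.cos (c * a) / c ^ 2) := by
  have h : ∀ u ∈ uIcc a b, HasDerivAt (fun u => 2 * (u * Real.sin (c * u) / c + Real.cos (c * u) / c ^ 2))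
      (u * (2 * Real.cos (c * u))) u := by
    intro u _
    have h1 : HasDerivAt (fun u : ℝ => c * u) c u := by
      simpa using (hasDerivAt_id u).const_mul c
    have h2 := ((((hasDerivAt_id u).mul h1.sin).div_const c).add (h1.cos.div_const (c ^ 2))).const_mul 2
    refine h2.congr_deriv ?_
    simp only [id]
    field_simp
    ring
  exact intervalIntegral.integral_eq_sub_of_hasDerivAt h (by
    apply Continuous.intervalIntegrable; fun_prop)

/-- frequencies -/
def fq (k : ℕ) : ℝ := 4 * Real.pi * ((k : ℤ) + 1 : ℤ)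

theorem fq_pos (k : ℕ) : 0 < fq k := by
  unfold fq
  have : (0 : ℝ) < (((k : ℤ) + 1 : ℤ) : ℝ) := by exact_mod_cast Nat.succ_pos k
  positivity

theorem int_cos_zero (m : ℤ) (hm : m ≠ 0) :
    ∫ u in (1 / 2 : ℝ)..1, 2 * Real.cos (4 * Real.pi * m * u) = 0 := by
  rw [int_cos_gen _ (by
    have : (m : ℝ) ≠ 0 := by exact_mod_cast hm
    have := Real.pi_pos
    positivity), sin_int, sin_half]
  simp

theorem int_cc (j k : ℕ) : ∫ u in (1 / 2 : ℝ)..1, (2 * Real.cos (fq j * u)) * (2 * Real.cos (fq k * u)) =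
    if j = k then 1 else 0 := by
  have h1 : ∀ u : ℝ, (2 * Real.cos (fq j * u)) * (2 * Real.cos (fq k * u)) =
      2 * Real.cos (4 * Real.pi * ((j : ℤ) - k : ℤ) * u) + 2 * Real.cos (4 * Real.pi * ((j : ℤ) + k + 2 : ℤ) * u) := by
    intro u
    have e1 : 4 * Real.pi * ((j : ℤ) - k : ℤ) * u = fq j * u - fq k * u := by
      unfold fq; push_cast; ring
    have e2 : 4 * Real.pi * ((j : ℤ) + k + 2 : ℤ) * u = fq j * u + fq k * u := by
      unfold fq; push_cast; ring
    rw [e1, e2, Real.cos_sub, Real.cos_add]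
    ring
  rw [intervalIntegral.integral_congr (fun u _ => h1 u), intervalIntegral.integral_add
    (by apply Continuous.intervalIntegrable; fun_prop)
    (by apply Continuous.intervalIntegrable; fun_prop), int_cos_zero ((j : ℤ) + k + 2) (by omega)]
  split_ifs with h
  · subst h
    simp
    norm_num
  · rw [int_cos_zero _ (by omega)]
    simp

theorem int_ss (j k : ℕ) : ∫ u in (1 / 2 : ℝ)..1, (2 * Real.sin (fq j * u)) * (2 * Real.sin (fq k * u)) =
    if j = k then 1 else 0 := by
  have h1 : ∀ u : ℝ, (2 * Real.sin (fq j * u)) * (2 * Real.sin (fq k * u)) =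
      2 * Real.cos (4 * Real.pi * ((j : ℤ) - k : ℤ) * u) - 2 * Real.cos (4 * Real.pi * ((j : ℤ) + k + 2 : ℤ) * u) := by
    intro u
    have e1 : 4 * Real.pi * ((j : ℤ) - k : ℤ) * u = fq j * u - fq k * u := by
      unfold fq; push_cast; ring
    have e2 : 4 * Real.pi * ((j : ℤ) + k + 2 : ℤ) * u = fq j * u + fq k * u := by
      unfold fq; push_cast; ring
    rw [e1, e2, Real.cos_sub, Real.cos_add]
    ring
  rw [intervalIntegral.integral_congr (fun u _ => h1 u), intervalIntegral.integral_sub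
    (by apply Continuous.intervalIntegrable; fun_prop)
    (by apply Continuous.intervalIntegrable; fun_prop), int_cos_zero ((j : ℤ) + k + 2) (by omega)]
  split_ifs with h
  · subst h
    simp
    norm_num
  · rw [int_cos_zero _ (by omega)]
    simp

theorem ker_low {y u : ℝ} (hu : 0 < u) (huy : u < y) : Ker y u * u = u := by
  have hy : 0 < y := hu.trans huy
  unfold Ker
  have h1 : Int.fract (u / y) = u / y := by
    rw [Int.fract_eq_self]
    exact ⟨by positivity, by rwa [div_lt_one hy]⟩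
  rw [h1, div_self (by positivity), one_mul]

theorem ker_high {y u : ℝ} (hy : 1 / 2 < y) (hyu : y ≤ u) (hu1 : u ≤ 1) : Ker y u * u = u - y := by
  have hy0 : 0 < y := by linarith
  have hu0 : 0 < u := by linarith
  unfold Ker
  have h1 : Int.fract (u / y) = u / y - 1 := by
    rw [Int.fract_eq_iff]
    refine ⟨?_, ?_, 1, by push_cast; ring⟩
    · rw [sub_nonneg, le_div_iff₀ hy0]; linarith
    · rw [sub_lt_iff_lt_add, div_lt_iff₀ hy0]; linarith
  rw [h1]
  field_simp

theorem key_int (k : ℕ) {y : ℝ} (hy : 1 / 2 < y) (hy1 : y ≤ 1) :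
    ∫ u in (1 / 2 : ℝ)..1, Ker y u * (u * (2 * Real.cos (fq k * u))) = y * (2 * Real.sin (fq k * y)) / fq k := by
  have hc := (fq_pos k).ne'
  have e1 : ∫ u in (1 / 2 : ℝ)..y, Ker y u * (u * (2 * Real.cos (fq k * u))) =
      ∫ u in (1 / 2 : ℝ)..y, u * (2 * Real.cos (fq k * u)) := by
    apply intervalIntegral.integral_congr_ae
    have : ∀ᵐ u : ℝ, u ≠ y := by simp [ae_iff, measure_singleton]
    filter_upwards [this] with u hu hu2
    rw [uIoc_of_le hy.le] at hu2
    rw [← mul_assoc (Ker y u), ker_low (by linarith [hu2.1]) (lt_of_le_of_ne hu2.2 hu)]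
  have e2 : ∫ u in y..1, Ker y u * (u * (2 * Real.cos (fq k * u))) =
      ∫ u in y..1, (u * (2 * Real.cos (fq k * u)) - y * (2 * Real.cos (fq k * u))) := by
    apply intervalIntegral.integral_congr_ae
    refine Eventually.of_forall (fun u hu2 => ?_)
    rw [uIoc_of_le hy1] at hu2
    rw [← mul_assoc (Ker y u), ker_high hy hu2.1.le hu2.2]
    ring
  have i1 : IntervalIntegrable (fun u => Ker y u * (u * (2 * Real.cos (fq k * u)))) volume (1 / 2) y := by
    refine (Continuous.intervalIntegrable (u := fun u : ℝ => u * (2 * Real.cos (fq k * u)))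
      (by fun_prop) _ _).congr_ae ?_
    have : ∀ᵐ u : ℝ ∂(volume.restrict (uIoc (1 / 2) y)), u ≠ y := by
      apply ae_restrict_of_ae
      simp [ae_iff, measure_singleton]
    filter_upwards [this, ae_restrict_mem measurableSet_uIoc] with u hu hu2
    rw [uIoc_of_le hy.le] at hu2
    rw [← mul_assoc (Ker y u), ker_low (by linarith [hu2.1]) (lt_of_le_of_ne hu2.2 hu)]
  have i2 : IntervalIntegrable (fun u => Ker y u * (u * (2 * Real.cos (fq k * u)))) volume y 1 := by
    refine (Continuous.intervalIntegrable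
      (u := fun u : ℝ => (u * (2 * Real.cos (fq k * u)) - y * (2 * Real.cos (fq k * u))))
      (by fun_prop) _ _).congr_ae ?_
    filter_upwards [ae_restrict_mem measurableSet_uIoc] with u hu2
    rw [uIoc_of_le hy1] at hu2
    rw [← mul_assoc (Ker y u), ker_high hy hu2.1.le hu2.2]
    ring
  rw [← intervalIntegral.integral_add_adjacent_intervals i1 i2, e1, e2,
    intervalIntegral.integral_sub (by apply Continuous.intervalIntegrable; fun_prop)
      (by apply Continuous.intervalIntegrable; fun_prop), intervalIntegral.integral_const_mul,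
    int_ucos_gen _ hc, int_ucos_gen _ hc, int_cos_gen _ hc]
  have s1 : Real.sin (fq k * 1) = 0 := sin_int _
  have s2 : Real.sin (fq k * (1 / 2)) = 0 := sin_half _
  have s3 : Real.cos (fq k * 1) = 1 := cos_int _
  have s4 : Real.cos (fq k * (1 / 2)) = 1 := cos_half _
  rw [s1, s2, s3, s4]
  ring

/-! ### the two orthonormal families -/

/-- extension by zero of a continuous function on `[1/2,1]` -/
def ext (f : ℝ → ℝ) (u : ℝ) : ℂ := (Icc (1 / 2 : ℝ) 1).indicator (fun u => (f u : ℂ)) u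

theorem ext_memLp {f : ℝ → ℝ} (hf : Continuous f) {C : ℝ} (hC : ∀ u, |f u| ≤ C) :
    MemLp (ext f) 2 mu := by
  refine MemLp.of_bound ?_ C (Eventually.of_forall fun u => ?_)
  · exact ((Complex.measurable_ofReal.comp hf.measurable).indicator measurableSet_Icc).aestronglyMeasurable
  · unfold ext
    by_cases hu : u ∈ Icc (1 / 2 : ℝ) 1
    · rw [indicator_of_mem hu, Complex.norm_real]
      exact hC u
    · rw [indicator_of_notMem hu, norm_zero]
      exact (abs_nonneg _).trans (hC 0)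

theorem mu_half {g : ℝ → ℂ} : ∫ u, (Icc (1 / 2 : ℝ) 1).indicator g u ∂mu = ∫ u in (1 / 2 : ℝ)..1, g u := by
  rw [integral_indicator measurableSet_Icc, Measure.restrict_restrict measurableSet_Icc]
  have : Icc (1 / 2 : ℝ) 1 ∩ Icc (0 : ℝ) 1 = Icc (1 / 2 : ℝ) 1 := by
    apply inter_eq_left.2
    exact Icc_subset_Icc (by norm_num) le_rfl
  rw [this, intervalIntegral.integral_of_le (by norm_num), integral_Icc_eq_integral_Ioc]

theorem inner_ext {f g : ℝ → ℝ} (hf : Continuous f) (hg : Continuous g) {C D : ℝ}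
    (hC : ∀ u, |f u| ≤ C) (hD : ∀ u, |g u| ≤ D) :
    ⟪((ext_memLp hf hC).toLp : L2), ((ext_memLp hg hD).toLp : L2)⟫_ℂ =
      ((∫ u in (1 / 2 : ℝ)..1, f u * g u : ℝ) : ℂ) := by
  rw [L2.inner_def]
  have h1 : ∫ u, ⟪((ext_memLp hf hC).toLp : L2) u, ((ext_memLp hg hD).toLp : L2) u⟫_ℂ ∂mu =
      ∫ u, (Icc (1 / 2 : ℝ) 1).indicator (fun u => ((f u * g u : ℝ) : ℂ)) u ∂mu := by
    apply integral_congr_ae
    filter_upwards [(ext_memLp hf hC).coeFn_toLp, (ext_memLp hg hD).coeFn_toLp] with u h1 h2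
    rw [h1, h2]
    unfold ext
    by_cases hu : u ∈ Icc (1 / 2 : ℝ) 1
    · rw [indicator_of_mem hu, indicator_of_mem hu, indicator_of_mem hu]
      simp [mul_comm]
    · rw [indicator_of_notMem hu, indicator_of_notMem hu, indicator_of_notMem hu]
      simp
  rw [h1, mu_half, intervalIntegral.integral_ofReal]

theorem cos_cont (k : ℕ) : Continuous fun u : ℝ => 2 * Real.cos (fq k * u) := by fun_prop
theorem sin_cont (k : ℕ) : Continuous fun u : ℝ => 2 * Real.sin (fq k * u) := by fun_prop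
theorem cos_bd (k : ℕ) (u : ℝ) : |2 * Real.cos (fq k * u)| ≤ 2 := by
  rw [abs_mul, abs_two]; linarith [Real.abs_cos_le_one (fq k * u)]
theorem sin_bd (k : ℕ) (u : ℝ) : |2 * Real.sin (fq k * u)| ≤ 2 := by
  rw [abs_mul, abs_two]; linarith [Real.abs_sin_le_one (fq k * u)]

/-- the cosine family -/
def ee (k : ℕ) : L2 := (ext_memLp (cos_cont k) (cos_bd k)).toLp
/-- the sine family -/
def gg (k : ℕ) : L2 := (ext_memLp (sin_cont k) (sin_bd k)).toLp

theorem ee_on : Orthonormal ℂ ee := by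
  rw [orthonormal_iff_ite]
  intro j k
  unfold ee
  rw [inner_ext (cos_cont j) (cos_cont k) (cos_bd j) (cos_bd k), int_cc]
  split_ifs <;> simp

theorem gg_on : Orthonormal ℂ gg := by
  rw [orthonormal_iff_ite]
  intro j k
  unfold gg
  rw [inner_ext (sin_cont j) (sin_cont k) (sin_bd j) (sin_bd k), int_ss]
  split_ifs <;> simp

/-- the multiplier `u` -/
def aa (u : ℝ) : ℂ := (Icc (0 : ℝ) 1).indicator (fun u => (u : ℂ)) u
/-- the multiplier `1/y` on `[1/2,1]` -/
def bb (y : ℝ) : ℂ := (Icc (1 / 2 : ℝ) 1).indicator (fun y => ((y⁻¹ : ℝ) : ℂ)) y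

theorem aa_bd : X188.Bd aa 1 where
  meas := Complex.measurable_ofReal.indicator measurableSet_Icc
  bd u := by
    unfold aa
    by_cases hu : u ∈ Icc (0 : ℝ) 1
    · rw [indicator_of_mem hu, Complex.norm_real, Real.norm_of_nonneg hu.1]
      exact hu.2
    · rw [indicator_of_notMem hu, norm_zero]; norm_num

theorem bb_bd : X188.Bd bb 2 where
  meas := (Complex.measurable_ofReal.comp measurable_inv).indicator measurableSet_Icc
  bd u := by
    unfold bb
    by_cases hu : u ∈ Icc (1 / 2 : ℝ) 1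
    · have hu0 : 0 < u := by linarith [hu.1]
      rw [indicator_of_mem hu, Complex.norm_real, Real.norm_of_nonneg (inv_nonneg.2 hu0.le)]
      rw [inv_le_comm₀ hu0 (by norm_num)]
      linarith [hu.1]
    · rw [indicator_of_notMem hu, norm_zero]; norm_num

/-- the compressed operator -/
def SS : L2 →L[ℂ] L2 := (X188.mulOp mu bb_bd) ∘L TT ∘L (X188.mulOp mu aa_bd)

theorem SS_ee (k : ℕ) : SS (ee k) = (((fq k)⁻¹ : ℝ) : ℂ) • gg k := by
  apply Lp.ext
  have h1 := X188.mulOp_ae (μ := mu) aa_bd (ee k)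
  have h2 := (ext_memLp (cos_cont k) (cos_bd k)).coeFn_toLp (μ := mu)
  have h3 := TT_ae (X188.mulOp mu aa_bd (ee k))
  have h4 := X188.mulOp_ae (μ := mu) bb_bd (TT (X188.mulOp mu aa_bd (ee k)))
  have h5 := Lp.coeFn_smul (((fq k)⁻¹ : ℝ) : ℂ) (gg k)
  have h6 := (ext_memLp (sin_cont k) (sin_bd k)).coeFn_toLp (μ := mu)
  have h7 : ∀ᵐ y ∂mu, y ≠ 1 / 2 := by
    apply ae_restrict_of_ae
    simp [ae_iff, measure_singleton]
  filter_upwards [h3, h4, h5, h6, h7] with y a3 a4 a5 a6 a7
  change (X188.mulOp mu bb_bd) (TT ((X188.mulOp mu aa_bd) (ee k))) y = _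
  rw [a4, a5, Pi.smul_apply, smul_eq_mul]
  have a6' : (gg k) y = ext (fun u => 2 * Real.sin (fq k * u)) y := a6
  rw [a6']
  by_cases hy : y ∈ Icc (1 / 2 : ℝ) 1
  · have hy2 : 1 / 2 < y := lt_of_le_of_ne hy.1 (Ne.symm a7)
    have hy0 : 0 < y := by linarith
    rw [a3]
    have e1 : ∫ u, (Ker y u : ℂ) * (X188.mulOp mu aa_bd (ee k)) u ∂mu =
        ∫ u, (Icc (1 / 2 : ℝ) 1).indicator
          (fun u => ((Ker y u * (u * (2 * Real.cos (fq k * u))) : ℝ) : ℂ)) u ∂mu := by
      apply integral_congr_ae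
      filter_upwards [h1, h2] with u b1 b2
      rw [b1]
      have b2' : (ee k) u = ext (fun u => 2 * Real.cos (fq k * u)) u := b2
      rw [b2']
      unfold ext aa
      by_cases hu : u ∈ Icc (1 / 2 : ℝ) 1
      · have hu' : u ∈ Icc (0 : ℝ) 1 := ⟨by linarith [hu.1], hu.2⟩
        rw [indicator_of_mem hu, indicator_of_mem hu, indicator_of_mem hu']
        push_cast
        ring
      · rw [indicator_of_notMem hu, indicator_of_notMem hu]
        simp
    rw [e1, mu_half, intervalIntegral.integral_ofReal, key_int k hy2 hy.2]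
    unfold bb ext
    rw [indicator_of_mem hy, indicator_of_mem hy, ← Complex.ofReal_mul, ← Complex.ofReal_mul]
    congr 1
    field_simp
  · unfold bb ext
    rw [indicator_of_notMem hy, indicator_of_notMem hy]
    simp

theorem fq_not_summable : ¬ Summable fun k => (fq k)⁻¹ := by
  intro h
  have h1 : Summable fun k : ℕ => (1 : ℝ) / ((k + 1 : ℕ) : ℝ) := by
    refine (h.mul_left (4 * Real.pi)).congr (fun k => ?_)
    unfold fq
    have := Real.pi_pos
    push_cast
    field_simp
  have h2 := (summable_nat_add_iff (f := fun k : ℕ => (1 : ℝ) / (k : ℝ)) 1).1 h1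
  exact Real.not_summable_one_div_natCast h2

theorem TT_not_nuclear : ¬ Nuc.IsNuclear TT := by
  intro h
  have h1 : Nuc.IsNuclear SS := h.comp _ _
  exact Nuc.not_nuclear ee gg ee_on gg_on _ (fun k => (inv_pos.2 (fq_pos k)).le) SS_ee
    fq_not_summable h1

end

end Pool.Agent.X188.FracOp
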