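import Mathlib

/-! Small toolbox for positive semidefinite kernels on arbitrary sets. -/

open scoped ComplexOrder ComplexConjugate Matrix
open Matrix Filter Topology

namespace Pool.Agent.X188

variable {X : Type*}

lemma ker_herm {g : Matrix X X ℂ} (hg : g.PosSemidef) (x y : X) : conj (g x y) = g y x := by
  have := congrFun (congrFun hg.1 y) x
  simpa [Matrix.conjTranspose_apply] using this

/-- `f(x) conj f(y)` is a kernel -/
lemma ker_dyad (f : X → ℂ) : (Matrix.of fun x y => f x * conj (f y)).PosSemidef := by
  refine ⟨?_, fun c => ?_⟩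
  · ext x y
    simp [Matrix.conjTranspose_apply, mul_comm]
  · have h : (c.sum fun i xi ↦ c.sum fun j xj ↦
        star xi * (Matrix.of fun x y => f x * conj (f y)) i j * xj)
        = star (c.sum fun i xi => conj (f i) * xi) * (c.sum fun j xj ↦ conj (f j) * xj) := by
      simp only [Finsupp.sum, Matrix.of_apply, star_sum, Finset.sum_mul_sum, star_mul']
      refine Finset.sum_congr rfl fun i _ => Finset.sum_congr rfl fun j _ => ?_
      simp only [Complex.star_def, Complex.conj_conj]
      ring
    rw [h]
    exact star_mul_self_nonneg _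

/-- a pointwise sum of kernels is a kernel -/
lemma ker_hasSum {G : ℕ → Matrix X X ℂ} {g : Matrix X X ℂ} (hG : ∀ n, (G n).PosSemidef)
    (h : ∀ x y, HasSum (fun n => G n x y) (g x y)) : g.PosSemidef := by
  refine ⟨?_, fun c => ?_⟩
  · ext x y
    rw [Matrix.conjTranspose_apply]
    have h1 := (h y x).star
    have h2 : (fun n => star (G n y x)) = fun n => G n x y := by
      funext n
      have := ker_herm (hG n) y x
      simpa using this
    rw [h2] at h1
    exact h1.unique (h x y)
  · have h1 : HasSum (fun n => c.sum fun i xi ↦ c.sum fun j xj ↦ star xi * G n i j * xj)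
        (c.sum fun i xi ↦ c.sum fun j xj ↦ star xi * g i j * xj) := by
      simp only [Finsupp.sum]
      refine hasSum_sum fun i _ => hasSum_sum fun j _ => ?_
      exact ((h i j).mul_left _).mul_right _
    exact h1.nonneg fun n => (hG n).2 c

lemma ker_one : (Matrix.of fun (_ _ : X) => (1 : ℂ)).PosSemidef := by
  have := ker_dyad (X := X) (fun _ => 1)
  simpa using this

/-- `1/(1 - F(x) conj F(y))` is a kernel if `|F| < 1`. -/
lemma ker_szego {F : X → ℂ} (hF : ∀ x, ‖F x‖ < 1) :
    (Matrix.of fun x y => (1 - F x * conj (F y))⁻¹).PosSemidef := by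
  refine ker_hasSum (G := fun n => Matrix.of fun x y => (F x) ^ n * conj ((F y) ^ n))
    (fun n => ker_dyad fun x => F x ^ n) fun x y => ?_
  have h1 : ‖F x * conj (F y)‖ < 1 := by
    rw [norm_mul, RCLike.norm_conj]
    have := hF x
    have := hF y
    have := norm_nonneg (F x)
    have := norm_nonneg (F y)
    nlinarith
  have h2 := hasSum_geometric_of_norm_lt_one h1
  simp only [Matrix.of_apply]
  have h3 : (fun n : ℕ => F x ^ n * conj (F y ^ n)) = fun n => (F x * conj (F y)) ^ n := by
    funext n
    rw [map_pow, mul_pow]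
  rw [h3]
  exact h2

end Pool.Agent.X188
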