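import Mathlib

/-! Closed-range extensions: the abstract construction. -/

set_option autoImplicit false
set_option linter.unusedSectionVars false
open scoped InnerProductSpace Topology
open Module ContinuousLinearMap

namespace Pool.Agent.X188.CRExt

variable {𝕜 : Type} [RCLike 𝕜]
variable {E K : Type} [NormedAddCommGroup E] [InnerProductSpace 𝕜 E] [CompleteSpace E]
  [NormedAddCommGroup K] [InnerProductSpace 𝕜 K] [CompleteSpace K]

/-- the space `E ⊕ K` -/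
abbrev PP (E K : Type) : Type := WithLp 2 (E × K)

noncomputable section

def e1 : PP E K × PP E K →L[𝕜] E := WithLp.fstL 2 𝕜 E K ∘L ContinuousLinearMap.fst 𝕜 _ _
def e2 : PP E K × PP E K →L[𝕜] K := WithLp.sndL 2 𝕜 E K ∘L ContinuousLinearMap.fst 𝕜 _ _
def e3 : PP E K × PP E K →L[𝕜] E := WithLp.fstL 2 𝕜 E K ∘L ContinuousLinearMap.snd 𝕜 _ _
def e4 : PP E K × PP E K →L[𝕜] K := WithLp.sndL 2 𝕜 E K ∘L ContinuousLinearMap.snd 𝕜 _ _

def Dg (d : E →L[𝕜] E) (C : K →L[𝕜] K) : Submodule 𝕜 (PP E K × PP E K) :=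
  LinearMap.ker ((e2 - C ∘L e4 : PP E K × PP E K →L[𝕜] K) : PP E K × PP E K →ₗ[𝕜] K) ⊓
    LinearMap.ker ((e3 - d ∘L e1 : PP E K × PP E K →L[𝕜] E) : PP E K × PP E K →ₗ[𝕜] E)

def Ag (d : E →L[𝕜] E) (C : K →L[𝕜] K) (J : E →L[𝕜] K) : Submodule 𝕜 (PP E K × PP E K) :=
  Dg d C ⊓ LinearMap.ker ((e1 - (adjoint J) ∘L e4 : PP E K × PP E K →L[𝕜] E) :
    PP E K × PP E K →ₗ[𝕜] E)

def Sg (d : E →L[𝕜] E) (C : K →L[𝕜] K) (J : E →L[𝕜] K) : Submodule 𝕜 (PP E K × PP E K) :=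
  LinearMap.ker ((e2 - (J ∘L (e3 - d ∘L e1) + C ∘L e4) : PP E K × PP E K →L[𝕜] K) :
    PP E K × PP E K →ₗ[𝕜] K)

variable {d : E →L[𝕜] E} {C : K →L[𝕜] K} {J : E →L[𝕜] K}

theorem mem_Dg {p : PP E K × PP E K} : p ∈ Dg d C ↔ p.1.snd = C p.2.snd ∧ p.2.fst = d p.1.fst := by
  simp only [Dg, Submodule.mem_inf, LinearMap.mem_ker]
  exact and_congr sub_eq_zero sub_eq_zero

theorem mem_Ag {p : PP E K × PP E K} : p ∈ Ag d C J ↔
    (p.1.snd = C p.2.snd ∧ p.2.fst = d p.1.fst) ∧ p.1.fst = (adjoint J) p.2.snd := by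
  simp only [Ag, Submodule.mem_inf, LinearMap.mem_ker, mem_Dg]
  exact and_congr Iff.rfl sub_eq_zero

theorem mem_Sg {p : PP E K × PP E K} : p ∈ Sg d C J ↔
    p.1.snd = J (p.2.fst - d p.1.fst) + C p.2.snd := by
  simp only [Sg, LinearMap.mem_ker]
  exact sub_eq_zero

theorem closed_Dg : IsClosed (Dg d C : Set (PP E K × PP E K)) :=
  (ContinuousLinearMap.isClosed_ker _).inter (ContinuousLinearMap.isClosed_ker _)

theorem closed_Ag : IsClosed (Ag d C J : Set (PP E K × PP E K)) :=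
  closed_Dg.inter (ContinuousLinearMap.isClosed_ker _)

theorem closed_Sg : IsClosed (Sg d C J : Set (PP E K × PP E K)) :=
  ContinuousLinearMap.isClosed_ker _

variable (d C J) in
/-- standing assumptions -/
structure Good : Prop where
  dsym : ∀ u v, ⟪d u, v⟫_𝕜 = ⟪u, d v⟫_𝕜
  Csym : ∀ u v, ⟪C u, v⟫_𝕜 = ⟪u, C v⟫_𝕜
  inj : ∀ u v, J u + C v = 0 → u = 0 ∧ v = 0
  ddense : ∀ v, d v = 0 → v = 0
  dnon : ∃ e, ∀ u, d u ≠ e

theorem Good.Cinj (h : Good d C J) {v : K} (hv : C v = 0) : v = 0 :=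
  (h.inj 0 v (by rw [map_zero, zero_add, hv])).2

theorem fun_Dg (h : Good d C J) : ∀ x ∈ Dg d C, x.fst = 0 → x.snd = 0 := by
  rintro ⟨a, b⟩ hx h0
  rw [mem_Dg] at hx
  simp only at hx h0
  subst h0
  obtain ⟨h1, h2⟩ := hx
  have h3 : b.snd = 0 := h.Cinj h1.symm
  have h4 : b.fst = 0 := by rw [h2]; exact map_zero d
  apply WithLp.ofLp_injective 2
  exact Prod.ext h4 h3

theorem fun_Ag (h : Good d C J) : ∀ x ∈ Ag d C J, x.fst = 0 → x.snd = 0 :=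
  fun x hx => fun_Dg h x hx.1

theorem fun_Sg (h : Good d C J) : ∀ x ∈ Sg d C J, x.fst = 0 → x.snd = 0 := by
  rintro ⟨a, b⟩ hx h0
  rw [mem_Sg] at hx
  simp only at hx h0
  subst h0
  have h1 : J b.fst + C b.snd = 0 := by
    have h2 : (0 : PP E K).snd = 0 := rfl
    have h3 : (0 : PP E K).fst = 0 := rfl
    rw [h2, h3, map_zero, sub_zero] at hx
    exact hx.symm
  obtain ⟨h4, h3⟩ := h.inj _ _ h1
  apply WithLp.ofLp_injective 2
  exact Prod.ext h4 h3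

theorem Dg_adjoint (h : Good d C J) : (Dg d C).adjoint = Dg d C := by
  ext ⟨y, z⟩
  rw [Submodule.mem_adjoint_iff, mem_Dg]
  constructor
  · intro hh
    constructor
    · apply ext_inner_left 𝕜
      intro w
      have := hh (WithLp.toLp 2 (0, C w)) (WithLp.toLp 2 (0, w)) (by rw [mem_Dg]; simp)
      simp only [WithLp.prod_inner_apply] at this
      simp only [inner_zero_left, zero_add] at this
      rw [h.Csym] at this
      exact sub_eq_zero.1 this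
    · apply ext_inner_left 𝕜
      intro u
      have := hh (WithLp.toLp 2 (u, 0)) (WithLp.toLp 2 (d u, 0)) (by rw [mem_Dg]; simp)
      simp only [WithLp.prod_inner_apply] at this
      simp only [inner_zero_left, add_zero] at this
      rw [h.dsym] at this
      exact (sub_eq_zero.1 this).symm
  · rintro ⟨h1, h2⟩ a b hab
    rw [mem_Dg] at hab
    obtain ⟨h3, h4⟩ := hab
    simp only at h1 h2 h3 h4
    rw [WithLp.prod_inner_apply, WithLp.prod_inner_apply]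
    change ⟪b.fst, y.fst⟫_𝕜 + ⟪b.snd, y.snd⟫_𝕜 - (⟪a.fst, z.fst⟫_𝕜 + ⟪a.snd, z.snd⟫_𝕜) = 0
    rw [h1, h2, h3, h4, h.dsym, h.Csym]
    ring

theorem Ag_adjoint (h : Good d C J) : (Ag d C J).adjoint = Sg d C J := by
  ext ⟨y, z⟩
  rw [Submodule.mem_adjoint_iff, mem_Sg]
  constructor
  · intro hh
    apply ext_inner_left 𝕜
    intro w
    have := hh (WithLp.toLp 2 ((adjoint J) w, C w)) (WithLp.toLp 2 (d ((adjoint J) w), w))
      (by rw [mem_Ag]; simp)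
    simp only [WithLp.prod_inner_apply] at this
    rw [h.Csym, h.dsym, adjoint_inner_left, adjoint_inner_left] at this
    have h2 := sub_eq_zero.1 this
    rw [map_sub, inner_add_right, inner_sub_right]
    have h3 : ⟪w, J (d y.fst)⟫_𝕜 + ⟪w, y.snd⟫_𝕜 = ⟪w, J z.fst⟫_𝕜 + ⟪w, C z.snd⟫_𝕜 := h2
    change ⟪w, y.snd⟫_𝕜 = ⟪w, J z.fst⟫_𝕜 - ⟪w, J (d y.fst)⟫_𝕜 + ⟪w, C z.snd⟫_𝕜
    linear_combination h3
  · intro h1 a b hab
    rw [mem_Ag] at hab
    obtain ⟨⟨h3, h4⟩, h5⟩ := hab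
    simp only at h1 h3 h4 h5
    rw [WithLp.prod_inner_apply, WithLp.prod_inner_apply]
    change ⟪b.fst, y.fst⟫_𝕜 + ⟪b.snd, y.snd⟫_𝕜 - (⟪a.fst, z.fst⟫_𝕜 + ⟪a.snd, z.snd⟫_𝕜) = 0
    rw [h4, h1, h3, h5, h.Csym, h.dsym, inner_add_right, map_sub, inner_sub_right,
      adjoint_inner_left, adjoint_inner_left]
    ring

theorem Ag_le_Dg : Ag d C J ≤ Dg d C := fun _ hx => hx.1

theorem adjoint_anti {A B : Type} [NormedAddCommGroup A] [InnerProductSpace 𝕜 A]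
    [NormedAddCommGroup B] [InnerProductSpace 𝕜 B] {g g' : Submodule 𝕜 (A × B)} (h : g ≤ g') :
    g'.adjoint ≤ g.adjoint := by
  intro x hx
  rw [Submodule.mem_adjoint_iff] at hx ⊢
  exact fun a b hab => hx a b (h hab)

theorem le_adjoint_adjoint {A B : Type} [NormedAddCommGroup A] [InnerProductSpace 𝕜 A]
    [NormedAddCommGroup B] [InnerProductSpace 𝕜 B] (g : Submodule 𝕜 (A × B)) :
    g ≤ g.adjoint.adjoint := by
  rintro ⟨x, y⟩ hx
  rw [Submodule.mem_adjoint_iff]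
  intro a b hab
  rw [Submodule.mem_adjoint_iff] at hab
  have := hab x y hx
  simp only at this ⊢
  have h2 := sub_eq_zero.1 this
  rw [sub_eq_zero, ← inner_conj_symm b x, ← inner_conj_symm a y, h2]

theorem Dg_le_Sg (h : Good d C J) : Dg d C ≤ Sg d C J := by
  rw [← Dg_adjoint h, ← Ag_adjoint h]
  exact adjoint_anti Ag_le_Dg

/-- direct sum of graphs -/
def gsum (g₁ g₂ : Submodule 𝕜 (PP E K × PP E K)) :
    Submodule 𝕜 (PP (PP E K) (PP E K) × PP (PP E K) (PP E K)) :=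
  g₁.comap (((WithLp.fstL 2 𝕜 (PP E K) (PP E K)).prodMap (WithLp.fstL 2 𝕜 (PP E K) (PP E K)) :
    PP (PP E K) (PP E K) × PP (PP E K) (PP E K) →L[𝕜] PP E K × PP E K) :
      PP (PP E K) (PP E K) × PP (PP E K) (PP E K) →ₗ[𝕜] PP E K × PP E K) ⊓
  g₂.comap (((WithLp.sndL 2 𝕜 (PP E K) (PP E K)).prodMap (WithLp.sndL 2 𝕜 (PP E K) (PP E K)) :
    PP (PP E K) (PP E K) × PP (PP E K) (PP E K) →L[𝕜] PP E K × PP E K) :
      PP (PP E K) (PP E K) × PP (PP E K) (PP E K) →ₗ[𝕜] PP E K × PP E K)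

theorem mem_gsum {g₁ g₂ : Submodule 𝕜 (PP E K × PP E K)}
    {p : PP (PP E K) (PP E K) × PP (PP E K) (PP E K)} :
    p ∈ gsum g₁ g₂ ↔ (p.1.fst, p.2.fst) ∈ g₁ ∧ (p.1.snd, p.2.snd) ∈ g₂ := Iff.rfl

theorem gsum_closed {g₁ g₂ : Submodule 𝕜 (PP E K × PP E K)} (h₁ : IsClosed (g₁ : Set (PP E K × PP E K)))
    (h₂ : IsClosed (g₂ : Set (PP E K × PP E K))) :
    IsClosed (gsum g₁ g₂ : Set (PP (PP E K) (PP E K) × PP (PP E K) (PP E K))) :=
  (h₁.preimage (ContinuousLinearMap.continuous _)).inter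
    (h₂.preimage (ContinuousLinearMap.continuous _))

theorem gsum_fun {g₁ g₂ : Submodule 𝕜 (PP E K × PP E K)} (h₁ : ∀ x ∈ g₁, x.fst = 0 → x.snd = 0)
    (h₂ : ∀ x ∈ g₂, x.fst = 0 → x.snd = 0) : ∀ x ∈ gsum g₁ g₂, x.fst = 0 → x.snd = 0 := by
  rintro ⟨a, b⟩ hx h0
  rw [mem_gsum] at hx
  simp only at hx h0
  subst h0
  have h3 : b.fst = 0 := h₁ ((0 : PP (PP E K) (PP E K)).fst, b.fst) hx.1 rfl
  have h4 : b.snd = 0 := h₂ ((0 : PP (PP E K) (PP E K)).snd, b.snd) hx.2 rfl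
  apply WithLp.ofLp_injective 2
  exact Prod.ext h3 h4

theorem gsum_adjoint (g₁ g₂ : Submodule 𝕜 (PP E K × PP E K)) :
    (gsum g₁ g₂).adjoint = gsum g₁.adjoint g₂.adjoint := by
  ext ⟨y, z⟩
  rw [Submodule.mem_adjoint_iff, mem_gsum, Submodule.mem_adjoint_iff, Submodule.mem_adjoint_iff]
  constructor
  · intro h
    constructor
    · intro a b hab
      have := h (WithLp.toLp 2 (a, 0)) (WithLp.toLp 2 (b, 0)) ⟨hab, g₂.zero_mem⟩
      rw [WithLp.prod_inner_apply, WithLp.prod_inner_apply] at this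
      simpa using this
    · intro a b hab
      have := h (WithLp.toLp 2 (0, a)) (WithLp.toLp 2 (0, b)) ⟨g₁.zero_mem, hab⟩
      rw [WithLp.prod_inner_apply, WithLp.prod_inner_apply] at this
      simpa using this
  · rintro ⟨h1, h2⟩ a b hab
    rw [WithLp.prod_inner_apply, WithLp.prod_inner_apply]
    have e1 := sub_eq_zero.1 (h1 _ _ hab.1)
    have e2 := sub_eq_zero.1 (h2 _ _ hab.2)
    change ⟪b.fst, y.fst⟫_𝕜 + ⟪b.snd, y.snd⟫_𝕜 - (⟪a.fst, z.fst⟫_𝕜 + ⟪a.snd, z.snd⟫_𝕜) = 0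
    change ⟪b.fst, y.fst⟫_𝕜 = ⟪a.fst, z.fst⟫_𝕜 at e1
    change ⟪b.snd, y.snd⟫_𝕜 = ⟪a.snd, z.snd⟫_𝕜 at e2
    rw [e1, e2, sub_self]

end

end Pool.Agent.X188.CRExt
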