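import Pool.Agent.X188.SCM
import Pool.Agent.TH823.MRS.Circ2
import Pool.Agent.TH823.MRS.Fun

/-! The Moebius function with rotations is uniform on short intervals. -/

set_option autoImplicit false
set_option linter.unusedSectionVars false
set_option linter.deprecated false

open Finset Filter Topology

namespace Pool.Agent.X188.SC

open Pool.Agent.Helper188.NCM
open Pool.Agent.H398R3.NCM (ee_add ee_zero star_ee)

theorem short_of_expo (h : ℕ → ℂ) (hE : Pool.Agent.TH823.MRS.ExpoSmall h) (hb : ∀ n, ‖h n‖ ≤ 1)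
    (h0 : h 0 = 0) (θ : ℝ) : ShortUniform fun n => h n * ee (n * θ) := by
  refine ⟨fun n => by rw [norm_mul, norm_ee, mul_one]; exact hb n, fun ε hε => ?_⟩
  obtain ⟨W₀, X₀, hW⟩ := Pool.Agent.TH823.MRS.win_l1 h hE ε hε
  refine ⟨max W₀ 1, fun L hL => ⟨max X₀ L, fun N hN β => ?_⟩⟩
  have hL0 : W₀ ≤ L := le_trans (le_max_left _ _) hL
  have hL1 : 1 ≤ L := le_trans (le_max_right _ _) hL
  have hN0 : X₀ ≤ N := le_trans (le_max_left _ _) hN
  have hNL : L ≤ N := le_trans (le_max_right _ _) hN
  have key := hW N hN0 L hL0 hNL (θ + β)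
  set S : ℕ → ℂ := fun z => ∑ n ∈ Icc 1 (3 * N), if n ≤ z ∧ z < n + L then
    h n * Pool.Agent.H807R2.Dav.ee ((n : ℝ) * (θ + β)) else 0 with hS
  have h1 : ∀ n ∈ range N, ‖∑ i ∈ range L, h (n + i) * ee ((n + i : ℕ) * θ) * ee (β * i)‖ =
      ‖S (n + (L - 1))‖ := by
    intro n hn
    have hn' : n < N := mem_range.1 hn
    have e1 : S (n + (L - 1)) = ∑ i ∈ range L, h (n + i) * ee ((n + i : ℕ) * (θ + β)) := by
      rw [hS]
      simp only
      rw [← sum_filter]
      have e2 : ∑ i ∈ range L, h (n + i) * ee ((n + i : ℕ) * (θ + β)) =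
          ∑ j ∈ Ico n (n + L), h j * ee ((j : ℕ) * (θ + β)) := by
        rw [sum_Ico_eq_sum_range, Nat.add_sub_cancel_left]
      rw [e2]
      refine sum_subset_zero_on_sdiff ?_ ?_ ?_
      · intro j hj
        rw [mem_filter, mem_Icc] at hj
        rw [mem_Ico]
        omega
      · intro j hj
        have hj' := Finset.mem_sdiff.1 hj
        rw [mem_filter, mem_Icc, mem_Ico] at hj'
        have : j = 0 := by omega
        rw [this, h0, zero_mul]
      · intro j _
        rfl
    rw [e1]
    have e3 : ∑ i ∈ range L, h (n + i) * ee ((n + i : ℕ) * θ) * ee (β * i) =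
        ee (-(β * n)) * ∑ i ∈ range L, h (n + i) * ee ((n + i : ℕ) * (θ + β)) := by
      rw [mul_sum]
      refine sum_congr rfl fun i _ => ?_
      have e4 : ee ((n + i : ℕ) * (θ + β)) = ee ((n + i : ℕ) * θ) * (ee (β * n) * ee (β * i)) := by
        rw [← ee_add, ← ee_add]
        congr 1
        push_cast
        ring
      have e5 : ee (-(β * n)) * ee (β * n) = 1 := by
        rw [← ee_add, neg_add_cancel, ee_zero]
      calc h (n + i) * ee ((n + i : ℕ) * θ) * ee (β * i)
          = (ee (-(β * n)) * ee (β * n)) * (h (n + i) * ee ((n + i : ℕ) * θ) * ee (β * i)) := by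
            rw [e5, one_mul]
        _ = _ := by rw [e4]; ring
    rw [e3, norm_mul, norm_ee, one_mul]
  rw [sum_congr rfl h1]
  refine le_trans ?_ key
  rw [← sum_image (g := fun n => n + (L - 1)) (f := fun z => ‖S z‖) (s := range N)
    (fun a _ b _ hab => Nat.add_right_cancel hab)]
  refine sum_le_sum_of_subset_of_nonneg ?_ fun _ _ _ => norm_nonneg _
  intro z hz
  rw [mem_image] at hz
  obtain ⟨n, hn, rfl⟩ := hz
  rw [mem_range] at hn ⊢
  omega

theorem mob_short (θ : ℝ) :
    ShortUniform fun n => ((ArithmeticFunction.moebius n : ℤ) : ℂ) * ee (n * θ) := by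
  refine short_of_expo (fun n => ((ArithmeticFunction.moebius n : ℤ) : ℂ))
    Pool.Agent.TH823.MRS.expo_mob (fun n => ?_) (by simp) θ
  have h1 : |ArithmeticFunction.moebius n| ≤ 1 := ArithmeticFunction.abs_moebius_le_one
  rw [Complex.norm_intCast]
  exact_mod_cast h1

end Pool.Agent.X188.SC
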