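import Pool.Agent.Y165.GO.Fr

/-! Orderings of frames of translates. -/

set_option autoImplicit false
open scoped InnerProductSpace
open Pool.Agent.Results.MP_6c6e33_an.GaborOrbit

namespace Pool.Agent.X188.Transl

variable {H : Type} [NormedAddCommGroup H] [InnerProductSpace ℂ H]

/-- the closed linear span -/
def closedSpan (f : ℤ → H) : Submodule ℂ H := (Submodule.span ℂ (Set.range f)).topologicalClosure

/-- `f` is a frame for its closed linear span -/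
def IsFrameSeq (f : ℤ → H) : Prop :=
  ∃ A B : ℝ, 0 < A ∧ 0 < B ∧ ∀ x ∈ closedSpan f, Summable (fun k => ‖⟪f k, x⟫_ℂ‖ ^ 2) ∧
    A * ‖x‖ ^ 2 ≤ ∑' k, ‖⟪f k, x⟫_ℂ‖ ^ 2 ∧ ∑' k, ‖⟪f k, x⟫_ℂ‖ ^ 2 ≤ B * ‖x‖ ^ 2

/-- `f` is a Riesz basis for its closed linear span -/
def IsRieszSeq (f : ℤ → H) : Prop :=
  ∃ A B : ℝ, 0 < A ∧ 0 < B ∧ ∀ (s : Finset ℤ) (c : ℤ → ℂ),
    A * ∑ i ∈ s, ‖c i‖ ^ 2 ≤ ‖∑ i ∈ s, c i • f i‖ ^ 2 ∧
    ‖∑ i ∈ s, c i • f i‖ ^ 2 ≤ B * ∑ i ∈ s, ‖c i‖ ^ 2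

theorem mem_closedSpan (f : ℤ → H) (k : ℤ) : f k ∈ closedSpan f :=
  Submodule.le_topologicalClosure _ (Submodule.subset_span ⟨k, rfl⟩)

theorem map_closedSpan {f : ℤ → H} {W : H →ₗᵢ[ℂ] H} {ν : ℤ} (hW : ∀ μ, W (f μ) = f (ν + μ)) {x : H}
    (hx : x ∈ closedSpan f) : W x ∈ closedSpan f := by
  have h1 : (Submodule.span ℂ (Set.range f)) ≤
      ((closedSpan f).comap W.toContinuousLinearMap.toLinearMap) := by
    rw [Submodule.span_le]
    rintro _ ⟨k, rfl⟩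
    change W (f k) ∈ closedSpan f
    rw [hW]
    exact mem_closedSpan f _
  have hcl : IsClosed (((closedSpan f).comap W.toContinuousLinearMap.toLinearMap : Submodule ℂ H) : Set H) := by
    have : IsClosed (closedSpan f : Set H) := Submodule.isClosed_topologicalClosure _
    exact this.preimage W.continuous
  exact Submodule.topologicalClosure_minimal _ h1 hcl hx

theorem main [CompleteSpace H] (f : ℤ → H) (hW : ∀ ν : ℤ, ∃ W : H →ₗᵢ[ℂ] H, ∀ μ, W (f μ) = f (ν + μ))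
    (h0 : f 0 ≠ 0) (hframe : IsFrameSeq f) (hover : ¬ IsRieszSeq f) (σ : ℕ ≃ ℤ)
    (V : Submodule.span ℂ (Set.range fun k => f (σ k)) →L[ℂ] H)
    (hV : ∀ k, V ⟨f (σ k), Submodule.subset_span ⟨k, rfl⟩⟩ = f (σ (k + 1))) : False := by
  classical
  set K := closedSpan f with hK
  have : CompleteSpace K := (Submodule.isClosed_topologicalClosure _).completeSpace_coe
  let f' : Multiplicative ℤ → K := fun k => ⟨f k.toAdd, mem_closedSpan f _⟩
  have hnt : Nontrivial K := ⟨⟨f' 1, 0, fun h => h0 (congrArg Subtype.val h)⟩⟩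
  -- frame
  have hfr : IsFrame f' := by
    obtain ⟨A, B, hA, hB, h⟩ := hframe
    exact ⟨A, B, hA, hB, fun x => h x x.2⟩
  have hgrp : Pool.Agent.Y165.GO.IsGroupFrame f' := by
    refine ⟨hfr, fun ν => ?_⟩
    obtain ⟨W, hWf⟩ := hW ν.toAdd
    refine ⟨{ toFun := fun x => ⟨W x, map_closedSpan hWf x.2⟩
              map_add' := fun x y => Subtype.ext (by simp)
              map_smul' := fun c x => Subtype.ext (by simp)
              norm_map' := fun x => W.norm_map x }, fun _ => 1, fun _ => norm_one, fun μ => ?_⟩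
    rw [one_smul]
    apply Subtype.ext
    exact hWf μ.toAdd
  have hov : ¬ IsRieszBasis f' := by
    rintro ⟨-, A, B, hA, hB, h⟩
    refine hover ⟨A, B, hA, hB, fun s c => ?_⟩
    have e : ‖∑ i ∈ s, c i • (⟨f i, mem_closedSpan f i⟩ : K)‖ = ‖∑ i ∈ s, c i • f i‖ := by
      rw [← Submodule.norm_coe, Submodule.coe_sum]
      rfl
    have h1 : A * ∑ i ∈ s, ‖c i‖ ^ 2 ≤ ‖∑ i ∈ s, c i • (⟨f i, mem_closedSpan f i⟩ : K)‖ ^ 2 ∧
      ‖∑ i ∈ s, c i • (⟨f i, mem_closedSpan f i⟩ : K)‖ ^ 2 ≤ B * ∑ i ∈ s, ‖c i‖ ^ 2 := h s c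
    rw [e] at h1
    exact h1
  apply Pool.Agent.Y165.GO.no_nat f' hgrp hov
  -- the bounded ordering
  let S := Submodule.span ℂ (Set.range fun k => f (σ k))
  have hVmem : ∀ x : S, V x ∈ K := by
    rintro ⟨x, hx⟩
    have hle : S ≤ (K.comap V.toLinearMap).map S.subtype := by
      refine Submodule.span_le.2 ?_
      rintro _ ⟨k, rfl⟩
      refine ⟨⟨f (σ k), Submodule.subset_span ⟨k, rfl⟩⟩, ?_, rfl⟩
      change V _ ∈ K
      rw [hV]
      exact mem_closedSpan f _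
    obtain ⟨y, hy, hyx⟩ := hle hx
    have : (⟨x, hx⟩ : S) = y := Subtype.ext hyx.symm
    rw [this]
    exact hy
  let T : K → K := fun x => if h : (x : H) ∈ S then ⟨V ⟨x, h⟩, hVmem _⟩ else 0
  have hTS : ∀ (x : K) (h : (x : H) ∈ S), T x = ⟨V ⟨x, h⟩, hVmem _⟩ := fun x h => dif_pos h
  let τ : ℕ ≃ Multiplicative ℤ := σ.trans Multiplicative.ofAdd
  have hspan : ∀ x : K, x ∈ Submodule.span ℂ (Set.range fun k => f' (τ k)) → (x : H) ∈ S := by
    intro x hx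
    have h1 : (Submodule.span ℂ (Set.range fun k => f' (τ k))).map K.subtype ≤ S := by
      rw [Submodule.map_span, Submodule.span_le]
      rintro _ ⟨_, ⟨k, rfl⟩, rfl⟩
      exact Submodule.subset_span ⟨k, rfl⟩
    exact h1 ⟨x, hx, rfl⟩
  refine ⟨τ, T, ⟨?_, ?_, ?_⟩, ?_⟩
  · intro x hx y hy
    have hx' := hspan x hx
    have hy' := hspan y hy
    rw [hTS x hx', hTS y hy', hTS (x + y) (S.add_mem hx' hy')]
    apply Subtype.ext
    change V ⟨(x : H) + y, _⟩ = V ⟨x, _⟩ + V ⟨y, _⟩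
    rw [← map_add]
    rfl
  · intro c x hx
    have hx' := hspan x hx
    rw [hTS x hx', hTS (c • x) (S.smul_mem c hx')]
    apply Subtype.ext
    change V ⟨c • (x : H), _⟩ = c • V ⟨x, _⟩
    rw [← map_smul]
    rfl
  · refine ⟨‖V‖, fun x hx => ?_⟩
    rw [hTS x (hspan x hx)]
    exact V.le_opNorm _
  · intro k
    have hmem : ((f' (τ k) : K) : H) ∈ S := Submodule.subset_span ⟨k, rfl⟩
    rw [hTS _ hmem]
    apply Subtype.ext
    exact hV k

end Pool.Agent.X188.Transl
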