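import Mathlib

/-! Functional calculus estimates for the mean Aluthge transform. -/

set_option autoImplicit false
set_option linter.unusedSectionVars false
set_option linter.unusedVariables false
open scoped InnerProductSpace Topology ComplexOrder
open ContinuousLinearMap

namespace Pool.Agent.X188.MeanAl

universe u
variable {H : Type u} [NormedAddCommGroup H] [InnerProductSpace ℂ H] [CompleteSpace H]

theorem cfc_sa (P : H →L[ℂ] H) (F : ℝ → ℝ) : IsSelfAdjoint (cfc F P) := cfc_predicate F P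

theorem norm_sq_cfc {P : H →L[ℂ] H} {K : ℝ → ℝ} (hK : Continuous K) (w : H) :
    ‖cfc K P w‖ ^ 2 = RCLike.re ⟪cfc (fun s => K s * K s) P w, w⟫_ℂ := by
  rw [cfc_mul K K P hK.continuousOn hK.continuousOn]
  have h1 : ⟪(cfc K P * cfc K P) w, w⟫_ℂ = ⟪cfc K P w, cfc K P w⟫_ℂ := by
    have h2 : star (cfc K P) = cfc K P := cfc_sa P K
    change ⟪cfc K P (cfc K P w), w⟫_ℂ = _
    nth_rewrite 1 [← h2]
    exact ContinuousLinearMap.adjoint_inner_left (cfc K P) w (cfc K P w)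
  rw [h1, inner_self_eq_norm_sq]

/-- If `|F| ≤ |G|` on the spectrum then `‖F(P) w‖ ≤ ‖G(P) w‖`. -/
theorem norm_le_of {P : H →L[ℂ] H} (hP : IsSelfAdjoint P) {F G : ℝ → ℝ} (hF : Continuous F)
    (hG : Continuous G) (h : ∀ s ∈ spectrum ℝ P, |F s| ≤ |G s|) (w : H) :
    ‖cfc F P w‖ ≤ ‖cfc G P w‖ := by
  have key : ∀ {K : ℝ → ℝ}, Continuous K → ‖cfc K P w‖ ^ 2 = RCLike.re ⟪cfc (fun s => K s * K s) P w, w⟫_ℂ := by
    intro K hK
    rw [cfc_mul K K P hK.continuousOn hK.continuousOn]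
    have h1 : ⟪(cfc K P * cfc K P) w, w⟫_ℂ = ⟪cfc K P w, cfc K P w⟫_ℂ := by
      have h2 : star (cfc K P) = cfc K P := cfc_sa P K
      change ⟪cfc K P (cfc K P w), w⟫_ℂ = _
      nth_rewrite 1 [← h2]
      exact ContinuousLinearMap.adjoint_inner_left (cfc K P) w (cfc K P w)
    rw [h1, inner_self_eq_norm_sq]
  have h1 : cfc (fun s => F s * F s) P ≤ cfc (fun s => G s * G s) P := by
    refine cfc_mono (fun s hs => ?_) (hF.mul hF).continuousOn (hG.mul hG).continuousOn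
    have := h s hs
    rw [← abs_mul_abs_self (F s), ← abs_mul_abs_self (G s)]
    exact mul_le_mul this this (abs_nonneg _) (abs_nonneg _)
  rw [ContinuousLinearMap.le_def] at h1
  have h2 := h1.re_inner_nonneg_left w
  rw [sub_apply, inner_sub_left, map_sub, ← key hF, ← key hG] at h2
  have h3 : ‖cfc F P w‖ ^ 2 ≤ ‖cfc G P w‖ ^ 2 := by linarith
  exact (sq_le_sq₀ (norm_nonneg _) (norm_nonneg _)).1 h3

theorem norm_le_const {P : H →L[ℂ] H} (hP : IsSelfAdjoint P) {F G : ℝ → ℝ} (hF : Continuous F)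
    (hG : Continuous G) {c : ℝ} (hc : 0 ≤ c) (h : ∀ s ∈ spectrum ℝ P, |F s| ≤ c * |G s|) (w : H) :
    ‖cfc F P w‖ ≤ c * ‖cfc G P w‖ := by
  have hcG : Continuous fun s => c * G s := continuous_const.mul hG
  have h1 := norm_le_of (G := fun s => c * G s) hP hF hcG
    (fun s hs => by rw [abs_mul, abs_of_nonneg hc]; exact h s hs) w
  have h2 : cfc (fun s => c * G s) P = c • cfc G P := cfc_const_mul c G P hG.continuousOn
  rw [h2, smul_apply, norm_smul, Real.norm_of_nonneg hc] at h1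
  exact h1

theorem mul_cfc (P : H →L[ℂ] H) {F G : ℝ → ℝ} (hF : Continuous F) (hG : Continuous G) (w : H) :
    cfc F P (cfc G P w) = cfc (fun s => F s * G s) P w := by
  rw [cfc_mul F G P hF.continuousOn hG.continuousOn]
  rfl

/-! ### scalar inequalities -/

theorem rpow_lip {m s t δ : ℝ} (hm0 : 0 ≤ m) (hm1 : m ≤ 1) (hδ : 0 < δ) (hs : δ ≤ s) (ht : δ ≤ t) :
    |s ^ m - t ^ m| ≤ δ ^ (m - 1) * |s - t| := by
  have key : ∀ a b : ℝ, δ ≤ b → b ≤ a → |a ^ m - b ^ m| ≤ δ ^ (m - 1) * |a - b| := by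
    intro a b hb hab
    have hb0 : 0 < b := lt_of_lt_of_le hδ hb
    have ha0 : 0 < a := lt_of_lt_of_le hb0 hab
    rw [abs_of_nonneg (sub_nonneg.2 (Real.rpow_le_rpow hb0.le hab hm0)),
      abs_of_nonneg (sub_nonneg.2 hab)]
    have h1 : a ^ m = b ^ m * (a / b) ^ m := by
      rw [Real.div_rpow ha0.le hb0.le]
      field_simp
    have h2 : (a / b) ^ m ≤ a / b := by
      have h3 : 1 ≤ a / b := by rwa [le_div_iff₀ hb0, one_mul]
      calc (a / b) ^ m ≤ (a / b) ^ (1 : ℝ) := Real.rpow_le_rpow_of_exponent_le h3 hm1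
        _ = a / b := Real.rpow_one _
    have h4 : a ^ m - b ^ m ≤ b ^ (m - 1) * (a - b) := by
      rw [h1]
      have h5 : b ^ (m - 1) * (a - b) = b ^ m * (a / b) - b ^ m := by
        rw [Real.rpow_sub_one hb0.ne']
        field_simp
      rw [h5]
      have := mul_le_mul_of_nonneg_left h2 (Real.rpow_nonneg hb0.le m)
      linarith
    refine h4.trans (mul_le_mul_of_nonneg_right ?_ (sub_nonneg.2 hab))
    exact Real.rpow_le_rpow_of_nonpos hδ hb (by linarith)
  rcases le_total s t with h | h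
  · have := key t s hs h
    rwa [abs_sub_comm, abs_sub_comm t s] at this
  · exact key s t ht h

theorem rpow_lower {m s t M : ℝ} (hm : 1 / 2 ≤ m) (hm1 : m ≤ 1) (hM : 0 < M) (hs0 : 0 ≤ s)
    (hs : s ≤ M) (ht0 : 0 ≤ t) (ht : t ≤ M) :
    M ^ (m - 1) / 2 * |s - t| ≤ |s ^ m - t ^ m| := by
  have key : ∀ a b : ℝ, 0 ≤ b → b ≤ a → a ≤ M → M ^ (m - 1) / 2 * |a - b| ≤ |a ^ m - b ^ m| := by
    intro a b hb0 hab haM
    rcases eq_or_lt_of_le (hb0.trans hab) with h0 | ha0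
    · have hb : b = 0 := le_antisymm (by rw [h0]; exact hab) hb0
      rw [← h0, hb]
      simp
    rw [abs_of_nonneg (sub_nonneg.2 (Real.rpow_le_rpow hb0 hab (by linarith))),
      abs_of_nonneg (sub_nonneg.2 hab)]
    set r := b / a with hr
    have hr0 : 0 ≤ r := div_nonneg hb0 ha0.le
    have hr1 : r ≤ 1 := by rw [hr, div_le_one ha0]; exact hab
    have hb : b = a * r := by rw [hr]; field_simp
    have h1 : b ^ m = a ^ m * r ^ m := by rw [hb, Real.mul_rpow ha0.le hr0]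
    have h2 : r ^ m ≤ (1 + r) / 2 := by
      have h3 : r ^ m ≤ r ^ (1 / 2 : ℝ) := by
        rcases eq_or_lt_of_le hr0 with h | h
        · rw [← h, Real.zero_rpow (by linarith), Real.zero_rpow (by norm_num)]
        · exact Real.rpow_le_rpow_of_exponent_ge h hr1 hm
      rw [← Real.sqrt_eq_rpow] at h3
      have h4 : √r ≤ (1 + r) / 2 := by
        nlinarith [Real.sq_sqrt hr0, sq_nonneg (√r - 1)]
      linarith
    have h5 : a ^ (m - 1) * a = a ^ m := by
      rw [Real.rpow_sub_one ha0.ne']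
      field_simp
    have h6 : M ^ (m - 1) ≤ a ^ (m - 1) := Real.rpow_le_rpow_of_nonpos ha0 haM (by linarith)
    have h7 : 0 ≤ a - b := sub_nonneg.2 hab
    calc M ^ (m - 1) / 2 * (a - b) ≤ a ^ (m - 1) / 2 * (a - b) := by gcongr
      _ = a ^ m * ((1 - r) / 2) := by rw [← h5, hb]; ring
      _ ≤ a ^ m * (1 - r ^ m) := by
        apply mul_le_mul_of_nonneg_left _ (Real.rpow_nonneg ha0.le m)
        linarith
      _ = a ^ m - b ^ m := by rw [h1]; ring
  rcases le_total s t with h | h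
  · have := key t s hs0 h ht
    rwa [abs_sub_comm, abs_sub_comm (t ^ m)] at this
  · exact key s t ht0 h hs

/-- the defect function -/
noncomputable def psi (l t s : ℝ) : ℝ := (t ^ (1 - l) * s ^ l + t ^ l * s ^ (1 - l)) / 2 - t

theorem psi_cont {l t : ℝ} (hl0 : 0 ≤ l) (hl1 : l ≤ 1 / 2) : Continuous (psi l t) := by
  unfold psi
  have h1 : Continuous fun s : ℝ => s ^ l := Real.continuous_rpow_const hl0
  have h2 : Continuous fun s : ℝ => s ^ (1 - l) := Real.continuous_rpow_const (by linarith)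
  fun_prop

theorem psi_lower {l s t M : ℝ} (hl0 : 0 ≤ l) (hl1 : l ≤ 1 / 2) (hM : 0 < M) (hs0 : 0 ≤ s)
    (hs : s ≤ M) (ht0 : 0 < t) (ht : t ≤ M) :
    t ^ l * M ^ (-l) / 4 * |s - t| ≤ |psi l t s| := by
  have h1 := rpow_lower (m := 1 - l) (by linarith) (by linarith) hM hs0 hs ht0.le ht
  have e0 : (1 - l - 1) = -l := by ring
  rw [e0] at h1
  have e1 : psi l t s = t ^ (1 - l) * (s ^ l - t ^ l) / 2 + t ^ l * (s ^ (1 - l) - t ^ (1 - l)) / 2 := by
    unfold psi
    have : t ^ (1 - l) * t ^ l = t := by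
      rw [← Real.rpow_add ht0]; simp
    linear_combination this
  have hp1 : 0 < t ^ (1 - l) := Real.rpow_pos_of_pos ht0 _
  have hp2 : 0 < t ^ l := Real.rpow_pos_of_pos ht0 _
  have h2 : t ^ l * |s ^ (1 - l) - t ^ (1 - l)| / 2 ≤ |psi l t s| := by
    rw [e1]
    rcases le_total s t with h | h
    · have a1 : s ^ l ≤ t ^ l := Real.rpow_le_rpow hs0 h hl0
      have a2 : s ^ (1 - l) ≤ t ^ (1 - l) := Real.rpow_le_rpow hs0 h (by linarith)
      rw [abs_of_nonpos (sub_nonpos.2 a2), abs_of_nonpos]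
      · nlinarith
      · nlinarith
    · have a1 : t ^ l ≤ s ^ l := Real.rpow_le_rpow ht0.le h hl0
      have a2 : t ^ (1 - l) ≤ s ^ (1 - l) := Real.rpow_le_rpow ht0.le h (by linarith)
      rw [abs_of_nonneg (sub_nonneg.2 a2), abs_of_nonneg]
      · nlinarith [mul_nonneg hp1.le (sub_nonneg.2 a1)]
      · have := mul_nonneg hp1.le (sub_nonneg.2 a1)
        have := mul_nonneg hp2.le (sub_nonneg.2 a2)
        linarith
  calc t ^ l * M ^ (-l) / 4 * |s - t| = t ^ l * (M ^ (-l) / 2 * |s - t|) / 2 := by ring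
    _ ≤ t ^ l * |s ^ (1 - l) - t ^ (1 - l)| / 2 := by gcongr
    _ ≤ _ := h2

/-- real powers of `P` -/
noncomputable def pw (P : H →L[ℂ] H) (m : ℝ) : H →L[ℂ] H := cfc (fun s : ℝ => s ^ m) P

theorem spec_bd {P : H →L[ℂ] H} (hP : 0 ≤ P) {M : ℝ} (hM : ‖P‖ ≤ M) {s : ℝ}
    (hs : s ∈ spectrum ℝ P) : 0 ≤ s ∧ s ≤ M := by
  refine ⟨spectrum_nonneg_of_nonneg hP hs, ?_⟩
  have h1 := spectrum.norm_le_norm_mul_of_mem hs
  have h2 : ‖(1 : H →L[ℂ] H)‖ ≤ 1 := ContinuousLinearMap.norm_id_le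
  have h3 : ‖P‖ * ‖(1 : H →L[ℂ] H)‖ ≤ ‖P‖ := mul_le_of_le_one_right (norm_nonneg _) h2
  exact (le_abs_self s).trans (h1.trans (h3.trans hM))

/-- the slice estimate -/
theorem slice {P V : H →L[ℂ] H} (hP : 0 ≤ P) {l : ℝ} (hl0 : 0 ≤ l) (hl1 : l ≤ 1 / 2)
    (hE : ∀ x, (2 : ℝ) • V (P x) = pw P l (V (pw P (1 - l) x)) + pw P (1 - l) (V (pw P l x)))
    {M τ : ℝ} (hM : ‖P‖ ≤ M) (hM0 : 0 < M) (hτ : 0 < τ) :
    ∃ C : ℝ, 0 ≤ C ∧ ∀ (t ε : ℝ) (f : ℝ → ℝ) (y : H), τ ≤ t → t ≤ M → 0 < ε → ε ≤ τ / 2 →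
      Continuous f → (∀ s, f s ≠ 0 → |s - t| ≤ ε) →
      ‖P (V (cfc f P y)) - V (P (cfc f P y))‖ ≤ C * ε * ‖cfc f P y‖ := by
  have hPs : IsSelfAdjoint P := IsSelfAdjoint.of_nonneg hP
  set δ := τ / 2 with hδ
  have hδ0 : 0 < δ := by positivity
  set κ := τ ^ l * M ^ (-l) / 4 with hκ
  have hκ0 : 0 < κ := by positivity
  set C₁ := ‖V‖ + (‖pw P l‖ * (‖V‖ * δ ^ (1 - l - 1)) + ‖pw P (1 - l)‖ * (‖V‖ * δ ^ (l - 1))) / 2
    with hC₁
  refine ⟨κ⁻¹ * C₁ + ‖V‖, by positivity, ?_⟩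
  intro t ε f y hτt htM hε hετ hf hsupp
  set z := cfc f P y with hz
  have ht0 : 0 < t := lt_of_lt_of_le hτ hτt
  have hδt : δ ≤ t := by rw [hδ]; linarith
  have hsl : ∀ s, f s ≠ 0 → δ ≤ s := by
    intro s hs
    have := (abs_le.1 (hsupp s hs)).1
    rw [hδ]; rw [hδ] at hετ; linarith
  -- errors
  have herr : ∀ m : ℝ, 0 ≤ m → m ≤ 1 → ‖pw P m z - (t ^ m) • z‖ ≤ δ ^ (m - 1) * ε * ‖z‖ := by
    intro m hm0 hm1
    have hcm : Continuous fun s : ℝ => s ^ m := Real.continuous_rpow_const hm0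
    have hc2 : Continuous fun s : ℝ => s ^ m - t ^ m := hcm.sub continuous_const
    have h1 : pw P m z - (t ^ m) • z = cfc (fun s : ℝ => (s ^ m - t ^ m) * f s) P y := by
      rw [← mul_cfc P hc2 hf, ← hz, cfc_sub _ _ P hcm.continuousOn continuousOn_const,
        cfc_const _ P hPs, sub_apply, Algebra.algebraMap_eq_smul_one]
      rfl
    rw [h1]
    refine norm_le_const (F := fun s : ℝ => (s ^ m - t ^ m) * f s) hPs (hc2.mul hf) hf
      (by positivity) (fun s hs => ?_) y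
    rw [abs_mul]
    by_cases h0 : f s = 0
    · rw [h0]; simp
    · refine mul_le_mul_of_nonneg_right ?_ (abs_nonneg _)
      refine (rpow_lip hm0 hm1 hδ0 (hsl s h0) hδt).trans ?_
      exact mul_le_mul_of_nonneg_left (hsupp s h0) (by positivity)
  have herr1 : ‖P z - t • z‖ ≤ ε * ‖z‖ := by
    have := herr 1 zero_le_one le_rfl
    simp only [Real.rpow_one, sub_self, Real.rpow_zero, one_mul] at this
    have h2 : pw P 1 = P := by
      unfold pw
      simp only [Real.rpow_one]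
      exact cfc_id' ℝ P hPs
    rwa [h2] at this
  set e₁ := P z - t • z with he₁
  set e₂ := pw P (1 - l) z - (t ^ (1 - l)) • z with he₂
  set e₃ := pw P l z - (t ^ l) • z with he₃
  have h2 := herr (1 - l) (by linarith) (by linarith)
  have h3 := herr l hl0 (by linarith)
  rw [← he₂] at h2
  rw [← he₃] at h3
  have hpsic := psi_cont (t := t) hl0 hl1
  have hcl : Continuous fun s : ℝ => s ^ l := Real.continuous_rpow_const hl0
  have hcm : Continuous fun s : ℝ => s ^ (1 - l) := Real.continuous_rpow_const (by linarith)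
  have hpsi : (2 : ℝ) • cfc (psi l t) P (V z) =
      (2 : ℝ) • V e₁ - (pw P l (V e₂) + pw P (1 - l) (V e₃)) := by
    have h4 : cfc (psi l t) P = (1 / 2 : ℝ) • ((t ^ (1 - l)) • pw P l + (t ^ l) • pw P (1 - l)) - t • (1 : H →L[ℂ] H) := by
      have e : psi l t = fun s => ((1 / 2 : ℝ) * (t ^ (1 - l) * s ^ l + t ^ l * s ^ (1 - l))) - t := by
        ext s; unfold psi; ring
      rw [e, cfc_sub _ _ P (by fun_prop) continuousOn_const, cfc_const _ P hPs,
        cfc_const_mul _ _ P (by fun_prop), cfc_add _ _ _ (by fun_prop) (by fun_prop),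
        cfc_const_mul _ _ P (by fun_prop), cfc_const_mul _ _ P (by fun_prop),
        Algebra.algebraMap_eq_smul_one]
      rfl
    have h5 := hE z
    have h6 : P z = t • z + e₁ := by rw [he₁]; abel
    have h7 : pw P (1 - l) z = (t ^ (1 - l)) • z + e₂ := by rw [he₂]; abel
    have h8 : pw P l z = (t ^ l) • z + e₃ := by rw [he₃]; abel
    have hVr : ∀ (r : ℝ) (x : H), V (r • x) = r • V x := fun r x =>
      (V.restrictScalars ℝ).map_smul r x
    have hQr : ∀ (Q : H →L[ℂ] H) (r : ℝ) (x : H), Q (r • x) = r • Q x := fun Q r x =>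
      (Q.restrictScalars ℝ).map_smul r x
    rw [h6, h7, h8] at h5
    simp only [map_add, hQr] at h5
    rw [h4]
    simp only [sub_apply, smul_apply, add_apply]
    have h9 : (2 : ℝ) • (t • V z + V e₁) = (2 * t) • V z + (2 : ℝ) • V e₁ := by
      rw [smul_add, smul_smul]
    rw [h9] at h5
    have h10 : (t ^ (1 - l)) • pw P l (V z) + (t ^ l) • pw P (1 - l) (V z) =
        (2 * t) • V z + (2 : ℝ) • V e₁ - (pw P l (V e₂) + pw P (1 - l) (V e₃)) := by
      rw [h5]; abel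
    rw [h10, smul_sub, smul_smul, smul_smul]
    norm_num
    abel
  have hn1 : ‖cfc (psi l t) P (V z)‖ ≤ C₁ * ε * ‖z‖ := by
    have h11 : 2 * ‖cfc (psi l t) P (V z)‖ ≤ 2 * (‖V‖ * (ε * ‖z‖)) +
        (‖pw P l‖ * (‖V‖ * (δ ^ (1 - l - 1) * ε * ‖z‖)) +
          ‖pw P (1 - l)‖ * (‖V‖ * (δ ^ (l - 1) * ε * ‖z‖))) := by
      have h12 : 2 * ‖cfc (psi l t) P (V z)‖ = ‖(2 : ℝ) • cfc (psi l t) P (V z)‖ := by
        rw [norm_smul]; norm_num
      rw [h12, hpsi]
      refine (norm_sub_le _ _).trans (add_le_add ?_ ((norm_add_le _ _).trans (add_le_add ?_ ?_)))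
      · rw [norm_smul, Real.norm_of_nonneg (by norm_num)]
        exact mul_le_mul_of_nonneg_left ((V.le_opNorm _).trans
          (mul_le_mul_of_nonneg_left herr1 (norm_nonneg _))) (by norm_num)
      · exact ((pw P l).le_opNorm _).trans (mul_le_mul_of_nonneg_left ((V.le_opNorm _).trans
          (mul_le_mul_of_nonneg_left h2 (norm_nonneg _))) (norm_nonneg _))
      · exact ((pw P (1 - l)).le_opNorm _).trans (mul_le_mul_of_nonneg_left ((V.le_opNorm _).trans
          (mul_le_mul_of_nonneg_left h3 (norm_nonneg _))) (norm_nonneg _))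
    have h13 : 2 * (‖V‖ * (ε * ‖z‖)) +
        (‖pw P l‖ * (‖V‖ * (δ ^ (1 - l - 1) * ε * ‖z‖)) +
          ‖pw P (1 - l)‖ * (‖V‖ * (δ ^ (l - 1) * ε * ‖z‖))) = 2 * (C₁ * ε * ‖z‖) := by
      rw [hC₁]; ring
    rw [h13] at h11
    linarith
  have hn2 : ‖P (V z) - t • V z‖ ≤ κ⁻¹ * ‖cfc (psi l t) P (V z)‖ := by
    have h14 : P (V z) - t • V z = cfc (fun s : ℝ => s - t) P (V z) := by
      rw [cfc_sub (fun s : ℝ => s) (fun _ => t) P continuousOn_id continuousOn_const,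
        cfc_const _ P hPs, cfc_id' ℝ P hPs,
        Algebra.algebraMap_eq_smul_one]
      rfl
    rw [h14]
    refine norm_le_const hPs (by fun_prop) hpsic (by positivity) (fun s hs => ?_) _
    have hb := spec_bd hP hM hs
    have h15 := psi_lower hl0 hl1 hM0 hb.1 hb.2 ht0 htM
    have h16 : κ ≤ t ^ l * M ^ (-l) / 4 := by
      rw [hκ]
      have := Real.rpow_le_rpow hτ.le hτt hl0
      gcongr
    have h17 : κ * |s - t| ≤ |psi l t s| := (mul_le_mul_of_nonneg_right h16 (abs_nonneg _)).trans h15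
    rw [inv_mul_eq_div, le_div_iff₀ hκ0, mul_comm]
    exact h17
  have hfin : P (V z) - V (P z) = (P (V z) - t • V z) - V e₁ := by
    rw [he₁, map_sub, show V (t • z) = t • V z from (V.restrictScalars ℝ).map_smul t z]
    abel
  rw [hfin]
  calc ‖(P (V z) - t • V z) - V e₁‖ ≤ ‖P (V z) - t • V z‖ + ‖V e₁‖ := norm_sub_le _ _
    _ ≤ κ⁻¹ * (C₁ * ε * ‖z‖) + ‖V‖ * (ε * ‖z‖) := by
        apply add_le_add
        · exact hn2.trans (mul_le_mul_of_nonneg_left hn1 (by positivity))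
        · exact (V.le_opNorm _).trans (mul_le_mul_of_nonneg_left herr1 (norm_nonneg _))
    _ = (κ⁻¹ * C₁ + ‖V‖) * ε * ‖z‖ := by ring

end Pool.Agent.X188.MeanAl
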