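import Mathlib
import Pool.Agent.X188.MeanAl

/-! The commutation theorem for the mean Aluthge transform. -/

set_option autoImplicit false
set_option linter.unusedSectionVars false
set_option linter.unusedVariables false
open scoped InnerProductSpace Topology ComplexOrder
open ContinuousLinearMap

namespace Pool.Agent.X188.MeanAl

universe u
variable {H : Type u} [NormedAddCommGroup H] [InnerProductSpace ℂ H] [CompleteSpace H]

/-- ramp functions -/
noncomputable def rmp (ε : ℝ) (i : ℕ) (s : ℝ) : ℝ := max 0 (min 1 (s / ε - i))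

/-- tent functions (trapezoids) -/
noncomputable def tnt (ε : ℝ) (i : ℕ) (s : ℝ) : ℝ := rmp ε i s - rmp ε (i + 1) s

theorem rmp_cont (ε : ℝ) (i : ℕ) : Continuous (rmp ε i) := by unfold rmp; fun_prop
theorem tnt_cont (ε : ℝ) (i : ℕ) : Continuous (tnt ε i) := (rmp_cont ε i).sub (rmp_cont ε (i + 1))

theorem rmp_nonneg (ε : ℝ) (i : ℕ) (s : ℝ) : 0 ≤ rmp ε i s := le_max_left _ _
theorem rmp_le (ε : ℝ) (i : ℕ) (s : ℝ) : rmp ε i s ≤ 1 := max_le zero_le_one (min_le_left _ _)
theorem rmp_anti (ε : ℝ) (i : ℕ) (s : ℝ) : rmp ε (i + 1) s ≤ rmp ε i s := by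
  unfold rmp
  push_cast
  gcongr
  linarith

theorem tnt_nonneg (ε : ℝ) (i : ℕ) (s : ℝ) : 0 ≤ tnt ε i s := sub_nonneg.2 (rmp_anti ε i s)
theorem tnt_le (ε : ℝ) (i : ℕ) (s : ℝ) : tnt ε i s ≤ 1 := by
  unfold tnt
  linarith [rmp_le ε i s, rmp_nonneg ε (i + 1) s]

theorem tnt_supp {ε : ℝ} (hε : 0 < ε) (i : ℕ) (s : ℝ) (h : tnt ε i s ≠ 0) :
    |s - (i + 1) * ε| ≤ ε := by
  by_contra hcon
  push Not at hcon
  apply h
  have hs : s = (s / ε) * ε := by field_simp
  unfold tnt rmp
  push_cast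
  rcases lt_abs.1 hcon with h1 | h1
  · have h2 : (i : ℝ) + 2 ≤ s / ε := by
      rw [le_div_iff₀ hε]; linarith
    rw [min_eq_left (by linarith), min_eq_left (by linarith)]
    simp
  · have h2 : s / ε ≤ i := by
      rw [div_le_iff₀ hε]; linarith
    rw [max_eq_left, max_eq_left]
    · simp
    · exact (min_le_right _ _).trans (by linarith)
    · exact (min_le_right _ _).trans (by linarith)

theorem sum_tnt (ε : ℝ) (n : ℕ) (s : ℝ) : ∑ i ∈ Finset.range n, tnt ε i s = rmp ε 0 s - rmp ε n s := by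
  unfold tnt
  exact Finset.sum_range_sub' (fun i => rmp ε i s) n

theorem sum_tnt_eq_one {ε : ℝ} (hε : 0 < ε) (n : ℕ) {s : ℝ} (h1 : ε ≤ s) (h2 : s ≤ n * ε) :
    ∑ i ∈ Finset.range n, tnt ε i s = 1 := by
  rw [sum_tnt]
  have a1 : 1 ≤ s / ε := by rwa [le_div_iff₀ hε, one_mul]
  have a2 : s / ε ≤ n := by rwa [div_le_iff₀ hε]
  unfold rmp
  rw [min_eq_left (by push_cast; linarith), max_eq_left (a := (0 : ℝ)) (b := min 1 (s / ε - n))]
  · simp
  · exact (min_le_right _ _).trans (by linarith)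

theorem sum_sq_le {P : H →L[ℂ] H} (hP : IsSelfAdjoint P) (ε : ℝ) (n : ℕ) (y : H) :
    ∑ i ∈ Finset.range n, ‖cfc (tnt ε i) P y‖ ^ 2 ≤ ‖y‖ ^ 2 := by
  have h1 : ∑ i ∈ Finset.range n, ‖cfc (tnt ε i) P y‖ ^ 2 =
      RCLike.re ⟪cfc (fun s => ∑ i ∈ Finset.range n, tnt ε i s * tnt ε i s) P y, y⟫_ℂ := by
    have h2 : cfc (fun s => ∑ i ∈ Finset.range n, tnt ε i s * tnt ε i s) P =
        ∑ i ∈ Finset.range n, cfc (fun s => tnt ε i s * tnt ε i s) P := by
      rw [← cfc_sum (fun i s => tnt ε i s * tnt ε i s) P (Finset.range n)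
        (fun i _ => ((tnt_cont ε i).mul (tnt_cont ε i)).continuousOn)]
      congr 1
      ext s
      simp
    rw [h2, _root_.sum_apply, sum_inner, map_sum]
    exact Finset.sum_congr rfl (fun i _ => norm_sq_cfc (tnt_cont ε i) y)
  have hc : Continuous (fun s => ∑ i ∈ Finset.range n, tnt ε i s * tnt ε i s) :=
    continuous_finsetSum _ (fun i _ => (tnt_cont ε i).mul (tnt_cont ε i))
  have h3 : cfc (fun s => ∑ i ∈ Finset.range n, tnt ε i s * tnt ε i s) P ≤ cfc (fun _ : ℝ => (1 : ℝ)) P := by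
    refine cfc_mono (fun s hs => ?_) hc.continuousOn continuousOn_const
    calc ∑ i ∈ Finset.range n, tnt ε i s * tnt ε i s ≤ ∑ i ∈ Finset.range n, tnt ε i s := by
          refine Finset.sum_le_sum (fun i _ => ?_)
          exact mul_le_of_le_one_left (tnt_nonneg ε i s) (tnt_le ε i s)
      _ = rmp ε 0 s - rmp ε n s := sum_tnt ε n s
      _ ≤ 1 := by linarith [rmp_le ε 0 s, rmp_nonneg ε n s]
  rw [cfc_const_one ℝ P, ContinuousLinearMap.le_def] at h3
  have h4 := h3.re_inner_nonneg_left y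
  rw [sub_apply, inner_sub_left, map_sub, ← h1] at h4
  have h5 : RCLike.re ⟪(1 : H →L[ℂ] H) y, y⟫_ℂ = ‖y‖ ^ 2 := inner_self_eq_norm_sq (𝕜 := ℂ) y
  rw [h5] at h4
  linarith

theorem high_zero {P V : H →L[ℂ] H} (hP : 0 ≤ P) {l : ℝ} (hl0 : 0 ≤ l) (hl1 : l ≤ 1 / 2)
    (hE : ∀ x, (2 : ℝ) • V (P x) = pw P l (V (pw P (1 - l) x)) + pw P (1 - l) (V (pw P l x)))
    {τ : ℝ} (hτ : 0 < τ) (x : H) :
    P (V (cfc (fun s => max (s - τ) 0) P x)) = V (P (cfc (fun s => max (s - τ) 0) P x)) := by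
  have hPs : IsSelfAdjoint P := IsSelfAdjoint.of_nonneg hP
  set M := ‖P‖ + 1 with hM
  have hM0 : 0 < M := by positivity
  obtain ⟨C, hC0, hC⟩ := slice hP hl0 hl1 hE (M := M) (τ := τ / 2) (by linarith) hM0 (by positivity)
  set h : ℝ → ℝ := fun s => max (s - τ) 0 with hh
  have hhc : Continuous h := by rw [hh]; fun_prop
  set y := cfc h P x with hy
  have key : ∀ n : ℕ, 0 < n → M / n ≤ τ / 4 → ‖P (V y) - V (P y)‖ ≤ C * (M / n) * (√n * ‖y‖) := by
    intro n hn hnτ
    have hn0 : (0 : ℝ) < n := by exact_mod_cast hn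
    set ε := M / n with hε
    have hε0 : 0 < ε := by positivity
    have hnε : n * ε = M := by rw [hε]; field_simp
    have hysum : y = ∑ i ∈ Finset.range n, cfc (tnt ε i) P y := by
      have h1 : ∀ i, cfc (tnt ε i) P y = cfc (fun s => tnt ε i s * h s) P x := fun i =>
        mul_cfc P (tnt_cont ε i) hhc x
      have h2 : ∑ i ∈ Finset.range n, cfc (tnt ε i) P y =
          (∑ i ∈ Finset.range n, cfc (fun s => tnt ε i s * h s) P) x := by
        rw [_root_.sum_apply]
        exact Finset.sum_congr rfl (fun i _ => h1 i)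
      rw [h2, ← cfc_sum (fun i s => tnt ε i s * h s) P (Finset.range n)
        (fun i _ => ((tnt_cont ε i).mul hhc).continuousOn), hy]
      congr 1
      apply cfc_congr
      intro s hs
      have hb := spec_bd hP (le_refl ‖P‖) hs
      simp only [Finset.sum_apply]
      rw [← Finset.sum_mul]
      by_cases hsτ : s ≤ τ
      · have : h s = 0 := max_eq_right (by linarith)
        rw [this, mul_zero]
      · rw [sum_tnt_eq_one hε0 n (by linarith) (by rw [hnε]; linarith [hb.2]), one_mul]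
    have hz : ∀ i ∈ Finset.range n, ‖P (V (cfc (tnt ε i) P y)) - V (P (cfc (tnt ε i) P y))‖ ≤
        C * ε * ‖cfc (tnt ε i) P y‖ := by
      intro i hi
      have hin : ((i : ℝ) + 1) ≤ n := by exact_mod_cast Finset.mem_range.1 hi
      by_cases hc : ((i : ℝ) + 2) * ε ≤ τ
      · have h0 : cfc (tnt ε i) P y = 0 := by
          rw [hy, mul_cfc P (tnt_cont ε i) hhc x]
          have : (fun s => tnt ε i s * h s) = fun _ => (0 : ℝ) := by
            ext s
            by_cases h1 : tnt ε i s = 0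
            · rw [h1, zero_mul]
            · have h2 := (abs_le.1 (tnt_supp hε0 i s h1)).2
              have h3 : h s = 0 := max_eq_right (by linarith)
              rw [h3, mul_zero]
          rw [this, cfc_const_zero ℝ P]
          rfl
        rw [h0]; simp
      · push Not at hc
        refine hC (((i : ℝ) + 1) * ε) ε (tnt ε i) y ?_ ?_ hε0 ?_ (tnt_cont ε i) (tnt_supp hε0 i)
        · linarith
        · rw [← hnε]; gcongr
        · linarith
    calc ‖P (V y) - V (P y)‖ = ‖∑ i ∈ Finset.range n,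
          (P (V (cfc (tnt ε i) P y)) - V (P (cfc (tnt ε i) P y)))‖ := by
          rw [Finset.sum_sub_distrib, ← map_sum, ← map_sum, ← map_sum, ← map_sum, ← hysum]
      _ ≤ ∑ i ∈ Finset.range n, C * ε * ‖cfc (tnt ε i) P y‖ :=
          (norm_sum_le _ _).trans (Finset.sum_le_sum hz)
      _ = C * ε * ∑ i ∈ Finset.range n, ‖cfc (tnt ε i) P y‖ := by rw [Finset.mul_sum]
      _ ≤ C * ε * (√n * ‖y‖) := by
          apply mul_le_mul_of_nonneg_left _ (by positivity)
          have h1 := sq_sum_le_card_mul_sum_sq (s := Finset.range n)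
            (f := fun i => ‖cfc (tnt ε i) P y‖)
          rw [Finset.card_range] at h1
          have h2 := sum_sq_le hPs ε n y
          have h3 : (∑ i ∈ Finset.range n, ‖cfc (tnt ε i) P y‖) ^ 2 ≤ (√n * ‖y‖) ^ 2 := by
            rw [mul_pow, Real.sq_sqrt hn0.le]
            exact h1.trans (mul_le_mul_of_nonneg_left h2 hn0.le)
          exact (sq_le_sq₀ (Finset.sum_nonneg fun i _ => norm_nonneg _) (by positivity)).1 h3
  have hlim : Filter.Tendsto (fun n : ℕ => C * (M / n) * (√n * ‖y‖)) Filter.atTop (𝓝 0) := by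
    have h1 : Filter.Tendsto (fun n : ℕ => (C * M * ‖y‖) * (√(n : ℝ))⁻¹) Filter.atTop (𝓝 ((C * M * ‖y‖) * 0)) :=
      (tendsto_inv_atTop_zero.comp (Real.tendsto_sqrt_atTop.comp tendsto_natCast_atTop_atTop)).const_mul _
    rw [mul_zero] at h1
    refine h1.congr' ?_
    filter_upwards [Filter.eventually_gt_atTop 0] with n hn
    have hn0 : (0 : ℝ) < n := by exact_mod_cast hn
    have h2 : √(n : ℝ) ≠ 0 := (Real.sqrt_pos.2 hn0).ne'
    have h3 : (n : ℝ) = √n * √n := (Real.mul_self_sqrt hn0.le).symm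
    have h4 : M / (n : ℝ) = M * (√(n : ℝ))⁻¹ * (√(n : ℝ))⁻¹ := by
      nth_rewrite 1 [h3]
      field_simp
    rw [h4]
    field_simp
  have hev : ∀ᶠ n : ℕ in Filter.atTop, ‖P (V y) - V (P y)‖ ≤ C * (M / n) * (√n * ‖y‖) := by
    have h1 : Filter.Tendsto (fun n : ℕ => M / (n : ℝ)) Filter.atTop (𝓝 0) :=
      tendsto_const_div_atTop_nhds_zero_nat M
    have h2 := h1.eventually (Iic_mem_nhds (show (0 : ℝ) < τ / 4 by positivity))
    filter_upwards [h2, Filter.eventually_gt_atTop 0] with n hn hn0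
    exact key n hn0 hn
  have h5 := le_of_tendsto_of_tendsto tendsto_const_nhds hlim hev
  exact sub_eq_zero.1 (norm_le_zero_iff.1 h5)

theorem comm_mul_P {P V : H →L[ℂ] H} (hP : 0 ≤ P) {l : ℝ} (hl0 : 0 ≤ l) (hl1 : l ≤ 1 / 2)
    (hE : ∀ x, (2 : ℝ) • V (P x) = pw P l (V (pw P (1 - l) x)) + pw P (1 - l) (V (pw P l x))) (x : H) :
    (P * V - V * P) (P x) = 0 := by
  have hPs : IsSelfAdjoint P := IsSelfAdjoint.of_nonneg hP
  set W := P * V - V * P with hW
  have h1 : ∀ τ : ℝ, 0 < τ → ‖W (P x)‖ ≤ ‖W‖ * (τ * ‖x‖) := by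
    intro τ hτ
    have hc : Continuous fun s : ℝ => max (s - τ) 0 := by fun_prop
    have h2 : W (cfc (fun s => max (s - τ) 0) P x) = 0 := by
      change P (V (cfc (fun s => max (s - τ) 0) P x)) - V (P (cfc (fun s => max (s - τ) 0) P x)) = 0
      rw [high_zero hP hl0 hl1 hE hτ x, sub_self]
    have h3 : ‖P x - cfc (fun s => max (s - τ) 0) P x‖ ≤ τ * ‖x‖ := by
      have h4 : P x - cfc (fun s => max (s - τ) 0) P x = cfc (fun s => s - max (s - τ) 0) P x := by
        rw [cfc_sub (fun s : ℝ => s) (fun s => max (s - τ) 0) P continuousOn_id hc.continuousOn,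
          cfc_id' ℝ P hPs]
        rfl
      rw [h4]
      have h5 := norm_le_const (F := fun s : ℝ => s - max (s - τ) 0) (G := fun _ => (1 : ℝ)) hPs
        (continuous_id.sub hc) continuous_const hτ.le (fun s hs => by
          have hb := spec_bd hP (le_refl ‖P‖) hs
          rw [abs_one, mul_one]
          rcases le_total (s - τ) 0 with h | h
          · rw [max_eq_right h, sub_zero, abs_of_nonneg hb.1]; linarith
          · rw [max_eq_left h]
            have : s - (s - τ) = τ := by ring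
            rw [this, abs_of_pos hτ]) x
      rw [cfc_const_one ℝ P] at h5
      exact h5
    have h6 : W (P x) = W (P x - cfc (fun s => max (s - τ) 0) P x) := by
      rw [map_sub, h2, sub_zero]
    rw [h6]
    exact (W.le_opNorm _).trans (mul_le_mul_of_nonneg_left h3 (norm_nonneg _))
  have h7 : ‖W (P x)‖ ≤ 0 := by
    have h8 : Filter.Tendsto (fun τ : ℝ => ‖W‖ * (τ * ‖x‖)) (𝓝[>] 0) (𝓝 (‖W‖ * (0 * ‖x‖))) := by
      apply Filter.Tendsto.mono_left _ nhdsWithin_le_nhds
      exact ((continuous_id.mul continuous_const).const_mul ‖W‖ |>.tendsto 0 : _)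
    rw [zero_mul, mul_zero] at h8
    exact ge_of_tendsto h8 (by filter_upwards [self_mem_nhdsWithin] with τ hτ using h1 τ hτ)
  exact norm_le_zero_iff.1 h7

theorem comm_of_mul_P {P V : H →L[ℂ] H} (hP : 0 ≤ P) (hker : ∀ x, P x = 0 → V x = 0)
    (h1 : (P * V - V * P) * P = 0) : P * V = V * P := by
  have hPs : IsSelfAdjoint P := IsSelfAdjoint.of_nonneg hP
  set W := P * V - V * P with hW
  have h2 : P * star W = 0 := by
    have := congrArg star h1
    rwa [star_mul, star_zero, hPs.star_eq] at this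
  have h3 : V * star W = 0 := by
    ext x
    exact hker _ (congrArg (fun f : H →L[ℂ] H => f x) h2)
  have h4 : W * star V = 0 := by
    have := congrArg star h3
    rwa [star_mul, star_zero, star_star] at this
  have h5 : W * star W = 0 := by
    have : star W = star V * P - P * star V := by
      rw [hW, star_sub, star_mul, star_mul, hPs.star_eq]
    rw [this, mul_sub, ← mul_assoc, ← mul_assoc, h4, h1, zero_mul, zero_mul, sub_zero]
  have h6 : W = 0 := by
    have := (CStarRing.mul_star_self_eq_zero_iff W).1 h5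
    exact this
  exact sub_eq_zero.1 h6

/-- **Commutation theorem.** -/
theorem comm_of_eq {P V : H →L[ℂ] H} (hP : 0 ≤ P) (hker : ∀ x, P x = 0 → V x = 0) {l : ℝ}
    (hl0 : 0 ≤ l) (hl1 : l ≤ 1 / 2)
    (hE : ∀ x, (2 : ℝ) • V (P x) = pw P l (V (pw P (1 - l) x)) + pw P (1 - l) (V (pw P l x))) :
    P * V = V * P := by
  apply comm_of_mul_P hP hker
  ext x
  exact comm_mul_P hP hl0 hl1 hE x

theorem pw_mul {P : H →L[ℂ] H} (hP : 0 ≤ P) {l : ℝ} (hl0 : 0 ≤ l) (hl1 : l ≤ 1) :
    pw P l * pw P (1 - l) = P := by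
  have hPs : IsSelfAdjoint P := IsSelfAdjoint.of_nonneg hP
  unfold pw
  rw [← cfc_mul (fun s : ℝ => s ^ l) (fun s : ℝ => s ^ (1 - l)) P
    (Real.continuous_rpow_const hl0).continuousOn
    (Real.continuous_rpow_const (by linarith)).continuousOn]
  conv_rhs => rw [← cfc_id' ℝ P hPs]
  apply cfc_congr
  intro s hs
  have hb := spec_bd hP (le_refl ‖P‖) hs
  simp only
  rw [← Real.rpow_add' hb.1 (by simp)]
  simp

end Pool.Agent.X188.MeanAl
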