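import Mathlib
import Pool.Agent.Helper872.Sch.Disj

/-! Riesz theory for operators `1 + compact` on a Hilbert space. -/

set_option autoImplicit false
set_option linter.unusedSectionVars false
open scoped InnerProductSpace Topology
open Module ContinuousLinearMap

namespace Pool.Agent.X188.Riesz

universe u
variable {H : Type u} [NormedAddCommGroup H] [InnerProductSpace ℂ H] [CompleteSpace H]

theorem cadd {f g : H →L[ℂ] H} (hf : IsCompactOperator f) (hg : IsCompactOperator g) :
    IsCompactOperator (f + g : H →L[ℂ] H) := hf.add hg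

theorem csub {f g : H →L[ℂ] H} (hf : IsCompactOperator f) (hg : IsCompactOperator g) :
    IsCompactOperator (f - g : H →L[ℂ] H) := hf.sub hg

theorem cneg {f : H →L[ℂ] H} (hf : IsCompactOperator f) :
    IsCompactOperator (-f : H →L[ℂ] H) := hf.neg

theorem cmul_left (f : H →L[ℂ] H) {g : H →L[ℂ] H} (hg : IsCompactOperator g) :
    IsCompactOperator (f * g : H →L[ℂ] H) := hg.clm_comp f

theorem cmul_right {f : H →L[ℂ] H} (g : H →L[ℂ] H) (hf : IsCompactOperator f) :
    IsCompactOperator (f * g : H →L[ℂ] H) := hf.comp_clm g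

theorem csmul {f : H →L[ℂ] H} (c : ℂ) (hf : IsCompactOperator f) :
    IsCompactOperator (c • f : H →L[ℂ] H) := hf.smul c

/-- Fredholm alternative. -/
theorem bij_of_inj {C : H →L[ℂ] H} (hc : IsCompactOperator (C - 1 : H →L[ℂ] H))
    (hi : ∀ x, C x = 0 → x = 0) : Function.Bijective C := by
  rw [← ContinuousLinearMap.isUnit_iff_bijective]
  rcases hc.hasEigenvalue_or_mem_resolventSet (μ := (-1 : ℂ)) (by norm_num) with h | h
  · exfalso
    obtain ⟨x, hx⟩ := h.exists_hasEigenvector
    have h1 : (C - 1) x = (-1 : ℂ) • x := hx.apply_eq_smul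
    have h2 : C x - x = -x := by
      have : (C - 1) x = C x - x := rfl
      rw [← this, h1]; simp
    apply hx.2
    apply hi
    have h3 : C x = (C x - x) + x := by abel
    rw [h3, h2]; simp
  · rw [spectrum.mem_resolventSet_iff] at h
    have h1 : algebraMap ℂ (H →L[ℂ] H) (-1) - (C - 1) = -C := by
      rw [map_neg, map_one]; abel
    rw [h1, IsUnit.neg_iff] at h
    exact h

/-- the kernel, as a submodule -/
abbrev kr (M : H →L[ℂ] H) : Submodule ℂ H := LinearMap.ker (M : H →ₗ[ℂ] H)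
/-- the range, as a submodule -/
abbrev rg (M : H →L[ℂ] H) : Submodule ℂ H := LinearMap.range (M : H →ₗ[ℂ] H)

theorem mem_kr {M : H →L[ℂ] H} {x : H} : x ∈ kr M ↔ M x = 0 := Iff.rfl
theorem mem_rg {M : H →L[ℂ] H} {x : H} : x ∈ rg M ↔ ∃ y, M y = x := Iff.rfl

theorem kr_closed (M : H →L[ℂ] H) : IsClosed (kr M : Set H) := M.isClosed_ker

theorem finDim_ker {M : H →L[ℂ] H} (hc : IsCompactOperator (M - 1 : H →L[ℂ] H)) :
    FiniteDimensional ℂ (kr M) := by
  set N := kr M with hN
  have hk : ∀ x ∈ N, (M - 1 : H →L[ℂ] H) x = -x := by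
    intro x hx
    have h1 : M x = 0 := hx
    change M x - x = -x
    rw [h1, zero_sub]
  have hV : ∀ v ∈ N, ((M - 1 : H →L[ℂ] H) : H →ₗ[ℂ] H) v ∈ N := by
    intro v hv
    have : ((M - 1 : H →L[ℂ] H) : H →ₗ[ℂ] H) v = -v := hk v hv
    rw [this]
    exact N.neg_mem hv
  have hcl : IsClosed (N : Set H) := M.isClosed_ker
  have hc' : IsCompactOperator (((M - 1 : H →L[ℂ] H) : H →ₗ[ℂ] H)) := hc
  have h1 := hc'.restrict hV hcl
  have h2 := h1.neg
  refine FiniteDimensional.of_isCompactOperator_id (𝕜 := ℂ) (E := N) ?_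
  have h3 : (-((((M - 1 : H →L[ℂ] H) : H →ₗ[ℂ] H).restrict hV : N →ₗ[ℂ] N) : N → N)) =
      (id : N → N) := by
    funext x
    apply Subtype.ext
    change -((M - 1 : H →L[ℂ] H) x) = (x : H)
    rw [hk x x.2, neg_neg]
  rw [h3] at h2
  exact h2

theorem star_compact {D : H →L[ℂ] H} (hD : IsCompactOperator D) :
    IsCompactOperator (star D : H →L[ℂ] H) :=
  Pool.Agent.Helper872.Sch.compact_adjoint hD

theorem star_sub_one {M : H →L[ℂ] H} (hc : IsCompactOperator (M - 1 : H →L[ℂ] H)) :
    IsCompactOperator (star M - 1 : H →L[ℂ] H) := by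
  have := star_compact hc
  rwa [star_sub, star_one] at this

/-- the finite rank operator built from a linear map between finite dimensional subspaces -/
noncomputable def fop (N N' : Submodule ℂ H) [FiniteDimensional ℂ N] (F : N →ₗ[ℂ] N') : H →L[ℂ] H :=
  N'.subtypeL ∘L (LinearMap.toContinuousLinearMap F) ∘L N.orthogonalProjectionOnto

theorem fop_apply (N N' : Submodule ℂ H) [FiniteDimensional ℂ N] (F : N →ₗ[ℂ] N') (x : H) :
    fop N N' F x = F (N.orthogonalProjectionOnto x) := rfl

theorem fop_mem (N N' : Submodule ℂ H) [FiniteDimensional ℂ N] (F : N →ₗ[ℂ] N') (x : H) :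
    fop N N' F x ∈ N' := (F (N.orthogonalProjectionOnto x)).2

theorem fop_compact (N N' : Submodule ℂ H) [FiniteDimensional ℂ N] (F : N →ₗ[ℂ] N') :
    IsCompactOperator (fop N N' F) := by
  have h1 : IsCompactOperator (N'.subtypeL ∘L (LinearMap.toContinuousLinearMap F)) :=
    isCompactOperator_of_locallyCompactSpace_rng _
  exact h1.comp_clm _

theorem fop_of_mem (N N' : Submodule ℂ H) [FiniteDimensional ℂ N] (F : N →ₗ[ℂ] N') {x : H}
    (hx : x ∈ N) : fop N N' F x = F ⟨x, hx⟩ := by
  rw [fop_apply]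
  congr 2
  exact N.orthogonalProjectionOnto_mem_subspace_eq_self ⟨x, hx⟩

theorem fop_orth (N N' : Submodule ℂ H) [FiniteDimensional ℂ N] (F : N →ₗ[ℂ] N') {x : H}
    (hx : x ∈ Nᗮ) : fop N N' F x = 0 := by
  rw [fop_apply, Submodule.orthogonalProjectionOnto_apply_of_mem_orthogonal hx]
  simp

/-- orthogonal decomposition along a finite-dimensional subspace -/
theorem decomp (N : Submodule ℂ H) [FiniteDimensional ℂ N] (x : H) :
    ∃ a ∈ N, ∃ b ∈ Nᗮ, x = a + b :=
  ⟨N.orthogonalProjectionOnto x, (N.orthogonalProjectionOnto x).2, x - N.orthogonalProjectionOnto x,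
    N.sub_starProjection_mem_orthogonal x, by abel⟩

theorem kr_star (M : H →L[ℂ] H) : kr (star M) = (rg M)ᗮ := by
  ext y
  rw [mem_kr, Submodule.mem_orthogonal]
  constructor
  · rintro h _ ⟨x, rfl⟩
    change ⟪M x, y⟫_ℂ = 0
    rw [← ContinuousLinearMap.adjoint_inner_right]
    change ⟪x, star M y⟫_ℂ = 0
    rw [h, inner_zero_right]
  · intro h
    have := h (M (star M y)) ⟨_, rfl⟩
    rw [← ContinuousLinearMap.adjoint_inner_right] at this
    exact inner_self_eq_zero.1 this

theorem exists_inj {N N' : Submodule ℂ H} [FiniteDimensional ℂ N] [FiniteDimensional ℂ N']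
    (hle : finrank ℂ N ≤ finrank ℂ N') : ∃ F : N →ₗ[ℂ] N', Function.Injective F := by
  apply rank_le_iff_exists_linearMap.1
  rw [← finrank_eq_rank, ← finrank_eq_rank]
  exact_mod_cast hle

/-- `M + G` is injective when `G` maps `ker M` injectively to `(range M)ᗮ`. -/
theorem add_fop_inj {M : H →L[ℂ] H} [FiniteDimensional ℂ (kr M)] {N' : Submodule ℂ H}
    (hN' : N' ≤ (rg M)ᗮ) (F : kr M →ₗ[ℂ] N') (hF : Function.Injective F) (x : H)
    (hx : (M + fop (kr M) N' F) x = 0) : x = 0 := by
  have h1 : M x = - fop (kr M) N' F x := by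
    rw [add_apply] at hx
    exact eq_neg_of_add_eq_zero_left hx
  have h2 : fop (kr M) N' F x ∈ (rg M)ᗮ := hN' (fop_mem _ _ _ _)
  have h3 : M x ∈ (rg M)ᗮ := by rw [h1]; exact Submodule.neg_mem _ h2
  have h4 : M x = 0 := inner_self_eq_zero.1 (h3 (M x) ⟨x, rfl⟩)
  have h5 : x ∈ kr M := h4
  have h6 : fop (kr M) N' F x = 0 := by rw [h4] at h1; exact (neg_eq_zero.1 h1.symm)
  rw [fop_of_mem _ _ _ h5] at h6
  have h7 : F ⟨x, h5⟩ = 0 := Subtype.ext h6
  have h8 := (injective_iff_map_eq_zero F).1 hF _ h7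
  exact congrArg Subtype.val h8

/-- If `M + G` is bijective, `G` supported on `ker M` with values in a subspace, then `range M`
is closed. -/
theorem closed_of_bij {M : H →L[ℂ] H} [FiniteDimensional ℂ (kr M)] {N' : Submodule ℂ H}
    (F : kr M →ₗ[ℂ] N') (hb : Function.Bijective (M + fop (kr M) N' F)) :
    IsClosed (rg M : Set H) := by
  have h1 : (rg M : Set H) = (M + fop (kr M) N' F) '' ((kr M)ᗮ : Submodule ℂ H) := by
    ext y
    constructor
    · rintro ⟨x, rfl⟩
      obtain ⟨a, ha, b, hb, rfl⟩ := decomp (kr M) x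
      refine ⟨b, hb, ?_⟩
      rw [add_apply, fop_orth _ _ _ hb, add_zero]
      change M b = M (a + b)
      rw [map_add, mem_kr.1 ha, zero_add]
    · rintro ⟨b, hb, rfl⟩
      refine ⟨b, ?_⟩
      rw [add_apply, fop_orth _ _ _ hb, add_zero]
      rfl
  rw [h1]
  have h2 : IsUnit (M + fop (kr M) N' F) := (ContinuousLinearMap.isUnit_iff_bijective).2 hb
  let e := ContinuousLinearEquiv.ofBijective (M + fop (kr M) N' F)
    (LinearMap.ker_eq_bot.2 hb.1) (LinearMap.range_eq_top.2 hb.2)
  have h3 : ⇑(M + fop (kr M) N' F) = e := by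
    ext x; rfl
  rw [h3]
  exact e.toHomeomorph.isClosedMap _ (Submodule.isClosed_orthogonal _)

/-- Riesz: if `dim ker M ≤ dim ker M*` then equality holds and the range of `M` is closed. -/
theorem riesz_aux {M : H →L[ℂ] H} (hc : IsCompactOperator (M - 1 : H →L[ℂ] H))
    (hle : finrank ℂ (kr M) ≤ finrank ℂ (kr (star M))) :
    finrank ℂ (kr M) = finrank ℂ (kr (star M)) ∧ IsClosed (rg M : Set H) := by
  have hf1 := finDim_ker hc
  have hf2 := finDim_ker (star_sub_one hc)
  obtain ⟨F, hF⟩ := exists_inj hle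
  have hN' : kr (star M) ≤ (rg M)ᗮ := (kr_star M).le
  have hb : Function.Bijective (M + fop (kr M) (kr (star M)) F) := by
    apply bij_of_inj
    · have := cadd hc (fop_compact (kr M) (kr (star M)) F)
      rwa [sub_add_eq_add_sub] at this
    · exact add_fop_inj hN' F hF
  refine ⟨?_, closed_of_bij F hb⟩
  apply le_antisymm hle
  apply LinearMap.finrank_le_finrank_of_surjective (f := F)
  intro y
  obtain ⟨x, hx⟩ := hb.2 (y : H)
  rw [add_apply] at hx
  have h1 : M x ∈ (rg M)ᗮ := by
    have : M x = (y : H) - fop (kr M) (kr (star M)) F x := by rw [← hx]; abel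
    rw [this]
    exact Submodule.sub_mem _ (hN' y.2) (hN' (fop_mem _ _ _ _))
  have h4 : M x = 0 := inner_self_eq_zero.1 (h1 (M x) ⟨x, rfl⟩)
  rw [h4, zero_add, fop_of_mem _ _ _ (mem_kr.2 h4)] at hx
  exact ⟨_, Subtype.ext hx⟩

/-- **Riesz**: `1 + compact` has closed range and index zero. -/
theorem riesz {M : H →L[ℂ] H} (hc : IsCompactOperator (M - 1 : H →L[ℂ] H)) :
    finrank ℂ (kr M) = finrank ℂ (kr (star M)) ∧ IsClosed (rg M : Set H) := by
  rcases le_total (finrank ℂ (kr M)) (finrank ℂ (kr (star M))) with h | h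
  · exact riesz_aux hc h
  · have h2 := riesz_aux (star_sub_one hc) (by rwa [star_star])
    rw [star_star] at h2
    exact riesz_aux hc h2.1.symm.le

/-- Fredholm operators -/
structure IsFred (T : H →L[ℂ] H) : Prop where
  closed : IsClosed (rg T : Set H)
  fin_ker : FiniteDimensional ℂ (kr T)
  fin_coker : FiniteDimensional ℂ (H ⧸ rg T)

/-- complement of closed subspace -/
theorem quot_equiv {V : Submodule ℂ H} (hV : IsClosed (V : Set H)) :
    Nonempty ((H ⧸ V) ≃ₗ[ℂ] Vᗮ) := by
  haveI : CompleteSpace V := hV.completeSpace_coe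
  exact ⟨Submodule.quotientEquivOfIsCompl V Vᗮ Submodule.isCompl_orthogonal_of_hasOrthogonalProjection⟩

theorem IsFred.fin_orth {T : H →L[ℂ] H} (h : IsFred T) : FiniteDimensional ℂ ((rg T)ᗮ : Submodule ℂ H) := by
  obtain ⟨e⟩ := quot_equiv h.closed
  haveI := h.fin_coker
  exact LinearEquiv.finiteDimensional e

theorem finrank_coker {T : H →L[ℂ] H} (h : IsClosed (rg T : Set H)) :
    finrank ℂ (H ⧸ rg T) = finrank ℂ (kr (star T)) := by
  obtain ⟨e⟩ := quot_equiv h
  rw [e.finrank_eq, kr_star]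

theorem isFred_of_sub_one {M : H →L[ℂ] H} (hc : IsCompactOperator (M - 1 : H →L[ℂ] H)) :
    IsFred M := by
  refine ⟨(riesz hc).2, finDim_ker hc, ?_⟩
  obtain ⟨e⟩ := quot_equiv (riesz hc).2
  haveI := finDim_ker (star_sub_one hc)
  rw [kr_star] at this
  exact LinearEquiv.finiteDimensional e.symm

theorem riesz_index {M : H →L[ℂ] H} (hc : IsCompactOperator (M - 1 : H →L[ℂ] H)) :
    finrank ℂ (kr M) = finrank ℂ (H ⧸ rg M) := by
  rw [finrank_coker (riesz hc).2, (riesz hc).1]

/-- An index zero Fredholm operator is a compact perturbation of an invertible one. -/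
theorem exists_bij {T : H →L[ℂ] H} (h : IsFred T)
    (h0 : finrank ℂ (kr T) = finrank ℂ (H ⧸ rg T)) :
    ∃ G : H →L[ℂ] H, IsCompactOperator G ∧ Function.Bijective (T + G) := by
  haveI := h.fin_ker
  haveI := h.fin_orth
  have h1 : finrank ℂ (kr T) = finrank ℂ ((rg T)ᗮ : Submodule ℂ H) := by
    obtain ⟨e⟩ := quot_equiv h.closed
    rw [h0, e.finrank_eq]
  obtain ⟨F, hF⟩ := exists_inj h1.le
  refine ⟨fop (kr T) (rg T)ᗮ F, fop_compact _ _ _, ?_, ?_⟩
  · rw [injective_iff_map_eq_zero]
    exact add_fop_inj le_rfl F hF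
  · have hFs : Function.Surjective F :=
      (LinearMap.injective_iff_surjective_of_finrank_eq_finrank h1).1 hF
    intro y
    haveI : CompleteSpace (rg T) := h.closed.completeSpace_coe
    obtain ⟨x, hx⟩ : (((rg T).orthogonalProjectionOnto y : H)) ∈ rg T :=
      ((rg T).orthogonalProjectionOnto y).2
    obtain ⟨a, ha, b, hb, rfl⟩ := decomp (kr T) x
    obtain ⟨c, hc⟩ := hFs ⟨y - (rg T).orthogonalProjectionOnto y,
      (rg T).sub_starProjection_mem_orthogonal y⟩
    refine ⟨c + b, ?_⟩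
    rw [add_apply, map_add, map_add, mem_kr.1 c.2, zero_add, fop_orth _ _ _ hb, add_zero,
      fop_of_mem _ _ _ c.2]
    have h5 : T b = (rg T).orthogonalProjectionOnto y := by
      rw [← hx]
      change T b = T (a + b)
      rw [map_add, mem_kr.1 ha, zero_add]
    have h6 : (F ⟨c, c.2⟩ : H) = y - (rg T).orthogonalProjectionOnto y := by
      have := congrArg Subtype.val hc
      exact this
    rw [h5, h6]
    abel

end Pool.Agent.X188.Riesz
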