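import Mathlib
import Pool.Agent.X188.Riesz

/-! Fitting decomposition and the index of operators commuting with `1 + compact`. -/

set_option autoImplicit false
set_option linter.unusedSectionVars false
open scoped InnerProductSpace Topology
open Module ContinuousLinearMap

namespace Pool.Agent.X188.Riesz

universe u
variable {H : Type u} [NormedAddCommGroup H] [InnerProductSpace ℂ H] [CompleteSpace H]

theorem rg_compl_finite_of_le {V W : Submodule ℂ H} (h : V ≤ W) [FiniteDimensional ℂ (H ⧸ V)] :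
    FiniteDimensional ℂ (H ⧸ W) :=
  Module.Finite.of_surjective (Submodule.factor h) (Submodule.factor_surjective h)

/-- existence of a parametrix -/
theorem exists_param {T : H →L[ℂ] H} (h : IsFred T) :
    ∃ Q : H →L[ℂ] H, IsCompactOperator (Q * T - 1 : H →L[ℂ] H) ∧
      IsCompactOperator (T * Q - 1 : H →L[ℂ] H) := by
  have := h.fin_ker
  have := h.fin_orth
  have hcR : CompleteSpace (rg T) := h.closed.completeSpace_coe
  let T' : (kr T)ᗮ →L[ℂ] rg T := (T ∘L (kr T)ᗮ.subtypeL).codRestrict (rg T) (fun x => ⟨_, rfl⟩)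
  have hinj : Function.Injective T' := by
    rw [injective_iff_map_eq_zero]
    intro x hx
    have h1 : T x = 0 := congrArg Subtype.val hx
    have h2 : (x : H) ∈ kr T := h1
    have h3 : ⟪(x : H), (x : H)⟫_ℂ = 0 := x.2 _ h2
    exact Subtype.ext (inner_self_eq_zero.1 h3)
  have hsurj : Function.Surjective T' := by
    rintro ⟨_, x, rfl⟩
    obtain ⟨a, ha, b, hb, rfl⟩ := decomp (kr T) x
    refine ⟨⟨b, hb⟩, Subtype.ext ?_⟩
    change T b = T (a + b)
    rw [map_add, mem_kr.1 ha, zero_add]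
  let e := ContinuousLinearEquiv.ofBijective T' (LinearMap.ker_eq_bot.2 hinj)
    (LinearMap.range_eq_top.2 hsurj)
  have he : ∀ x, T (e.symm x : H) = x := by
    intro x
    have h1 : e (e.symm x) = x := e.apply_symm_apply x
    exact congrArg Subtype.val h1
  let Q : H →L[ℂ] H := (kr T)ᗮ.subtypeL ∘L (e.symm : rg T →L[ℂ] (kr T)ᗮ) ∘L
    (rg T).orthogonalProjectionOnto
  refine ⟨Q, ?_, ?_⟩
  · have h1 : (Q * T - 1 : H →L[ℂ] H) = - fop (kr T) (kr T) LinearMap.id := by
      ext x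
      obtain ⟨a, ha, b, hb, rfl⟩ := decomp (kr T) x
      have h2 : Q (T (a + b)) = b := by
        have h3 : (rg T).orthogonalProjectionOnto (T (a + b)) = T' ⟨b, hb⟩ := by
          have h4 : T (a + b) = (T' ⟨b, hb⟩ : H) := by
            change T (a + b) = T b
            rw [map_add, mem_kr.1 ha, zero_add]
          rw [h4]
          exact (rg T).orthogonalProjectionOnto_mem_subspace_eq_self _
        change ((e.symm ((rg T).orthogonalProjectionOnto (T (a + b))) : (kr T)ᗮ) : H) = b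
        rw [h3]
        have h5 : e.symm (T' ⟨b, hb⟩) = ⟨b, hb⟩ := e.symm_apply_apply ⟨b, hb⟩
        rw [h5]
      change Q (T (a + b)) - (a + b) = -(fop (kr T) (kr T) LinearMap.id (a + b))
      rw [h2, map_add, fop_of_mem _ _ _ ha, fop_orth _ _ _ hb]
      simp
    rw [h1]
    exact cneg (fop_compact _ _ _)
  · have h1 : (T * Q - 1 : H →L[ℂ] H) = - fop (rg T)ᗮ (rg T)ᗮ LinearMap.id := by
      ext x
      have h2 : T (Q x) = (rg T).orthogonalProjectionOnto x := he _
      change T (Q x) - x = -(fop (rg T)ᗮ (rg T)ᗮ LinearMap.id x)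
      have h3 : x = (rg T).orthogonalProjectionOnto x + (x - (rg T).orthogonalProjectionOnto x) := by
        abel
      have h4 : fop (rg T)ᗮ (rg T)ᗮ LinearMap.id x = x - (rg T).orthogonalProjectionOnto x := by
        conv_lhs => rw [h3]
        rw [map_add, fop_orth, fop_of_mem]
        · simp
        · exact (rg T).sub_starProjection_mem_orthogonal x
        · rw [Submodule.orthogonal_orthogonal]
          exact ((rg T).orthogonalProjectionOnto x).2
      rw [h2, h4]
      abel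
    rw [h1]
    exact cneg (fop_compact _ _ _)

/-- compact perturbations of Fredholm operators are Fredholm -/
theorem IsFred.add_compact {T K : H →L[ℂ] H} (h : IsFred T) (hK : IsCompactOperator K) :
    IsFred (T + K) := by
  obtain ⟨Q, h1, h2⟩ := exists_param h
  have h3 : IsCompactOperator (Q * (T + K) - 1 : H →L[ℂ] H) := by
    have := cadd h1 (cmul_left Q hK)
    have e : (Q * (T + K) - 1 : H →L[ℂ] H) = (Q * T - 1) + Q * K := by noncomm_ring
    rwa [e]
  have h4 : IsCompactOperator ((T + K) * Q - 1 : H →L[ℂ] H) := by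
    have := cadd h2 (cmul_right Q hK)
    have e : ((T + K) * Q - 1 : H →L[ℂ] H) = (T * Q - 1) + K * Q := by noncomm_ring
    rwa [e]
  have h5 := finDim_ker h3
  have h6 := isFred_of_sub_one h4
  have h7 : kr (T + K) ≤ kr (Q * (T + K)) := by
    intro x hx
    change Q ((T + K) x) = 0
    rw [mem_kr.1 hx, map_zero]
  have h8 : rg ((T + K) * Q) ≤ rg (T + K) := by
    rintro _ ⟨x, rfl⟩
    exact ⟨Q x, rfl⟩
  have := h6.fin_coker
  exact ⟨Submodule.isClosed_mono_of_finiteDimensional_quotient h6.closed h8,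
    Submodule.finiteDimensional_of_le h7, rg_compl_finite_of_le h8⟩

theorem pow_compact {M : H →L[ℂ] H} (hc : IsCompactOperator (M - 1 : H →L[ℂ] H)) (n : ℕ) :
    IsCompactOperator (M ^ n - 1 : H →L[ℂ] H) := by
  induction n with
  | zero =>
    have : (M ^ 0 - 1 : H →L[ℂ] H) = 0 := by simp
    rw [this]
    exact isCompactOperator_zero
  | succ n ih =>
    have e : (M ^ (n + 1) - 1 : H →L[ℂ] H) = M * (M ^ n - 1) + (M - 1) := by
      rw [pow_succ']; noncomm_ring
    rw [e]
    exact cadd (cmul_left M ih) hc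

theorem kr_pow_succ (M : H →L[ℂ] H) (n : ℕ) : kr (M ^ n) ≤ kr (M ^ (n + 1)) := by
  intro x hx
  rw [mem_kr, pow_succ']
  change M ((M ^ n) x) = 0
  rw [mem_kr.1 hx, map_zero]

theorem kr_pow_mono (M : H →L[ℂ] H) {m n : ℕ} (h : m ≤ n) : kr (M ^ m) ≤ kr (M ^ n) := by
  induction n, h using Nat.le_induction with
  | base => exact le_rfl
  | succ n _ ih => exact ih.trans (kr_pow_succ M n)

/-- The chain of kernels stabilises. -/
theorem exists_stab {M : H →L[ℂ] H} (hc : IsCompactOperator (M - 1 : H →L[ℂ] H)) :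
    ∃ n, kr (M ^ (n + 1)) ≤ kr (M ^ n) := by
  by_contra hcon
  push Not at hcon
  have h1 : ∀ n, ∃ x : H, x ∈ kr (M ^ (n + 1)) ∧ x ∈ (kr (M ^ n))ᗮ ∧ ‖x‖ = 1 := by
    intro n
    obtain ⟨y, hy1, hy2⟩ := Set.not_subset.1 (hcon n)
    have := finDim_ker (pow_compact hc n)
    obtain ⟨a, ha, b, hb, rfl⟩ := decomp (kr (M ^ n)) y
    have hb0 : b ≠ 0 := by
      rintro rfl
      apply hy2
      rw [add_zero]
      exact ha
    have hb1 : b ∈ kr (M ^ (n + 1)) := by
      have h2 : b = (a + b) - a := by abel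
      rw [h2]
      exact Submodule.sub_mem _ hy1 (kr_pow_succ M n ha)
    have hbn : ‖b‖ ≠ 0 := by simpa using hb0
    refine ⟨((‖b‖⁻¹ : ℝ) : ℂ) • b, Submodule.smul_mem _ _ hb1, Submodule.smul_mem _ _ hb, ?_⟩
    rw [norm_smul, Complex.norm_real, norm_inv, norm_norm, inv_mul_cancel₀ hbn]
  choose x hx1 hx2 hx3 using h1
  have hsep : ∀ m n, m < n → 1 ≤ ‖(M - 1) (x n) - (M - 1) (x m)‖ := by
    intro m n hmn
    have h2 : M (x n) - (M - 1) (x m) ∈ kr (M ^ n) := by
      apply Submodule.sub_mem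
      · have := mem_kr.1 (hx1 n)
        rw [pow_succ] at this
        exact this
      · apply kr_pow_mono M (Nat.succ_le_of_lt hmn)
        have h3 : (M - 1) (x m) = M (x m) - x m := rfl
        rw [h3]
        apply Submodule.sub_mem _ _ (hx1 m)
        rw [mem_kr]
        have h4 : (M ^ (m + 1)) (M (x m)) = (M ^ (m + 1) * M) (x m) := rfl
        rw [h4, ← pow_succ, pow_succ']
        change M ((M ^ (m + 1)) (x m)) = 0
        rw [mem_kr.1 (hx1 m), map_zero]
    have h5 : (M - 1) (x n) - (M - 1) (x m) = (M (x n) - (M - 1) (x m)) - x n := by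
      have h3 : (M - 1) (x n) = M (x n) - x n := rfl
      rw [h3]; abel
    rw [h5]
    have h6 : ⟪(M (x n) - (M - 1) (x m)) - x n, x n⟫_ℂ = -1 := by
      rw [inner_sub_left, (hx2 n) _ h2, inner_self_eq_norm_sq_to_K, hx3]
      simp
    have h7 := norm_inner_le_norm (𝕜 := ℂ) ((M (x n) - (M - 1) (x m)) - x n) (x n)
    rw [h6, hx3] at h7
    simpa using h7
  obtain ⟨K, hK, hK'⟩ := IsCompactOperator.image_closedBall_subset_compact
    (f := ((M - 1 : H →L[ℂ] H) : H →ₗ[ℂ] H)) hc 1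
  obtain ⟨y, hyK, ψ, hψ, hψy⟩ := hK.tendsto_subseq (x := fun n => (M - 1) (x n))
    (fun n ↦ hK' ⟨x n, by simp [hx3], rfl⟩)
  replace hψy := hψy.cauchySeq
  rw [Metric.cauchySeq_iff'] at hψy
  obtain ⟨N, hN⟩ := hψy 1 one_pos
  have h8 := hN (N + 1) (Nat.le_succ N)
  rw [dist_eq_norm] at h8
  exact absurd h8 (not_lt.2 (hsep _ _ (hψ (Nat.lt_succ_self N))))

theorem kr_pow_stab {M : H →L[ℂ] H} {n : ℕ} (h : kr (M ^ (n + 1)) ≤ kr (M ^ n)) (k : ℕ) :
    kr (M ^ (n + k)) ≤ kr (M ^ n) := by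
  induction k with
  | zero => exact le_rfl
  | succ k ih =>
    intro x hx
    apply ih
    have h1 : (M ^ k) x ∈ kr (M ^ (n + 1)) := by
      rw [mem_kr]
      have h2 : (M ^ (n + 1)) ((M ^ k) x) = (M ^ (n + 1) * M ^ k) x := rfl
      rw [h2, ← pow_add, show n + 1 + k = n + (k + 1) by ring]
      exact hx
    have h3 := mem_kr.1 (h h1)
    rw [mem_kr, pow_add]
    exact h3

/-- Fitting decomposition. -/
theorem fitting {M : H →L[ℂ] H} (hc : IsCompactOperator (M - 1 : H →L[ℂ] H)) :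
    ∃ n, 1 ≤ n ∧ IsCompl (kr (M ^ n)) (rg (M ^ n)) := by
  obtain ⟨n, hn⟩ := exists_stab hc
  have hdisj : Disjoint (kr (M ^ (n + 1))) (rg (M ^ (n + 1))) := by
    rw [Submodule.disjoint_def]
    rintro _ h1 ⟨x, rfl⟩
    have h2 : x ∈ kr (M ^ (n + (n + 2))) := by
      rw [mem_kr, show n + (n + 2) = (n + 1) + (n + 1) by ring, pow_add]
      exact h1
    have h3 := kr_pow_succ M n (kr_pow_stab hn _ h2)
    exact h3
  refine ⟨n + 1, Nat.le_add_left 1 n, hdisj, ?_⟩
  have hcn := pow_compact hc (n + 1)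
  have hF := isFred_of_sub_one hcn
  have := hF.fin_ker
  have := hF.fin_coker
  have hi := riesz_index hcn
  let f : kr (M ^ (n + 1)) →ₗ[ℂ] H ⧸ rg (M ^ (n + 1)) :=
    (rg (M ^ (n + 1))).mkQ ∘ₗ (kr (M ^ (n + 1))).subtype
  have hf : Function.Injective f := by
    rw [injective_iff_map_eq_zero]
    intro x hx
    have h1 : (x : H) ∈ rg (M ^ (n + 1)) := (Submodule.Quotient.mk_eq_zero _).1 hx
    exact Subtype.ext ((Submodule.disjoint_def.1 hdisj) _ x.2 h1)
  have hs : Function.Surjective f :=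
    (LinearMap.injective_iff_surjective_of_finrank_eq_finrank hi).1 hf
  rw [codisjoint_iff, eq_top_iff]
  rintro y -
  obtain ⟨a, ha⟩ := hs (Submodule.Quotient.mk y)
  have h1 : y - a ∈ rg (M ^ (n + 1)) := (Submodule.Quotient.eq _).1 ha.symm
  rw [Submodule.mem_sup]
  exact ⟨a, a.2, y - a, h1, by abel⟩

/-- algebraic index-zero lemma -/
theorem index_alg {A : H →ₗ[ℂ] H} {N W : Submodule ℂ H} (hc : IsCompl N W)
    [FiniteDimensional ℂ N] (hN : ∀ x ∈ N, A x ∈ N) (hW : ∀ x ∈ W, A x ∈ W)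
    (hinj : ∀ x ∈ W, A x = 0 → x = 0) (hsurj : ∀ y ∈ W, ∃ x ∈ W, A x = y) :
    finrank ℂ (LinearMap.ker A) = finrank ℂ (H ⧸ LinearMap.range A) := by
  let A₀ : N →ₗ[ℂ] N := A.restrict hN
  have hdis := Submodule.disjoint_def.1 hc.disjoint
  have hsum : ∀ x : H, ∃ a ∈ N, ∃ b ∈ W, a + b = x := by
    intro x
    have : x ∈ N ⊔ W := by rw [hc.sup_eq_top]; trivial
    exact Submodule.mem_sup.1 this
  have h1 : LinearMap.ker A = (LinearMap.ker A₀).map N.subtype := by
    ext x
    constructor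
    · intro hx
      obtain ⟨a, ha, b, hb, rfl⟩ := hsum x
      have h2 : A a + A b = 0 := by rw [← map_add]; exact hx
      have h3 : A b = 0 := by
        apply hdis _ _ (hW b hb)
        rw [eq_neg_of_add_eq_zero_right h2]
        exact N.neg_mem (hN a ha)
      have h4 := hinj b hb h3
      subst h4
      rw [add_zero]
      refine ⟨⟨a, ha⟩, ?_, rfl⟩
      rw [h3, add_zero] at h2
      exact Subtype.ext h2
    · rintro ⟨a, ha, rfl⟩
      exact congrArg Subtype.val ha
  have h2 : finrank ℂ (LinearMap.ker A) = finrank ℂ (LinearMap.ker A₀) := by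
    rw [h1]
    exact Submodule.finrank_map_subtype_eq _ _
  let g : (N ⧸ LinearMap.range A₀) →ₗ[ℂ] (H ⧸ LinearMap.range A) :=
    Submodule.mapQ _ _ N.subtype (by
      rintro _ ⟨x, rfl⟩
      exact ⟨x, rfl⟩)
  have hg1 : Function.Injective g := by
    rw [injective_iff_map_eq_zero]
    intro z
    obtain ⟨x, rfl⟩ := Submodule.Quotient.mk_surjective _ z
    intro hz
    have h3 : (x : H) ∈ LinearMap.range A := (Submodule.Quotient.mk_eq_zero _).1 hz
    obtain ⟨y, hy⟩ := h3
    obtain ⟨a, ha, b, hb, rfl⟩ := hsum y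
    rw [map_add] at hy
    have h4 : A b = 0 := by
      apply hdis _ _ (hW b hb)
      have : A b = x - A a := by rw [← hy]; abel
      rw [this]
      exact N.sub_mem x.2 (hN a ha)
    rw [h4, add_zero] at hy
    rw [Submodule.Quotient.mk_eq_zero]
    exact ⟨⟨a, ha⟩, Subtype.ext hy⟩
  have hg2 : Function.Surjective g := by
    intro z
    obtain ⟨y, rfl⟩ := Submodule.Quotient.mk_surjective _ z
    obtain ⟨a, ha, b, hb, rfl⟩ := hsum y
    refine ⟨Submodule.Quotient.mk ⟨a, ha⟩, ?_⟩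
    change Submodule.Quotient.mk a = Submodule.Quotient.mk (a + b)
    rw [Submodule.Quotient.eq]
    obtain ⟨c, -, hc⟩ := hsurj b hb
    refine ⟨-c, ?_⟩
    rw [map_neg, hc]
    abel
  have h3 := (LinearEquiv.ofBijective g ⟨hg1, hg2⟩).finrank_eq
  rw [h2, ← h3]
  have h4 := Submodule.finrank_quotient_add_finrank (LinearMap.range A₀)
  have h5 := LinearMap.finrank_range_add_finrank_ker A₀
  omega

/-- An operator `A` commuting with `M = 1 + compact` such that `M` kills `ker A` and maps into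
`range A` has index zero. -/
theorem index_of_commute {A M : H →L[ℂ] H} (hc : IsCompactOperator (M - 1 : H →L[ℂ] H))
    (hcomm : A * M = M * A) (h1 : ∀ x, A x = 0 → M x = 0) (h2 : ∀ x, ∃ y, M x = A y) :
    finrank ℂ (kr A) = finrank ℂ (H ⧸ rg A) := by
  obtain ⟨n, hn1, hn⟩ := fitting hc
  have := finDim_ker (pow_compact hc n)
  have hcn : Commute A (M ^ n) := Commute.pow_right hcomm n
  have hap : ∀ x, A ((M ^ n) x) = (M ^ n) (A x) := fun x => congrArg (fun f : H →L[ℂ] H => f x) hcn.eq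
  refine index_alg hn ?_ ?_ ?_ ?_
  · intro x hx
    change (M ^ n) (A x) = 0
    rw [← hap, mem_kr.1 hx, map_zero]
  · rintro _ ⟨x, rfl⟩
    exact ⟨A x, (hap x).symm⟩
  · intro x hx hAx
    refine Submodule.disjoint_def.1 hn.disjoint x ?_ hx
    have h3 : x ∈ kr (M ^ 1) := by
      rw [pow_one]
      exact h1 x hAx
    exact kr_pow_mono M hn1 h3
  · rintro _ ⟨x, rfl⟩
    have hx : x ∈ kr (M ^ n) ⊔ rg (M ^ n) := by rw [hn.sup_eq_top]; trivial
    obtain ⟨a, ha, _, ⟨z, rfl⟩, rfl⟩ := Submodule.mem_sup.1 hx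
    obtain ⟨k, rfl⟩ : ∃ k, n = k + 1 := ⟨n - 1, by omega⟩
    obtain ⟨v, hv⟩ := h2 ((M ^ k) z)
    refine ⟨(M ^ (k + 1)) v, ⟨v, rfl⟩, ?_⟩
    change A ((M ^ (k + 1)) v) = (M ^ (k + 1)) (a + (M ^ (k + 1)) z)
    rw [hap, map_add, mem_kr.1 ha, zero_add, ← hv]
    congr 1
    rw [pow_succ']
    rfl

end Pool.Agent.X188.Riesz
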