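import Mathlib
import Pool.Agent.X188.RieszF

/-! Pairs of commuting operators with compact difference. -/

set_option autoImplicit false
set_option linter.unusedSectionVars false
open scoped InnerProductSpace Topology
open Module ContinuousLinearMap Polynomial

namespace Pool.Agent.X188.Riesz

universe u
variable {H : Type u} [NormedAddCommGroup H] [InnerProductSpace ℂ H] [CompleteSpace H]

theorem aeval_toLin (K : H →L[ℂ] H) (p : ℂ[X]) (x : H) :
    (aeval K p) x = (aeval (K : H →ₗ[ℂ] H) p) x := by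
  induction p using Polynomial.induction_on generalizing x with
  | C a => simp [Algebra.algebraMap_eq_smul_one]
  | add p q hp hq => simp [hp, hq]
  | monomial n a h =>
    rw [pow_succ, ← mul_assoc, map_mul (aeval K), map_mul (aeval (K : H →ₗ[ℂ] H)), aeval_X, aeval_X]
    change (aeval K (C a * X ^ n)) (K x) = (aeval (K : H →ₗ[ℂ] H) (C a * X ^ n)) (K x)
    exact h (K x)

theorem aeval_restr (f : H →ₗ[ℂ] H) (N : Submodule ℂ H) (hN : ∀ x ∈ N, f x ∈ N) (p : ℂ[X]) (x : N) :
    ((aeval (f.restrict hN) p x : N) : H) = aeval f p (x : H) := by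
  induction p using Polynomial.induction_on generalizing x with
  | C a => simp [Algebra.algebraMap_eq_smul_one]
  | add p q hp hq => simp [hp, hq]
  | monomial n a h =>
    rw [pow_succ, ← mul_assoc, map_mul (aeval (f.restrict hN)), map_mul (aeval f), aeval_X, aeval_X]
    change ((aeval (f.restrict hN) (C a * X ^ n)) ((f.restrict hN) x) : H) = _
    rw [h]
    rfl

theorem aeval_mapQ (f : H →ₗ[ℂ] H) (R : Submodule ℂ H) (hR : R ≤ R.comap f) (p : ℂ[X]) (x : H) :
    (aeval (R.mapQ R f hR) p) (R.mkQ x) = R.mkQ (aeval f p x) := by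
  induction p using Polynomial.induction_on generalizing x with
  | C a => simp [Algebra.algebraMap_eq_smul_one]
  | add p q hp hq => rw [map_add, map_add, LinearMap.add_apply, LinearMap.add_apply, hp, hq, map_add]
  | monomial n a h =>
    rw [pow_succ, ← mul_assoc, map_mul (aeval (R.mapQ R f hR)), map_mul (aeval f), aeval_X, aeval_X]
    change (aeval (R.mapQ R f hR) (C a * X ^ n)) ((R.mapQ R f hR) (R.mkQ x)) = _
    have : (R.mapQ R f hR) (R.mkQ x) = R.mkQ (f x) := rfl
    rw [this, h]
    rfl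

theorem charpoly_coeff_ne {V : Type*} [AddCommGroup V] [Module ℂ V] [FiniteDimensional ℂ V]
    (f : V →ₗ[ℂ] V) (hf : Function.Injective f) : f.charpoly.coeff 0 ≠ 0 := by
  intro h
  have h1 : LinearMap.det f = 0 := by
    rw [LinearMap.det_eq_sign_charpoly_coeff, h, mul_zero]
  have h2 := LinearMap.bot_lt_ker_of_det_eq_zero h1
  rw [LinearMap.ker_eq_bot.2 hf] at h2
  exact lt_irrefl _ h2

/-- If `A` is Fredholm, `K` is compact and commutes with `A`, `ker A ∩ ker K = 0` and
`range A + range K = H`, then `A` has index zero. -/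
theorem index_zero {A K : H →L[ℂ] H} (hA : IsFred A) (hK : IsCompactOperator K)
    (hcomm : A * K = K * A) (h1 : ∀ x, A x = 0 → K x = 0 → x = 0)
    (h2 : ∀ z, ∃ x y, A x + K y = z) :
    finrank ℂ (kr A) = finrank ℂ (H ⧸ rg A) := by
  have := hA.fin_ker
  have := hA.fin_coker
  have hap : ∀ x, A (K x) = K (A x) := fun x => congrArg (fun f : H →L[ℂ] H => f x) hcomm
  have hN : ∀ x ∈ kr A, (K : H →ₗ[ℂ] H) x ∈ kr A := by
    intro x hx
    change A (K x) = 0
    rw [hap, mem_kr.1 hx, map_zero]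
  have hR : rg A ≤ (rg A).comap (K : H →ₗ[ℂ] H) := by
    rintro _ ⟨x, rfl⟩
    exact ⟨K x, hap x⟩
  set K₁ := (K : H →ₗ[ℂ] H).restrict hN with hK₁
  set K₂ := (rg A).mapQ (rg A) (K : H →ₗ[ℂ] H) hR with hK₂
  have i1 : Function.Injective K₁ := by
    rw [injective_iff_map_eq_zero]
    intro x hx
    have h3 : K x = 0 := congrArg Subtype.val hx
    exact Subtype.ext (h1 x x.2 h3)
  have i2 : Function.Injective K₂ := by
    rw [LinearMap.injective_iff_surjective]
    intro z
    obtain ⟨y, rfl⟩ := Submodule.Quotient.mk_surjective _ z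
    obtain ⟨a, b, rfl⟩ := h2 y
    refine ⟨Submodule.Quotient.mk b, ?_⟩
    change Submodule.Quotient.mk (K b) = Submodule.Quotient.mk (A a + K b)
    rw [Submodule.Quotient.eq]
    refine ⟨-a, ?_⟩
    change A (-a) = K b - (A a + K b)
    rw [map_neg]
    abel
  have c1 := charpoly_coeff_ne K₁ i1
  have c2 := charpoly_coeff_ne K₂ i2
  set q : ℂ[X] := K₁.charpoly * K₂.charpoly with hq
  have hq0 : q.coeff 0 ≠ 0 := by
    rw [hq, mul_coeff_zero]
    exact mul_ne_zero c1 c2
  set M : H →L[ℂ] H := (q.coeff 0)⁻¹ • aeval K q with hM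
  have e1 : aeval K q = aeval K q.divX * K + (q.coeff 0) • (1 : H →L[ℂ] H) := by
    conv_lhs => rw [← q.divX_mul_X_add]
    rw [map_add, map_mul, aeval_X, aeval_C, Algebra.algebraMap_eq_smul_one]
  have e2 : M - 1 = (q.coeff 0)⁻¹ • (aeval K q.divX * K) := by
    rw [hM, e1, smul_add, smul_smul, inv_mul_cancel₀ hq0, one_smul, add_sub_cancel_right]
  have hMc : IsCompactOperator (M - 1 : H →L[ℂ] H) := by
    rw [e2]
    exact csmul _ (cmul_left _ hK)
  have hMcomm : A * M = M * A := by
    have h3 : Commute A (aeval K q) := by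
      rw [aeval_eq_sum_range]
      apply Commute.sum_right
      intro i _
      exact (Commute.pow_right (show Commute A K from hcomm) i).smul_right _
    rw [hM, mul_smul_comm, smul_mul_assoc, h3.eq]
  refine index_of_commute hMc hMcomm ?_ ?_
  · intro x hx
    have h3 : (aeval (K : H →ₗ[ℂ] H) K₁.charpoly) x = 0 := by
      have := aeval_restr (K : H →ₗ[ℂ] H) (kr A) hN K₁.charpoly ⟨x, hx⟩
      rw [← this]
      change ((aeval K₁ K₁.charpoly ⟨x, hx⟩ : kr A) : H) = 0
      rw [LinearMap.aeval_self_charpoly]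
      rfl
    rw [hM, smul_apply, aeval_toLin, hq, mul_comm, map_mul]
    change _ • (aeval (K : H →ₗ[ℂ] H) K₂.charpoly) ((aeval (K : H →ₗ[ℂ] H) K₁.charpoly) x) = 0
    rw [h3, map_zero, smul_zero]
  · intro x
    have h3 : (aeval (K : H →ₗ[ℂ] H) K₂.charpoly) ((q.coeff 0)⁻¹ • (aeval (K : H →ₗ[ℂ] H) K₁.charpoly) x) ∈ rg A := by
      have := aeval_mapQ (K : H →ₗ[ℂ] H) (rg A) hR K₂.charpoly
        ((q.coeff 0)⁻¹ • (aeval (K : H →ₗ[ℂ] H) K₁.charpoly) x)
      change (aeval K₂ K₂.charpoly) _ = _ at this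
      rw [LinearMap.aeval_self_charpoly] at this
      exact (Submodule.Quotient.mk_eq_zero _).1 this.symm
    obtain ⟨y, hy⟩ := h3
    refine ⟨y, ?_⟩
    rw [hM, smul_apply, aeval_toLin, hq, mul_comm, map_mul]
    change _ • (aeval (K : H →ₗ[ℂ] H) K₂.charpoly) ((aeval (K : H →ₗ[ℂ] H) K₁.charpoly) x) = A y
    rw [← map_smul]
    rw [hq, mul_comm] at hy
    exact hy.symm

/-- The index of a Fredholm operator is stable (in the index zero case) under compact
perturbations. -/
theorem index_zero_of_perturb {T K : H →L[ℂ] H} (hT : IsFred T) (hK : IsCompactOperator K)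
    (h0 : finrank ℂ (kr (T + K)) = finrank ℂ (H ⧸ rg (T + K))) :
    finrank ℂ (kr T) = finrank ℂ (H ⧸ rg T) := by
  obtain ⟨G, hG, hb⟩ := exists_bij (hT.add_compact hK) h0
  let e := ContinuousLinearEquiv.ofBijective (T + K + G)
    (LinearMap.ker_eq_bot.2 hb.1) (LinearMap.range_eq_top.2 hb.2)
  have he : ∀ x, e x = (T + K + G) x := fun x => rfl
  let S : H →L[ℂ] H := (e.symm : H →L[ℂ] H)
  have hS : S * (T + K + G) = 1 := by
    ext x
    change e.symm ((T + K + G) x) = x
    rw [← he, e.symm_apply_apply]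
  have h1 : IsCompactOperator (S * T - 1 : H →L[ℂ] H) := by
    have : (S * T - 1 : H →L[ℂ] H) = - (S * (K + G)) := by
      rw [← hS]; noncomm_ring
    rw [this]
    exact cneg (cmul_left _ (cadd hK hG))
  have h2 := riesz_index h1
  have h3 : kr (S * T) = kr T := by
    ext x
    constructor
    · intro hx
      have : e.symm (T x) = 0 := hx
      exact (map_eq_zero_iff e.symm e.symm.injective).1 this
    · intro hx
      change e.symm (T x) = 0
      rw [mem_kr.1 hx, map_zero]
  have h4 : (rg T).map (e.symm.toLinearEquiv : H →ₗ[ℂ] H) = rg (S * T) := by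
    ext x
    constructor
    · rintro ⟨_, ⟨y, rfl⟩, rfl⟩
      exact ⟨y, rfl⟩
    · rintro ⟨y, rfl⟩
      exact ⟨T y, ⟨y, rfl⟩, rfl⟩
  have h5 := (Submodule.Quotient.equiv (rg T) (rg (S * T)) e.symm.toLinearEquiv h4).finrank_eq
  rw [← h3, h2, ← h5]

end Pool.Agent.X188.Riesz
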