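import Pool.Agent.X188.NormDefs

/-! Norming by an injective envelope: definitions and the example. -/

set_option autoImplicit false
set_option linter.unusedSectionVars false
open scoped InnerProductSpace Topology ComplexConjugate ENNReal
open Filter

namespace Pool.Agent.X188.Norming

open Pool.Agent.X188.MatOp

noncomputable section

/-! ### limits along ultrafilters -/

/-- limit along an ultrafilter -/
def ulim (U : Ultrafilter ℕ) (a : ℕ → ℂ) : ℂ := limUnder (U : Filter ℕ) a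

theorem ulim_tendsto (U : Ultrafilter ℕ) {a : ℕ → ℂ} (h : Bdd a) :
    Tendsto a (U : Filter ℕ) (𝓝 (ulim U a)) := by
  obtain ⟨C, hC, h⟩ := h
  have h1 : ∃ z ∈ Metric.closedBall (0 : ℂ) C, (Ultrafilter.map a U : Filter ℂ) ≤ 𝓝 z := by
    apply (isCompact_closedBall (0 : ℂ) C).ultrafilter_le_nhds
    rw [le_principal_iff]
    change a ⁻¹' (Metric.closedBall (0 : ℂ) C) ∈ (U : Filter ℕ)
    have h2 : a ⁻¹' (Metric.closedBall (0 : ℂ) C) = Set.univ := by
      ext n
      simpa using h n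
    rw [h2]
    exact univ_mem
  obtain ⟨z, -, hz⟩ := h1
  exact tendsto_nhds_limUnder ⟨z, hz⟩

theorem ulim_eq {U : Ultrafilter ℕ} {a : ℕ → ℂ} {z : ℂ} (h : Tendsto a (U : Filter ℕ) (𝓝 z)) :
    ulim U a = z := h.limUnder_eq

/-- the two ultrafilters -/
def uf (α : Fin 2) : Ultrafilter ℕ := Ultrafilter.map (fun n => 2 * n + (α : ℕ)) (hyperfilter ℕ)

theorem uf_tendsto (α : Fin 2) {a : ℕ → ℂ} {z : ℂ} (h : Tendsto (fun n => a (2 * n + (α : ℕ))) atTop (𝓝 z)) :
    Tendsto a (uf α : Filter ℕ) (𝓝 z) := by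
  unfold uf
  rw [Ultrafilter.coe_map, tendsto_map'_iff]
  refine h.mono_left ?_
  rw [← Nat.cofinite_eq_atTop]
  exact hyperfilter_le_cofinite

theorem uf_atTop (α : Fin 2) {a : ℕ → ℂ} {z : ℂ} (h : Tendsto a atTop (𝓝 z)) :
    Tendsto a (uf α : Filter ℕ) (𝓝 z) := by
  refine uf_tendsto α (h.comp ?_)
  refine tendsto_atTop_atTop.2 fun b => ⟨b, fun n hn => by omega⟩


/-! ### lemmas on diagonal operators -/

section

variable {ι : Type}

theorem bdd_add {a b : ι → ℂ} (ha : Bdd a) (hb : Bdd b) : Bdd (fun i => a i + b i) := by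
  obtain ⟨A, hA, ha⟩ := ha
  obtain ⟨B, hB, hb⟩ := hb
  exact ⟨A + B, add_nonneg hA hB, fun i => (norm_add_le _ _).trans (add_le_add (ha i) (hb i))⟩

theorem bdd_smul {a : ι → ℂ} (c : ℂ) (ha : Bdd a) : Bdd (fun i => c * a i) := by
  obtain ⟨A, hA, ha⟩ := ha
  refine ⟨‖c‖ * A, by positivity, fun i => ?_⟩
  rw [norm_mul]
  have := ha i
  gcongr

theorem bdd_mul {a b : ι → ℂ} (ha : Bdd a) (hb : Bdd b) : Bdd (fun i => a i * b i) := by
  obtain ⟨A, hA, ha⟩ := ha
  obtain ⟨B, hB, hb⟩ := hb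
  refine ⟨A * B, mul_nonneg hA hB, fun i => ?_⟩
  rw [norm_mul]
  have h1 := ha i
  have h2 := hb i
  gcongr

theorem bdd_conj {a : ι → ℂ} (ha : Bdd a) : Bdd (fun i => conj (a i)) := by
  obtain ⟨A, hA, ha⟩ := ha
  exact ⟨A, hA, fun i => by rw [RCLike.norm_conj]; exact ha i⟩

theorem D_add {a b : ι → ℂ} (ha : Bdd a) (hb : Bdd b) : D (fun i => a i + b i) = D a + D b := by
  ext x i
  rw [D_apply (bdd_add ha hb)]
  change _ = ((D a x + D b x : l2 ι) : ι → ℂ) i
  rw [lp.coeFn_add, Pi.add_apply, D_apply ha, D_apply hb, add_mul]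

theorem D_smul {a : ι → ℂ} (c : ℂ) (ha : Bdd a) : D (fun i => c * a i) = c • D a := by
  ext x i
  rw [D_apply (bdd_smul c ha)]
  change _ = ((c • D a x : l2 ι) : ι → ℂ) i
  rw [lp.coeFn_smul, Pi.smul_apply, D_apply ha, smul_eq_mul, mul_assoc]

theorem D_mul {a b : ι → ℂ} (ha : Bdd a) (hb : Bdd b) : D (fun i => a i * b i) = D a * D b := by
  ext x i
  rw [D_apply (bdd_mul ha hb)]
  change _ = (D a (D b x) : ι → ℂ) i
  rw [D_apply ha, D_apply hb, mul_assoc]

variable [DecidableEq ι]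

theorem D_star {a : ι → ℂ} (ha : Bdd a) : star (D a) = D (fun i => conj (a i)) := by
  obtain ⟨h1, h2⟩ := (isDg_D ha).star'
  exact h1.ext (isDg_D (bdd_conj ha)) fun i => by rw [h2, sym_D ha, sym_D (bdd_conj ha)]

theorem continuous_coe (x : l2 ι) (i : ι) : Continuous fun T : l2 ι →L[ℂ] l2 ι => (T x : ι → ℂ) i := by
  have h : (fun T : l2 ι →L[ℂ] l2 ι => (T x : ι → ℂ) i) = fun T => ⟪e i, T x⟫_ℂ := by
    funext T
    rw [inner_e]
  rw [h]
  exact continuous_const.inner (ContinuousLinearMap.apply ℂ (l2 ι) x).continuous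

theorem continuous_sym (i : ι) : Continuous fun T : l2 ι →L[ℂ] l2 ι => sym T i := continuous_coe _ _

/-- the diagonal operators -/
def Dg (ι : Type) [DecidableEq ι] : Submodule ℂ (l2 ι →L[ℂ] l2 ι) where
  carrier := {T | IsDg T}
  add_mem' := by
    intro S T hS hT x i
    change ((S x + T x : l2 ι) : ι → ℂ) i = _
    rw [lp.coeFn_add, Pi.add_apply, hS x i, hT x i, sym_add, add_mul]
  zero_mem' := by
    intro x i
    change ((0 : l2 ι) : ι → ℂ) i = ((0 : l2 ι) : ι → ℂ) i * _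
    simp
  smul_mem' := by
    intro c T hT x i
    change ((c • T x : l2 ι) : ι → ℂ) i = _
    rw [lp.coeFn_smul, Pi.smul_apply, hT x i, sym_smul, smul_eq_mul, mul_assoc]

theorem isClosed_isDg : IsClosed {T : l2 ι →L[ℂ] l2 ι | IsDg T} := by
  have : {T : l2 ι →L[ℂ] l2 ι | IsDg T} = ⋂ (x : l2 ι), ⋂ (i : ι), {T | (T x : ι → ℂ) i = sym T i * (x : ι → ℂ) i} := by
    ext T
    simp [IsDg]
  rw [this]
  exact isClosed_iInter fun x => isClosed_iInter fun i =>
    isClosed_eq (continuous_coe x i) ((continuous_sym i).mul continuous_const)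

theorem Dg_alg : IsCStarAlg (Dg ι) where
  closed := isClosed_isDg
  mul := fun S hS T hT => (IsDg.mul hS hT).1
  star := fun T hT => (IsDg.star' hT).1

end

/-! ### the example -/

/-- the algebra `A` -/
def A0 : Submodule ℂ (l2 J →L[ℂ] l2 J) where
  carrier := {T | IsDg T ∧ Tendsto (fun n => sym T (Sum.inl n)) atTop (𝓝 (sym T (Sum.inr 0))) ∧
    sym T (Sum.inr 1) = sym T (Sum.inr 0)}
  add_mem' := by
    rintro S T ⟨a1, a2, a3⟩ ⟨b1, b2, b3⟩
    exact ⟨(Dg J).add_mem a1 b1, by simpa only [sym_add] using a2.add b2, by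
      rw [sym_add, sym_add, a3, b3]⟩
  zero_mem' := by
    refine ⟨(Dg J).zero_mem, ?_, rfl⟩
    exact tendsto_const_nhds
  smul_mem' := by
    rintro c T ⟨a1, a2, a3⟩
    exact ⟨(Dg J).smul_mem c a1, by simpa only [sym_smul] using a2.const_mul c, by
      rw [sym_smul, sym_smul, a3]⟩

theorem A0_alg : IsCStarAlg A0 where
  closed := by
    apply isClosed_of_closure_subset
    intro T hT
    have h1 : IsDg T := closure_minimal (fun T hT => hT.1) isClosed_isDg hT
    have h3 : sym T (Sum.inr 1) = sym T (Sum.inr 0) :=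
      closure_minimal (s := (A0 : Set (l2 J →L[ℂ] l2 J))) (fun T hT => hT.2.2)
        (isClosed_eq (continuous_sym _) (continuous_sym _)) hT
    refine ⟨h1, ?_, h3⟩
    rw [Metric.tendsto_atTop]
    intro ε hε
    obtain ⟨S, hS, hST⟩ := Metric.mem_closure_iff.1 hT (ε / 3) (by positivity)
    obtain ⟨N, hN⟩ := Metric.tendsto_atTop.1 hS.2.1 (ε / 3) (by positivity)
    refine ⟨N, fun n hn => ?_⟩
    have e1 : ∀ p, dist (sym T p) (sym S p) < ε / 3 := by
      intro p
      rw [dist_eq_norm, ← sym_sub]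
      refine (sym_le _ _).trans_lt ?_
      rwa [← dist_eq_norm]
    have e2 := hN n hn
    have e3 := e1 (Sum.inl n)
    have e4 := e1 (Sum.inr 0)
    rw [dist_comm] at e4
    calc dist (sym T (Sum.inl n)) (sym T (Sum.inr 0)) ≤
        dist (sym T (Sum.inl n)) (sym S (Sum.inl n)) + dist (sym S (Sum.inl n)) (sym S (Sum.inr 0)) +
          dist (sym S (Sum.inr 0)) (sym T (Sum.inr 0)) := dist_triangle4 _ _ _ _
      _ < ε := by linarith
  mul := by
    rintro S ⟨a1, a2, a3⟩ T ⟨b1, b2, b3⟩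
    obtain ⟨c1, c2⟩ := a1.mul b1
    exact ⟨c1, by simpa only [c2] using a2.mul b2, by rw [c2, c2, a3, b3]⟩
  star := by
    rintro T ⟨a1, a2, a3⟩
    obtain ⟨c1, c2⟩ := a1.star'
    refine ⟨c1, ?_, by rw [c2, c2, a3]⟩
    simp only [c2]
    exact (Complex.continuous_conj.tendsto _).comp a2

theorem bdd_comp {ι κ : Type} {a : ι → ℂ} (h : Bdd a) (g : κ → ι) : Bdd (fun k => a (g k)) := by
  obtain ⟨C, hC, h⟩ := h
  exact ⟨C, hC, fun k => h _⟩

/-- the embedding `A → ℓ^∞` -/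
def iA (T : l2 J →L[ℂ] l2 J) : l2 ℕ →L[ℂ] l2 ℕ := D fun n => sym T (Sum.inl n)

theorem iA_mem (T : l2 J →L[ℂ] l2 J) : iA T ∈ Dg ℕ := isDg_D (bdd_comp (sym_bdd _) _)

theorem sym_iA (T : l2 J →L[ℂ] l2 J) (n : ℕ) : sym (iA T) n = sym T (Sum.inl n) :=
  sym_D (bdd_comp (sym_bdd _) _) n

theorem iA_emb : IsStarEmb A0 iA where
  lin := ⟨fun S _ T _ => D_add (bdd_comp (sym_bdd _) _) (bdd_comp (sym_bdd _) _),
    fun c T _ => D_smul c (bdd_comp (sym_bdd _) _)⟩
  inj := by
    intro T hA hT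
    have h1 : ∀ n, sym T (Sum.inl n) = 0 := by
      intro n
      rw [← sym_iA, hT]
      rfl
    have h2 : sym T (Sum.inr 0) = 0 := by
      have h := hA.2.1
      simp only [h1] at h
      exact tendsto_nhds_unique h tendsto_const_nhds
    refine IsDg.ext hA.1 (Dg J).zero_mem ?_
    rintro (n | α)
    · rw [h1]; rfl
    · have : sym T (Sum.inr α) = 0 := by
        fin_cases α
        · exact h2
        · exact hA.2.2.trans h2
      rw [this]; rfl
  mul := by
    intro a ha b hb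
    unfold iA
    rw [← D_mul (bdd_comp (sym_bdd _) _) (bdd_comp (sym_bdd _) _)]
    congr 1
    funext n
    rw [(ha.1.mul hb.1).2]
  star := by
    intro a ha
    unfold iA
    rw [D_star (bdd_comp (sym_bdd _) _)]
    congr 1
    funext n
    rw [ha.1.star'.2]

/-! ### the copy of the injective envelope -/

/-- extension of a bounded sequence by its two ultralimits -/
def ext (a : ℕ → ℂ) : J → ℂ := Sum.elim a fun α => ulim (uf α) a

theorem ext_bdd {a : ℕ → ℂ} (h : Bdd a) : Bdd (ext a) := by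
  obtain ⟨C, hC, h⟩ := h
  refine ⟨C, hC, ?_⟩
  rintro (n | α)
  · exact h n
  · exact le_of_tendsto (ulim_tendsto (uf α) ⟨C, hC, h⟩).norm (Eventually.of_forall h)

theorem ext_add {a b : ℕ → ℂ} (ha : Bdd a) (hb : Bdd b) :
    ext (fun n => a n + b n) = fun p => ext a p + ext b p := by
  funext p
  rcases p with n | α
  · rfl
  · exact ulim_eq ((ulim_tendsto (uf α) ha).add (ulim_tendsto (uf α) hb))

theorem ext_smul {a : ℕ → ℂ} (c : ℂ) (ha : Bdd a) : ext (fun n => c * a n) = fun p => c * ext a p := by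
  funext p
  rcases p with n | α
  · rfl
  · exact ulim_eq ((ulim_tendsto (uf α) ha).const_mul c)

/-- the complete isometry `ℓ^∞(ℕ) → B(H)` -/
def jI (T : l2 ℕ →L[ℂ] l2 ℕ) : l2 J →L[ℂ] l2 J := D (ext (sym T))

theorem sym_jI (T : l2 ℕ →L[ℂ] l2 ℕ) (p : J) : sym (jI T) p = ext (sym T) p :=
  sym_D (ext_bdd (sym_bdd _)) p

theorem isDg_jI (T : l2 ℕ →L[ℂ] l2 ℕ) : IsDg (jI T) := isDg_D (ext_bdd (sym_bdd _))

theorem jI_CI : CI (Dg ℕ) jI := by
  refine ⟨⟨fun S _ T _ => ?_, fun c T _ => ?_⟩, fun n X hX => ?_⟩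
  · unfold jI
    rw [← D_add (ext_bdd (sym_bdd _)) (ext_bdd (sym_bdd _)), ← ext_add (sym_bdd _) (sym_bdd _)]
    rfl
  · unfold jI
    rw [← D_smul c (ext_bdd (sym_bdd _)), ← ext_smul c (sym_bdd _)]
    rfl
  apply le_antisymm
  · refine (mnorm_dg _ (fun i j => isDg_jI _) (mnorm_nonneg _)).2 ?_
    have h := (mnorm_dg X hX (mnorm_nonneg _)).1 le_rfl
    rintro (m | α) v
    · have := h m v
      simpa only [Matrix.map_apply, sym_jI, ext, Sum.elim_inl] using this
    · simp only [Matrix.map_apply, sym_jI, ext, Sum.elim_inr] at h ⊢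
      refine le_of_tendsto (x := (uf α : Filter ℕ)) (tendsto_finsetSum _ fun i _ => ((tendsto_finsetSum _
        fun j _ => (ulim_tendsto (uf α) (sym_bdd (X i j))).mul_const
          (v j)).norm.pow 2)) (Eventually.of_forall fun m => h m v)
  · refine (mnorm_dg _ hX (mnorm_nonneg _)).2 ?_
    have h := (mnorm_dg (X.map jI) (fun i j => isDg_jI _) (mnorm_nonneg _)).1 le_rfl
    intro m v
    have := h (Sum.inl m) v
    simpa only [Matrix.map_apply, sym_jI, ext, Sum.elim_inl] using this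

theorem jI_iA (a : l2 J →L[ℂ] l2 J) (ha : a ∈ A0) : jI (iA a) = a := by
  refine (isDg_jI _).ext ha.1 ?_
  have h1 : sym (iA a) = fun n => sym a (Sum.inl n) := funext fun n => sym_iA a n
  rintro (m | α)
  · rw [sym_jI]
    exact sym_iA a m
  · rw [sym_jI]
    change ulim (uf α) (sym (iA a)) = _
    rw [h1]
    have h2 : sym a (Sum.inr α) = sym a (Sum.inr 0) := by
      fin_cases α
      · rfl
      · exact ha.2.2
    rw [h2]
    exact ulim_eq (uf_atTop α ha.2.1)

/-! ### injectivity and rigidity -/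

theorem norm_map_one {H K : Type} [NormedAddCommGroup H] [InnerProductSpace ℂ H]
    [NormedAddCommGroup K] [InnerProductSpace ℂ K]
    {E : Submodule ℂ (H →L[ℂ] H)} {u : (H →L[ℂ] H) → (K →L[ℂ] K)} (hu : CC E u)
    (x : H →L[ℂ] H) (hx : x ∈ E) : ‖u x‖ ≤ ‖x‖ := by
  have h := hu.le 1 (Matrix.of fun _ _ => x) (fun _ _ => hx)
  have e1 : (Matrix.of fun (_ _ : Fin 1) => x).map u = Matrix.of fun _ _ => u x := rfl
  rw [e1, mnorm_one, mnorm_one] at h
  exact h

theorem hb_ext {V : Type} [NormedAddCommGroup V] [NormedSpace ℂ V] (E F : Submodule ℂ V) (hEF : E ≤ F)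
    (f : E →ₗ[ℂ] ℂ) (hf : ∀ x, ‖f x‖ ≤ ‖x‖) :
    ∃ g : F →ₗ[ℂ] ℂ, (∀ x : E, g ⟨x, hEF x.2⟩ = f x) ∧ ∀ x, ‖g x‖ ≤ ‖x‖ := by
  have hf1 : ∀ x, ‖f x‖ ≤ 1 * ‖x‖ := fun x => by rw [one_mul]; exact hf x
  obtain ⟨g, hg, hgn⟩ := exists_extension_norm_eq E (f.mkContinuous 1 hf1)
  have h1 : ‖g‖ ≤ 1 := by
    rw [hgn]
    exact LinearMap.mkContinuous_norm_le _ zero_le_one _
  refine ⟨g.toLinearMap ∘ₗ F.subtype, fun x => hg x, fun x => ?_⟩
  have h2 := g.le_opNorm (x : V)
  calc ‖g (x : V)‖ ≤ ‖g‖ * ‖(x : V)‖ := h2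
    _ ≤ 1 * ‖(x : V)‖ := by gcongr
    _ = ‖x‖ := one_mul _

theorem Dg_inj {ι : Type} [DecidableEq ι] : IsInjectiveSp (Dg ι) := by
  intro L _ _ _
  refine ⟨fun E F hEF u hu hcc => ?_⟩
  -- coordinate functionals
  have hb : ∀ (p : ι) (x : E), ‖sym (u x) p‖ ≤ ‖x‖ := fun p x => by
    exact (sym_le _ _).trans (norm_map_one hcc x x.2)
  have hex : ∀ p, ∃ g : F →ₗ[ℂ] ℂ, (∀ x : E, g ⟨x, hEF x.2⟩ = sym (u x) p) ∧ ∀ x, ‖g x‖ ≤ ‖x‖ :=
    fun p => hb_ext E F hEF
      { toFun := fun x => sym (u x) p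
        map_add' := fun x y => by
          rw [Submodule.coe_add, hcc.lin.add x x.2 y y.2, sym_add]
        map_smul' := fun c x => by
          rw [Submodule.coe_smul, hcc.lin.smul c x x.2, sym_smul]; rfl } (hb p)
  choose g hg hgb using hex
  have hbd : ∀ x : F, Bdd fun p => g p x := fun x => ⟨‖x‖, norm_nonneg _, fun p => hgb p x⟩
  classical
  set v : (L →L[ℂ] L) → (l2 ι →L[ℂ] l2 ι) := fun x =>
    if h : x ∈ F then D fun p => g p ⟨x, h⟩ else 0 with hvdef
  have hv : ∀ x (h : x ∈ F), v x = D fun p => g p ⟨x, h⟩ := fun x h => by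
    simp only [hvdef, dif_pos h]
  refine ⟨v, fun x hx => ?_, ⟨⟨fun x hx y hy => ?_, fun c x hx => ?_⟩, fun n X hX => ?_⟩, fun x hx => ?_⟩
  · rw [hv x hx]
    exact isDg_D (hbd _)
  · rw [hv x hx, hv y hy, hv _ (F.add_mem hx hy), ← D_add (hbd _) (hbd _)]
    congr 1
    funext p
    rw [← map_add]
    rfl
  · rw [hv x hx, hv _ (F.smul_mem c hx), ← D_smul c (hbd _)]
    congr 1
    funext p
    rw [← smul_eq_mul, ← map_smul]
    rfl
  · have hdg : ∀ i j, IsDg ((X.map v) i j) := fun i j => by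
      rw [Matrix.map_apply, hv _ (hX i j)]
      exact isDg_D (hbd _)
    refine (mnorm_dg _ hdg (mnorm_nonneg _)).2 fun p z => ?_
    set c := mnorm X with hc
    have hc0 : 0 ≤ c := mnorm_nonneg _
    have e1 : ∀ i j, sym ((X.map v) i j) p = g p ⟨X i j, hX i j⟩ := fun i j => by
      rw [Matrix.map_apply, hv _ (hX i j)]
      exact sym_D (hbd _) p
    simp only [e1]
    set w : Fin n → ℂ := fun i => ∑ j, g p ⟨X i j, hX i j⟩ * z j with hw
    change ∑ i, ‖w i‖ ^ 2 ≤ _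
    set W := ∑ i, ‖w i‖ ^ 2 with hW
    set V := ∑ j, ‖z j‖ ^ 2 with hV
    have hW0 : 0 ≤ W := Finset.sum_nonneg fun _ _ => by positivity
    have hV0 : 0 ≤ V := Finset.sum_nonneg fun _ _ => by positivity
    -- W = g (Σ conj w v X)
    have h1 : ((W : ℝ) : ℂ) = g p (∑ i, ∑ j, (conj (w i) * z j) • (⟨X i j, hX i j⟩ : F)) := by
      rw [map_sum, hW, Complex.ofReal_sum]
      refine Finset.sum_congr rfl fun i _ => ?_
      rw [map_sum]
      have : ((‖w i‖ ^ 2 : ℝ) : ℂ) = conj (w i) * w i := by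
        rw [← Complex.normSq_eq_norm_sq, Complex.normSq_eq_conj_mul_self]
      rw [this]
      conv_lhs => rw [hw]
      simp only [map_smul, smul_eq_mul, Finset.mul_sum]
      refine Finset.sum_congr rfl fun j _ => ?_
      rw [hw]
      ring
    have h2 : W ≤ ‖∑ i, ∑ j, (conj (w i) * z j) • X i j‖ := by
      have h3 : ‖((W : ℝ) : ℂ)‖ = W := by rw [Complex.norm_real, Real.norm_of_nonneg hW0]
      rw [← h3, h1]
      refine (hgb p _).trans (le_of_eq ?_)
      rw [← Submodule.norm_coe]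
      congr 1
      push_cast
      rfl
    have h3 := scalar_comp X w z
    have h4 : W ^ 2 ≤ c ^ 2 * W * V := by
      refine le_trans ?_ h3
      exact pow_le_pow_left₀ hW0 h2 2
    rcases hW0.eq_or_lt with h | h
    · rw [← h]; positivity
    · nlinarith
  · refine IsDg.ext ?_ (hu x hx) fun p => ?_
    · rw [hv x (hEF hx)]
      exact isDg_D (hbd _)
    · rw [hv x (hEF hx), sym_D (hbd _)]
      exact hg p ⟨x, hx⟩

/-- the minimal projections in `A` -/
def an (n : ℕ) : l2 J →L[ℂ] l2 J := D fun p => if p = Sum.inl n then 1 else 0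

theorem an_mem (n : ℕ) : an n ∈ A0 := by
  unfold an
  have hb : Bdd fun p : J => if p = Sum.inl n then (1 : ℂ) else 0 := by
    refine ⟨1, zero_le_one, fun p => ?_⟩
    by_cases h : p = Sum.inl n <;> simp [h]
  refine ⟨isDg_D hb, ?_, ?_⟩
  · simp only [sym_D hb]
    refine tendsto_const_nhds.congr' ?_
    filter_upwards [eventually_gt_atTop n] with m hm
    rw [if_neg (by simp), if_neg (by simpa using hm.ne')]
  · rw [sym_D hb, sym_D hb]
    simp

theorem sym_an (n m : ℕ) : sym (iA (an n)) m = if m = n then 1 else 0 := by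
  have hb : Bdd fun p : J => if p = Sum.inl n then (1 : ℂ) else 0 := by
    refine ⟨1, zero_le_one, fun p => ?_⟩
    by_cases h : p = Sum.inl n <;> simp [h]
  rw [sym_iA]
  change sym (D fun p : J => if p = Sum.inl n then (1 : ℂ) else 0) (Sum.inl m) = _
  rw [sym_D hb]
  simp

theorem norm_le_of_isDg {ι : Type} [DecidableEq ι] {T : l2 ι →L[ℂ] l2 ι} (h : IsDg T) {M : ℝ} (hM : 0 ≤ M)
    (hb : ∀ i, ‖sym T i‖ ≤ M) : ‖T‖ ≤ M := by
  rw [← h.eq_D]
  exact D_norm_le hM hb

theorem rigid (u : (l2 ℕ →L[ℂ] l2 ℕ) → (l2 ℕ →L[ℂ] l2 ℕ)) (hu : ∀ x ∈ Dg ℕ, u x ∈ Dg ℕ)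
    (hcc : CC (Dg ℕ) u) (hfix : ∀ a ∈ A0, u (iA a) = iA a) (x : l2 ℕ →L[ℂ] l2 ℕ) (hx : x ∈ Dg ℕ) :
    u x = x := by
  refine IsDg.ext (hu x hx) hx fun n => ?_
  set E : l2 ℕ →L[ℂ] l2 ℕ := iA (an n) with hE
  have hEd : E ∈ Dg ℕ := iA_mem _
  have hEu : u E = E := hfix _ (an_mem n)
  have hEs : ∀ m, sym E m = if m = n then 1 else 0 := sym_an n
  set t := sym x n with ht
  set x' := x + (-t) • E with hx'
  have hx'd : x' ∈ Dg ℕ := (Dg ℕ).add_mem hx ((Dg ℕ).smul_mem _ hEd)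
  have hx's : ∀ m, sym x' m = if m = n then 0 else sym x m := by
    intro m
    have : sym x' m = sym x m + (-t) * sym E m := rfl
    rw [this, hEs]
    by_cases h : m = n
    · subst h; simp [ht]
    · simp [h]
  have hux' : sym (u x') n = sym (u x) n - t := by
    have : u x' = u x + (-t) • E := by
      rw [hx', hcc.lin.add _ hx _ ((Dg ℕ).smul_mem _ hEd), hcc.lin.smul _ _ hEd, hEu]
    rw [this]
    change sym (u x) n + (-t) * sym E n = _
    rw [hEs, if_pos rfl, mul_one]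
    ring
  set z := sym (u x') n with hz
  set M := ‖x'‖ with hM
  have hM0 : 0 ≤ M := norm_nonneg _
  have key : ∀ ω : ℂ, ‖ω‖ ≤ M → ‖z + ω‖ ≤ M := by
    intro ω hω
    have hmem : x' + ω • E ∈ Dg ℕ := (Dg ℕ).add_mem hx'd ((Dg ℕ).smul_mem _ hEd)
    have h1 : ‖x' + ω • E‖ ≤ M := by
      refine norm_le_of_isDg hmem hM0 fun m => ?_
      have : sym (x' + ω • E) m = sym x' m + ω * sym E m := rfl
      rw [this, hEs]
      by_cases h : m = n
      · rw [if_pos h, hx's, if_pos h, mul_one, zero_add]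
        exact hω
      · rw [if_neg h, mul_zero, add_zero]
        exact sym_le _ _
    have h2 : sym (u (x' + ω • E)) n = z + ω := by
      have : u (x' + ω • E) = u x' + ω • E := by
        rw [hcc.lin.add _ hx'd _ ((Dg ℕ).smul_mem _ hEd), hcc.lin.smul _ _ hEd, hEu]
      rw [this]
      change sym (u x') n + ω * sym E n = _
      rw [hEs, if_pos rfl, mul_one]
    rw [← h2]
    exact (sym_le _ _).trans ((norm_map_one hcc _ hmem).trans h1)
  have hz0 : z = 0 := by
    by_contra hne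
    have hn : 0 < ‖z‖ := norm_pos_iff.2 hne
    have h1 := key (((M / ‖z‖ : ℝ) : ℂ) * z) (by
      rw [norm_mul, Complex.norm_real, Real.norm_of_nonneg (by positivity), div_mul_cancel₀ _ hn.ne'])
    have h2 : z + ((M / ‖z‖ : ℝ) : ℂ) * z = ((1 + M / ‖z‖ : ℝ) : ℂ) * z := by push_cast; ring
    rw [h2, norm_mul, Complex.norm_real, Real.norm_of_nonneg (by positivity), add_mul, one_mul,
      div_mul_cancel₀ _ hn.ne'] at h1
    linarith
  rw [hux'] at hz0
  exact sub_eq_zero.1 hz0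

theorem envelope : IsInjectiveEnvelope A0 (Dg ℕ) iA where
  alg := Dg_alg
  inj := Dg_inj
  emb := iA_emb
  mem := fun a _ => iA_mem a
  rigid := rigid

/-! ### `A` does not norm `B(H)` -/

/-- matrix units in the corner -/
def mu (α β : Fin 2) : l2 J →L[ℂ] l2 J :=
  (innerSL ℂ (e (Sum.inr β : J))).smulRight (e (Sum.inr α : J))

theorem mu_apply (α β : Fin 2) (x : l2 J) :
    mu α β x = (x : J → ℂ) (Sum.inr β) • e (Sum.inr α : J) := by
  unfold mu
  rw [ContinuousLinearMap.smulRight_apply, innerSL_apply_apply, inner_e]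

theorem not_norms : ¬ Norms {T | T ∈ A0} ⊤ := by
  intro h
  have h1 := (h 2 (by norm_num) (Matrix.of mu) (fun _ _ => Submodule.mem_top)).2
  -- upper bound
  have h2 : mnorm (Matrix.of mu) ≤ 1 := by
    apply h1
    rintro r ⟨R, C, hR, hC, hR1, hC1, rfl⟩
    refine (mnorm_le_iff _ zero_le_one).2 fun x => ?_
    set c : Fin 2 → ℂ := fun i => sym (C i 0) (Sum.inr 0) with hc
    set ρ : Fin 2 → ℂ := fun i => sym (R 0 i) (Sum.inr 0) with hρ
    have hCs : ∀ i β, sym (C i 0) (Sum.inr β) = c i := by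
      intro i β
      fin_cases β
      · rfl
      · exact (hC i).2.2
    have hRs : ∀ i β, sym (R 0 i) (Sum.inr β) = ρ i := by
      intro i β
      fin_cases β
      · rfl
      · exact (hR i).2.2
    have hc1 : ∑ i, ‖c i‖ ^ 2 ≤ 1 := by
      have := (mnorm_dg C (fun i j => by
        have : j = 0 := Subsingleton.elim _ _
        rw [this]; exact (hC i).1) zero_le_one).1 hC1 (Sum.inr 0) (fun _ => 1)
      simpa [hc] using this
    have hρ1 : ∑ i, ‖ρ i‖ ^ 2 ≤ 1 := by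
      have h3 := (mnorm_dg R (fun i j => by
        have : i = 0 := Subsingleton.elim _ _
        rw [this]; exact (hR j).1) zero_le_one).1 hR1 (Sum.inr 0) (fun j => conj (ρ j))
      simp only [Fin.sum_univ_one, one_pow, one_mul, RCLike.norm_conj] at h3
      set s := ∑ i, ‖ρ i‖ ^ 2 with hs
      have h4 : ∑ j, sym (R 0 j) (Sum.inr 0) * conj (ρ j) = (s : ℂ) := by
        rw [hs]
        push_cast
        refine Finset.sum_congr rfl fun j _ => ?_
        rw [hRs, Complex.mul_conj, Complex.normSq_eq_norm_sq]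
        push_cast
        rfl
      have hs0 : 0 ≤ s := Finset.sum_nonneg fun _ _ => by positivity
      rw [h4, Complex.norm_real, Real.norm_of_nonneg hs0] at h3
      nlinarith
    simp only [Fin.sum_univ_one, one_pow, one_mul]
    have e1 : (R * Matrix.of mu * C) 0 0 (x 0) =
        ∑ α, (ρ α * ∑ β, c β * (x 0 : J → ℂ) (Sum.inr β)) • (e (Sum.inr α) : l2 J) := by
      rw [Matrix.mul_assoc, Matrix.mul_apply, _root_.sum_apply]
      refine Finset.sum_congr rfl fun α _ => ?_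
      change R 0 α ((Matrix.of mu * C) α 0 (x 0)) = _
      have e2 : (Matrix.of mu * C) α 0 (x 0) =
          (∑ β, c β * (x 0 : J → ℂ) (Sum.inr β)) • (e (Sum.inr α) : l2 J) := by
        rw [Matrix.mul_apply, _root_.sum_apply, Finset.sum_smul]
        refine Finset.sum_congr rfl fun β _ => ?_
        change mu α β (C β 0 (x 0)) = _
        rw [mu_apply, (hC β).1, hCs]
      rw [e2, map_smul]
      have e3 : R 0 α (e (Sum.inr α)) = ρ α • (e (Sum.inr α) : l2 J) := by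
        ext p
        rw [(hR α).1, lp.coeFn_smul, Pi.smul_apply, smul_eq_mul, e_apply]
        by_cases hp : p = Sum.inr α
        · subst hp; rw [hRs]
        · simp [hp]
      rw [e3, smul_smul, mul_comm]
    rw [e1]
    set y := ∑ β, c β * (x 0 : J → ℂ) (Sum.inr β) with hy
    have e4 : ‖∑ α, (ρ α * y) • (e (Sum.inr α) : l2 J)‖ ^ 2 = ∑ α, ‖ρ α * y‖ ^ 2 := by
      rw [Fin.sum_univ_two, Fin.sum_univ_two, norm_add_sq (𝕜 := ℂ), inner_smul_left, inner_smul_right,
        inner_e, e_apply, if_neg (by simp), norm_smul, norm_smul, norm_e, norm_e]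
      simp
    rw [e4]
    have e5 : ∑ α, ‖ρ α * y‖ ^ 2 = (∑ α, ‖ρ α‖ ^ 2) * ‖y‖ ^ 2 := by
      rw [Finset.sum_mul]
      exact Finset.sum_congr rfl fun α _ => by rw [norm_mul, mul_pow]
    rw [e5]
    have e6 : ‖y‖ ^ 2 ≤ (∑ β, ‖c β‖ ^ 2) * ∑ β, ‖(x 0 : J → ℂ) (Sum.inr β)‖ ^ 2 := by
      have h5 : ‖y‖ ≤ ∑ β, ‖c β‖ * ‖(x 0 : J → ℂ) (Sum.inr β)‖ :=
        (norm_sum_le _ _).trans (le_of_eq (Finset.sum_congr rfl fun β _ => norm_mul _ _))
      exact (pow_le_pow_left₀ (norm_nonneg _) h5 2).trans (Finset.sum_mul_sq_le_sq_mul_sq _ _ _)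
    have e7 : ∑ β, ‖(x 0 : J → ℂ) (Sum.inr β)‖ ^ 2 ≤ ‖x 0‖ ^ 2 := by
      rw [norm_sq]
      have h6 := (sm (x 0)).sum_le_tsum ((Finset.univ : Finset (Fin 2)).map ⟨Sum.inr, Sum.inr_injective⟩)
        (fun _ _ => by positivity)
      rwa [Finset.sum_map] at h6
    have p1 : 0 ≤ ∑ β, ‖(x 0 : J → ℂ) (Sum.inr β)‖ ^ 2 := Finset.sum_nonneg fun _ _ => by positivity
    have p2 : ‖y‖ ^ 2 ≤ ‖x 0‖ ^ 2 := by
      refine e6.trans (le_trans ?_ e7)
      exact mul_le_of_le_one_left p1 hc1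
    exact (mul_le_of_le_one_left (by positivity) hρ1).trans p2
  -- lower bound
  have h3 := mnorm_apply (Matrix.of mu) (fun j => (e (Sum.inr j) : l2 J))
  have e1 : ∀ i : Fin 2, ∑ j, (Matrix.of mu) i j (e (Sum.inr j) : l2 J) = (2 : ℂ) • (e (Sum.inr i) : l2 J) := by
    intro i
    simp only [Matrix.of_apply, mu_apply, e_apply, if_true, one_smul]
    rw [Fin.sum_univ_two, two_smul]
  simp only [e1, norm_smul, norm_e, Finset.sum_const, Finset.card_univ, Fintype.card_fin] at h3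
  have h4 := mnorm_nonneg (Matrix.of mu)
  have h5 : mnorm (Matrix.of mu) ^ 2 ≤ 1 := by nlinarith
  norm_num at h3
  linarith


/-! ### the copy norms `B(H)` -/

/-- the retraction of `J` -/
def rt (S : Finset J) : J → J
  | Sum.inl n => if Sum.inl n ∈ S then Sum.inl n else Sum.inr ⟨n % 2, Nat.mod_lt _ (by norm_num)⟩
  | Sum.inr α => Sum.inr α

theorem rt_mem (S : Finset J) (v : J → ℂ) (hv : Bdd v) :
    ∃ T ∈ Dg ℕ, jI T = D (fun p => v (rt S p)) := by
  have hb : Bdd fun n : ℕ => v (rt S (Sum.inl n)) := bdd_comp hv _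
  refine ⟨D fun n : ℕ => v (rt S (Sum.inl n)), isDg_D hb, ?_⟩
  unfold jI
  congr 1
  funext p
  have h1 : sym (D fun n : ℕ => v (rt S (Sum.inl n))) = fun n => v (rt S (Sum.inl n)) :=
    funext fun n => sym_D hb n
  rcases p with n | α
  · exact congrFun h1 n
  · change ulim (uf α) (sym (D fun n : ℕ => v (rt S (Sum.inl n)))) = v (Sum.inr α)
    rw [h1]
    apply ulim_eq
    apply uf_tendsto
    have hfin : {n : ℕ | (Sum.inl (2 * n + (α : ℕ)) : J) ∈ S}.Finite := by
      exact (S.finite_toSet).preimage (f := fun n : ℕ => (Sum.inl (2 * n + (α : ℕ)) : J))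
        (fun a _ b _ h => by simpa using h)
    have hev : ∀ᶠ n : ℕ in atTop, (Sum.inl (2 * n + (α : ℕ)) : J) ∉ S := by
      rw [← Nat.cofinite_eq_atTop]
      exact hfin.eventually_cofinite_notMem
    refine tendsto_const_nhds.congr' ?_
    filter_upwards [hev] with n hn
    change v (Sum.inr α) = v (if (Sum.inl (2 * n + (α : ℕ)) : J) ∈ S then _ else _)
    rw [if_neg hn]
    congr 2
    apply Fin.ext
    change (α : ℕ) = (2 * n + (α : ℕ)) % 2
    have := α.2
    omega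

/-- factorisation of a finitely supported tuple -/
theorem factor {k : ℕ} (S : Finset J) (x : Fin k → l2 J)
    (hx : ∀ i n, (Sum.inl n : J) ∉ S → (x i : J → ℂ) (Sum.inl n) = 0) :
    ∃ (t : l2 J) (c : Fin k → J → ℂ), (∀ i, Bdd (c i)) ∧ (∀ p, ∑ i, ‖c i p‖ ^ 2 ≤ 1) ∧
      (∀ i, D (fun p => c i (rt S p)) t = x i) ∧ ‖t‖ ^ 2 = ∑ i, ‖x i‖ ^ 2 := by
  set q : J → ℝ := fun p => ∑ i, ‖(x i : J → ℂ) p‖ ^ 2 with hq
  have hq0 : ∀ p, 0 ≤ q p := fun p => Finset.sum_nonneg fun _ _ => by positivity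
  have hqs : Summable q := summable_sum fun i _ => sm (x i)
  have hn : ∀ p, ‖((√(q p) : ℝ) : ℂ)‖ ^ 2 = q p := fun p => by
    rw [Complex.norm_real, Real.norm_of_nonneg (Real.sqrt_nonneg _), Real.sq_sqrt (hq0 p)]
  have ht : Memℓp (fun p => ((√(q p) : ℝ) : ℂ)) 2 := by
    rw [memℓp_gen_iff (by norm_num)]
    refine hqs.congr fun p => ?_
    rw [← hn p]
    simp
  have hxq : ∀ i p, ‖(x i : J → ℂ) p‖ ^ 2 ≤ q p := fun i p =>
    Finset.single_le_sum (f := fun i => ‖(x i : J → ℂ) p‖ ^ 2) (fun _ _ => by positivity) (Finset.mem_univ i)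
  set c : Fin k → J → ℂ := fun i p => (x i : J → ℂ) p / ((√(q p) : ℝ) : ℂ) with hc
  have hcn : ∀ i p, ‖c i p‖ ^ 2 = ‖(x i : J → ℂ) p‖ ^ 2 / q p := fun i p => by
    rw [hc]
    simp only
    rw [norm_div, div_pow, hn]
  have hc1 : ∀ p, ∑ i, ‖c i p‖ ^ 2 ≤ 1 := by
    intro p
    simp only [hcn]
    rw [← Finset.sum_div]
    exact div_self_le_one _
  have hcb : ∀ i, Bdd (c i) := by
    intro i
    refine ⟨1, zero_le_one, fun p => ?_⟩
    have h1 := Finset.single_le_sum (f := fun i => ‖c i p‖ ^ 2) (fun _ _ => by positivity)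
      (Finset.mem_univ i)
    have h2 : ‖c i p‖ ^ 2 ≤ 1 ^ 2 := by
      rw [one_pow]
      exact h1.trans (hc1 p)
    exact (sq_le_sq₀ (norm_nonneg _) zero_le_one).1 h2
  refine ⟨⟨_, ht⟩, c, hcb, hc1, ?_, ?_⟩
  · intro i
    ext p
    rw [D_apply (bdd_comp (hcb i) _)]
    change c i (rt S p) * ((√(q p) : ℝ) : ℂ) = _
    by_cases hz : q p = 0
    · have h1 : (x i : J → ℂ) p = 0 := by
        have := hxq i p
        rw [hz] at this
        have h2 : ‖(x i : J → ℂ) p‖ = 0 := by nlinarith [norm_nonneg ((x i : J → ℂ) p)]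
        exact norm_eq_zero.1 h2
      rw [hz, h1]
      simp
    · have h1 : rt S p = p := by
        rcases p with n | α
        · by_cases hnS : (Sum.inl n : J) ∈ S
          · simp [rt, hnS]
          · exfalso
            apply hz
            rw [hq]
            simp only
            exact Finset.sum_eq_zero fun i _ => by rw [hx i n hnS]; simp
        · rfl
      rw [h1, hc]
      simp only
      apply div_mul_cancel₀
      intro h2
      have h3 : √(q p) = 0 := by exact_mod_cast h2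
      rw [Real.sqrt_eq_zero (hq0 p)] at h3
      exact hz h3
  · rw [norm_sq]
    change ∑' p, ‖((√(q p) : ℝ) : ℂ)‖ ^ 2 = _
    simp only [hn]
    rw [hq, Summable.tsum_finsetSum (fun i _ => sm (x i))]
    exact Finset.sum_congr rfl fun i _ => (norm_sq (x i)).symm

/-- truncation -/
def tr (S : Finset J) (x : l2 J) : l2 J := ∑ p ∈ S, lp.single 2 p ((x : J → ℂ) p)

theorem tr_apply (S : Finset J) (x : l2 J) (p : J) : (tr S x : J → ℂ) p = if p ∈ S then (x : J → ℂ) p else 0 := by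
  unfold tr
  rw [lp.coeFn_sum, Finset.sum_apply]
  have : ∀ q ∈ S, (lp.single 2 q ((x : J → ℂ) q) : l2 J) p = if p = q then (x : J → ℂ) p else 0 := by
    intro q _
    by_cases h : p = q
    · subst h; simp
    · simp [h, lp.single_apply]
  rw [Finset.sum_congr rfl this]
  simp

theorem tr_tendsto (x : l2 J) : Tendsto (fun S => tr S x) atTop (𝓝 x) :=
  lp.hasSum_single (by norm_num) x

theorem norms_copy : Norms {T | ∃ x ∈ Dg ℕ, jI x = T} ⊤ := by
  intro k hk X _
  constructor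
  · rintro r ⟨R, C, hR, hC, hR1, hC1, rfl⟩
    have h1 := mnorm_nonneg X
    have h2 := mnorm_nonneg R
    have h3 := mnorm_nonneg C
    have h4 := mnorm_nonneg (R * X)
    calc mnorm (R * X * C) ≤ mnorm (R * X) * mnorm C := mnorm_mul _ _
      _ ≤ (mnorm R * mnorm X) * mnorm C := by gcongr; exact mnorm_mul _ _
      _ ≤ (1 * mnorm X) * 1 := by gcongr
      _ = mnorm X := by ring
  · intro b hb
    -- b is nonnegative
    have hz : ∀ i : Fin k, (0 : l2 J →L[ℂ] l2 J) ∈ {T | ∃ x ∈ Dg ℕ, jI x = T} := fun _ =>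
      ⟨0, (Dg ℕ).zero_mem, by
        have h := jI_CI.lin.smul 0 0 (Dg ℕ).zero_mem
        rw [zero_smul, zero_smul] at h
        exact h⟩
    have hb0 : 0 ≤ b := by
      refine (mnorm_nonneg _).trans (hb ⟨0, 0, hz, hz, ?_, ?_, rfl⟩)
      · refine (mnorm_le_iff _ zero_le_one).2 fun x => ?_
        simp
        positivity
      · refine (mnorm_le_iff _ zero_le_one).2 fun x => ?_
        simp
    -- truncated inequality
    have key : ∀ (x y : Fin k → l2 J) (S : Finset J),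
        ‖∑ i, ⟪tr S (y i), ∑ j, X i j (tr S (x j))⟫_ℂ‖ ≤
          b * √(∑ i, ‖tr S (x i)‖ ^ 2) * √(∑ i, ‖tr S (y i)‖ ^ 2) := by
      intro x y S
      have hsup : ∀ (z : Fin k → l2 J) (i : Fin k) (n : ℕ), (Sum.inl n : J) ∉ S →
          (tr S (z i) : J → ℂ) (Sum.inl n) = 0 := fun z i n h => by rw [tr_apply, if_neg h]
      obtain ⟨t, c, cb, c1, ct, tn⟩ := factor S (fun i => tr S (x i)) (hsup x)
      obtain ⟨s, d, db, d1, ds, sn⟩ := factor S (fun i => tr S (y i)) (hsup y)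
      let R : Matrix (Fin 1) (Fin k) (l2 J →L[ℂ] l2 J) :=
        Matrix.of fun _ i => D fun p => conj (d i (rt S p))
      let C : Matrix (Fin k) (Fin 1) (l2 J →L[ℂ] l2 J) := Matrix.of fun i _ => D fun p => c i (rt S p)
      have hR : ∀ i, R 0 i ∈ {T | ∃ x ∈ Dg ℕ, jI x = T} := fun i =>
        rt_mem S (fun p => conj (d i p)) (bdd_conj (db i))
      have hC : ∀ i, C i 0 ∈ {T | ∃ x ∈ Dg ℕ, jI x = T} := fun i => rt_mem S (c i) (cb i)
      have hR1 : mnorm R ≤ 1 := by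
        have hbR : ∀ i, Bdd fun p => conj (d i (rt S p)) := fun i => bdd_conj (bdd_comp (db i) _)
        refine (mnorm_dg R (fun i j => isDg_D (hbR j)) zero_le_one).2 fun p v => ?_
        have e1 : ∀ j, sym (R 0 j) p = conj (d j (rt S p)) := fun j => sym_D (hbR j) p
        rw [Fin.sum_univ_one]
        simp only [e1]
        have h5 : ‖∑ j, conj (d j (rt S p)) * v j‖ ≤ ∑ j, ‖d j (rt S p)‖ * ‖v j‖ :=
          (norm_sum_le _ _).trans (le_of_eq (Finset.sum_congr rfl fun j _ => by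
            rw [norm_mul, RCLike.norm_conj]))
        have h6 : 0 ≤ ∑ j, ‖v j‖ ^ 2 := Finset.sum_nonneg fun _ _ => by positivity
        calc _ ≤ (∑ j, ‖d j (rt S p)‖ * ‖v j‖) ^ 2 := pow_le_pow_left₀ (norm_nonneg _) h5 2
          _ ≤ (∑ j, ‖d j (rt S p)‖ ^ 2) * ∑ j, ‖v j‖ ^ 2 := Finset.sum_mul_sq_le_sq_mul_sq _ _ _
          _ ≤ 1 * ∑ j, ‖v j‖ ^ 2 := by gcongr; exact d1 _
          _ = _ := by ring
      have hC1 : mnorm C ≤ 1 := by
        have hbC : ∀ i, Bdd fun p => c i (rt S p) := fun i => bdd_comp (cb i) _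
        refine (mnorm_dg C (fun i j => isDg_D (hbC i)) zero_le_one).2 fun p v => ?_
        have e1 : ∀ j, sym (C j 0) p = c j (rt S p) := fun j => sym_D (hbC j) p
        simp only [Fin.sum_univ_one, e1, norm_mul, mul_pow]
        rw [← Finset.sum_mul, one_pow]
        have := c1 (rt S p)
        gcongr
      have hle : mnorm (R * X * C) ≤ b := hb ⟨R, C, hR, hC, hR1, hC1, rfl⟩
      -- the operator
      set T : l2 J →L[ℂ] l2 J := (R * X * C) 0 0 with hT
      have hTn : ‖T‖ ≤ b := by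
        have hm : (Matrix.of fun (_ _ : Fin 1) => T) = R * X * C := by
          ext i j : 2
          have h1 : i = 0 := Subsingleton.elim _ _
          have h2 : j = 0 := Subsingleton.elim _ _
          rw [h1, h2]
          rfl
        rw [← mnorm_one, hm]
        exact hle
      have e1 : ⟪s, T t⟫_ℂ = ∑ i, ⟪tr S (y i), ∑ j, X i j (tr S (x j))⟫_ℂ := by
        have e2 : T t = ∑ i, R 0 i (∑ j, X i j (tr S (x j))) := by
          rw [hT, Matrix.mul_assoc, Matrix.mul_apply, _root_.sum_apply]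
          refine Finset.sum_congr rfl fun i _ => ?_
          change R 0 i ((X * C) i 0 t) = _
          rw [Matrix.mul_apply, _root_.sum_apply]
          congr 1
          refine Finset.sum_congr rfl fun j _ => ?_
          change X i j (C j 0 t) = _
          rw [← ct j]
          rfl
        rw [e2, inner_sum]
        refine Finset.sum_congr rfl fun i _ => ?_
        have e3 : R 0 i = star (D fun p => d i (rt S p)) := by
          rw [D_star (bdd_comp (db i) _)]
          rfl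
        rw [e3]
        have e4 : ∀ z : l2 J, ⟪s, (star (D fun p => d i (rt S p))) z⟫_ℂ = ⟪(D fun p => d i (rt S p)) s, z⟫_ℂ :=
          fun z => ContinuousLinearMap.adjoint_inner_right _ _ _
        rw [e4, ds]
      rw [← e1]
      have hts : ‖t‖ = √(∑ i, ‖tr S (x i)‖ ^ 2) := by
        rw [← tn, Real.sqrt_sq (norm_nonneg _)]
      have hss : ‖s‖ = √(∑ i, ‖tr S (y i)‖ ^ 2) := by
        rw [← sn, Real.sqrt_sq (norm_nonneg _)]
      rw [← hts, ← hss]
      calc ‖⟪s, T t⟫_ℂ‖ ≤ ‖s‖ * ‖T t‖ := norm_inner_le_norm _ _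
        _ ≤ ‖s‖ * (b * ‖t‖) := by
            gcongr
            exact (T.le_opNorm t).trans (by gcongr)
        _ = b * ‖t‖ * ‖s‖ := by ring
    -- limit
    have key2 : ∀ (x y : Fin k → l2 J), ‖∑ i, ⟪y i, ∑ j, X i j (x j)⟫_ℂ‖ ≤
        b * √(∑ i, ‖x i‖ ^ 2) * √(∑ i, ‖y i‖ ^ 2) := by
      intro x y
      have l1 : Tendsto (fun S => ‖∑ i, ⟪tr S (y i), ∑ j, X i j (tr S (x j))⟫_ℂ‖) atTop
          (𝓝 ‖∑ i, ⟪y i, ∑ j, X i j (x j)⟫_ℂ‖) := by
        refine (tendsto_finsetSum _ fun i _ => (tr_tendsto (y i)).inner (tendsto_finsetSum _ fun j _ => ?_)).norm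
        exact ((X i j).continuous.tendsto _).comp (tr_tendsto (x j))
      have l2 : Tendsto (fun S => b * √(∑ i, ‖tr S (x i)‖ ^ 2) * √(∑ i, ‖tr S (y i)‖ ^ 2)) atTop
          (𝓝 (b * √(∑ i, ‖x i‖ ^ 2) * √(∑ i, ‖y i‖ ^ 2))) := by
        have h1 : ∀ z : Fin k → l2 J, Tendsto (fun S => √(∑ i, ‖tr S (z i)‖ ^ 2)) atTop
            (𝓝 √(∑ i, ‖z i‖ ^ 2)) := fun z =>
          (Real.continuous_sqrt.tendsto _).comp (tendsto_finsetSum _ fun i _ => (tr_tendsto (z i)).norm.pow 2)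
        exact ((h1 x).const_mul b).mul (h1 y)
      exact le_of_tendsto_of_tendsto' l1 l2 (key x y)
    refine (mnorm_le_iff X hb0).2 fun x => ?_
    have h1 := key2 x (fun i => ∑ j, X i j (x j))
    set Q := ∑ i, ‖∑ j, X i j (x j)‖ ^ 2 with hQ
    have hQ0 : 0 ≤ Q := Finset.sum_nonneg fun _ _ => by positivity
    have hx0 : 0 ≤ ∑ i, ‖x i‖ ^ 2 := Finset.sum_nonneg fun _ _ => by positivity
    have h2 : ∑ i, ⟪∑ j, X i j (x j), ∑ j, X i j (x j)⟫_ℂ = (Q : ℂ) := by
      rw [hQ]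
      push_cast
      exact Finset.sum_congr rfl fun i _ => by rw [inner_self_eq_norm_sq_to_K]; rfl
    rw [h2, Complex.norm_real, Real.norm_of_nonneg hQ0] at h1
    set V := ∑ i, ‖x i‖ ^ 2 with hV
    have h3 : Q ^ 2 ≤ b ^ 2 * V * Q := by
      calc Q ^ 2 ≤ (b * √V * √Q) ^ 2 := pow_le_pow_left₀ hQ0 h1 2
        _ = b ^ 2 * V * Q := by rw [mul_pow, mul_pow, Real.sq_sqrt hx0, Real.sq_sqrt hQ0]
    rcases hQ0.eq_or_lt with h | h
    · rw [← h]; positivity
    · nlinarith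

end

end Pool.Agent.X188.Norming
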