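import Pool.Agent.X188.TrigB

/-! The sine-to-cosine re-expansion operator. -/

set_option autoImplicit false
open MeasureTheory Set Filter Topology
open scoped InnerProductSpace ComplexConjugate ENNReal Real NNReal

namespace Pool.Agent.X188.ReExp

open Pool.Agent.X188.TrigB

noncomputable section

theorem orth_c : Orthonormal ℂ c := by
  rw [orthonormal_iff_ite]
  exact inner_c

/-- the re-expansion operator -/
def P : H →ₗᵢ[ℂ] H := (orth_c.orthogonalFamily.linearIsometry).comp bs.repr.toLinearIsometry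

theorem P_hasSum (f : H) : HasSum (fun n => ⟪s n, f⟫_ℂ • c n) (P f) := by
  have h := orth_c.orthogonalFamily.hasSum_linearIsometry (bs.repr f)
  have e : (fun n => ⟪s n, f⟫_ℂ • c n) = fun n =>
      (LinearIsometry.toSpanSingleton ℂ H (orth_c.1 n)) (bs.repr f n) := by
    funext n
    rw [LinearIsometry.toSpanSingleton_apply, bs.repr_apply_apply, bs_coe]
  rw [e]
  exact h

/-! ### the eigenfunctions -/

/-- `log cot (t/2)` -/
def L (t : ℝ) : ℝ := Real.log (Real.cos (t / 2)) - Real.log (Real.sin (t / 2))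

/-- `cot(t/2)^{iτ}` -/
def G (τ t : ℝ) : ℂ := Complex.exp (Complex.I * (τ * L t : ℝ))

theorem L_meas : Measurable L := by
  unfold L
  fun_prop

theorem G_meas (τ : ℝ) : Measurable (G τ) := by
  unfold G
  have := L_meas
  fun_prop

theorem G_norm (τ t : ℝ) : ‖G τ t‖ = 1 := by
  unfold G
  rw [Complex.norm_exp]
  simp

theorem L_deriv {t : ℝ} (h0 : 0 < t) (h1 : t < π) : HasDerivAt L (-(1 / Real.sin t)) t := by
  have hs : 0 < Real.sin (t / 2) := Real.sin_pos_of_pos_of_lt_pi (by linarith) (by linarith)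
  have hc : 0 < Real.cos (t / 2) := Real.cos_pos_of_mem_Ioo ⟨by linarith [Real.pi_pos], by linarith⟩
  have hd : HasDerivAt (fun t : ℝ => t / 2) (1 / 2) t := (hasDerivAt_id t).div_const 2
  have e1 := (hd.cos).log hc.ne'
  have e2 := (hd.sin).log hs.ne'
  have e3 : HasDerivAt L _ t := e1.sub e2
  have e4 : Real.sin t = 2 * Real.sin (t / 2) * Real.cos (t / 2) := by
    rw [← Real.sin_two_mul]; congr 1; ring
  refine e3.congr_deriv ?_
  rw [e4]
  have := Real.sin_sq_add_cos_sq (t / 2)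
  field_simp
  linarith

theorem G_deriv (τ : ℝ) {t : ℝ} (h0 : 0 < t) (h1 : t < π) :
    HasDerivAt (G τ) (G τ t * (Complex.I * (τ * (-(1 / Real.sin t)) : ℝ))) t := by
  unfold G
  have h := ((L_deriv h0 h1).const_mul τ).ofReal_comp
  exact ((h.const_mul Complex.I)).cexp

theorem ibp (τ : ℝ) {φ φ' : ℝ → ℝ} (hφ : ∀ t, HasDerivAt φ (φ' t) t) (hφ' : Continuous φ') :
    ∫ t in (0 : ℝ)..π, G τ t * ((Real.cos t * φ t + Real.sin t * φ' t : ℝ) : ℂ) =
      Complex.I * τ * ∫ t in (0 : ℝ)..π, G τ t * (φ t : ℂ) := by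
  have hφc : Continuous φ := continuous_iff_continuousAt.2 fun t => (hφ t).continuousAt
  set W : ℝ → ℂ := fun t => G τ t * ((Real.sin t * φ t : ℝ) : ℂ) with hW
  set W' : ℝ → ℂ := fun t => G τ t * ((Real.cos t * φ t + Real.sin t * φ' t : ℝ) : ℂ) -
    Complex.I * τ * (G τ t * (φ t : ℂ)) with hW'
  have hint : ∀ {ψ : ℝ → ℝ}, Continuous ψ → IntervalIntegrable (fun t => G τ t * (ψ t : ℂ)) volume 0 π := by
    intro ψ hψ
    have h1 : IntervalIntegrable (fun t => (ψ t : ℂ)) volume 0 π :=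
      (Complex.continuous_ofReal.comp hψ).intervalIntegrable _ _
    rw [intervalIntegrable_iff_integrableOn_Ioc_of_le Real.pi_pos.le] at h1 ⊢
    exact h1.bdd_mul (c := 1) (G_meas τ).aestronglyMeasurable
      (Eventually.of_forall fun t => (G_norm τ t).le)
  have i1 := hint (ψ := fun t => Real.cos t * φ t + Real.sin t * φ' t) (by fun_prop)
  have i2 := hint hφc
  have hd : ∀ t ∈ Ioo (0 : ℝ) π, HasDerivAt W (W' t) t := by
    rintro t ⟨h0, h1⟩
    have hs : Real.sin t ≠ 0 := (Real.sin_pos_of_pos_of_lt_pi h0 h1).ne'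
    have hs' : Complex.sin (t : ℂ) ≠ 0 := by
      rw [← Complex.ofReal_sin]
      exact_mod_cast hs
    have d1 : HasDerivAt W _ t :=
      (G_deriv τ h0 h1).mul (((Real.hasDerivAt_sin t).mul (hφ t)).ofReal_comp)
    refine d1.congr_deriv ?_
    rw [hW']
    simp only
    push_cast
    field_simp
    ring
  have ht : ∀ x : ℝ, Real.sin x = 0 → Tendsto W (𝓝 x) (𝓝 0) := by
    intro x hx
    have h1 : Tendsto (fun t => ((Real.sin t * φ t : ℝ) : ℂ)) (𝓝 x) (𝓝 0) := by
      have : Continuous fun t => ((Real.sin t * φ t : ℝ) : ℂ) := by fun_prop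
      have h2 := this.tendsto x
      rwa [hx, zero_mul, Complex.ofReal_zero] at h2
    rw [tendsto_zero_iff_norm_tendsto_zero] at h1 ⊢
    refine h1.congr fun t => ?_
    rw [hW]
    simp only
    rw [norm_mul, G_norm, one_mul]
  have hFTC := intervalIntegral.integral_eq_sub_of_hasDerivAt_of_tendsto Real.pi_pos hd
    (i1.sub (i2.const_mul (Complex.I * τ)))
    ((ht 0 Real.sin_zero).mono_left nhdsWithin_le_nhds)
    ((ht π Real.sin_pi).mono_left nhdsWithin_le_nhds)
  rw [hW', intervalIntegral.integral_sub i1 (i2.const_mul _), intervalIntegral.integral_const_mul,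
    sub_zero] at hFTC
  exact sub_eq_zero.1 hFTC

/-- cosine coefficients -/
def Cn (τ : ℝ) (n : ℕ) : ℂ := ∫ t in (0 : ℝ)..π, G τ t * (Real.cos (n * t) : ℂ)

/-- sine coefficients -/
def Sn (τ : ℝ) (n : ℕ) : ℂ := ∫ t in (0 : ℝ)..π, G τ t * (Real.sin (n * t) : ℂ)

theorem G_int (τ : ℝ) {ψ : ℝ → ℝ} (hψ : Continuous ψ) :
    IntervalIntegrable (fun t => G τ t * (ψ t : ℂ)) volume 0 π := by
  have h1 : IntervalIntegrable (fun t => (ψ t : ℂ)) volume 0 π :=
    (Complex.continuous_ofReal.comp hψ).intervalIntegrable _ _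
  rw [intervalIntegrable_iff_integrableOn_Ioc_of_le Real.pi_pos.le] at h1 ⊢
  exact h1.bdd_mul (c := 1) (G_meas τ).aestronglyMeasurable
    (Eventually.of_forall fun t => (G_norm τ t).le)

theorem Cn_one (τ : ℝ) : Cn τ 1 = Complex.I * τ * Cn τ 0 := by
  have h := ibp τ (φ := fun _ => 1) (φ' := fun _ => 0) (fun t => hasDerivAt_const t 1) continuous_const
  have e1 : Cn τ 1 = ∫ t in (0 : ℝ)..π, G τ t * ((Real.cos t * 1 + Real.sin t * 0 : ℝ) : ℂ) := by
    unfold Cn
    refine intervalIntegral.integral_congr fun t _ => ?_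
    simp
  have e2 : Cn τ 0 = ∫ t in (0 : ℝ)..π, G τ t * ((1 : ℝ) : ℂ) := by
    unfold Cn
    refine intervalIntegral.integral_congr fun t _ => ?_
    simp
  rw [e1, e2]
  exact h

theorem Cn_rec (τ : ℝ) (n : ℕ) :
    (n + 2 : ℂ) * Cn τ (n + 2) - n * Cn τ n = 2 * (Complex.I * τ) * Cn τ (n + 1) := by
  have hd : ∀ t : ℝ, HasDerivAt (fun t : ℝ => Real.cos (((n + 1 : ℕ) : ℝ) * t))
      (-((n + 1 : ℕ) : ℝ) * Real.sin (((n + 1 : ℕ) : ℝ) * t)) t := by
    intro t
    have h1 : HasDerivAt (fun t : ℝ => ((n + 1 : ℕ) : ℝ) * t) ((n + 1 : ℕ) : ℝ) t := by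
      simpa using (hasDerivAt_id t).const_mul ((n + 1 : ℕ) : ℝ)
    convert h1.cos using 1
    ring
  have h := ibp τ hd (by fun_prop)
  have e1 : ∀ t : ℝ, G τ t * ((Real.cos t * Real.cos (((n + 1 : ℕ) : ℝ) * t) +
      Real.sin t * (-((n + 1 : ℕ) : ℝ) * Real.sin (((n + 1 : ℕ) : ℝ) * t)) : ℝ) : ℂ) =
      (1 / 2 : ℂ) * ((n + 2 : ℂ) * (G τ t * (Real.cos (((n + 2 : ℕ) : ℝ) * t) : ℂ)) -
        n * (G τ t * (Real.cos ((n : ℝ) * t) : ℂ))) := by
    intro t
    have h1 : ((n + 2 : ℕ) : ℝ) * t = ((n + 1 : ℕ) : ℝ) * t + t := by push_cast; ring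
    have h2 : (n : ℝ) * t = ((n + 1 : ℕ) : ℝ) * t - t := by push_cast; ring
    rw [h1, h2, Real.cos_add, Real.cos_sub]
    push_cast
    ring
  simp only [e1] at h
  rw [intervalIntegral.integral_const_mul, intervalIntegral.integral_sub
    ((G_int τ (by fun_prop)).const_mul _) ((G_int τ (by fun_prop)).const_mul _),
    intervalIntegral.integral_const_mul, intervalIntegral.integral_const_mul] at h
  change (1 / 2 : ℂ) * ((n + 2 : ℂ) * Cn τ (n + 2) - n * Cn τ n) = Complex.I * τ * Cn τ (n + 1) at h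
  linear_combination 2 * h

theorem Sn_rec (τ : ℝ) (n : ℕ) :
    (n + 2 : ℂ) * Sn τ (n + 2) - n * Sn τ n = 2 * (Complex.I * τ) * Sn τ (n + 1) := by
  have hd : ∀ t : ℝ, HasDerivAt (fun t : ℝ => Real.sin (((n + 1 : ℕ) : ℝ) * t))
      (((n + 1 : ℕ) : ℝ) * Real.cos (((n + 1 : ℕ) : ℝ) * t)) t := by
    intro t
    have h1 : HasDerivAt (fun t : ℝ => ((n + 1 : ℕ) : ℝ) * t) ((n + 1 : ℕ) : ℝ) t := by
      simpa using (hasDerivAt_id t).const_mul ((n + 1 : ℕ) : ℝ)
    convert h1.sin using 1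
    ring
  have h := ibp τ hd (by fun_prop)
  have e1 : ∀ t : ℝ, G τ t * ((Real.cos t * Real.sin (((n + 1 : ℕ) : ℝ) * t) +
      Real.sin t * (((n + 1 : ℕ) : ℝ) * Real.cos (((n + 1 : ℕ) : ℝ) * t)) : ℝ) : ℂ) =
      (1 / 2 : ℂ) * ((n + 2 : ℂ) * (G τ t * (Real.sin (((n + 2 : ℕ) : ℝ) * t) : ℂ)) -
        n * (G τ t * (Real.sin ((n : ℝ) * t) : ℂ))) := by
    intro t
    have h1 : ((n + 2 : ℕ) : ℝ) * t = ((n + 1 : ℕ) : ℝ) * t + t := by push_cast; ring
    have h2 : (n : ℝ) * t = ((n + 1 : ℕ) : ℝ) * t - t := by push_cast; ring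
    rw [h1, h2, Real.sin_add, Real.sin_sub]
    push_cast
    ring
  simp only [e1] at h
  rw [intervalIntegral.integral_const_mul, intervalIntegral.integral_sub
    ((G_int τ (by fun_prop)).const_mul _) ((G_int τ (by fun_prop)).const_mul _),
    intervalIntegral.integral_const_mul, intervalIntegral.integral_const_mul] at h
  change (1 / 2 : ℂ) * ((n + 2 : ℂ) * Sn τ (n + 2) - n * Sn τ n) = Complex.I * τ * Sn τ (n + 1) at h
  linear_combination 2 * h


/-! ### proportionality -/

theorem prop (τ : ℝ) (n : ℕ) : Cn τ (n + 1) * Sn τ 1 = Sn τ (n + 1) * Cn τ 1 := by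
  have h : ∀ n : ℕ, Cn τ (n + 1) * Sn τ 1 = Sn τ (n + 1) * Cn τ 1 ∧
      Cn τ (n + 2) * Sn τ 1 = Sn τ (n + 2) * Cn τ 1 := by
    intro n
    induction n with
    | zero =>
      refine ⟨by ring, ?_⟩
      have h1 := Cn_rec τ 0
      have h2 := Sn_rec τ 0
      simp only [Nat.cast_zero, zero_add, zero_mul, sub_zero] at h1 h2
      have h3 : (2 : ℂ) ≠ 0 := two_ne_zero
      apply mul_left_cancel₀ h3
      linear_combination (Sn τ 1) * h1 - (Cn τ 1) * h2
    | succ n ih =>
      refine ⟨ih.2, ?_⟩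
      have h1 := Cn_rec τ (n + 1)
      have h2 := Sn_rec τ (n + 1)
      have h3 : ((n : ℂ) + 3) ≠ 0 := by
        have : ((n + 3 : ℕ) : ℂ) ≠ 0 := Nat.cast_ne_zero.2 (by omega)
        push_cast at this
        exact this
      have e1 : n + 1 + 2 = n + 3 := rfl
      have e2 : n + 1 + 1 = n + 2 := rfl
      rw [e1, e2] at h1 h2
      push_cast at h1 h2
      rw [e1]
      apply mul_left_cancel₀ h3
      linear_combination (Sn τ 1) * h1 - (Cn τ 1) * h2 + (n + 1 : ℂ) * ih.1 +
        2 * (Complex.I * τ) * ih.2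
  exact (h n).1

theorem Sn_zero (τ : ℝ) (h : Sn τ 1 = 0) (n : ℕ) : Sn τ (n + 1) = 0 := by
  have h : ∀ n : ℕ, Sn τ (n + 1) = 0 ∧ Sn τ (n + 2) = 0 := by
    intro n
    induction n with
    | zero =>
      refine ⟨h, ?_⟩
      have h2 := Sn_rec τ 0
      simp only [Nat.cast_zero, zero_add, zero_mul, sub_zero, h, mul_zero] at h2
      exact (mul_eq_zero.1 h2).resolve_left two_ne_zero
    | succ n ih =>
      refine ⟨ih.2, ?_⟩
      have h2 := Sn_rec τ (n + 1)
      have h3 : ((n : ℂ) + 3) ≠ 0 := by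
        have : ((n + 3 : ℕ) : ℂ) ≠ 0 := Nat.cast_ne_zero.2 (by omega)
        push_cast at this
        exact this
      have e1 : n + 1 + 2 = n + 3 := rfl
      have e2 : n + 1 + 1 = n + 2 := rfl
      rw [e1, e2, ih.1, ih.2] at h2
      push_cast at h2
      rw [e1]
      apply mul_left_cancel₀ h3
      linear_combination h2
  exact (h n).1

theorem Cn_zero (τ : ℝ) (h : Cn τ 0 = 0) (n : ℕ) : Cn τ n = 0 := by
  have h1 : Cn τ 1 = 0 := by rw [Cn_one, h, mul_zero]
  have h : ∀ n : ℕ, Cn τ n = 0 ∧ Cn τ (n + 1) = 0 := by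
    intro n
    induction n with
    | zero => exact ⟨h, h1⟩
    | succ n ih =>
      refine ⟨ih.2, ?_⟩
      have h2 := Cn_rec τ n
      have h3 : ((n : ℂ) + 2) ≠ 0 := by
        have : ((n + 2 : ℕ) : ℂ) ≠ 0 := Nat.cast_ne_zero.2 (by omega)
        push_cast at this
        exact this
      rw [ih.1, ih.2] at h2
      apply mul_left_cancel₀ h3
      linear_combination h2
  exact (h n).1

theorem GMem (τ : ℝ) : MemLp (G τ) 2 mu := memLp_bdd (G_meas τ) (fun t => (G_norm τ t).le)

/-- the eigenfunction as an element of `L²(0,π)` -/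
def g (τ : ℝ) : H := (GMem τ).toLp _

theorem inner_s_g (τ : ℝ) (n : ℕ) : ⟪s n, g τ⟫_ℂ = (rt2 : ℂ) * Sn τ (n + 1) := by
  unfold s g
  rw [inner_el2, int_eq, Sn, ← intervalIntegral.integral_const_mul]
  refine intervalIntegral.integral_congr fun t _ => ?_
  rw [Complex.conj_ofReal]
  unfold rt2
  push_cast
  ring

theorem inner_c_g (τ : ℝ) (n : ℕ) : ⟪c n, g τ⟫_ℂ = (rt2 : ℂ) * Cn τ (n + 1) := by
  unfold c g
  rw [inner_el2, int_eq, Cn, ← intervalIntegral.integral_const_mul]
  refine intervalIntegral.integral_congr fun t _ => ?_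
  rw [Complex.conj_ofReal]
  unfold rt2
  push_cast
  ring

theorem inner_one_g (τ : ℝ) : ⟪one, g τ⟫_ℂ = Cn τ 0 := by
  unfold one g
  rw [inner_el2, int_eq, Cn]
  refine intervalIntegral.integral_congr fun t _ => ?_
  simp

theorem norm_g (τ : ℝ) : ‖g τ‖ ^ 2 = π := by
  have h1 : ⟪g τ, g τ⟫_ℂ = (π : ℂ) := by
    unfold g
    rw [inner_el2, int_eq]
    have : ∀ t : ℝ, conj (G τ t) * G τ t = 1 := by
      intro t
      rw [← Complex.normSq_eq_conj_mul_self, Complex.normSq_eq_norm_sq, G_norm]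
      simp
    simp [this]
  rw [inner_self_eq_norm_sq_to_K] at h1
  have h2 : ((‖g τ‖ ^ 2 : ℝ) : ℂ) = ((π : ℝ) : ℂ) := by
    push_cast
    exact h1
  exact Complex.ofReal_injective h2

theorem g_ne (τ : ℝ) : g τ ≠ 0 := by
  intro h
  have := norm_g τ
  rw [h, norm_zero] at this
  have hp := Real.pi_pos
  norm_num at this
  linarith

theorem Sn_ne (τ : ℝ) : Sn τ 1 ≠ 0 := by
  intro h
  apply g_ne τ
  apply s_total
  intro n
  rw [inner_s_g, Sn_zero τ h, mul_zero]

theorem Cn_ne (τ : ℝ) : Cn τ 0 ≠ 0 := by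
  intro h
  apply g_ne τ
  apply cc_total
  rintro (_ | n)
  · simp only [cc]
    rw [inner_smul_left, inner_one_g, h, mul_zero]
  · simp only [cc]
    rw [inner_c_g, Cn_zero τ h, mul_zero]

theorem P_s (n : ℕ) : P (s n) = c n := by
  have h := P_hasSum (s n)
  have h2 : HasSum (fun m => ⟪s m, s n⟫_ℂ • c m) (c n) := by
    have e : (fun m => ⟪s m, s n⟫_ℂ • c m) = fun m => if m = n then c n else 0 := by
      funext m
      rw [inner_s]
      by_cases h : m = n
      · subst h; simp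
      · simp [h]
    rw [e]
    exact hasSum_ite_eq n (c n)
  exact h.unique h2

theorem inner_one_P (f : H) : ⟪one, P f⟫_ℂ = 0 := by
  have h := (P_hasSum f).mapL (innerSL ℂ one)
  have h2 : (fun n => (innerSL ℂ one) (⟪s n, f⟫_ℂ • c n)) = fun _ => 0 := by
    funext n
    rw [innerSL_apply_apply, inner_smul_right, inner_one_c, mul_zero]
  rw [h2] at h
  exact (h.unique hasSum_zero)

/-- the key identity -/
theorem eig (τ : ℝ) : ∃ l b : ℂ, ‖l‖ < 1 ∧ g τ = l • P (g τ) + b • one := by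
  set l : ℂ := Cn τ 1 / Sn τ 1 with hl
  set b : ℂ := Cn τ 0 / π with hb
  have hpi : (π : ℂ) ≠ 0 := by exact_mod_cast Real.pi_ne_zero
  have h1 : g τ = l • P (g τ) + b • one := by
    rw [← sub_eq_zero]
    apply cc_total
    rintro (_ | n)
    · simp only [cc]
      rw [inner_smul_left, inner_sub_right, inner_add_right, inner_smul_right, inner_smul_right,
        inner_one_P, inner_one_one, inner_one_g, hb]
      field_simp
      ring
    · simp only [cc]
      rw [inner_sub_right, inner_add_right, inner_smul_right, inner_smul_right, inner_c_g]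
      have e1 : ⟪c n, one⟫_ℂ = 0 := by rw [← inner_conj_symm, inner_one_c, map_zero]
      have e2 : ⟪c n, P (g τ)⟫_ℂ = ⟪s n, g τ⟫_ℂ := by
        rw [← P_s]
        exact P.inner_map_map _ _
      rw [e1, e2, inner_s_g, hl]
      have h2 := prop τ n
      have h3 := Sn_ne τ
      field_simp
      linear_combination (rt2 : ℂ) * h2
  refine ⟨l, b, ?_, h1⟩
  have h2 : ‖g τ‖ ^ 2 = ‖l‖ ^ 2 * ‖g τ‖ ^ 2 + ‖b‖ ^ 2 * ‖one‖ ^ 2 := by
    have h3 : ⟪l • P (g τ), b • one⟫_ℂ = 0 := by
      rw [inner_smul_left, inner_smul_right, ← inner_conj_symm, inner_one_P]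
      simp
    conv_lhs => rw [h1]
    rw [norm_add_sq (𝕜 := ℂ), h3, norm_smul, norm_smul, P.norm_map]
    simp
    ring
  have hb0 : 0 < ‖b‖ ^ 2 * ‖one‖ ^ 2 := by
    have h4 : b ≠ 0 := div_ne_zero (Cn_ne τ) hpi
    have h5 : one ≠ 0 := by
      intro h
      have := inner_one_one
      rw [h, inner_zero_left] at this
      exact hpi this.symm
    have := norm_pos_iff.2 h4
    have := norm_pos_iff.2 h5
    positivity
  have hg : 0 < ‖g τ‖ ^ 2 := by
    have := norm_pos_iff.2 (g_ne τ)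
    positivity
  have h5 : ‖l‖ ^ 2 < 1 := by
    by_contra h
    push Not at h
    nlinarith
  have h6 : ‖l‖ ^ 2 < 1 ^ 2 := by linarith
  exact (sq_lt_sq₀ (norm_nonneg _) zero_le_one).1 h6

theorem perp_g (f : H) (hf : ∀ n : ℕ, ⟪(P.toContinuousLinearMap ^ n) one, f⟫_ℂ = 0) (τ : ℝ) :
    ⟪g τ, f⟫_ℂ = 0 := by
  obtain ⟨l, b, hl, h⟩ := eig τ
  set Q := P.toContinuousLinearMap with hQ
  have hiso : ∀ (n : ℕ) (x : H), ‖(Q ^ n) x‖ = ‖x‖ := by
    intro n
    induction n with
    | zero => intro x; simp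
    | succ n ih =>
      intro x
      rw [pow_succ]
      change ‖(Q ^ n) (Q x)‖ = _
      rw [ih]
      exact P.norm_map x
  have step : ∀ n : ℕ, ⟪g τ, f⟫_ℂ = conj (l ^ n) * ⟪(Q ^ n) (g τ), f⟫_ℂ := by
    intro n
    induction n with
    | zero => simp
    | succ n ih =>
      rw [ih]
      have e1 : (Q ^ n) (g τ) = l • (Q ^ (n + 1)) (g τ) + b • (Q ^ n) one := by
        conv_lhs => rw [h]
        rw [map_add, map_smul, map_smul, pow_succ]
        rfl
      have e2 : conj (l ^ (n + 1)) = conj (l ^ n) * conj l := by rw [pow_succ, map_mul]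
      rw [e1, inner_add_left, inner_smul_left, inner_smul_left, hf n, e2]
      ring
  have hb : ∀ n : ℕ, ‖⟪g τ, f⟫_ℂ‖ ≤ ‖l‖ ^ n * (‖g τ‖ * ‖f‖) := by
    intro n
    rw [step n, norm_mul, RCLike.norm_conj, norm_pow]
    gcongr
    refine (norm_inner_le_norm _ _).trans ?_
    rw [hiso]
  have hlim : Tendsto (fun n : ℕ => ‖l‖ ^ n * (‖g τ‖ * ‖f‖)) atTop (𝓝 (0 * (‖g τ‖ * ‖f‖))) :=
    (tendsto_pow_atTop_nhds_zero_of_lt_one (norm_nonneg _) hl).mul_const _
  rw [zero_mul] at hlim
  have := ge_of_tendsto' hlim hb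
  exact norm_le_zero_iff.1 this


/-! ### totality -/

/-- inverse of `L` -/
def psi (x : ℝ) : ℝ := 2 * Real.arctan (Real.exp (-x))

theorem psi_meas : Measurable psi := by
  unfold psi
  fun_prop

theorem psi_L {t : ℝ} (h0 : 0 < t) (h1 : t < π) : psi (L t) = t := by
  have hs : 0 < Real.sin (t / 2) := Real.sin_pos_of_pos_of_lt_pi (by linarith) (by linarith)
  have hc : 0 < Real.cos (t / 2) := Real.cos_pos_of_mem_Ioo ⟨by linarith [Real.pi_pos], by linarith⟩
  unfold psi L
  rw [neg_sub, Real.exp_sub, Real.exp_log hs, Real.exp_log hc, ← Real.tan_eq_sin_div_cos,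
    Real.arctan_tan (by linarith [Real.pi_pos]) (by linarith)]
  ring

theorem real_total (h : ℝ → ℝ) (hm : Measurable h) (hi : Integrable h mu)
    (hz : ∀ τ : ℝ, ∫ t, G τ t * (h t : ℂ) ∂mu = 0) : h =ᵐ[mu] 0 := by
  set νp := mu.withDensity (fun t => (((h t).toNNReal : ℝ≥0) : ℝ≥0∞)) with hνp
  set νm := mu.withDensity (fun t => (((-h t).toNNReal : ℝ≥0) : ℝ≥0∞)) with hνm
  have fp : IsFiniteMeasure νp := isFiniteMeasure_withDensity_ofReal hi.2
  have fm : IsFiniteMeasure νm := isFiniteMeasure_withDensity_ofReal hi.neg.2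
  have mp : Measurable fun t => (h t).toNNReal := hm.real_toNNReal
  have mm : Measurable fun t => (-h t).toNNReal := hm.neg.real_toNNReal
  have key : νp.map L = νm.map L := by
    apply Measure.ext_of_charFun
    funext τ
    have hcont : Continuous fun x : ℝ => Complex.exp (τ * x * Complex.I) := by fun_prop
    rw [charFun_apply_real, charFun_apply_real, integral_map L_meas.aemeasurable hcont.aestronglyMeasurable,
      integral_map L_meas.aemeasurable hcont.aestronglyMeasurable, hνp, hνm,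
      integral_withDensity_eq_integral_smul mp, integral_withDensity_eq_integral_smul mm, ← sub_eq_zero,
      ← integral_sub]
    · rw [← hz τ]
      refine integral_congr_ae (Eventually.of_forall fun t => ?_)
      have e1 : Complex.exp (τ * (L t : ℝ) * Complex.I) = G τ t := by
        unfold G
        congr 1
        push_cast
        ring
      simp only [e1, NNReal.smul_def, Real.coe_toNNReal']
      have e2 : max (h t) 0 - max (-h t) 0 = h t := by
        rcases le_total 0 (h t) with h0 | h0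
        · rw [max_eq_left h0, max_eq_right (by linarith), sub_zero]
        · rw [max_eq_right h0, max_eq_left (by linarith)]; ring
      rw [← sub_smul, e2, Complex.real_smul, mul_comm]
    · have h1 : Integrable (fun t => (((h t).toNNReal : ℝ≥0) : ℝ)) mu := hi.real_toNNReal
      have h2 := h1.smul_bdd (f := fun t => Complex.exp (τ * (L t : ℝ) * Complex.I)) 1
        (hcont.measurable.comp L_meas).aestronglyMeasurable (Eventually.of_forall fun t => by
          rw [Complex.norm_exp]; simp)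
      exact h2
    · have h1 : Integrable (fun t => (((-h t).toNNReal : ℝ≥0) : ℝ)) mu := hi.neg.real_toNNReal
      have h2 := h1.smul_bdd (f := fun t => Complex.exp (τ * (L t : ℝ) * Complex.I)) 1
        (hcont.measurable.comp L_meas).aestronglyMeasurable (Eventually.of_forall fun t => by
          rw [Complex.norm_exp]; simp)
      exact h2
  have hback : ∀ ν : Measure ℝ, ν ≪ mu → (ν.map L).map psi = ν := by
    intro ν hν
    rw [Measure.map_map psi_meas L_meas]
    have h1 : psi ∘ L =ᵐ[ν] id := by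
      apply hν.ae_le
      have h6 : ∀ᵐ x ∂mu, x ∈ Ioo 0 π := ae_restrict_mem measurableSet_Ioo
      filter_upwards [h6] with x hx
      exact psi_L hx.1 hx.2
    rw [Measure.map_congr h1, Measure.map_id]
  have heq : νp = νm := by
    rw [← hback νp (withDensity_absolutelyContinuous _ _), key,
      hback νm (withDensity_absolutelyContinuous _ _)]
  have h1 := (withDensity_eq_iff_of_sigmaFinite mp.coe_nnreal_ennreal.aemeasurable
    mm.coe_nnreal_ennreal.aemeasurable).1 heq
  filter_upwards [h1] with t ht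
  have h2 : (h t).toNNReal = (-h t).toNNReal := by exact_mod_cast ht
  rcases le_total 0 (h t) with h0 | h0
  · have h3 : (-h t).toNNReal = 0 := Real.toNNReal_of_nonpos (by linarith)
    rw [h3, Real.toNNReal_eq_zero] at h2
    exact le_antisymm h2 h0
  · have h3 : (h t).toNNReal = 0 := Real.toNNReal_of_nonpos h0
    rw [h3, eq_comm, Real.toNNReal_eq_zero] at h2
    exact le_antisymm h0 (show (0 : ℝ) ≤ h t by linarith)

theorem conj_G (τ t : ℝ) : conj (G τ t) = G (-τ) t := by
  unfold G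
  rw [← Complex.exp_conj]
  congr 1
  simp

theorem total_G (f : H) (hf : ∀ τ : ℝ, ⟪g τ, f⟫_ℂ = 0) : f = 0 := by
  have h1 : ∀ τ : ℝ, ∫ t, G τ t * f t ∂mu = 0 := by
    intro τ
    have := hf (-τ)
    unfold g at this
    rw [inner_el] at this
    simpa only [conj_G, neg_neg] using this
  have h2 : ∀ τ : ℝ, ∫ t, G τ t * conj (f t) ∂mu = 0 := by
    intro τ
    have := congrArg conj (h1 (-τ))
    rw [map_zero, ← integral_conj] at this
    rw [← this]
    refine integral_congr_ae (Eventually.of_forall fun t => ?_)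
    simp only [map_mul, conj_G, neg_neg]
  have hfi : Integrable (f : ℝ → ℂ) mu := (Lp.memLp f).integrable (by norm_num)
  have hfm : Measurable (f : ℝ → ℂ) := (Lp.stronglyMeasurable f).measurable
  have i1 : ∀ τ : ℝ, Integrable (fun t => G τ t * f t) mu := fun τ =>
    hfi.bdd_mul (c := 1) (G_meas τ).aestronglyMeasurable (Eventually.of_forall fun t => (G_norm τ t).le)
  have i2 : ∀ τ : ℝ, Integrable (fun t => G τ t * conj (f t)) mu := fun τ =>
    ((Complex.conjLIE.toContinuousLinearEquiv.toContinuousLinearMap).integrable_comp hfi).bdd_mul (c := 1)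
      (G_meas τ).aestronglyMeasurable (Eventually.of_forall fun t => (G_norm τ t).le)
  have hre := real_total (fun t => (f t).re) (Complex.measurable_re.comp hfm) hfi.re (by
    intro τ
    have e : ∀ t, G τ t * ((f t).re : ℂ) = (1 / 2 : ℂ) * (G τ t * f t + G τ t * conj (f t)) := by
      intro t
      rw [Complex.re_eq_add_conj]
      ring
    simp only [e]
    rw [integral_const_mul, integral_add (i1 τ) (i2 τ), h1, h2]
    simp)
  have him := real_total (fun t => (f t).im) (Complex.measurable_im.comp hfm) hfi.im (by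
    intro τ
    have e : ∀ t, G τ t * ((f t).im : ℂ) = (1 / (2 * Complex.I) : ℂ) * (G τ t * f t - G τ t * conj (f t)) := by
      intro t
      rw [Complex.im_eq_sub_conj]
      ring
    simp only [e]
    rw [integral_const_mul, integral_sub (i1 τ) (i2 τ), h1, h2]
    simp)
  have h3 : (f : ℝ → ℂ) =ᵐ[mu] 0 := by
    filter_upwards [hre, him] with t h1 h2
    exact Complex.ext h1 h2
  exact Lp.ext (h3.trans (Lp.coeFn_zero _ _ _).symm)

theorem complete (f : H) (hf : ∀ n : ℕ, ⟪(P.toContinuousLinearMap ^ n) one, f⟫_ℂ = 0) : f = 0 :=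
  total_G f (perp_g f hf)

end

end Pool.Agent.X188.ReExp
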