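import Mathlib

/-! The sine and cosine bases of `L²(0,π)`. -/

set_option autoImplicit false
open MeasureTheory Set Filter Topology
open scoped InnerProductSpace ComplexConjugate ENNReal Real

namespace Pool.Agent.X188.TrigB

noncomputable section

/-- Lebesgue measure on `(0,π)` -/
def mu : Measure ℝ := volume.restrict (Ioo 0 π)

instance : IsFiniteMeasure mu := by
  unfold mu
  infer_instance

/-- `L²(0,π)` -/
abbrev H : Type := Lp ℂ 2 mu

theorem int_eq (f : ℝ → ℂ) : ∫ t, f t ∂mu = ∫ t in (0 : ℝ)..π, f t := by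
  rw [intervalIntegral.integral_of_le Real.pi_pos.le, integral_Ioc_eq_integral_Ioo]
  rfl

theorem memLp_bdd {f : ℝ → ℂ} (hf : Measurable f) {C : ℝ} (hC : ∀ t, ‖f t‖ ≤ C) : MemLp f 2 mu :=
  MemLp.of_bound hf.aestronglyMeasurable C (Eventually.of_forall hC)

theorem inner_el {f : ℝ → ℂ} (hf : MemLp f 2 mu) (g : H) :
    ⟪hf.toLp f, g⟫_ℂ = ∫ t, conj (f t) * g t ∂mu := by
  rw [L2.inner_def]
  apply integral_congr_ae
  filter_upwards [hf.coeFn_toLp] with t ht
  rw [ht, RCLike.inner_apply, mul_comm]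

theorem inner_el2 {f g : ℝ → ℂ} (hf : MemLp f 2 mu) (hg : MemLp g 2 mu) :
    ⟪hf.toLp f, hg.toLp g⟫_ℂ = ∫ t, conj (f t) * g t ∂mu := by
  rw [inner_el]
  apply integral_congr_ae
  filter_upwards [hg.coeFn_toLp] with t ht
  rw [ht]

/-! ### completeness -/

theorem compl_aux (g : ℝ → ℂ) (hg : MemLp g 2 mu) (σ : ℂ)
    (h : ∀ n : ℤ, ∫ t, (Complex.exp (-(Complex.I * n * t)) + σ * Complex.exp (Complex.I * n * t)) * g t ∂mu
      = 0) : g =ᵐ[mu] 0 := by
  set G : ℝ → ℂ := (Ioo 0 π).indicator g with hG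
  have hGm : MemLp G 2 volume := (memLp_indicator_iff_restrict measurableSet_Ioo).2 hg
  set F : ℝ → ℂ := fun t => G t + σ * G (-t) with hF
  have hGm' : MemLp (fun t => G (-t)) 2 volume :=
    hGm.comp_measurePreserving (Measure.measurePreserving_neg volume)
  have hFm : MemLp F 2 volume := hGm.add (hGm'.const_mul σ)
  have hpi : -π < π := by linarith [Real.pi_pos]
  have hFr : MemLp F 2 (volume.restrict (Ioc (-π) π)) := hFm.restrict _
  have hint : ∀ (φ : ℝ → ℂ), Continuous φ → (∀ t, ‖φ t‖ ≤ 1) →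
      IntervalIntegrable (fun t => φ t * G t) volume (-π) π := by
    intro φ hφ hb
    rw [intervalIntegrable_iff_integrableOn_Ioc_of_le hpi.le]
    have h1 : IntegrableOn G (Ioc (-π) π) := (hGm.restrict (Ioc (-π) π)).integrable (by norm_num)
    exact h1.bdd_mul hφ.aestronglyMeasurable (Eventually.of_forall hb)
  have hconv : ∀ (φ : ℝ → ℂ), ∫ t in (-π)..π, φ t * G t = ∫ t, φ t * g t ∂mu := by
    intro φ
    rw [intervalIntegral.integral_of_le hpi.le]
    have e1 : (fun t => φ t * G t) = (Ioo 0 π).indicator fun t => φ t * g t := by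
      funext t
      by_cases ht : t ∈ Ioo 0 π
      · rw [hG, indicator_of_mem ht, indicator_of_mem ht]
      · rw [hG, indicator_of_notMem ht, indicator_of_notMem ht, mul_zero]
    rw [e1, setIntegral_indicator measurableSet_Ioo]
    have e2 : Ioc (-π) π ∩ Ioo 0 π = Ioo 0 π := by
      apply inter_eq_self_of_subset_right
      intro t ht
      exact ⟨by linarith [ht.1, Real.pi_pos], ht.2.le⟩
    rw [e2]
    rfl
  have hexp : ∀ (n : ℤ) (t : ℝ), ‖Complex.exp (Complex.I * n * t)‖ = 1 := by
    intro n t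
    rw [Complex.norm_exp]
    simp
  have hexp' : ∀ (n : ℤ) (t : ℝ), ‖Complex.exp (-(Complex.I * n * t))‖ = 1 := by
    intro n t
    rw [Complex.norm_exp]
    simp
  have hcoef : ∀ n : ℤ, fourierCoeffOn hpi F n = 0 := by
    intro n
    rw [fourierCoeffOn_eq_integral]
    have e0 : ∀ t : ℝ, fourier (-n) (t : AddCircle (π - -π)) • F t =
        Complex.exp (-(Complex.I * n * t)) * G t + σ * (Complex.exp (-(Complex.I * n * t)) * G (-t)) := by
      intro t
      rw [fourier_coe_apply, smul_eq_mul, hF]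
      simp only
      have : 2 * (π : ℂ) * Complex.I * ((-n : ℤ) : ℂ) * t / ((π - -π : ℝ) : ℂ) = -(Complex.I * n * t) := by
        have hp : (π : ℂ) ≠ 0 := by exact_mod_cast Real.pi_ne_zero
        push_cast
        field_simp
        ring
      rw [this]
      ring
    simp only [e0]
    have i1 := hint (fun t => Complex.exp (-(Complex.I * n * t))) (by fun_prop) (fun t => (hexp' n t).le)
    have i2 := hint (fun t => Complex.exp (Complex.I * n * t)) (by fun_prop) (fun t => (hexp n t).le)
    have i3 : IntervalIntegrable (fun t => Complex.exp (-(Complex.I * n * t)) * G (-t)) volume (-π) π := by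
      have h1 := ((IntervalIntegrable.iff_comp_neg enorm_ne_top).1 i2).symm
      rw [neg_neg] at h1
      refine h1.congr ?_
      intro t _
      simp
    rw [intervalIntegral.integral_add i1 (i3.const_mul σ), intervalIntegral.integral_const_mul]
    have e3 : ∫ t in (-π)..π, Complex.exp (-(Complex.I * n * t)) * G (-t) =
        ∫ t in (-π)..π, Complex.exp (Complex.I * n * t) * G t := by
      have := intervalIntegral.integral_comp_neg (a := -π) (b := π)
        (fun t : ℝ => Complex.exp (Complex.I * n * t) * G t)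
      rw [neg_neg] at this
      rw [← this]
      refine intervalIntegral.integral_congr fun t _ => ?_
      simp
    rw [e3, hconv, hconv]
    have e4 : ∫ t : ℝ, Complex.exp (-(Complex.I * n * t)) * g t ∂mu + σ * ∫ t : ℝ, Complex.exp (Complex.I * n * t) * g t ∂mu
        = ∫ t : ℝ, (Complex.exp (-(Complex.I * n * t)) + σ * Complex.exp (Complex.I * n * t)) * g t ∂mu := by
      have hgi : Integrable g mu := hg.integrable (by norm_num)
      have j1 : Integrable (fun t : ℝ => Complex.exp (-(Complex.I * n * t)) * g t) mu :=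
        hgi.bdd_mul (by fun_prop : Continuous fun t : ℝ => Complex.exp (-(Complex.I * n * t))).aestronglyMeasurable
          (Eventually.of_forall fun t => (hexp' n t).le)
      have j2 : Integrable (fun t : ℝ => Complex.exp (Complex.I * n * t) * g t) mu :=
        hgi.bdd_mul (by fun_prop : Continuous fun t : ℝ => Complex.exp (Complex.I * n * t)).aestronglyMeasurable
          (Eventually.of_forall fun t => (hexp n t).le)
      rw [← integral_const_mul, ← integral_add j1 (j2.const_mul σ)]
      refine integral_congr_ae (Eventually.of_forall fun t => ?_)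
      simp only
      ring
    rw [e4, h n, smul_zero]
  have hsum := hasSum_sq_fourierCoeffOn hpi hFr
  simp only [hcoef, norm_zero, ne_eq, OfNat.ofNat_ne_zero, not_false_eq_true, zero_pow] at hsum
  have h0 : (π - -π)⁻¹ • ∫ x in (-π)..π, ‖F x‖ ^ 2 = 0 := hsum.unique hasSum_zero
  have hne : (π - -π)⁻¹ ≠ 0 := by
    have := Real.pi_pos
    positivity
  have h1 : ∫ x in (-π)..π, ‖F x‖ ^ 2 = 0 := by
    rcases smul_eq_zero.1 h0 with h | h
    · exact absurd h hne
    · exact h
  rw [intervalIntegral.integral_of_le hpi.le] at h1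
  have h2 : Integrable (fun x => ‖F x‖ ^ 2) (volume.restrict (Ioc (-π) π)) := hFr.integrable_norm_pow (by norm_num)
  have h3 := (integral_eq_zero_iff_of_nonneg (fun x => by positivity) h2).1 h1
  have h4 : ∀ᵐ x ∂mu, F x = 0 := by
    have h5 : ∀ᵐ x ∂(volume.restrict (Ioc (-π) π)), F x = 0 := by
      filter_upwards [h3] with x hx
      simpa using hx
    refine ae_mono (Measure.restrict_mono ?_ le_rfl) h5
    intro t ht
    exact ⟨by linarith [ht.1, Real.pi_pos], ht.2.le⟩
  have h6 : ∀ᵐ x ∂mu, x ∈ Ioo 0 π := ae_restrict_mem measurableSet_Ioo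
  filter_upwards [h4, h6] with x hx hm
  have e1 : G x = g x := by rw [hG, indicator_of_mem hm]
  have e2 : G (-x) = 0 := by
    rw [hG, indicator_of_notMem]
    intro h
    linarith [h.1, hm.1]
  rw [hF] at hx
  simp only [e1, e2, mul_zero, add_zero] at hx
  exact hx

theorem sin_complete (g : ℝ → ℂ) (hg : MemLp g 2 mu)
    (h : ∀ n : ℕ, ∫ t, (Real.sin ((n + 1) * t) : ℂ) * g t ∂mu = 0) : g =ᵐ[mu] 0 := by
  apply compl_aux g hg (-1)
  have key : ∀ n : ℕ, ∫ t, (Complex.sin (n * t) : ℂ) * g t ∂mu = 0 := by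
    intro n
    rcases n with _ | n
    · simp
    · refine (integral_congr_ae (Eventually.of_forall fun t => ?_)).trans (h n)
      push_cast
      rfl
  intro n
  have e0 : ∀ t : ℝ, (Complex.exp (-(Complex.I * n * t)) + (-1) * Complex.exp (Complex.I * n * t)) * g t =
      (-2 * Complex.I) * (Complex.sin (n * t) * g t) := by
    intro t
    rw [Complex.sin]
    have e1 : -(n * (t : ℂ)) * Complex.I = -(Complex.I * n * t) := by ring
    have e2 : n * (t : ℂ) * Complex.I = Complex.I * n * t := by ring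
    rw [e1, e2]
    ring_nf
    rw [Complex.I_sq]
    ring
  simp only [e0]
  rw [integral_const_mul]
  obtain ⟨m, rfl | rfl⟩ := n.eq_nat_or_neg
  · simp only [Int.cast_natCast, key, mul_zero]
  · have : ∀ t : ℝ, Complex.sin (((-(m : ℤ) : ℤ) : ℂ) * t) * g t = -(Complex.sin (m * t) * g t) := by
      intro t
      push_cast
      rw [neg_mul, Complex.sin_neg, neg_mul]
    simp only [this]
    rw [integral_neg, key, neg_zero, mul_zero]

theorem cos_complete (g : ℝ → ℂ) (hg : MemLp g 2 mu)
    (h : ∀ n : ℕ, ∫ t, (Real.cos (n * t) : ℂ) * g t ∂mu = 0) : g =ᵐ[mu] 0 := by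
  apply compl_aux g hg 1
  have key : ∀ n : ℕ, ∫ t, (Complex.cos (n * t) : ℂ) * g t ∂mu = 0 := by
    intro n
    refine (integral_congr_ae (Eventually.of_forall fun t => ?_)).trans (h n)
    push_cast
    rfl
  intro n
  have e0 : ∀ t : ℝ, (Complex.exp (-(Complex.I * n * t)) + 1 * Complex.exp (Complex.I * n * t)) * g t =
      2 * (Complex.cos (n * t) * g t) := by
    intro t
    rw [Complex.cos]
    have e1 : -(n * (t : ℂ)) * Complex.I = -(Complex.I * n * t) := by ring
    have e2 : n * (t : ℂ) * Complex.I = Complex.I * n * t := by ring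
    rw [e1, e2]
    ring
  simp only [e0]
  rw [integral_const_mul]
  obtain ⟨m, rfl | rfl⟩ := n.eq_nat_or_neg
  · simp only [Int.cast_natCast, key, mul_zero]
  · have : ∀ t : ℝ, Complex.cos (((-(m : ℤ) : ℤ) : ℂ) * t) * g t = Complex.cos (m * t) * g t := by
      intro t
      push_cast
      rw [neg_mul, Complex.cos_neg]
    simp only [this]
    rw [key, mul_zero]


/-! ### the two systems -/

theorem int_cos (k : ℤ) (hk : k ≠ 0) : ∫ t in (0 : ℝ)..π, Real.cos (k * t) = 0 := by
  have hk' : (k : ℝ) ≠ 0 := by exact_mod_cast hk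
  rw [intervalIntegral.integral_comp_mul_left (fun x => Real.cos x) hk', integral_cos]
  simp [Real.sin_int_mul_pi]

theorem memLp_re {f : ℝ → ℝ} (hf : Continuous f) {C : ℝ} (hC : ∀ t, |f t| ≤ C) :
    MemLp (fun t => ((f t : ℝ) : ℂ)) 2 mu :=
  memLp_bdd (C := C) (Complex.continuous_ofReal.comp hf).measurable (fun t => by
    rw [Complex.norm_real]
    exact hC t)

theorem inner_re {f g : ℝ → ℝ} (hf : MemLp (fun t => ((f t : ℝ) : ℂ)) 2 mu)
    (hg : MemLp (fun t => ((g t : ℝ) : ℂ)) 2 mu) :
    ⟪hf.toLp _, hg.toLp _⟫_ℂ = ((∫ t in (0 : ℝ)..π, f t * g t : ℝ) : ℂ) := by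
  rw [inner_el2, int_eq, ← intervalIntegral.integral_ofReal]
  refine intervalIntegral.integral_congr fun t _ => ?_
  simp

/-- `√(2/π)` -/
def rt2 : ℝ := √(2 / π)

theorem rt2_sq : rt2 * rt2 = 2 / π := Real.mul_self_sqrt (by positivity)
theorem rt2_pos : 0 < rt2 := Real.sqrt_pos.2 (by positivity)

theorem sMem (n : ℕ) : MemLp (fun t => ((√(2 / π) * Real.sin ((n + 1) * t) : ℝ) : ℂ)) 2 mu :=
  memLp_re (C := √(2 / π)) (by fun_prop) (fun t => by
    rw [abs_mul, abs_of_nonneg (Real.sqrt_nonneg _)]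
    exact mul_le_of_le_one_right (Real.sqrt_nonneg _) (Real.abs_sin_le_one _))

theorem cMem (n : ℕ) : MemLp (fun t => ((√(2 / π) * Real.cos ((n + 1) * t) : ℝ) : ℂ)) 2 mu :=
  memLp_re (C := √(2 / π)) (by fun_prop) (fun t => by
    rw [abs_mul, abs_of_nonneg (Real.sqrt_nonneg _)]
    exact mul_le_of_le_one_right (Real.sqrt_nonneg _) (Real.abs_cos_le_one _))

theorem oneMem : MemLp (fun _ : ℝ => (1 : ℂ)) 2 mu := memLp_const _

/-- `s_{n+1}(t) = √(2/π) sin((n+1)t)` -/
def s (n : ℕ) : H := (sMem n).toLp _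

/-- `c_{n+1}(t) = √(2/π) cos((n+1)t)` -/
def c (n : ℕ) : H := (cMem n).toLp _

/-- the constant function `1` -/
def one : H := oneMem.toLp _

theorem inner_s (m n : ℕ) : ⟪s m, s n⟫_ℂ = if m = n then 1 else 0 := by
  unfold s
  rw [inner_re]
  have e1 : ∀ t : ℝ, √(2 / π) * Real.sin ((m + 1) * t) * (√(2 / π) * Real.sin ((n + 1) * t)) =
      (1 / π) * (Real.cos (((m : ℤ) - (n : ℤ) : ℤ) * t) - Real.cos (((m : ℤ) + (n : ℤ) + 2 : ℤ) * t)) := by
    intro t
    have h1 : Real.cos (((m : ℤ) - (n : ℤ) : ℤ) * t) = Real.cos ((m + 1) * t - (n + 1) * t) := by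
      congr 1; push_cast; ring
    have h2 : Real.cos (((m : ℤ) + (n : ℤ) + 2 : ℤ) * t) = Real.cos ((m + 1) * t + (n + 1) * t) := by
      congr 1; push_cast; ring
    rw [h1, h2, Real.cos_sub, Real.cos_add]
    have h3 := rt2_sq
    unfold rt2 at h3
    linear_combination (Real.sin ((m + 1) * t) * Real.sin ((n + 1) * t)) * h3
  simp only [e1]
  rw [intervalIntegral.integral_const_mul, intervalIntegral.integral_sub
    (Continuous.intervalIntegrable (by fun_prop) _ _) (Continuous.intervalIntegrable (by fun_prop) _ _),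
    int_cos ((m : ℤ) + (n : ℤ) + 2) (by omega)]
  by_cases h : m = n
  · subst h
    simp
  · rw [int_cos ((m : ℤ) - (n : ℤ)) (by omega), if_neg h]
    simp

theorem inner_c (m n : ℕ) : ⟪c m, c n⟫_ℂ = if m = n then 1 else 0 := by
  unfold c
  rw [inner_re]
  have e1 : ∀ t : ℝ, √(2 / π) * Real.cos ((m + 1) * t) * (√(2 / π) * Real.cos ((n + 1) * t)) =
      (1 / π) * (Real.cos (((m : ℤ) - (n : ℤ) : ℤ) * t) + Real.cos (((m : ℤ) + (n : ℤ) + 2 : ℤ) * t)) := by
    intro t
    have h1 : Real.cos (((m : ℤ) - (n : ℤ) : ℤ) * t) = Real.cos ((m + 1) * t - (n + 1) * t) := by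
      congr 1; push_cast; ring
    have h2 : Real.cos (((m : ℤ) + (n : ℤ) + 2 : ℤ) * t) = Real.cos ((m + 1) * t + (n + 1) * t) := by
      congr 1; push_cast; ring
    rw [h1, h2, Real.cos_sub, Real.cos_add]
    have h3 := rt2_sq
    unfold rt2 at h3
    linear_combination (Real.cos ((m + 1) * t) * Real.cos ((n + 1) * t)) * h3
  simp only [e1]
  rw [intervalIntegral.integral_const_mul, intervalIntegral.integral_add
    (Continuous.intervalIntegrable (by fun_prop) _ _) (Continuous.intervalIntegrable (by fun_prop) _ _),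
    int_cos ((m : ℤ) + (n : ℤ) + 2) (by omega)]
  by_cases h : m = n
  · subst h
    simp
  · rw [int_cos ((m : ℤ) - (n : ℤ)) (by omega), if_neg h]
    simp

theorem one_eq : one = (memLp_re (f := fun _ => 1) (C := 1) continuous_const (by simp)).toLp _ := by
  unfold one
  congr 1

theorem inner_one_c (n : ℕ) : ⟪one, c n⟫_ℂ = 0 := by
  rw [one_eq]
  unfold c
  rw [inner_re]
  have e1 : ∀ t : ℝ, 1 * (√(2 / π) * Real.cos ((n + 1) * t)) =
      √(2 / π) * Real.cos (((n : ℤ) + 1 : ℤ) * t) := by
    intro t; push_cast; ring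
  simp only [e1]
  rw [intervalIntegral.integral_const_mul, int_cos ((n : ℤ) + 1) (by omega)]
  simp

theorem inner_one_one : ⟪one, one⟫_ℂ = (π : ℂ) := by
  rw [one_eq, inner_re]
  simp

theorem orth_s : Orthonormal ℂ s := by
  rw [orthonormal_iff_ite]
  exact inner_s

/-- the cosine basis with the normalised constant in front -/
def cc : ℕ → H
  | 0 => ((1 / √π : ℝ) : ℂ) • one
  | n + 1 => c n

theorem orth_cc : Orthonormal ℂ cc := by
  rw [orthonormal_iff_ite]
  rintro (_ | m) (_ | n)
  · simp only [cc, if_true]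
    rw [inner_smul_left, inner_smul_right, inner_one_one, Complex.conj_ofReal]
    norm_cast
    have : √π * √π = π := Real.mul_self_sqrt Real.pi_pos.le
    have h2 : √π ≠ 0 := (Real.sqrt_pos.2 Real.pi_pos).ne'
    field_simp
    linarith
  · simp only [cc]
    rw [inner_smul_left, inner_one_c, mul_zero, if_neg (by omega)]
  · simp only [cc]
    rw [inner_smul_right, ← inner_conj_symm, inner_one_c, map_zero, mul_zero, if_neg (by omega)]
  · simp only [cc]
    rw [inner_c]
    by_cases h : m = n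
    · subst h; simp
    · rw [if_neg h, if_neg (by omega)]

theorem s_total (x : H) (h : ∀ n, ⟪s n, x⟫_ℂ = 0) : x = 0 := by
  have h1 : (x : ℝ → ℂ) =ᵐ[mu] 0 := by
    apply sin_complete _ (Lp.memLp x)
    intro n
    have h2 := h n
    unfold s at h2
    rw [inner_el] at h2
    have h3 : ∀ t : ℝ, conj ((√(2 / π) * Real.sin ((n + 1) * t) : ℝ) : ℂ) * x t =
        (rt2 : ℂ) * ((Real.sin ((n + 1) * t) : ℂ) * x t) := by
      intro t
      rw [Complex.conj_ofReal]
      unfold rt2
      push_cast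
      ring
    simp only [h3] at h2
    rw [integral_const_mul] at h2
    rcases mul_eq_zero.1 h2 with h4 | h4
    · exact absurd (by exact_mod_cast h4) rt2_pos.ne'
    · exact h4
  exact Lp.ext (h1.trans (Lp.coeFn_zero _ _ _).symm)

theorem cc_total (x : H) (h : ∀ n, ⟪cc n, x⟫_ℂ = 0) : x = 0 := by
  have h1 : (x : ℝ → ℂ) =ᵐ[mu] 0 := by
    apply cos_complete _ (Lp.memLp x)
    intro n
    have h2 := h n
    rcases n with _ | n
    · simp only [cc] at h2
      rw [inner_smul_left, Complex.conj_ofReal] at h2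
      have h5 : ⟪one, x⟫_ℂ = 0 := by
        rcases mul_eq_zero.1 h2 with h4 | h4
        · exact absurd (by exact_mod_cast h4) (one_div_pos.2 (Real.sqrt_pos.2 Real.pi_pos)).ne'
        · exact h4
      unfold one at h5
      rw [inner_el] at h5
      refine (integral_congr_ae (Eventually.of_forall fun t => ?_)).trans h5
      simp
    · simp only [cc] at h2
      unfold c at h2
      rw [inner_el] at h2
      have h3 : ∀ t : ℝ, conj ((√(2 / π) * Real.cos ((n + 1) * t) : ℝ) : ℂ) * x t =
          (rt2 : ℂ) * ((Real.cos (((n + 1 : ℕ) : ℝ) * t) : ℂ) * x t) := by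
        intro t
        rw [Complex.conj_ofReal]
        unfold rt2
        push_cast
        ring
      simp only [h3] at h2
      rw [integral_const_mul] at h2
      rcases mul_eq_zero.1 h2 with h4 | h4
      · exact absurd (by exact_mod_cast h4) rt2_pos.ne'
      · exact h4
  exact Lp.ext (h1.trans (Lp.coeFn_zero _ _ _).symm)

theorem span_perp {v : ℕ → H} (h : ∀ x : H, (∀ n, ⟪v n, x⟫_ℂ = 0) → x = 0) :
    (Submodule.span ℂ (Set.range v))ᗮ = ⊥ := by
  rw [Submodule.eq_bot_iff]
  intro x hx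
  exact h x fun n => (Submodule.mem_orthogonal _ _).1 hx _ (Submodule.subset_span ⟨n, rfl⟩)

/-- the sine basis -/
def bs : HilbertBasis ℕ ℂ H := HilbertBasis.mkOfOrthogonalEqBot orth_s (span_perp s_total)

/-- the cosine basis -/
def bc : HilbertBasis ℕ ℂ H := HilbertBasis.mkOfOrthogonalEqBot orth_cc (span_perp cc_total)

theorem bs_coe (n : ℕ) : bs n = s n := by
  unfold bs
  rw [HilbertBasis.coe_mkOfOrthogonalEqBot]

theorem bc_coe (n : ℕ) : bc n = cc n := by
  unfold bc
  rw [HilbertBasis.coe_mkOfOrthogonalEqBot]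

end

end Pool.Agent.X188.TrigB
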