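import Pool.Agent.X188.ShiftSg

/-! Abstract differentiation lemma and the resolvent estimate. -/

open MeasureTheory Filter Topology Set
open scoped ENNReal

namespace Pool.Agent.X188

noncomputable section

section abs

variable {H : Type*} [NormedAddCommGroup H] [InnerProductSpace ℂ H]

lemma continuousOn_sg {S : ℝ → H →L[ℂ] H}
    (hadd : ∀ s t : ℝ, 0 ≤ s → 0 ≤ t → S (s + t) = (S s).comp (S t))
    (hc : ∀ t : ℝ, 0 ≤ t → ‖S t‖ ≤ 1)
    (h0 : ∀ x : H, Tendsto (fun t => S t x) (𝓝[≥] 0) (𝓝 x)) (x : H) :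
    ContinuousOn (fun t : ℝ => S t x) (Ici 0) := by
  have key : ∀ s t : ℝ, 0 ≤ s → 0 ≤ t → ‖S t x - S s x‖ ≤ ‖S |t - s| x - x‖ := by
    intro s t hs ht
    rcases le_total s t with h | h
    · have e : S t = (S s).comp (S (t - s)) := by
        rw [← hadd s (t - s) hs (by linarith)]; congr 1; ring
      rw [e, ContinuousLinearMap.comp_apply, ← map_sub, abs_of_nonneg (by linarith)]
      refine ((S s).le_opNorm _).trans ?_
      have := norm_nonneg (S (t - s) x - x)
      nlinarith [hc s hs]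
    · have e : S s = (S t).comp (S (s - t)) := by
        rw [← hadd t (s - t) ht (by linarith)]; congr 1; ring
      rw [e, ContinuousLinearMap.comp_apply, ← map_sub, abs_sub_comm, abs_of_nonneg (by linarith),
        norm_sub_rev (S (s - t) x) x]
      refine ((S t).le_opNorm _).trans ?_
      have := norm_nonneg (x - S (s - t) x)
      nlinarith [hc t ht]
  intro s hs
  rw [ContinuousWithinAt, tendsto_iff_norm_sub_tendsto_zero]
  have h1 : Tendsto (fun t => |t - s|) (𝓝[Ici 0] s) (𝓝[≥] 0) := by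
    refine tendsto_nhdsWithin_iff.mpr ⟨?_, Eventually.of_forall fun t => mem_Ici.mpr (abs_nonneg _)⟩
    have : Tendsto (fun t => |t - s|) (𝓝 s) (𝓝 |s - s|) := by
      have hcont : Continuous fun t => |t - s| := by fun_prop
      exact hcont.tendsto s
    rw [sub_self, abs_zero] at this
    exact this.mono_left nhdsWithin_le_nhds
  have h2 : Tendsto (fun t => ‖S |t - s| x - x‖) (𝓝[Ici 0] s) (𝓝 0) := by
    have := (tendsto_iff_norm_sub_tendsto_zero.mp (h0 x)).comp h1
    exact this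
  refine squeeze_zero' (Eventually.of_forall fun _ => norm_nonneg _) ?_ h2
  filter_upwards [self_mem_nhdsWithin] with t ht
  exact key s t hs ht

/-- If `f` is in the domain of the generator with `A f = y`, then
`‖e^{-μ t} S(t) f - f‖ ≤ (e^{ν t} - 1)/ν ‖μ f - y‖`, where `ν = - Re μ > 0`. -/
lemma exp_estimate {S : ℝ → H →L[ℂ] H} (hS0 : S 0 = ContinuousLinearMap.id ℂ H)
    (hadd : ∀ s t : ℝ, 0 ≤ s → 0 ≤ t → S (s + t) = (S s).comp (S t))
    (hcont : ∀ x : H, ContinuousOn (fun t : ℝ => S t x) (Ici 0))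
    (hc : ∀ t : ℝ, 0 ≤ t → ‖S t‖ ≤ 1) {f y : H}
    (hfy : Tendsto (fun h : ℝ => ((h : ℂ)⁻¹) • (S h f - f)) (𝓝[Ioi 0] 0) (𝓝 y))
    {μ : ℂ} (hμ : μ.re < 0) {t : ℝ} (ht : 0 ≤ t) :
    ‖Complex.exp (-μ * t) • S t f - f‖ ≤
      (Real.exp (-μ.re * t) - 1) / (-μ.re) * ‖μ • f - y‖ := by
  set ν := -μ.re with hν
  have hν0 : 0 < ν := by linarith
  set g := μ • f - y with hg
  have hder : ∀ s : ℝ, 0 ≤ s → HasDerivWithinAt (fun r => S r f) (S s y) (Ici s) s := by
    intro s hs
    rw [← hasDerivWithinAt_Ioi_iff_Ici, hasDerivWithinAt_iff_tendsto_slope' (by simp)]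
    have h1 : Tendsto (fun r : ℝ => r - s) (𝓝[>] s) (𝓝[>] 0) := by
      refine tendsto_nhdsWithin_iff.mpr ⟨?_, ?_⟩
      · have : Tendsto (fun r => r - s) (𝓝 s) (𝓝 (s - s)) := by
          have hcont : Continuous fun r => r - s := by fun_prop
          exact hcont.tendsto s
        rw [sub_self] at this
        exact this.mono_left nhdsWithin_le_nhds
      · filter_upwards [self_mem_nhdsWithin] with r hr
        exact mem_Ioi.mpr (sub_pos.mpr (mem_Ioi.mp hr))
    have h2 := ((S s).continuous.tendsto y).comp (hfy.comp h1)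
    refine h2.congr' ?_
    filter_upwards [self_mem_nhdsWithin] with r hr
    have hr' : s < r := hr
    simp only [Function.comp_apply, slope_def_module]
    have e : S r = (S s).comp (S (r - s)) := by
      rw [← hadd s (r - s) hs (by linarith)]; congr 1; ring
    rw [map_smul, map_sub, e, ContinuousLinearMap.comp_apply, ← Complex.ofReal_inv,
      Complex.coe_smul]
  have hexp : ∀ s : ℝ, HasDerivAt (fun r : ℝ => Complex.exp (-μ * r))
      (Complex.exp (-μ * s) * (-μ)) s := by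
    intro s
    have h1 : HasDerivAt (fun r : ℝ => -μ * (r : ℂ)) (-μ) s := by
      simpa using (Complex.ofRealCLM.hasDerivAt (x := s)).const_mul (-μ)
    exact h1.cexp
  have hu : ∀ s : ℝ, 0 ≤ s → HasDerivWithinAt
      (fun r : ℝ => Complex.exp (-μ * r) • S r f - f)
      (Complex.exp (-μ * s) • S s y + (Complex.exp (-μ * s) * (-μ)) • S s f) (Ici s) s := by
    intro s hs
    exact (((hexp s).hasDerivWithinAt).smul (hder s hs)).sub_const f
  have hB : ∀ s : ℝ, HasDerivAt (fun r : ℝ => (Real.exp (ν * r) - 1) / ν * ‖g‖)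
      (Real.exp (ν * s) * ‖g‖) s := by
    intro s
    have h1 : HasDerivAt (fun r : ℝ => Real.exp (ν * r)) (Real.exp (ν * s) * ν) s := by
      have : HasDerivAt (fun r : ℝ => ν * r) ν s := by
        simpa using (hasDerivAt_id s).const_mul ν
      exact this.exp
    have h2 := ((h1.sub_const 1).div_const ν).mul_const ‖g‖
    refine h2.congr_deriv ?_
    field_simp
  have hmain := image_norm_le_of_norm_deriv_right_le_deriv_boundary
    (f := fun r : ℝ => Complex.exp (-μ * r) • S r f - f)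
    (f' := fun s => Complex.exp (-μ * s) • S s y + (Complex.exp (-μ * s) * (-μ)) • S s f)
    (a := 0) (b := t) ?_ (fun s hs => hu s hs.1) (B := fun r : ℝ => (Real.exp (ν * r) - 1) / ν * ‖g‖)
    (B' := fun s => Real.exp (ν * s) * ‖g‖) ?_ hB ?_ (right_mem_Icc.mpr ht)
  · exact hmain
  · refine ContinuousOn.sub (ContinuousOn.smul ?_ ((hcont f).mono Icc_subset_Ici_self))
      continuousOn_const
    have : Continuous fun r : ℝ => Complex.exp (-μ * r) := by fun_prop
    exact this.continuousOn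
  · simp [hS0]
  · intro s hs
    have e : Complex.exp (-μ * s) • S s y + (Complex.exp (-μ * s) * (-μ)) • S s f =
        -(Complex.exp (-μ * s) • S s g) := by
      rw [hg, map_sub, map_smul, smul_sub, smul_smul]
      module
    rw [e, norm_neg, norm_smul]
    have e1 : ‖Complex.exp (-μ * s)‖ = Real.exp (ν * s) := by
      rw [Complex.norm_exp]
      congr 1
      simp [hν]
    rw [e1]
    refine mul_le_mul_of_nonneg_left ?_ (Real.exp_pos _).le
    refine ((S s).le_opNorm g).trans ?_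
    have := norm_nonneg g
    nlinarith [hc s hs.1]

end abs

/-- the projections -/
def NN : HH →L[ℂ] HH := mulOp volume (ind_bd (measurableSet_Iic (a := (0:ℝ))))
def PP (a : ℝ) : HH →L[ℂ] HH := mulOp volume (ind_bd (measurableSet_Ioc (a := (0:ℝ)) (b := a)))
def QQ (a : ℝ) : HH →L[ℂ] HH := mulOp volume (ind_bd (measurableSet_Ioi (a := a)))

lemma NPQ {a : ℝ} (ha : 0 < a) (f : HH) : f = NN f + PP a f + QQ a f := by
  refine Lp.ext ?_
  filter_upwards [Lp.coeFn_add (NN f + PP a f) (QQ a f), Lp.coeFn_add (NN f) (PP a f),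
    mulOp_ae (ind_bd (measurableSet_Iic (a := (0:ℝ)))) f,
    mulOp_ae (ind_bd (measurableSet_Ioc (a := (0:ℝ)) (b := a))) f,
    mulOp_ae (ind_bd (measurableSet_Ioi (a := a))) f] with s h1 h2 h3 h4 h5
  rw [h1, Pi.add_apply, h2, Pi.add_apply, NN, PP, QQ, h3, h4, h5]
  rcases le_or_gt s 0 with h | h
  · have e1 : ¬ (a < s) := by linarith
    simp [ind, h, e1, not_lt.mpr h]
  · rcases le_or_gt s a with h' | h'
    · simp [ind, h, h', not_lt.mpr h', not_le.mpr h]
    · simp [ind, h, h', not_le.mpr h, not_le.mpr h']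

lemma NN_T (t : ℝ) (f : HH) : NN (T t f) = NN f := by
  refine Lp.ext ?_
  filter_upwards [mulOp_ae (ind_bd (measurableSet_Iic (a := (0:ℝ)))) f,
    mulOp_ae (ind_bd (measurableSet_Iic (a := (0:ℝ)))) (T t f), T_ae t f] with s h1 h2 h3
  rw [NN, h1, h2, h3]
  rcases le_or_gt s 0 with h | h
  · have e1 : ¬ (|t| < s) := by linarith [abs_nonneg t]
    simp [ind, h, phi, e1]
  · simp [ind, not_le.mpr h]

lemma PP_T {a : ℝ} (ha : 0 < a) (f : HH) : PP a (T a f) = 0 := by
  refine Lp.ext ?_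
  filter_upwards [mulOp_ae (ind_bd (measurableSet_Ioc (a := (0:ℝ)) (b := a))) (T a f), T_ae a f,
    Lp.coeFn_zero (E := ℂ) (p := 2) (μ := (volume : Measure ℝ))] with s h2 h3 h4
  rw [PP, h2, h3, h4]
  by_cases h : s ∈ Ioc 0 a
  · have e1 : ¬ (a < s) := not_lt.mpr h.2
    have e2 : ¬ (s ≤ 0) := not_le.mpr h.1
    simp [ind, phi, abs_of_pos ha, e1, e2]
  · simp [ind, indicator_of_notMem h]

/-- inverse weight -/
def psi (a : ℝ) (s : ℝ) : ℂ := if a < s then ((Real.sqrt ((s + 2 * a) / s) : ℝ) : ℂ) else 0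

lemma psi_bd {a : ℝ} (ha : 0 < a) : Bd (psi a) 2 where
  meas := by
    unfold psi
    refine Measurable.ite measurableSet_Ioi ?_ measurable_const
    fun_prop
  bd s := by
    unfold psi
    split_ifs with h
    · have hs : 0 < s := ha.trans h
      rw [Complex.norm_real, Real.norm_eq_abs, abs_of_nonneg (Real.sqrt_nonneg _)]
      refine Real.sqrt_le_iff.mpr ⟨by norm_num, ?_⟩
      rw [div_le_iff₀ hs]
      linarith
    · simp

lemma QQ_T {a : ℝ} (ha : 0 < a) (f : HH) : ‖QQ a f‖ ≤ 2 * ‖T (2 * a) f‖ := by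
  have h : QQ a f = mulOp volume (psi_bd ha) (trans (-(2 * a)) (T (2 * a) f)) := by
    refine Lp.ext ?_
    filter_upwards [mulOp_ae (ind_bd (measurableSet_Ioi (a := a))) f,
      mulOp_ae (psi_bd ha) (trans (-(2 * a)) (T (2 * a) f)),
      trans_ae (-(2 * a)) (T (2 * a) f), ae_shift (T_ae (2 * a) f) (-(2 * a))] with s h1 h2 h3 h4
    rw [QQ, h1, h2, h3, h4]
    rcases le_or_gt s a with h | h
    · simp [ind, psi, not_lt.mpr h]
    · have hs : 0 < s := ha.trans h
      have e1 : ¬ (s + 2 * a ≤ 0) := by linarith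
      have e2 : |2 * a| = 2 * a := abs_of_pos (by linarith)
      have e3 : s - -(2 * a) - 2 * a = s := by ring
      have e4 : s - -(2 * a) = s + 2 * a := by ring
      have e5 : (2 * a < s + 2 * a) := by linarith
      rw [e3, e4]
      have e6 : (Real.sqrt ((s + 2 * a) / s)) * (Real.sqrt (s / (s + 2 * a))) = 1 := by
        rw [← Real.sqrt_mul (by positivity)]
        have : (s + 2 * a) / s * (s / (s + 2 * a)) = 1 := by
          have h7 : s + 2 * a ≠ 0 := by linarith
          field_simp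
        rw [this, Real.sqrt_one]
      have e7 : ((Real.sqrt ((s + 2 * a) / s) : ℝ) : ℂ) * ((Real.sqrt (s / (s + 2 * a)) : ℝ) : ℂ)
          = 1 := by
        rw [← Complex.ofReal_mul, e6, Complex.ofReal_one]
      have e8 : phi (2 * a) (s + 2 * a) = ((Real.sqrt (s / (s + 2 * a)) : ℝ) : ℂ) := by
        rw [phi, e2, if_pos e5, add_sub_cancel_right]
      have e9 : psi a s = ((Real.sqrt ((s + 2 * a) / s) : ℝ) : ℂ) := by
        rw [psi, if_pos h]
      have e10 : ind (Iic 0) (s + 2 * a) = 0 := by simp [ind, e1]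
      have e11 : ind (Ioi a) s = 1 := by simp [ind, h]
      rw [e8, e9, e10, e11, zero_mul, zero_add, ← mul_assoc, e7]
  rw [h]
  refine (norm_mulOp_le (psi_bd ha) _).trans ?_
  rw [norm_trans]

/-- the resolvent estimate -/
lemma resolvent_T {f y : HH}
    (hfy : Tendsto (fun h : ℝ => ((h : ℂ)⁻¹) • (T h f - f)) (𝓝[Ioi 0] 0) (𝓝 y))
    {μ : ℂ} (hμ : μ.re < 0) : (1 / 12) * |μ.re| * ‖f‖ ≤ ‖μ • f - y‖ := by
  have hcont : ∀ x : HH, ContinuousOn (fun t : ℝ => T t x) (Ici 0) :=
    continuousOn_sg T_add norm_T_le tendsto_T_zero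
  set ν := -μ.re with hν
  have hν0 : 0 < ν := by linarith
  have habs : |μ.re| = ν := abs_of_neg hμ
  rw [habs]
  set g := μ • f - y with hg
  set a := 1 / ν with ha
  have ha0 : 0 < a := by positivity
  have hνa : ν * a = 1 := by rw [ha]; field_simp
  have est := fun (t : ℝ) (ht : 0 ≤ t) => exp_estimate T_zero T_add hcont norm_T_le hfy hμ ht
  -- N part
  have hN : ν * ‖NN f‖ ≤ ‖g‖ := by
    have h1 : NN g = μ • NN f := by
      have h2 : Tendsto (fun h : ℝ => NN (((h : ℂ)⁻¹) • (T h f - f))) (𝓝[Ioi 0] 0) (𝓝 (NN y)) :=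
        (NN.continuous.tendsto y).comp hfy
      have h3 : Tendsto (fun h : ℝ => NN (((h : ℂ)⁻¹) • (T h f - f))) (𝓝[Ioi 0] 0) (𝓝 0) := by
        refine tendsto_const_nhds.congr' ?_
        filter_upwards [self_mem_nhdsWithin] with h _
        rw [map_smul, map_sub, NN_T h, sub_self, smul_zero]
      have h4 : NN y = 0 := tendsto_nhds_unique h2 h3
      rw [hg, map_sub, map_smul, h4, sub_zero]
    have h2 : ‖NN g‖ ≤ ‖g‖ := by
      have := norm_mulOp_le (ind_bd (measurableSet_Iic (a := (0:ℝ)))) g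
      rwa [one_mul] at this
    rw [h1, norm_smul] at h2
    have h3 : ν ≤ ‖μ‖ := by
      have := Complex.abs_re_le_norm μ
      rwa [habs] at this
    exact (mul_le_mul_of_nonneg_right h3 (norm_nonneg _)).trans h2
  -- P part
  have hP : ν * ‖PP a f‖ ≤ 2 * ‖g‖ := by
    have h1 : ‖PP a (Complex.exp (-μ * a) • T a f - f)‖ ≤ ‖Complex.exp (-μ * a) • T a f - f‖ := by
      have := norm_mulOp_le (ind_bd (measurableSet_Ioc (a := (0:ℝ)) (b := a)))
        (Complex.exp (-μ * a) • T a f - f)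
      rwa [one_mul] at this
    rw [map_sub, map_smul, PP_T ha0, smul_zero, zero_sub, norm_neg] at h1
    have h2 := h1.trans (est a ha0.le)
    rw [← hν, ← hg, hνa] at h2
    have h3 : Real.exp 1 < 2.7182818286 := Real.exp_one_lt_d9
    have h4 : ν * ‖PP a f‖ ≤ (Real.exp 1 - 1) * ‖g‖ := by
      calc ν * ‖PP a f‖ ≤ ν * ((Real.exp 1 - 1) / ν * ‖g‖) := by gcongr
        _ = (Real.exp 1 - 1) * ‖g‖ := by field_simp
    refine h4.trans ?_
    have := norm_nonneg g
    nlinarith
  -- Q part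
  have hQ : ν * ‖QQ a f‖ ≤ 2 * ‖g‖ + (1 / 2) * (ν * ‖f‖) := by
    have h1 := QQ_T ha0 f
    have h2 := est (2 * a) (by positivity)
    rw [← hν, ← hg] at h2
    have hν2a : ν * (2 * a) = 2 := by linarith
    rw [hν2a] at h2
    -- multiply
    set e := Complex.exp (-μ * ((2 * a : ℝ) : ℂ)) with he
    have he1 : ‖e‖ = Real.exp 2 := by
      rw [he, Complex.norm_exp]
      congr 1
      have : (-μ * ((2 * a : ℝ) : ℂ)).re = ν * (2 * a) := by
        rw [Complex.mul_re, Complex.ofReal_re, Complex.ofReal_im]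
        simp [hν]
      rw [this, hν2a]
    have h3 : Real.exp 2 * ‖T (2 * a) f‖ ≤ (Real.exp 2 - 1) / ν * ‖g‖ + ‖f‖ := by
      have h5 : ‖e • T (2 * a) f‖ ≤ ‖e • T (2 * a) f - f‖ + ‖f‖ := by
        have := norm_add_le (e • T (2 * a) f - f) f
        rwa [sub_add_cancel] at this
      rw [norm_smul, he1] at h5
      linarith
    have h4 : (4 : ℝ) ≤ Real.exp 2 := by
      have h5 : (2.7182818283 : ℝ) < Real.exp 1 := Real.exp_one_gt_d9
      have h6 : Real.exp 2 = Real.exp 1 * Real.exp 1 := by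
        rw [← Real.exp_add]; norm_num
      rw [h6]
      nlinarith
    have h5 : ‖T (2 * a) f‖ ≤ 1 / ν * ‖g‖ + (1 / 4) * ‖f‖ := by
      have hE : 0 < Real.exp 2 := Real.exp_pos 2
      have h6 : Real.exp 2 * ‖T (2 * a) f‖ ≤ Real.exp 2 * (1 / ν * ‖g‖ + (1 / 4) * ‖f‖) := by
        refine h3.trans ?_
        have h7 : (Real.exp 2 - 1) / ν * ‖g‖ ≤ Real.exp 2 * (1 / ν * ‖g‖) := by
          have : (Real.exp 2 - 1) / ν * ‖g‖ = Real.exp 2 * (1 / ν * ‖g‖) - 1 / ν * ‖g‖ := by
            field_simp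
          rw [this]
          have : 0 ≤ 1 / ν * ‖g‖ := by positivity
          linarith
        have h8 : ‖f‖ ≤ Real.exp 2 * ((1 / 4) * ‖f‖) := by
          have := norm_nonneg f
          nlinarith
        linarith
      exact le_of_mul_le_mul_left h6 hE
    calc ν * ‖QQ a f‖ ≤ ν * (2 * (1 / ν * ‖g‖ + (1 / 4) * ‖f‖)) := by gcongr; linarith
      _ = 2 * ‖g‖ + (1 / 2) * (ν * ‖f‖) := by field_simp; ring
  have hf : ‖f‖ ≤ ‖NN f‖ + ‖PP a f‖ + ‖QQ a f‖ := by
    conv_lhs => rw [NPQ ha0 f]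
    exact (norm_add_le _ _).trans (add_le_add_left (norm_add_le _ _) _)
  have h9 : ν * ‖f‖ ≤ ν * ‖NN f‖ + ν * ‖PP a f‖ + ν * ‖QQ a f‖ := by
    rw [← mul_add, ← mul_add]
    exact mul_le_mul_of_nonneg_left hf hν0.le
  have := norm_nonneg g
  linarith

/-- `T t` is small on the indicator of `(0,1)` -/
def e0 : HH := indicatorConstLp 2 (measurableSet_Ioo (a := (0:ℝ)) (b := 1)) (by simp) (1 : ℂ)

lemma norm_e0 : ‖e0‖ = 1 := by
  rw [e0, norm_indicatorConstLp (by norm_num) (by norm_num)]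
  simp

/-- cut off weight -/
def chi (t : ℝ) (s : ℝ) : ℂ := if t < s ∧ s < t + 1 then ((Real.sqrt ((s - t) / s) : ℝ) : ℂ) else 0

lemma chi_bd {t : ℝ} (ht : 0 < t) : Bd (chi t) (Real.sqrt (1 / t)) where
  meas := by
    unfold chi
    refine Measurable.ite (measurableSet_Ioi.inter measurableSet_Iio) ?_ measurable_const
    fun_prop
  bd s := by
    unfold chi
    split_ifs with h
    · have hs : 0 < s := ht.trans h.1
      rw [Complex.norm_real, Real.norm_eq_abs, abs_of_nonneg (Real.sqrt_nonneg _)]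
      refine Real.sqrt_le_sqrt ?_
      rw [div_le_div_iff₀ hs ht]
      nlinarith [h.1, h.2]
    · simp

lemma T_e0 {t : ℝ} (ht : 0 < t) : ‖T t e0‖ ≤ Real.sqrt (1 / t) := by
  have h : T t e0 = mulOp volume (chi_bd ht) (trans t e0) := by
    have he0 : e0 =ᵐ[volume] (Ioo (0:ℝ) 1).indicator fun _ => (1:ℂ) := indicatorConstLp_coeFn
    refine Lp.ext ?_
    filter_upwards [T_ae t e0, mulOp_ae (chi_bd ht) (trans t e0), trans_ae t e0, he0,
      ae_shift he0 t] with s h1 h2 h3 h4 h5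
    rw [h1, h2, h3, h4, h5]
    by_cases h : t < s ∧ s < t + 1
    · have e1 : ¬ (s ≤ 0) := by linarith [h.1]
      have e2 : s ∉ Iic (0:ℝ) := e1
      simp [ind, indicator_of_notMem e2, phi, chi, abs_of_pos ht, h]
    · have e2 : s - t ∉ Ioo (0:ℝ) 1 := by
        intro h'
        exact h ⟨by linarith [h'.1], by linarith [h'.2]⟩
      rw [indicator_of_notMem e2, mul_zero, mul_zero, add_zero]
      by_cases h' : s ∈ Ioo (0:ℝ) 1
      · have e3 : s ∉ Iic (0:ℝ) := not_le.mpr h'.1
        simp [ind, indicator_of_notMem e3]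
      · rw [indicator_of_notMem h', mul_zero]
  rw [h]
  refine (norm_mulOp_le (chi_bd ht) _).trans ?_
  rw [norm_trans, norm_e0, mul_one]

end

end Pool.Agent.X188
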