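import Pool.Agent.H398R3.NCM.PD

/-! A Hilbert-Schmidt type inequality for orbits of operators under conjugation by a unitary. -/

set_option autoImplicit false

open Finset Filter Topology

namespace Pool.Agent.X188.BT

open Pool.Agent.Helper188.NCM

section

variable {H : Type*} [NormedAddCommGroup H] [InnerProductSpace ℂ H]

/-- the operator `T` has Hilbert-Schmidt norm at most `K` -/
def HSle (T : H →L[ℂ] H) (K : ℝ) : Prop :=
  ∀ (n : ℕ) (e : Fin n → H), Orthonormal ℂ e → ∑ k, ‖T (e k)‖ ^ 2 ≤ K ^ 2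

variable [CompleteSpace H]

/-- integer powers of a unitary -/
noncomputable def pw (U : unitary (H →L[ℂ] H)) (n : ℤ) : H →L[ℂ] H :=
  ((U ^ n : unitary (H →L[ℂ] H)) : H →L[ℂ] H)

theorem pw_zero (U : unitary (H →L[ℂ] H)) : pw U 0 = 1 := by simp [pw]

theorem pw_add (U : unitary (H →L[ℂ] H)) (n m : ℤ) : pw U (n + m) = pw U n * pw U m := by
  unfold pw
  rw [zpow_add]
  rfl

theorem pw_star (U : unitary (H →L[ℂ] H)) (n : ℤ) : star (pw U n) = pw U (-n) := by
  unfold pw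
  rw [zpow_neg]
  rfl

theorem inner_pw (U : unitary (H →L[ℂ] H)) (n m : ℤ) (x y : H) :
    inner ℂ (pw U n x) (pw U m y) = inner ℂ x (pw U (m - n) y) := by
  have h1 : inner ℂ (pw U n x) (pw U m y) = inner ℂ x (star (pw U n) (pw U m y)) := by
    rw [ContinuousLinearMap.star_eq_adjoint, ContinuousLinearMap.adjoint_inner_right]
  rw [h1, pw_star, ← ContinuousLinearMap.mul_apply, ← pw_add]
  congr 2
  ring

/-- the positive definite sequence of the pair `u, v` -/
noncomputable def gg (U : unitary (H →L[ℂ] H)) (u v : H) (j : ℤ) : ℂ :=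
  inner ℂ v (pw U j v) * inner ℂ (pw U j u) u

/-- the vectors `Z b_k` -/
noncomputable def zz (U : unitary (H →L[ℂ] H)) (u v : H) (N : ℕ) (c : ℕ → ℂ) (b : H) : H :=
  ∑ n ∈ range N, (star (c n) * star (inner ℂ b (pw U (-(n : ℤ)) u))) • pw U (-(n : ℤ)) v

theorem zz_hasSum {ι : Type*} (b : HilbertBasis ι ℂ H) (U : unitary (H →L[ℂ] H)) (u v : H) (N : ℕ)
    (c : ℕ → ℂ) : HasSum (fun k => (inner ℂ (zz U u v N c (b k)) (zz U u v N c (b k)) : ℂ))
      (∑ n ∈ range N, ∑ m ∈ range N, c n * star (c m) * gg U u v ((n : ℤ) - m)) := by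
  have e1 : ∀ k, (inner ℂ (zz U u v N c (b k)) (zz U u v N c (b k)) : ℂ) =
      ∑ n ∈ range N, ∑ m ∈ range N, c n * star (c m) *
        (inner ℂ v (pw U ((n : ℤ) - m) v) *
          (inner ℂ (pw U (-(m : ℤ)) u) (b k) * inner ℂ (b k) (pw U (-(n : ℤ)) u))) := by
    intro k
    unfold zz
    rw [sum_inner]
    refine sum_congr rfl fun n _ => ?_
    rw [inner_sum]
    refine sum_congr rfl fun m _ => ?_
    rw [inner_smul_left, inner_smul_right, inner_pw]
    have e2 : (-(m : ℤ) - -(n : ℤ)) = (n : ℤ) - m := by ring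
    rw [e2]
    have e3 : star (inner ℂ (b k) (pw U (-(m : ℤ)) u) : ℂ) = inner ℂ (pw U (-(m : ℤ)) u) (b k) :=
      inner_conj_symm _ _
    rw [e3]
    have e4 : (starRingEnd ℂ) (star (c n) * star (inner ℂ (b k) (pw U (-(n : ℤ)) u) : ℂ)) =
        c n * inner ℂ (b k) (pw U (-(n : ℤ)) u) := by
      rw [← star_mul', starRingEnd_apply, star_star]
    rw [e4]
    ring
  have e2 : (∑ n ∈ range N, ∑ m ∈ range N, c n * star (c m) * gg U u v ((n : ℤ) - m)) =
      ∑ n ∈ range N, ∑ m ∈ range N, c n * star (c m) *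
        (inner ℂ v (pw U ((n : ℤ) - m) v) *
          inner ℂ (pw U (-(m : ℤ)) u) (pw U (-(n : ℤ)) u)) := by
    refine sum_congr rfl fun n _ => sum_congr rfl fun m _ => ?_
    unfold gg
    congr 2
    have h1 := inner_pw U (-(m : ℤ)) (-(n : ℤ)) u u
    have h2 := inner_pw U ((n : ℤ) - m) 0 u u
    rw [pw_zero] at h2
    rw [ContinuousLinearMap.one_apply] at h2
    rw [h1, h2]
    have e : (-(n : ℤ) - -(m : ℤ)) = 0 - ((n : ℤ) - m) := by ring
    rw [e]
  rw [e2]
  simp_rw [e1]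
  refine hasSum_sum fun n _ => hasSum_sum fun m _ => ?_
  refine HasSum.mul_left _ (HasSum.mul_left _ ?_)
  exact b.hasSum_inner_mul_inner _ _

theorem gg_pd (U : unitary (H →L[ℂ] H)) (u v : H) (N : ℕ) (c : ℕ → ℂ) :
    0 ≤ (∑ n ∈ range N, ∑ m ∈ range N, c n * star (c m) * gg U u v ((n : ℤ) - m)).re ∧
    (∑ n ∈ range N, ∑ m ∈ range N, c n * star (c m) * gg U u v ((n : ℤ) - m)).im = 0 := by
  obtain ⟨w, b, hb⟩ := exists_hilbertBasis ℂ H
  have h := zz_hasSum b U u v N c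
  constructor
  · have h1 := (Complex.hasSum_re h)
    refine h1.nonneg fun k => ?_
    exact inner_self_nonneg (𝕜 := ℂ) (x := zz U u v N c (b k))
  · have h1 := (Complex.hasSum_im h)
    have h2 : ∀ k : w, (inner ℂ (zz U u v N c (b k)) (zz U u v N c (b k)) : ℂ).im = 0 :=
      fun k => inner_self_im (𝕜 := ℂ) (zz U u v N c (b k))
    simp only [h2] at h1
    exact h1.unique hasSum_zero

theorem hs_bound (U : unitary (H →L[ℂ] H)) (T : H →L[ℂ] H) (K : ℝ) (hK : 0 ≤ K) (hT : HSle T K)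
    (N : ℕ) (c : ℕ → ℂ) (C : ℝ) (hC : 0 ≤ C)
    (hc : ∀ β : ℝ, ‖∑ n ∈ range N, c n * ee (β * n)‖ ≤ C) :
    ‖∑ n ∈ range N, c n • (pw U n * T * pw U (-(n : ℤ)))‖ ≤ C * K := by
  set X := ∑ n ∈ range N, c n • (pw U n * T * pw U (-(n : ℤ))) with hX
  have key : ∀ u v : H, ‖(inner ℂ v (X u) : ℂ)‖ ≤ C * K * (‖u‖ * ‖v‖) := by
    intro u v
    obtain ⟨w, b, hb⟩ := exists_hilbertBasis ℂ H
    -- the sum over the basis
    have h1 : HasSum (fun k => (inner ℂ (zz U u v N c (b k)) (T (b k)) : ℂ)) (inner ℂ v (X u)) := by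
      have e1 : (inner ℂ v (X u) : ℂ) = ∑ n ∈ range N, c n * inner ℂ (pw U (-(n : ℤ)) v)
          (T (pw U (-(n : ℤ)) u)) := by
        rw [hX, ContinuousLinearMap.sum_apply, inner_sum]
        refine sum_congr rfl fun n _ => ?_
        rw [ContinuousLinearMap.smul_apply, inner_smul_right]
        congr 1
        have h3 := inner_pw U (-(n : ℤ)) 0 v (T (pw U (-(n : ℤ)) u))
        rw [pw_zero, ContinuousLinearMap.one_apply] at h3
        rw [h3]
        simp only [ContinuousLinearMap.mul_apply, zero_sub, neg_neg]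
      have e2 : ∀ k, (inner ℂ (zz U u v N c (b k)) (T (b k)) : ℂ) =
          ∑ n ∈ range N, c n * (inner ℂ (b k) (pw U (-(n : ℤ)) u) *
            inner ℂ (pw U (-(n : ℤ)) v) (T (b k))) := by
        intro k
        unfold zz
        rw [sum_inner]
        refine sum_congr rfl fun n _ => ?_
        rw [inner_smul_left]
        have e4 : (starRingEnd ℂ) (star (c n) * star (inner ℂ (b k) (pw U (-(n : ℤ)) u) : ℂ)) =
            c n * inner ℂ (b k) (pw U (-(n : ℤ)) u) := by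
          rw [← star_mul', starRingEnd_apply, star_star]
        rw [e4]
        ring
      rw [e1]
      simp_rw [e2]
      refine hasSum_sum fun n _ => HasSum.mul_left _ ?_
      have h4 : HasSum (fun k => (inner ℂ (b k) (pw U (-(n : ℤ)) u) : ℂ) • T (b k))
          (T (pw U (-(n : ℤ)) u)) := by
        have h := T.hasSum (b.hasSum_repr (pw U (-(n : ℤ)) u))
        simpa [HilbertBasis.repr_apply_apply] using h
      have h5 := h4.mapL (innerSL ℂ (pw U (-(n : ℤ)) v))
      simpa [inner_smul_right] using h5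
    -- the norm of `Z`
    have h2 := zz_hasSum b U u v N c
    have hPD := Pool.Agent.H398R3.NCM.taskPD (gg U u v) (gg_pd U u v) N c C hC hc
    have hg0 : (gg U u v 0).re = (‖u‖ * ‖v‖) ^ 2 := by
      unfold gg
      rw [pw_zero, ContinuousLinearMap.one_apply, ContinuousLinearMap.one_apply,
        inner_self_eq_norm_sq_to_K, inner_self_eq_norm_sq_to_K]
      have e : (((‖v‖ : ℝ) : ℂ) ^ 2 * ((‖u‖ : ℝ) : ℂ) ^ 2) = (((‖u‖ * ‖v‖) ^ 2 : ℝ) : ℂ) := by
        push_cast
        ring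
      exact (congrArg Complex.re e).trans (Complex.ofReal_re _)
    rw [hg0] at hPD
    have h3 : ∀ F : Finset w, ∑ k ∈ F, ‖zz U u v N c (b k)‖ ^ 2 ≤ (C * (‖u‖ * ‖v‖)) ^ 2 := by
      intro F
      have h4 := Complex.hasSum_re h2
      have h5 := sum_le_hasSum F (fun k _ => inner_self_nonneg (𝕜 := ℂ) (x := zz U u v N c (b k))) h4
      have h6 : ∑ k ∈ F, ‖zz U u v N c (b k)‖ ^ 2 =
          ∑ k ∈ F, RCLike.re (inner ℂ (zz U u v N c (b k)) (zz U u v N c (b k)) : ℂ) :=
        sum_congr rfl fun k _ => (inner_self_eq_norm_sq (𝕜 := ℂ) _).symm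
      rw [h6, mul_pow]
      exact h5.trans hPD
    have h7 : ∀ F : Finset w, ∑ k ∈ F, ‖T (b k)‖ ^ 2 ≤ K ^ 2 := by
      intro F
      have h8 := hT F.card (fun i => b (F.equivFin.symm i)) (by
        refine b.orthonormal.comp (fun i : Fin F.card => ((F.equivFin.symm i : F) : w)) ?_
        exact Subtype.val_injective.comp F.equivFin.symm.injective)
      refine le_trans (le_of_eq ?_) h8
      rw [← Finset.sum_coe_sort F (fun k => ‖T (b k)‖ ^ 2)]
      exact (Equiv.sum_comp F.equivFin.symm (fun k : F => ‖T (b k)‖ ^ 2)).symm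
    have h9 : ∀ F : Finset w, ‖∑ k ∈ F, (inner ℂ (zz U u v N c (b k)) (T (b k)) : ℂ)‖ ≤
        C * K * (‖u‖ * ‖v‖) := by
      intro F
      have h10 : ‖∑ k ∈ F, (inner ℂ (zz U u v N c (b k)) (T (b k)) : ℂ)‖ ≤
          ∑ k ∈ F, ‖zz U u v N c (b k)‖ * ‖T (b k)‖ :=
        (norm_sum_le _ _).trans (sum_le_sum fun k _ => norm_inner_le_norm _ _)
      have h11 : (∑ k ∈ F, ‖zz U u v N c (b k)‖ * ‖T (b k)‖) ^ 2 ≤
          (∑ k ∈ F, ‖zz U u v N c (b k)‖ ^ 2) * ∑ k ∈ F, ‖T (b k)‖ ^ 2 :=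
        Finset.sum_mul_sq_le_sq_mul_sq _ _ _
      have h12 : (∑ k ∈ F, ‖zz U u v N c (b k)‖ * ‖T (b k)‖) ^ 2 ≤ (C * K * (‖u‖ * ‖v‖)) ^ 2 := by
        refine h11.trans ?_
        refine (mul_le_mul (h3 F) (h7 F) (sum_nonneg fun k _ => by positivity)
          (by positivity)).trans (le_of_eq ?_)
        ring
      exact h10.trans (le_of_sq_le_sq h12 (by positivity))
    exact le_of_tendsto h1.norm (Eventually.of_forall h9)
  refine ContinuousLinearMap.opNorm_le_bound _ (by positivity) fun u => ?_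
  have h := key u (X u)
  rw [inner_self_eq_norm_sq_to_K, norm_pow] at h
  have h' : ‖X u‖ ^ 2 ≤ C * K * (‖u‖ * ‖X u‖) := by simpa using h
  rcases eq_or_lt_of_le (norm_nonneg (X u)) with h0 | h0
  · rw [← h0]; positivity
  · have : ‖X u‖ * ‖X u‖ ≤ (C * K * ‖u‖) * ‖X u‖ := by nlinarith
    exact le_of_mul_le_mul_right this h0

end

end Pool.Agent.X188.BT
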