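import Pool.Agent.X188.BT1
import Pool.Agent.TH327.Thin.Base

/-! The norm of a C*-algebra is the supremum of the norms in a separating family of
representations; Moebius sums along a periodic family. -/

set_option autoImplicit false

open Finset Filter Topology

namespace Pool.Agent.X188.BT

open CStarAlgebra in
theorem norm_le_of_sep {A ι : Type*} [NonUnitalCStarAlgebra A] {B : ι → Type*}
    [∀ i, NonUnitalCStarAlgebra (B i)] (π : ∀ i, A →⋆ₙₐ[ℂ] B i)
    (hsep : ∀ a, (∀ i, π i a = 0) → a = 0) (x : A) (D : ℝ) (hD : 0 ≤ D)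
    (h : ∀ i, ‖π i x‖ ≤ D) : ‖x‖ ≤ D := by
  let _ : PartialOrder A := CStarAlgebra.spectralOrder A
  let _ : StarOrderedRing A := CStarAlgebra.spectralOrderedRing A
  set T : A := star x * x with hT
  have hTsa : IsSelfAdjoint T := IsSelfAdjoint.star_mul_self x
  let f : ℝ → ℝ := fun t => max (t - D ^ 2) 0
  have hf : Continuous f := by fun_prop
  have hf0 : f 0 = 0 := by
    simp only [f, zero_sub, max_eq_right_iff, Left.neg_nonpos_iff]
    positivity
  have h1 : cfcₙ f T = 0 := by
    apply hsep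
    intro i
    have hTi : IsSelfAdjoint (π i T) := hTsa.map (π i)
    have h2 : π i (cfcₙ f T) = cfcₙ f (π i T) := by
      exact NonUnitalStarAlgHomClass.map_cfcₙ (π i) f T (hf.continuousOn) hf0 (map_continuous (π i))
        hTsa hTi
    rw [h2, ← norm_le_zero_iff]
    refine norm_cfcₙ_le fun t ht => ?_
    have h3 : ‖t‖ ≤ ‖π i T‖ := by
      have h4 := norm_apply_le_norm_cfcₙ (fun t : ℝ => t) (π i T) ht
      rwa [cfcₙ_id' ℝ (π i T)] at h4
    have h5 : ‖π i T‖ ≤ D ^ 2 := by
      rw [hT, map_mul, map_star, CStarRing.norm_star_mul_self, sq]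
      exact mul_self_le_mul_self (norm_nonneg _) (h i)
    have h6 : t ≤ D ^ 2 := (le_abs_self t).trans (h3.trans h5)
    simp only [f]
    rw [max_eq_right (by linarith), norm_zero]
  have h2 : ‖T‖ ≤ D ^ 2 := by
    have h3 : ‖cfcₙ (fun t : ℝ => t) T‖ ≤ D ^ 2 := by
      refine norm_cfcₙ_le fun t ht => ?_
      have h4 := norm_apply_le_norm_cfcₙ f T ht
      rw [h1, norm_zero, norm_le_zero_iff] at h4
      have h5 : t - D ^ 2 ≤ 0 := by
        have := le_max_left (t - D ^ 2) 0
        simp only [f] at h4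
        linarith
      have h6 : 0 ≤ t := quasispectrum_nonneg_of_nonneg T (star_mul_self_nonneg x) t ht
      rw [Real.norm_eq_abs, abs_of_nonneg h6]
      linarith
    rwa [cfcₙ_id' ℝ T] at h3
  rw [hT, CStarRing.norm_star_mul_self, ← sq] at h2
  exact le_of_sq_le_sq h2 hD

end Pool.Agent.X188.BT
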