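import Pool.Agent.X188.BT2

set_option autoImplicit false

open Finset Filter Topology

namespace Pool.Agent.X188.BT

open Pool.Agent.Helper188.NCM
open Pool.Agent.H398R3.NCM (ee_add ee_zero E_sum ee_int)

theorem norm_ee' (x : ℝ) : ‖ee x‖ = 1 := by
  have : (2 * Real.pi * Complex.I * x : ℂ) = ((2 * Real.pi * x : ℝ) : ℂ) * Complex.I := by
    push_cast; ring
  rw [ee, this, Complex.norm_exp_ofReal_mul_I]

/-- splitting into residue classes -/
theorem sum_res {E : Type*} [AddCommMonoid E] (F : ℕ → E) (m N : ℕ) (hm : 0 < m) :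
    ∑ n ∈ Icc 1 N, F n = ∑ r ∈ range m, ∑ j ∈ range (N + 1),
      if (1 ≤ r + m * j ∧ r + m * j ≤ N) then F (r + m * j) else 0 := by
  classical
  rw [← sum_product']
  rw [← sum_filter]
  refine sum_nbij' (fun n => (n % m, n / m)) (fun p => p.1 + m * p.2) ?_ ?_ ?_ ?_ ?_
  · intro n hn
    rw [mem_Icc] at hn
    simp only [mem_filter, mem_product, mem_range]
    have h1 : n % m + m * (n / m) = n := Nat.mod_add_div n m
    refine ⟨⟨Nat.mod_lt _ hm, ?_⟩, by rw [h1]; exact hn⟩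
    have := Nat.div_le_self n m
    omega
  · intro p hp
    simp only [mem_filter, mem_product, mem_range] at hp
    rw [mem_Icc]
    exact hp.2
  · intro n _
    exact Nat.mod_add_div n m
  · intro p hp
    simp only [mem_filter, mem_product, mem_range] at hp
    have h1 : (p.1 + m * p.2) % m = p.1 := by
      rw [Nat.add_mul_mod_self_left, Nat.mod_eq_of_lt hp.1.1]
    have h2 : (p.1 + m * p.2) / m = p.2 := by
      rw [Nat.add_mul_div_left _ _ hm, Nat.div_eq_of_lt hp.1.1, zero_add]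
    exact Prod.ext h1 h2
  · intro n _
    rw [Nat.mod_add_div n m]

/-- the part of the residue class `r` -/
noncomputable def cc (F : ℕ → ℂ) (m N r j : ℕ) : ℂ :=
  if (1 ≤ r + m * j ∧ r + m * j ≤ N) then F (r + m * j) else 0

theorem cc_bound (F : ℕ → ℂ) (m N r : ℕ) (hm : 0 < m) (hr : r < m) (M : ℝ)
    (hM : ∀ φ : ℝ, ‖∑ n ∈ Icc 1 N, F n * ee (φ * n)‖ ≤ M) (β : ℝ) :
    ‖∑ j ∈ range (N + 1), cc F m N r j * ee (β * j)‖ ≤ M := by
  have hm0 : (m : ℝ) ≠ 0 := by positivity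
  have hmc : (m : ℂ) ≠ 0 := by exact_mod_cast hm.ne'
  have e1 : ∑ s ∈ range m, ee (-((β + s) / m) * r) * ∑ n ∈ Icc 1 N, F n * ee (((β + s) / m) * n) =
      (m : ℂ) * ∑ j ∈ range (N + 1), cc F m N r j * ee (β * j) := by
    have e2 : ∀ s ∈ range m, ee (-((β + s) / m) * r) * ∑ n ∈ Icc 1 N, F n * ee (((β + s) / m) * n) =
        ∑ r' ∈ range m, ∑ j ∈ range (N + 1), cc F m N r' j * ee (β * j) *
          (ee (β * (((r' : ℤ) - r : ℤ) : ℝ) / m) * ee ((s : ℝ) / m * (((r' : ℤ) - r : ℤ) : ℝ))) := by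
      intro s _
      rw [sum_res (fun n => F n * ee (((β + s) / m) * n)) m N hm, mul_sum]
      refine sum_congr rfl fun r' _ => ?_
      rw [mul_sum]
      refine sum_congr rfl fun j _ => ?_
      unfold cc
      split_ifs with h
      · have e3 : ee (-((β + s) / m) * r) * ee (((β + s) / m) * ((r' + m * j : ℕ) : ℝ)) =
            ee (β * j) * (ee (β * (((r' : ℤ) - r : ℤ) : ℝ) / m) *
              ee ((s : ℝ) / m * (((r' : ℤ) - r : ℤ) : ℝ))) := by
          rw [← ee_add, ← ee_add, ← ee_add]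
          have e4 : -((β + s) / m) * r + ((β + s) / m) * ((r' + m * j : ℕ) : ℝ) =
              β * j + (β * (((r' : ℤ) - r : ℤ) : ℝ) / m + (s : ℝ) / m * (((r' : ℤ) - r : ℤ) : ℝ)) +
                ((s * j : ℕ) : ℤ) := by
            push_cast
            field_simp
            ring
          rw [e4, ee_add, ee_int, mul_one]
        rw [← mul_assoc, mul_comm (ee _) (F _), mul_assoc, e3, mul_assoc]
      · simp
    rw [sum_congr rfl e2, sum_comm]
    have e5 : ∀ r' ∈ range m, ∑ s ∈ range m, ∑ j ∈ range (N + 1), cc F m N r' j * ee (β * j) *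
          (ee (β * (((r' : ℤ) - r : ℤ) : ℝ) / m) * ee ((s : ℝ) / m * (((r' : ℤ) - r : ℤ) : ℝ))) =
        ∑ j ∈ range (N + 1), cc F m N r' j * ee (β * j) *
          (ee (β * (((r' : ℤ) - r : ℤ) : ℝ) / m) * if ((r' : ℤ) - r) = 0 then (m : ℂ) else 0) := by
      intro r' hr'
      rw [mem_range] at hr'
      rw [sum_comm]
      refine sum_congr rfl fun j _ => ?_
      rw [← mul_sum, ← mul_sum]
      congr 2
      exact E_sum m hm ((r' : ℤ) - r) (by rw [abs_lt]; omega)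
    rw [sum_congr rfl e5, sum_eq_single r]
    · simp only [sub_self, if_true]
      rw [mul_sum]
      refine sum_congr rfl fun j _ => ?_
      simp only [Int.cast_zero, mul_zero, zero_div, ee_zero, one_mul]
      ring
    · intro r' _ hne
      refine sum_eq_zero fun j _ => ?_
      rw [if_neg (by omega), mul_zero, mul_zero]
    · intro h
      exact absurd (mem_range.2 hr) h
  have e6 : ‖(m : ℂ) * ∑ j ∈ range (N + 1), cc F m N r j * ee (β * j)‖ ≤ m * M := by
    rw [← e1]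
    refine (norm_sum_le _ _).trans ?_
    calc ∑ s ∈ range m, ‖ee (-((β + s) / m) * r) * ∑ n ∈ Icc 1 N, F n * ee (((β + s) / m) * n)‖
        ≤ ∑ s ∈ range m, M := by
          refine sum_le_sum fun s _ => ?_
          rw [norm_mul, norm_ee', one_mul]
          exact hM _
      _ = m * M := by simp
  rw [norm_mul, Complex.norm_natCast] at e6
  exact le_of_mul_le_mul_left e6 (by positivity)

section

variable {A ι : Type*} [NonUnitalCStarAlgebra A] {H : ι → Type*} [∀ i, NormedAddCommGroup (H i)]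
  [∀ i, InnerProductSpace ℂ (H i)] [∀ i, CompleteSpace (H i)]

theorem orbit_bound (π : ∀ i, A →⋆ₙₐ[ℂ] (H i →L[ℂ] H i)) (hsep : ∀ a, (∀ i, π i a = 0) → a = 0)
    (α : A ≃⋆ₐ[ℂ] A) (m : ℕ)
    (hU : ∀ i, ∃ U : unitary (H i →L[ℂ] H i), ∀ a,
      π i ((α ^ m) a) = (U : H i →L[ℂ] H i) * π i a * star (U : H i →L[ℂ] H i))
    (a : A) (K : ℝ) (hK : 0 ≤ K) (ha : ∀ i, HSle (π i a) K)
    (N : ℕ) (c : ℕ → ℂ) (C : ℝ) (hC : 0 ≤ C)
    (hc : ∀ β : ℝ, ‖∑ n ∈ range N, c n * ee (β * n)‖ ≤ C) :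
    ‖∑ n ∈ range N, c n • ((α ^ m) ^ n) a‖ ≤ C * K := by
  refine norm_le_of_sep π hsep _ _ (by positivity) fun i => ?_
  obtain ⟨U, hU⟩ := hU i
  have h1 : ∀ n : ℕ, π i (((α ^ m) ^ n) a) = pw U n * π i a * pw U (-(n : ℤ)) := by
    intro n
    induction n with
    | zero => simp [pw]
    | succ n ih =>
      have e1 : ((α ^ m) ^ (n + 1)) a = (α ^ m) (((α ^ m) ^ n) a) := by
        rw [pow_succ']
        rfl
      rw [e1, hU, ih]
      have e2 : pw U ((n + 1 : ℕ) : ℤ) = (U : H i →L[ℂ] H i) * pw U n := by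
        have : ((n + 1 : ℕ) : ℤ) = 1 + n := by push_cast; ring
        rw [this, pw_add]
        congr 1
      have e3 : pw U (-((n + 1 : ℕ) : ℤ)) = pw U (-(n : ℤ)) * star (U : H i →L[ℂ] H i) := by
        have : (-((n + 1 : ℕ) : ℤ)) = -(n : ℤ) + -1 := by push_cast; ring
        rw [this, pw_add]
        congr 1
      rw [e2, e3]
      simp only [mul_assoc]
  rw [map_sum]
  simp_rw [map_smul, h1]
  exact hs_bound U (π i a) K hK (ha i) N c C hC hc

theorem mob_bound (π : ∀ i, A →⋆ₙₐ[ℂ] (H i →L[ℂ] H i)) (hsep : ∀ a, (∀ i, π i a = 0) → a = 0)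
    (α : A ≃⋆ₐ[ℂ] A) (m : ℕ) (hm : 0 < m)
    (hU : ∀ i, ∃ U : unitary (H i →L[ℂ] H i), ∀ a,
      π i ((α ^ m) a) = (U : H i →L[ℂ] H i) * π i a * star (U : H i →L[ℂ] H i))
    (a : A) (K : ℝ) (hK : 0 ≤ K) (ha : ∀ i, HSle (π i a) K)
    (N : ℕ) (F : ℕ → ℂ) (M : ℝ) (hM0 : 0 ≤ M)
    (hM : ∀ φ : ℝ, ‖∑ n ∈ Icc 1 N, F n * ee (φ * n)‖ ≤ M) :
    ‖∑ n ∈ Icc 1 N, F n • (α ^ n) a‖ ≤ m * K * M := by
  rw [sum_res (fun n => F n • (α ^ n) a) m N hm]
  have h1 : ∀ r ∈ range m, ‖∑ j ∈ range (N + 1),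
      (if (1 ≤ r + m * j ∧ r + m * j ≤ N) then F (r + m * j) • (α ^ (r + m * j)) a else 0)‖ ≤
        M * K := by
    intro r hr
    have e1 : ∑ j ∈ range (N + 1),
        (if (1 ≤ r + m * j ∧ r + m * j ≤ N) then F (r + m * j) • (α ^ (r + m * j)) a else 0) =
        (α ^ r) (∑ j ∈ range (N + 1), cc F m N r j • ((α ^ m) ^ j) a) := by
      rw [map_sum]
      refine sum_congr rfl fun j _ => ?_
      unfold cc
      split_ifs with h
      · rw [map_smul]
        congr 1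
        rw [pow_add, pow_mul]
        rfl
      · simp
    rw [e1]
    have e2 : ∀ y : A, ‖(α ^ r) y‖ = ‖y‖ := fun y => StarAlgEquiv.norm_map (α ^ r) y
    rw [e2]
    exact orbit_bound π hsep α m hU a K hK ha (N + 1) (cc F m N r) M hM0
      (fun β => cc_bound F m N r hm (mem_range.1 hr) M hM β)
  refine (norm_sum_le _ _).trans ((sum_le_sum h1).trans (le_of_eq ?_))
  rw [sum_const, card_range, nsmul_eq_mul]
  ring

end

end Pool.Agent.X188.BT
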