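import Pool.Agent.X188.CPTools

/-! Shimorin certificates imply the complete Pick property (kernels with nonvanishing `k(x,x)`). -/

open scoped InnerProductSpace ComplexOrder ComplexConjugate Kronecker
open Matrix Filter Topology

namespace Pool.Agent.X188.CP

open Pool.Agent.Results.MP_e3a8c8_an.ShimorinCertificates
open Pool.Agent.H770R3.Shim

universe u

variable {X : Type u} {N : ℕ}

/-- the reduced kernel is positive -/
lemma red_psd {g : Matrix X X ℂ} (hg : g.PosSemidef) (z : X) : (red g z).PosSemidef := by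
  classical
  by_cases hz : g z z = 0
  · have : red g z = g := by
      ext x y
      simp [red, hz]
    rw [this]; exact hg
  refine psd_of_sum (fun x y => red_herm hg z x y) fun F c => ?_
  set s : ℂ := ∑ j ∈ F, g z j * c j with hs
  set t : ℂ := -(s / g z z) with ht
  have hgz : conj (g z z) = g z z := psd_herm hg z z
  have hgre : g z z = ((g z z).re : ℂ) := psd_diag_eq hg z
  have hs' : ∑ i ∈ F, conj (c i) * g i z = conj s := by
    rw [hs, map_sum]
    refine Finset.sum_congr rfl fun i _ => ?_
    rw [map_mul, psd_herm hg, mul_comm]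
  have h1 := psd_sum hg (insert z F)
    (fun i => (if i ∈ F then c i else 0) + (if i = z then t else 0))
  have key : (∑ i ∈ insert z F, ∑ j ∈ insert z F,
      conj ((if i ∈ F then c i else 0) + (if i = z then t else 0)) * g i j *
        ((if j ∈ F then c j else 0) + (if j = z then t else 0))) =
      ∑ i ∈ F, ∑ j ∈ F, conj (c i) * red g z i j * c j := by
    have inner : ∀ (G : X → ℂ), ∑ j ∈ insert z F, G j * ((if j ∈ F then c j else 0) +
        (if j = z then t else 0)) = ∑ j ∈ F, G j * c j + G z * t := by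
      intro G
      simp only [mul_add, Finset.sum_add_distrib, mul_ite, mul_zero]
      congr 1
      · rw [← Finset.sum_filter]
        refine Finset.sum_congr ?_ fun _ _ => rfl
        ext x; simp only [Finset.mem_filter, Finset.mem_insert]
        constructor
        · exact fun h => h.2
        · exact fun h => ⟨Or.inr h, h⟩
      · rw [Finset.sum_ite_eq' (insert z F) z]
        simp
    have inner' : ∀ (G : X → ℂ), ∑ i ∈ insert z F, conj ((if i ∈ F then c i else 0) +
        (if i = z then t else 0)) * G i = ∑ i ∈ F, conj (c i) * G i + conj t * G z := by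
      intro G
      have := congrArg conj (inner fun j => conj (G j))
      simp only [map_sum, map_add, map_mul, Complex.conj_conj] at this
      simp only [map_add]
      rw [show (∑ i ∈ F, conj (c i) * G i) = ∑ i ∈ F, G i * conj (c i) from
        Finset.sum_congr rfl fun _ _ => mul_comm _ _, mul_comm (conj t), ← this]
      exact Finset.sum_congr rfl fun _ _ => mul_comm _ _
    have e1 : ∀ i, (∑ j ∈ insert z F,
      conj ((if i ∈ F then c i else 0) + (if i = z then t else 0)) * g i j *
        ((if j ∈ F then c j else 0) + (if j = z then t else 0))) =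
        conj ((if i ∈ F then c i else 0) + (if i = z then t else 0)) *
          (∑ j ∈ F, g i j * c j + g i z * t) := by
      intro i
      rw [← inner (fun j => g i j), Finset.mul_sum]
      exact Finset.sum_congr rfl fun j _ => by ring
    rw [Finset.sum_congr rfl fun i _ => e1 i, inner' (fun i => ∑ j ∈ F, g i j * c j + g i z * t)]
    have e2 : ∑ j ∈ F, g z j * c j + g z z * t = 0 := by
      rw [← hs, ht]; field_simp; ring
    rw [e2, mul_zero, add_zero]
    have e3 : ∀ i ∈ F, (∑ j ∈ F, conj (c i) * red g z i j * c j) =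
        conj (c i) * (∑ j ∈ F, g i j * c j + g i z * t) := by
      intro i _
      rw [ht, hs, mul_add, Finset.mul_sum, Finset.sum_div, ← Finset.sum_neg_distrib,
        Finset.mul_sum, Finset.mul_sum, ← Finset.sum_add_distrib]
      refine Finset.sum_congr rfl fun j _ => ?_
      simp only [red, Matrix.of_apply]
      ring
    exact (Finset.sum_congr rfl e3).symm
  rw [key] at h1
  exact h1

lemma Q_subset {g : Matrix X X ℂ} {F G : Finset X} (hFG : F ⊆ G) {h : X → E N}
    (h0 : ∀ i ∈ G, i ∉ F → h i = 0) : Q g G h = Q g F h := by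
  unfold Q
  congr 1
  rw [← Finset.sum_subset hFG]
  · refine Finset.sum_congr rfl fun i hi => ?_
    rw [← Finset.sum_subset hFG]
    intro j hj hj'
    rw [h0 j hj hj', inner_zero_right, mul_zero]
  · intro i hi hi'
    exact Finset.sum_eq_zero fun j _ => by rw [h0 i hi hi', inner_zero_left, mul_zero]

lemma Q_sub (g g' : Matrix X X ℂ) (F : Finset X) (h : X → E N) :
    Q (g - g') F h = Q g F h - Q g' F h := by
  unfold Q
  rw [← Complex.sub_re, ← Finset.sum_sub_distrib]
  congr 1
  refine Finset.sum_congr rfl fun i _ => ?_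
  rw [← Finset.sum_sub_distrib]
  exact Finset.sum_congr rfl fun j _ => by rw [Matrix.sub_apply]; ring

/-- pass from linear maps to matrices -/
noncomputable def toM (S : X → E N →ₗ[ℂ] E N) : X → Matrix (Fin N) (Fin N) ℂ :=
  fun x => (Matrix.toEuclideanLin.symm (S x))ᴴ

lemma adj_toM (S : X → E N →ₗ[ℂ] E N) (x : X) : adjMap (toM S) x = S x := by
  simp only [adjMap, toM, Matrix.conjTranspose_conjTranspose, LinearEquiv.apply_symm_apply]

/-- a certificate at every point gives the one-point extension property -/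
lemma onePoint_of_cert {k l : Kernel X} (hc : HasShimorinCertificate k l) :
    OnePoint N k.fn l.fn := by
  obtain ⟨p, hp⟩ := hc
  intro F z _ S hS h
  have h1 : (pickMatrix k l F (toM S)).PosSemidef := (pick_iff F (toM S)).mpr fun h' => by
    simp only [adj_toM]; exact hS h'
  have h2 := h1.hadamard ((p z).psd.submatrix (fun a : F × Fin N => (a.1 : X)))
  set pk : Kernel X := ⟨(p z).fn ⊙ k.fn, (p z).psd.hadamard k.psd⟩ with hpk
  set pl : Kernel X := ⟨(p z).fn ⊙ l.fn, (p z).psd.hadamard l.psd⟩ with hpl
  have h3 : pickMatrix k l F (toM S) ⊙ ((p z).fn.submatrix (fun a : F × Fin N => (a.1 : X))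
      (fun a : F × Fin N => (a.1 : X))) = pickMatrix pk pl F (toM S) := by
    ext a b
    rw [Matrix.hadamard_apply, pick_apply, pick_apply, Matrix.submatrix_apply, hpk, hpl]
    simp only [Matrix.hadamard_apply]
    ring
  rw [h3] at h2
  have h4 := (pick_iff F (toM S)).mp h2 h
  simp only [adj_toM] at h4
  have h5 := Q_nonneg (hp z).1 F h
  have h6 := Q_nonneg (hp z).2 F (fun i => S i (h i))
  rw [Q_sub] at h5 h6
  have h7 : Q (red k.fn z) F (fun i => S i (h i)) = Q (reduced k z) F (fun i => S i (h i)) := rfl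
  have h8 : Q (red l.fn z) F h = Q (reduced l z) F h := rfl
  have h9 : Q pk.fn F (fun i => S i (h i)) = Q ((p z).fn ⊙ k.fn) F (fun i => S i (h i)) := rfl
  have h10 : Q pl.fn F h = Q ((p z).fn ⊙ l.fn) F h := rfl
  rw [h7, h8]
  rw [h9, h10] at h4
  linarith

/-- finite extension -/
lemma finite_ext {k l : Kernel X} (hOP : OnePoint N k.fn l.fn) {F : Finset X}
    {W : X → Matrix (Fin N) (Fin N) ℂ} (hW : (pickMatrix k l F W).PosSemidef) (G : Finset X)
    (hFG : F ⊆ G) : ∃ Ψ : X → Matrix (Fin N) (Fin N) ℂ, (∀ x ∈ F, Ψ x = W x) ∧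
      (pickMatrix k l G Ψ).PosSemidef := by
  classical
  obtain ⟨S, hS1, hS2⟩ := tnp k.psd l.psd hOP G.card G rfl
    (fun i => if i ∈ F then ⊤ else ⊥) (adjMap W) (by
      intro h hh
      have h0 : ∀ i ∈ G, i ∉ F → h i = 0 := by
        intro i hi hi'
        have := hh i hi
        rwa [if_neg hi', Submodule.mem_bot] at this
      rw [Q_subset hFG h0, Q_subset hFG (fun i hi hi' => by rw [h0 i hi hi', map_zero])]
      exact (pick_iff F W).mp hW h)
  refine ⟨toM S, fun x hx => ?_, ?_⟩
  · have h1 : S x = adjMap W x := by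
      refine LinearMap.ext fun v => hS1 x (hFG hx) v ?_
      rw [if_pos hx]; trivial
    rw [toM, h1]
    simp [adjMap]
  · rw [pick_iff]
    simp only [adj_toM]
    exact hS2

/-- entries are bounded -/
lemma entry_bound {k l : Kernel X} {G : Finset X} {Ψ : X → Matrix (Fin N) (Fin N) ℂ}
    (h : (pickMatrix k l G Ψ).PosSemidef) {x : X} (hx : x ∈ G) (hk : k.fn x x ≠ 0)
    (i j : Fin N) : ‖Ψ x i j‖ ≤ Real.sqrt ((l.fn x x).re / (k.fn x x).re) := by
  have hk0 : 0 < (k.fn x x).re := by
    refine lt_of_le_of_ne (psd_diag_re k.psd x) fun h0 => hk ?_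
    rw [psd_diag_eq k.psd x, ← h0]; simp
  refine Real.le_sqrt_of_sq_le ?_
  rw [le_div_iff₀ hk0]
  have h1 := psd_diag_re h (⟨x, hx⟩, i)
  rw [pick_apply, Matrix.one_apply_eq, mul_one] at h1
  have h2 : (Ψ x * (Ψ x)ᴴ) i i = ((∑ m, ‖Ψ x i m‖ ^ 2 : ℝ) : ℂ) := by
    rw [Matrix.mul_apply]
    push_cast
    refine Finset.sum_congr rfl fun m _ => ?_
    rw [Matrix.conjTranspose_apply, Complex.star_def, Complex.mul_conj, Complex.normSq_eq_norm_sq]
    push_cast
    rfl
  simp only at h1
  rw [h2, psd_diag_eq k.psd x, psd_diag_eq l.psd x, ← Complex.ofReal_mul, ← Complex.ofReal_sub,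
    Complex.ofReal_re] at h1
  have h3 : ‖Ψ x i j‖ ^ 2 ≤ ∑ m, ‖Ψ x i m‖ ^ 2 :=
    Finset.single_le_sum (f := fun m => ‖Ψ x i m‖ ^ 2) (fun _ _ => by positivity)
      (Finset.mem_univ j)
  nlinarith

/-- the one-point extension property implies the complete Pick property -/
theorem cp_of_onePoint {k l : Kernel X} (hk : ∀ x, k.fn x x ≠ 0)
    (hOP : ∀ N, OnePoint N k.fn l.fn) : IsCPPair k l := by
  classical
  intro N _ F _ W hW
  have hext := fun G : Finset X => finite_ext (hOP N) hW (F ∪ G) Finset.subset_union_left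
  choose Ψ0 hΨ1 hΨ2 using hext
  set Ψ : Finset X → X → Matrix (Fin N) (Fin N) ℂ := fun G x => if x ∈ F ∪ G then Ψ0 G x else 0
    with hΨ
  have hbd : ∀ G x i j, Ψ G x i j ∈
      Metric.closedBall (0 : ℂ) (Real.sqrt ((l.fn x x).re / (k.fn x x).re)) := by
    intro G x i j
    rw [mem_closedBall_zero_iff]
    by_cases hx : x ∈ F ∪ G
    · simp only [hΨ, if_pos hx]
      exact entry_bound (hΨ2 G) hx (hk x) i j
    · simp only [hΨ, if_neg hx, Matrix.zero_apply, norm_zero]
      exact Real.sqrt_nonneg _
  let U : Ultrafilter (Finset X) := Ultrafilter.of atTop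
  have hU : (U : Filter (Finset X)) ≤ atTop := Ultrafilter.of_le atTop
  have hlim : ∀ x i j, ∃ a : ℂ, Tendsto (fun G => Ψ G x i j) U (𝓝 a) := by
    intro x i j
    obtain ⟨a, _, ha⟩ := (isCompact_closedBall (0 : ℂ) _).ultrafilter_le_nhds
      (U.map fun G => Ψ G x i j) (by
        rw [Ultrafilter.coe_map, Filter.le_principal_iff]
        exact Filter.mem_map.mpr (Filter.univ_mem' fun G => hbd G x i j))
    exact ⟨a, ha⟩
  choose Φ hΦ using hlim
  refine ⟨fun x => Matrix.of (Φ x), multiplier_iff.mpr fun G => ?_, ?_⟩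
  · -- positivity passes to the limit
    have hev : ∀ᶠ G' in (U : Filter (Finset X)), (pickMatrix k l G (Ψ G')).PosSemidef := by
      filter_upwards [hU (eventually_ge_atTop G)] with G' hG'
      have h1 : G ⊆ F ∪ G' := fun x hx => Finset.mem_union_right _ (hG' hx)
      have h2 := pick_mono h1 (hΨ2 G')
      rw [pick_congr (W' := Ψ G') (fun x hx => by simp only [hΨ, if_pos (h1 hx)])] at h2
      exact h2
    have hconv : ∀ a b : G × Fin N, Tendsto (fun G' => pickMatrix k l G (Ψ G') a b) U
        (𝓝 (pickMatrix k l G (fun x => Matrix.of (Φ x)) a b)) := by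
      intro a b
      simp only [pick_apply, Matrix.mul_apply, Matrix.conjTranspose_apply, Matrix.of_apply]
      refine tendsto_const_nhds.sub (Tendsto.const_mul _ ?_)
      refine tendsto_finsetSum _ fun m _ => ?_
      exact (hΦ _ _ _).mul (hΦ _ _ _).star
    refine psd_of_sum ?_ fun A c => ?_
    · intro a b
      have h1 := (Complex.continuous_conj.tendsto _).comp (hconv a b)
      refine tendsto_nhds_unique (h1.congr' ?_) (hconv b a)
      filter_upwards [hev] with G' hG'
      exact psd_herm hG' a b
    · have h1 : Tendsto (fun G' => (∑ i ∈ A, ∑ j ∈ A, conj (c i) *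
          pickMatrix k l G (Ψ G') i j * c j).re) U
          (𝓝 (∑ i ∈ A, ∑ j ∈ A, conj (c i) *
            pickMatrix k l G (fun x => Matrix.of (Φ x)) i j * c j).re) := by
        refine (Complex.continuous_re.tendsto _).comp ?_
        refine tendsto_finsetSum _ fun i _ => tendsto_finsetSum _ fun j _ => ?_
        exact ((hconv i j).const_mul _).mul_const _
      exact ge_of_tendsto h1 (hev.mono fun G' hG' => psd_sum hG' A c)
  · intro x hx
    ext i j
    refine tendsto_nhds_unique (hΦ x i j) ?_
    refine tendsto_const_nhds.congr fun G => ?_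
    simp only [hΨ, if_pos (Finset.mem_union_left G hx), hΨ1 G x hx]

/-- a Shimorin certificate implies the complete Pick property -/
theorem cp_of_cert {k l : Kernel X} (hk : ∀ x, k.fn x x ≠ 0)
    (hc : HasShimorinCertificate k l) : IsCPPair k l :=
  cp_of_onePoint hk fun _ => onePoint_of_cert hc

end Pool.Agent.X188.CP
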