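import Pool.Agent.Results.MP_e3a8c8_an.ShimorinCertificates
import Pool.Agent.X188.Ker

/-! Tools around complete Pick pairs (definitions of the starting file on MP_e3a8c8_an). -/

open scoped InnerProductSpace ComplexOrder ComplexConjugate Kronecker
open Matrix

namespace Pool.Agent.X188.CP

open Pool.Agent.Results.MP_e3a8c8_an.ShimorinCertificates

universe u

variable {X : Type u} {N : ℕ}

lemma multiplier_iff {k l : Kernel X} {Φ : X → Matrix (Fin N) (Fin N) ℂ} :
    IsContractiveMultiplier k l Φ ↔ ∀ F : Finset X, (pickMatrix k l F Φ).PosSemidef := by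
  constructor
  · intro h F
    exact (pick_iff F Φ).mpr fun h' => Q_of_multiplier h F h'
  · intro h
    exact multiplier_of_Q fun F h' => (pick_iff F Φ).mp (h F) h'

lemma pick_apply (k l : Kernel X) (F : Finset X) (W : X → Matrix (Fin N) (Fin N) ℂ)
    (a b : F × Fin N) : pickMatrix k l F W a b =
      l.fn a.1 b.1 * (1 : Matrix (Fin N) (Fin N) ℂ) a.2 b.2 -
        k.fn a.1 b.1 * (W a.1 * (W b.1)ᴴ) a.2 b.2 := rfl

lemma pick_mono {k l : Kernel X} {F G : Finset X} (hFG : F ⊆ G)
    {W : X → Matrix (Fin N) (Fin N) ℂ} (h : (pickMatrix k l G W).PosSemidef) :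
    (pickMatrix k l F W).PosSemidef := by
  have := h.submatrix (fun a : F × Fin N => ((⟨a.1, hFG a.1.2⟩ : G), a.2))
  exact this

lemma pick_congr {k l : Kernel X} {F : Finset X}
    {W W' : X → Matrix (Fin N) (Fin N) ℂ} (h : ∀ x ∈ F, W x = W' x) :
    pickMatrix k l F W = pickMatrix k l F W' := by
  ext a b
  rw [pick_apply, pick_apply, h _ a.1.2, h _ b.1.2]

/-- `k ⊗ A` is positive -/
lemma pick_kron (k : Kernel X) (F : Finset X) {A : Matrix (Fin N) (Fin N) ℂ}
    (hA : A.PosSemidef) :
    (Matrix.of fun a b : F × Fin N => k.fn a.1 b.1 * A a.2 b.2).PosSemidef := by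
  have h1 : (k.fn.submatrix (fun x : F => (x : X)) (fun x : F => (x : X))).PosSemidef :=
    k.psd.submatrix _
  have := h1.kronecker hA
  exact this

/-- if the values at one point with `k(a,a) ≠ 0` are Pick-admissible then `1 - W W^*` is positive -/
lemma one_sub_psd {k : Kernel X} {F : Finset X} {W : X → Matrix (Fin N) (Fin N) ℂ}
    (h : (pickMatrix k k F W).PosSemidef) {a : X} (ha : a ∈ F) (hk : k.fn a a ≠ 0) :
    (1 - W a * (W a)ᴴ).PosSemidef := by
  have h1 := h.submatrix (fun i : Fin N => ((⟨a, ha⟩ : F), i))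
  have h2 : (k.fn a a) = (((k.fn a a).re : ℝ) : ℂ) := H770R3.Shim.psd_diag_eq k.psd a
  have h3 : 0 < (k.fn a a).re := by
    refine lt_of_le_of_ne (H770R3.Shim.psd_diag_re k.psd a) fun h0 => hk ?_
    rw [h2, ← h0]; simp
  have h4 : (0 : ℂ) ≤ (k.fn a a)⁻¹ := by
    rw [h2, ← Complex.ofReal_inv, Complex.zero_le_real]
    positivity
  have h5 := h1.smul h4
  refine (congrArg Matrix.PosSemidef ?_).mp h5
  ext i j
  simp only [Matrix.smul_apply, Matrix.submatrix_apply, pick_apply, smul_eq_mul, Matrix.sub_apply]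
  field_simp

/-- a kernel on at most two points is a complete Pick kernel -/
lemma cp_two (k : Kernel X) (a b : X) (hX : ∀ x, x = a ∨ x = b) : IsCPPair k k := by
  classical
  -- one-point data can be extended
  have key : ∀ c : X, ∀ (N : ℕ) (F : Finset X), F = {c} → ∀ W : X → Matrix (Fin N) (Fin N) ℂ,
      (pickMatrix k k F W).PosSemidef →
      ∃ Φ : X → Matrix (Fin N) (Fin N) ℂ, IsContractiveMultiplier k k Φ ∧ ∀ x ∈ F, Φ x = W x := by
    intro c N F hF W hW
    by_cases hc : k.fn c c = 0
    · refine ⟨Function.update 0 c (W c), multiplier_iff.mpr fun G => ?_, ?_⟩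
      · refine (congrArg Matrix.PosSemidef ?_).mp (pick_kron k G (Matrix.PosSemidef.one))
        ext p q
        rw [pick_apply, Matrix.of_apply]
        by_cases hp : (p.1 : X) = c
        · rw [hp, H770R3.Shim.psd_zero_row k.psd hc]; ring
        · rw [Function.update_of_ne hp]
          simp
      · intro x hx
        rw [hF, Finset.mem_singleton] at hx
        rw [hx, Function.update_self]
    · refine ⟨fun _ => W c, multiplier_iff.mpr fun G => ?_, ?_⟩
      · have h1 := one_sub_psd hW (a := c) (by rw [hF]; simp) hc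
        refine (congrArg Matrix.PosSemidef ?_).mp (pick_kron k G h1)
        ext p q
        rw [pick_apply, Matrix.of_apply, Matrix.sub_apply]
        ring
      · intro x hx
        rw [hF, Finset.mem_singleton] at hx
        rw [hx]
  intro N _ F hF W hW
  by_cases ha : a ∈ F
  · by_cases hb : b ∈ F
    · refine ⟨W, multiplier_iff.mpr fun G => pick_mono (fun x _ => ?_) hW, fun _ _ => rfl⟩
      rcases hX x with h | h <;> rw [h] <;> assumption
    · refine key a N F ?_ W hW
      ext x
      rw [Finset.mem_singleton]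
      constructor
      · intro hx
        rcases hX x with h | h
        · exact h
        · exact absurd (h ▸ hx) hb
      · rintro rfl; exact ha
  · refine key b N F ?_ W hW
    ext x
    rw [Finset.mem_singleton]
    constructor
    · intro hx
      rcases hX x with h | h
      · exact absurd (h ▸ hx) ha
      · exact h
    · rintro rfl
      obtain ⟨y, hy⟩ := hF
      rcases hX y with h | h
      · exact absurd (h ▸ hy) ha
      · exact h ▸ hy

/-- a complete Pick kernel multiplied by a dyad is a complete Pick kernel -/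
lemma cp_dyad {k s : Kernel X} (hs : IsCPPair s s) (δ : X → ℂ)
    (h : ∀ x y, k.fn x y = δ x * conj (δ y) * s.fn x y) : IsCPPair k k := by
  classical
  intro N hN F hF W hW
  set F₀ := F.filter fun x => δ x ≠ 0 with hF₀
  obtain ⟨Φ₀, hΦ₀, hΦW⟩ : ∃ Φ₀ : X → Matrix (Fin N) (Fin N) ℂ, IsContractiveMultiplier s s Φ₀ ∧
      ∀ x ∈ F₀, Φ₀ x = W x := by
    rcases F₀.eq_empty_or_nonempty with h0 | h0
    · refine ⟨fun _ => 0, multiplier_iff.mpr fun G => ?_, by simp [h0]⟩
      refine (congrArg Matrix.PosSemidef ?_).mp (pick_kron s G (Matrix.PosSemidef.one))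
      ext p q
      rw [pick_apply, Matrix.of_apply]
      simp
    · refine hs N hN F₀ h0 W ?_
      have h1 := pick_mono (F := F₀) (by rw [hF₀]; exact Finset.filter_subset _ F) hW
      have h2 := h1.hadamard (ker_dyad fun a : F₀ × Fin N => (δ a.1)⁻¹)
      refine (congrArg Matrix.PosSemidef ?_).mp h2
      ext p q
      have hp : δ p.1 ≠ 0 := (Finset.mem_filter.mp p.1.2).2
      have hq : δ q.1 ≠ 0 := (Finset.mem_filter.mp q.1.2).2
      have hq' : conj (δ q.1) ≠ 0 := by simpa using hq
      rw [Matrix.hadamard_apply, pick_apply, pick_apply, Matrix.of_apply, h, map_inv₀]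
      field_simp
  refine ⟨fun x => if δ x = 0 then W x else Φ₀ x, multiplier_iff.mpr fun G => ?_, ?_⟩
  · have h1 := (multiplier_iff.mp hΦ₀ G).hadamard (ker_dyad fun a : G × Fin N => δ a.1)
    refine (congrArg Matrix.PosSemidef ?_).mp h1
    ext p q
    rw [Matrix.hadamard_apply, pick_apply, pick_apply, Matrix.of_apply, h]
    by_cases hp : δ p.1 = 0
    · rw [hp]; ring
    · by_cases hq : δ q.1 = 0
      · rw [hq]; simp
      · simp only [if_neg hp, if_neg hq]
        ring
  · intro x hx
    by_cases h0 : δ x = 0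
    · simp [h0]
    · simp only [if_neg h0]
      exact hΦW x (Finset.mem_filter.mpr ⟨hx, h0⟩)

/-- two-by-two minors -/
lemma minor_le {g : Matrix X X ℂ} (hg : g.PosSemidef) (x y : X) :
    ‖g x y‖ ^ 2 ≤ (g x x).re * (g y y).re := by
  have h1 := (hg.submatrix ![x, y]).det_nonneg
  rw [Matrix.det_fin_two] at h1
  simp only [Matrix.submatrix_apply, Matrix.cons_val_zero, Matrix.cons_val_one] at h1
  rw [H770R3.Shim.psd_diag_eq hg x, H770R3.Shim.psd_diag_eq hg y,
    ← H770R3.Shim.psd_herm hg x y, Complex.mul_conj, Complex.normSq_eq_norm_sq] at h1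
  have h2 := (Complex.nonneg_iff.mp h1).1
  rw [← Complex.ofReal_mul, ← Complex.ofReal_sub, Complex.ofReal_re] at h2
  linarith

end Pool.Agent.X188.CP
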