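import Mathlib

/-! Lifting the exponent. -/

set_option autoImplicit false

namespace Pool.Agent.X188.FU

open Finset

/-- `G = (B ^ h - 1) / (B - 1)` -/
def G (B h : ℕ) : ℕ := ∑ i ∈ range h, B ^ i

theorem G_mul {B : ℕ} (hB : 1 ≤ B) (h : ℕ) : G B h * (B - 1) = B ^ h - 1 := by
  obtain ⟨W, rfl⟩ := Nat.exists_eq_add_of_le hB
  rw [Nat.add_sub_cancel_left]
  have : G (1 + W) h * W + 1 = (1 + W) ^ h := by
    induction h with
    | zero => simp [G]
    | succ h ih =>
      have e1 : G (1 + W) (h + 1) = G (1 + W) h + (1 + W) ^ h := by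
        unfold G; rw [sum_range_succ]
      rw [e1, add_mul, pow_succ, ← ih]
      ring
  omega

theorem G_real {B : ℕ} (hB : 1 ≤ B) (h : ℕ) : (G B h : ℝ) * ((B : ℝ) - 1) = (B : ℝ) ^ h - 1 := by
  have h1 := G_mul hB h
  have h2 : ((G B h * (B - 1) : ℕ) : ℝ) = ((B ^ h - 1 : ℕ) : ℝ) := by rw [h1]
  rw [Nat.cast_mul, Nat.cast_sub hB, Nat.cast_sub (Nat.one_le_pow _ _ hB)] at h2
  push_cast at h2
  exact h2

theorem G_pos {B h : ℕ} (hB : 1 ≤ B) (hh : 1 ≤ h) : 1 ≤ G B h := by
  unfold G
  calc 1 = B ^ 0 := by simp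
    _ ≤ ∑ i ∈ range h, B ^ i :=
      single_le_sum (f := fun i => B ^ i) (fun i _ => Nat.zero_le _) (mem_range.2 hh)

/-- lifting the exponent -/
theorem lte {p B h : ℕ} (hp : p.Prime) (hB : 2 ≤ B) (hdvd : p ∣ B - 1) (h2 : p = 2 → 4 ∣ B - 1)
    (hh : 1 ≤ h) : padicValNat p (B ^ h - 1) = padicValNat p (B - 1) + padicValNat p h := by
  haveI : Fact p.Prime := ⟨hp⟩
  have hpB : ¬ p ∣ B := by
    intro hcon
    have h3 : p ∣ B - (B - 1) := Nat.dvd_sub hcon hdvd
    have h4 : B - (B - 1) = 1 := by omega
    rw [h4] at h3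
    exact hp.one_lt.ne' (Nat.dvd_one.1 h3)
  rcases hp.eq_two_or_odd' with h3 | h3
  · subst h3
    have h4 := h2 rfl
    rcases Nat.even_or_odd h with he | ho
    · have h5 := padicValNat.pow_two_sub_pow (x := B) (y := 1) (by omega) hdvd hpB
        (n := h) (by omega) he
      rw [one_pow] at h5
      have h6 : padicValNat 2 (B + 1) = 1 := by
        obtain ⟨k, hk⟩ := h4
        have h7 : B + 1 = 2 * (2 * k + 1) := by omega
        rw [h7, padicValNat.mul (by norm_num) (by omega), padicValNat.self (by norm_num),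
          padicValNat.eq_zero_of_not_dvd (by omega)]
      omega
    · have h5 : padicValNat 2 (G B h) = 0 := by
        apply padicValNat.eq_zero_of_not_dvd
        have h6 : ∀ n, G B n % 2 = n % 2 := by
          intro n
          induction n with
          | zero => simp [G]
          | succ n ih =>
            have e1 : G B (n + 1) = G B n + B ^ n := by unfold G; rw [sum_range_succ]
            have e2 : B ^ n % 2 = 1 := by
              rw [Nat.pow_mod]
              have : B % 2 = 1 := by omega
              rw [this]; simp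
            omega
        have := h6 h
        have h7 := Nat.odd_iff.1 ho
        omega
      have h6 : padicValNat 2 h = 0 := padicValNat.eq_zero_of_not_dvd (by
        have := Nat.odd_iff.1 ho
        omega)
      rw [h6, ← G_mul (by omega) h, padicValNat.mul, h5]
      · ring
      · have := G_pos (B := B) (h := h) (by omega) hh
        omega
      · omega
  · have h4 := padicValNat.pow_sub_pow (x := B) (y := 1) h3 (by omega) hdvd hpB (n := h) (by omega)
    rwa [one_pow] at h4

theorem val_G {p B h : ℕ} (hp : p.Prime) (hB : 2 ≤ B) (hdvd : p ∣ B - 1) (h2 : p = 2 → 4 ∣ B - 1)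
    (hh : 1 ≤ h) : padicValNat p (G B h) = padicValNat p h := by
  haveI : Fact p.Prime := ⟨hp⟩
  have h1 := lte hp hB hdvd h2 hh
  rw [← G_mul (by omega) h, padicValNat.mul] at h1
  · omega
  · have := G_pos (B := B) (h := h) (by omega) hh
    omega
  · omega

end Pool.Agent.X188.FU
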