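import Pool.Agent.X188.FU1
import Pool.Agent.H373R2.NB.Vino
import Pool.Agent.Y943.Fu.Orb

/-! Weyl differencing for exponential sequences. -/

set_option autoImplicit false

namespace Pool.Agent.X188.FU

open Finset
open Pool.Agent.H332R2.Lit (e)
open Pool.Agent.Y943.Fu (e_add' norm_e')

open Classical in
/-- the proportion of degenerate difference vectors -/
noncomputable def bad (N B : ℕ) : ℕ → ℝ → ℝ
  | 0, g => if ∃ z : ℤ, g * ((B : ℝ) - 1) = z then 1 else 0
  | k + 1, g => 1 / N * ∑ h ∈ range N, bad N B k (g * ((B : ℝ) ^ h - 1))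

theorem bad_nonneg (N B : ℕ) : ∀ (k : ℕ) (g : ℝ), 0 ≤ bad N B k g := by
  intro k
  induction k with
  | zero => intro g; unfold bad; split_ifs <;> norm_num
  | succ k ih =>
    intro g
    unfold bad
    have : 0 ≤ ∑ h ∈ range N, bad N B k (g * ((B : ℝ) ^ h - 1)) := sum_nonneg fun h _ => ih _
    positivity

theorem bad_le_one (N B : ℕ) : ∀ (k : ℕ) (g : ℝ), bad N B k g ≤ 1 := by
  intro k
  induction k with
  | zero => intro g; unfold bad; split_ifs <;> norm_num
  | succ k ih =>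
    intro g
    unfold bad
    rcases Nat.eq_zero_or_pos N with h | h
    · subst h; simp
    · have hN : (0 : ℝ) < N := by exact_mod_cast h
      have h1 : ∑ h ∈ range N, bad N B k (g * ((B : ℝ) ^ h - 1)) ≤ N := by
        calc ∑ h ∈ range N, bad N B k (g * ((B : ℝ) ^ h - 1)) ≤ ∑ h ∈ range N, (1 : ℝ) :=
              sum_le_sum fun h _ => ih _
          _ = N := by simp
      rw [one_div, inv_mul_le_iff₀ hN, mul_one]
      exact h1

theorem e_zero : e 0 = 1 := by unfold e; simp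

theorem e_intz (z : ℤ) : e z = 1 := by
  unfold e
  rw [show (2 * Real.pi * ((z : ℝ) : ℂ) * Complex.I : ℂ) = z * (2 * Real.pi * Complex.I) by
    push_cast; ring]
  exact Complex.exp_int_mul_two_pi_mul_I z

theorem e_add_int (x : ℝ) (z : ℤ) : e (x + z) = e x := by
  rw [e_add', e_intz, mul_one]

theorem pow_expand {B : ℕ} (hB : 1 ≤ B) (n : ℕ) : ∃ y : ℤ,
    (B : ℝ) ^ n = 1 + n * ((B : ℝ) - 1) + ((B : ℝ) - 1) ^ 2 * y := by
  induction n with
  | zero => exact ⟨0, by simp⟩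
  | succ n ih =>
    obtain ⟨y, hy⟩ := ih
    refine ⟨n + y + (B - 1) * y, ?_⟩
    rw [pow_succ, hy]
    push_cast
    ring

theorem lin_phase {B : ℕ} (hB : 1 ≤ B) {g : ℝ} (hg : ∃ z : ℤ, g * ((B : ℝ) - 1) ^ 2 = z) (n : ℕ) :
    e (g * (B : ℝ) ^ n) = e g * e (n * (g * ((B : ℝ) - 1))) := by
  obtain ⟨y, hy⟩ := pow_expand hB n
  obtain ⟨z, hz⟩ := hg
  have h1 : g * (B : ℝ) ^ n = (g + n * (g * ((B : ℝ) - 1))) + ((z * y : ℤ) : ℝ) := by
    rw [hy]
    push_cast
    rw [← hz]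
    ring
  rw [h1, e_add_int, e_add']

theorem lin_sum {B : ℕ} (hB : 1 ≤ B) {g : ℝ} {Q : ℕ} (hQ : 1 ≤ Q)
    (hg : ∃ z : ℤ, g * ((B : ℝ) - 1) ^ 2 = z) (hg1 : ∃ z : ℤ, Q * (g * ((B : ℝ) - 1)) = z)
    (hng : ¬ ∃ z : ℤ, g * ((B : ℝ) - 1) = z) (N : ℕ) :
    ‖∑ n ∈ range N, e (g * (B : ℝ) ^ n)‖ ≤ Q / 2 := by
  have hQr : (0 : ℝ) < Q := by exact_mod_cast hQ
  set σ := g * ((B : ℝ) - 1) with hσ
  have h1 : ∑ n ∈ range N, e (g * (B : ℝ) ^ n) = e g * ∑ n ∈ range N, e (n * σ) := by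
    rw [mul_sum]
    exact sum_congr rfl fun n _ => lin_phase hB hg n
  rw [h1, norm_mul, norm_e', one_mul]
  have h2 := Pool.Agent.Helper602.MK.N_J5b.KD_far N σ (1 / Q) (by positivity) (fun n => by
    obtain ⟨z, hz⟩ := hg1
    rw [div_le_iff₀ hQr, ← abs_of_pos hQr, ← abs_mul]
    have h3 : (σ - n) * (Q : ℝ) = ((z - n * Q : ℤ) : ℝ) := by
      push_cast
      rw [← hz]
      ring
    rw [h3]
    have h4 : z - n * Q ≠ 0 := by
      intro h0
      apply hng
      refine ⟨n, ?_⟩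
      rw [h0] at h3
      simp only [Int.cast_zero, mul_eq_zero] at h3
      rcases h3 with h3 | h3
      · linarith
      · linarith
    have h5 : (1 : ℤ) ≤ |z - n * Q| := Int.one_le_abs h4
    exact_mod_cast h5)
  unfold Pool.Agent.Helper602.MK.N_J5b.KD at h2
  have h3 : ‖∑ n ∈ range N, e (n * σ)‖ ^ 2 ≤ (Q / 2 : ℝ) ^ 2 := by
    refine le_trans (le_of_eq ?_) (h2.trans (le_of_eq ?_))
    · rfl
    · field_simp
      ring
  exact le_of_sq_le_sq h3 (by positivity)

theorem final_alg (N c : ℝ) {m : ℕ} (hm : m ≠ 0) :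
    2 ^ m * N ^ (m - 1) * ((2 * N) ^ m * (N * c)) = (2 * N) ^ (m + m) * c := by
  have e1 : N ^ (m - 1) * N = N ^ m := pow_sub_one_mul hm N
  have e2 : (2 * N) ^ (m + m) = (2 ^ m * N ^ m) * (2 * N) ^ m := by
    rw [← mul_pow, ← pow_add]
  rw [e2, ← e1]
  ring

theorem final_ineq {m : ℕ} (hm : m ≠ 0) {S T N' N c : ℝ} (h4 : S ≤ 2 ^ m * (N' ^ (m - 1) * T))
    (h3 : 2 * T ≤ (2 * N) ^ m * (N * c)) (h0 : 0 ≤ N') (h1 : N' ≤ N) (hT : 0 ≤ T) :
    2 * S ≤ (2 * N) ^ (m + m) * c := by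
  rw [← final_alg N c hm]
  have h5 : N' ^ (m - 1) ≤ N ^ (m - 1) := pow_le_pow_left₀ h0 h1 _
  calc 2 * S ≤ 2 * (2 ^ m * (N' ^ (m - 1) * T)) := by linarith
    _ = 2 ^ m * (N' ^ (m - 1) * (2 * T)) := by ring
    _ ≤ 2 ^ m * (N ^ (m - 1) * (2 * T)) := by
        refine mul_le_mul_of_nonneg_left (mul_le_mul_of_nonneg_right h5 (by linarith)) (by positivity)
    _ ≤ 2 ^ m * (N ^ (m - 1) * ((2 * N) ^ m * (N * c))) := by
        refine mul_le_mul_of_nonneg_left (mul_le_mul_of_nonneg_left h3 ?_) (by positivity)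
        have : 0 ≤ N := h0.trans h1
        positivity
    _ = 2 ^ m * N ^ (m - 1) * ((2 * N) ^ m * (N * c)) := by ring

/-- **Weyl differencing** -/
theorem main_sum {N B Q : ℕ} (hN : 1 ≤ N) (hB : 1 ≤ B) (hQ : 1 ≤ Q) : ∀ (k : ℕ) (g : ℝ),
    (∃ z : ℤ, g * ((B : ℝ) - 1) ^ (k + 2) = z) → (∃ z : ℤ, Q * (g * ((B : ℝ) - 1) ^ (k + 1)) = z) →
    ∀ N' ≤ N, 2 * ‖∑ n ∈ range N', e (g * (B : ℝ) ^ n)‖ ^ (2 ^ k) ≤
      (2 * (N : ℝ)) ^ (2 ^ k) * (Q / (2 * N) + bad N B k g) := by
  have hNr : (0 : ℝ) < N := by exact_mod_cast hN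
  have hQr : (0 : ℝ) < Q := by exact_mod_cast hQ
  intro k
  induction k with
  | zero =>
    intro g hg hg1 N' hN'
    simp only [zero_add, pow_one] at hg1
    simp only [zero_add] at hg
    rw [pow_zero, pow_one, pow_one]
    by_cases hz : ∃ z : ℤ, g * ((B : ℝ) - 1) = z
    · have h1 : bad N B 0 g = 1 := by unfold bad; rw [if_pos hz]
      rw [h1]
      have h2 : ‖∑ n ∈ range N', e (g * (B : ℝ) ^ n)‖ ≤ N := by
        refine (norm_sum_le _ _).trans ?_
        calc ∑ n ∈ range N', ‖e (g * (B : ℝ) ^ n)‖ = N' := by simp [norm_e']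
          _ ≤ N := by exact_mod_cast hN'
      have h3 : 0 ≤ 2 * (N : ℝ) * (Q / (2 * N)) := by positivity
      rw [mul_add]
      linarith
    · have h1 : bad N B 0 g = 0 := by unfold bad; rw [if_neg hz]
      rw [h1, add_zero]
      have h2 := lin_sum hB hQ hg hg1 hz N'
      have h3 : 2 * (N : ℝ) * (Q / (2 * N)) = Q := by field_simp
      rw [h3]
      linarith
  | succ k ih =>
    intro g hg hg1 N' hN'
    rcases Nat.eq_zero_or_pos N' with h0 | h0
    · subst h0
      simp only [range_zero, sum_empty, norm_zero]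
      rw [zero_pow (by positivity), mul_zero]
      have := bad_nonneg N B (k + 1) g
      positivity
    have hN'r : (0 : ℝ) < N' := by exact_mod_cast h0
    have hNN : (N' : ℝ) ≤ N := by exact_mod_cast hN'
    set S := ‖∑ n ∈ range N', e (g * (B : ℝ) ^ n)‖ with hS
    set a : ℕ → ℝ := fun h => ‖∑ n ∈ range (N' - h), e (g * ((B : ℝ) ^ h - 1) * (B : ℝ) ^ n)‖ with ha
    have h1 : S ^ 2 ≤ 2 * ∑ h ∈ range N', a h := by
      have h2 := Pool.Agent.H373R2.NB.vdc (fun n => e (g * (B : ℝ) ^ n)) (fun n => norm_e' _) N'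
      refine h2.trans (le_of_eq ?_)
      congr 1
      refine sum_congr rfl fun h _ => ?_
      rw [ha]
      simp only
      congr 1
      refine sum_congr rfl fun n _ => ?_
      have h3 : (starRingEnd ℂ) (e (g * (B : ℝ) ^ n)) = e (-(g * (B : ℝ) ^ n)) := by
        unfold e
        rw [← Complex.exp_conj]
        congr 1
        simp only [map_mul, Complex.conj_ofReal, Complex.conj_I, map_ofNat]
        push_cast
        ring
      rw [h3, ← e_add']
      congr 1
      rw [pow_add]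
      ring
    have hih : ∀ h ∈ range N', 2 * a h ^ (2 ^ k) ≤
        (2 * (N : ℝ)) ^ (2 ^ k) * (Q / (2 * N) + bad N B k (g * ((B : ℝ) ^ h - 1))) := by
      intro h hh
      have hGr := G_real hB h
      refine ih (g * ((B : ℝ) ^ h - 1)) ?_ ?_ (N' - h) (by omega)
      · obtain ⟨z, hz⟩ := hg
        refine ⟨z * G B h, ?_⟩
        push_cast
        rw [← hz, ← hGr]
        ring
      · obtain ⟨z, hz⟩ := hg1
        refine ⟨z * G B h, ?_⟩
        push_cast
        rw [← hz, ← hGr]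
        ring
    have h2 : (∑ h ∈ range N', a h) ^ (2 ^ k) ≤ (N' : ℝ) ^ (2 ^ k - 1) * ∑ h ∈ range N', a h ^ (2 ^ k) := by
      have h3 := pow_sum_div_card_le_sum_pow (s := range N') (f := a) (fun h _ => norm_nonneg _)
        (2 ^ k - 1)
      rw [Nat.sub_add_cancel Nat.one_le_two_pow, card_range, div_le_iff₀ (by positivity)] at h3
      linarith
    have h3 : ∑ h ∈ range N', 2 * a h ^ (2 ^ k) ≤
        (2 * (N : ℝ)) ^ (2 ^ k) * (N * (Q / (2 * N) + bad N B (k + 1) g)) := by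
      refine (sum_le_sum hih).trans ?_
      rw [← mul_sum]
      refine mul_le_mul_of_nonneg_left ?_ (by positivity)
      have h4 : ∑ h ∈ range N', (Q / (2 * (N : ℝ)) + bad N B k (g * ((B : ℝ) ^ h - 1))) ≤
          ∑ h ∈ range N, (Q / (2 * (N : ℝ)) + bad N B k (g * ((B : ℝ) ^ h - 1))) :=
        sum_le_sum_of_subset_of_nonneg (range_subset_range.2 hN') fun h _ _ => by
          have := bad_nonneg N B k (g * ((B : ℝ) ^ h - 1))
          positivity
      refine h4.trans (le_of_eq ?_)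
      rw [sum_add_distrib, sum_const, card_range, nsmul_eq_mul, mul_add]
      congr 1
      have h5 : bad N B (k + 1) g = 1 / N * ∑ h ∈ range N, bad N B k (g * ((B : ℝ) ^ h - 1)) := rfl
      rw [h5]
      field_simp
    rw [← mul_sum] at h3
    have h4 : S ^ (2 ^ (k + 1)) ≤ 2 ^ (2 ^ k) * ((N' : ℝ) ^ (2 ^ k - 1) * ∑ h ∈ range N', a h ^ (2 ^ k)) := by
      calc S ^ (2 ^ (k + 1)) = (S ^ 2) ^ (2 ^ k) := by rw [← pow_mul]; congr 1; ring
        _ ≤ (2 * ∑ h ∈ range N', a h) ^ (2 ^ k) := by gcongr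
        _ = 2 ^ (2 ^ k) * (∑ h ∈ range N', a h) ^ (2 ^ k) := by rw [mul_pow]
        _ ≤ _ := by gcongr
    have h5 : (0 : ℝ) ≤ ∑ h ∈ range N', a h ^ (2 ^ k) := sum_nonneg fun h _ => by positivity
    have hm0 : (2 ^ k : ℕ) ≠ 0 := by positivity
    have hm2 : (2 ^ (k + 1) : ℕ) = 2 ^ k + 2 ^ k := by rw [pow_succ]; ring
    have h6 : (2 * (N : ℝ)) ^ (2 ^ (k + 1)) = (2 * (N : ℝ)) ^ (2 ^ k + 2 ^ k) := by rw [hm2]
    rw [h6]
    exact final_ineq hm0 h4 h3 hN'r.le hNN h5

/-- the bound for the degenerate vectors -/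
theorem bad_le {N B p f : ℕ} (hN : 1 ≤ N) (hp : p.Prime) (hB : 2 ≤ B) (hdvd : p ∣ B - 1)
    (h2 : p = 2 → 4 ∣ B - 1) : ∀ (k : ℕ) (g : ℝ),
    (∀ z : ℕ, (∃ y : ℤ, (z : ℝ) * (g * ((B : ℝ) - 1) ^ (k + 1)) = y) → p ^ (k * f + 1) ∣ z) →
    bad N B k g ≤ k * (1 / (p : ℝ) ^ f + 1 / N) := by
  have hNr : (0 : ℝ) < N := by exact_mod_cast hN
  have hp0 : (0 : ℝ) < p := by exact_mod_cast hp.pos
  have : Fact p.Prime := ⟨hp⟩
  intro k
  induction k with
  | zero =>
    intro g hg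
    have h1 : ¬ ∃ z : ℤ, g * ((B : ℝ) - 1) = z := by
      rintro ⟨z, hz⟩
      have h3 := hg 1 ⟨z, by rw [zero_add, pow_one, Nat.cast_one, one_mul]; exact hz⟩
      rw [zero_mul, zero_add, pow_one] at h3
      exact hp.one_lt.ne' (Nat.dvd_one.1 h3)
    have h3 : bad N B 0 g = 0 := by unfold bad; rw [if_neg h1]
    rw [h3]
    simp
  | succ k ih =>
    intro g hg
    have key : ∀ h ∈ range N, bad N B k (g * ((B : ℝ) ^ h - 1)) ≤
        (if p ^ f ∣ h then 1 else 0) + k * (1 / (p : ℝ) ^ f + 1 / N) := by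
      intro h _
      by_cases hh : p ^ f ∣ h
      · rw [if_pos hh]
        have h3 := bad_le_one N B k (g * ((B : ℝ) ^ h - 1))
        have h4 : 0 ≤ k * (1 / (p : ℝ) ^ f + 1 / N) := by positivity
        linarith
      · rw [if_neg hh, zero_add]
        have hh1 : 1 ≤ h := by
          rcases Nat.eq_zero_or_pos h with h0 | h0
          · exfalso; apply hh; rw [h0]; exact dvd_zero _
          · exact h0
        refine ih _ fun z hz => ?_
        obtain ⟨y, hy⟩ := hz
        have hGr := G_real (B := B) (by omega) h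
        have h3 := hg (z * G B h) ⟨y, by
          rw [← hy, ← hGr]
          push_cast
          ring⟩
        rcases Nat.eq_zero_or_pos z with hz0 | hz0
        · rw [hz0]; exact dvd_zero _
        have hG0 : G B h ≠ 0 := by
          have := G_pos (B := B) (h := h) (by omega) hh1
          omega
        rw [padicValNat_dvd_iff_le (by positivity), padicValNat.mul (by omega) hG0,
          val_G hp hB hdvd h2 hh1] at h3
        have h4 : padicValNat p h < f := by
          by_contra hcon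
          push Not at hcon
          exact hh ((padicValNat_dvd_iff_le (by omega)).2 hcon)
        rw [padicValNat_dvd_iff_le (by omega)]
        have h5 : (k + 1) * f = k * f + f := by ring
        omega
    have h5 : bad N B (k + 1) g = 1 / N * ∑ h ∈ range N, bad N B k (g * ((B : ℝ) ^ h - 1)) := rfl
    rw [h5, one_div_mul_eq_div, div_le_iff₀ hNr]
    refine (sum_le_sum key).trans ?_
    rw [sum_add_distrib, sum_const, card_range, nsmul_eq_mul]
    have h6 : ∑ h ∈ range N, (if p ^ f ∣ h then (1 : ℝ) else 0) ≤ N / (p : ℝ) ^ f + 1 := by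
      rw [← sum_filter, sum_const, nsmul_eq_mul, mul_one]
      have h7 : (range N).filter (fun h => p ^ f ∣ h) ⊆ (range (N / p ^ f + 1)).image (fun i => p ^ f * i) := by
        intro h hh
        rw [mem_filter, mem_range] at hh
        obtain ⟨i, hi⟩ := hh.2
        rw [mem_image]
        refine ⟨i, ?_, hi.symm⟩
        rw [mem_range, Nat.lt_succ_iff, Nat.le_div_iff_mul_le (pow_pos hp.pos f)]
        rw [mul_comm, ← hi]
        omega
      have h8 := (card_le_card h7).trans card_image_le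
      rw [card_range] at h8
      have h9 : ((N / p ^ f : ℕ) : ℝ) ≤ N / (p : ℝ) ^ f := by
        have := Nat.cast_div_le (m := N) (n := p ^ f) (α := ℝ)
        push_cast at this
        exact this
      calc (((range N).filter (fun h => p ^ f ∣ h)).card : ℝ) ≤ ((N / p ^ f + 1 : ℕ) : ℝ) := by
            exact_mod_cast h8
        _ ≤ _ := by push_cast; linarith
    have h7 : ((k + 1 : ℕ) : ℝ) * (1 / (p : ℝ) ^ f + 1 / N) * (N : ℝ) =
        (N / (p : ℝ) ^ f + 1) + N * (k * (1 / (p : ℝ) ^ f + 1 / N)) := by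
      push_cast
      field_simp
      ring
    rw [h7]
    linarith

end Pool.Agent.X188.FU
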