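import Pool.Agent.X188.FU2

/-! Arithmetic of smooth denominators. -/

set_option autoImplicit false

namespace Pool.Agent.X188.FU

open Finset
open Pool.Agent.H332R2.Lit (e)

/-- the `(d+1)`-st root of a smooth number -/
theorem exists_root {r s : ℕ} (d : ℕ) (hr : 1 ≤ r) (hs : 1 ≤ s)
    (hrs : ∀ p : ℕ, p.Prime → p ∣ r → p ∣ s) :
    ∃ m : ℕ, 1 ≤ m ∧ r ∣ m ^ (d + 1) ∧ m ^ (d + 1) ∣ r * s ^ d ∧
      (∀ p : ℕ, p.Prime → p ∣ m → p ∣ s) ∧
      ∀ p : ℕ, (d + 1) * m.factorization p ≤ r.factorization p + d := by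
  have hF : (fun e : ℕ => (e + d) / (d + 1)) 0 = 0 := by
    simp only [zero_add]
    exact Nat.div_eq_of_lt (Nat.lt_succ_self d)
  set F : ℕ →₀ ℕ := r.factorization.mapRange (fun e => (e + d) / (d + 1)) hF with hFdef
  have hFp : ∀ p, F p = (r.factorization p + d) / (d + 1) := fun p => by
    rw [hFdef, Finsupp.mapRange_apply]
  have hFs : ∀ p ∈ F.support, Nat.Prime p := by
    intro p hp
    by_contra hcon
    rw [Finsupp.mem_support_iff, hFp, Nat.factorization_eq_zero_of_not_prime _ hcon] at hp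
    exact hp hF
  have hm := Nat.prod_pow_factorization_eq_self hFs
  set m := F.prod (fun x1 x2 => x1 ^ x2) with hmdef
  have hm0 : m ≠ 0 := by
    rw [hmdef, Finsupp.prod, Finset.prod_ne_zero_iff]
    intro p hp
    exact pow_ne_zero _ (hFs p hp).ne_zero
  have hub : ∀ p, (d + 1) * m.factorization p ≤ r.factorization p + d := by
    intro p
    rw [hm, hFp]
    exact Nat.mul_div_le _ _
  have hlb : ∀ p, r.factorization p ≤ (d + 1) * m.factorization p := by
    intro p
    rw [hm, hFp]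
    have h1 := Nat.div_add_mod (r.factorization p + d) (d + 1)
    have h2 := Nat.mod_lt (r.factorization p + d) (Nat.succ_pos d)
    simp only [Nat.succ_eq_add_one] at h2
    omega
  refine ⟨m, Nat.one_le_iff_ne_zero.2 hm0, ?_, ?_, ?_, hub⟩
  · rw [← Nat.factorization_le_iff_dvd (by omega) (pow_ne_zero _ hm0), Nat.factorization_pow]
    intro p
    simp only [Finsupp.smul_apply, smul_eq_mul]
    exact hlb p
  · rw [← Nat.factorization_le_iff_dvd (pow_ne_zero _ hm0)
      (mul_ne_zero (by omega) (pow_ne_zero _ (by omega))), Nat.factorization_pow,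
      Nat.factorization_mul (by omega) (pow_ne_zero _ (by omega)), Nat.factorization_pow]
    intro p
    simp only [Finsupp.smul_apply, smul_eq_mul, Finsupp.add_apply]
    by_cases hp : r.factorization p = 0
    · rw [hm, hFp, hp]
      have : (0 + d) / (d + 1) = 0 := hF
      rw [this]
      omega
    · have hpp : p.Prime := by
        by_contra hcon
        exact hp (Nat.factorization_eq_zero_of_not_prime _ hcon)
      have hpr : p ∣ r := Nat.dvd_of_factorization_pos hp
      have hps := hrs p hpp hpr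
      have h1 : 1 ≤ s.factorization p := (hpp.dvd_iff_one_le_factorization (by omega)).1 hps
      have h2 := hub p
      have h3 : d * 1 ≤ d * s.factorization p := Nat.mul_le_mul_left d h1
      omega
  · intro p hp hpm
    have h1 : m.factorization p ≠ 0 := by
      have := (hp.dvd_iff_one_le_factorization hm0).1 hpm
      omega
    have h2 : r.factorization p ≠ 0 := by
      intro h0
      apply h1
      rw [hm, hFp, h0]
      exact hF
    exact hrs p hp (Nat.dvd_of_factorization_pos h2)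

theorem exists_t0 {b s : ℕ} (hb : 2 ≤ b) (hs : 1 ≤ s) (hbs : Nat.Coprime b s) :
    ∃ t₀ : ℕ, 1 ≤ t₀ ∧ (∀ p : ℕ, p.Prime → p ∣ s → p ∣ b ^ t₀ - 1) ∧ (2 ∣ s → 4 ∣ b ^ t₀ - 1) := by
  have key : ∀ n : ℕ, 1 ≤ n → Nat.Coprime b n → n ∣ b ^ n.totient - 1 := by
    intro n hn hbn
    have h1 := Nat.ModEq.pow_totient hbn
    exact (Nat.modEq_iff_dvd' (Nat.one_le_pow _ _ (by omega))).1 h1.symm
  by_cases h2 : 2 ∣ s
  · have h3 : Nat.Coprime b 2 := Nat.Coprime.coprime_dvd_right h2 hbs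
    have h4 : Nat.Coprime b (4 * s) := by
      apply Nat.Coprime.mul_right
      · rw [show (4 : ℕ) = 2 * 2 by norm_num]
        exact Nat.Coprime.mul_right h3 h3
      · exact hbs
    have h5 := key (4 * s) (by omega) h4
    refine ⟨(4 * s).totient, Nat.totient_pos.2 (by omega), ?_, ?_⟩
    · intro p hp hps
      exact (hps.trans (Dvd.intro_left 4 rfl)).trans h5
    · intro _
      exact (Dvd.intro s rfl).trans h5
  · have h5 := key s hs hbs
    refine ⟨s.totient, Nat.totient_pos.2 (by omega), ?_, ?_⟩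
    · intro p hp hps
      exact hps.trans h5
    · intro h; exact absurd h h2

/-- the structure of `W = b ^ (t₀ m) - 1` -/
theorem W_fact {b t₀ m p : ℕ} (hb : 2 ≤ b) (ht : 1 ≤ t₀) (hm : 1 ≤ m) (hp : p.Prime)
    (hd : p ∣ b ^ t₀ - 1) (h2 : p = 2 → 4 ∣ b ^ t₀ - 1) :
    ((b ^ (t₀ * m)) - 1).factorization p = (b ^ t₀ - 1).factorization p + m.factorization p := by
  have hB : 2 ≤ b ^ t₀ := hb.trans (Nat.le_self_pow (by omega) b)
  rw [Nat.factorization_def _ hp, Nat.factorization_def _ hp, Nat.factorization_def _ hp, pow_mul]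
  exact lte hp hB hd h2 hm

theorem dvd_sub_one_pow (B m : ℕ) : B - 1 ∣ B ^ m - 1 := by
  simpa using Nat.sub_dvd_pow_sub_pow B 1 m

/-- `m ∣ W` -/
theorem m_dvd_W {b s t₀ m : ℕ} (hb : 2 ≤ b) (ht : 1 ≤ t₀) (hm : 1 ≤ m)
    (h1 : ∀ p : ℕ, p.Prime → p ∣ s → p ∣ b ^ t₀ - 1) (h4 : 2 ∣ s → 4 ∣ b ^ t₀ - 1)
    (hms : ∀ p : ℕ, p.Prime → p ∣ m → p ∣ s) : m ∣ b ^ (t₀ * m) - 1 := by
  have hB : 2 ≤ b ^ (t₀ * m) := hb.trans (Nat.le_self_pow (by positivity) b)
  rw [← Nat.factorization_le_iff_dvd (by omega) (by omega)]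
  intro p
  by_cases hp : p.Prime
  · by_cases hpm : p ∣ m
    · have hps := hms p hp hpm
      rw [W_fact hb ht hm hp (h1 p hp hps) (fun h => h4 (h ▸ hps))]
      omega
    · rw [Nat.factorization_eq_zero_of_not_dvd hpm]
      omega
  · rw [Nat.factorization_eq_zero_of_not_prime _ hp]
    omega

/-- a prime with large exponent -/
theorem exists_big {r s : ℕ} (hr : 2 ≤ r) (hs : 1 ≤ s) (hrs : ∀ p : ℕ, p.Prime → p ∣ r → p ∣ s) :
    ∃ p : ℕ, p.Prime ∧ p ∣ r ∧ Real.log r ≤ s * s * r.factorization p := by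
  have h1 := Real.log_nat_eq_sum_factorization r
  have hne : r.primeFactors.Nonempty := Nat.nonempty_primeFactors.2 (by omega)
  have hcard : (r.primeFactors.card : ℝ) ≤ s := by
    have h2 : r.primeFactors ⊆ Finset.Icc 1 s := by
      intro p hp
      rw [Nat.mem_primeFactors] at hp
      rw [Finset.mem_Icc]
      exact ⟨hp.1.one_lt.le, Nat.le_of_dvd (by omega) (hrs p hp.1 hp.2.1)⟩
    have h3 := card_le_card h2
    rw [Nat.card_Icc] at h3
    have h4 : r.primeFactors.card ≤ s := by omega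
    exact_mod_cast h4
  have hL : 0 ≤ Real.log r := Real.log_nonneg (by exact_mod_cast (by omega : 1 ≤ r))
  have hsr : (0 : ℝ) < s := by exact_mod_cast hs
  have h2 : ∑ p ∈ r.primeFactors, (Real.log r / s) ≤
      ∑ p ∈ r.primeFactors, ((r.factorization p : ℝ) * Real.log p) := by
    rw [sum_const, nsmul_eq_mul]
    calc (r.primeFactors.card : ℝ) * (Real.log r / s) ≤ s * (Real.log r / s) := by
          gcongr
      _ = Real.log r := by field_simp
      _ ≤ _ := by
          conv_lhs => rw [h1]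
          exact le_of_eq rfl
  obtain ⟨p, hp, hpl⟩ := Finset.exists_le_of_sum_le hne h2
  rw [Nat.mem_primeFactors] at hp
  refine ⟨p, hp.1, hp.2.1, ?_⟩
  rw [div_le_iff₀ hsr] at hpl
  have hps : p ≤ s := Nat.le_of_dvd (by omega) (hrs p hp.1 hp.2.1)
  have h3 : Real.log p ≤ s := by
    have hp0 : (0 : ℝ) < p := by exact_mod_cast hp.1.pos
    have := Real.log_le_sub_one_of_pos hp0
    have h4 : (p : ℝ) ≤ s := by exact_mod_cast hps
    linarith
  calc Real.log r ≤ (r.factorization p : ℝ) * Real.log p * s := hpl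
    _ ≤ (r.factorization p : ℝ) * s * s := by gcongr
    _ = _ := by ring

/-- the exponential sums along `c B ^ n / r` -/
theorem sum_small {b s t₀ m r k p f h₀ N : ℕ} {c : ℤ} (hb : 2 ≤ b) (ht : 1 ≤ t₀) (hm : 1 ≤ m)
    (hr : 1 ≤ r) (h1 : ∀ p : ℕ, p.Prime → p ∣ s → p ∣ b ^ t₀ - 1) (h4 : 2 ∣ s → 4 ∣ b ^ t₀ - 1)
    (hrm : r ∣ m ^ (k + 2)) (hms : ∀ p : ℕ, p.Prime → p ∣ m → p ∣ s) (hp : p.Prime)
    (hps : p ∣ s) (hmp : (k + 2) * m.factorization p ≤ r.factorization p + (k + 1))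
    (hc : IsCoprime c (r : ℤ)) (hh : 1 ≤ h₀) (hN : 1 ≤ N)
    (hf : (k + 2) * (k * f + 1 + h₀ + (k + 1) * (b ^ t₀ + 1)) ≤ r.factorization p) :
    2 * ‖∑ n ∈ range N, e ((h₀ : ℝ) * (((b ^ (t₀ * m) : ℕ) : ℝ) ^ n * (c / r)))‖ ^ (2 ^ k) ≤
      (2 * (N : ℝ)) ^ (2 ^ k) * (m / (2 * N) + k * (1 / (p : ℝ) ^ f + 1 / N)) := by
  set B := b ^ (t₀ * m) with hBdef
  have hB : 2 ≤ B := hb.trans (Nat.le_self_pow (by positivity) b)
  set W := B - 1 with hW
  have hWr : (B : ℝ) - 1 = (W : ℝ) := by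
    rw [hW, Nat.cast_sub (by omega)]
    simp
  have hW0 : W ≠ 0 := by omega
  have hmW : m ∣ W := m_dvd_W hb ht hm h1 h4 hms
  have hrr : (0 : ℝ) < r := by exact_mod_cast hr
  set g : ℝ := (h₀ : ℝ) * (c / r) with hg
  have hsum : ∑ n ∈ range N, e ((h₀ : ℝ) * ((B : ℝ) ^ n * (c / r))) =
      ∑ n ∈ range N, e (g * (B : ℝ) ^ n) :=
    sum_congr rfl fun n _ => by congr 1; rw [hg]; ring
  rw [hsum]
  have hpB : p ∣ B - 1 := by
    have h5 := h1 p hp hps
    rw [hBdef, pow_mul]
    exact h5.trans (dvd_sub_one_pow _ _)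
  have h4B : p = 2 → 4 ∣ B - 1 := by
    intro h2
    have h5 := h4 (h2 ▸ hps)
    rw [hBdef, pow_mul]
    exact h5.trans (dvd_sub_one_pow _ _)
  have hi1 : ∃ z : ℤ, g * ((B : ℝ) - 1) ^ (k + 2) = z := by
    obtain ⟨y, hy⟩ := hrm.trans (pow_dvd_pow_of_dvd hmW (k + 2))
    refine ⟨h₀ * c * y, ?_⟩
    rw [hWr]
    have h5 : (W : ℝ) ^ (k + 2) = r * y := by exact_mod_cast hy
    rw [h5, hg]
    push_cast
    field_simp
  have hi2 : ∃ z : ℤ, (m : ℝ) * (g * ((B : ℝ) - 1) ^ (k + 1)) = z := by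
    have h5 : r ∣ m * W ^ (k + 1) := by
      refine hrm.trans ?_
      rw [pow_succ, mul_comm]
      exact mul_dvd_mul_left m (pow_dvd_pow_of_dvd hmW (k + 1))
    obtain ⟨y, hy⟩ := h5
    refine ⟨h₀ * c * y, ?_⟩
    rw [hWr]
    have h6 : (m : ℝ) * (W : ℝ) ^ (k + 1) = r * y := by exact_mod_cast hy
    rw [hg]
    calc (m : ℝ) * ((h₀ : ℝ) * (c / r) * (W : ℝ) ^ (k + 1)) =
          (h₀ : ℝ) * (c / r) * ((m : ℝ) * (W : ℝ) ^ (k + 1)) := by ring
      _ = _ := by
          rw [h6]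
          push_cast
          field_simp
  have hmain := main_sum hN (by omega : 1 ≤ B) hm k g hi1 hi2 N le_rfl
  refine hmain.trans ?_
  refine mul_le_mul_of_nonneg_left ?_ (by positivity)
  have hbad := bad_le (N := N) (B := B) (p := p) (f := f) hN hp hB hpB h4B k g (by
    intro z hz
    obtain ⟨y, hy⟩ := hz
    rcases Nat.eq_zero_or_pos z with hz0 | hz0
    · rw [hz0]; exact dvd_zero _
    rw [hWr] at hy
    have h5 : ((z * h₀ * W ^ (k + 1) : ℕ) : ℤ) * c = y * r := by
      have h6 : ((z : ℝ) * h₀ * (W : ℝ) ^ (k + 1)) * c = y * r := by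
        rw [← hy, hg]
        field_simp
      exact_mod_cast h6
    have h6 : (r : ℤ) ∣ ((z * h₀ * W ^ (k + 1) : ℕ) : ℤ) * c := ⟨y, by rw [h5]; ring⟩
    have h7 : (r : ℤ) ∣ ((z * h₀ * W ^ (k + 1) : ℕ) : ℤ) := hc.symm.dvd_of_dvd_mul_right h6
    have h8 : r ∣ z * h₀ * W ^ (k + 1) := by exact_mod_cast h7
    have h9 := (Nat.factorization_le_iff_dvd (by omega) (by positivity)).2 h8 p
    rw [Nat.factorization_mul (by positivity) (by positivity),
      Nat.factorization_mul (by omega) (by omega), Nat.factorization_pow] at h9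
    simp only [Finsupp.add_apply, Finsupp.smul_apply, smul_eq_mul] at h9
    have h10 : W.factorization p = (b ^ t₀ - 1).factorization p + m.factorization p :=
      W_fact hb ht hm hp (h1 p hp hps) (fun h => h4 (h ▸ hps))
    have h11 : h₀.factorization p < h₀ := Nat.factorization_lt p (by omega)
    have hbt : 2 ≤ b ^ t₀ := hb.trans (Nat.le_self_pow (by omega) b)
    have h12 : (b ^ t₀ - 1).factorization p < b ^ t₀ - 1 := Nat.factorization_lt p (by omega)
    have h13 : k * f + 1 ≤ z.factorization p := by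
      by_contra hcon
      push Not at hcon
      rw [h10] at h9
      set E := r.factorization p
      set κ := (b ^ t₀ - 1).factorization p
      set cm := m.factorization p
      set zp := z.factorization p
      set hp' := h₀.factorization p
      have h14 : κ ≤ b ^ t₀ := by omega
      have h15 : (k + 1) * κ ≤ (k + 1) * b ^ t₀ := Nat.mul_le_mul_left _ h14
      have h16 : E ≤ k * f + h₀ + (k + 1) * b ^ t₀ + (k + 1) * cm := by
        have : (k + 1) * (κ + cm) = (k + 1) * κ + (k + 1) * cm := by ring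
        omega
      have h17 : (k + 2) * E ≤ (k + 2) * (k * f + h₀ + (k + 1) * b ^ t₀) + (k + 1) * (E + (k + 1)) := by
        calc (k + 2) * E ≤ (k + 2) * (k * f + h₀ + (k + 1) * b ^ t₀ + (k + 1) * cm) :=
              Nat.mul_le_mul_left _ h16
          _ = (k + 2) * (k * f + h₀ + (k + 1) * b ^ t₀) + (k + 1) * ((k + 2) * cm) := by ring
          _ ≤ _ := by
              have := Nat.mul_le_mul_left (k + 1) hmp
              omega
      nlinarith
    rw [hp.pow_dvd_iff_le_factorization (by omega)]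
    exact h13)
  linarith

end Pool.Agent.X188.FU
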