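import Pool.Agent.X188.FU3
import Pool.Agent.Y943.Fu.Dens

/-! Asymptotics. -/

set_option autoImplicit false

namespace Pool.Agent.X188.FU

open Finset
open Pool.Agent.H332R2.Lit (e)

theorem growth (C : ℕ) : ∃ k₀ : ℕ, ∀ k ≥ k₀, C * (k + 2) ^ 3 ≤ 2 ^ k := by
  have h1 := tendsto_pow_const_div_const_pow_of_one_lt 3 (show (1 : ℝ) < 2 by norm_num)
  have h2 := (h1.eventually (gt_mem_nhds (show (0 : ℝ) < 1 / (4 * (C + 1)) by positivity)))
  obtain ⟨N, hN⟩ := Filter.eventually_atTop.1 h2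
  refine ⟨N, fun k hk => ?_⟩
  have h3 := hN (k + 2) (by omega)
  rw [div_lt_div_iff₀ (by positivity) (by positivity), one_mul] at h3
  have h4 : ((k + 2) ^ 3 * (4 * (C + 1)) : ℕ) < 2 ^ (k + 2) := by exact_mod_cast h3
  have h5 : 2 ^ (k + 2) = 4 * 2 ^ k := by rw [pow_add]; ring
  have h6 : (k + 2) ^ 3 * (4 * (C + 1)) = 4 * (C * (k + 2) ^ 3) + 4 * (k + 2) ^ 3 := by ring
  omega

/-- the numerical inequality -/
theorem numer {k C3 a : ℕ} {L : ℝ} (hk : 1 ≤ k) (h1 : (4 : ℝ) ^ k ≤ L) (h2 : L < 4 ^ (k + 1))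
    (h3 : 10 * (k + 1) * (C3 + 2 * k + 1 + a * 2 ^ k) ≤ 4 ^ k) :
    (C3 : ℝ) + 2 * k + 1 + a * 2 ^ k + 2 * L / (k + 2) ≤ 3 * L / Real.log L := by
  have h4k : (4 : ℝ) ≤ 4 ^ k := by
    calc (4 : ℝ) = 4 ^ 1 := by norm_num
      _ ≤ 4 ^ k := pow_le_pow_right₀ (by norm_num) hk
  have hL : 0 < L := by linarith
  have hlog0 : 0 < Real.log L := Real.log_pos (by linarith)
  have hlog : Real.log L ≤ (k + 1) * 1.4 := by
    have h5 : Real.log L ≤ Real.log (4 ^ (k + 1)) := Real.log_le_log hL h2.le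
    rw [Real.log_pow, show (4 : ℝ) = 2 ^ 2 by norm_num, Real.log_pow] at h5
    have h6 := Real.log_two_lt_d9
    push_cast at h5
    have h7 : (0 : ℝ) ≤ k := Nat.cast_nonneg k
    nlinarith
  have h5 : 2 * L / (k + 2) ≤ 2.8 * L / Real.log L := by
    rw [div_le_div_iff₀ (by positivity) hlog0]
    have h7 : (0 : ℝ) ≤ k := Nat.cast_nonneg k
    have h8 : 2 * L * Real.log L ≤ 2 * L * ((k + 1) * 1.4) := by gcongr
    nlinarith
  have h6 : (C3 : ℝ) + 2 * k + 1 + a * 2 ^ k ≤ 0.2 * L / Real.log L := by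
    rw [le_div_iff₀ hlog0]
    have h7 : (0 : ℝ) ≤ (C3 : ℝ) + 2 * k + 1 + a * 2 ^ k := by positivity
    have h8 : (10 * (k + 1) * (C3 + 2 * k + 1 + a * 2 ^ k) : ℝ) ≤ 4 ^ k := by exact_mod_cast h3
    have h9 : ((C3 : ℝ) + 2 * k + 1 + a * 2 ^ k) * Real.log L ≤
        ((C3 : ℝ) + 2 * k + 1 + a * 2 ^ k) * ((k + 1) * 1.4) := by gcongr
    nlinarith
  have h7 : 3 * L / Real.log L = 0.2 * L / Real.log L + 2.8 * L / Real.log L := by
    rw [← add_div]
    congr 1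
    ring
  rw [h7]
  linarith

/-- density of the orbit of `c / r` in a short time -/
theorem main_dense {b s : ℕ} (hb : 2 ≤ b) (hs : 1 ≤ s) (hbs : Nat.Coprime b s) {ε : ℝ} (hε : 0 < ε) :
    ∃ R : ℕ, ∀ (r : ℕ) (c : ℤ), R ≤ r → (∀ p : ℕ, p.Prime → p ∣ r → p ∣ s) → IsCoprime c (r : ℤ) →
      ∀ y : ℝ, ∃ (n : ℕ) (z : ℤ), |(b : ℝ) ^ n * (c / r) - y - z| < ε ∧
        (b : ℝ) ^ n * Real.exp (-Real.exp (3 * Real.log r / Real.log (Real.log r))) ≤ ε := by
  obtain ⟨K, η, hη, hη1, hdense⟩ := Pool.Agent.Y943.Fu.dense_of_sums ε hε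
  obtain ⟨t₀, ht₀, hd1, hd4⟩ := exists_t0 hb hs hbs
  obtain ⟨a, ha⟩ := exists_nat_gt (2 / η)
  have ha2 : 2 / η ≤ (2 : ℝ) ^ a := by
    refine ha.le.trans ?_
    exact_mod_cast Nat.lt_two_pow_self.le
  obtain ⟨cε, hcε⟩ := exists_nat_gt (-Real.log ε)
  set κ := b ^ t₀ with hκ
  set C3 := t₀ + 2 * s + b + cε + 1 with hC3
  set C := 2 * s * s * (K + κ + 2 + a) + 10 * (C3 + 2 + a) with hC
  obtain ⟨k₀, hk₀⟩ := growth C
  obtain ⟨R, hR⟩ := exists_nat_gt (Real.exp (4 ^ (k₀ + 1)))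
  refine ⟨max R 2, fun r c hr hrs hc => ?_⟩
  have hr2 : 2 ≤ r := (le_max_right _ _).trans hr
  have hrR : (R : ℝ) ≤ r := by exact_mod_cast (le_max_left _ _).trans hr
  have hrr : (0 : ℝ) < r := by exact_mod_cast (by omega : 0 < r)
  set L := Real.log r with hL
  have hL1 : (4 : ℝ) ^ (k₀ + 1) ≤ L := by
    rw [hL, Real.le_log_iff_exp_le hrr]
    linarith
  have h41 : (1 : ℝ) ≤ 4 ^ (k₀ + 1) := one_le_pow₀ (by norm_num)
  obtain ⟨k, hk1, hk2⟩ := exists_nat_pow_near (h41.trans hL1) (show (1 : ℝ) < 4 by norm_num)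
  have hkk : k₀ + 1 ≤ k := by
    have h5 : (4 : ℝ) ^ (k₀ + 1) < 4 ^ (k + 1) := hL1.trans_lt hk2
    have h6 := (pow_lt_pow_iff_right₀ (show (1 : ℝ) < 4 by norm_num)).1 h5
    omega
  have hgr := hk₀ k (by omega)
  have h4k : (4 : ℕ) ^ k = 2 ^ k * 2 ^ k := by rw [← mul_pow]; norm_num
  have h2k : 1 ≤ 2 ^ k := Nat.one_le_two_pow
  obtain ⟨m, hm1, hrm, hmr, hms, hmp⟩ := exists_root (k + 1) (by omega : 1 ≤ r) hs hrs
  obtain ⟨p, hp, hpr, hpL⟩ := exists_big hr2 hs hrs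
  have hps := hrs p hp hpr
  set E := r.factorization p with hE
  have hE1 : 4 ^ k ≤ s * s * E := by
    have : ((4 ^ k : ℕ) : ℝ) ≤ ((s * s * E : ℕ) : ℝ) := by
      push_cast
      exact hk1.trans hpL
    exact_mod_cast this
  -- consequences of the growth condition
  have hE2 : 2 * (k + 2) ^ 2 * (K + κ + 2) ≤ E := by
    by_contra hcon
    push Not at hcon
    have h5 : s * s * E < s * s * (2 * (k + 2) ^ 2 * (K + κ + 2)) :=
      Nat.mul_lt_mul_of_pos_left hcon (by positivity)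
    have h6 : s * s * (2 * (k + 2) ^ 2 * (K + κ + 2)) ≤ C * (k + 2) ^ 3 := by
      have h7 : 2 * s * s * (K + κ + 2) ≤ C := by
        rw [hC]
        have : 2 * s * s * (K + κ + 2) ≤ 2 * s * s * (K + κ + 2 + a) :=
          Nat.mul_le_mul_left _ (by omega)
        omega
      calc s * s * (2 * (k + 2) ^ 2 * (K + κ + 2)) = 2 * s * s * (K + κ + 2) * (k + 2) ^ 2 := by ring
        _ ≤ C * (k + 2) ^ 3 := Nat.mul_le_mul h7 (Nat.pow_le_pow_right (by omega) (by norm_num))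
    have h7 : 2 ^ k ≤ 2 ^ k * 2 ^ k := Nat.le_mul_of_pos_left _ h2k
    omega
  have hE3 : 2 * (k + 2) ^ 2 * (1 + k + a * 2 ^ k) ≤ E := by
    by_contra hcon
    push Not at hcon
    have h5 : s * s * E < s * s * (2 * (k + 2) ^ 2 * (1 + k + a * 2 ^ k)) :=
      Nat.mul_lt_mul_of_pos_left hcon (by positivity)
    have h6 : 1 + k + a * 2 ^ k ≤ (k + 2) * (1 + a) * 2 ^ k := by
      have h8 : (1 + k) * 1 ≤ (1 + k) * 2 ^ k := Nat.mul_le_mul_left _ h2k
      nlinarith [Nat.zero_le (a * 2 ^ k), Nat.zero_le (k * (a * 2 ^ k))]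
    have h7 : 2 * s * s * (1 + a) ≤ C := by
      rw [hC]
      have : 2 * s * s * (1 + a) ≤ 2 * s * s * (K + κ + 2 + a) :=
        Nat.mul_le_mul_left _ (by omega)
      omega
    have h8 : s * s * (2 * (k + 2) ^ 2 * (1 + k + a * 2 ^ k)) ≤ 4 ^ k := by
      calc s * s * (2 * (k + 2) ^ 2 * (1 + k + a * 2 ^ k)) ≤
            s * s * (2 * (k + 2) ^ 2 * ((k + 2) * (1 + a) * 2 ^ k)) := by gcongr
        _ = (2 * s * s * (1 + a)) * (k + 2) ^ 3 * 2 ^ k := by ring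
        _ ≤ C * (k + 2) ^ 3 * 2 ^ k := by gcongr
        _ ≤ 2 ^ k * 2 ^ k := by gcongr
        _ = 4 ^ k := h4k.symm
    omega
  have hnum3 : 10 * (k + 1) * (C3 + 2 * k + 1 + a * 2 ^ k) ≤ 4 ^ k := by
    have h6 : C3 + 2 * k + 1 + a * 2 ^ k ≤ (k + 2) * (C3 + 2 + a) * 2 ^ k := by
      have h8 : (C3 + 2 * k + 1) * 1 ≤ (C3 + 2 * k + 1) * 2 ^ k := Nat.mul_le_mul_left _ h2k
      nlinarith [Nat.zero_le (a * 2 ^ k), Nat.zero_le (k * (a * 2 ^ k)), Nat.zero_le (C3 * 2 ^ k),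
        Nat.zero_le (k * (C3 * 2 ^ k))]
    calc 10 * (k + 1) * (C3 + 2 * k + 1 + a * 2 ^ k) ≤
          10 * (k + 2) * ((k + 2) * (C3 + 2 + a) * 2 ^ k) := by gcongr; omega
      _ = (10 * (C3 + 2 + a)) * (k + 2) ^ 2 * 2 ^ k := by ring
      _ ≤ C * (k + 2) ^ 3 * 2 ^ k := by
          gcongr
          · rw [hC]; exact Nat.le_add_left _ _
          · omega
          · norm_num
      _ ≤ 2 ^ k * 2 ^ k := by gcongr
      _ = 4 ^ k := h4k.symm
  set f := E / (2 * (k + 2) ^ 2) with hf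
  have hfE : 2 * (k + 2) ^ 2 * f ≤ E := Nat.mul_div_le _ _
  have hff : 1 + k + a * 2 ^ k ≤ f := by
    rw [hf, Nat.le_div_iff_mul_le (by positivity), mul_comm]
    exact hE3
  set A := 2 ^ (a * 2 ^ k) with hA
  have hA1 : 1 ≤ A := Nat.one_le_two_pow
  have hpf : 2 * 2 ^ k * A ≤ p ^ f := by
    calc 2 * 2 ^ k * A = 2 ^ (1 + k + a * 2 ^ k) := by rw [hA, pow_add, pow_add]; ring
      _ ≤ 2 ^ f := Nat.pow_le_pow_right (by norm_num) hff
      _ ≤ p ^ f := Nat.pow_le_pow_left hp.two_le f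
  set N := m * (2 * k + 1) * A with hN
  have hN1 : 1 ≤ N := by rw [hN]; exact Nat.one_le_iff_ne_zero.2 (by positivity)
  have hNr : (0 : ℝ) < N := by exact_mod_cast hN1
  have hAr : (0 : ℝ) < A := by exact_mod_cast hA1
  have hmr0 : (0 : ℝ) < m := by exact_mod_cast hm1
  have hfrac : (m : ℝ) / (2 * N) + k * (1 / (p : ℝ) ^ f + 1 / N) ≤ 2 / A := by
    have g1 : (m : ℝ) / (2 * N) ≤ 1 / (2 * A) := by
      rw [div_le_div_iff₀ (by positivity) (by positivity), hN]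
      push_cast
      have h7 : (0 : ℝ) ≤ k := Nat.cast_nonneg k
      have h8 : 0 ≤ (m : ℝ) * k * A := by positivity
      nlinarith
    have g2 : (k : ℝ) * (1 / (p : ℝ) ^ f) ≤ 1 / (2 * A) := by
      rw [mul_one_div, div_le_div_iff₀ (by have := hp.pos; positivity) (by positivity)]
      have h7 : (k : ℝ) ≤ 2 ^ k := by exact_mod_cast Nat.lt_two_pow_self.le
      have h8 : (2 * 2 ^ k * A : ℝ) ≤ (p : ℝ) ^ f := by exact_mod_cast hpf
      calc (k : ℝ) * (2 * A) ≤ 2 ^ k * (2 * A) := by gcongr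
        _ = 2 * 2 ^ k * A := by ring
        _ ≤ 1 * (p : ℝ) ^ f := by rw [one_mul]; exact h8
    have g3 : (k : ℝ) * (1 / N) ≤ 1 / (2 * A) := by
      rw [mul_one_div, div_le_div_iff₀ hNr (by positivity), hN]
      push_cast
      have h7 : (0 : ℝ) ≤ k := Nat.cast_nonneg k
      have h8 : (1 : ℝ) ≤ m := by exact_mod_cast hm1
      have h9 : 1 * ((2 * (k : ℝ) + 1) * A) ≤ m * ((2 * (k : ℝ) + 1) * A) := by gcongr
      nlinarith
    have g4 : (2 : ℝ) / A = 1 / (2 * A) + 1 / (2 * A) + 1 / (2 * A) + 1 / (2 * A) := by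
      field_simp
      norm_num
    have g5 : (0 : ℝ) < 1 / (2 * A) := by positivity
    rw [mul_add, g4]
    linarith
  -- the exponential sums
  have hsums : ∀ h : ℕ, 1 ≤ h → h ≤ K →
      ‖∑ l ∈ range N, e ((h : ℝ) * (((b ^ (t₀ * m) : ℕ) : ℝ) ^ l * (c / r)))‖ ≤ η * N := by
    intro h hh1 hhK
    have h5 := sum_small (f := f) hb ht₀ hm1 (by omega : 1 ≤ r) hd1 hd4 hrm hms hp hps (hmp p) hc hh1 hN1 (by
      have h6 : (k + 2) * (k * f + 1 + h + (k + 1) * (b ^ t₀ + 1)) ≤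
          (k + 2) ^ 2 * f + (k + 2) ^ 2 * (K + κ + 2) := by
        rw [← hκ]
        have h7 : k * f ≤ (k + 2) * f := Nat.mul_le_mul_right f (by omega)
        have h8 : 1 + h + (k + 1) * (κ + 1) ≤ (k + 2) * (K + κ + 2) := by
          nlinarith [Nat.zero_le (k * K), Nat.zero_le k]
        calc (k + 2) * (k * f + 1 + h + (k + 1) * (κ + 1)) ≤
              (k + 2) * ((k + 2) * f + (k + 2) * (K + κ + 2)) := by
                apply Nat.mul_le_mul_left
                omega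
          _ = _ := by ring
      have h7 : 2 * ((k + 2) ^ 2 * f) ≤ E := by rw [← mul_assoc]; exact hfE
      have h8 : 2 * ((k + 2) ^ 2 * (K + κ + 2)) ≤ E := by rw [← mul_assoc]; exact hE2
      omega)
    set S := ‖∑ l ∈ range N, e ((h : ℝ) * (((b ^ (t₀ * m) : ℕ) : ℝ) ^ l * (c / r)))‖ with hS
    have h6 : S ^ (2 ^ k) ≤ (η * N) ^ (2 ^ k) := by
      have h7 : 2 * S ^ (2 ^ k) ≤ (2 * (N : ℝ)) ^ (2 ^ k) * (2 / A) :=
        h5.trans (mul_le_mul_of_nonneg_left hfrac (by positivity))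
      have h8 : S ^ (2 ^ k) ≤ (2 * (N : ℝ)) ^ (2 ^ k) / A := by
        have : (2 * (N : ℝ)) ^ (2 ^ k) * (2 / A) = 2 * ((2 * (N : ℝ)) ^ (2 ^ k) / A) := by ring
        linarith
      have h9 : (A : ℝ) = ((2 : ℝ) ^ a) ^ (2 ^ k) := by
        rw [hA, ← pow_mul]
        push_cast
        rfl
      have h10 : (2 * (N : ℝ)) ^ (2 ^ k) / A = (2 * N / 2 ^ a) ^ (2 ^ k) := by
        rw [h9, div_pow]
      rw [h10] at h8
      refine h8.trans (pow_le_pow_left₀ (by positivity) ?_ _)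
      rw [div_le_iff₀ (by positivity)]
      rw [div_le_iff₀ hη] at ha2
      nlinarith
    exact (pow_le_pow_iff_left₀ (norm_nonneg _) (by positivity) (by positivity)).1 h6
  have hcomp := hdense N (fun l => ((b ^ (t₀ * m) : ℕ) : ℝ) ^ l * (c / r)) hN1 hsums
  intro y
  obtain ⟨l, hl, z, hz⟩ := hcomp y
  refine ⟨t₀ * m * l, z, ?_, ?_⟩
  · have h5 : (b : ℝ) ^ (t₀ * m * l) = ((b ^ (t₀ * m) : ℕ) : ℝ) ^ l := by
      push_cast
      rw [← pow_mul]
    rw [h5]
    exact hz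
  · -- the length
    have hbr : (1 : ℝ) ≤ b := by exact_mod_cast (by omega : 1 ≤ b)
    have hb0 : (0 : ℝ) < b := by linarith
    have hlogm : Real.log m ≤ L / (k + 2) + s := by
      have h5 : m ^ (k + 1 + 1) ≤ r * s ^ (k + 1) := Nat.le_of_dvd (by positivity) hmr
      have h6 : m ^ (k + 2) ≤ r * s ^ (k + 2) := by
        refine h5.trans (Nat.mul_le_mul_left _ (Nat.pow_le_pow_right (by omega) (by omega)))
      have hsr : (0 : ℝ) < s := by exact_mod_cast hs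
      have h7 : ((m : ℝ)) ^ (k + 2) ≤ r * (s : ℝ) ^ (k + 2) := by exact_mod_cast h6
      have h8 := Real.log_le_log (by positivity) h7
      rw [Real.log_mul (by positivity) (by positivity), Real.log_pow, Real.log_pow] at h8
      push_cast at h8
      have h9 : Real.log s ≤ s := (Real.log_le_sub_one_of_pos hsr).trans (by linarith)
      have hk20 : (0 : ℝ) < (k : ℝ) + 2 := by positivity
      rw [div_add' _ _ _ hk20.ne', le_div_iff₀ hk20]
      nlinarith
    have h5 : (t₀ * m * l : ℕ) * Real.log b ≤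
        Real.exp (t₀ + 2 * s + b + 2 * k + 1 + a * 2 ^ k + 2 * L / (k + 2)) := by
      have g1 : ((t₀ * m * l : ℕ) : ℝ) ≤ t₀ * m * N := by
        have : t₀ * m * l ≤ t₀ * m * N := Nat.mul_le_mul_left _ hl.le
        exact_mod_cast this
      have g2 : (t₀ : ℝ) ≤ Real.exp t₀ := by linarith [Real.add_one_le_exp (t₀ : ℝ)]
      have g3 : Real.log b ≤ Real.exp b := by
        have := Real.log_le_sub_one_of_pos hb0
        linarith [Real.add_one_le_exp (b : ℝ)]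
      have g4 : (m : ℝ) ≤ Real.exp (L / (k + 2) + s) := by
        rw [← Real.exp_log hmr0]
        exact Real.exp_le_exp.2 hlogm
      have g5 : (2 * k + 1 : ℝ) ≤ Real.exp (2 * k + 1) := by
        linarith [Real.add_one_le_exp (2 * k + 1 : ℝ)]
      have g6 : (A : ℝ) ≤ Real.exp (a * 2 ^ k) := by
        have h6 : (2 : ℝ) ≤ Real.exp 1 := by linarith [Real.add_one_le_exp (1 : ℝ)]
        calc (A : ℝ) = (2 : ℝ) ^ (a * 2 ^ k) := by rw [hA]; push_cast; rfl
          _ ≤ (Real.exp 1) ^ (a * 2 ^ k) := by gcongr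
          _ = Real.exp (a * 2 ^ k) := by
              rw [← Real.exp_nat_mul, mul_one]
              push_cast
              rfl
      have hlogb : 0 ≤ Real.log b := Real.log_nonneg hbr
      calc (t₀ * m * l : ℕ) * Real.log b ≤ (t₀ * m * N) * Real.log b := by gcongr
        _ = t₀ * m * (m * (2 * k + 1) * A) * Real.log b := by rw [hN]; push_cast; ring
        _ ≤ Real.exp t₀ * Real.exp (L / (k + 2) + s) * (Real.exp (L / (k + 2) + s) *
              Real.exp (2 * k + 1) * Real.exp (a * 2 ^ k)) * Real.exp b := by gcongr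
        _ = _ := by
            rw [← Real.exp_add, ← Real.exp_add, ← Real.exp_add, ← Real.exp_add, ← Real.exp_add]
            congr 1
            ring
    have hnum := numer (by omega : 1 ≤ k) hk1 hk2 hnum3
    set X : ℝ := t₀ + 2 * s + b + 2 * k + 1 + a * 2 ^ k + 2 * L / (k + 2) with hX
    have h6 : X + cε + 1 ≤ 3 * L / Real.log L := by
      refine le_trans (le_of_eq ?_) hnum
      rw [hX, hC3]
      push_cast
      ring
    have hX0 : 0 ≤ X := by
      rw [hX]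
      have : 0 ≤ L := by linarith
      positivity
    clear_value X
    have h7 : Real.exp X + cε ≤ Real.exp (3 * L / Real.log L) := by
      refine le_trans ?_ (Real.exp_le_exp.2 h6)
      rw [Real.exp_add, Real.exp_add]
      have g1 : (1 : ℝ) ≤ Real.exp X := Real.one_le_exp hX0
      have g2 : (cε : ℝ) + 1 ≤ Real.exp cε := Real.add_one_le_exp _
      have g3 : (2 : ℝ) ≤ Real.exp 1 := by linarith [Real.add_one_le_exp (1 : ℝ)]
      have g4 : (0 : ℝ) ≤ cε := Nat.cast_nonneg _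
      have g5 : Real.exp X * (cε + 1) ≤ Real.exp X * Real.exp cε := by gcongr
      have g6 : Real.exp X * Real.exp cε * 1 ≤ Real.exp X * Real.exp cε * Real.exp 1 := by
        gcongr
        linarith
      nlinarith
    have h8 : (b : ℝ) ^ (t₀ * m * l) = Real.exp ((t₀ * m * l : ℕ) * Real.log b) := by
      rw [Real.exp_nat_mul, Real.exp_log hb0]
    rw [h8, ← Real.exp_add]
    have h9 : Real.log ε ≥ -cε := by linarith
    have h10 : ((t₀ * m * l : ℕ) : ℝ) * Real.log b + -Real.exp (3 * L / Real.log L) ≤ Real.log ε := by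
      linarith
    calc Real.exp (((t₀ * m * l : ℕ) : ℝ) * Real.log b + -Real.exp (3 * L / Real.log L)) ≤
          Real.exp (Real.log ε) := Real.exp_le_exp.2 h10
      _ = ε := Real.exp_log hε

end Pool.Agent.X188.FU
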