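import Mathlib

/-! Hilbert C*-modules (Mathlib's `CStarModule`): ternary subspaces, compact operators, reduced
linking algebras.

Mathlib's `CStarModule A E` is written with a left action: `⟪x, a • y⟫ = a * ⟪x, y⟫`.  A right Hilbert
`B`-module is the same thing as a `CStarModule A E` with `A = Bᵐᵒᵖ`; the element `x ⟨y, z⟩` of the
right-module notation is `inner A y z • x` here. -/

namespace Pool.Agent.X188.HM

section basics

variable {A E : Type*} [NonUnitalCStarAlgebra A] [PartialOrder A] [StarOrderedRing A]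
  [NormedAddCommGroup E] [NormedSpace ℂ E] [SMul A E] [CStarModule A E]

variable (A) in
omit [StarOrderedRing A] in
lemma ext_in {u v : E} (h : ∀ w : E, inner A w u = inner A w v) : u = v := by
  have h1 : inner A (u - v) (u - v) = 0 := by
    rw [CStarModule.inner_sub_right, h, sub_self]
  exact sub_eq_zero.mp (CStarModule.inner_self.mp h1)

omit [StarOrderedRing A] in
lemma a_add (a : A) (x y : E) : a • (x + y) = a • x + a • y :=
  ext_in A fun w => by simp [mul_add]

omit [StarOrderedRing A] in
lemma add_a (a b : A) (x : E) : (a + b) • x = a • x + b • x :=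
  ext_in A fun w => by simp [add_mul]

omit [StarOrderedRing A] in
lemma mul_a (a b : A) (x : E) : (a * b) • x = a • (b • x) :=
  ext_in A fun w => by simp [mul_assoc]

omit [StarOrderedRing A] in
lemma c_a (c : ℂ) (a : A) (x : E) : (c • a) • x = c • (a • x) :=
  ext_in A fun w => by simp [smul_mul_assoc]

omit [StarOrderedRing A] in
lemma a_c (c : ℂ) (a : A) (x : E) : a • (c • x) = c • (a • x) :=
  ext_in A fun w => by simp [mul_smul_comm]

omit [StarOrderedRing A] in
lemma a_zero (a : A) : a • (0 : E) = 0 :=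
  ext_in A fun w => by simp

omit [StarOrderedRing A] in
lemma zero_a (x : E) : (0 : A) • x = 0 :=
  ext_in A fun w => by simp

omit [StarOrderedRing A] in
lemma norm_a_le (a : A) (x : E) : ‖a • x‖ ≤ ‖a‖ * ‖x‖ := by
  have h1 : ‖a • x‖ ^ 2 ≤ (‖a‖ * ‖x‖) ^ 2 := by
    rw [CStarModule.norm_sq_eq A (x := a • x), CStarModule.inner_op_smul_right,
      CStarModule.inner_op_smul_left, mul_pow, CStarModule.norm_sq_eq A (x := x)]
    calc ‖a * (inner A x x * star a)‖ ≤ ‖a‖ * ‖inner A x x * star a‖ := norm_mul_le _ _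
      _ ≤ ‖a‖ * (‖inner A x x‖ * ‖star a‖) := by
          gcongr; exact norm_mul_le _ _
      _ = ‖a‖ ^ 2 * ‖inner A x x‖ := by rw [norm_star]; ring
  exact (sq_le_sq₀ (norm_nonneg _) (by positivity)).mp h1

variable (A) in
/-- The rank-one operator `z ↦ x ⟨y, z⟩`. -/
noncomputable def rankOne (x y : E) : E →L[ℂ] E :=
  LinearMap.mkContinuous
    { toFun := fun z => inner A y z • x
      map_add' := fun z w => by rw [CStarModule.inner_add_right, add_a]
      map_smul' := fun c z => by rw [CStarModule.inner_smul_right_complex, c_a]; rfl }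
    (‖x‖ * ‖y‖) fun z => by
      change ‖inner A y z • x‖ ≤ _
      refine (norm_a_le _ _).trans ?_
      have := CStarModule.norm_inner_le (A := A) E (x := y) (y := z)
      calc ‖inner A y z‖ * ‖x‖ ≤ (‖y‖ * ‖z‖) * ‖x‖ := by gcongr
        _ = ‖x‖ * ‖y‖ * ‖z‖ := by ring

lemma rankOne_apply (x y z : E) : rankOne A x y z = inner A y z • x := rfl

variable (A) in
/-- A closed ternary subspace: a norm-closed subspace `F` with `x ⟨y, z⟩ ∈ F` for `x, y, z ∈ F`. -/
structure IsClosedTernary (F : Submodule ℂ E) : Prop where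
  /-- `F` is closed -/
  closed : IsClosed (F : Set E)
  /-- `x ⟨y, z⟩ ∈ F` -/
  tern : ∀ x ∈ F, ∀ y ∈ F, ∀ z ∈ F, inner A y z • x ∈ F

variable (A) in
/-- The closed span `B_F` of `⟨F, F⟩`. -/
noncomputable def innerSpan (F : Submodule ℂ E) : Submodule ℂ A :=
  (Submodule.span ℂ {a | ∃ x ∈ F, ∃ y ∈ F, a = inner A x y}).topologicalClosure

variable (A) in
/-- `K(F)`: the closed span of the rank-one operators `z ↦ x ⟨y, z⟩` with `x, y ∈ F`. -/
noncomputable def compacts (F : Submodule ℂ E) : Submodule ℂ (E →L[ℂ] E) :=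
  (Submodule.span ℂ {k | ∃ x ∈ F, ∃ y ∈ F, k = rankOne A x y}).topologicalClosure

/-- `a ↦ a • v` -/
noncomputable def actL (v : E) : A →L[ℂ] E :=
  LinearMap.mkContinuous
    { toFun := fun a => a • v
      map_add' := fun a b => add_a a b v
      map_smul' := fun c a => c_a c a v }
    ‖v‖ fun a => by
      change ‖a • v‖ ≤ _
      rw [mul_comm]; exact norm_a_le a v

omit [StarOrderedRing A] in
lemma actL_apply (v : E) (a : A) : actL v a = a • v := rfl

/-- `v ↦ a • v` -/
noncomputable def actR (a : A) : E →L[ℂ] E :=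
  LinearMap.mkContinuous
    { toFun := fun v => a • v
      map_add' := fun v w => a_add a v w
      map_smul' := fun c v => a_c c a v }
    ‖a‖ fun v => norm_a_le a v

omit [StarOrderedRing A] in
lemma actR_apply (v : E) (a : A) : actR a v = a • v := rfl

lemma inner_mem {F : Submodule ℂ E} {x y : E} (hx : x ∈ F) (hy : y ∈ F) :
    inner A x y ∈ innerSpan A F :=
  Submodule.le_topologicalClosure _ (Submodule.subset_span ⟨x, hx, y, hy, rfl⟩)

lemma rankOne_mem {F : Submodule ℂ E} {x y : E} (hx : x ∈ F) (hy : y ∈ F) :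
    rankOne A x y ∈ compacts A F :=
  Submodule.le_topologicalClosure _ (Submodule.subset_span ⟨x, hx, y, hy, rfl⟩)

lemma innerSpan_closed (F : Submodule ℂ E) : IsClosed (innerSpan A F : Set A) :=
  Submodule.isClosed_topologicalClosure _

lemma compacts_closed (F : Submodule ℂ E) : IsClosed (compacts A F : Set (E →L[ℂ] E)) :=
  Submodule.isClosed_topologicalClosure _

/-- induction on `B_F` -/
lemma innerSpan_ind {F : Submodule ℂ E} {G : Type*} [NormedAddCommGroup G] [NormedSpace ℂ G]
    (f : A →L[ℂ] G) {T : Submodule ℂ G} (hT : IsClosed (T : Set G))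
    (h : ∀ x ∈ F, ∀ y ∈ F, f (inner A x y) ∈ T) {a : A} (ha : a ∈ innerSpan A F) : f a ∈ T := by
  have h1 : innerSpan A F ≤ T.comap f.toLinearMap := by
    refine Submodule.topologicalClosure_minimal _ (Submodule.span_le.mpr ?_) (hT.preimage f.continuous)
    rintro _ ⟨x, hx, y, hy, rfl⟩
    exact h x hx y hy
  exact h1 ha

/-- induction on `K(F)` -/
lemma compacts_ind {F : Submodule ℂ E} {G : Type*} [NormedAddCommGroup G] [NormedSpace ℂ G]
    (f : (E →L[ℂ] E) →L[ℂ] G) {T : Submodule ℂ G} (hT : IsClosed (T : Set G))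
    (h : ∀ x ∈ F, ∀ y ∈ F, f (rankOne A x y) ∈ T) {k : E →L[ℂ] E} (hk : k ∈ compacts A F) :
    f k ∈ T := by
  have h1 : compacts A F ≤ T.comap f.toLinearMap := by
    refine Submodule.topologicalClosure_minimal _ (Submodule.span_le.mpr ?_) (hT.preimage f.continuous)
    rintro _ ⟨x, hx, y, hy, rfl⟩
    exact h x hx y hy
  exact h1 hk

lemma star_mem_innerSpan {F : Submodule ℂ E} {a : A} (ha : a ∈ innerSpan A F) :
    star a ∈ innerSpan A F := by
  let S : Submodule ℂ A :=
    { carrier := {a | star a ∈ innerSpan A F}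
      add_mem' := fun {a b} ha hb => by
        change star (a + b) ∈ innerSpan A F
        rw [star_add]; exact Submodule.add_mem _ ha hb
      zero_mem' := by
        change star (0 : A) ∈ innerSpan A F
        rw [star_zero]; exact Submodule.zero_mem _
      smul_mem' := fun c a ha => by
        change star (c • a) ∈ innerSpan A F
        rw [star_smul]; exact Submodule.smul_mem _ _ ha }
  have h1 : innerSpan A F ≤ S := by
    refine Submodule.topologicalClosure_minimal _ (Submodule.span_le.mpr ?_)
      ((innerSpan_closed F).preimage continuous_star)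
    rintro _ ⟨x, hx, y, hy, rfl⟩
    change star (inner A x y) ∈ innerSpan A F
    rw [CStarModule.star_inner]
    exact inner_mem hy hx
  exact h1 ha

/-- `k'` is an adjoint of `k` -/
def IsAdj (k k' : E →L[ℂ] E) : Prop := ∀ u v : E, inner A (k u) v = inner A u (k' v)

omit [StarOrderedRing A] in
lemma IsAdj.symm {k k' : E →L[ℂ] E} (h : IsAdj (A := A) k k') : IsAdj (A := A) k' k := by
  intro u v
  rw [← CStarModule.star_inner, ← h, CStarModule.star_inner]

lemma IsAdj.norm_le {k k' : E →L[ℂ] E} (h : IsAdj (A := A) k k') : ‖k'‖ ≤ ‖k‖ := by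
  refine ContinuousLinearMap.opNorm_le_bound _ (norm_nonneg _) fun v => ?_
  have h1 : ‖k' v‖ ^ 2 ≤ (‖k‖ * ‖k' v‖) * ‖v‖ := by
    rw [CStarModule.norm_sq_eq A (x := k' v), ← h]
    refine (CStarModule.norm_inner_le (A := A) E).trans ?_
    gcongr
    exact k.le_opNorm _
  rcases (norm_nonneg (k' v)).eq_or_lt with h0 | h0
  · rw [← h0]; positivity
  · have : ‖k' v‖ * ‖k' v‖ ≤ (‖k‖ * ‖v‖) * ‖k' v‖ := by nlinarith
    exact le_of_mul_le_mul_right this h0

lemma rankOne_adj (x y : E) : IsAdj (A := A) (rankOne A x y) (rankOne A y x) := by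
  intro u v
  rw [rankOne_apply, rankOne_apply, CStarModule.inner_op_smul_left,
    CStarModule.inner_op_smul_right, CStarModule.star_inner]

/-- elements of `K(F)` have adjoints in `K(F)` -/
lemma exists_adj [CompleteSpace E] {F : Submodule ℂ E} {k : E →L[ℂ] E} (hk : k ∈ compacts A F) :
    ∃ k' ∈ compacts A F, IsAdj (A := A) k k' := by
  let S : Submodule ℂ (E →L[ℂ] E) :=
    { carrier := {k | ∃ k' ∈ compacts A F, IsAdj (A := A) k k'}
      add_mem' := by
        rintro a b ⟨a', ha', ha⟩ ⟨b', hb', hb⟩
        refine ⟨a' + b', Submodule.add_mem _ ha' hb', fun u v => ?_⟩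
        simp only [_root_.add_apply, CStarModule.inner_add_left, CStarModule.inner_add_right,
          ha u v, hb u v]
      zero_mem' := ⟨0, Submodule.zero_mem _, fun u v => by simp⟩
      smul_mem' := by
        rintro c a ⟨a', ha', ha⟩
        refine ⟨star c • a', Submodule.smul_mem _ _ ha', fun u v => ?_⟩
        simp only [_root_.smul_apply, CStarModule.inner_smul_left_complex,
          CStarModule.inner_smul_right_complex, ha u v] }
  have hcl : IsClosed (S : Set (E →L[ℂ] E)) := by
    refine isClosed_of_closure_subset fun k hk => ?_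
    obtain ⟨u, hu, hlim⟩ := mem_closure_iff_seq_limit.mp hk
    choose u' hu' hadj using hu
    have hc : CauchySeq u' := by
      have h1 := hlim.cauchySeq
      rw [Metric.cauchySeq_iff] at h1 ⊢
      intro ε hε
      obtain ⟨N, hN⟩ := h1 ε hε
      refine ⟨N, fun m hm n hn => ?_⟩
      refine lt_of_le_of_lt ?_ (hN m hm n hn)
      rw [dist_eq_norm, dist_eq_norm]
      refine IsAdj.norm_le (A := A) fun a b => ?_
      simp only [_root_.sub_apply, CStarModule.inner_sub_left, CStarModule.inner_sub_right,
        hadj m a b, hadj n a b]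
    obtain ⟨k', hk'⟩ := cauchySeq_tendsto_of_complete hc
    refine ⟨k', (compacts_closed F).mem_of_tendsto hk' (Filter.Eventually.of_forall hu'),
      fun a b => ?_⟩
    have e1 : Filter.Tendsto (fun n => inner A (u n a) b) Filter.atTop (nhds (inner A (k a) b)) := by
      have h1 : Filter.Tendsto (fun n => u n a) Filter.atTop (nhds (k a)) :=
        ((ContinuousLinearMap.apply ℂ E a).continuous.tendsto k).comp hlim
      exact ((CStarModule.continuous_inner (A := A) (E := E)).tendsto (k a, b)).comp
        (h1.prodMk_nhds tendsto_const_nhds)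
    have e2 : Filter.Tendsto (fun n => inner A a (u' n b)) Filter.atTop
        (nhds (inner A a (k' b))) := by
      have h1 : Filter.Tendsto (fun n => u' n b) Filter.atTop (nhds (k' b)) :=
        ((ContinuousLinearMap.apply ℂ E b).continuous.tendsto k').comp hk'
      exact ((CStarModule.continuous_inner (A := A) (E := E)).tendsto (a, k' b)).comp
        (tendsto_const_nhds.prodMk_nhds h1)
    refine tendsto_nhds_unique e1 (e2.congr fun n => ?_)
    exact (hadj n a b).symm
  have h1 : compacts A F ≤ S := by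
    refine Submodule.topologicalClosure_minimal _ (Submodule.span_le.mpr ?_) hcl
    rintro _ ⟨x, hx, y, hy, rfl⟩
    exact ⟨rankOne A y x, rankOne_mem hy hx, rankOne_adj x y⟩
  exact h1 hk

/-- elements of `K(F)` are `A`-linear -/
lemma IsAdj.map_a {k k' : E →L[ℂ] E} (h : IsAdj (A := A) k k') (a : A) (v : E) :
    k (a • v) = a • k v := by
  refine ext_in A fun w => ?_
  have h' := h.symm
  rw [← h', CStarModule.inner_op_smul_right, CStarModule.inner_op_smul_right, ← h']

/-- approximation: `x ∈ F` is a limit of `c • x`, `c ∈ B_F` -/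
lemma approx {F : Submodule ℂ E} (hF : IsClosedTernary A F) {x : E} (hx : x ∈ F) :
    ∃ c : ℕ → A, (∀ n, c n ∈ innerSpan A F) ∧
      Filter.Tendsto (fun n => c n • x) Filter.atTop (nhds x) := by
  -- multiplication by `⟨x, x⟩` preserves `B_F`
  set c0 : A := inner A x x with hc0
  have hmul : ∀ a ∈ innerSpan A F, c0 * a ∈ innerSpan A F := by
    intro a ha
    refine innerSpan_ind (ContinuousLinearMap.mul ℂ A c0) (innerSpan_closed F) ?_ ha
    intro u hu v hv
    rw [ContinuousLinearMap.mul_apply', hc0, ← CStarModule.inner_op_smul_right]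
    exact inner_mem hu (hF.tern v hv x hx x hx)
  set s : ℝ := 1 / (‖c0‖ + 1) with hs
  have hs0 : 0 < s := by positivity
  let c : ℕ → A := fun n => Nat.rec 0 (fun _ a => a + (s : ℂ) • (c0 - c0 * a)) n
  have hc_succ : ∀ n, c (n + 1) = c n + (s : ℂ) • (c0 - c0 * c n) := fun n => rfl
  have hcm : ∀ n, c n ∈ innerSpan A F := by
    intro n
    induction n with
    | zero => exact Submodule.zero_mem _
    | succ n ih =>
      rw [hc_succ]
      exact Submodule.add_mem _ ih (Submodule.smul_mem _ _
        (Submodule.sub_mem _ (inner_mem hx hx) (hmul _ ih)))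
  refine ⟨c, hcm, ?_⟩
  set y : ℕ → E := fun n => x - c n • x with hy
  have hy_succ : ∀ n, y (n + 1) = y n - (s : ℂ) • (c0 • y n) := by
    intro n
    simp only [hy, hc_succ]
    refine ext_in A fun w => ?_
    simp only [CStarModule.inner_sub_right, CStarModule.inner_op_smul_right,
      CStarModule.inner_smul_right_complex, add_mul, sub_mul, smul_mul_assoc, smul_sub, mul_sub,
      mul_assoc]
    abel
  have hsa : star c0 = c0 := CStarModule.star_inner x x
  have hinner_succ : ∀ n, inner A (y (n + 1)) (y (n + 1)) = inner A (y n) (y n)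
      - (s : ℂ) • (c0 * inner A (y n) (y n)) - (s : ℂ) • (inner A (y n) (y n) * c0)
      + ((s : ℂ) * (s : ℂ)) • (c0 * inner A (y n) (y n) * c0) := by
    intro n
    rw [hy_succ]
    have : star (s : ℂ) = (s : ℂ) := Complex.conj_ofReal s
    simp only [CStarModule.inner_sub_right, CStarModule.inner_sub_left,
      CStarModule.inner_smul_right_complex, CStarModule.inner_smul_left_complex,
      CStarModule.inner_op_smul_right, CStarModule.inner_op_smul_left, hsa, this, smul_sub,
      smul_smul, mul_smul_comm, mul_sub, mul_assoc]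
    abel
  have hpos : 0 ≤ c0 := CStarModule.inner_self_nonneg
  have hsa' : IsSelfAdjoint c0 := hsa
  -- the functional calculus formula
  let f : ℕ → ℝ → ℝ := fun n t => t * (1 - s * t) ^ (2 * n)
  have hfc : ∀ n, Continuous (f n) := fun n => by
    change Continuous fun t => t * (1 - s * t) ^ (2 * n)
    fun_prop
  have hf0 : ∀ n, f n 0 = 0 := fun n => by simp [f]
  have hinner : ∀ n, inner A (y n) (y n) = cfcₙ (f n) c0 := by
    intro n
    induction n with
    | zero =>
      have e1 : y 0 = x := by
        change x - (0 : A) • x = x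
        rw [zero_a, sub_zero]
      have e2 : f 0 = fun t => t := by funext t; simp [f]
      rw [e1, e2, cfcₙ_id' ℝ c0]
    | succ n ih =>
      rw [hinner_succ, ih]
      have e3 : f (n + 1) = fun t => (f n t - s * (t * f n t) - s * (f n t * t)) +
          (s * s) * ((t * f n t) * t) := by
        funext t
        simp only [f]
        rw [show 2 * (n + 1) = 2 * n + 2 by ring, pow_add]
        ring
      have i1 : cfcₙ (fun t : ℝ => t) c0 = c0 := cfcₙ_id' ℝ c0
      have hc1 : ContinuousOn (f n) (quasispectrum ℝ c0) := (hfc n).continuousOn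
      have hc2 : ContinuousOn (fun t : ℝ => t * f n t) (quasispectrum ℝ c0) :=
        (continuous_id.mul (hfc n)).continuousOn
      have hc3 : ContinuousOn (fun t : ℝ => f n t * t) (quasispectrum ℝ c0) :=
        ((hfc n).mul continuous_id).continuousOn
      have hc4 : ContinuousOn (fun t : ℝ => t * f n t * t) (quasispectrum ℝ c0) :=
        ((continuous_id.mul (hfc n)).mul continuous_id).continuousOn
      have hc0' : ContinuousOn (fun t : ℝ => t) (quasispectrum ℝ c0) := continuous_id.continuousOn
      have m1 : cfcₙ (fun t : ℝ => t * f n t) c0 = c0 * cfcₙ (f n) c0 := by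
        rw [cfcₙ_mul (fun t : ℝ => t) (f n) c0 hc0' rfl hc1 (hf0 n), i1]
      have m2 : cfcₙ (fun t : ℝ => f n t * t) c0 = cfcₙ (f n) c0 * c0 := by
        rw [cfcₙ_mul (f n) (fun t : ℝ => t) c0 hc1 (hf0 n) hc0' rfl, i1]
      have m3 : cfcₙ (fun t : ℝ => t * f n t * t) c0 = c0 * cfcₙ (f n) c0 * c0 := by
        rw [cfcₙ_mul (fun t : ℝ => t * f n t) (fun t : ℝ => t) c0 hc2 (by simp) hc0' rfl, i1, m1]
      have hd1 : ContinuousOn (fun t : ℝ => s * (t * f n t)) (quasispectrum ℝ c0) :=
        (continuous_const.mul (continuous_id.mul (hfc n))).continuousOn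
      have hd2 : ContinuousOn (fun t : ℝ => s * (f n t * t)) (quasispectrum ℝ c0) :=
        (continuous_const.mul ((hfc n).mul continuous_id)).continuousOn
      have hd3 : ContinuousOn (fun t : ℝ => s * s * (t * f n t * t)) (quasispectrum ℝ c0) :=
        (continuous_const.mul ((continuous_id.mul (hfc n)).mul continuous_id)).continuousOn
      have hd4 : ContinuousOn (fun t : ℝ => f n t - s * (t * f n t)) (quasispectrum ℝ c0) :=
        hc1.sub hd1
      have hd5 : ContinuousOn (fun t : ℝ => f n t - s * (t * f n t) - s * (f n t * t))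
        (quasispectrum ℝ c0) := hd4.sub hd2
      rw [e3, cfcₙ_add (fun t : ℝ => f n t - s * (t * f n t) - s * (f n t * t))
          (fun t : ℝ => s * s * (t * f n t * t)) c0 hd5 (by simp [hf0]) hd3 (by simp),
        cfcₙ_sub (fun t : ℝ => f n t - s * (t * f n t)) (fun t : ℝ => s * (f n t * t)) c0 hd4
          (by simp [hf0]) hd2 (by simp),
        cfcₙ_sub (f n) (fun t : ℝ => s * (t * f n t)) c0 hc1 (hf0 n) hd1 (by simp),
        cfcₙ_const_mul s (fun t : ℝ => t * f n t) c0 hc2 (by simp),
        cfcₙ_const_mul s (fun t : ℝ => f n t * t) c0 hc3 (by simp),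
        cfcₙ_const_mul (s * s) (fun t : ℝ => t * f n t * t) c0 hc4 (by simp), m1, m2, m3]
      rw [← Complex.ofReal_mul, Complex.coe_smul, Complex.coe_smul, Complex.coe_smul]
  -- the norm bound
  have hnorm : ∀ n : ℕ, ‖y n‖ ^ 2 ≤ (1 / s) * (1 / (n + 1 : ℝ)) := by
    intro n
    rw [CStarModule.norm_sq_eq A (x := y n), hinner]
    refine norm_cfcₙ_le fun t ht => ?_
    have ht0 : 0 ≤ t := quasispectrum_nonneg_of_nonneg c0 hpos t ht
    have ht1 : ‖t‖ ≤ ‖c0‖ := by
      have := norm_apply_le_norm_cfcₙ (fun t : ℝ => t) c0 ht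
      rwa [cfcₙ_id' ℝ c0] at this
    rw [Real.norm_of_nonneg ht0] at ht1
    have hst : s * t ≤ 1 := by
      rw [hs, one_div, inv_mul_le_one₀ (by positivity)]
      linarith
    have hst0 : 0 ≤ s * t := by positivity
    have h1 : 0 ≤ 1 - s * t := by linarith
    have h2 : ‖f n t‖ = t * (1 - s * t) ^ (2 * n) := Real.norm_of_nonneg (by positivity)
    rw [h2]
    -- Bernoulli
    have h3 : (1 - s * t) ^ n * (1 + n * (s * t)) ≤ 1 := by
      have b1 : 1 + (n : ℝ) * (s * t) ≤ (1 + s * t) ^ n :=
        one_add_mul_le_pow (by linarith) n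
      calc (1 - s * t) ^ n * (1 + n * (s * t)) ≤ (1 - s * t) ^ n * (1 + s * t) ^ n := by gcongr
        _ = (1 - (s * t) ^ 2) ^ n := by rw [← mul_pow]; ring
        _ ≤ 1 := pow_le_one₀ (by nlinarith) (by nlinarith [sq_nonneg (s * t)])
    have h4 : (1 - s * t) ^ (2 * n) ≤ (1 - s * t) ^ n :=
      pow_le_pow_of_le_one h1 (by linarith) (by omega)
    have h5 : (s * t) * (1 - s * t) ^ n * (n + 1) ≤ 1 := by
      have b2 : 0 ≤ (1 - s * t) ^ n := by positivity
      nlinarith
    have h6 : t * (1 - s * t) ^ (2 * n) ≤ t * (1 - s * t) ^ n := by gcongr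
    refine h6.trans ?_
    rw [one_div, one_div, ← mul_inv, ← one_div, le_div_iff₀ (by positivity)]
    linarith
  rw [tendsto_iff_norm_sub_tendsto_zero]
  have h7 : Filter.Tendsto (fun n : ℕ => (1 / s) * (1 / (n + 1 : ℝ))) Filter.atTop (nhds 0) := by
    have := tendsto_one_div_add_atTop_nhds_zero_nat (𝕜 := ℝ)
    simpa using this.const_mul (1 / s)
  have h8 : Filter.Tendsto (fun n => ‖y n‖ ^ 2) Filter.atTop (nhds 0) :=
    squeeze_zero (fun _ => by positivity) hnorm h7
  have h9 := h8.sqrt
  simp only [Real.sqrt_sq (norm_nonneg _), Real.sqrt_zero] at h9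
  refine h9.congr fun n => ?_
  rw [norm_sub_rev]

end basics

end Pool.Agent.X188.HM
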