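import Pool.Agent.X188.LTR2

/-!
# Weak derivatives of real functions of one variable
-/

set_option autoImplicit false

open MeasureTheory Set Filter Topology Real

namespace Pool.Agent.X188.LTR

/-- `g` is a locally integrable weak derivative of the continuous function `f`. -/
def WD (f g : ℝ → ℝ) : Prop :=
  ∀ a b, IntervalIntegrable g volume a b ∧ f b - f a = ∫ x in a..b, g x

lemma locInt {F : Type*} [NormedAddCommGroup F] {g : ℝ → F}
    (h : ∀ a b, IntervalIntegrable g volume a b) : LocallyIntegrable g volume := by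
  intro x
  refine ⟨Ioo (x - 1) (x + 1), Ioo_mem_nhds (by linarith) (by linarith), ?_⟩
  have h1 := (h (x - 1) (x + 1)).1
  exact h1.mono_set Ioo_subset_Ioc_self

namespace WD

variable {f g f₁ g₁ f₂ g₂ : ℝ → ℝ}

lemma ac (h : WD f g) (a b : ℝ) : AbsolutelyContinuousOnInterval f a b := by
  have h1 := (h a b).1.absolutelyContinuousOnInterval_intervalIntegral (c := a) left_mem_uIcc
  have h0 : AbsolutelyContinuousOnInterval (fun _ : ℝ => f a) a b :=
    (LipschitzWith.const (f a)).lipschitzOnWith.absolutelyContinuousOnInterval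
  have h3 := h0.fun_add h1
  have h2 : f = fun x => f a + ∫ v in a..x, g v := by
    funext x; rw [← (h a x).2]; ring
  rw [h2]
  exact h3

lemma ae (h : WD f g) : ∀ᵐ x, HasDerivAt f (g x) x := by
  have hl : LocallyIntegrable g volume := locInt fun a b => (h a b).1
  filter_upwards [_root_.LocallyIntegrable.ae_hasDerivAt_integral hl] with x hx
  have h2 : f = fun x => f 0 + ∫ v in (0:ℝ)..x, g v := by
    funext x; rw [← (h 0 x).2]; ring
  rw [h2]
  exact (hx 0).const_add _

lemma cont (h : WD f g) : Continuous f := by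
  have h2 : f = fun x => f 0 + ∫ v in (0:ℝ)..x, g v := by
    funext x; rw [← (h 0 x).2]; ring
  rw [h2]
  exact continuous_const.add (intervalIntegral.continuous_primitive (fun a b => (h a b).1) 0)

lemma mul (h₁ : WD f₁ g₁) (h₂ : WD f₂ g₂) :
    WD (fun x => f₁ x * f₂ x) (fun x => g₁ x * f₂ x + f₁ x * g₂ x) := by
  intro a b
  refine ⟨?_, ?_⟩
  · exact ((h₁ a b).1.mul_continuousOn (h₂.ac a b).continuousOn).add
      ((h₂ a b).1.continuousOn_mul (h₁.ac a b).continuousOn)
  · rw [← (h₁.ac a b).integral_deriv_mul_eq_sub (h₂.ac a b)]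
    refine intervalIntegral.integral_congr_ae ?_
    filter_upwards [h₁.ae, h₂.ae] with x hx₁ hx₂ _
    rw [hx₁.deriv, hx₂.deriv]

lemma add (h₁ : WD f₁ g₁) (h₂ : WD f₂ g₂) :
    WD (fun x => f₁ x + f₂ x) (fun x => g₁ x + g₂ x) := by
  intro a b
  refine ⟨(h₁ a b).1.add (h₂ a b).1, ?_⟩
  rw [intervalIntegral.integral_add (h₁ a b).1 (h₂ a b).1, ← (h₁ a b).2, ← (h₂ a b).2]
  ring

lemma const_mul (c : ℝ) (h : WD f g) : WD (fun x => c * f x) (fun x => c * g x) := by
  intro a b
  refine ⟨(h a b).1.const_mul c, ?_⟩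
  rw [intervalIntegral.integral_const_mul, ← (h a b).2]
  ring

lemma zero : WD (fun _ => 0) (fun _ => 0) := by
  intro a b
  refine ⟨intervalIntegrable_const, ?_⟩
  simp

lemma sum {ι : Type*} (s : Finset ι) {F G : ι → ℝ → ℝ} (h : ∀ i ∈ s, WD (F i) (G i)) :
    WD (fun x => ∑ i ∈ s, F i x) (fun x => ∑ i ∈ s, G i x) := by
  classical
  induction s using Finset.induction_on with
  | empty => simpa using zero
  | insert i s hi ih =>
    simp only [Finset.sum_insert hi]
    exact (h i (Finset.mem_insert_self _ _)).add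
      (ih fun j hj => h j (Finset.mem_insert_of_mem hj))

lemma of_deriv (hd : ∀ x, HasDerivAt f (g x) x) (hc : Continuous g) : WD f g := fun a b =>
  ⟨hc.intervalIntegrable _ _, (intervalIntegral.integral_eq_sub_of_hasDerivAt
    (fun x _ => hd x) (hc.intervalIntegrable _ _)).symm⟩

lemma aesm (h : WD f g) : AEStronglyMeasurable g volume :=
  (locInt fun a b => (h a b).1).aestronglyMeasurable

lemma tendsto_top (h : WD f g) (hf : Integrable f) (hg : Integrable g) :
    Tendsto f atTop (𝓝 0) := by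
  have h1 := intervalIntegral_tendsto_integral_Ioi (0:ℝ) (hg.integrableOn) tendsto_id
  have h2 : Tendsto f atTop (𝓝 (f 0 + ∫ x in Ioi (0:ℝ), g x)) := by
    refine (h1.const_add (f 0)).congr fun x => ?_
    simp only [id]
    rw [← (h 0 x).2]; ring
  have h3 : f 0 + ∫ x in Ioi (0:ℝ), g x = 0 := by
    refine IntegrableAtFilter.eq_zero_of_tendsto (μ := volume) (l := atTop)
      ⟨univ, univ_mem, hf.integrableOn⟩ ?_ h2
    intro s hs
    rcases mem_atTop_sets.1 hs with ⟨b, hb⟩
    rw [← top_le_iff, ← volume_Ici (a := b)]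
    exact measure_mono hb
  rwa [h3] at h2

lemma tendsto_bot (h : WD f g) (hf : Integrable f) (hg : Integrable g) :
    Tendsto f atBot (𝓝 0) := by
  have h1 := intervalIntegral_tendsto_integral_Iic (0:ℝ) (hg.integrableOn) tendsto_id
  have h2 : Tendsto f atBot (𝓝 (f 0 - ∫ x in Iic (0:ℝ), g x)) := by
    refine (h1.const_sub (f 0)).congr fun x => ?_
    simp only [id]
    rw [← (h x 0).2]; ring
  have h3 : f 0 - ∫ x in Iic (0:ℝ), g x = 0 := by
    refine IntegrableAtFilter.eq_zero_of_tendsto (μ := volume) (l := atBot)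
      ⟨univ, univ_mem, hf.integrableOn⟩ ?_ h2
    intro s hs
    rcases mem_atBot_sets.1 hs with ⟨b, hb⟩
    rw [← top_le_iff, ← volume_Iic (a := b)]
    exact measure_mono hb
  rwa [h3] at h2

lemma integral_zero (h : WD f g) (hg : Integrable g) (ht : Tendsto f atTop (𝓝 0))
    (hb : Tendsto f atBot (𝓝 0)) : ∫ x, g x = 0 := by
  have h1 := intervalIntegral_tendsto_integral (μ := volume) hg
    (tendsto_neg_atTop_atBot (G := ℝ)) tendsto_id
  have h2 : Tendsto (fun x : ℝ => f x - f (-x)) atTop (𝓝 (0 - 0)) :=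
    ht.sub (hb.comp tendsto_neg_atTop_atBot)
  rw [sub_zero] at h2
  refine tendsto_nhds_unique (h1.congr fun x => ?_) h2
  simp only [id]
  rw [← (h (-x) x).2]

end WD

end Pool.Agent.X188.LTR
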