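import Pool.Agent.X188.LTR3
import Pool.Agent.Helper490.CalibMain

/-!
# The sharp kinetic inequality with a remainder for systems with a weak derivative
-/

set_option autoImplicit false
set_option linter.all false
set_option linter.deprecated false

open MeasureTheory Set Filter Topology Real
open scoped RealInnerProductSpace

namespace Pool.Agent.X188.LTR

open Pool.Helper490.Calib

variable {E : Type*} [NormedAddCommGroup E] [InnerProductSpace ℝ E] [FiniteDimensional ℝ E]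

/-- A vector valued function with a weak derivative whose Gram operator is at most the
identity. -/
structure SysW (u g : ℝ → E) : Prop where
  hgi : ∀ a b, IntervalIntegrable g volume a b
  hug : ∀ a b, u b - u a = ∫ x in a..b, g x
  hui : Integrable (fun x => ‖u x‖ ^ 2)
  hg2 : Integrable (fun x => ‖g x‖ ^ 2)
  hbes : ∀ v : E, ∫ x, ⟪u x, v⟫ ^ 2 ≤ ‖v‖ ^ 2

/-- The variance. -/
noncomputable def va (u : ℝ → E) (x : ℝ) : ℝ := ‖u x‖ ^ 2 * mo u 2 x - mo u 1 x ^ 2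

namespace SysW

variable {u g : ℝ → E} (h : SysW u g)
include h

lemma uc : Continuous u := by
  have : u = fun x => u 0 + ∫ t in (0:ℝ)..x, g t := by
    funext x; rw [← h.hug 0 x]; abel
  rw [this]
  exact continuous_const.add (intervalIntegral.continuous_primitive h.hgi 0)

lemma gm : AEStronglyMeasurable g volume := (locInt h.hgi).aestronglyMeasurable

lemma inner_WD (v : E) : WD (fun x => ⟪v, u x⟫) (fun x => ⟪v, g x⟫) := by
  intro a b
  have h1 := (innerSL ℝ v).intervalIntegral_comp_comm (h.hgi a b)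
  simp only [innerSL_apply_apply] at h1
  refine ⟨?_, ?_⟩
  · have h2 := h.hgi a b
    rw [intervalIntegrable_iff] at h2 ⊢
    exact (innerSL ℝ v).integrable_comp h2
  · rw [h1, ← h.hug a b, inner_sub_right]

lemma Rc : Continuous (R u) := by
  have h1 : Continuous fun x => innerSL ℝ (u x) := (innerSL ℝ).continuous.comp h.uc
  have h2 := (ContinuousLinearMap.smulRightL ℝ E E).continuous.comp h1
  exact h2.clm_apply h.uc

lemma Ri : Integrable (R u) := by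
  refine h.hui.mono h.Rc.aestronglyMeasurable (Eventually.of_forall fun x => ?_)
  rw [R_norm, Real.norm_eq_abs, abs_of_nonneg (sq_nonneg _)]

lemma Gam_deriv (x : ℝ) : HasDerivAt (Gam u) (R u x) x := by
  have hform : Gam u = fun x => Gam u 0 + ∫ t in (0:ℝ)..x, R u t := by
    funext x
    have := intervalIntegral.integral_Iic_sub_Iic (f := R u) (a := 0) (b := x) (μ := volume)
      h.Ri.integrableOn h.Ri.integrableOn
    simp only [Gam]
    rw [← this]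
    abel
  rw [hform]
  exact (intervalIntegral.integral_hasDerivAt_right h.Ri.intervalIntegrable
    (h.Ri.aestronglyMeasurable.stronglyMeasurableAtFilter) h.Rc.continuousAt).const_add _

lemma Bop_deriv (x : ℝ) : HasDerivAt (Bop u) (R u x) x := (h.Gam_deriv x).sub_const _

lemma Bop_cont : Continuous (Bop u) :=
  continuous_iff_continuousAt.2 fun x => (h.Bop_deriv x).continuousAt

lemma Gam_inner (x : ℝ) (v w : E) :
    ⟪Gam u x v, w⟫ = ∫ y in Iic x, ⟪u y, v⟫ * ⟪u y, w⟫ := by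
  have h1 : Gam u x v = ∫ y in Iic x, R u y v :=
    ContinuousLinearMap.integral_apply h.Ri.integrableOn v
  have h2 : IntegrableOn (fun y => R u y v) (Iic x) := by
    have := h.Ri.integrableOn (s := Iic x)
    exact this.apply_continuousLinearMap v
  rw [h1, real_inner_comm, ← integral_inner h2 w]
  refine integral_congr_ae (Eventually.of_forall fun y => ?_)
  simp only [Pool.Helper490.Calib.R_apply, real_inner_smul_right]
  rw [real_inner_comm w (u y)]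

lemma int_sq (v : E) : Integrable (fun y => ⟪u y, v⟫ ^ 2) := by
  have hc : Continuous fun y => ⟪u y, v⟫ ^ 2 := (h.uc.inner continuous_const).pow 2
  refine (h.hui.mul_const (‖v‖ ^ 2)).mono' hc.aestronglyMeasurable
    (Eventually.of_forall fun y => ?_)
  rw [Real.norm_eq_abs, abs_of_nonneg (sq_nonneg _), ← mul_pow, ← sq_abs]
  exact pow_le_pow_left₀ (abs_nonneg _) (abs_real_inner_le_norm _ _) 2

lemma Gam_nonneg (x : ℝ) (v : E) : 0 ≤ ⟪Gam u x v, v⟫ := by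
  rw [h.Gam_inner]
  exact setIntegral_nonneg measurableSet_Iic fun y _ => mul_self_nonneg _

lemma Gam_le (x : ℝ) (v : E) : ⟪Gam u x v, v⟫ ≤ ‖v‖ ^ 2 := by
  rw [h.Gam_inner]
  refine le_trans ?_ (h.hbes v)
  have : ∀ y, ⟪u y, v⟫ * ⟪u y, v⟫ = ⟪u y, v⟫ ^ 2 := fun y => (pow_two _).symm
  simp only [this]
  exact setIntegral_le_integral (h.int_sq v) (Eventually.of_forall fun y => sq_nonneg _)

lemma Bop_inner (x : ℝ) (v w : E) : ⟪Bop u x v, w⟫ = ⟪Gam u x v, w⟫ - 1 / 2 * ⟪v, w⟫ := by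
  simp only [Bop, ContinuousLinearMap.sub_apply, ContinuousLinearMap.smul_apply,
    ContinuousLinearMap.one_apply, inner_sub_left, real_inner_smul_left]

lemma Bop_symm (x : ℝ) (v w : E) : ⟪Bop u x v, w⟫ = ⟪v, Bop u x w⟫ := by
  rw [real_inner_comm (Bop u x w) v, h.Bop_inner, h.Bop_inner, h.Gam_inner, h.Gam_inner,
    real_inner_comm w v]
  congr 2
  funext y
  ring

lemma Bop_pow_symm (x : ℝ) (a : ℕ) (v w : E) :
    ⟪(Bop u x ^ a) v, w⟫ = ⟪v, (Bop u x ^ a) w⟫ := by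
  induction a generalizing v w with
  | zero => simp
  | succ a ih =>
    rw [pow_succ, ContinuousLinearMap.mul_apply, ih, h.Bop_symm, ← ContinuousLinearMap.mul_apply,
      ← pow_succ', pow_succ]

lemma Bop_pow_deriv (x : ℝ) (a : ℕ) : HasDerivAt (fun x => Bop u x ^ a)
    (∑ l ∈ Finset.range a, Bop u x ^ l * R u x * Bop u x ^ (a - 1 - l)) x := by
  induction a with
  | zero => simpa using hasDerivAt_const x (1 : E →L[ℝ] E)
  | succ a ih =>
    have h1 := ih.mul (h.Bop_deriv x)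
    have h2 : (fun x => Bop u x ^ (a + 1)) = fun x => Bop u x ^ a * Bop u x := by
      funext x; rw [pow_succ]
    rw [h2]
    refine h1.congr_deriv ?_
    rw [Finset.sum_range_succ, Finset.sum_mul, Nat.add_sub_cancel, Nat.sub_self, pow_zero, mul_one]
    congr 1
    refine Finset.sum_congr rfl fun l hl => ?_
    have hl' : l < a := Finset.mem_range.1 hl
    rw [mul_assoc, ← pow_succ]
    congr 2
    omega

lemma mo_WD (a : ℕ) : WD (mo u a)
    (fun x => 2 * mu u g a x + ∑ l ∈ Finset.range a, mo u l x * mo u (a - 1 - l) x) := by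
  set b := stdOrthonormalBasis ℝ E with hb
  have key : ∀ (T : E →L[ℝ] E) (v w : E), ⟪v, T w⟫ =
      ∑ i, ∑ j, (⟪b i, v⟫ * ⟪b j, w⟫) * ⟪b i, T (b j)⟫ := by
    intro T v w
    have h1 : ⟪v, T w⟫ = ∑ i, ⟪b i, v⟫ * ⟪b i, T w⟫ := by
      rw [← b.sum_inner_mul_inner v (T w)]
      refine Finset.sum_congr rfl fun i _ => ?_
      rw [real_inner_comm v (b i)]
    rw [h1]
    refine Finset.sum_congr rfl fun i _ => ?_
    have h2 : T w = ∑ j, ⟪b j, w⟫ • T (b j) := by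
      conv_lhs => rw [← b.sum_repr' w]
      rw [map_sum]
      simp only [map_smul]
    rw [h2, inner_sum, Finset.mul_sum]
    refine Finset.sum_congr rfl fun j _ => ?_
    rw [real_inner_smul_right]
    ring
  set DB : ℝ → E →L[ℝ] E := fun x =>
    ∑ l ∈ Finset.range a, Bop u x ^ l * R u x * Bop u x ^ (a - 1 - l) with hDB
  have hDBc : Continuous DB := by
    refine continuous_finsetSum _ fun l _ => ?_
    exact ((h.Bop_cont.pow l).mul h.Rc).mul (h.Bop_cont.pow _)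
  have hT : ∀ i j, WD (fun x => ⟪b i, (Bop u x ^ a) (b j)⟫) (fun x => ⟪b i, DB x (b j)⟫) := by
    intro i j
    refine WD.of_deriv (fun x => ?_) ?_
    · have h1 := (h.Bop_pow_deriv x a).clm_apply (hasDerivAt_const x (b j))
      have h2 := (hasDerivAt_const x (b i)).inner ℝ h1
      refine h2.congr_deriv ?_
      simp [hDB]
    · exact continuous_const.inner (hDBc.clm_apply continuous_const)
  have h1 : ∀ i j, WD (fun x => (⟪b i, u x⟫ * ⟪b j, u x⟫) * ⟪b i, (Bop u x ^ a) (b j)⟫)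
      (fun x => (⟪b i, g x⟫ * ⟪b j, u x⟫ + ⟪b i, u x⟫ * ⟪b j, g x⟫) *
        ⟪b i, (Bop u x ^ a) (b j)⟫ + (⟪b i, u x⟫ * ⟪b j, u x⟫) * ⟪b i, DB x (b j)⟫) :=
    fun i j => ((h.inner_WD (b i)).mul (h.inner_WD (b j))).mul (hT i j)
  have h2 := WD.sum Finset.univ fun i _ => WD.sum Finset.univ fun j _ => h1 i j
  have e1 : (fun x => ∑ i, ∑ j, (⟪b i, u x⟫ * ⟪b j, u x⟫) * ⟪b i, (Bop u x ^ a) (b j)⟫) =
      mo u a := by
    funext x
    rw [mo, key]
  have e2 : (fun x => ∑ i, ∑ j, ((⟪b i, g x⟫ * ⟪b j, u x⟫ + ⟪b i, u x⟫ * ⟪b j, g x⟫) *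
        ⟪b i, (Bop u x ^ a) (b j)⟫ + (⟪b i, u x⟫ * ⟪b j, u x⟫) * ⟪b i, DB x (b j)⟫)) =
      fun x => 2 * mu u g a x + ∑ l ∈ Finset.range a, mo u l x * mo u (a - 1 - l) x := by
    funext x
    have h3 : ∀ l ∈ Finset.range a, ⟪u x, (Bop u x ^ l * R u x * Bop u x ^ (a - 1 - l)) (u x)⟫ =
        mo u l x * mo u (a - 1 - l) x := by
      intro l _
      rw [ContinuousLinearMap.mul_apply, ContinuousLinearMap.mul_apply, Pool.Helper490.Calib.R_apply,
        map_smul,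
        real_inner_smul_right]
      simp only [mo]
      ring
    have h4 : ⟪u x, DB x (u x)⟫ = ∑ l ∈ Finset.range a, mo u l x * mo u (a - 1 - l) x := by
      rw [hDB, ContinuousLinearMap.sum_apply, inner_sum]
      exact Finset.sum_congr rfl h3
    have h5 : ⟪u x, (Bop u x ^ a) (g x)⟫ = mu u g a x := by
      rw [mu, ← h.Bop_pow_symm, real_inner_comm]
    have h6 : ⟪g x, (Bop u x ^ a) (u x)⟫ = mu u g a x := rfl
    have h7 : 2 * mu u g a x = ⟪g x, (Bop u x ^ a) (u x)⟫ + ⟪u x, (Bop u x ^ a) (g x)⟫ := by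
      rw [h5, h6]; ring
    rw [← h4, h7, key, key, key]
    rw [← Finset.sum_add_distrib, ← Finset.sum_add_distrib]
    refine Finset.sum_congr rfl fun i _ => ?_
    rw [← Finset.sum_add_distrib, ← Finset.sum_add_distrib]
    refine Finset.sum_congr rfl fun j _ => ?_
    ring
  rw [e1, e2] at h2
  exact h2

lemma mo_cont (a : ℕ) : Continuous (mo u a) := (h.mo_WD a).cont

lemma mu_aesm (a : ℕ) : AEStronglyMeasurable (mu u g a) volume := by
  have h1 : Continuous fun x => (Bop u x ^ a) (u x) := (h.Bop_cont.pow a).clm_apply h.uc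
  exact h.gm.inner h1.aestronglyMeasurable

/-- Coordinates in an eigenbasis. -/
lemma coords (x : ℝ) : ∃ (n : ℕ) (e c d : Fin n → ℝ),
    (∀ i, e i ∈ Icc (-(1 / 2) : ℝ) (1 / 2)) ∧
    (∀ a, mo u a x = ∑ i, e i ^ a * c i ^ 2) ∧
    (∀ a, mu u g a x = ∑ i, e i ^ a * (c i * d i)) ∧
    ∑ i, d i ^ 2 = ‖g x‖ ^ 2 ∧ ∑ i, c i ^ 2 = ‖u x‖ ^ 2 := by
  have hT : ((Bop u x : E →L[ℝ] E) : E →ₗ[ℝ] E).IsSymmetric := fun v w => h.Bop_symm x v w
  set n := Module.finrank ℝ E with hn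
  set b := hT.eigenvectorBasis hn.symm with hb
  set e := hT.eigenvalues hn.symm with he
  have hbe : ∀ i, Bop u x (b i) = e i • b i := fun i => hT.apply_eigenvectorBasis hn.symm i
  have hpow : ∀ i a, (Bop u x ^ a) (b i) = e i ^ a • b i := by
    intro i a
    induction a with
    | zero => simp
    | succ a ih =>
      rw [pow_succ, ContinuousLinearMap.mul_apply, hbe, map_smul, ih, smul_smul, pow_succ, mul_comm]
  have hcoef : ∀ i a, ⟪b i, (Bop u x ^ a) (u x)⟫ = e i ^ a * ⟪b i, u x⟫ := by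
    intro i a
    rw [← h.Bop_pow_symm, hpow, real_inner_smul_left]
  have hexp : ∀ v w : E, ⟪v, w⟫ = ∑ i, ⟪b i, v⟫ * ⟪b i, w⟫ := by
    intro v w
    rw [← b.sum_inner_mul_inner v w]
    refine Finset.sum_congr rfl fun i _ => ?_
    rw [real_inner_comm v (b i)]
  refine ⟨n, e, fun i => ⟪b i, u x⟫, fun i => ⟪b i, g x⟫, ?_, ?_, ?_, ?_, ?_⟩
  · intro i
    have hb1 : ‖b i‖ = 1 := b.orthonormal.1 i
    have h1 := h.Gam_nonneg x (b i)
    have h2 := h.Gam_le x (b i)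
    have h3 := h.Bop_inner x (b i) (b i)
    rw [hbe, real_inner_smul_left, real_inner_self_eq_norm_sq, hb1] at h3
    rw [hb1] at h2
    constructor <;> nlinarith
  · intro a
    rw [mo, hexp]
    refine Finset.sum_congr rfl fun i _ => ?_
    rw [hcoef]
    ring
  · intro a
    rw [mu, hexp]
    refine Finset.sum_congr rfl fun i _ => ?_
    rw [hcoef]
    ring
  · rw [← real_inner_self_eq_norm_sq, hexp]
    exact Finset.sum_congr rfl fun i _ => pow_two _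
  · rw [← real_inner_self_eq_norm_sq, hexp]
    exact Finset.sum_congr rfl fun i _ => pow_two _

lemma mo_bound (x : ℝ) (a : ℕ) : |mo u a x| ≤ ‖u x‖ ^ 2 := by
  obtain ⟨n, e, c, d, he, hmo, -, -, hc⟩ := h.coords x
  rw [hmo, ← hc]
  refine (Finset.abs_sum_le_sum_abs _ _).trans (Finset.sum_le_sum fun i _ => ?_)
  have h1 : |e i| ≤ 1 := abs_le.2 ⟨by linarith [(he i).1], by linarith [(he i).2]⟩
  have h2 : |e i| ^ a ≤ 1 := pow_le_one₀ (abs_nonneg _) h1
  rw [abs_mul, abs_pow, abs_of_nonneg (sq_nonneg (c i))]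
  calc |e i| ^ a * c i ^ 2 ≤ 1 * c i ^ 2 := mul_le_mul_of_nonneg_right h2 (sq_nonneg _)
    _ = c i ^ 2 := one_mul _

lemma mu_bound (x : ℝ) (a : ℕ) : |2 * mu u g a x| ≤ ‖u x‖ ^ 2 + ‖g x‖ ^ 2 := by
  obtain ⟨n, e, c, d, he, -, hmu, hd, hc⟩ := h.coords x
  rw [hmu, ← hc, ← hd, Finset.mul_sum, ← Finset.sum_add_distrib]
  refine (Finset.abs_sum_le_sum_abs _ _).trans (Finset.sum_le_sum fun i _ => ?_)
  have h1 : |e i| ≤ 1 := abs_le.2 ⟨by linarith [(he i).1], by linarith [(he i).2]⟩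
  have h2 : |e i| ^ a ≤ 1 := pow_le_one₀ (abs_nonneg _) h1
  have h3 : |2 * (e i ^ a * (c i * d i))| = |e i| ^ a * (2 * (|c i| * |d i|)) := by
    rw [abs_mul, abs_mul, abs_pow, abs_mul, abs_two]; ring
  rw [h3]
  calc |e i| ^ a * (2 * (|c i| * |d i|)) ≤ 1 * (2 * (|c i| * |d i|)) :=
        mul_le_mul_of_nonneg_right h2 (by positivity)
    _ ≤ c i ^ 2 + d i ^ 2 := by
      nlinarith [sq_nonneg (|c i| - |d i|), sq_abs (c i), sq_abs (d i)]

lemma rho_WD : WD (fun x => ‖u x‖ ^ 2) (fun x => 2 * ⟪g x, u x⟫) := by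
  have h1 := h.mo_WD 0
  have e1 : mo u 0 = fun x => ‖u x‖ ^ 2 := by
    funext x
    rw [mo, pow_zero, ContinuousLinearMap.one_apply, real_inner_self_eq_norm_sq]
  have e2 : (fun x => 2 * mu u g 0 x + ∑ l ∈ Finset.range 0, mo u l x * mo u (0 - 1 - l) x) =
      fun x => 2 * ⟪g x, u x⟫ := by
    funext x
    simp [mu]
  rwa [e1, e2] at h1

lemma rho'_int : Integrable (fun x => 2 * ⟪g x, u x⟫) := by
  have hc : AEStronglyMeasurable (fun x => 2 * ⟪g x, u x⟫) volume :=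
    (h.gm.inner h.uc.aestronglyMeasurable).const_mul 2
  refine (h.hui.add h.hg2).mono' hc (Eventually.of_forall fun x => ?_)
  rw [Real.norm_eq_abs, abs_mul, abs_two]
  have h1 := abs_real_inner_le_norm (g x) (u x)
  simp only [Pi.add_apply]
  nlinarith [sq_nonneg (‖u x‖ - ‖g x‖)]

lemma rho_top : Tendsto (fun x => ‖u x‖ ^ 2) atTop (𝓝 0) :=
  h.rho_WD.tendsto_top h.hui h.rho'_int

lemma rho_bot : Tendsto (fun x => ‖u x‖ ^ 2) atBot (𝓝 0) :=
  h.rho_WD.tendsto_bot h.hui h.rho'_int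

lemma rho_bdd : ∃ M, 0 ≤ M ∧ ∀ x, ‖u x‖ ^ 2 ≤ M := by
  refine ⟨‖u 0‖ ^ 2 + ∫ x, |2 * ⟪g x, u x⟫|, add_nonneg (sq_nonneg _)
    (integral_nonneg fun x => abs_nonneg _), fun x => ?_⟩
  have h3 := (h.rho_WD 0 x).2
  have h4 : |∫ y in (0:ℝ)..x, 2 * ⟪g y, u y⟫| ≤ ∫ y, |2 * ⟪g y, u y⟫| := by
    have h6 := intervalIntegral.norm_integral_le_integral_norm_uIoc (μ := volume)
      (f := fun y => 2 * ⟪g y, u y⟫) (a := 0) (b := x)
    simp only [Real.norm_eq_abs] at h6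
    refine h6.trans ?_
    exact setIntegral_le_integral h.rho'_int.abs (Eventually.of_forall fun y => abs_nonneg _)
  have h5 := le_abs_self (∫ y in (0:ℝ)..x, 2 * ⟪g y, u y⟫)
  linarith

lemma rho3_int : Integrable (fun x => (‖u x‖ ^ 2) ^ 3) := by
  obtain ⟨M, hM0, hM⟩ := h.rho_bdd
  have hc : Continuous fun x => (‖u x‖ ^ 2) ^ 3 := (h.uc.norm.pow 2).pow 3
  refine (h.hui.const_mul (M ^ 2)).mono' hc.aestronglyMeasurable (Eventually.of_forall fun x => ?_)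
  have h0 : 0 ≤ ‖u x‖ ^ 2 := sq_nonneg _
  rw [Real.norm_eq_abs, abs_of_nonneg (by positivity)]
  calc (‖u x‖ ^ 2) ^ 3 = (‖u x‖ ^ 2) ^ 2 * ‖u x‖ ^ 2 := by ring
    _ ≤ M ^ 2 * ‖u x‖ ^ 2 :=
      mul_le_mul_of_nonneg_right (pow_le_pow_left₀ h0 (hM x) 2) h0

lemma va_cont : Continuous (va u) :=
  ((h.uc.norm.pow 2).mul (h.mo_cont 2)).sub ((h.mo_cont 1).pow 2)

lemma va_bound (x : ℝ) : |‖u x‖ ^ 2 * va u x| ≤ 2 * (‖u x‖ ^ 2) ^ 3 := by
  have h0 : 0 ≤ ‖u x‖ ^ 2 := sq_nonneg _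
  have h1 := h.mo_bound x 1
  have h2 := h.mo_bound x 2
  rw [abs_mul, abs_of_nonneg h0]
  have h3 : |va u x| ≤ 2 * (‖u x‖ ^ 2) ^ 2 := by
    rw [va]
    refine (abs_sub _ _).trans ?_
    rw [abs_mul, abs_of_nonneg h0, abs_pow]
    have h4 : |mo u 1 x| ^ 2 ≤ (‖u x‖ ^ 2) ^ 2 := pow_le_pow_left₀ (abs_nonneg _) h1 2
    have h5 := mul_le_mul_of_nonneg_left h2 h0
    nlinarith
  calc ‖u x‖ ^ 2 * |va u x| ≤ ‖u x‖ ^ 2 * (2 * (‖u x‖ ^ 2) ^ 2) :=
        mul_le_mul_of_nonneg_left h3 h0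
    _ = 2 * (‖u x‖ ^ 2) ^ 3 := by ring

lemma va_int : Integrable (fun x => ‖u x‖ ^ 2 * va u x) :=
  (h.rho3_int.const_mul 2).mono' ((h.uc.norm.pow 2).mul h.va_cont).aestronglyMeasurable
    (Eventually.of_forall fun x => by rw [Real.norm_eq_abs]; exact h.va_bound x)

section kernel

variable {ι : Type*} (S : Finset ι) (w : ι → ℝ) (α β : ι → ℕ) (κ : ℝ)

/-- The calibration argument for a polynomial kernel. -/
theorem calibrated (c0 c1 : ℝ)
    (hsym : ∀ s t, P S w α β s t = P S w α β t s)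
    (hK : ∀ s ∈ Icc (-(1 / 2) : ℝ) (1 / 2), ∀ r ∈ Icc (-(1 / 2) : ℝ) (1 / 2),
        ∀ t ∈ Icc (-(1 / 2) : ℝ) (1 / 2),
      4 * κ ^ 2 * (P S w α β t s * P S w α β t r) + κ * D S w α β s r t + c0 +
        c1 * (s - r) ^ 2 ≤ 0) :
    c0 * (∫ x, (‖u x‖ ^ 2) ^ 3) + 2 * c1 * (∫ x, ‖u x‖ ^ 2 * va u x) ≤ ∫ x, ‖g x‖ ^ 2 := by
  obtain ⟨M, hM0, hM⟩ := h.rho_bdd
  set Dm : ℕ → ℝ → ℝ := fun a x =>
    2 * mu u g a x + ∑ l ∈ Finset.range a, mo u l x * mo u (a - 1 - l) x with hDm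
  set Φ : ℝ → ℝ := fun x => κ * ∑ q ∈ S, w q * (mo u (α q) x * mo u (β q) x) with hΦ
  set Φ' : ℝ → ℝ := fun x => κ * ∑ q ∈ S, w q *
    (Dm (α q) x * mo u (β q) x + mo u (α q) x * Dm (β q) x) with hΦ'
  have hΦd : WD Φ Φ' := by
    refine WD.const_mul κ ?_
    refine WD.sum S fun q _ => ?_
    exact WD.const_mul (w q) ((h.mo_WD (α q)).mul (h.mo_WD (β q)))
  have hΦ'm : AEStronglyMeasurable Φ' volume := hΦd.aesm
  -- bounds
  have hDmb : ∀ a x, |Dm a x| ≤ (‖u x‖ ^ 2 + ‖g x‖ ^ 2) + a * (M * ‖u x‖ ^ 2) := by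
    intro a x
    refine (abs_add_le _ _).trans (add_le_add (h.mu_bound x a) ?_)
    refine (Finset.abs_sum_le_sum_abs _ _).trans ?_
    have : ∀ l ∈ Finset.range a, |mo u l x * mo u (a - 1 - l) x| ≤ M * ‖u x‖ ^ 2 := by
      intro l _
      rw [abs_mul]
      exact mul_le_mul ((h.mo_bound x l).trans (hM x)) (h.mo_bound x _) (abs_nonneg _) hM0
    refine (Finset.sum_le_sum this).trans ?_
    rw [Finset.sum_const, Finset.card_range, nsmul_eq_mul]
  have hterm : ∀ q x, |Dm (α q) x * mo u (β q) x + mo u (α q) x * Dm (β q) x| ≤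
      ((‖u x‖ ^ 2 + ‖g x‖ ^ 2) + α q * (M * ‖u x‖ ^ 2)) * M +
      M * ((‖u x‖ ^ 2 + ‖g x‖ ^ 2) + β q * (M * ‖u x‖ ^ 2)) := by
    intro q x
    refine (abs_add_le _ _).trans (add_le_add ?_ ?_)
    · rw [abs_mul]
      exact mul_le_mul (hDmb _ x) ((h.mo_bound x _).trans (hM x)) (abs_nonneg _) (by positivity)
    · rw [abs_mul]
      exact mul_le_mul ((h.mo_bound x _).trans (hM x)) (hDmb _ x) (abs_nonneg _) hM0
  have hΦ'i : Integrable Φ' := by
    have hdom : Integrable (fun x => |κ| * ∑ q ∈ S, |w q| *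
        (((‖u x‖ ^ 2 + ‖g x‖ ^ 2) + α q * (M * ‖u x‖ ^ 2)) * M +
      M * ((‖u x‖ ^ 2 + ‖g x‖ ^ 2) + β q * (M * ‖u x‖ ^ 2)))) := by
      refine Integrable.const_mul (integrable_finsetSum _ fun q _ => Integrable.const_mul ?_ _) _
      refine Integrable.add (Integrable.mul_const ?_ _) (Integrable.const_mul ?_ _)
      · exact (h.hui.add h.hg2).add ((h.hui.const_mul _).const_mul _)
      · exact (h.hui.add h.hg2).add ((h.hui.const_mul _).const_mul _)
    refine hdom.mono' hΦ'm (Eventually.of_forall fun x => ?_)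
    rw [Real.norm_eq_abs]
    simp only [hΦ']
    rw [abs_mul]
    refine mul_le_mul_of_nonneg_left ?_ (abs_nonneg _)
    refine (Finset.abs_sum_le_sum_abs _ _).trans (Finset.sum_le_sum fun q _ => ?_)
    rw [abs_mul]
    exact mul_le_mul_of_nonneg_left (hterm q x) (abs_nonneg _)
  have hΦb : ∀ x, |Φ x| ≤ |κ| * (∑ q ∈ S, |w q|) * (‖u x‖ ^ 2) ^ 2 := by
    intro x
    simp only [hΦ]
    rw [abs_mul, mul_assoc]
    refine mul_le_mul_of_nonneg_left ?_ (abs_nonneg _)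
    rw [Finset.sum_mul]
    refine (Finset.abs_sum_le_sum_abs _ _).trans (Finset.sum_le_sum fun q _ => ?_)
    rw [abs_mul, abs_mul, pow_two]
    refine mul_le_mul_of_nonneg_left ?_ (abs_nonneg _)
    exact mul_le_mul (h.mo_bound x _) (h.mo_bound x _) (abs_nonneg _) (sq_nonneg _)
  have hΦT : Tendsto Φ atTop (𝓝 0) := by
    refine squeeze_zero_norm hΦb ?_
    have := (h.rho_top.pow 2).const_mul (|κ| * (∑ q ∈ S, |w q|))
    simpa using this
  have hΦB : Tendsto Φ atBot (𝓝 0) := by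
    refine squeeze_zero_norm hΦb ?_
    have := (h.rho_bot.pow 2).const_mul (|κ| * (∑ q ∈ S, |w q|))
    simpa using this
  have hzero : ∫ x, Φ' x = 0 := hΦd.integral_zero hΦ'i hΦT hΦB
  -- pointwise inequality
  have hpt : ∀ x, Φ' x + (c0 * (‖u x‖ ^ 2) ^ 3 + 2 * c1 * (‖u x‖ ^ 2 * va u x)) ≤ ‖g x‖ ^ 2 := by
    intro x
    obtain ⟨n, e, c, d, he, hmo, hmu, hd, hc⟩ := h.coords x
    have := pointwise' S w α β κ c0 c1 e c d hsym
      (fun i k j => hK (e i) (he i) (e k) (he k) (e j) (he j))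
    rw [va, hmo 1, hmo 2, ← hd, ← hc]
    simp only [hΦ', hDm, hmo, hmu]
    exact this
  have hi1 : Integrable (fun x => c0 * (‖u x‖ ^ 2) ^ 3 + 2 * c1 * (‖u x‖ ^ 2 * va u x)) :=
    (h.rho3_int.const_mul c0).add (h.va_int.const_mul (2 * c1))
  have hint : ∫ x, (Φ' x + (c0 * (‖u x‖ ^ 2) ^ 3 + 2 * c1 * (‖u x‖ ^ 2 * va u x))) ≤
      ∫ x, ‖g x‖ ^ 2 := integral_mono (hΦ'i.add hi1) h.hg2 hpt
  rw [integral_add hΦ'i hi1, hzero,
    integral_add (h.rho3_int.const_mul c0) (h.va_int.const_mul (2 * c1)),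
    integral_const_mul, integral_const_mul, zero_add] at hint
  exact hint

end kernel

/-- **The sharp one-dimensional Lieb–Thirring kinetic inequality with a remainder** for a real
system. -/
theorem sharp' : π ^ 2 / 4 * (∫ x, (‖u x‖ ^ 2) ^ 3) + π * (∫ x, ‖u x‖ ^ 2 * va u x) ≤
    ∫ x, ‖g x‖ ^ 2 := by
  set A := ∫ x, (‖u x‖ ^ 2) ^ 3 with hA
  set B := ∫ x, ‖u x‖ ^ 2 * va u x with hB
  have hstep : ∀ θ : ℝ, 0 < θ → θ < π →
      (θ ^ 2 / 4 - (π - θ)) * A + 2 * (θ ^ 4 / (2 * π ^ 3)) * B ≤ ∫ x, ‖g x‖ ^ 2 := by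
    intro θ h0 h1
    obtain ⟨K, a, hsym, hK⟩ := exists_kernel' h0 h1 (δ := π - θ) (by linarith)
    exact h.calibrated (SS K) (ww a) (fun q => q.2.1) (fun q => q.2.2) (θ / 4) _ _ hsym hK
  have hcont : Continuous fun θ : ℝ =>
      (θ ^ 2 / 4 - (π - θ)) * A + 2 * (θ ^ 4 / (2 * π ^ 3)) * B := by
    fun_prop
  have hlim : Tendsto (fun θ : ℝ => (θ ^ 2 / 4 - (π - θ)) * A +
      2 * (θ ^ 4 / (2 * π ^ 3)) * B) (𝓝[<] π)
      (𝓝 ((π ^ 2 / 4 - (π - π)) * A + 2 * (π ^ 4 / (2 * π ^ 3)) * B)) :=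
    hcont.continuousAt.tendsto.mono_left nhdsWithin_le_nhds
  have hle : ∀ᶠ θ : ℝ in 𝓝[<] π,
      (θ ^ 2 / 4 - (π - θ)) * A + 2 * (θ ^ 4 / (2 * π ^ 3)) * B ≤ ∫ x, ‖g x‖ ^ 2 := by
    have : Ioo (0:ℝ) π ∈ 𝓝[<] π := Ioo_mem_nhdsLT pi_pos
    filter_upwards [this] with θ hθ
    exact hstep θ hθ.1 hθ.2
  have h1 := le_of_tendsto hlim hle
  have e : (π ^ 2 / 4 - (π - π)) * A + 2 * (π ^ 4 / (2 * π ^ 3)) * B =
      π ^ 2 / 4 * A + π * B := by
    have := pi_pos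
    field_simp
    ring
  rwa [e] at h1

/-- The variance is nonnegative, being a multiple of a square. -/
lemma va_eq (x : ℝ) : ‖u x‖ ^ 2 * va u x = ‖‖u x‖ ^ 2 • Bop u x (u x) - mo u 1 x • u x‖ ^ 2 := by
  have h1 : mo u 2 x = ‖Bop u x (u x)‖ ^ 2 := by
    rw [mo, pow_two, ContinuousLinearMap.mul_apply, ← h.Bop_symm, real_inner_self_eq_norm_sq]
  have h2 : mo u 1 x = ⟪u x, Bop u x (u x)⟫ := by
    rw [mo, pow_one]
  rw [norm_sub_sq_real, norm_smul, norm_smul, real_inner_smul_left, real_inner_smul_right,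
    real_inner_comm (u x), ← h2, va, h1, Real.norm_eq_abs, Real.norm_eq_abs, mul_pow, mul_pow,
    sq_abs, sq_abs]
  ring

end SysW

end Pool.Agent.X188.LTR
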