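import Pool.Agent.X188.LTR3

/-!
# Uniqueness of the scalar optimisers
-/

set_option autoImplicit false
set_option linter.all false
set_option linter.deprecated false

open MeasureTheory Set Filter Topology Real

namespace Pool.Agent.X188.LTR

/-- A scalar function with equality. -/
structure Sc (f f' : ℝ → ℝ) : Prop where
  wd : WD f f'
  hf : Integrable (fun x => f x ^ 2)
  hf' : Integrable (fun x => f' x ^ 2)
  hm : ∫ x, f x ^ 2 ≤ 1
  heq : ∫ x, f' x ^ 2 ≤ π ^ 2 / 4 * ∫ x, f x ^ 6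

/-- The cumulative mass. -/
noncomputable def FD (f : ℝ → ℝ) (x : ℝ) : ℝ := ∫ y in Iic x, f y ^ 2

/-- The regularised tangent. -/
noncomputable def TT (θ : ℝ) (f : ℝ → ℝ) (x : ℝ) : ℝ := tan (θ * (FD f x - 1 / 2))

namespace Sc

variable {f f' : ℝ → ℝ} (h : Sc f f')
include h

lemma fc : Continuous f := h.wd.cont

lemma f'm : AEStronglyMeasurable f' volume := h.wd.aesm

lemma FD_deriv (x : ℝ) : HasDerivAt (FD f) (f x ^ 2) x := by
  have hform : FD f = fun x => FD f 0 + ∫ t in (0:ℝ)..x, f t ^ 2 := by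
    funext x
    have := intervalIntegral.integral_Iic_sub_Iic (f := fun t => f t ^ 2) (a := 0) (b := x)
      (μ := volume) h.hf.integrableOn h.hf.integrableOn
    simp only [FD]
    rw [← this]
    ring
  rw [hform]
  exact (intervalIntegral.integral_hasDerivAt_right h.hf.intervalIntegrable
    (h.hf.aestronglyMeasurable.stronglyMeasurableAtFilter)
    (h.fc.pow 2).continuousAt).const_add _

lemma FD_cont : Continuous (FD f) :=
  continuous_iff_continuousAt.2 fun x => (h.FD_deriv x).continuousAt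

lemma FD_nonneg (x : ℝ) : 0 ≤ FD f x :=
  setIntegral_nonneg measurableSet_Iic fun y _ => sq_nonneg _

lemma FD_le (x : ℝ) : FD f x ≤ 1 :=
  (setIntegral_le_integral h.hf (Eventually.of_forall fun y => sq_nonneg _)).trans h.hm

lemma FD_mono : Monotone (FD f) :=
  monotone_of_hasDerivAt_nonneg (fun x => h.FD_deriv x) fun x => sq_nonneg _

lemma sq_WD : WD (fun x => f x ^ 2) (fun x => 2 * (f x * f' x)) := by
  have h1 := h.wd.mul h.wd
  have e1 : (fun x => f x * f x) = fun x => f x ^ 2 := by funext x; ring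
  have e2 : (fun x => f' x * f x + f x * f' x) = fun x => 2 * (f x * f' x) := by funext x; ring
  rwa [e1, e2] at h1

lemma ff'_int : Integrable (fun x => 2 * (f x * f' x)) := by
  refine (h.hf.add h.hf').mono' ((h.fc.aestronglyMeasurable.mul h.f'm).const_mul 2)
    (Eventually.of_forall fun x => ?_)
  rw [Real.norm_eq_abs, abs_mul, abs_mul, abs_two]
  simp only [Pi.add_apply]
  nlinarith [sq_nonneg (|f x| - |f' x|), sq_abs (f x), sq_abs (f' x)]

lemma sq_top : Tendsto (fun x => f x ^ 2) atTop (𝓝 0) := h.sq_WD.tendsto_top h.hf h.ff'_int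

lemma sq_bot : Tendsto (fun x => f x ^ 2) atBot (𝓝 0) := h.sq_WD.tendsto_bot h.hf h.ff'_int

lemma sq_bdd : ∃ M, 0 ≤ M ∧ ∀ x, f x ^ 2 ≤ M := by
  refine ⟨f 0 ^ 2 + ∫ x, |2 * (f x * f' x)|, add_nonneg (sq_nonneg _)
    (integral_nonneg fun x => abs_nonneg _), fun x => ?_⟩
  have h3 := (h.sq_WD 0 x).2
  have h4 : |∫ y in (0:ℝ)..x, 2 * (f y * f' y)| ≤ ∫ y, |2 * (f y * f' y)| := by
    have h6 := intervalIntegral.norm_integral_le_integral_norm_uIoc (μ := volume)
      (f := fun y => 2 * (f y * f' y)) (a := 0) (b := x)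
    simp only [Real.norm_eq_abs] at h6
    refine h6.trans ?_
    exact setIntegral_le_integral h.ff'_int.abs (Eventually.of_forall fun y => abs_nonneg _)
  have h5 := le_abs_self (∫ y in (0:ℝ)..x, 2 * (f y * f' y))
  linarith

lemma six_int : Integrable (fun x => f x ^ 6) := by
  obtain ⟨M, hM0, hM⟩ := h.sq_bdd
  refine (h.hf.const_mul (M ^ 2)).mono' (h.fc.pow 6).aestronglyMeasurable
    (Eventually.of_forall fun x => ?_)
  have h0 : 0 ≤ f x ^ 2 := sq_nonneg _
  have e : f x ^ 6 = (f x ^ 2) ^ 2 * f x ^ 2 := by ring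
  rw [Real.norm_eq_abs, e, abs_of_nonneg (by positivity)]
  exact mul_le_mul_of_nonneg_right (pow_le_pow_left₀ h0 (hM x) 2) h0

section theta

variable {θ : ℝ} (h0 : 0 < θ) (h1 : θ < π)
include h0 h1

lemma arg_mem (x : ℝ) : θ * (FD f x - 1 / 2) ∈ Icc (-(θ / 2)) (θ / 2) := by
  have h2 := h.FD_nonneg x
  have h3 := h.FD_le x
  constructor <;> nlinarith

lemma arg_mem' (x : ℝ) : θ * (FD f x - 1 / 2) ∈ Ioo (-(π / 2)) (π / 2) := by
  have h2 := h.arg_mem h0 h1 x
  constructor <;> linarith [h2.1, h2.2]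

lemma TT_bound (x : ℝ) : |TT θ f x| ≤ tan (θ / 2) := by
  have h2 := h.arg_mem h0 h1 x
  have h3 := h.arg_mem' h0 h1 x
  rw [TT, abs_le, ← tan_neg]
  constructor
  · exact strictMonoOn_tan.monotoneOn ⟨by linarith, by linarith⟩ h3 h2.1
  · exact strictMonoOn_tan.monotoneOn h3 ⟨by linarith, by linarith⟩ h2.2

lemma TT_deriv (x : ℝ) : HasDerivAt (TT θ f) (θ * f x ^ 2 * (1 + TT θ f x ^ 2)) x := by
  have h3 := h.arg_mem' h0 h1 x
  have hc := cos_pos_of_mem_Ioo h3
  have h4 : HasDerivAt (fun x => θ * (FD f x - 1 / 2)) (θ * f x ^ 2) x :=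
    ((h.FD_deriv x).sub_const _).const_mul θ
  have h5 := (hasDerivAt_tan hc.ne').comp x h4
  refine h5.congr_deriv ?_
  rw [TT, tan_eq_sin_div_cos]
  have h6 := sin_sq_add_cos_sq (θ * (FD f x - 1 / 2))
  generalize θ * (FD f x - 1 / 2) = y at hc h6
  have h7 : 1 + (sin y / cos y) ^ 2 = 1 / cos y ^ 2 := by
    rw [div_pow]
    field_simp
    linarith
  rw [h7]
  ring

lemma TT_cont : Continuous (TT θ f) :=
  continuous_iff_continuousAt.2 fun x => (h.TT_deriv h0 h1 x).continuousAt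

lemma q_WD : WD (fun x => TT θ f x * f x ^ 4)
    (fun x => θ * f x ^ 6 * (1 + TT θ f x ^ 2) + 4 * (TT θ f x * f x ^ 3 * f' x)) := by
  have hT : WD (TT θ f) (fun x => θ * f x ^ 2 * (1 + TT θ f x ^ 2)) :=
    WD.of_deriv (h.TT_deriv h0 h1)
      ((continuous_const.mul (h.fc.pow 2)).mul
        (continuous_const.add ((h.TT_cont h0 h1).pow 2)))
  have h2 := hT.mul (h.sq_WD.mul h.sq_WD)
  have e1 : (fun x => TT θ f x * (f x ^ 2 * f x ^ 2)) = fun x => TT θ f x * f x ^ 4 := by
    funext x; ring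
  have e2 : (fun x => θ * f x ^ 2 * (1 + TT θ f x ^ 2) * (f x ^ 2 * f x ^ 2) +
      TT θ f x * (2 * (f x * f' x) * f x ^ 2 + f x ^ 2 * (2 * (f x * f' x)))) =
      fun x => θ * f x ^ 6 * (1 + TT θ f x ^ 2) + 4 * (TT θ f x * f x ^ 3 * f' x) := by
    funext x; ring
  rwa [e1, e2] at h2

lemma q'_int : Integrable
    (fun x => θ * f x ^ 6 * (1 + TT θ f x ^ 2) + 4 * (TT θ f x * f x ^ 3 * f' x)) := by
  set C := tan (θ / 2) with hC
  refine ((h.six_int.const_mul (θ * (1 + C ^ 2) + 2 * C)).add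
    (h.hf'.const_mul (2 * C))).mono' (h.q_WD h0 h1).aesm (Eventually.of_forall fun x => ?_)
  have h2 := h.TT_bound h0 h1 x
  rw [← hC] at h2
  have hC0 : 0 ≤ C := (abs_nonneg _).trans h2
  have h3 : TT θ f x ^ 2 ≤ C ^ 2 := by
    rw [← sq_abs]; exact pow_le_pow_left₀ (abs_nonneg _) h2 2
  have h6 : 0 ≤ f x ^ 6 := by positivity
  have h7 : |θ * f x ^ 6 * (1 + TT θ f x ^ 2)| ≤ θ * f x ^ 6 * (1 + C ^ 2) := by
    rw [abs_of_nonneg (by positivity)]
    exact mul_le_mul_of_nonneg_left (by linarith) (by positivity)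
  have h8 : |4 * (TT θ f x * f x ^ 3 * f' x)| ≤ 2 * C * (f x ^ 6 + f' x ^ 2) := by
    have h9 : |f x ^ 3 * f' x| ≤ (f x ^ 6 + f' x ^ 2) / 2 := by
      rw [abs_le]
      constructor <;> nlinarith [sq_nonneg (f x ^ 3 + f' x), sq_nonneg (f x ^ 3 - f' x)]
    have e : 4 * (TT θ f x * f x ^ 3 * f' x) = 4 * TT θ f x * (f x ^ 3 * f' x) := by ring
    rw [e, abs_mul, abs_mul]
    have h10 : |(4:ℝ)| = 4 := abs_of_pos (by norm_num)
    rw [h10]
    calc 4 * |TT θ f x| * |f x ^ 3 * f' x| ≤ 4 * C * ((f x ^ 6 + f' x ^ 2) / 2) :=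
          mul_le_mul (by linarith) h9 (abs_nonneg _) (by positivity)
      _ = 2 * C * (f x ^ 6 + f' x ^ 2) := by ring
  rw [Real.norm_eq_abs]
  refine (abs_add_le _ _).trans ?_
  simp only [Pi.add_apply]
  nlinarith

lemma q_lim {l : Filter ℝ} (hl : Tendsto (fun x => f x ^ 2) l (𝓝 0)) :
    Tendsto (fun x => TT θ f x * f x ^ 4) l (𝓝 0) := by
  have h2 : Tendsto (fun x => tan (θ / 2) * (f x ^ 2) ^ 2) l (𝓝 0) := by
    simpa using (hl.pow 2).const_mul (tan (θ / 2))
  refine squeeze_zero_norm (fun x => ?_) h2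
  rw [Real.norm_eq_abs, abs_mul]
  have e : |f x ^ 4| = (f x ^ 2) ^ 2 := by rw [abs_of_nonneg (by positivity)]; ring
  rw [e]
  exact mul_le_mul_of_nonneg_right (h.TT_bound h0 h1 x) (by positivity)

lemma q_zero : ∫ x, (θ * f x ^ 6 * (1 + TT θ f x ^ 2) + 4 * (TT θ f x * f x ^ 3 * f' x)) = 0 :=
  (h.q_WD h0 h1).integral_zero (h.q'_int h0 h1) (h.q_lim h0 h1 h.sq_top)
    (h.q_lim h0 h1 h.sq_bot)

/-- The exact deficit identity. -/
lemma deficit : Integrable (fun x => (f' x + θ / 2 * (TT θ f x * f x ^ 3)) ^ 2) ∧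
    ∫ x, (f' x + θ / 2 * (TT θ f x * f x ^ 3)) ^ 2 =
      (∫ x, f' x ^ 2) - θ ^ 2 / 4 * ∫ x, f x ^ 6 := by
  have e : (fun x => (f' x + θ / 2 * (TT θ f x * f x ^ 3)) ^ 2) = fun x =>
      (f' x ^ 2 - θ ^ 2 / 4 * f x ^ 6) + θ / 4 *
        (θ * f x ^ 6 * (1 + TT θ f x ^ 2) + 4 * (TT θ f x * f x ^ 3 * f' x)) := by
    funext x; ring
  have hi1 : Integrable (fun x => f' x ^ 2 - θ ^ 2 / 4 * f x ^ 6) :=
    h.hf'.sub (h.six_int.const_mul _)
  have hi2 := (h.q'_int h0 h1).const_mul (θ / 4)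
  constructor
  · rw [e]
    exact hi1.add hi2
  · rw [e, integral_add hi1 hi2, integral_const_mul, h.q_zero h0 h1,
      integral_sub h.hf' (h.six_int.const_mul _), integral_const_mul]
    ring

end theta

/-- The first order equation. -/
lemma first_order : ∀ᵐ x, 0 < FD f x → FD f x < 1 →
    f' x = -(π / 2 * (tan (π * (FD f x - 1 / 2)) * f x ^ 3)) := by
  set I : Set ℝ := {x | 0 < FD f x ∧ FD f x < 1} with hI
  have hIo : IsOpen I :=
    (isOpen_lt continuous_const h.FD_cont).inter (isOpen_lt h.FD_cont continuous_const)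
  set θk : ℕ → ℝ := fun k => π - π / ((k : ℝ) + 2) with hθk
  have hpi := pi_pos
  have hk0 : ∀ k, 0 < θk k := by
    intro k
    have h2 : π / ((k : ℝ) + 2) ≤ π / 2 :=
      div_le_div_of_nonneg_left hpi.le (by norm_num) (by
        have : (0:ℝ) ≤ k := Nat.cast_nonneg k
        linarith)
    simp only [hθk]
    linarith
  have hk1 : ∀ k, θk k < π := by
    intro k
    have : 0 < π / ((k : ℝ) + 2) := by positivity
    simp only [hθk]
    linarith
  have hkl : Tendsto θk atTop (𝓝 π) := by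
    have h2 : Tendsto (fun k : ℕ => π / ((k : ℝ) + 2)) atTop (𝓝 0) :=
      tendsto_const_nhds.div_atTop (tendsto_atTop_add_const_right _ _ tendsto_natCast_atTop_atTop)
    have h3 := h2.const_sub π
    rwa [sub_zero] at h3
  set S := ∫ x, f x ^ 6 with hS
  set hh : ℕ → ℝ → ENNReal := fun k x =>
    ENNReal.ofReal ((f' x + θk k / 2 * (TT (θk k) f x * f x ^ 3)) ^ 2) with hhh
  have hmeas : ∀ k, AEMeasurable (hh k) volume := by
    intro k
    have h2 : AEStronglyMeasurable
        (fun x => (f' x + θk k / 2 * (TT (θk k) f x * f x ^ 3)) ^ 2) volume :=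
      ((h.deficit (hk0 k) (hk1 k)).1).aestronglyMeasurable
    exact h2.aemeasurable.ennreal_ofReal
  have hbd : ∀ k, ∫⁻ x, hh k x ≤ ENNReal.ofReal ((π ^ 2 / 4 - θk k ^ 2 / 4) * S) := by
    intro k
    obtain ⟨h2, h3⟩ := h.deficit (hk0 k) (hk1 k)
    rw [← ofReal_integral_eq_lintegral_ofReal h2 (Eventually.of_forall fun x => sq_nonneg _), h3]
    refine ENNReal.ofReal_le_ofReal ?_
    have := h.heq
    rw [← hS] at this
    linarith
  have hlim0 : Tendsto (fun k => ENNReal.ofReal ((π ^ 2 / 4 - θk k ^ 2 / 4) * S)) atTop (𝓝 0) := by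
    have h2 : Tendsto (fun k => (π ^ 2 / 4 - θk k ^ 2 / 4) * S) atTop
        (𝓝 ((π ^ 2 / 4 - π ^ 2 / 4) * S)) :=
      (((hkl.pow 2).div_const 4).const_sub (π ^ 2 / 4)).mul_const S
    rw [sub_self, zero_mul] at h2
    have h3 := (ENNReal.continuous_ofReal.tendsto 0).comp h2
    rwa [ENNReal.ofReal_zero] at h3
  have hfat : ∫⁻ x, liminf (fun k => hh k x) atTop ≤ 0 := by
    refine (lintegral_liminf_le' hmeas).trans ?_
    have h2 : Tendsto (fun k => ∫⁻ x, hh k x) atTop (𝓝 0) :=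
      tendsto_of_tendsto_of_tendsto_of_le_of_le tendsto_const_nhds hlim0
        (fun k => zero_le) hbd
    exact h2.liminf_eq.le
  set Z : ℝ → ENNReal := fun x => ENNReal.ofReal
    ((f' x + π / 2 * (sin (π * (FD f x - 1 / 2)) / cos (π * (FD f x - 1 / 2)) * f x ^ 3)) ^ 2)
    with hZ
  have hZl : ∀ x ∈ I, liminf (fun k => hh k x) atTop = Z x := by
    intro x hx
    refine Tendsto.liminf_eq ?_
    refine (ENNReal.continuous_ofReal.tendsto _).comp ?_
    refine Tendsto.pow (Tendsto.const_add _ ?_) 2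
    refine (hkl.div_const 2).mul (Tendsto.mul_const _ ?_)
    have hc : cos (π * (FD f x - 1 / 2)) ≠ 0 := by
      refine (cos_pos_of_mem_Ioo ⟨?_, ?_⟩).ne' <;> nlinarith [hx.1, hx.2]
    have h2 : Tendsto (fun k => θk k * (FD f x - 1 / 2)) atTop (𝓝 (π * (FD f x - 1 / 2))) :=
      hkl.mul_const _
    rw [← tan_eq_sin_div_cos]
    exact (continuousAt_tan.2 hc).tendsto.comp h2
  have hZm : AEMeasurable Z volume := by
    have h2 : AEMeasurable f' volume := h.f'm.aemeasurable
    have h3 : Measurable (fun x => π / 2 *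
        (sin (π * (FD f x - 1 / 2)) / cos (π * (FD f x - 1 / 2)) * f x ^ 3)) := by
      have hF := h.FD_cont.measurable
      have hf := h.fc.measurable
      fun_prop
    exact ((h2.add h3.aemeasurable).pow_const 2).ennreal_ofReal
  have hfin : ∫⁻ x, I.indicator Z x = 0 := by
    refine le_antisymm (le_trans (lintegral_mono fun x => ?_) hfat) zero_le
    by_cases hx : x ∈ I
    · rw [indicator_of_mem hx, hZl x hx]
    · rw [indicator_of_notMem hx]
      exact zero_le
  rw [lintegral_eq_zero_iff' (hZm.indicator hIo.measurableSet)] at hfin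
  filter_upwards [hfin] with x hx h2 h3
  have hxI : x ∈ I := ⟨h2, h3⟩
  rw [indicator_of_mem hxI] at hx
  simp only [Pi.zero_apply, hZ, ENNReal.ofReal_eq_zero] at hx
  have h4 := le_antisymm hx (sq_nonneg _)
  have h5 := pow_eq_zero_iff (two_ne_zero) |>.1 h4
  rw [tan_eq_sin_div_cos]
  linarith

lemma tan_shift {y : ℝ} : tan (π * (y - 1 / 2)) = -(cos (π * y) / sin (π * y)) := by
  have e : π * (y - 1 / 2) = π * y - π / 2 := by ring
  rw [tan_eq_sin_div_cos, e, sin_sub_pi_div_two, cos_sub_pi_div_two, neg_div]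

/-- The first integral. -/
lemma first_integral {a b : ℝ} (hI : ∀ x ∈ uIcc a b, 0 < FD f x ∧ FD f x < 1) :
    f a ^ 2 * (sin (π * FD f a))⁻¹ = f b ^ 2 * (sin (π * FD f b))⁻¹ := by
  have hpi := pi_pos
  have hs : ∀ x ∈ uIcc a b, 0 < sin (π * FD f x) := by
    intro x hx
    obtain ⟨h1, h2⟩ := hI x hx
    exact sin_pos_of_pos_of_lt_pi (by positivity) (by nlinarith)
  have hFC : ContDiff ℝ 1 (FD f) := by
    rw [contDiff_one_iff_deriv]
    refine ⟨fun x => (h.FD_deriv x).differentiableAt, ?_⟩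
    have : deriv (FD f) = fun x => f x ^ 2 := funext fun x => (h.FD_deriv x).deriv
    rw [this]
    exact h.fc.pow 2
  have hsC : ContDiff ℝ 1 (fun x => sin (π * FD f x)) :=
    contDiff_sin.comp (contDiff_const.mul hFC)
  have hac1 : AbsolutelyContinuousOnInterval (fun x => (sin (π * FD f x))⁻¹) a b :=
    (hsC.contDiffOn.inv fun x hx => (hs x hx).ne').absolutelyContinuousOnInterval
  have hac2 := h.sq_WD.ac a b
  have hac := hac2.fun_mul hac1
  obtain ⟨C, hC⟩ := hac.const_of_ae_hasDerivAt_zero (by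
    filter_upwards [h.wd.ae, h.first_order] with x hx hfo hxI
    obtain ⟨h1, h2⟩ := hI x hxI
    have hfo' := hfo h1 h2
    have hsx := hs x hxI
    have h3 : HasDerivAt (fun x => f x ^ 2) (2 * f x * f' x) x := by
      have := hx.pow 2
      refine this.congr_deriv ?_
      push_cast
      ring
    have h4 : HasDerivAt (fun x => sin (π * FD f x)) (cos (π * FD f x) * (π * f x ^ 2)) x :=
      (hasDerivAt_sin _).comp x ((h.FD_deriv x).const_mul π)
    have h5 := h3.mul (h4.inv hsx.ne')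
    refine h5.congr_deriv ?_
    rw [hfo', h.tan_shift]
    simp only [Pi.inv_apply]
    field_simp
    ring)
  rw [hC a left_mem_uIcc, hC b right_mem_uIcc]

/-- **Uniqueness of the scalar optimisers.** -/
theorem unique {x₀ : ℝ} (hx₀ : f x₀ ≠ 0) :
    ∃ c a : ℝ, 0 < c ∧ ∀ x, f x ^ 2 = c / cosh (π * c * (x - a)) := by
  have hpi := pi_pos
  -- the zeros
  have hz0 : ∀ x, FD f x = 0 → f x ^ 2 = 0 := by
    intro x hx
    have hmin : IsLocalMin (FD f) x :=
      Eventually.of_forall fun y => by rw [hx]; exact h.FD_nonneg y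
    exact hmin.hasDerivAt_eq_zero (h.FD_deriv x)
  have hz1 : ∀ x, FD f x = 1 → f x ^ 2 = 0 := by
    intro x hx
    have hmax : IsLocalMax (FD f) x :=
      Eventually.of_forall fun y => by rw [hx]; exact h.FD_le y
    exact hmax.hasDerivAt_eq_zero (h.FD_deriv x)
  have hf0 : 0 < f x₀ ^ 2 := by positivity
  have hF0 : 0 < FD f x₀ := lt_of_le_of_ne (h.FD_nonneg _) fun he =>
    hf0.ne' (hz0 x₀ he.symm)
  have hF1 : FD f x₀ < 1 := lt_of_le_of_ne (h.FD_le _) fun he => hf0.ne' (hz1 x₀ he)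
  have hs0 : 0 < sin (π * FD f x₀) := sin_pos_of_pos_of_lt_pi (by positivity) (by nlinarith)
  set c : ℝ := f x₀ ^ 2 * (sin (π * FD f x₀))⁻¹ with hc
  have hc0 : 0 < c := by positivity
  have hode : ∀ x, f x ^ 2 = c * sin (π * FD f x) := by
    intro x
    rcases (h.FD_nonneg x).eq_or_lt with h1 | h1
    · rw [hz0 x h1.symm, ← h1]
      simp
    rcases (h.FD_le x).eq_or_lt with h2 | h2
    · rw [hz1 x h2, h2]
      simp
    have hsx : 0 < sin (π * FD f x) := sin_pos_of_pos_of_lt_pi (by positivity) (by nlinarith)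
    have hI : ∀ y ∈ uIcc x₀ x, 0 < FD f y ∧ FD f y < 1 := by
      intro y hy
      rcases le_total x₀ x with hle | hle
      · rw [uIcc_of_le hle] at hy
        exact ⟨hF0.trans_le (h.FD_mono hy.1), (h.FD_mono hy.2).trans_lt h2⟩
      · rw [uIcc_of_ge hle] at hy
        exact ⟨h1.trans_le (h.FD_mono hy.1), (h.FD_mono hy.2).trans_lt hF1⟩
    have h3 := h.first_integral hI
    rw [hc, h3]
    field_simp
  -- the explicit solution
  set t₀ : ℝ := tan (π * FD f x₀ / 2) with ht₀
  have hmem : π * FD f x₀ / 2 ∈ Ioo (-(π / 2)) (π / 2) := by constructor <;> nlinarith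
  have ht0 : 0 < t₀ := tan_pos_of_pos_of_lt_pi_div_two (by positivity) hmem.2
  set a : ℝ := x₀ - log t₀ / (π * c) with ha
  set A : ℝ → ℝ := fun x => 2 / π * arctan (exp (π * c * (x - a))) with hA
  have hcosh : ∀ s : ℝ, 2 * (exp s / (1 + exp s ^ 2)) = 1 / cosh s := by
    intro s
    rw [cosh_eq, exp_neg]
    have := exp_pos s
    field_simp
    ring
  have hAd : ∀ x, HasDerivAt A (c / cosh (π * c * (x - a))) x := by
    intro x
    have h1 : HasDerivAt (fun x : ℝ => π * c * (x - a)) (π * c) x := by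
      simpa using ((hasDerivAt_id x).sub_const a).const_mul (π * c)
    have h2 := (h1.exp.arctan).const_mul (2 / π)
    refine h2.congr_deriv ?_
    have h3 := hcosh (π * c * (x - a))
    have h4 : c / cosh (π * c * (x - a)) = c * (1 / cosh (π * c * (x - a))) := by ring
    rw [h4, ← h3]
    field_simp
  have hAs : ∀ x, c * sin (π * A x) = c / cosh (π * c * (x - a)) := by
    intro x
    have e : π * A x = 2 * arctan (exp (π * c * (x - a))) := by
      simp only [hA]; field_simp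
    have h3 := hcosh (π * c * (x - a))
    have h4 : c / cosh (π * c * (x - a)) = c * (1 / cosh (π * c * (x - a))) := by ring
    rw [e, sin_two_mul, h4, ← h3, sin_arctan, cos_arctan]
    generalize exp (π * c * (x - a)) = w
    have h5 : 0 < 1 + w ^ 2 := by positivity
    have h6 : √(1 + w ^ 2) ^ 2 = 1 + w ^ 2 := Real.sq_sqrt h5.le
    have h8 : 2 * (w / √(1 + w ^ 2)) * (1 / √(1 + w ^ 2)) = 2 * (w / √(1 + w ^ 2) ^ 2) := by
      ring
    rw [h8, h6]
  have hA0 : FD f x₀ = A x₀ := by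
    have e : π * c * (x₀ - a) = log t₀ := by
      rw [ha]; field_simp; ring
    simp only [hA]
    rw [e, exp_log ht0, ht₀, arctan_tan hmem.1 hmem.2]
    field_simp
  have hLip : LipschitzWith (Real.toNNReal (c * π)) (fun y : ℝ => c * sin (π * y)) := by
    refine lipschitzWith_of_nnnorm_deriv_le (fun y => ?_) fun y => ?_
    · fun_prop
    · have h1 : HasDerivAt (fun y : ℝ => c * sin (π * y)) (c * (cos (π * y) * π)) y := by
        have h2 : HasDerivAt (fun y : ℝ => π * y) π y := by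
          simpa using (hasDerivAt_id y).const_mul π
        exact (h2.sin).const_mul c
      rw [h1.deriv]
      refine NNReal.coe_le_coe.1 ?_
      rw [coe_nnnorm, Real.norm_eq_abs, Real.coe_toNNReal _ (by positivity), abs_mul c,
        abs_mul (cos (π * y)), abs_of_pos hc0, abs_of_pos hpi]
      have := abs_cos_le_one (π * y)
      have h3 : c * (|cos (π * y)| * π) ≤ c * (1 * π) :=
        mul_le_mul_of_nonneg_left (mul_le_mul_of_nonneg_right this hpi.le) hc0.le
      linarith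
  have hFA : FD f = A := by
    refine ODE_solution_unique_univ (v := fun _ y => c * sin (π * y)) (s := fun _ => univ)
      (K := Real.toNNReal (c * π)) (t₀ := x₀) (fun t => hLip.lipschitzOnWith)
      (fun t => ⟨?_, mem_univ _⟩) (fun t => ⟨?_, mem_univ _⟩) hA0
    · rw [← hode t]
      exact h.FD_deriv t
    · rw [hAs t]
      exact hAd t
  refine ⟨c, a, hc0, fun x => ?_⟩
  have h1 := h.FD_deriv x
  rw [hFA] at h1
  exact h1.unique (hAd x)

end Sc

end Pool.Agent.X188.LTR
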