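import Pool.Agent.X188.LTR4
import Pool.Agent.X188.LTR5

/-!
# Systems with equality
-/

set_option autoImplicit false
set_option linter.all false
set_option linter.deprecated false

open MeasureTheory Set Filter Topology Real
open scoped RealInnerProductSpace

namespace Pool.Agent.X188.LTR

open Pool.Helper490.Calib

variable {E : Type*} [NormedAddCommGroup E] [InnerProductSpace ℝ E] [FiniteDimensional ℝ E]

omit [FiniteDimensional ℝ E] in
lemma unit_norm {w : E} (hw : w ≠ 0) : ‖‖w‖⁻¹ • w‖ = 1 := by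
  rw [norm_smul, norm_inv, norm_norm, inv_mul_cancel₀ (norm_ne_zero_iff.2 hw)]

/-- A system with equality. -/
structure EqS (u g : ℝ → E) : Prop where
  sys : SysW u g
  heq : ∫ x, ‖g x‖ ^ 2 ≤ π ^ 2 / 4 * ∫ x, (‖u x‖ ^ 2) ^ 3

namespace SysW

variable {u g : ℝ → E} (h : SysW u g)
include h

lemma va_nonneg (x : ℝ) : 0 ≤ ‖u x‖ ^ 2 * va u x := by
  rw [h.va_eq]; exact sq_nonneg _

lemma sharp0 : π ^ 2 / 4 * (∫ x, (‖u x‖ ^ 2) ^ 3) ≤ ∫ x, ‖g x‖ ^ 2 := by
  have h1 := h.sharp'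
  have h2 : 0 ≤ π * ∫ x, ‖u x‖ ^ 2 * va u x :=
    mul_nonneg pi_pos.le (integral_nonneg fun x => h.va_nonneg x)
  linarith

/-- Restriction to a half line ending at a zero. -/
lemma cut {z : ℝ} (hz : u z = 0) {s : Set ℝ} (hs : s = Ioi z ∨ s = Iic z) :
    SysW (s.indicator u) (s.indicator g) := by
  have hsm : MeasurableSet s := by
    rcases hs with rfl | rfl
    · exact measurableSet_Ioi
    · exact measurableSet_Iic
  have hgi : ∀ a b, IntervalIntegrable (s.indicator g) volume a b := by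
    intro a b
    have h1 := h.hgi a b
    rw [intervalIntegrable_iff] at h1 ⊢
    exact h1.indicator hsm
  have hbase : ∀ b, ∫ x in z..b, s.indicator g x = s.indicator u b := by
    intro b
    rcases hs with rfl | rfl
    · rcases lt_or_ge z b with hb | hb
      · rw [indicator_of_mem (show b ∈ Ioi z from hb)]
        have h1 : ∫ x in z..b, (Ioi z).indicator g x = ∫ x in z..b, g x := by
          rw [intervalIntegral.integral_of_le hb.le, intervalIntegral.integral_of_le hb.le]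
          refine setIntegral_congr_fun measurableSet_Ioc fun x hx => ?_
          exact indicator_of_mem (show x ∈ Ioi z from hx.1) g
        rw [h1, ← h.hug, hz, sub_zero]
      · rw [indicator_of_notMem (show b ∉ Ioi z from not_lt.2 hb)]
        rw [intervalIntegral.integral_of_ge hb]
        rw [setIntegral_congr_fun (g := fun _ => (0 : E)) measurableSet_Ioc fun x hx =>
          indicator_of_notMem (show x ∉ Ioi z from not_lt.2 hx.2) g]
        simp
    · rcases lt_or_ge z b with hb | hb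
      · rw [indicator_of_notMem (show b ∉ Iic z from not_le.2 hb)]
        rw [intervalIntegral.integral_of_le hb.le]
        rw [setIntegral_congr_fun (g := fun _ => (0 : E)) measurableSet_Ioc fun x hx =>
          indicator_of_notMem (show x ∉ Iic z from not_le.2 hx.1) g]
        simp
      · rw [indicator_of_mem (show b ∈ Iic z from hb)]
        have h1 : ∫ x in z..b, (Iic z).indicator g x = ∫ x in z..b, g x := by
          rw [intervalIntegral.integral_of_ge hb, intervalIntegral.integral_of_ge hb]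
          congr 1
          refine setIntegral_congr_fun measurableSet_Ioc fun x hx => ?_
          exact indicator_of_mem (show x ∈ Iic z from hx.2) g
        rw [h1, ← h.hug, hz, sub_zero]
  have hn : ∀ (f : ℝ → E), (fun x => ‖s.indicator f x‖ ^ 2) = s.indicator fun x => ‖f x‖ ^ 2 := by
    intro f
    funext x
    by_cases hx : x ∈ s
    · rw [indicator_of_mem hx, indicator_of_mem hx]
    · rw [indicator_of_notMem hx, indicator_of_notMem hx, norm_zero]
      norm_num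
  refine ⟨hgi, ?_, ?_, ?_, ?_⟩
  · intro a b
    rw [← hbase b, ← hbase a]
    exact intervalIntegral.integral_interval_sub_left (hgi z b) (hgi z a)
  · rw [hn]; exact h.hui.indicator hsm
  · rw [hn]; exact h.hg2.indicator hsm
  · intro v
    refine le_trans (integral_mono_of_nonneg (Eventually.of_forall fun x => sq_nonneg _)
      (h.int_sq v) (Eventually.of_forall fun x => ?_)) (h.hbes v)
    by_cases hx : x ∈ s
    · simp only [indicator_of_mem hx]; exact le_rfl
    · simp only [indicator_of_notMem hx, inner_zero_left]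
      rw [zero_pow two_ne_zero]
      exact sq_nonneg _

end SysW

namespace EqS

variable {u g : ℝ → E} (h : EqS u g)
include h

lemma cut {z : ℝ} (hz : u z = 0) {s : Set ℝ} (hs : s = Ioi z ∨ s = Iic z) :
    EqS (s.indicator u) (s.indicator g) := by
  have hsm : MeasurableSet s := by
    rcases hs with rfl | rfl
    · exact measurableSet_Ioi
    · exact measurableSet_Iic
  have hsc : sᶜ = Ioi z ∨ sᶜ = Iic z := by
    rcases hs with rfl | rfl
    · right; exact compl_Ioi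
    · left; exact compl_Iic
  refine ⟨h.sys.cut hz hs, ?_⟩
  have h1 := (h.sys.cut hz hsc).sharp0
  have hn : ∀ (t : Set ℝ) (f : ℝ → E),
      (fun x => ‖t.indicator f x‖ ^ 2) = t.indicator fun x => ‖f x‖ ^ 2 := by
    intro t f
    funext x
    by_cases hx : x ∈ t
    · rw [indicator_of_mem hx, indicator_of_mem hx]
    · rw [indicator_of_notMem hx, indicator_of_notMem hx, norm_zero]
      norm_num
  have hn3 : ∀ (t : Set ℝ) (f : ℝ → E),
      (fun x => (‖t.indicator f x‖ ^ 2) ^ 3) = t.indicator fun x => (‖f x‖ ^ 2) ^ 3 := by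
    intro t f
    funext x
    by_cases hx : x ∈ t
    · rw [indicator_of_mem hx, indicator_of_mem hx]
    · rw [indicator_of_notMem hx, indicator_of_notMem hx, norm_zero]
      norm_num
  rw [hn, hn3, integral_indicator hsm.compl, integral_indicator hsm.compl] at h1
  rw [hn, hn3, integral_indicator hsm, integral_indicator hsm]
  have h2 := integral_add_compl hsm h.sys.hg2
  have h3 := integral_add_compl hsm h.sys.rho3_int
  have h4 := h.heq
  rw [← h2, ← h3] at h4
  linarith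

/-- The eigenvalue equation. -/
lemma eig (x : ℝ) : ‖u x‖ ^ 2 • Gam u x (u x) = ⟪Gam u x (u x), u x⟫ • u x := by
  have h1 := h.sys.sharp'
  have h2 := h.heq
  have h3 : ∫ x, ‖u x‖ ^ 2 * va u x = 0 := by
    refine le_antisymm ?_ (integral_nonneg fun x => h.sys.va_nonneg x)
    have : π * (∫ x, ‖u x‖ ^ 2 * va u x) ≤ π * 0 := by linarith
    exact le_of_mul_le_mul_left this pi_pos
  rw [integral_eq_zero_iff_of_nonneg (fun x => h.sys.va_nonneg x) h.sys.va_int] at h3
  have h4 : (fun x => ‖u x‖ ^ 2 * va u x) = fun _ => 0 :=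
    (Continuous.ae_eq_iff_eq (μ := volume) ((h.sys.uc.norm.pow 2).mul h.sys.va_cont)
      continuous_const).1 h3
  have h5 : ‖u x‖ ^ 2 * va u x = 0 := congrFun h4 x
  rw [h.sys.va_eq] at h5
  have h6 := sub_eq_zero.1 (norm_eq_zero.1 (pow_eq_zero_iff two_ne_zero |>.1 h5))
  have h7 : Bop u x (u x) = Gam u x (u x) - (1 / 2 : ℝ) • u x := by
    simp [Bop]
  have h8 : mo u 1 x = ⟪Gam u x (u x), u x⟫ - 1 / 2 * ‖u x‖ ^ 2 := by
    rw [mo, pow_one, real_inner_comm, h.sys.Bop_inner, real_inner_self_eq_norm_sq]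
  rw [h7, h8, smul_sub, sub_smul, smul_smul, mul_comm (1 / 2 : ℝ)] at h6
  exact sub_left_injective h6

/-- The eigenvalue. -/
noncomputable def lam (u : ℝ → E) (x : ℝ) : ℝ := ⟪Gam u x (u x), u x⟫ / ‖u x‖ ^ 2

lemma Gam_eq {x : ℝ} (hx : u x ≠ 0) : Gam u x (u x) = lam u x • u x := by
  have h1 := h.eig x
  have h2 : ‖u x‖ ^ 2 ≠ 0 := pow_ne_zero 2 (norm_ne_zero_iff.2 hx)
  rw [lam, div_eq_inv_mul, mul_smul, ← h1, smul_smul, inv_mul_cancel₀ h2, one_smul]

lemma lam_deriv {x : ℝ} (hx : u x ≠ 0) : HasDerivAt (lam u) (‖u x‖ ^ 2) x := by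
  have hn : ‖u x‖ ^ 2 ≠ 0 := pow_ne_zero 2 (norm_ne_zero_iff.2 hx)
  rw [hasDerivAt_iff_tendsto_slope]
  have hslope := (hasDerivAt_iff_tendsto_slope.1 (h.sys.Gam_deriv x))
  have huc := h.sys.uc
  have hu1 : Tendsto u (𝓝[≠] x) (𝓝 (u x)) := (huc.tendsto x).mono_left nhdsWithin_le_nhds
  have hin : Tendsto (fun y => ⟪u x, u y⟫) (𝓝[≠] x) (𝓝 (‖u x‖ ^ 2)) := by
    have h1 : Tendsto (fun y => ⟪u x, u y⟫) (𝓝[≠] x) (𝓝 ⟪u x, u x⟫) :=
      tendsto_const_nhds.inner hu1
    rwa [real_inner_self_eq_norm_sq] at h1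
  have hnum : Tendsto (fun y => ⟪u x, slope (Gam u) x y (u y)⟫) (𝓝[≠] x)
      (𝓝 (‖u x‖ ^ 2 * ‖u x‖ ^ 2)) := by
    have h1 : Tendsto (fun y => ⟪u x, slope (Gam u) x y (u y)⟫) (𝓝[≠] x)
        (𝓝 ⟪u x, R u x (u x)⟫) := tendsto_const_nhds.inner
          (((isBoundedBilinearMap_apply (𝕜 := ℝ) (E := E) (F := E)).continuous.tendsto
            (R u x, u x)).comp (hslope.prodMk_nhds hu1))
    have h2 : ⟪u x, R u x (u x)⟫ = ‖u x‖ ^ 2 * ‖u x‖ ^ 2 := by
      rw [Pool.Helper490.Calib.R_apply, real_inner_smul_right, real_inner_self_eq_norm_sq]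
    rwa [h2] at h1
  have hq := hnum.div hin hn
  have e : ‖u x‖ ^ 2 * ‖u x‖ ^ 2 / ‖u x‖ ^ 2 = ‖u x‖ ^ 2 := by field_simp
  rw [e] at hq
  refine hq.congr' ?_
  have hne : ∀ᶠ y in 𝓝[≠] x, u y ≠ 0 := hu1.eventually_ne hx
  have hne2 : ∀ᶠ y in 𝓝[≠] x, ⟪u x, u y⟫ ≠ 0 := hin.eventually_ne hn
  filter_upwards [hne, hne2] with y hy hy2
  simp only [Pi.div_apply]
  rw [div_eq_iff hy2, slope_def_module, slope_def_module]
  rw [ContinuousLinearMap.smul_apply, real_inner_smul_right, smul_eq_mul,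
    ContinuousLinearMap.sub_apply, inner_sub_right, h.Gam_eq hy, real_inner_smul_right]
  have h1 : ⟪u x, Gam u x (u y)⟫ = lam u x * ⟪u x, u y⟫ := by
    have h2 : ⟪u x, Gam u x (u y)⟫ = ⟪Gam u x (u x), u y⟫ := by
      rw [real_inner_comm, h.sys.Gam_inner, h.sys.Gam_inner]
      congr 1
      funext t
      ring
    rw [h2, h.Gam_eq hx, real_inner_smul_left]
  rw [h1]
  ring

/-- The cumulative mass. -/
noncomputable def FT (u : ℝ → E) (x : ℝ) : ℝ := ∫ y in Iic x, ‖u y‖ ^ 2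

lemma FT_deriv (x : ℝ) : HasDerivAt (FT u) (‖u x‖ ^ 2) x := by
  have hform : FT u = fun x => FT u 0 + ∫ t in (0:ℝ)..x, ‖u t‖ ^ 2 := by
    funext x
    have := intervalIntegral.integral_Iic_sub_Iic (f := fun t => ‖u t‖ ^ 2) (a := 0) (b := x)
      (μ := volume) h.sys.hui.integrableOn h.sys.hui.integrableOn
    simp only [FT]
    rw [← this]
    ring
  rw [hform]
  exact (intervalIntegral.integral_hasDerivAt_right h.sys.hui.intervalIntegrable
    (h.sys.hui.aestronglyMeasurable.stronglyMeasurableAtFilter)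
    (h.sys.uc.norm.pow 2).continuousAt).const_add _

lemma FT_cont : Continuous (FT u) :=
  continuous_iff_continuousAt.2 fun x => (h.FT_deriv x).continuousAt

lemma FT_bot : Tendsto (FT u) atBot (𝓝 0) := by
  have h1 := intervalIntegral_tendsto_integral_Iic (0:ℝ)
    (h.sys.hui.integrableOn (s := Iic 0)) tendsto_id
  have h2 : Tendsto (fun x => FT u 0 - ∫ t in id x..(0:ℝ), ‖u t‖ ^ 2) atBot
      (𝓝 (FT u 0 - FT u 0)) := h1.const_sub _
  rw [sub_self] at h2
  refine h2.congr fun x => ?_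
  have := intervalIntegral.integral_Iic_sub_Iic (f := fun t => ‖u t‖ ^ 2) (a := x) (b := 0)
      (μ := volume) h.sys.hui.integrableOn h.sys.hui.integrableOn
  simp only [FT, id]
  rw [← this]
  ring

/-- The eigenvalue is the mass carried along the unit vector. -/
lemma lam_eq {x : ℝ} (hx : u x ≠ 0) :
    lam u x = ∫ y in Iic x, ⟪u y, ‖u x‖⁻¹ • u x⟫ ^ 2 := by
  have hn : ‖u x‖ ≠ 0 := norm_ne_zero_iff.2 hx
  have h1 : lam u x = ⟪Gam u x (‖u x‖⁻¹ • u x), ‖u x‖⁻¹ • u x⟫ := by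
    rw [map_smul, real_inner_smul_left, real_inner_smul_right, lam]
    field_simp
  rw [h1, h.sys.Gam_inner]
  congr 1
  funext y
  ring

lemma inner_le {v w : E} (hv : ‖v‖ = 1) : ⟪w, v⟫ ^ 2 ≤ ‖w‖ ^ 2 := by
  have h1 := abs_real_inner_le_norm w v
  rw [hv, mul_one] at h1
  rw [← sq_abs]
  exact pow_le_pow_left₀ (abs_nonneg _) h1 2

lemma lam_le {x : ℝ} (hx : u x ≠ 0) : lam u x ≤ FT u x := by
  rw [h.lam_eq hx, FT]
  have hv : ‖‖u x‖⁻¹ • u x‖ = 1 := unit_norm hx
  exact setIntegral_mono (h.sys.int_sq _).integrableOn h.sys.hui.integrableOn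
    fun y => h.inner_le hv

lemma lam_nonneg {x : ℝ} (hx : u x ≠ 0) : 0 ≤ lam u x := by
  rw [h.lam_eq hx]
  exact setIntegral_nonneg measurableSet_Iic fun y _ => sq_nonneg _

section conn

variable (hJ : OrdConnected {x | u x ≠ 0})
include hJ

lemma lam_eq_FT {x : ℝ} (hx : u x ≠ 0) : lam u x = FT u x := by
  refine le_antisymm (h.lam_le hx) ?_
  by_contra hlt
  push Not at hlt
  set G₀ := FT u x - lam u x with hG₀
  have hG0 : 0 < G₀ := sub_pos.2 hlt
  have hopen : IsOpen {x | u x ≠ 0} := isOpen_ne_fun h.sys.uc continuous_const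
  have hder : ∀ y ∈ {x | u x ≠ 0}, HasDerivAt (fun y => FT u y - lam u y) 0 y := by
    intro y hy
    have := (h.FT_deriv y).sub (h.lam_deriv hy)
    rwa [sub_self] at this
  have hconst : ∀ y, u y ≠ 0 → FT u y - lam u y = G₀ := by
    intro y hy
    exact hopen.is_const_of_deriv_eq_zero (f := fun y => FT u y - lam u y) hJ.isPreconnected
      (fun z hz => (hder z hz).differentiableAt.differentiableWithinAt)
      (fun z hz => (hder z hz).deriv) hy hx
  have hge : ∀ y, u y ≠ 0 → G₀ ≤ FT u y := by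
    intro y hy
    have := hconst y hy
    have := h.lam_nonneg hy
    linarith
  -- choose a point with small positive mass
  have hev : ∀ᶠ z in atBot, FT u z < G₀ / 2 := h.FT_bot.eventually_lt_const (by positivity)
  obtain ⟨z, hz1, hz2⟩ := (hev.and (eventually_le_atBot x)).exists
  have hivt := intermediate_value_Icc hz2 h.FT_cont.continuousOn
  have hx' := hge x hx
  obtain ⟨y, hy, hy2⟩ := hivt (show G₀ / 2 ∈ Icc (FT u z) (FT u x) from
    ⟨hz1.le, by linarith⟩)
  have hyx : y ≤ x := hy.2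
  -- some mass to the left of `y`
  have hex : ∃ t ∈ Iic y, u t ≠ 0 := by
    by_contra hno
    push Not at hno
    have : FT u y = 0 := by
      rw [FT, setIntegral_congr_fun (g := fun _ => (0:ℝ)) measurableSet_Iic fun t ht => by
        simp only [hno t ht, norm_zero]; norm_num]
      simp
    linarith
  obtain ⟨t, ht, ht2⟩ := hex
  have hyJ : u y ≠ 0 := hJ.out ht2 hx ⟨ht, hyx⟩
  have := hge y hyJ
  linarith

lemma parallel {x : ℝ} (hx : u x ≠ 0) {y : ℝ} (hy : y ≤ x) :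
    u y = ⟪u y, ‖u x‖⁻¹ • u x⟫ • (‖u x‖⁻¹ • u x) := by
  set v := ‖u x‖⁻¹ • u x with hv
  have hv1 : ‖v‖ = 1 := unit_norm hx
  have hkey : ∀ w : E, ‖w‖ ^ 2 - ⟪w, v⟫ ^ 2 = ‖w - ⟪w, v⟫ • v‖ ^ 2 := by
    intro w
    rw [norm_sub_sq_real, norm_smul, real_inner_smul_right w v ⟪w, v⟫, hv1, Real.norm_eq_abs,
      mul_one, sq_abs]
    ring
  have hint : ∫ y in Iic x, (‖u y‖ ^ 2 - ⟪u y, v⟫ ^ 2) = 0 := by
    rw [integral_sub h.sys.hui.integrableOn (h.sys.int_sq _).integrableOn]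
    have h1 := h.lam_eq_FT hJ hx
    rw [h.lam_eq hx, FT] at h1
    rw [h1, sub_self]
  have hc : Continuous fun y => ‖u y‖ ^ 2 - ⟪u y, v⟫ ^ 2 :=
    (h.sys.uc.norm.pow 2).sub ((h.sys.uc.inner continuous_const).pow 2)
  have hnn : ∀ y, 0 ≤ ‖u y‖ ^ 2 - ⟪u y, v⟫ ^ 2 := fun y => by rw [hkey]; exact sq_nonneg _
  have hae := (setIntegral_eq_zero_iff_of_nonneg_ae (Eventually.of_forall fun y => hnn y)
    (h.sys.hui.integrableOn.sub (h.sys.int_sq _).integrableOn)).1 hint
  have hz : ∀ y ∈ Iio x, ‖u y‖ ^ 2 - ⟪u y, v⟫ ^ 2 = 0 := by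
    have h2 : (fun y => ‖u y‖ ^ 2 - ⟪u y, v⟫ ^ 2) =ᵐ[volume.restrict (Iio x)] fun _ => (0:ℝ) :=
      ae_restrict_of_ae_restrict_of_subset Iio_subset_Iic_self hae
    have h3 := Measure.eqOn_open_of_ae_eq h2 isOpen_Iio hc.continuousOn continuousOn_const
    exact fun y hy => h3 hy
  have hfin : ‖u y‖ ^ 2 - ⟪u y, v⟫ ^ 2 = 0 := by
    rcases hy.eq_or_lt with rfl | hlt
    · have : ⟪u y, v⟫ = ‖u y‖ := by
        rw [hv, real_inner_smul_right, real_inner_self_eq_norm_sq]
        have := norm_ne_zero_iff.2 hx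
        field_simp
      rw [this, sub_self]
    · exact hz y hlt
  rw [hkey] at hfin
  exact sub_eq_zero.1 (norm_eq_zero.1 (pow_eq_zero_iff two_ne_zero |>.1 hfin))

/-- The main structure theorem on an interval. -/
lemma main {x₀ : ℝ} (hx₀ : u x₀ ≠ 0) : ∃ (v : E) (c a : ℝ), ‖v‖ = 1 ∧ 0 < c ∧
    (∀ x, u x = ⟪v, u x⟫ • v) ∧ ∀ x, ⟪v, u x⟫ ^ 2 = c / cosh (π * c * (x - a)) := by
  set v := ‖u x₀‖⁻¹ • u x₀ with hv
  have hv1 : ‖v‖ = 1 := unit_norm hx₀
  have hline : ∀ w : E, (∃ t : ℝ, w = t • v) → w = ⟪v, w⟫ • v := by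
    rintro w ⟨t, rfl⟩
    rw [real_inner_smul_right, real_inner_self_eq_norm_sq, hv1]
    norm_num
  have hall : ∀ x, u x = ⟪v, u x⟫ • v := by
    intro x
    refine hline _ ?_
    rcases le_total x x₀ with hle | hle
    · exact ⟨_, h.parallel hJ hx₀ hle⟩
    · by_cases hx : u x = 0
      · exact ⟨0, by rw [hx, zero_smul]⟩
      · have h1 := h.parallel hJ hx hle
        set s := ⟪u x₀, ‖u x‖⁻¹ • u x⟫ with hs
        have hs0 : s ≠ 0 := by
          intro h0
          rw [h0, zero_smul] at h1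
          exact hx₀ h1
        have hn : ‖u x‖ ≠ 0 := norm_ne_zero_iff.2 hx
        have hn0 : ‖u x₀‖ ≠ 0 := norm_ne_zero_iff.2 hx₀
        refine ⟨‖u x‖ * s⁻¹ * ‖u x₀‖, ?_⟩
        rw [hv, smul_smul, mul_assoc (‖u x‖ * s⁻¹), mul_inv_cancel₀ hn0, mul_one]
        conv_rhs => rw [h1]
        rw [smul_smul, smul_smul]
        have : ‖u x‖ * s⁻¹ * s * ‖u x‖⁻¹ = 1 := by field_simp
        rw [this, one_smul]
  have hsq : ∀ x, ‖u x‖ ^ 2 = ⟪v, u x⟫ ^ 2 := by
    intro x
    conv_lhs => rw [hall x]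
    rw [norm_smul, hv1, mul_one, Real.norm_eq_abs, sq_abs]
  have hle : ∀ w : E, ⟪v, w⟫ ^ 2 ≤ ‖w‖ ^ 2 := by
    intro w
    rw [real_inner_comm]
    exact h.inner_le hv1
  have hwd := h.sys.inner_WD v
  have hf2 : Integrable (fun x => ⟪v, u x⟫ ^ 2) := by
    have := h.sys.hui
    simpa only [hsq] using this
  have hg2 : Integrable (fun x => ⟪v, g x⟫ ^ 2) :=
    h.sys.hg2.mono' (hwd.aesm.pow 2) (Eventually.of_forall fun x => by
      rw [Real.norm_eq_abs, abs_of_nonneg (sq_nonneg _)]; exact hle _)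
  have hSc : Sc (fun x => ⟪v, u x⟫) (fun x => ⟪v, g x⟫) := by
    refine ⟨hwd, hf2, hg2, ?_, ?_⟩
    · have h1 := h.sys.hbes v
      rw [hv1] at h1
      have h2 : (fun x => ⟪v, u x⟫ ^ 2) = fun x => ⟪u x, v⟫ ^ 2 := by
        funext x; rw [real_inner_comm]
      rw [h2]
      linarith
    · have h1 := integral_mono hg2 h.sys.hg2 fun x => hle (g x)
      have h2 := h.heq
      have h3 : ∀ x, (‖u x‖ ^ 2) ^ 3 = ⟪v, u x⟫ ^ 6 := by
        intro x
        rw [hsq]; ring
      simp only [h3] at h2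
      exact h1.trans h2
  have hne : (fun x => ⟪v, u x⟫) x₀ ≠ 0 := by
    intro h0
    have h1 := hall x₀
    have h0' : ⟪v, u x₀⟫ = 0 := h0
    rw [h0', zero_smul] at h1
    exact hx₀ h1
  obtain ⟨c, a, hc, hca⟩ := hSc.unique hne
  exact ⟨v, c, a, hv1, hc, hall, hca⟩

end conn

/-- Systems with equality have no zeros and are multiples of one function. -/
theorem classify {x₀ : ℝ} (hx₀ : u x₀ ≠ 0) : ∃ (v : E) (c a : ℝ), ‖v‖ = 1 ∧ 0 < c ∧
    (∀ x, u x = ⟪v, u x⟫ • v) ∧ ∀ x, ⟪v, u x⟫ ^ 2 = c / cosh (π * c * (x - a)) := by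
  -- left
  have hL : ∃ u₁ g₁ : ℝ → E, EqS u₁ g₁ ∧ u₁ x₀ ≠ 0 ∧
      (∀ y ≤ x₀, u₁ y = 0 → ∀ t ≤ y, u₁ t = 0) ∧ ((∃ z, u z = 0) → ∃ z, u₁ z = 0) := by
    by_cases hz : ∃ z ≤ x₀, u z = 0
    · set Z : Set ℝ := {y | y ≤ x₀ ∧ u y = 0} with hZ
      have hZc : IsClosed Z :=
        (isClosed_le continuous_id continuous_const).inter
          (isClosed_eq h.sys.uc continuous_const)
      have hZn : Z.Nonempty := by obtain ⟨z, hz1, hz2⟩ := hz; exact ⟨z, hz1, hz2⟩
      have hZb : BddAbove Z := ⟨x₀, fun y hy => hy.1⟩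
      have hmem := hZc.csSup_mem hZn hZb
      set z := sSup Z with hzdef
      have hzlt : z < x₀ := lt_of_le_of_ne hmem.1 fun he => hx₀ (he ▸ hmem.2)
      refine ⟨_, _, h.cut hmem.2 (Or.inl rfl), ?_, ?_, ?_⟩
      · rw [indicator_of_mem (show x₀ ∈ Ioi z from hzlt)]
        exact hx₀
      · intro y hy hy0 t ht
        have hyz : y ≤ z := by
          by_contra hlt
          push Not at hlt
          rw [indicator_of_mem (show y ∈ Ioi z from hlt)] at hy0
          exact absurd (le_csSup hZb (show y ∈ Z from ⟨hy, hy0⟩)) (not_le.2 hlt)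
        exact indicator_of_notMem (show t ∉ Ioi z from not_lt.2 (ht.trans hyz)) u
      · intro _
        exact ⟨z, indicator_of_notMem (show z ∉ Ioi z from lt_irrefl z) u⟩
    · push Not at hz
      exact ⟨u, g, h, hx₀, fun y hy hy0 => absurd hy0 (hz y hy), fun h => h⟩
  obtain ⟨u₁, g₁, h₁, hu₁, hL1, hL2⟩ := hL
  have hR : ∃ u₂ g₂ : ℝ → E, EqS u₂ g₂ ∧ u₂ x₀ ≠ 0 ∧
      (∀ y ≤ x₀, u₂ y = 0 → ∀ t ≤ y, u₂ t = 0) ∧ (∀ y ≥ x₀, u₂ y = 0 → ∀ t ≥ y, u₂ t = 0) ∧
      ((∃ z, u₁ z = 0) → ∃ z, u₂ z = 0) := by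
    by_cases hz : ∃ z ≥ x₀, u₁ z = 0
    · set Z : Set ℝ := {y | x₀ ≤ y ∧ u₁ y = 0} with hZ
      have hZc : IsClosed Z :=
        (isClosed_le continuous_const continuous_id).inter
          (isClosed_eq h₁.sys.uc continuous_const)
      have hZn : Z.Nonempty := by obtain ⟨z, hz1, hz2⟩ := hz; exact ⟨z, hz1, hz2⟩
      have hZb : BddBelow Z := ⟨x₀, fun y hy => hy.1⟩
      have hmem := hZc.csInf_mem hZn hZb
      set z := sInf Z with hzdef
      have hzlt : x₀ < z := lt_of_le_of_ne hmem.1 fun he => hu₁ (he ▸ hmem.2)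
      have hin : ∀ y ≤ z, (Iic z).indicator u₁ y = u₁ y := fun y hy =>
        indicator_of_mem (show y ∈ Iic z from hy) u₁
      refine ⟨_, _, h₁.cut hmem.2 (Or.inr rfl), ?_, ?_, ?_, ?_⟩
      · rw [hin x₀ hzlt.le]
        exact hu₁
      · intro y hy hy0 t ht
        rw [hin y (hy.trans hzlt.le)] at hy0
        rw [hin t (ht.trans (hy.trans hzlt.le))]
        exact hL1 y hy hy0 t ht
      · intro y hy hy0 t ht
        have hyz : z ≤ y := by
          by_contra hlt
          push Not at hlt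
          rw [hin y hlt.le] at hy0
          exact absurd (csInf_le hZb (show y ∈ Z from ⟨hy, hy0⟩)) (not_le.2 hlt)
        rcases (hyz.trans ht).eq_or_lt with he | hlt
        · rw [← he, hin z le_rfl]
          exact hmem.2
        · exact indicator_of_notMem (show t ∉ Iic z from not_le.2 hlt) u₁
      · intro _
        exact ⟨z, by rw [hin z le_rfl]; exact hmem.2⟩
    · push Not at hz
      exact ⟨u₁, g₁, h₁, hu₁, hL1, fun y hy hy0 => absurd hy0 (hz y hy), fun h => h⟩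
  obtain ⟨u₂, g₂, h₂, hu₂, hR1, hR2, hR3⟩ := hR
  have hJ2 : OrdConnected {x | u₂ x ≠ 0} := by
    refine ⟨fun a ha c hc b hb => ?_⟩
    intro hb0
    rcases le_total b x₀ with hle | hle
    · exact ha (hR1 b hle hb0 a hb.1)
    · exact hc (hR2 b hle hb0 c hb.2)
  obtain ⟨v, c, a, hv, hc, hall, hca⟩ := h₂.main hJ2 hu₂
  have hnz : ¬ ∃ z, u z = 0 := by
    intro hz
    obtain ⟨z, hz0⟩ := hR3 (hL2 hz)
    have h1 := hca z
    rw [hz0, inner_zero_right] at h1
    have h2 : 0 < c / cosh (π * c * (z - a)) := div_pos hc (cosh_pos _)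
    rw [← h1] at h2
    norm_num at h2
  push Not at hnz
  refine h.main ⟨fun a _ c _ b _ => hnz b⟩ hx₀

end EqS

end Pool.Agent.X188.LTR
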