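import Pool.Agent.X188.LTR6
import Pool.Agent.Helper490.LTH1C

/-!
# Complex families
-/

set_option autoImplicit false
set_option linter.all false
set_option linter.deprecated false

open MeasureTheory Set Filter Topology Real
open scoped RealInnerProductSpace

namespace Pool.Agent.X188.LTR

open Pool.Helper490.Calib

/-- A family of functions in the Sobolev space whose Gram matrix is at most one. -/
structure CSys {N : ℕ} (u g : Fin N → ℝ → ℂ) : Prop where
  hu2 : ∀ n, MemLp (u n) 2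
  hg2 : ∀ n, MemLp (g n) 2
  hug : ∀ n a b, u n b - u n a = ∫ x in a..b, g n x
  hG : ∀ c : Fin N → ℂ, ∫ x, ‖∑ n, c n * u n x‖ ^ 2 ≤ ∑ n, ‖c n‖ ^ 2

/-- The real coordinates. -/
noncomputable def rl {N : ℕ} (u : Fin N → ℝ → ℂ) (x : ℝ) : EuclideanSpace ℝ (Fin N ⊕ Fin N) :=
  realify fun n => u n x

lemma rl_norm {N : ℕ} (u : Fin N → ℝ → ℂ) (x : ℝ) : ‖rl u x‖ ^ 2 = ∑ n, ‖u n x‖ ^ 2 :=
  realify_norm _

/-- The real overlap. -/
noncomputable def ov {N : ℕ} (u : Fin N → ℝ → ℂ) (x y : ℝ) : ℝ := (∑ n, star (u n x) * u n y).re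

lemma rl_inner {N : ℕ} (u : Fin N → ℝ → ℂ) (x y : ℝ) : ⟪rl u y, rl u x⟫ = ov u x y := by
  rw [rl, realify_inner, ov]
  rfl

/-- The projected function. -/
noncomputable def pr {N : ℕ} (u : Fin N → ℝ → ℂ) (x : ℝ) (n : Fin N) : ℂ :=
  ∫ y in Iic x, (ov u x y : ℂ) * u n y

/-- The remainder. -/
noncomputable def rem {N : ℕ} (u : Fin N → ℝ → ℂ) (x : ℝ) : ℝ :=
  (∑ n, ‖u n x‖ ^ 2) * ((∑ n, ‖u n x‖ ^ 2) * (∑ n, ‖pr u x n‖ ^ 2) -
    (∫ y in Iic x, ov u x y ^ 2) ^ 2)

namespace SysW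

variable {E : Type*} [NormedAddCommGroup E] [InnerProductSpace ℝ E] [FiniteDimensional ℝ E]
variable {u g : ℝ → E} (h : SysW u g)
include h

lemma va_Gam (x : ℝ) : va u x = ‖u x‖ ^ 2 * ‖Gam u x (u x)‖ ^ 2 -
    (∫ y in Iic x, ⟪u y, u x⟫ ^ 2) ^ 2 := by
  have h1 : mo u 2 x = ‖Bop u x (u x)‖ ^ 2 := by
    rw [mo, pow_two, ContinuousLinearMap.mul_apply, ← h.Bop_symm, real_inner_self_eq_norm_sq]
  have h2 : mo u 1 x = ⟪Gam u x (u x), u x⟫ - 1 / 2 * ‖u x‖ ^ 2 := by
    rw [mo, pow_one, real_inner_comm, h.Bop_inner, real_inner_self_eq_norm_sq]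
  have h3 : Bop u x (u x) = Gam u x (u x) - (1 / 2 : ℝ) • u x := by
    simp [Bop]
  have h4 : ‖Bop u x (u x)‖ ^ 2 = ‖Gam u x (u x)‖ ^ 2 - ⟪Gam u x (u x), u x⟫ +
      1 / 4 * ‖u x‖ ^ 2 := by
    rw [h3, norm_sub_sq_real, real_inner_smul_right, norm_smul]
    norm_num
    ring
  have h5 : ⟪Gam u x (u x), u x⟫ = ∫ y in Iic x, ⟪u y, u x⟫ ^ 2 := by
    rw [h.Gam_inner]
    congr 1
    funext y
    ring
  rw [va, h1, h2, h4, ← h5]
  ring

end SysW

namespace CSys

variable {N : ℕ} {u g : Fin N → ℝ → ℂ} (h : CSys u g)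
include h

lemma hui (n : Fin N) : Integrable (fun x => ‖u n x‖ ^ 2) :=
  (h.hu2 n).integrable_norm_pow (by norm_num)

lemma hgi (n : Fin N) : Integrable (fun x => ‖g n x‖ ^ 2) :=
  (h.hg2 n).integrable_norm_pow (by norm_num)

lemma hII (n : Fin N) (a b : ℝ) : IntervalIntegrable (g n) volume a b := by
  have h1 : LocallyIntegrable (g n) volume := (h.hg2 n).locallyIntegrable (by norm_num)
  exact intervalIntegrable_iff.2 ((h1.integrableOn_isCompact isCompact_uIcc).mono_set
    uIoc_subset_uIcc)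

lemma sysW : SysW (rl u) (rl g) := by
  have hpi : ∀ a b, IntervalIntegrable (fun x => fun n => g n x) volume a b := by
    intro a b
    rw [intervalIntegrable_iff]
    exact Integrable.of_eval fun n => intervalIntegrable_iff.1 (h.hII n a b)
  refine ⟨?_, ?_, ?_, ?_, ?_⟩
  · intro a b
    have h1 := hpi a b
    rw [intervalIntegrable_iff] at h1 ⊢
    exact (realifyL N).integrable_comp h1
  · intro a b
    have h1 := (realifyL N).intervalIntegral_comp_comm (hpi a b)
    simp only [realifyL_apply] at h1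
    have h3 : (∫ x in a..b, rl g x) = realify (∫ x in a..b, fun n => g n x) := h1
    rw [h3]
    have h4 : rl u b - rl u a = realify ((fun n => u n b) - fun n => u n a) := by
      rw [← realifyL_apply, map_sub]
      rfl
    rw [h4]
    congr 1
    funext n
    rw [Pi.sub_apply, h.hug n a b]
    have h2 := (ContinuousLinearMap.proj (R := ℝ) (φ := fun _ : Fin N => ℂ)
      n).intervalIntegral_comp_comm (hpi a b)
    simpa using h2
  · simp only [rl_norm]
    exact integrable_finsetSum _ fun n _ => h.hui n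
  · simp only [rl_norm]
    exact integrable_finsetSum _ fun n _ => h.hgi n
  · intro v
    set z : Fin N → ℂ := fun n => ⟨v (Sum.inl n), v (Sum.inr n)⟩ with hz
    have hinner : ∀ x, ⟪rl u x, v⟫ = (∑ n, star (z n) * u n x).re := fun x => realify_inner _ v
    have hv : ‖v‖ ^ 2 = ∑ n, ‖star (z n)‖ ^ 2 := by
      rw [EuclideanSpace.norm_sq_eq, Fintype.sum_sum_type, ← Finset.sum_add_distrib]
      refine Finset.sum_congr rfl fun n _ => ?_
      rw [norm_star, sqn]
      simp [hz]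
    have hm : MemLp (fun x => ∑ n, star (z n) * u n x) 2 :=
      memLp_finsetSum _ fun n _ => (h.hu2 n).const_mul _
    rw [hv]
    refine le_trans ?_ (h.hG fun n => star (z n))
    refine integral_mono_of_nonneg (Eventually.of_forall fun x => sq_nonneg _)
      (hm.integrable_norm_pow (by norm_num)) (Eventually.of_forall fun x => ?_)
    simp only [hinner]
    rw [sqn]
    nlinarith [sq_nonneg (∑ n, star (z n) * u n x).im]

lemma proj_eq (x : ℝ) : realify (pr u x) = Gam (rl u) x (rl u x) := by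
  have hs := h.sysW
  have h1 : Gam (rl u) x (rl u x) = ∫ y in Iic x, R (rl u) y (rl u x) :=
    ContinuousLinearMap.integral_apply hs.Ri.integrableOn _
  have h2 : IntegrableOn (fun y => R (rl u) y (rl u x)) (Iic x) := by
    have := hs.Ri.integrableOn (s := Iic x)
    exact this.apply_continuousLinearMap _
  have hi : ∀ n, IntegrableOn (fun y => (ov u x y : ℂ) * u n y) (Iic x) := by
    intro n
    have hc1 : Continuous fun y => (ov u x y : ℂ) := by
      have : (fun y => (ov u x y : ℂ)) = fun y => ((⟪rl u y, rl u x⟫ : ℝ) : ℂ) := by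
        funext y; rw [rl_inner]
      rw [this]
      exact Complex.continuous_ofReal.comp (hs.uc.inner continuous_const)
    refine (Integrable.mono' (hs.hui.const_mul ‖rl u x‖) (hc1.aestronglyMeasurable.mul
      (h.hu2 n).1) (Eventually.of_forall fun y => ?_)).integrableOn
    rw [Pi.mul_apply, norm_mul, Complex.norm_real, Real.norm_eq_abs, ← rl_inner]
    have h3 := abs_real_inner_le_norm (rl u y) (rl u x)
    have h4 : ‖u n y‖ ≤ ‖rl u y‖ := by
      refine le_of_sq_le_sq ?_ (norm_nonneg _)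
      rw [rl_norm]
      exact Finset.single_le_sum (f := fun n => ‖u n y‖ ^ 2) (fun m _ => sq_nonneg _)
        (Finset.mem_univ n)
    calc |⟪rl u y, rl u x⟫| * ‖u n y‖ ≤ (‖rl u y‖ * ‖rl u x‖) * ‖rl u y‖ :=
          mul_le_mul h3 h4 (norm_nonneg _) (by positivity)
      _ = ‖rl u x‖ * ‖rl u y‖ ^ 2 := by ring
  rw [h1]
  ext i
  have h3 := (EuclideanSpace.proj i : EuclideanSpace ℝ (Fin N ⊕ Fin N) →L[ℝ] ℝ).integral_comp_comm h2
  have h4 : (∫ y in Iic x, R (rl u) y (rl u x)) i = ∫ y in Iic x, (R (rl u) y (rl u x)) i := by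
    simpa using h3.symm
  rw [h4]
  rcases i with n | n
  · have h5 := Complex.reCLM.integral_comp_comm (hi n)
    have h6 : (realify (pr u x)) (Sum.inl n) = (pr u x n).re := rfl
    rw [h6]
    have h7 : (pr u x n).re = ∫ y in Iic x, ((ov u x y : ℂ) * u n y).re := by
      simpa [pr] using h5.symm
    rw [h7]
    refine integral_congr_ae (Eventually.of_forall fun y => ?_)
    have h8 : (R (rl u) y (rl u x)) (Sum.inl n) = ov u x y * (u n y).re := by
      rw [Pool.Helper490.Calib.R_apply, rl_inner]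
      rfl
    simp only [h8]
    simp
  · have h5 := Complex.imCLM.integral_comp_comm (hi n)
    have h6 : (realify (pr u x)) (Sum.inr n) = (pr u x n).im := rfl
    rw [h6]
    have h7 : (pr u x n).im = ∫ y in Iic x, ((ov u x y : ℂ) * u n y).im := by
      simpa [pr] using h5.symm
    rw [h7]
    refine integral_congr_ae (Eventually.of_forall fun y => ?_)
    have h8 : (R (rl u) y (rl u x)) (Sum.inr n) = ov u x y * (u n y).im := by
      rw [Pool.Helper490.Calib.R_apply, rl_inner]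
      rfl
    simp only [h8]
    simp

lemma rem_eq (x : ℝ) : rem u x = ‖rl u x‖ ^ 2 * va (rl u) x := by
  rw [rem, h.sysW.va_Gam, ← h.proj_eq, realify_norm, rl_norm]
  simp only [rl_inner]

/-- The sharp inequality with a remainder. -/
theorem remainder : (∀ x, 0 ≤ rem u x) ∧ Integrable (rem u) ∧
    Integrable (fun x => (∑ n, ‖u n x‖ ^ 2) ^ 3) ∧
    π ^ 2 / 4 * (∫ x, (∑ n, ‖u n x‖ ^ 2) ^ 3) + π * (∫ x, rem u x) ≤ ∑ n, ∫ x, ‖g n x‖ ^ 2 := by
  have hs := h.sysW
  have e : rem u = fun x => ‖rl u x‖ ^ 2 * va (rl u) x := funext h.rem_eq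
  have h1 := hs.sharp'
  simp only [rl_norm] at h1
  rw [integral_finsetSum _ fun n _ => h.hgi n] at h1
  refine ⟨fun x => ?_, ?_, ?_, ?_⟩
  · rw [h.rem_eq]; exact hs.va_nonneg x
  · rw [e]; exact hs.va_int
  · have := hs.rho3_int
    simpa only [rl_norm] using this
  · simp only [e, rl_norm]
    exact h1

/-- Families with equality. -/
theorem classify (heq : ∑ n, ∫ x, ‖g n x‖ ^ 2 ≤ π ^ 2 / 4 * ∫ x, (∑ n, ‖u n x‖ ^ 2) ^ 3)
    (hne : ∃ n x, u n x ≠ 0) : ∃ (z : Fin N → ℂ) (c a : ℝ), ∑ n, ‖z n‖ ^ 2 = 1 ∧ 0 < c ∧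
    ∀ n x, u n x = z n * (√(c / cosh (π * c * (x - a))) : ℝ) := by
  have hs := h.sysW
  have hE : EqS (rl u) (rl g) := by
    refine ⟨hs, ?_⟩
    simp only [rl_norm]
    rw [integral_finsetSum _ fun n _ => h.hgi n]
    exact heq
  obtain ⟨n₀, x₀, hn₀⟩ := hne
  have hx₀ : rl u x₀ ≠ 0 := by
    intro h0
    have h1 := rl_norm u x₀
    rw [h0, norm_zero] at h1
    have h2 := Finset.single_le_sum (f := fun n => ‖u n x₀‖ ^ 2) (fun m _ => sq_nonneg _)
      (Finset.mem_univ n₀)
    simp only [← h1] at h2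
    have h3 : 0 < ‖u n₀ x₀‖ ^ 2 := by
      have := norm_pos_iff.2 hn₀
      positivity
    norm_num at h2
    exact hn₀ h2
  obtain ⟨v, c, a, hv, hc, hall, hca⟩ := hE.classify hx₀
  set f : ℝ → ℝ := fun x => ⟪v, rl u x⟫ with hf
  have hfc : Continuous f := continuous_const.inner hs.uc
  have hpos : ∀ x, 0 < c / cosh (π * c * (x - a)) := fun x => div_pos hc (cosh_pos _)
  have hfne : ∀ x, f x ≠ 0 := by
    intro x h0
    have h1 := hca x
    have h2 : ⟪v, rl u x⟫ = 0 := h0
    rw [h2] at h1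
    have h3 := hpos x
    rw [← h1] at h3
    norm_num at h3
  -- the sign
  have hsign : (∀ x, 0 < f x) ∨ (∀ x, f x < 0) := by
    by_contra hno
    push Not at hno
    obtain ⟨⟨x, hx⟩, ⟨y, hy⟩⟩ := hno
    obtain ⟨t, ht⟩ := mem_range_of_exists_le_of_exists_ge hfc ⟨x, hx⟩ ⟨y, hy⟩
    exact hfne t ht
  have hcoord : ∀ n x, u n x = (f x : ℂ) * (⟨v (Sum.inl n), v (Sum.inr n)⟩ : ℂ) := by
    intro n x
    have h1 := hall x
    have h2 : (rl u x) (Sum.inl n) = f x * v (Sum.inl n) := by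
      conv_lhs => rw [h1]
      rfl
    have h3 : (rl u x) (Sum.inr n) = f x * v (Sum.inr n) := by
      conv_lhs => rw [h1]
      rfl
    have h4 : (rl u x) (Sum.inl n) = (u n x).re := rfl
    have h5 : (rl u x) (Sum.inr n) = (u n x).im := rfl
    rw [h4] at h2
    rw [h5] at h3
    apply Complex.ext
    · rw [h2]; simp
    · rw [h3]; simp
  have hz1 : ∑ n, ‖(⟨v (Sum.inl n), v (Sum.inr n)⟩ : ℂ)‖ ^ 2 = 1 := by
    have h1 : ‖v‖ ^ 2 = ∑ n, ‖(⟨v (Sum.inl n), v (Sum.inr n)⟩ : ℂ)‖ ^ 2 := by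
      rw [EuclideanSpace.norm_sq_eq, Fintype.sum_sum_type, ← Finset.sum_add_distrib]
      refine Finset.sum_congr rfl fun n _ => ?_
      rw [sqn]
      simp
    rw [← h1, hv]
    norm_num
  rcases hsign with hsg | hsg
  · refine ⟨fun n => ⟨v (Sum.inl n), v (Sum.inr n)⟩, c, a, hz1, hc, fun n x => ?_⟩
    have h1 : f x = √(c / cosh (π * c * (x - a))) := by
      rw [← hca x, Real.sqrt_sq (hsg x).le]
    rw [hcoord n x, h1, mul_comm]
  · refine ⟨fun n => -⟨v (Sum.inl n), v (Sum.inr n)⟩, c, a, ?_, hc, fun n x => ?_⟩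
    · simp only [norm_neg]
      exact hz1
    have h1 : f x = -√(c / cosh (π * c * (x - a))) := by
      have h2 : (-f x) ^ 2 = c / cosh (π * c * (x - a)) := by
        rw [← hca x]; simp only [hf]; ring
      rw [← h2, Real.sqrt_sq (neg_nonneg.2 (hsg x).le), neg_neg]
    rw [hcoord n x, h1]
    push_cast
    ring

end CSys

end Pool.Agent.X188.LTR
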