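import Pool.Agent.X188.LTR7
import Pool.Agent.Helper490.LTSech

/-!
# The optimisers attain equality; orthonormal families
-/

set_option autoImplicit false
set_option linter.all false
set_option linter.deprecated false

open MeasureTheory Set Filter Topology Real
open scoped RealInnerProductSpace

namespace Pool.Agent.X188.LTR

open Pool.Helper490.Calib

/-- The profile. -/
noncomputable def sp (c a x : ℝ) : ℝ := √(c / cosh (π * c * (x - a)))

/-- Its derivative. -/
noncomputable def sp' (c a x : ℝ) : ℝ := √c * (π * c) * Pool.Helper490.Sech.w' (π * c * (x - a))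

lemma sp_eq {c : ℝ} (hc : 0 < c) (a x : ℝ) :
    sp c a x = √c * Pool.Helper490.Sech.w (π * c * (x - a)) := by
  rw [sp, Real.sqrt_div hc.le, Pool.Helper490.Sech.w, div_eq_mul_inv]

lemma sp_deriv {c : ℝ} (hc : 0 < c) (a x : ℝ) : HasDerivAt (sp c a) (sp' c a x) x := by
  have h1 : HasDerivAt (fun x : ℝ => π * c * (x - a)) (π * c) x := by
    simpa using ((hasDerivAt_id x).sub_const a).const_mul (π * c)
  have h2 := ((Pool.Helper490.Sech.w_deriv (π * c * (x - a))).comp x h1).const_mul √c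
  have h3 : sp c a = fun x => √c * (Pool.Helper490.Sech.w ∘ fun x => π * c * (x - a)) x := by
    funext y
    rw [sp_eq hc]
    rfl
  rw [h3]
  refine h2.congr_deriv ?_
  rw [sp']
  ring

lemma int_scale {c : ℝ} (hc : 0 < c) (a : ℝ) (G : ℝ → ℝ) :
    ∫ x, G (π * c * (x - a)) = (π * c)⁻¹ * ∫ x, G x := by
  have h1 : ∫ x, G (π * c * (x - a)) = ∫ x, G (π * c * x) :=
    integral_sub_right_eq_self (μ := volume) (fun x => G (π * c * x)) a
  have hpc : 0 < π * c := mul_pos pi_pos hc
  rw [h1, Measure.integral_comp_mul_left, abs_of_pos (inv_pos.2 hpc), smul_eq_mul]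

lemma sp_six {c : ℝ} (hc : 0 < c) (a : ℝ) : ∫ x, (sp c a x ^ 2) ^ 3 = c ^ 2 / 2 := by
  have h1 : ∀ x, (sp c a x ^ 2) ^ 3 =
      c ^ 3 * (fun y => (Pool.Helper490.Sech.w y ^ 2) ^ 3) (π * c * (x - a)) := by
    intro x
    rw [sp_eq hc, mul_pow, Real.sq_sqrt hc.le]
    ring
  have hpi := pi_pos
  simp only [h1]
  rw [integral_const_mul, int_scale hc a (fun y => (Pool.Helper490.Sech.w y ^ 2) ^ 3),
    Pool.Helper490.Sech.integral_w_six]
  field_simp

lemma sp'_sq {c : ℝ} (hc : 0 < c) (a : ℝ) : ∫ x, sp' c a x ^ 2 = π ^ 2 * c ^ 2 / 8 := by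
  have h1 : ∀ x, sp' c a x ^ 2 =
      (c * (π * c) ^ 2) * (fun y => Pool.Helper490.Sech.w' y ^ 2) (π * c * (x - a)) := by
    intro x
    rw [sp', mul_pow, mul_pow, Real.sq_sqrt hc.le]
  have hpi := pi_pos
  simp only [h1]
  rw [integral_const_mul, int_scale hc a (fun y => Pool.Helper490.Sech.w' y ^ 2),
    Pool.Helper490.Sech.integral_w'_sq]
  field_simp

namespace CSys

variable {N : ℕ} {u g : Fin N → ℝ → ℂ} (h : CSys u g)
include h

lemma deriv_ae {z : Fin N → ℂ} {c a : ℝ} (hc : 0 < c) (hu : ∀ n x, u n x = z n * (sp c a x : ℝ))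
    (n : Fin N) : ∀ᵐ x, g n x = z n * (sp' c a x : ℝ) := by
  have hl : LocallyIntegrable (g n) volume := (h.hg2 n).locallyIntegrable (by norm_num)
  filter_upwards [_root_.LocallyIntegrable.ae_hasDerivAt_integral hl] with x hx
  have h1 := hx 0
  have h2 : (fun x => ∫ t in (0:ℝ)..x, g n t) = fun x => z n * (sp c a x : ℝ) - u n 0 := by
    funext y
    rw [← h.hug n 0 y, hu n y]
  rw [h2] at h1
  have h3 : HasDerivAt (fun x => z n * (sp c a x : ℝ) - u n 0) (z n * (sp' c a x : ℝ)) x :=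
    (((sp_deriv hc a x).ofReal_comp).const_mul (z n)).sub_const _
  exact h1.unique h3

/-- The profiles attain equality. -/
theorem attained {z : Fin N → ℂ} {c a : ℝ} (hz : ∑ n, ‖z n‖ ^ 2 = 1) (hc : 0 < c)
    (hu : ∀ n x, u n x = z n * (sp c a x : ℝ)) :
    ∑ n, ∫ x, ‖g n x‖ ^ 2 = π ^ 2 / 4 * ∫ x, (∑ n, ‖u n x‖ ^ 2) ^ 3 := by
  have h1 : ∀ n, ∫ x, ‖g n x‖ ^ 2 = ‖z n‖ ^ 2 * (π ^ 2 * c ^ 2 / 8) := by
    intro n
    rw [← sp'_sq hc a, ← integral_const_mul]
    refine integral_congr_ae ?_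
    filter_upwards [h.deriv_ae hc hu n] with x hx
    rw [hx, norm_mul, mul_pow, Complex.norm_real, Real.norm_eq_abs, sq_abs]
  have h2 : ∀ x, ∑ n, ‖u n x‖ ^ 2 = sp c a x ^ 2 := by
    intro x
    have : ∀ n, ‖u n x‖ ^ 2 = ‖z n‖ ^ 2 * sp c a x ^ 2 := by
      intro n
      rw [hu, norm_mul, mul_pow, Complex.norm_real, Real.norm_eq_abs, sq_abs]
    simp only [this]
    rw [← Finset.sum_mul, hz, one_mul]
  simp only [h1, h2]
  rw [← Finset.sum_mul, hz, sp_six hc]
  ring

end CSys

/-- The Gram matrix of an orthonormal family is one. -/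
lemma gram_of_orthonormal {N : ℕ} {u : Fin N → ℝ → ℂ} (hu2 : ∀ n, MemLp (u n) 2)
    (ho : ∀ n m, ∫ x, star (u n x) * u m x = if n = m then (1 : ℂ) else 0) (c : Fin N → ℂ) :
    ∫ x, ‖∑ n, c n * u n x‖ ^ 2 = ∑ n, ‖c n‖ ^ 2 := by
  have hij : ∀ n m, Integrable (fun x => star (u n x) * u m x) := by
    intro n m
    have h1 := (hu2 m).integrable_mul (hu2 n).star (p := 2) (q := 2)
    refine h1.congr (Eventually.of_forall fun x => ?_)
    simp only [Pi.mul_apply, Pi.star_apply]
    ring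
  set G : ℝ → ℂ := fun x => ∑ n, c n * u n x with hG
  have hexp : ∀ x, star (G x) * G x =
      ∑ n, ∑ m, (star (c n) * c m) * (star (u n x) * u m x) := by
    intro x
    simp only [hG, star_sum, star_mul']
    rw [Finset.sum_mul_sum]
    refine Finset.sum_congr rfl fun n _ => Finset.sum_congr rfl fun m _ => ?_
    ring
  have hgint : ∫ x, star (G x) * G x = ((∑ n, ‖c n‖ ^ 2 : ℝ) : ℂ) := by
    simp only [hexp]
    rw [integral_finsetSum _ fun n _ => integrable_finsetSum _ fun m _ =>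
      (hij n m).const_mul _]
    push_cast
    refine Finset.sum_congr rfl fun n _ => ?_
    rw [integral_finsetSum _ fun m _ => (hij n m).const_mul _]
    simp only [integral_const_mul, ho]
    simp only [mul_ite, mul_one, mul_zero, Finset.sum_ite_eq, Finset.mem_univ, if_true]
    rw [← Complex.ofReal_pow, ← Complex.normSq_eq_norm_sq, mul_comm]
    exact Complex.mul_conj _
  have hnorm : ∀ x, ((‖G x‖ ^ 2 : ℝ) : ℂ) = star (G x) * G x := by
    intro x
    rw [mul_comm, ← Complex.normSq_eq_norm_sq]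
    exact (Complex.mul_conj _).symm
  have h1 : ((∫ x, ‖G x‖ ^ 2 : ℝ) : ℂ) = ((∑ n, ‖c n‖ ^ 2 : ℝ) : ℂ) := by
    rw [← hgint, ← integral_complex_ofReal]
    exact integral_congr_ae (Eventually.of_forall fun x => hnorm x)
  exact_mod_cast h1

/-- A family of multiples of one function is not orthonormal when it has two members. -/
lemma not_orthonormal {N : ℕ} {u : Fin N → ℝ → ℂ} (hN : 2 ≤ N) {z : Fin N → ℂ} {s : ℝ → ℝ}
    (hu : ∀ n x, u n x = z n * (s x : ℝ))
    (ho : ∀ n m, ∫ x, star (u n x) * u m x = if n = m then (1 : ℂ) else 0) : False := by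
  have h1 : ∀ n m, ∫ x, star (u n x) * u m x = star (z n) * z m * ∫ x, ((s x ^ 2 : ℝ) : ℂ) := by
    intro n m
    rw [← integral_const_mul]
    refine integral_congr_ae (Eventually.of_forall fun x => ?_)
    simp only [hu]
    have : star ((s x : ℝ) : ℂ) = ((s x : ℝ) : ℂ) := Complex.conj_ofReal _
    rw [star_mul', this]
    push_cast
    ring
  set i : Fin N := ⟨0, by omega⟩
  set j : Fin N := ⟨1, by omega⟩
  have hij : i ≠ j := by
    intro he
    have := congrArg Fin.val he
    simp [i, j] at this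
  have h00 := ho i i
  have h11 := ho j j
  have h01 := ho i j
  rw [h1, if_pos rfl] at h00 h11
  rw [h1, if_neg hij] at h01
  have hI : (∫ x, ((s x ^ 2 : ℝ) : ℂ)) ≠ 0 := by
    intro h0
    rw [h0, mul_zero] at h00
    exact zero_ne_one h00
  have hi : z i ≠ 0 := by
    intro h0
    rw [h0, mul_zero, zero_mul] at h00
    exact zero_ne_one h00
  have hj : z j ≠ 0 := by
    intro h0
    rw [h0, mul_zero, zero_mul] at h11
    exact zero_ne_one h11
  exact (mul_ne_zero (mul_ne_zero (star_ne_zero.2 hi) hj) hI) h01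

end Pool.Agent.X188.LTR
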