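import Pool.Agent.X188.HilbMod

/-! The reduced linking algebra `L_E = (B_E, E^*; E, K(E))` of a Hilbert module, acting on the Hilbert
module `B_E ⊕ E`, its norm, and blockwise conditional expectations `L_E → L_F`. -/

namespace Pool.Agent.X188.HM

section linking

variable {A E : Type*} [NonUnitalCStarAlgebra A] [PartialOrder A] [StarOrderedRing A]
  [NormedAddCommGroup E] [NormedSpace ℂ E] [SMul A E] [CStarModule A E]

variable (A) in
/-- The norm of `(c, z)` in the Hilbert module `A ⊕ E`: `‖c c^* + ⟨z, z⟩‖^{1/2}` (left-module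
convention; `c^* c + ⟨z, z⟩` for right modules). -/
noncomputable def pairNorm (c : A) (z : E) : ℝ := √‖c * star c + inner A z z‖

/-- The norm of the matrix `(b, x^*; y, k)` as an operator on the Hilbert module `B_E ⊕ E`:
the least `C ≥ 0` with `‖(b c + ⟨x, z⟩, y c + k z)‖ ≤ C ‖(c, z)‖` for all `c ∈ B_E`, `z ∈ E`
(in left-module notation the image is `(c * b + ⟪x, z⟫, c • y + k z)`). -/
noncomputable def linkNorm (b : A) (x y : E) (k : E →L[ℂ] E) : ℝ :=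
  sInf {C : ℝ | 0 ≤ C ∧ ∀ c ∈ innerSpan A (⊤ : Submodule ℂ E), ∀ z : E,
    pairNorm A (c * b + inner A x z) (c • y + k z) ≤ C * pairNorm A c z}

variable (A) in
/-- The four linear maps `f₁₁, f₁₂, f₂₁, f₂₂` define a blockwise conditional expectation
`(b, x^*; y, k) ↦ (f₁₁ b, (f₁₂ x)^*; f₂₁ y, f₂₂ k)` of `L_E` onto `L_F`: it maps `L_E` into
`L_F = (B_F, F^*; F, K(F))`, is the identity on `L_F`, and is contractive.  (Only the values of
`f₁₁` on `B_E` and of `f₂₂` on `K(E)` matter.) -/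
structure IsBlockwiseCondExp (F : Submodule ℂ E) (f₁₁ : A →ₗ[ℂ] A) (f₁₂ f₂₁ : E →ₗ[ℂ] E)
    (f₂₂ : (E →L[ℂ] E) →ₗ[ℂ] (E →L[ℂ] E)) : Prop where
  /-- `B_E → B_F` -/
  maps₁₁ : ∀ b ∈ innerSpan A (⊤ : Submodule ℂ E), f₁₁ b ∈ innerSpan A F
  /-- `E^* → F^*` -/
  maps₁₂ : ∀ x, f₁₂ x ∈ F
  /-- `E → F` -/
  maps₂₁ : ∀ y, f₂₁ y ∈ F
  /-- `K(E) → K(F)` -/
  maps₂₂ : ∀ k ∈ compacts A (⊤ : Submodule ℂ E), f₂₂ k ∈ compacts A F
  /-- identity on `B_F` -/
  id₁₁ : ∀ b ∈ innerSpan A F, f₁₁ b = b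
  /-- identity on `F^*` -/
  id₁₂ : ∀ x ∈ F, f₁₂ x = x
  /-- identity on `F` -/
  id₂₁ : ∀ y ∈ F, f₂₁ y = y
  /-- identity on `K(F)` -/
  id₂₂ : ∀ k ∈ compacts A F, f₂₂ k = k
  /-- contractivity on `L_E` -/
  contr : ∀ b ∈ innerSpan A (⊤ : Submodule ℂ E), ∀ x y : E,
    ∀ k ∈ compacts A (⊤ : Submodule ℂ E),
      linkNorm (f₁₁ b) (f₁₂ x) (f₂₁ y) (f₂₂ k) ≤ linkNorm b x y k

variable (A) in
/-- The linear map `P : E → E` is the `(2,1)`-corner restriction of a blockwise conditional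
expectation of `L_E` onto `L_F`. -/
def ExtendsToBlockwiseCondExp (F : Submodule ℂ E) (P : E →ₗ[ℂ] E) : Prop :=
  ∃ (f₁₁ : A →ₗ[ℂ] A) (f₁₂ : E →ₗ[ℂ] E) (f₂₂ : (E →L[ℂ] E) →ₗ[ℂ] (E →L[ℂ] E)),
    IsBlockwiseCondExp A F f₁₁ f₁₂ P f₂₂

lemma pairNorm_zero_right (c : A) : pairNorm A c (0 : E) = ‖c‖ := by
  rw [pairNorm, CStarModule.inner_zero_left, add_zero, CStarRing.norm_self_mul_star,
    Real.sqrt_mul_self (norm_nonneg _)]

lemma pairNorm_zero_left (z : E) : pairNorm A (0 : A) z = ‖z‖ := by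
  rw [pairNorm, zero_mul, zero_add, CStarModule.norm_eq_sqrt_norm_inner_self (A := A) z]

lemma norm_le_pairNorm (c : A) (z : E) : ‖c‖ ≤ pairNorm A c z := by
  rw [pairNorm]
  refine Real.le_sqrt_of_sq_le ?_
  rw [sq, ← CStarRing.norm_self_mul_star]
  refine CStarAlgebra.norm_le_norm_of_nonneg_of_le (mul_star_self_nonneg c) ?_
  exact le_add_of_nonneg_right CStarModule.inner_self_nonneg

lemma linkNorm_bddBelow (b : A) (x y : E) (k : E →L[ℂ] E) :
    BddBelow {C : ℝ | 0 ≤ C ∧ ∀ c ∈ innerSpan A (⊤ : Submodule ℂ E), ∀ z : E,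
      pairNorm A (c * b + inner A x z) (c • y + k z) ≤ C * pairNorm A c z} :=
  ⟨0, fun _ hC => hC.1⟩

lemma mem11 (b : A) : ‖b‖ ∈ {C : ℝ | 0 ≤ C ∧ ∀ c ∈ innerSpan A (⊤ : Submodule ℂ E), ∀ z : E,
      pairNorm A (c * b + inner A (0 : E) z) (c • (0 : E) + (0 : E →L[ℂ] E) z) ≤
        C * pairNorm A c z} := by
  refine ⟨norm_nonneg _, fun c _ z => ?_⟩
  rw [CStarModule.inner_zero_left, add_zero, a_zero, _root_.zero_apply, add_zero,
    pairNorm_zero_right, mul_comm ‖b‖]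
  exact (norm_mul_le _ _).trans
    (mul_le_mul_of_nonneg_right (norm_le_pairNorm c z) (norm_nonneg _))

lemma mem21 (y : E) : ‖y‖ ∈ {C : ℝ | 0 ≤ C ∧ ∀ c ∈ innerSpan A (⊤ : Submodule ℂ E), ∀ z : E,
      pairNorm A (c * 0 + inner A (0 : E) z) (c • y + (0 : E →L[ℂ] E) z) ≤
        C * pairNorm A c z} := by
  refine ⟨norm_nonneg _, fun c _ z => ?_⟩
  rw [CStarModule.inner_zero_left, mul_zero, add_zero, _root_.zero_apply, add_zero,
    pairNorm_zero_left, mul_comm ‖y‖]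
  exact (norm_a_le _ _).trans
    (mul_le_mul_of_nonneg_right (norm_le_pairNorm c z) (norm_nonneg _))

end linking

section unital

variable {A E : Type*} [CStarAlgebra A] [PartialOrder A] [StarOrderedRing A]
  [NormedAddCommGroup E] [NormedSpace ℂ E] [SMul A E] [CStarModule A E]

lemma norm_one_le : ‖(1 : A)‖ ≤ 1 := by
  by_cases h : Nontrivial A
  · exact CStarRing.norm_one.le
  · have : Subsingleton A := not_nontrivial_iff_subsingleton.mp h
    rw [Subsingleton.elim (1 : A) 0, norm_zero]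
    exact zero_le_one

lemma one_a (x : E) : (1 : A) • x = x := ext_in A fun w => by simp

/-- norm of a `(1,1)`-corner element of a full module -/
lemma linkNorm11 (hfull : innerSpan A (⊤ : Submodule ℂ E) = ⊤) (b : A) :
    linkNorm b (0 : E) 0 0 = ‖b‖ := by
  refine le_antisymm (csInf_le (linkNorm_bddBelow _ _ _ _) (mem11 b)) ?_
  refine le_csInf ⟨_, mem11 b⟩ ?_
  rintro C ⟨hC0, hC⟩
  have h := hC 1 (by rw [hfull]; exact Submodule.mem_top) 0
  rw [CStarModule.inner_zero_left, add_zero, a_zero, _root_.zero_apply, add_zero,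
    pairNorm_zero_right, pairNorm_zero_right, one_mul] at h
  have h1 := norm_one_le (A := A)
  nlinarith

/-- norm of a `(2,1)`-corner element of a full module -/
lemma linkNorm21 (hfull : innerSpan A (⊤ : Submodule ℂ E) = ⊤) (y : E) :
    linkNorm (0 : A) 0 y 0 = ‖y‖ := by
  refine le_antisymm (csInf_le (linkNorm_bddBelow _ _ _ _) (mem21 y)) ?_
  refine le_csInf ⟨_, mem21 y⟩ ?_
  rintro C ⟨hC0, hC⟩
  have h := hC 1 (by rw [hfull]; exact Submodule.mem_top) 0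
  rw [CStarModule.inner_zero_left, mul_zero, add_zero, one_a, _root_.zero_apply, add_zero,
    pairNorm_zero_left, pairNorm_zero_right] at h
  have h1 := norm_one_le (A := A)
  nlinarith

/-- the extension property forces contractivity of `f₁₁` -/
lemma contr11 (hfull : innerSpan A (⊤ : Submodule ℂ E) = ⊤) {F : Submodule ℂ E}
    {f₁₁ : A →ₗ[ℂ] A} {f₁₂ f₂₁ : E →ₗ[ℂ] E} {f₂₂ : (E →L[ℂ] E) →ₗ[ℂ] (E →L[ℂ] E)}
    (h : IsBlockwiseCondExp A F f₁₁ f₁₂ f₂₁ f₂₂) (b : A) : ‖f₁₁ b‖ ≤ ‖b‖ := by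
  have h1 := h.contr b (by rw [hfull]; exact Submodule.mem_top) 0 0 0 (Submodule.zero_mem _)
  simp only [map_zero] at h1
  rwa [linkNorm11 hfull, linkNorm11 hfull] at h1

/-- the extension property forces contractivity of `P` -/
lemma contractive_of_extends (hfull : innerSpan A (⊤ : Submodule ℂ E) = ⊤) {F : Submodule ℂ E}
    {P : E →ₗ[ℂ] E} (h : ExtendsToBlockwiseCondExp A F P) (y : E) : ‖P y‖ ≤ ‖y‖ := by
  obtain ⟨f₁₁, f₁₂, f₂₂, h⟩ := h
  have h1 := h.contr 0 (Submodule.zero_mem _) 0 y 0 (Submodule.zero_mem _)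
  simp only [map_zero] at h1
  rwa [linkNorm21 hfull, linkNorm21 hfull] at h1

end unital

end Pool.Agent.X188.HM
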