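import Mathlib

/-! Operator matrices and their norms. -/

set_option autoImplicit false
set_option linter.unusedSectionVars false
open scoped InnerProductSpace Topology ComplexConjugate ENNReal

namespace Pool.Agent.X188.MatOp

noncomputable section

variable {H K L : Type} [NormedAddCommGroup H] [InnerProductSpace ℂ H]
  [NormedAddCommGroup K] [InnerProductSpace ℂ K] [NormedAddCommGroup L] [InnerProductSpace ℂ L]

/-- The operator `H^n → K^m` given by an `m × n` matrix of operators. -/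
def matOp {m n : ℕ} (M : Matrix (Fin m) (Fin n) (H →L[ℂ] K)) :
    PiLp 2 (fun _ : Fin n => H) →L[ℂ] PiLp 2 (fun _ : Fin m => K) :=
  ((PiLp.continuousLinearEquiv 2 ℂ (fun _ : Fin m => K)).symm :
      (Fin m → K) →L[ℂ] PiLp 2 (fun _ : Fin m => K)) ∘L
    ContinuousLinearMap.pi fun i => ∑ j, M i j ∘L PiLp.proj 2 (fun _ : Fin n => H) j

theorem matOp_apply {m n : ℕ} (M : Matrix (Fin m) (Fin n) (H →L[ℂ] K))
    (x : PiLp 2 (fun _ : Fin n => H)) (i : Fin m) : (matOp M x) i = ∑ j, M i j (x j) := by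
  change (∑ j, M i j ∘L PiLp.proj 2 (fun _ : Fin n => H) j) x = _
  rw [_root_.sum_apply]
  rfl

/-- The norm of an operator matrix `M : H^n → K^m`. -/
def mnorm {m n : ℕ} (M : Matrix (Fin m) (Fin n) (H →L[ℂ] K)) : ℝ := ‖matOp M‖

theorem mnorm_nonneg {m n : ℕ} (M : Matrix (Fin m) (Fin n) (H →L[ℂ] K)) : 0 ≤ mnorm M := by
  unfold mnorm
  exact norm_nonneg (matOp M)

theorem mnorm_le_iff {m n : ℕ} (M : Matrix (Fin m) (Fin n) (H →L[ℂ] K)) {c : ℝ} (hc : 0 ≤ c) :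
    mnorm M ≤ c ↔ ∀ x : Fin n → H, ∑ i, ‖∑ j, M i j (x j)‖ ^ 2 ≤ c ^ 2 * ∑ j, ‖x j‖ ^ 2 := by
  unfold mnorm
  rw [ContinuousLinearMap.opNorm_le_iff hc]
  have key : ∀ x : PiLp 2 (fun _ : Fin n => H), ‖matOp M x‖ ≤ c * ‖x‖ ↔
      ∑ i, ‖∑ j, M i j (x j)‖ ^ 2 ≤ c ^ 2 * ∑ j, ‖x j‖ ^ 2 := by
    intro x
    rw [← sq_le_sq₀ (norm_nonneg _) (by positivity), mul_pow, PiLp.norm_sq_eq_of_L2,
      PiLp.norm_sq_eq_of_L2]
    simp only [matOp_apply]
  constructor
  · intro h x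
    exact (key (WithLp.toLp 2 x)).1 (h _)
  · intro h x
    exact (key x).2 (h _)

theorem mnorm_apply {m n : ℕ} (M : Matrix (Fin m) (Fin n) (H →L[ℂ] K)) (x : Fin n → H) :
    ∑ i, ‖∑ j, M i j (x j)‖ ^ 2 ≤ mnorm M ^ 2 * ∑ j, ‖x j‖ ^ 2 :=
  (mnorm_le_iff M (mnorm_nonneg M)).1 le_rfl x

theorem mnorm_mul {m n k : ℕ} (M : Matrix (Fin m) (Fin n) (H →L[ℂ] H))
    (N : Matrix (Fin n) (Fin k) (H →L[ℂ] H)) : mnorm (M * N) ≤ mnorm M * mnorm N := by
  have h : matOp (M * N) = matOp M ∘L matOp N := by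
    ext x i
    rw [matOp_apply]
    change _ = (matOp M (matOp N x)) i
    rw [matOp_apply]
    simp only [matOp_apply, Matrix.mul_apply, _root_.sum_apply, map_sum]
    rw [Finset.sum_comm]
    rfl
  unfold mnorm
  rw [h]
  exact ContinuousLinearMap.opNorm_comp_le _ _

theorem mnorm_one (T : H →L[ℂ] K) : mnorm (Matrix.of fun (_ _ : Fin 1) => T) = ‖T‖ := by
  apply le_antisymm
  · refine (mnorm_le_iff _ (norm_nonneg _)).2 fun x => ?_
    simp only [Fin.sum_univ_one, Matrix.of_apply, ← mul_pow]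
    have := T.le_opNorm (x 0)
    gcongr
  · apply ContinuousLinearMap.opNorm_le_bound _ (mnorm_nonneg _)
    intro x
    have h := mnorm_apply (Matrix.of fun (_ _ : Fin 1) => T) (fun _ => x)
    simp only [Fin.sum_univ_one, Matrix.of_apply, ← mul_pow] at h
    exact (sq_le_sq₀ (norm_nonneg _) (mul_nonneg (mnorm_nonneg _) (norm_nonneg _))).1 h

/-- scalar compressions -/
theorem scalar_comp {m n : ℕ} (X : Matrix (Fin m) (Fin n) (H →L[ℂ] K)) (w : Fin m → ℂ) (v : Fin n → ℂ) :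
    ‖∑ i, ∑ j, (conj (w i) * v j) • X i j‖ ^ 2 ≤ mnorm X ^ 2 * (∑ i, ‖w i‖ ^ 2) * ∑ j, ‖v j‖ ^ 2 := by
  set W := ∑ i, ‖w i‖ ^ 2 with hW
  set V := ∑ j, ‖v j‖ ^ 2 with hV
  have hW0 : 0 ≤ W := Finset.sum_nonneg fun _ _ => by positivity
  have hV0 : 0 ≤ V := Finset.sum_nonneg fun _ _ => by positivity
  have h1 : ‖∑ i, ∑ j, (conj (w i) * v j) • X i j‖ ≤ mnorm X * √W * √V := by
    apply ContinuousLinearMap.opNorm_le_bound _ (by have := mnorm_nonneg X; positivity)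
    intro x
    have e1 : (∑ i, ∑ j, (conj (w i) * v j) • X i j) x = ∑ i, conj (w i) • ∑ j, X i j (v j • x) := by
      rw [_root_.sum_apply]
      refine Finset.sum_congr rfl fun i _ => ?_
      rw [_root_.sum_apply, Finset.smul_sum]
      refine Finset.sum_congr rfl fun j _ => ?_
      rw [_root_.smul_apply, map_smul, smul_smul]
    rw [e1]
    have h2 := mnorm_apply X (fun j => v j • x)
    have h3 : ∑ j, ‖v j • x‖ ^ 2 = V * ‖x‖ ^ 2 := by
      rw [hV, Finset.sum_mul]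
      exact Finset.sum_congr rfl fun j _ => by rw [norm_smul, mul_pow]
    rw [h3] at h2
    have h4 : ‖∑ i, conj (w i) • ∑ j, X i j (v j • x)‖ ≤ ∑ i, ‖w i‖ * ‖∑ j, X i j (v j • x)‖ := by
      refine (norm_sum_le _ _).trans (le_of_eq (Finset.sum_congr rfl fun i _ => ?_))
      rw [norm_smul, RCLike.norm_conj]
    have h5 := Finset.sum_mul_sq_le_sq_mul_sq Finset.univ (fun i => ‖w i‖)
      (fun i => ‖∑ j, X i j (v j • x)‖)
    have h6 : (∑ i, ‖w i‖ * ‖∑ j, X i j (v j • x)‖) ^ 2 ≤ (mnorm X * √W * √V * ‖x‖) ^ 2 := by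
      calc _ ≤ _ := h5
        _ ≤ W * (mnorm X ^ 2 * (V * ‖x‖ ^ 2)) := by gcongr
        _ = _ := by rw [mul_pow, mul_pow, mul_pow, Real.sq_sqrt hW0, Real.sq_sqrt hV0]; ring
    have h7 := (sq_le_sq₀ (Finset.sum_nonneg fun _ _ => by positivity)
      (by have := mnorm_nonneg X; positivity)).1 h6
    exact h4.trans h7
  calc _ ≤ (mnorm X * √W * √V) ^ 2 := by gcongr
    _ = _ := by rw [mul_pow, mul_pow, Real.sq_sqrt hW0, Real.sq_sqrt hV0]

/-! ### diagonal operators on `ℓ²` -/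

section Diag

variable {ι : Type}

/-- `ℓ²(ι)` -/
abbrev l2 (ι : Type) : Type := lp (fun _ : ι => ℂ) 2

theorem sm (x : l2 ι) : Summable fun i => ‖(x : ι → ℂ) i‖ ^ 2 := by
  have h := lp.memℓp x
  rw [memℓp_gen_iff (by norm_num)] at h
  refine h.congr fun p => ?_
  simp

theorem norm_sq (x : l2 ι) : ‖x‖ ^ 2 = ∑' i, ‖(x : ι → ℂ) i‖ ^ 2 := by
  have h := lp.norm_rpow_eq_tsum (p := 2) (by norm_num) x
  simpa using h

theorem mem_mul {a : ι → ℂ} {C : ℝ} (ha : ∀ i, ‖a i‖ ≤ C) (x : l2 ι) :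
    Memℓp (fun i => a i * (x : ι → ℂ) i) 2 := by
  rw [memℓp_gen_iff (by norm_num)]
  have h : Summable fun i => ‖a i * (x : ι → ℂ) i‖ ^ 2 := by
    refine Summable.of_nonneg_of_le (fun i => by positivity) (fun i => ?_) ((sm x).mul_left (C ^ 2))
    rw [norm_mul, mul_pow]
    have := ha i
    gcongr
  refine h.congr fun p => ?_
  simp

theorem norm_mul_le {a : ι → ℂ} {C : ℝ} (ha : ∀ i, ‖a i‖ ≤ C) (hC : 0 ≤ C) (x : l2 ι) :
    ‖(⟨_, mem_mul ha x⟩ : l2 ι)‖ ≤ C * ‖x‖ := by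
  rw [← sq_le_sq₀ (norm_nonneg _) (by positivity), mul_pow, norm_sq, norm_sq, ← tsum_mul_left]
  refine Summable.tsum_le_tsum (fun i => ?_) (sm _) ((sm x).mul_left _)
  change ‖a i * (x : ι → ℂ) i‖ ^ 2 ≤ _
  rw [norm_mul, mul_pow]
  have := ha i
  gcongr

open Classical in
/-- multiplication by a bounded function (and `0` for unbounded `a`) -/
def D (a : ι → ℂ) : l2 ι →L[ℂ] l2 ι :=
  if h : ∃ C : ℝ, 0 ≤ C ∧ ∀ i, ‖a i‖ ≤ C then
    LinearMap.mkContinuous
      { toFun := fun x => ⟨fun i => a i * (x : ι → ℂ) i, mem_mul h.choose_spec.2 x⟩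
        map_add' := fun x y => by ext i; exact mul_add _ _ _
        map_smul' := fun c x => by ext i; exact mul_left_comm _ _ _ } h.choose
      (fun x => norm_mul_le h.choose_spec.2 h.choose_spec.1 x)
  else 0

/-- boundedness -/
def Bdd (a : ι → ℂ) : Prop := ∃ C : ℝ, 0 ≤ C ∧ ∀ i, ‖a i‖ ≤ C

theorem D_apply {a : ι → ℂ} (h : Bdd a) (x : l2 ι) (i : ι) :
    (D a x : ι → ℂ) i = a i * (x : ι → ℂ) i := by
  have h' : ∃ C : ℝ, 0 ≤ C ∧ ∀ i, ‖a i‖ ≤ C := h
  simp only [D, dif_pos h']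
  rfl

theorem D_norm_le {a : ι → ℂ} {C : ℝ} (hC : 0 ≤ C) (h : ∀ i, ‖a i‖ ≤ C) : ‖D a‖ ≤ C := by
  apply ContinuousLinearMap.opNorm_le_bound _ hC
  intro x
  have : D a x = ⟨_, mem_mul h x⟩ := by
    ext i
    rw [D_apply ⟨C, hC, h⟩]
  rw [this]
  exact norm_mul_le h hC x

variable [DecidableEq ι]

/-- basis vectors -/
def e (i : ι) : l2 ι := lp.single 2 i (1 : ℂ)

theorem e_apply (i j : ι) : (e i : ι → ℂ) j = if j = i then 1 else 0 := by
  unfold e
  by_cases h : j = i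
  · subst h; simp
  · simp [h, lp.single_apply]

theorem norm_e (i : ι) : ‖(e i : l2 ι)‖ = 1 := by
  unfold e
  rw [lp.norm_single (by norm_num)]
  simp

/-- the symbol of an operator: its diagonal -/
def sym (T : l2 ι →L[ℂ] l2 ι) (i : ι) : ℂ := (T (e i) : ι → ℂ) i

theorem sym_le (T : l2 ι →L[ℂ] l2 ι) (i : ι) : ‖sym T i‖ ≤ ‖T‖ := by
  unfold sym
  refine (lp.norm_apply_le_norm (by norm_num) (T (e i)) i).trans ?_
  have := T.le_opNorm (e i)
  rwa [norm_e, mul_one] at this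

theorem sym_bdd (T : l2 ι →L[ℂ] l2 ι) : Bdd (sym T) := ⟨‖T‖, norm_nonneg _, sym_le T⟩

theorem sym_add (S T : l2 ι →L[ℂ] l2 ι) (i : ι) : sym (S + T) i = sym S i + sym T i := rfl
theorem sym_smul (c : ℂ) (T : l2 ι →L[ℂ] l2 ι) (i : ι) : sym (c • T) i = c * sym T i := rfl
theorem sym_sub (S T : l2 ι →L[ℂ] l2 ι) (i : ι) : sym (S - T) i = sym S i - sym T i := rfl

theorem sym_D {a : ι → ℂ} (h : Bdd a) (i : ι) : sym (D a) i = a i := by
  unfold sym
  rw [D_apply h, e_apply, if_pos rfl, mul_one]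

/-- diagonal operators -/
def IsDg (T : l2 ι →L[ℂ] l2 ι) : Prop := ∀ x i, (T x : ι → ℂ) i = sym T i * (x : ι → ℂ) i

theorem isDg_D {a : ι → ℂ} (h : Bdd a) : IsDg (D a) := by
  intro x i
  rw [D_apply h, sym_D h]

theorem IsDg.ext {S T : l2 ι →L[ℂ] l2 ι} (hS : IsDg S) (hT : IsDg T) (h : ∀ i, sym S i = sym T i) :
    S = T := by
  ext x i
  rw [hS x i, hT x i, h]

theorem IsDg.eq_D {T : l2 ι →L[ℂ] l2 ι} (h : IsDg T) : D (sym T) = T :=
  (isDg_D (sym_bdd T)).ext h fun i => sym_D (sym_bdd T) i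

theorem IsDg.mul {S T : l2 ι →L[ℂ] l2 ι} (hS : IsDg S) (hT : IsDg T) :
    IsDg (S * T) ∧ ∀ i, sym (S * T) i = sym S i * sym T i := by
  have h1 : ∀ i, sym (S * T) i = sym S i * sym T i := by
    intro i
    change (S (T (e i)) : ι → ℂ) i = _
    rw [hS]
    rfl
  refine ⟨fun x i => ?_, h1⟩
  change (S (T x) : ι → ℂ) i = _
  rw [hS, hT, h1, mul_assoc]

theorem inner_e (i : ι) (x : l2 ι) : ⟪e i, x⟫_ℂ = (x : ι → ℂ) i := by
  unfold e
  rw [lp.inner_single_left]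
  simp

theorem IsDg.star' {T : l2 ι →L[ℂ] l2 ι} (hT : IsDg T) :
    IsDg (star T) ∧ ∀ i, sym (star T) i = conj (sym T i) := by
  have h0 : ∀ (x : l2 ι) (i : ι), (star T x : ι → ℂ) i = conj (sym T i) * (x : ι → ℂ) i := by
    intro x i
    rw [← inner_e i (star T x)]
    have h1 : ⟪e i, star T x⟫_ℂ = ⟪T (e i), x⟫_ℂ := ContinuousLinearMap.adjoint_inner_right T (e i) x
    have h2 : T (e i) = sym T i • e i := by
      ext j
      rw [hT, lp.coeFn_smul, Pi.smul_apply, smul_eq_mul, e_apply]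
      by_cases h : j = i
      · subst h; rfl
      · rw [if_neg h]; simp
    rw [h1, h2, inner_smul_left, inner_e]
  have h1 : ∀ i, sym (star T) i = conj (sym T i) := by
    intro i
    unfold sym
    rw [h0, e_apply, if_pos rfl, mul_one]
    rfl
  exact ⟨fun x i => by rw [h0, h1], h1⟩

/-- norm of matrices of diagonal operators -/
theorem mnorm_dg {m n : ℕ} (X : Matrix (Fin m) (Fin n) (l2 ι →L[ℂ] l2 ι)) (hX : ∀ i j, IsDg (X i j))
    {c : ℝ} (hc : 0 ≤ c) : mnorm X ≤ c ↔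
      ∀ (p : ι) (v : Fin n → ℂ), ∑ i, ‖∑ j, sym (X i j) p * v j‖ ^ 2 ≤ c ^ 2 * ∑ j, ‖v j‖ ^ 2 := by
  rw [mnorm_le_iff X hc]
  constructor
  · intro h p v
    have h1 := h fun j => v j • e p
    have e1 : ∀ i, ‖∑ j, X i j (v j • e p)‖ = ‖∑ j, sym (X i j) p * v j‖ := by
      intro i
      have : ∑ j, X i j (v j • e p) = (∑ j, sym (X i j) p * v j) • e p := by
        rw [Finset.sum_smul]
        refine Finset.sum_congr rfl fun j _ => ?_
        ext q
        rw [hX, lp.coeFn_smul, lp.coeFn_smul, Pi.smul_apply, Pi.smul_apply, smul_eq_mul, smul_eq_mul,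
          e_apply]
        by_cases h : q = p
        · subst h; simp
        · simp [h]
      rw [this, norm_smul, norm_e, mul_one]
    have e2 : ∀ j, ‖v j • (e p : l2 ι)‖ = ‖v j‖ := fun j => by rw [norm_smul, norm_e, mul_one]
    simpa only [e1, e2] using h1
  · intro h x
    have e1 : ∀ i, ‖∑ j, X i j (x j)‖ ^ 2 = ∑' p, ‖∑ j, sym (X i j) p * (x j : ι → ℂ) p‖ ^ 2 := by
      intro i
      rw [norm_sq]
      refine tsum_congr fun p => ?_
      congr 2
      rw [lp.coeFn_sum, Finset.sum_apply]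
      exact Finset.sum_congr rfl fun j _ => hX i j _ _
    have s1 : ∀ i, Summable fun p => ‖∑ j, sym (X i j) p * (x j : ι → ℂ) p‖ ^ 2 := by
      intro i
      refine (sm (∑ j, X i j (x j))).congr fun p => ?_
      congr 2
      rw [lp.coeFn_sum, Finset.sum_apply]
      exact Finset.sum_congr rfl fun j _ => hX i j _ _
    simp only [e1, norm_sq]
    rw [← Summable.tsum_finsetSum (fun i _ => s1 i), ← Summable.tsum_finsetSum (fun j _ => sm (x j)),
      ← tsum_mul_left]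
    refine Summable.tsum_le_tsum (fun p => ?_) (summable_sum fun i _ => s1 i)
      ((summable_sum fun j _ => sm (x j)).mul_left _)
    exact h p fun j => (x j : ι → ℂ) p

end Diag

end

end Pool.Agent.X188.MatOp
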