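import Pool.Agent.X188.MatOp

/-! Norming by an injective envelope: definitions. -/

set_option autoImplicit false
set_option linter.unusedSectionVars false

namespace Pool.Agent.X188.Norming

open Pool.Agent.X188.MatOp

section Defs

variable {H K : Type} [NormedAddCommGroup H] [InnerProductSpace ℂ H]
  [NormedAddCommGroup K] [InnerProductSpace ℂ K]

/-- `A ⊆ B(H)` is a `C*`-algebra of operators: a norm-closed `*`-subalgebra. -/
structure IsCStarAlg [CompleteSpace H] (A : Submodule ℂ (H →L[ℂ] H)) : Prop where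
  closed : IsClosed (A : Set (H →L[ℂ] H))
  mul : ∀ S ∈ A, ∀ T ∈ A, S * T ∈ A
  star : ∀ T ∈ A, star T ∈ A

/-- `u` is linear on the subspace `E` of `B(H)` (only its values on `E` matter). -/
structure LinOn (E : Submodule ℂ (H →L[ℂ] H)) (u : (H →L[ℂ] H) → (K →L[ℂ] K)) : Prop where
  add : ∀ x ∈ E, ∀ y ∈ E, u (x + y) = u x + u y
  smul : ∀ c : ℂ, ∀ x ∈ E, u (c • x) = c • u x

/-- `u : E → B(K)` is a complete contraction. -/
structure CC (E : Submodule ℂ (H →L[ℂ] H)) (u : (H →L[ℂ] H) → (K →L[ℂ] K)) : Prop where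
  lin : LinOn E u
  le : ∀ (n : ℕ) (X : Matrix (Fin n) (Fin n) (H →L[ℂ] H)), (∀ i j, X i j ∈ E) →
    mnorm (X.map u) ≤ mnorm X

/-- `u : E → B(K)` is a complete isometry. -/
structure CI (E : Submodule ℂ (H →L[ℂ] H)) (u : (H →L[ℂ] H) → (K →L[ℂ] K)) : Prop where
  lin : LinOn E u
  eq : ∀ (n : ℕ) (X : Matrix (Fin n) (Fin n) (H →L[ℂ] H)), (∀ i j, X i j ∈ E) →
    mnorm (X.map u) = mnorm X

/-- Every complete contraction `E → I`, with `E ⊆ F ⊆ B(L)`, extends to a complete contraction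
`F → I`. -/
structure HasExtension (L : Type) [NormedAddCommGroup L] [InnerProductSpace ℂ L] [CompleteSpace L]
    (I : Submodule ℂ (K →L[ℂ] K)) : Prop where
  ext : ∀ E F : Submodule ℂ (L →L[ℂ] L), E ≤ F → ∀ u : (L →L[ℂ] L) → (K →L[ℂ] K),
    (∀ x ∈ E, u x ∈ I) → CC E u →
    ∃ v : (L →L[ℂ] L) → (K →L[ℂ] K), (∀ x ∈ F, v x ∈ I) ∧ CC F v ∧ ∀ x ∈ E, v x = u x

/-- `I` is injective (as an operator space). -/
def IsInjectiveSp (I : Submodule ℂ (K →L[ℂ] K)) : Prop :=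
  ∀ (L : Type) [NormedAddCommGroup L] [InnerProductSpace ℂ L] [CompleteSpace L], HasExtension L I

/-- `ι : A → B(K)` is an injective `*`-homomorphism. -/
structure IsStarEmb [CompleteSpace H] [CompleteSpace K]
    (A : Submodule ℂ (H →L[ℂ] H)) (ι : (H →L[ℂ] H) → (K →L[ℂ] K)) : Prop where
  lin : LinOn A ι
  inj : ∀ a ∈ A, ι a = 0 → a = 0
  mul : ∀ a ∈ A, ∀ b ∈ A, ι (a * b) = ι a * ι b
  star : ∀ a ∈ A, ι (star a) = star (ι a)

/-- `I`, with the embedding `ι : A → I`, is an injective envelope of `A`. -/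
structure IsInjectiveEnvelope [CompleteSpace H] [CompleteSpace K]
    (A : Submodule ℂ (H →L[ℂ] H)) (I : Submodule ℂ (K →L[ℂ] K))
    (ι : (H →L[ℂ] H) → (K →L[ℂ] K)) : Prop where
  alg : IsCStarAlg I
  inj : IsInjectiveSp I
  emb : IsStarEmb A ι
  mem : ∀ a ∈ A, ι a ∈ I
  rigid : ∀ u : (K →L[ℂ] K) → (K →L[ℂ] K), (∀ x ∈ I, u x ∈ I) → CC I u →
    (∀ a ∈ A, u (ι a) = ι a) → ∀ x ∈ I, u x = x

/-- `j` is a complete isometry `I → B(H)` with `j(a) = a` for all `a ∈ A` (where `ι` embeds `A`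
in `I`). -/
structure IsCopy (A : Submodule ℂ (H →L[ℂ] H)) (I : Submodule ℂ (K →L[ℂ] K))
    (ι : (H →L[ℂ] H) → (K →L[ℂ] K)) (j : (K →L[ℂ] K) → (H →L[ℂ] H)) : Prop where
  ci : CI I j
  fix : ∀ a ∈ A, j (ι a) = a

/-- `r = ‖R X C‖` for a row `R` and a column `C` with entries in `S` and norms at most `1`. -/
def IsRXC (S : Set (H →L[ℂ] H)) {k : ℕ} (X : Matrix (Fin k) (Fin k) (H →L[ℂ] H)) (r : ℝ) : Prop :=
  ∃ (R : Matrix (Fin 1) (Fin k) (H →L[ℂ] H)) (C : Matrix (Fin k) (Fin 1) (H →L[ℂ] H)),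
    (∀ i, R 0 i ∈ S) ∧ (∀ i, C i 0 ∈ S) ∧ mnorm R ≤ 1 ∧ mnorm C ≤ 1 ∧ r = mnorm (R * X * C)

/-- `S` norms `B`. -/
def Norms (S : Set (H →L[ℂ] H)) (B : Submodule ℂ (H →L[ℂ] H)) : Prop :=
  ∀ k : ℕ, 1 ≤ k → ∀ X : Matrix (Fin k) (Fin k) (H →L[ℂ] H), (∀ i j, X i j ∈ B) →
    IsLUB {r : ℝ | IsRXC S X r} (mnorm X)

/-- `A ⊆ B = B(H)` are `C*`-algebras, `A` commutative and containing the unit of `B(H)`,
`I ⊆ B(K)` is the injective envelope of `A` (with embedding `ι : A → I`), `j(I) ⊆ B(H)` is a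
completely isometric copy of it, and `j(I)` norms `B`, but `A` does not norm `B`. -/
structure IsCounterexample [CompleteSpace H] [CompleteSpace K]
    (A B : Submodule ℂ (H →L[ℂ] H)) (I : Submodule ℂ (K →L[ℂ] K))
    (ι : (H →L[ℂ] H) → (K →L[ℂ] K)) (j : (K →L[ℂ] K) → (H →L[ℂ] H)) : Prop where
  algA : IsCStarAlg A
  algB : IsCStarAlg B
  sub : A ≤ B
  one_mem : 1 ∈ A
  comm : ∀ S ∈ A, ∀ T ∈ A, S * T = T * S
  all : ∀ T, T ∈ B
  env : IsInjectiveEnvelope A I ι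
  copy : IsCopy A I ι j
  norms : Norms {T | ∃ x ∈ I, j x = T} B
  not_norms : ¬ Norms {T | T ∈ A} B

/-- There are such data on the Hilbert spaces `H` and `K`. -/
structure HasCounterexample (H K : Type) [NormedAddCommGroup H] [InnerProductSpace ℂ H]
    [CompleteSpace H] [NormedAddCommGroup K] [InnerProductSpace ℂ K] [CompleteSpace K] : Prop where
  ex : ∃ (A B : Submodule ℂ (H →L[ℂ] H)) (I : Submodule ℂ (K →L[ℂ] K))
    (ι : (H →L[ℂ] H) → (K →L[ℂ] K)) (j : (K →L[ℂ] K) → (H →L[ℂ] H)), IsCounterexample A B I ι j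

end Defs

/-- the index set `ℕ ⊕ {0,1}` -/
abbrev J : Type := ℕ ⊕ Fin 2

end Pool.Agent.X188.Norming
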