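import Mathlib

/-! Permutation-invariant qubit codes: definitions and the reduction of the Knill-Laflamme
conditions to polynomial identities. -/

namespace Pool.Agent.X188.PI

open Finset Complex
open scoped ComplexConjugate

/-- The single-qubit Pauli matrices: `0 ↦ I`, `1 ↦ X`, `2 ↦ Y`, `3 ↦ Z`. -/
noncomputable def sigma : Fin 4 → Matrix (Fin 2) (Fin 2) ℂ :=
  ![!![1, 0; 0, 1], !![0, 1; 1, 0], !![0, -I; I, 0], !![1, 0; 0, -1]]

/-- The `n`-qubit Pauli operator `⊗ᵢ σ_{E i}` acting on a state `ψ : {0,1}ⁿ → ℂ`. -/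
noncomputable def pauliOp {n : ℕ} (E : Fin n → Fin 4) (ψ : (Fin n → Fin 2) → ℂ) :
    (Fin n → Fin 2) → ℂ :=
  fun x => ∑ y : Fin n → Fin 2, (∏ i, sigma (E i) (x i) (y i)) * ψ y

/-- The weight of a Pauli operator: the number of positions where it is not the identity. -/
def pweight {n : ℕ} (E : Fin n → Fin 4) : ℕ := (univ.filter fun i => E i ≠ 0).card

/-- The Hermitian inner product of two `n`-qubit states. -/
noncomputable def ip {n : ℕ} (φ ψ : (Fin n → Fin 2) → ℂ) : ℂ :=
  ∑ x : Fin n → Fin 2, conj (φ x) * ψ x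

/-- The Dicke state `|Dⁿ_j⟩ = C(n,j)^{-1/2} ∑_{wt x = j} |x⟩`. -/
noncomputable def dicke (n j : ℕ) : (Fin n → Fin 2) → ℂ :=
  fun x => if ∑ i, (x i : ℕ) = j then ((1 / Real.sqrt (n.choose j) : ℝ) : ℂ) else 0

/-- The codeword `∑_j α_j |Dⁿ_j⟩`. -/
noncomputable def word {n : ℕ} (α : Fin (n + 1) → ℂ) : (Fin n → Fin 2) → ℂ :=
  ∑ j : Fin (n + 1), α j • dicke n j

/-- `c 0`, `c 1` are the Dicke coefficients of a qubit permutation-invariant code of block
length `n` correcting `t` errors. -/
structure IsCode (n t : ℕ) (c : Fin 2 → Fin (n + 1) → ℂ) : Prop where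
  orth : ∀ i k, ip (word (c i)) (word (c k)) = if i = k then 1 else 0
  kl : ∀ E F : Fin n → Fin 4, pweight E ≤ t → pweight F ≤ t → ∃ l : ℂ, ∀ i k,
    ip (pauliOp E (word (c i))) (pauliOp F (word (c k))) = if i = k then l else 0

/-- the least block length of a qubit permutation-invariant code correcting `t` errors -/
noncomputable def nmin (t : ℕ) : ℕ := sInf {n : ℕ | ∃ c, IsCode n t c}

/-! ### reduction -/

/-- Hamming weight on any finite index set -/
def hw {ι : Type*} [Fintype ι] (x : ι → Fin 2) : ℕ := ∑ i, (x i : ℕ)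

/-- the state with amplitude `f (wt x)` -/
def st {ι : Type*} [Fintype ι] (f : ℕ → ℂ) : (ι → Fin 2) → ℂ := fun x => f (hw x)

theorem word_eq {n : ℕ} (f : ℕ → ℂ) :
    word (fun j : Fin (n + 1) => ((Real.sqrt (n.choose j) : ℝ) : ℂ) * f j) = st f := by
  funext x
  have hx : hw x < n + 1 := by
    have : hw x ≤ ∑ _i : Fin n, 1 := by
      unfold hw; apply Finset.sum_le_sum; intro i _; have := (x i).isLt; omega
    simp at this; omega
  simp only [word, Finset.sum_apply, Pi.smul_apply, smul_eq_mul, dicke, st]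
  rw [Finset.sum_eq_single (⟨hw x, hx⟩ : Fin (n + 1))]
  · have h0 : (0 : ℝ) < Real.sqrt (n.choose (hw x)) := by
      apply Real.sqrt_pos.mpr
      exact_mod_cast Nat.choose_pos (by omega)
    have h1 : ((Real.sqrt (n.choose (hw x)) : ℝ) : ℂ) ≠ 0 := by exact_mod_cast h0.ne'
    have h2 : (∑ i, (x i : ℕ)) = hw x := rfl
    rw [h2, if_pos rfl]
    push_cast
    field_simp
  · intro j _ hj
    rw [if_neg, mul_zero]
    intro h
    apply hj
    apply Fin.ext
    exact h.symm
  · intro h; exact absurd (Finset.mem_univ _) h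

theorem sum_hw {ι : Type*} [Fintype ι] [DecidableEq ι] (F : ℕ → ℂ) :
    ∑ z : ι → Fin 2, F (hw z) =
      ∑ m ∈ range (Fintype.card ι + 1), ((Fintype.card ι).choose m : ℂ) * F m := by
  have h1 := Finset.sum_powerset_apply_card (f := F) (x := (Finset.univ : Finset ι))
  simp only [Finset.card_univ, nsmul_eq_mul] at h1
  rw [← h1]
  refine Finset.sum_bij' (fun z _ => Finset.univ.filter (fun i => z i = 1))
    (fun s _ => fun i => if i ∈ s then 1 else 0) ?_ ?_ ?_ ?_ ?_
  · intro z _; simp
  · intro s _; simp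
  · intro z _
    funext i
    simp only [Finset.mem_filter, Finset.mem_univ, true_and]
    have := (z i).isLt
    by_cases h : z i = 1
    · simp [h]
    · simp only [h, if_false]
      omega
  · intro s _
    ext i
    simp
  · intro z _
    congr 1
    unfold hw
    rw [Finset.card_filter]
    apply Finset.sum_congr rfl
    intro i _
    have := (z i).isLt
    by_cases h : z i = 1
    · simp [h]
    · simp only [h, if_false]
      omega

/-- the basic sums -/
noncomputable def SS (N : ℕ) (f g : ℕ → ℂ) (a b : ℕ) : ℂ :=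
  ∑ m ∈ range (N + 1), (N.choose m : ℂ) * (conj (f (m + a)) * g (m + b))

/-- local factor -/
noncomputable def loc (a b : Fin 4) (u v : Fin 2) : ℂ :=
  ∑ w : Fin 2, conj (sigma a w u) * sigma b w v

theorem loc_zero (u v : Fin 2) : loc 0 0 u v = if u = v then 1 else 0 := by
  fin_cases u <;> fin_cases v <;> simp [loc, sigma]

theorem ip_pauli {n : ℕ} (E F : Fin n → Fin 4) (φ ψ : (Fin n → Fin 2) → ℂ) :
    ip (pauliOp E φ) (pauliOp F ψ) =
      ∑ x : Fin n → Fin 2, ∑ y : Fin n → Fin 2,
        (∏ i, loc (E i) (F i) (x i) (y i)) * (conj (φ x) * ψ y) := by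
  have h : ∀ x y : Fin n → Fin 2, (∏ i, loc (E i) (F i) (x i) (y i)) =
      ∑ z : Fin n → Fin 2, (∏ i, conj (sigma (E i) (z i) (x i))) *
        (∏ i, sigma (F i) (z i) (y i)) := by
    intro x y
    simp only [loc]
    rw [Finset.prod_univ_sum]
    rw [Fintype.piFinset_univ]
    apply Finset.sum_congr rfl
    intro z _
    rw [Finset.prod_mul_distrib]
  simp only [h, ip, pauliOp, map_sum, map_mul, map_prod, Finset.sum_mul, Finset.mul_sum]
  rw [Finset.sum_comm]
  rw [Finset.sum_congr rfl (fun y _ => Finset.sum_comm)]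
  rw [Finset.sum_comm]
  apply Finset.sum_congr rfl; intro x _
  apply Finset.sum_congr rfl; intro y _
  apply Finset.sum_congr rfl; intro z _
  ring

theorem hw_split {n : ℕ} (T : Finset (Fin n)) (x1 : {i // i ∈ T} → Fin 2)
    (x2 : {i // ¬ i ∈ T} → Fin 2) :
    hw ((Equiv.piEquivPiSubtypeProd (fun i => i ∈ T) (fun _ => Fin 2)).symm (x1, x2)) =
      hw x1 + hw x2 := by
  unfold hw
  rw [← Fintype.sum_subtype_add_sum_subtype (fun i => i ∈ T)]
  congr 1
  · refine Finset.sum_congr (by ext; simp) ?_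
    intro i _
    simp [Equiv.piEquivPiSubtypeProd]
  · refine Finset.sum_congr (by ext; simp) ?_
    intro i _
    have := i.2
    simp [Equiv.piEquivPiSubtypeProd, this]

theorem ip_pauli_st {n : ℕ} (E F : Fin n → Fin 4) (T : Finset (Fin n))
    (hE : ∀ i, i ∉ T → E i = 0) (hF : ∀ i, i ∉ T → F i = 0) (f g : ℕ → ℂ) :
    ip (pauliOp E (st f)) (pauliOp F (st g)) =
      ∑ x : {i // i ∈ T} → Fin 2, ∑ y : {i // i ∈ T} → Fin 2,
        (∏ i : {i // i ∈ T}, loc (E i) (F i) (x i) (y i)) *
          SS (n - T.card) f g (hw x) (hw y) := by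
  rw [ip_pauli]
  have hc : Fintype.card {i // ¬ i ∈ T} = n - T.card := by
    rw [Fintype.card_subtype_compl, Fintype.card_fin, Fintype.card_coe]
  rw [← (Equiv.piEquivPiSubtypeProd (fun i => i ∈ T) (fun _ => Fin 2)).symm.sum_comp]
  rw [Fintype.sum_prod_type]
  apply Finset.sum_congr rfl
  intro x1 _
  have h1 : ∀ x2 : {i // ¬ i ∈ T} → Fin 2, ∑ y : Fin n → Fin 2,
      (∏ i, loc (E i) (F i)
        ((Equiv.piEquivPiSubtypeProd (fun i => i ∈ T) (fun _ => Fin 2)).symm (x1, x2) i) (y i)) *
        (conj (st f ((Equiv.piEquivPiSubtypeProd (fun i => i ∈ T) (fun _ => Fin 2)).symm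
          (x1, x2))) * st g y) =
      ∑ y1 : {i // i ∈ T} → Fin 2, (∏ i : {i // i ∈ T}, loc (E i) (F i) (x1 i) (y1 i)) *
        (conj (f (hw x2 + hw x1)) * g (hw x2 + hw y1)) := by
    intro x2
    rw [← (Equiv.piEquivPiSubtypeProd (fun i => i ∈ T) (fun _ => Fin 2)).symm.sum_comp]
    rw [Fintype.sum_prod_type]
    apply Finset.sum_congr rfl
    intro y1 _
    have h2 : ∀ y2 : {i // ¬ i ∈ T} → Fin 2,
        (∏ i, loc (E i) (F i)
          ((Equiv.piEquivPiSubtypeProd (fun i => i ∈ T) (fun _ => Fin 2)).symm (x1, x2) i)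
          ((Equiv.piEquivPiSubtypeProd (fun i => i ∈ T) (fun _ => Fin 2)).symm (y1, y2) i)) =
        (∏ i : {i // i ∈ T}, loc (E i) (F i) (x1 i) (y1 i)) * (if x2 = y2 then 1 else 0) := by
      intro y2
      rw [← Fintype.prod_subtype_mul_prod_subtype (fun i => i ∈ T)]
      congr 1
      · refine Finset.prod_congr (by ext; simp) ?_
        intro i _
        simp [Equiv.piEquivPiSubtypeProd]
      · rw [← show (∏ i : {i // ¬ i ∈ T}, if x2 i = y2 i then (1 : ℂ) else 0) =
          (if x2 = y2 then 1 else 0) by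
            rw [Finset.prod_boole]
            simp [funext_iff]]
        apply Finset.prod_congr rfl
        intro i _
        have hi := i.2
        rw [hE i hi, hF i hi, loc_zero]
        simp [Equiv.piEquivPiSubtypeProd, hi]
    rw [Finset.sum_congr rfl (fun y2 _ => by rw [h2 y2])]
    simp only [st, hw_split]
    rw [Finset.sum_eq_single x2]
    · simp [add_comm]
    · intro b _ hb
      rw [if_neg (Ne.symm hb)]
      simp
    · intro h; exact absurd (Finset.mem_univ _) h
  rw [Finset.sum_congr rfl (fun x2 _ => h1 x2)]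
  rw [Finset.sum_comm]
  apply Finset.sum_congr rfl
  intro y1 _
  rw [← Finset.mul_sum]
  congr 1
  rw [sum_hw (fun m => conj (f (m + hw x1)) * g (m + hw y1)), hc]
  rfl

theorem hw_le {ι : Type*} [Fintype ι] (x : ι → Fin 2) : hw x ≤ Fintype.card ι := by
  have : hw x ≤ ∑ _i : ι, 1 := by
    unfold hw; apply Finset.sum_le_sum; intro i _; have := (x i).isLt; omega
  simpa using this

/-- The reduction: if the two sequences `f`, `g` satisfy the polynomial identities then they are
the amplitudes of a code. -/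
theorem isCode_of {n t : ℕ} (hn : 2 * t ≤ n) (f g : ℕ → ℂ)
    (h1 : ∀ a b, a ≤ 2 * t → b ≤ 2 * t → SS (n - 2 * t) f g a b = 0)
    (h2 : ∀ a b, a ≤ 2 * t → b ≤ 2 * t →
      SS (n - 2 * t) f f a b = SS (n - 2 * t) g g a b)
    (h3 : ∑ m ∈ range (n + 1), (n.choose m : ℂ) * (conj (f m) * f m) = 1) :
    IsCode n t (![fun j => ((Real.sqrt (n.choose j) : ℝ) : ℂ) * f j,
      fun j => ((Real.sqrt (n.choose j) : ℝ) : ℂ) * g j]) := by
  have hSS : ∀ N a b (φ ψ : ℕ → ℂ), SS N ψ φ a b = conj (SS N φ ψ b a) := by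
    intro N a b φ ψ
    simp only [SS, map_sum, map_mul, Complex.conj_natCast, Complex.conj_conj]
    apply Finset.sum_congr rfl; intro m _; ring
  have key : ∀ E F : Fin n → Fin 4, pweight E ≤ t → pweight F ≤ t →
      ip (pauliOp E (st f)) (pauliOp F (st g)) = 0 ∧
      ip (pauliOp E (st g)) (pauliOp F (st f)) = 0 ∧
      ip (pauliOp E (st f)) (pauliOp F (st f)) = ip (pauliOp E (st g)) (pauliOp F (st g)) := by
    intro E F hE hF
    obtain ⟨T, hT1, hT2⟩ := Finset.exists_superset_card_eq
      (s := (univ.filter fun i => E i ≠ 0) ∪ (univ.filter fun i => F i ≠ 0)) (n := 2 * t)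
      (by
        refine (Finset.card_union_le _ _).trans ?_
        unfold pweight at hE hF
        omega) (by simpa using hn)
    have hE' : ∀ i, i ∉ T → E i = 0 := by
      intro i hi
      by_contra h
      apply hi
      apply hT1
      simp [h]
    have hF' : ∀ i, i ∉ T → F i = 0 := by
      intro i hi
      by_contra h
      apply hi
      apply hT1
      simp [h]
    have hb : ∀ x : {i // i ∈ T} → Fin 2, hw x ≤ 2 * t := by
      intro x
      have := hw_le x
      rw [Fintype.card_coe, hT2] at this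
      exact this
    refine ⟨?_, ?_, ?_⟩
    · rw [ip_pauli_st E F T hE' hF', hT2]
      apply Finset.sum_eq_zero; intro x _
      apply Finset.sum_eq_zero; intro y _
      rw [h1 _ _ (hb x) (hb y), mul_zero]
    · rw [ip_pauli_st E F T hE' hF', hT2]
      apply Finset.sum_eq_zero; intro x _
      apply Finset.sum_eq_zero; intro y _
      rw [hSS, h1 _ _ (hb y) (hb x), map_zero, mul_zero]
    · rw [ip_pauli_st E F T hE' hF', ip_pauli_st E F T hE' hF', hT2]
      apply Finset.sum_congr rfl; intro x _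
      apply Finset.sum_congr rfl; intro y _
      rw [h2 _ _ (hb x) (hb y)]
  have hid : ∀ ψ : (Fin n → Fin 2) → ℂ, pauliOp (fun _ => 0) ψ = ψ := by
    intro ψ
    funext x
    unfold pauliOp
    rw [Finset.sum_eq_single x]
    · have : ∀ u : Fin 2, sigma 0 u u = 1 := by intro u; fin_cases u <;> simp [sigma]
      simp [this]
    · intro y _ hy
      obtain ⟨i, hi⟩ := Function.ne_iff.mp hy
      rw [Finset.prod_eq_zero (Finset.mem_univ i), zero_mul]
      have : ∀ u v : Fin 2, v ≠ u → sigma 0 u v = 0 := by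
        intro u v; fin_cases u <;> fin_cases v <;> simp [sigma]
      exact this _ _ hi
    · intro h; exact absurd (Finset.mem_univ _) h
  have h0 : pweight (fun _ : Fin n => (0 : Fin 4)) ≤ t := by simp [pweight]
  have k0 := key (fun _ => 0) (fun _ => 0) h0 h0
  rw [hid, hid, ] at k0
  have hn1 : ip (st f : (Fin n → Fin 2) → ℂ) (st f) = 1 := by
    rw [← h3]
    have := sum_hw (ι := Fin n) (fun m => conj (f m) * f m)
    rw [Fintype.card_fin] at this
    rw [← this]
    rfl
  have w0 : word (fun j : Fin (n + 1) => ((Real.sqrt (n.choose j) : ℝ) : ℂ) * f j) = st f :=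
    word_eq f
  have w1 : word (fun j : Fin (n + 1) => ((Real.sqrt (n.choose j) : ℝ) : ℂ) * g j) = st g :=
    word_eq g
  constructor
  · intro i k
    fin_cases i <;> fin_cases k
    · simpa [w0] using hn1
    · simpa [w0, w1] using k0.1
    · simpa [w0, w1] using k0.2.1
    · simpa [w1] using (k0.2.2.symm.trans hn1)
  · intro E F hE hF
    obtain ⟨a, b, c⟩ := key E F hE hF
    refine ⟨ip (pauliOp E (st f)) (pauliOp F (st f)), ?_⟩
    intro i k
    fin_cases i <;> fin_cases k
    · simp [w0]
    · simpa [w0, w1] using a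
    · simpa [w0, w1] using b
    · simpa [w1] using c.symm

end Pool.Agent.X188.PI
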