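import Mathlib

/-! A Newton-Kantorovich lemma for systems of quadratic forms given by lists of terms. -/

namespace Pool.Agent.X188.PI

open Finset

/-- value of the quadratic form with terms `(c, u, v)` -/
noncomputable def qf (L : List (ℤ × ℕ × ℕ)) (x : ℕ → ℝ) : ℝ :=
  (L.map fun t => (t.1 : ℝ) * (x t.2.1 * x t.2.2)).sum

/-- its polar form -/
noncomputable def bf (L : List (ℤ × ℕ × ℕ)) (x y : ℕ → ℝ) : ℝ :=
  (L.map fun t => (t.1 : ℝ) * (x t.2.1 * y t.2.2 + y t.2.1 * x t.2.2)).sum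

/-- sum of the absolute values of the coefficients -/
def cs (L : List (ℤ × ℕ × ℕ)) : ℤ := (L.map fun t => |t.1|).sum

theorem qf_add (L : List (ℤ × ℕ × ℕ)) (x h : ℕ → ℝ) :
    qf L (fun i => x i + h i) = qf L x + bf L x h + qf L h := by
  induction L with
  | nil => simp [qf, bf]
  | cons t L ih =>
    simp only [qf, bf, List.map_cons, List.sum_cons] at *
    rw [ih]; ring

theorem bf_sum {M : ℕ} (L : List (ℤ × ℕ × ℕ)) (x : ℕ → ℝ) (A : ℕ → Fin M → ℝ)
    (g : Fin M → ℝ) :
    bf L x (fun w => ∑ e, A w e * g e) = ∑ e, bf L x (fun w => A w e) * g e := by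
  induction L with
  | nil => simp [bf]
  | cons t L ih =>
    simp only [bf, List.map_cons, List.sum_cons] at *
    rw [ih]
    simp only [add_mul, Finset.sum_add_distrib]
    congr 1
    rw [Finset.mul_sum, Finset.sum_mul, ← Finset.sum_add_distrib, Finset.mul_sum]
    apply Finset.sum_congr rfl; intro e _; ring

theorem qf_bound (L : List (ℤ × ℕ × ℕ)) (h : ℕ → ℝ) (r : ℝ) (hr : ∀ w, |h w| ≤ r) :
    |qf L h| ≤ (cs L : ℝ) * r ^ 2 := by
  have hr0 : 0 ≤ r := (abs_nonneg _).trans (hr 0)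
  induction L with
  | nil => simp [qf, cs]
  | cons t L ih =>
    simp only [qf, cs, List.map_cons, List.sum_cons] at *
    push_cast at *
    refine (abs_add_le _ _).trans ?_
    rw [add_mul]
    refine add_le_add ?_ ih
    rw [abs_mul, abs_mul, sq]
    exact mul_le_mul_of_nonneg_left (mul_le_mul (hr _) (hr _) (abs_nonneg _) hr0) (abs_nonneg _)

theorem bf_bound (L : List (ℤ × ℕ × ℕ)) (h k : ℕ → ℝ) (r s : ℝ) (hr : ∀ w, |h w| ≤ r)
    (hs : ∀ w, |k w| ≤ s) :
    |bf L h k| ≤ (cs L : ℝ) * (2 * (r * s)) := by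
  have hr0 : 0 ≤ r := (abs_nonneg _).trans (hr 0)
  have hs0 : 0 ≤ s := (abs_nonneg _).trans (hs 0)
  induction L with
  | nil => simp [bf, cs]
  | cons t L ih =>
    simp only [bf, cs, List.map_cons, List.sum_cons] at *
    push_cast at *
    refine (abs_add_le _ _).trans ?_
    rw [add_mul]
    refine add_le_add ?_ ih
    rw [abs_mul]
    refine mul_le_mul_of_nonneg_left ?_ (abs_nonneg _)
    refine (abs_add_le _ _).trans ?_
    rw [abs_mul, abs_mul]
    have h1 := mul_le_mul (hr t.2.1) (hs t.2.2) (abs_nonneg _) hr0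
    have h2 := mul_le_mul (hs t.2.1) (hr t.2.2) (abs_nonneg _) hs0
    nlinarith

theorem qf_sub (L : List (ℤ × ℕ × ℕ)) (x y : ℕ → ℝ) :
    qf L x - qf L y = (1 / 2) * bf L (fun i => x i + y i) (fun i => x i - y i) := by
  induction L with
  | nil => simp [qf, bf]
  | cons t L ih =>
    simp only [qf, bf, List.map_cons, List.sum_cons] at *
    linarith

/-- Newton-Kantorovich for quadratic forms. -/
theorem newton {M : ℕ} (L : Fin M → List (ℤ × ℕ × ℕ)) (x : ℕ → ℝ) (A : ℕ → Fin M → ℝ)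
    (a ε τ S ρ : ℝ) (ha : ∀ w e, |A w e| ≤ a) (hS : ∀ m, (cs (L m) : ℝ) ≤ S) (hS0 : 0 ≤ S)
    (hε : ∀ m, |qf (L m) x| ≤ ε)
    (hτ : ∀ m e, |bf (L m) x (fun w => A w e) - (if m = e then 1 else 0)| ≤ τ)
    (hρ : 0 < ρ) (h1 : (M : ℝ) * τ ≤ 1 / 4) (h2 : S * (M * a) ^ 2 * ρ ≤ 1 / 8)
    (h3 : ε ≤ ρ / 2) (hM : 0 < M) :
    ∃ h : ℕ → ℝ, (∀ w, |h w| ≤ M * a * ρ) ∧ ∀ m, qf (L m) (fun i => x i + h i) = 0 := by
  have ha0 : 0 ≤ a := (abs_nonneg _).trans (ha 0 ⟨0, hM⟩)
  have hMa : 0 ≤ (M : ℝ) * a := by positivity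
  set H : (Fin M → ℝ) → ℕ → ℝ := fun g w => ∑ e, A w e * g e with hH
  set Φ : (Fin M → ℝ) → (Fin M → ℝ) := fun g m => g m - qf (L m) (fun i => x i + H g i) with hΦ
  have hHb : ∀ g : Fin M → ℝ, ∀ w, |H g w| ≤ M * a * ‖g‖ := by
    intro g w
    simp only [hH]
    refine (Finset.abs_sum_le_sum_abs _ _).trans ?_
    have : ∀ e ∈ (Finset.univ : Finset (Fin M)), |A w e * g e| ≤ a * ‖g‖ := by
      intro e _
      rw [abs_mul]
      exact mul_le_mul (ha w e) (norm_le_pi_norm g e) (abs_nonneg _) ha0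
    refine (Finset.sum_le_sum this).trans ?_
    simp; nlinarith
  have hHsub : ∀ g g' : Fin M → ℝ, ∀ w, H g w - H g' w = H (g - g') w := by
    intro g g' w
    simp only [hH, Pi.sub_apply, ← Finset.sum_sub_distrib]
    apply Finset.sum_congr rfl; intro e _; ring
  have hHadd : ∀ g g' : Fin M → ℝ, ∀ w, H g w + H g' w = H (g + g') w := by
    intro g g' w
    simp only [hH, Pi.add_apply, ← Finset.sum_add_distrib]
    apply Finset.sum_congr rfl; intro e _; ring
  -- the linear error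
  have hlin : ∀ m (g : Fin M → ℝ), |g m - bf (L m) x (H g)| ≤ 1 / 4 * ‖g‖ := by
    intro m g
    have e1 : g m - bf (L m) x (H g) =
        -∑ e, (bf (L m) x (fun w => A w e) - (if m = e then 1 else 0)) * g e := by
      simp only [hH]
      rw [bf_sum]
      simp only [sub_mul, Finset.sum_sub_distrib, ite_mul, one_mul, zero_mul,
        Finset.sum_ite_eq, Finset.mem_univ, if_true]
      ring
    rw [e1, abs_neg]
    refine (Finset.abs_sum_le_sum_abs _ _).trans ?_
    have hτ0 : 0 ≤ τ := (abs_nonneg _).trans (hτ m m)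
    have : ∀ e ∈ (Finset.univ : Finset (Fin M)),
        |(bf (L m) x (fun w => A w e) - (if m = e then 1 else 0)) * g e| ≤ τ * ‖g‖ := by
      intro e _
      rw [abs_mul]
      exact mul_le_mul (hτ m e) (norm_le_pi_norm g e) (abs_nonneg _) hτ0
    refine (Finset.sum_le_sum this).trans ?_
    simp only [Finset.sum_const, Finset.card_univ, Fintype.card_fin, nsmul_eq_mul]
    rw [← mul_assoc]
    exact mul_le_mul_of_nonneg_right h1 (norm_nonneg _)
  have hΦeq : ∀ m g, Φ g m = (g m - bf (L m) x (H g)) - qf (L m) x - qf (L m) (H g) := by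
    intro m g
    simp only [hΦ]
    rw [qf_add]; ring
  have hmaps : Set.MapsTo Φ (Metric.closedBall 0 ρ) (Metric.closedBall 0 ρ) := by
    intro g hg
    rw [mem_closedBall_zero_iff] at hg ⊢
    rw [pi_norm_le_iff_of_nonneg hρ.le]
    intro m
    rw [hΦeq, Real.norm_eq_abs]
    have q1 := hlin m g
    have q2 := qf_bound (L m) (H g) (M * a * ρ)
      (fun w => (hHb g w).trans (mul_le_mul_of_nonneg_left hg hMa))
    have q3 : (cs (L m) : ℝ) * (M * a * ρ) ^ 2 ≤ 1 / 8 * ρ := by
      have : (cs (L m) : ℝ) * (M * a * ρ) ^ 2 ≤ S * (M * a * ρ) ^ 2 :=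
        mul_le_mul_of_nonneg_right (hS m) (sq_nonneg _)
      refine this.trans ?_
      have := mul_le_mul_of_nonneg_right h2 hρ.le
      nlinarith
    have q4 := hε m
    have b1 := abs_le.mp q1
    have b2 := abs_le.mp (q2.trans q3)
    have b3 := abs_le.mp q4
    rw [abs_le]
    constructor <;> nlinarith
  have hlip : ∀ g ∈ Metric.closedBall (0 : Fin M → ℝ) ρ, ∀ g' ∈ Metric.closedBall (0 : Fin M → ℝ) ρ,
      dist (Φ g) (Φ g') ≤ (1 / 2) * dist g g' := by
    intro g hg g' hg'
    rw [mem_closedBall_zero_iff] at hg hg'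
    rw [dist_eq_norm, dist_eq_norm, pi_norm_le_iff_of_nonneg (by positivity)]
    intro m
    rw [Pi.sub_apply, hΦeq, hΦeq, Real.norm_eq_abs]
    have q1 := hlin m (g - g')
    have e1 : bf (L m) x (H (g - g')) = bf (L m) x (H g) - bf (L m) x (H g') := by
      have : H g = fun w => ∑ e, A w e * g e := rfl
      simp only [hH]
      rw [bf_sum, bf_sum, bf_sum, ← Finset.sum_sub_distrib]
      apply Finset.sum_congr rfl; intro e _
      simp only [Pi.sub_apply]; ring
    rw [e1, Pi.sub_apply] at q1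
    have q2 : |qf (L m) (H g) - qf (L m) (H g')| ≤ 1 / 4 * ‖g - g'‖ := by
      rw [qf_sub, abs_mul]
      have c1 := bf_bound (L m) (fun i => H g i + H g' i) (fun i => H g i - H g' i)
        (M * a * (2 * ρ)) (M * a * ‖g - g'‖)
        (fun w => by
          rw [hHadd]
          refine (hHb _ w).trans (mul_le_mul_of_nonneg_left ?_ hMa)
          refine (norm_add_le _ _).trans ?_
          linarith)
        (fun w => by rw [hHsub]; exact hHb _ w)
      have c2 : (cs (L m) : ℝ) * (2 * (M * a * (2 * ρ) * (M * a * ‖g - g'‖))) ≤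
          S * (2 * (M * a * (2 * ρ) * (M * a * ‖g - g'‖))) :=
        mul_le_mul_of_nonneg_right (hS m) (by positivity)
      have c3 := mul_le_mul_of_nonneg_right h2 (norm_nonneg (g - g'))
      have c4 := c1.trans c2
      rw [abs_of_pos (by norm_num : (0:ℝ) < 1 / 2)]
      nlinarith
    have b1 := abs_le.mp q1
    have b2 := abs_le.mp q2
    rw [abs_le]
    constructor <;> linarith
  have hc : IsComplete (Metric.closedBall (0 : Fin M → ℝ) ρ) :=
    Metric.isClosed_closedBall.isComplete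
  have hct : ContractingWith (1 / 2) (hmaps.restrict Φ _ _) := by
    refine ⟨by norm_num, LipschitzWith.of_dist_le_mul ?_⟩
    intro g g'
    have h := hlip g g.2 g' g'.2
    have e : dist (hmaps.restrict Φ _ _ g) (hmaps.restrict Φ _ _ g') =
      dist (Φ g) (Φ g') := rfl
    have e2 : dist g g' = dist (g : Fin M → ℝ) g' := rfl
    rw [e, e2]
    simpa using h
  obtain ⟨g, hg, hfix, -⟩ := ContractingWith.exists_fixedPoint' hc hmaps hct
    (x := 0) (by simp [hρ.le]) (edist_ne_top _ _)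
  refine ⟨H g, ?_, ?_⟩
  · intro w
    rw [mem_closedBall_zero_iff] at hg
    exact (hHb g w).trans (mul_le_mul_of_nonneg_left hg hMa)
  · intro m
    have : Φ g m = g m := congrFun hfix m
    simp only [hΦ] at this
    linarith

end Pool.Agent.X188.PI
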