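import Pool.Agent.X188.PIChk
import Pool.Agent.X188.PI2

/-! Linking the kernel checks with the real-valued Newton-Kantorovich lemma. -/

set_option maxRecDepth 100000

namespace Pool.Agent.X188.PI

open Finset

theorem nth_of_le (l : List ℤ) (i : ℕ) (h : l.length ≤ i) : nth l i = 0 := by
  induction l generalizing i with
  | nil => rfl
  | cons a l ih =>
    cases i with
    | zero => simp at h
    | succ i => exact ih i (by simpa using h)

theorem dot_eq (as bs : List ℤ) (N : ℕ) (h : as.length ≤ N) :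
    dot as bs = ∑ w ∈ range N, nth as w * nth bs w := by
  induction as generalizing bs N with
  | nil =>
    simp [dot, nth]
  | cons a as ih =>
    cases bs with
    | nil => simp [dot, nth]
    | cons b bs =>
      cases N with
      | zero => simp at h
      | succ N =>
        rw [Finset.sum_range_succ']
        simp only [dot, nth]
        rw [ih bs N (by simpa using h)]
        ring

theorem chkJ_spec (X : List ℤ) (T : List (ℤ × ℕ × ℕ)) (row : List ℤ) (w : ℕ)
    (h : chkJ X T w row = true) : ∀ i < row.length, jent X (w + i) T = nth row i := by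
  induction row generalizing w with
  | nil => intro i hi; simp at hi
  | cons r rs ih =>
    simp only [chkJ, Bool.and_eq_true, decide_eq_true_eq] at h
    intro i hi
    cases i with
    | zero => exact h.1
    | succ i =>
      have := ih (w + 1) h.2 i (by simpa using hi)
      rw [show w + (i + 1) = w + 1 + i by ring]
      exact this

theorem chkJall_spec (X : List ℤ) (Ts : List (List (ℤ × ℕ × ℕ))) (rs : List (List ℤ))
    (h : chkJall X Ts rs = true) :
    ∀ m < Ts.length, chkJ X (Ts.getD m []) 0 (rs.getD m []) = true := by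
  induction Ts generalizing rs with
  | nil => intro m hm; simp at hm
  | cons T Ts ih =>
    cases rs with
    | nil => simp [chkJall] at h
    | cons r rs =>
      simp only [chkJall, Bool.and_eq_true] at h
      intro m hm
      cases m with
      | zero => simpa using h.1
      | succ m => simpa using ih rs h.2 m (by simpa using hm)

theorem chkRow_spec (r : List ℤ) (m : ℕ) (As : List (List ℤ)) (e : ℕ)
    (h : chkRow r m e As = true) : ∀ i < As.length,
    |dot r (As.getD i []) - (if m = e + i then 2 ^ 204 else 0)| ≤ 2 ^ 196 := by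
  induction As generalizing e with
  | nil => intro i hi; simp at hi
  | cons a as ih =>
    simp only [chkRow, Bool.and_eq_true, decide_eq_true_eq] at h
    intro i hi
    cases i with
    | zero =>
      rw [abs_le]
      simpa using h.1
    | succ i =>
      have := ih (e + 1) h.2 i (by simpa using hi)
      rw [show e + (i + 1) = e + 1 + i by ring]
      simpa using this

theorem chkC_spec (A : List (List ℤ)) (rs : List (List ℤ)) (m : ℕ)
    (h : chkC A m rs = true) : ∀ i < rs.length, chkRow (rs.getD i []) (m + i) 0 A = true := by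
  induction rs generalizing m with
  | nil => intro i hi; simp at hi
  | cons r rs ih =>
    simp only [chkC, Bool.and_eq_true] at h
    intro i hi
    cases i with
    | zero => simpa using h.1
    | succ i =>
      have := ih (m + 1) h.2 i (by simpa using hi)
      rw [show m + (i + 1) = m + 1 + i by ring]
      simpa using this

theorem jent_sum (X : List ℤ) (b : ℕ → ℤ) (N : ℕ) (L : List (ℤ × ℕ × ℕ))
    (hL : ∀ t ∈ L, t.2.1 < N ∧ t.2.2 < N) :
    ∑ w ∈ range N, jent X w L * b w =
      (L.map fun t => t.1 * (nth X t.2.1 * b t.2.2 + b t.2.1 * nth X t.2.2)).sum := by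
  induction L with
  | nil => simp [jent]
  | cons t L ih =>
    obtain ⟨c, u, v⟩ := t
    have h1 := hL (c, u, v) (by simp)
    simp only at h1
    simp only [jent, add_mul, Finset.sum_add_distrib, ite_mul, zero_mul, List.map_cons,
      List.sum_cons]
    rw [ih (fun t ht => hL t (List.mem_cons_of_mem _ ht))]
    rw [Finset.sum_ite_eq, Finset.sum_ite_eq]
    rw [if_pos (Finset.mem_range.mpr h1.2), if_pos (Finset.mem_range.mpr h1.1)]
    ring

/-- all the index bounds and coefficient bounds -/
def chkT (L : List (ℤ × ℕ × ℕ)) : Bool :=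
  L.all (fun t => decide (t.2.1 < 40) && decide (t.2.2 < 40)) && decide (cs L ≤ 2 ^ 52)

theorem chkT_ok : TL.all chkT = true := by decide +kernel

def qz (X : List ℤ) : List (ℤ × ℕ × ℕ) → ℤ
  | [] => 0
  | (c, u, v) :: T => c * (nth X u * nth X v) + qz X T

theorem chkQ_ok : TL.all (fun L => decide (-(2 ^ 180) ≤ qz XL L) && decide (qz XL L ≤ 2 ^ 180))
    = true := by decide +kernel

theorem chkA_ok : AL.all (fun L => L.all (fun a => decide (-(2 ^ 55) ≤ a) && decide (a ≤ 2 ^ 55)))
    = true := by decide +kernel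

theorem lens : TL.length = 36 ∧ JL.length = 36 ∧ AL.length = 36 ∧
    (JL.all fun r => decide (r.length = 40)) = true := by
  refine ⟨by decide +kernel, by decide +kernel, by decide +kernel, by decide +kernel⟩

/-- the approximate solution -/
noncomputable def x0 (w : ℕ) : ℝ := (nth XL w : ℝ) / 2 ^ 160

/-- the approximate right inverse -/
noncomputable def A0 (w : ℕ) (e : Fin 36) : ℝ := (nth (AL.getD e []) w : ℝ) / 2 ^ 44

/-- the equations -/
def L0 (m : Fin 36) : List (ℤ × ℕ × ℕ) := TL.getD m []

theorem all_getD {α : Type*} (l : List α) (P : α → Bool) (h : l.all P = true) (d : α) (i : ℕ)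
    (hi : i < l.length) : P (l.getD i d) = true := by
  rw [List.all_eq_true] at h
  apply h
  rw [List.getD_eq_getElem l d hi]
  exact List.getElem_mem hi

theorem nth_all (l : List ℤ) (P : ℤ → Prop) (h : ∀ a ∈ l, P a) (h0 : P 0) (i : ℕ) :
    P (nth l i) := by
  induction l generalizing i with
  | nil => exact h0
  | cons a l ih =>
    cases i with
    | zero => exact h a (by simp)
    | succ i => exact ih (fun b hb => h b (List.mem_cons_of_mem _ hb)) i

theorem ha0 (w : ℕ) (e : Fin 36) : |A0 w e| ≤ 2 ^ 11 := by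
  have h1 := all_getD AL _ chkA_ok [] e (by rw [lens.2.2.1]; exact e.isLt)
  rw [List.all_eq_true] at h1
  have h2 := nth_all (AL.getD e []) (fun a => |a| ≤ 2 ^ 55) (fun a ha => by
    have := h1 a ha
    simp only [Bool.and_eq_true, decide_eq_true_eq] at this
    exact abs_le.mpr this) (by norm_num) w
  have h3 : |(nth (AL.getD e []) w : ℝ)| ≤ 2 ^ 55 := by exact_mod_cast h2
  unfold A0
  rw [abs_div, abs_of_pos (by positivity : (0:ℝ) < 2 ^ 44), div_le_iff₀ (by positivity)]
  refine h3.trans (by norm_num)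

theorem hS0 (m : Fin 36) : (cs (L0 m) : ℝ) ≤ 2 ^ 52 := by
  have h1 := all_getD TL _ chkT_ok [] m (by rw [lens.1]; exact m.isLt)
  simp only [chkT, Bool.and_eq_true, decide_eq_true_eq] at h1
  exact_mod_cast h1.2

theorem hidx (m : Fin 36) : ∀ t ∈ L0 m, t.2.1 < 40 ∧ t.2.2 < 40 := by
  have h1 := all_getD TL _ chkT_ok [] m (by rw [lens.1]; exact m.isLt)
  simp only [chkT, Bool.and_eq_true, decide_eq_true_eq, List.all_eq_true] at h1
  exact h1.1

theorem qf_cast (X : List ℤ) (s : ℝ) (L : List (ℤ × ℕ × ℕ)) :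
    qf L (fun w => (nth X w : ℝ) / s) = (qz X L : ℝ) / s ^ 2 := by
  induction L with
  | nil => simp [qf, qz]
  | cons t L ih =>
    obtain ⟨c, u, v⟩ := t
    simp only [qf, qz, List.map_cons, List.sum_cons] at *
    rw [ih]
    push_cast
    ring

theorem bf_cast (X : List ℤ) (s s' : ℝ) (b : ℕ → ℤ) (L : List (ℤ × ℕ × ℕ)) :
    bf L (fun w => (nth X w : ℝ) / s) (fun w => (b w : ℝ) / s') =
      (((L.map fun t => t.1 * (nth X t.2.1 * b t.2.2 + b t.2.1 * nth X t.2.2)).sum : ℤ) : ℝ)
        / (s * s') := by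
  induction L with
  | nil => simp [bf]
  | cons t L ih =>
    obtain ⟨c, u, v⟩ := t
    simp only [bf, List.map_cons, List.sum_cons] at *
    rw [ih]
    push_cast
    ring

theorem hε0 (m : Fin 36) : |qf (L0 m) x0| ≤ 1 / 2 ^ 140 := by
  have h1 := all_getD TL _ chkQ_ok [] m (by rw [lens.1]; exact m.isLt)
  simp only [Bool.and_eq_true, decide_eq_true_eq] at h1
  have h2 : |qz XL (L0 m)| ≤ 2 ^ 180 := abs_le.mpr h1
  have h3 : |(qz XL (L0 m) : ℝ)| ≤ 2 ^ 180 := by exact_mod_cast h2
  have e : qf (L0 m) x0 = (qz XL (L0 m) : ℝ) / (2 ^ 160) ^ 2 := qf_cast XL (2 ^ 160) (L0 m)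
  rw [e, abs_div, abs_of_pos (by positivity : (0:ℝ) < (2 ^ 160) ^ 2),
    div_le_iff₀ (by positivity)]
  refine h3.trans (by norm_num)

theorem hτ0 (m e : Fin 36) :
    |bf (L0 m) x0 (fun w => A0 w e) - (if m = e then 1 else 0)| ≤ 1 / 2 ^ 8 := by
  have hlen : (JL.getD m []).length = 40 := by
    have := all_getD JL _ lens.2.2.2 [] m (by rw [lens.2.1]; exact m.isLt)
    simpa using this
  have h1 := chkJall_spec XL TL JL chkJ_ok m (by rw [lens.1]; exact m.isLt)
  have h2 := chkJ_spec XL (TL.getD m []) (JL.getD m []) 0 h1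
  rw [hlen] at h2
  have h3 := chkC_spec AL JL 0 chkC_ok m (by rw [lens.2.1]; exact m.isLt)
  have h4 := chkRow_spec _ _ AL 0 h3 e (by rw [lens.2.2.1]; exact e.isLt)
  rw [dot_eq _ _ 40 hlen.le] at h4
  have h5 : ∑ w ∈ range 40, nth (JL.getD m []) w * nth (AL.getD e []) w =
      ((L0 m).map fun t => t.1 * (nth XL t.2.1 * nth (AL.getD e []) t.2.2 +
        nth (AL.getD e []) t.2.1 * nth XL t.2.2)).sum := by
    rw [← jent_sum XL (fun w => nth (AL.getD e []) w) 40 (L0 m) (hidx m)]
    apply Finset.sum_congr rfl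
    intro w hw
    rw [← h2 w (Finset.mem_range.mp hw), zero_add]
    rfl
  rw [h5] at h4
  have e1 : bf (L0 m) x0 (fun w => A0 w e) = _ :=
    bf_cast XL (2 ^ 160) (2 ^ 44) (fun w => nth (AL.getD e []) w) (L0 m)
  rw [e1]
  set Z : ℤ := ((L0 m).map fun t => t.1 * (nth XL t.2.1 * nth (AL.getD e []) t.2.2 +
        nth (AL.getD e []) t.2.1 * nth XL t.2.2)).sum with hZ
  have h6 : |(Z : ℝ) - (if m = e then 2 ^ 204 else 0)| ≤ 2 ^ 196 := by
    have e2 : (if (0 + (m : ℕ)) = 0 + (e : ℕ) then (2:ℤ) ^ 204 else 0) =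
        if m = e then 2 ^ 204 else 0 := by
      simp [Fin.ext_iff]
    rw [e2] at h4
    have h7 : ((|Z - (if m = e then 2 ^ 204 else 0)| : ℤ) : ℝ) ≤ ((2 ^ 196 : ℤ) : ℝ) := by
      exact_mod_cast h4
    push_cast at h7
    norm_num
    exact h7
  have e3 : (Z : ℝ) / (2 ^ 160 * 2 ^ 44) - (if m = e then 1 else 0) =
      ((Z : ℝ) - (if m = e then 2 ^ 204 else 0)) / 2 ^ 204 := by
    split_ifs <;> field_simp <;> norm_num
  rw [e3, abs_div, abs_of_pos (by positivity : (0:ℝ) < 2 ^ 204), div_le_iff₀ (by positivity)]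
  refine h6.trans (by norm_num)

/-- The exact solution of the 36 equations near the approximate one. -/
theorem exists_solution : ∃ x : ℕ → ℝ, (∀ w, |x w - x0 w| ≤ 1 / 2 ^ 60) ∧
    ∀ m : Fin 36, qf (L0 m) x = 0 := by
  obtain ⟨h, h1, h2⟩ := newton L0 x0 A0 (2 ^ 11) (1 / 2 ^ 140) (1 / 2 ^ 8) (2 ^ 52) (1 / 2 ^ 90)
    ha0 hS0 (by positivity) hε0 hτ0 (by positivity) (by norm_num) (by norm_num) (by norm_num)
    (by norm_num)
  refine ⟨fun w => x0 w + h w, ?_, h2⟩
  intro w
  simp only [add_sub_cancel_left]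
  refine (h1 w).trans (by norm_num)

end Pool.Agent.X188.PI
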