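import Pool.Agent.X188.PI1
import Pool.Agent.X188.PI3

/-! A permutation-invariant qubit code of block length 59 correcting 4 errors. -/

set_option maxRecDepth 100000

namespace Pool.Agent.X188.PI

open Finset Complex
open scoped ComplexConjugate

theorem BL_step : ∀ m < 51, nth BL (m + 1) * ((m : ℤ) + 1) = nth BL m * (51 - (m : ℤ)) := by
  decide +kernel

theorem step_gen (c c' m : ℕ) (b b' : ℤ) (hm : m ≤ 51) (h : c' * (m + 1) = c * (51 - m))
    (hb : b = c) (h1 : b' * ((m : ℤ) + 1) = b * (51 - (m : ℤ))) : b' = c' := by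
  have h3 : (c' : ℤ) * ((m : ℤ) + 1) = (c : ℤ) * (51 - (m : ℤ)) := by
    zify [hm] at h
    exact h
  have h4 : ((m : ℤ) + 1) ≠ 0 := by positivity
  rw [hb] at h1
  exact mul_right_cancel₀ h4 (h1.trans h3.symm)

theorem BL_eq (m : ℕ) (hm : m ≤ 51) : nth BL m = ((Nat.choose 51 m : ℕ) : ℤ) := by
  induction m with
  | zero => decide +kernel
  | succ m ih =>
    exact step_gen (Nat.choose 51 m) (Nat.choose 51 (m + 1)) m (nth BL m) (nth BL (m + 1))
      (by omega) (Nat.choose_succ_right_eq 51 m) (ih (by omega)) (BL_step m (by omega))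

theorem sg_eq (m : ℕ) : sg m = (-1) ^ m := by
  unfold sg
  split_ifs with h
  · rw [Even.neg_one_pow (Nat.even_iff.mpr h)]
  · rw [Odd.neg_one_pow (Nat.odd_iff.mpr (by omega))]

theorem qf_append (L1 L2 : List (ℤ × ℕ × ℕ)) (x : ℕ → ℝ) :
    qf (L1 ++ L2) x = qf L1 x + qf L2 x := by
  simp [qf]

theorem qf_flat (f : ℕ → List (ℤ × ℕ × ℕ)) (x : ℕ → ℝ) (n : ℕ) :
    qf (flat f n) x = ∑ k ∈ range n, qf (f k) x := by
  induction n with
  | zero => simp [flat, qf]
  | succ n ih => rw [flat, qf_append, ih, Finset.sum_range_succ, add_comm]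

theorem qf_smul (L : List (ℤ × ℕ × ℕ)) (x : ℕ → ℝ) (s : ℝ) :
    qf L (fun i => s * x i) = s ^ 2 * qf L x := by
  induction L with
  | nil => simp [qf]
  | cons t L ih =>
    simp only [qf, List.map_cons, List.sum_cons] at *
    rw [ih]; ring

/-- the complex amplitudes -/
noncomputable def XX (x : ℕ → ℝ) (j : ℕ) : ℂ :=
  if j % 3 = 0 then ⟨x (j / 3), x (20 + j / 3)⟩ else 0

/-- the transvectant-type sums -/
noncomputable def PP (X : ℕ → ℂ) (a c : ℕ) : ℂ :=
  ∑ m ∈ range 52, (((-1) ^ m * (Nat.choose 51 m : ℕ) : ℝ) : ℂ) * (X (m + a) * X (51 - m + c))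

theorem PP_re (x : ℕ → ℝ) (a c : ℕ) (h : (a + c) % 3 = 0) :
    (PP (XX x) a c).re = qf (flat (tPr a c) 52) x := by
  rw [qf_flat, PP, Complex.re_sum]
  apply Finset.sum_congr rfl
  intro m hm
  have hm' : m ≤ 51 := by have := Finset.mem_range.mp hm; omega
  rw [Complex.re_ofReal_mul]
  unfold tPr XX
  by_cases h1 : (m + a) % 3 = 0
  · have h2 : (51 - m + c) % 3 = 0 := by omega
    rw [if_pos h1, if_pos h1, if_pos h2, BL_eq m hm', sg_eq]
    simp only [qf, List.map_cons, List.map_nil, List.sum_cons, List.sum_nil, Complex.mul_re]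
    push_cast
    ring
  · rw [if_neg h1, if_neg h1]
    simp [qf]

theorem PP_im (x : ℕ → ℝ) (a c : ℕ) (h : (a + c) % 3 = 0) :
    (PP (XX x) a c).im = qf (flat (tPi a c) 52) x := by
  rw [qf_flat, PP, Complex.im_sum]
  apply Finset.sum_congr rfl
  intro m hm
  have hm' : m ≤ 51 := by have := Finset.mem_range.mp hm; omega
  rw [Complex.im_ofReal_mul]
  unfold tPi XX
  by_cases h1 : (m + a) % 3 = 0
  · have h2 : (51 - m + c) % 3 = 0 := by omega
    rw [if_pos h1, if_pos h1, if_pos h2, BL_eq m hm', sg_eq]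
    simp only [qf, List.map_cons, List.map_nil, List.sum_cons, List.sum_nil, Complex.mul_im]
    push_cast
    ring
  · rw [if_neg h1, if_neg h1]
    simp [qf]

theorem PP_anti (X : ℕ → ℂ) (a c : ℕ) : PP X c a = -PP X a c := by
  unfold PP
  rw [← Finset.sum_range_reflect, ← Finset.sum_neg_distrib]
  apply Finset.sum_congr rfl
  intro m hm
  have hm' : m ≤ 51 := by have := Finset.mem_range.mp hm; omega
  have e1 : 52 - 1 - m = 51 - m := by omega
  have e2 : 51 - (51 - m) = m := by omega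
  rw [e1, e2, Nat.choose_symm hm']
  have e3 : ((-1 : ℝ)) ^ (51 - m) = -(-1) ^ m := by
    have : (-1 : ℝ) ^ (51 - m) * (-1) ^ m = -1 := by
      rw [← pow_add, show 51 - m + m = 51 by omega]; norm_num
    have h2 : ((-1 : ℝ) ^ m) * (-1) ^ m = 1 := by
      rw [← mul_pow]; norm_num
    calc (-1 : ℝ) ^ (51 - m) = (-1 : ℝ) ^ (51 - m) * (((-1 : ℝ) ^ m) * (-1) ^ m) := by
          rw [h2, mul_one]
      _ = ((-1 : ℝ) ^ (51 - m) * (-1) ^ m) * (-1) ^ m := by ring
      _ = -(-1) ^ m := by rw [this]; ring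
  rw [e3]
  push_cast
  ring

theorem PP_class (x : ℕ → ℝ) (a c : ℕ) (h : (a + c) % 3 ≠ 0) : PP (XX x) a c = 0 := by
  unfold PP
  apply Finset.sum_eq_zero
  intro m hm
  have hm' : m ≤ 51 := by have := Finset.mem_range.mp hm; omega
  unfold XX
  by_cases h1 : (m + a) % 3 = 0
  · have h2 : (51 - m + c) % 3 ≠ 0 := by omega
    rw [if_neg h2]; simp
  · rw [if_neg h1]; simp

/-- the list of pairs -/
def prs : List (ℕ × ℕ) := [(0, 3), (0, 6), (1, 2), (1, 5), (1, 8), (2, 4), (2, 7), (3, 6), (4, 5),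
  (4, 8), (5, 7), (7, 8)]

theorem PP_key : ∀ a < 9, ∀ c < 9,
    (a + c) % 3 ≠ 0 ∨ a = c ∨ (a, c) ∈ prs ∨ (c, a) ∈ prs := by
  intro a ha c hc
  interval_cases a <;> interval_cases c <;> simp [prs]

theorem PP_all (x : ℕ → ℝ) (h : ∀ p ∈ prs, PP (XX x) p.1 p.2 = 0) (a c : ℕ) (ha : a ≤ 8)
    (hc : c ≤ 8) : PP (XX x) a c = 0 := by
  rcases PP_key a (by omega) c (by omega) with h1 | h1 | h1 | h1
  · exact PP_class x a c h1
  · subst h1
    have := PP_anti (XX x) a a
    have h2 : (2 : ℂ) * PP (XX x) a a = 0 := by linear_combination this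
    simpa using h2
  · exact h (a, c) h1
  · rw [PP_anti, h (c, a) h1, neg_zero]

/-- the diagonal sums -/
noncomputable def GG (X : ℕ → ℂ) (a b : ℕ) : ℂ := SS 51 X X a b

theorem GG_re (x : ℕ → ℝ) (s : ℤ) (a b : ℕ) (h : a % 3 = b % 3) :
    qf (flat (tGr s a b) 52) x = (s : ℝ) * (GG (XX x) a b).re := by
  rw [qf_flat, GG, SS, Complex.re_sum, Finset.mul_sum]
  apply Finset.sum_congr rfl
  intro m hm
  have hm' : m ≤ 51 := by have := Finset.mem_range.mp hm; omega
  rw [← Complex.ofReal_natCast, Complex.re_ofReal_mul]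
  unfold tGr XX
  by_cases h1 : (m + a) % 3 = 0
  · have h2 : (m + b) % 3 = 0 := by omega
    rw [if_pos h1, if_pos h1, if_pos h2, BL_eq m hm']
    simp only [qf, List.map_cons, List.map_nil, List.sum_cons, List.sum_nil, Complex.mul_re,
      Complex.conj_re, Complex.conj_im]
    push_cast
    ring
  · rw [if_neg h1, if_neg h1]
    simp [qf]

theorem GG_im (x : ℕ → ℝ) (s : ℤ) (a b : ℕ) (h : a % 3 = b % 3) :
    qf (flat (tGi s a b) 52) x = (s : ℝ) * (GG (XX x) a b).im := by
  rw [qf_flat, GG, SS, Complex.im_sum, Finset.mul_sum]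
  apply Finset.sum_congr rfl
  intro m hm
  have hm' : m ≤ 51 := by have := Finset.mem_range.mp hm; omega
  rw [← Complex.ofReal_natCast, Complex.im_ofReal_mul]
  unfold tGi XX
  by_cases h1 : (m + a) % 3 = 0
  · have h2 : (m + b) % 3 = 0 := by omega
    rw [if_pos h1, if_pos h1, if_pos h2, BL_eq m hm']
    simp only [qf, List.map_cons, List.map_nil, List.sum_cons, List.sum_nil, Complex.mul_im,
      Complex.conj_re, Complex.conj_im]
    push_cast
    ring
  · rw [if_neg h1, if_neg h1]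
    simp [qf]

theorem GG_conj (X : ℕ → ℂ) (a b : ℕ) : GG X b a = conj (GG X a b) := by
  simp only [GG, SS, map_sum, map_mul, Complex.conj_natCast, Complex.conj_conj]
  apply Finset.sum_congr rfl; intro m _; ring

theorem GG_class (x : ℕ → ℝ) (a b : ℕ) (h : a % 3 ≠ b % 3) : GG (XX x) a b = 0 := by
  unfold GG SS
  apply Finset.sum_eq_zero
  intro m hm
  unfold XX
  by_cases h1 : (m + a) % 3 = 0
  · have h2 : (m + b) % 3 ≠ 0 := by omega
    rw [if_neg h2]; simp
  · rw [if_neg h1]; simp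

/-- the reflection relation -/
def Hrel (X : ℕ → ℂ) (a b : ℕ) : Prop := GG X a b = (-1) ^ (a + b) * GG X (8 - b) (8 - a)

theorem Hrel_symm {X : ℕ → ℂ} {a b : ℕ} (h : Hrel X a b) : Hrel X b a := by
  unfold Hrel at *
  rw [GG_conj X a b, h, GG_conj X (8 - b) (8 - a), map_mul, map_pow, map_neg, map_one,
    add_comm b a]

theorem Hrel_refl {X : ℕ → ℂ} {a b : ℕ} (ha : a ≤ 8) (hb : b ≤ 8) (h : Hrel X a b) :
    Hrel X (8 - b) (8 - a) := by
  unfold Hrel at *
  have e1 : 8 - (8 - a) = a := by omega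
  have e2 : 8 - (8 - b) = b := by omega
  rw [e1, e2, h, ← mul_assoc]
  have e3 : ((-1 : ℂ)) ^ (8 - b + (8 - a)) * (-1) ^ (a + b) = 1 := by
    rw [← pow_add, show 8 - b + (8 - a) + (a + b) = 16 by omega]; norm_num
  rw [e3, one_mul]

/-- the list of diagonal pairs -/
def prd : List (ℕ × ℕ) := [(0, 0), (1, 1), (2, 2), (3, 3), (0, 3), (1, 4), (2, 5), (0, 6)]

theorem Hrel_key : ∀ a < 9, ∀ b < 9, a % 3 ≠ b % 3 ∨ a + b = 8 ∨ (a, b) ∈ prd ∨ (b, a) ∈ prd ∨
      (8 - b, 8 - a) ∈ prd ∨ (8 - a, 8 - b) ∈ prd := by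
  intro a ha b hb
  interval_cases a <;> interval_cases b <;> simp [prd]

theorem Hrel_all (x : ℕ → ℝ) (h : ∀ p ∈ prd, Hrel (XX x) p.1 p.2) (a b : ℕ) (ha : a ≤ 8)
    (hb : b ≤ 8) : Hrel (XX x) a b := by
  rcases Hrel_key a (by omega) b (by omega) with h1 | h1 | h1 | h1 | h1 | h1
  · unfold Hrel
    rw [GG_class x a b h1, GG_class x (8 - b) (8 - a) (by omega), mul_zero]
  · unfold Hrel
    have e1 : 8 - b = a := by omega
    have e2 : 8 - a = b := by omega
    have e3 : (-1 : ℂ) ^ (a + b) = 1 := by rw [h1]; norm_num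
    rw [e1, e2, e3, one_mul]
  · exact h (a, b) h1
  · exact Hrel_symm (h (b, a) h1)
  · have h2 : Hrel (XX x) (8 - b) (8 - a) := h (8 - b, 8 - a) h1
    have h3 := Hrel_refl (by omega) (by omega) h2
    have e1 : 8 - (8 - a) = a := by omega
    have e2 : 8 - (8 - b) = b := by omega
    rwa [e1, e2] at h3
  · have h2 : Hrel (XX x) (8 - a) (8 - b) := h (8 - a, 8 - b) h1
    have h3 := Hrel_refl (by omega) (by omega) (Hrel_symm h2)
    have e1 : 8 - (8 - a) = a := by omega
    have e2 : 8 - (8 - b) = b := by omega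
    rwa [e1, e2] at h3

theorem GG_diag_im (X : ℕ → ℂ) (a : ℕ) : (GG X a a).im = 0 := by
  have := congrArg Complex.im (GG_conj X a a)
  rw [Complex.conj_im] at this
  linarith

/-- the second codeword -/
noncomputable def YY (X : ℕ → ℂ) (j : ℕ) : ℂ := (-1) ^ j * conj (X (59 - j))

theorem SS_cross (X : ℕ → ℂ) (a b : ℕ) (hb : b ≤ 8) :
    SS 51 X (YY X) a b = (-1) ^ b * conj (PP X a (8 - b)) := by
  unfold SS YY PP
  rw [map_sum, Finset.mul_sum]
  apply Finset.sum_congr rfl
  intro m hm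
  have hm' : m ≤ 51 := by have := Finset.mem_range.mp hm; omega
  rw [show 59 - (m + b) = 51 - m + (8 - b) by omega]
  simp only [map_mul, Complex.conj_ofReal]
  push_cast
  rw [pow_add]
  ring

theorem SS_diag (X : ℕ → ℂ) (a b : ℕ) (ha : a ≤ 8) (hb : b ≤ 8) :
    SS 51 (YY X) (YY X) a b = (-1) ^ (a + b) * GG X (8 - b) (8 - a) := by
  unfold GG SS YY
  rw [← Finset.sum_range_reflect, Finset.mul_sum]
  apply Finset.sum_congr rfl
  intro m hm
  have hm' : m ≤ 51 := by have := Finset.mem_range.mp hm; omega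
  have e1 : 51 + 1 - 1 - m = 51 - m := by omega
  rw [e1, Nat.choose_symm hm']
  rw [show 59 - (51 - m + a) = m + (8 - a) by omega,
    show 59 - (51 - m + b) = m + (8 - b) by omega]
  simp only [map_mul, map_pow, map_neg, map_one, Complex.conj_conj]
  have e2 : ((-1 : ℂ)) ^ (51 - m + a) * (-1) ^ (51 - m + b) = (-1) ^ (a + b) := by
    rw [← pow_add, show 51 - m + a + (51 - m + b) = 2 * (51 - m) + (a + b) by ring, pow_add,
      pow_mul]
    norm_num
  rw [← e2]
  ring

theorem L0_eq (k : Fin 36) : L0 k = EL.getD k [] := by unfold L0; rw [EL_eq]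

/-- The code. -/
theorem code59 : ∃ c : Fin 2 → Fin (59 + 1) → ℂ, IsCode 59 4 c := by
  obtain ⟨x, hx1, hx2⟩ := exists_solution
  -- nonzero
  have hx0 : x 0 ≠ 0 := by
    have h1 := abs_le.mp (hx1 0)
    have h2 : (2 : ℤ) ^ 150 ≤ nth XL 0 := by decide +kernel
    have h3 : (2 : ℝ) ^ 150 ≤ (nth XL 0 : ℝ) := by exact_mod_cast h2
    have h4 : (1 : ℝ) / 2 ^ 10 ≤ x0 0 := by
      unfold x0
      rw [le_div_iff₀ (by positivity)]
      refine le_trans ?_ h3
      norm_num
    have h5 : (0 : ℝ) < x 0 := by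
      have h6 : (1 : ℝ) / 2 ^ 60 < 1 / 2 ^ 10 := by norm_num
      linarith [h1.1]
    exact h5.ne'
  set r : ℝ := ∑ m ∈ range 60, (Nat.choose 59 m : ℝ) * Complex.normSq (XX x m) with hr
  have hr0 : 0 < r := by
    apply Finset.sum_pos'
    · intro m _; exact mul_nonneg (Nat.cast_nonneg _) (Complex.normSq_nonneg _)
    · refine ⟨0, by simp, ?_⟩
      have : 0 < Complex.normSq (XX x 0) := by
        rw [Complex.normSq_pos]
        intro h
        have := congrArg Complex.re h
        simp [XX] at this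
        exact hx0 this
      simpa using this
  set s : ℝ := (Real.sqrt r)⁻¹ with hs
  have hs2 : s ^ 2 * r = 1 := by
    rw [hs, inv_pow, Real.sq_sqrt hr0.le]
    exact inv_mul_cancel₀ hr0.ne'
  set y : ℕ → ℝ := fun i => s * x i with hy
  have hy2 : ∀ m : Fin 36, qf (L0 m) y = 0 := by
    intro m
    rw [hy, qf_smul, hx2, mul_zero]
  have hXX : ∀ j, XX y j = (s : ℂ) * XX x j := by
    intro j
    unfold XX
    split_ifs
    · apply Complex.ext <;> simp [hy]
    · simp
  -- the equations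
  have E := fun (k : ℕ) (hk : k < 36) => hy2 ⟨k, hk⟩
  simp only [L0_eq] at E
  have hP : ∀ p ∈ prs, PP (XX y) p.1 p.2 = 0 := by
    intro p hp
    simp only [prs, List.mem_cons, List.not_mem_nil, or_false] at hp
    rcases hp with h | h | h | h | h | h | h | h | h | h | h | h <;> subst h
    · exact Complex.ext ((PP_re y _ _ (by norm_num)).trans (E 0 (by norm_num)))
        ((PP_im y _ _ (by norm_num)).trans (E 1 (by norm_num)))
    · exact Complex.ext ((PP_re y _ _ (by norm_num)).trans (E 2 (by norm_num)))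
        ((PP_im y _ _ (by norm_num)).trans (E 3 (by norm_num)))
    · exact Complex.ext ((PP_re y _ _ (by norm_num)).trans (E 4 (by norm_num)))
        ((PP_im y _ _ (by norm_num)).trans (E 5 (by norm_num)))
    · exact Complex.ext ((PP_re y _ _ (by norm_num)).trans (E 6 (by norm_num)))
        ((PP_im y _ _ (by norm_num)).trans (E 7 (by norm_num)))
    · exact Complex.ext ((PP_re y _ _ (by norm_num)).trans (E 8 (by norm_num)))
        ((PP_im y _ _ (by norm_num)).trans (E 9 (by norm_num)))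
    · exact Complex.ext ((PP_re y _ _ (by norm_num)).trans (E 10 (by norm_num)))
        ((PP_im y _ _ (by norm_num)).trans (E 11 (by norm_num)))
    · exact Complex.ext ((PP_re y _ _ (by norm_num)).trans (E 12 (by norm_num)))
        ((PP_im y _ _ (by norm_num)).trans (E 13 (by norm_num)))
    · exact Complex.ext ((PP_re y _ _ (by norm_num)).trans (E 14 (by norm_num)))
        ((PP_im y _ _ (by norm_num)).trans (E 15 (by norm_num)))
    · exact Complex.ext ((PP_re y _ _ (by norm_num)).trans (E 16 (by norm_num)))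
        ((PP_im y _ _ (by norm_num)).trans (E 17 (by norm_num)))
    · exact Complex.ext ((PP_re y _ _ (by norm_num)).trans (E 18 (by norm_num)))
        ((PP_im y _ _ (by norm_num)).trans (E 19 (by norm_num)))
    · exact Complex.ext ((PP_re y _ _ (by norm_num)).trans (E 20 (by norm_num)))
        ((PP_im y _ _ (by norm_num)).trans (E 21 (by norm_num)))
    · exact Complex.ext ((PP_re y _ _ (by norm_num)).trans (E 22 (by norm_num)))
        ((PP_im y _ _ (by norm_num)).trans (E 23 (by norm_num)))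
  have hD : ∀ p ∈ prd, Hrel (XX y) p.1 p.2 := by
    have diag : ∀ a, a ≤ 3 → qf (flat (tGr 1 a a) 52 ++ flat (tGr (-1) (8 - a) (8 - a)) 52) y = 0 →
        Hrel (XX y) a a := by
      intro a _ h
      rw [qf_append, GG_re y 1 a a rfl, GG_re y (-1) (8 - a) (8 - a) rfl] at h
      unfold Hrel
      apply Complex.ext
      · rw [show (-1 : ℂ) ^ (a + a) = 1 by rw [← two_mul, pow_mul]; norm_num, one_mul]
        push_cast at h
        linarith
      · rw [show (-1 : ℂ) ^ (a + a) = 1 by rw [← two_mul, pow_mul]; norm_num, one_mul,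
          GG_diag_im, GG_diag_im]
    have off3 : ∀ a, a ≤ 2 →
        qf (flat (tGr 1 a (a + 3)) 52 ++ flat (tGr 1 (5 - a) (8 - a)) 52) y = 0 →
        qf (flat (tGi 1 a (a + 3)) 52 ++ flat (tGi 1 (5 - a) (8 - a)) 52) y = 0 →
        Hrel (XX y) a (a + 3) := by
      intro a ha h1 h2
      rw [qf_append, GG_re y 1 a (a + 3) (by omega), GG_re y 1 (5 - a) (8 - a) (by omega)] at h1
      rw [qf_append, GG_im y 1 a (a + 3) (by omega), GG_im y 1 (5 - a) (8 - a) (by omega)] at h2
      unfold Hrel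
      rw [show 8 - (a + 3) = 5 - a by omega,
        show (-1 : ℂ) ^ (a + (a + 3)) = -1 by
          rw [show a + (a + 3) = 2 * a + 3 by ring, pow_add, pow_mul]; norm_num]
      apply Complex.ext
      · rw [neg_one_mul, Complex.neg_re]
        push_cast at h1
        linarith
      · rw [neg_one_mul, Complex.neg_im]
        push_cast at h2
        linarith
    intro p hp
    simp only [prd, List.mem_cons, List.not_mem_nil, or_false] at hp
    rcases hp with h | h | h | h | h | h | h | h <;> subst h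
    · exact diag 0 (by norm_num) (E 24 (by norm_num))
    · exact diag 1 (by norm_num) (E 25 (by norm_num))
    · exact diag 2 (by norm_num) (E 26 (by norm_num))
    · exact diag 3 (by norm_num) (E 27 (by norm_num))
    · exact off3 0 (by norm_num) (E 28 (by norm_num)) (E 29 (by norm_num))
    · exact off3 1 (by norm_num) (E 30 (by norm_num)) (E 31 (by norm_num))
    · exact off3 2 (by norm_num) (E 32 (by norm_num)) (E 33 (by norm_num))
    · have h1 : qf (flat (tGr 1 0 6) 52 ++ flat (tGr (-1) 2 8) 52) y = 0 := E 34 (by norm_num)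
      have h2 : qf (flat (tGi 1 0 6) 52 ++ flat (tGi (-1) 2 8) 52) y = 0 := E 35 (by norm_num)
      rw [qf_append, GG_re y 1 0 6 (by norm_num), GG_re y (-1) 2 8 (by norm_num)] at h1
      rw [qf_append, GG_im y 1 0 6 (by norm_num), GG_im y (-1) 2 8 (by norm_num)] at h2
      unfold Hrel
      norm_num
      apply Complex.ext
      · push_cast at h1; linarith
      · push_cast at h2; linarith
  refine ⟨_, isCode_of (n := 59) (t := 4) (by norm_num) (XX y) (YY (XX y)) ?_ ?_ ?_⟩
  · intro a b ha hb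
    norm_num at ha hb ⊢
    rw [SS_cross _ _ _ hb, PP_all y hP a (8 - b) ha (by omega), map_zero, mul_zero]
  · intro a b ha hb
    norm_num at ha hb ⊢
    rw [SS_diag _ _ _ ha hb]
    exact Hrel_all y hD a b ha hb
  · have e1 : ∀ m, (conj (XX y m) * XX y m) = ((s ^ 2 * Complex.normSq (XX x m) : ℝ) : ℂ) := by
      intro m
      rw [mul_comm, Complex.mul_conj, hXX, Complex.normSq_mul, Complex.normSq_ofReal]
      push_cast; ring
    have e2 : ∑ m ∈ range (59 + 1), ((Nat.choose 59 m : ℕ) : ℂ) * (conj (XX y m) * XX y m) =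
        ((s ^ 2 * r : ℝ) : ℂ) := by
      rw [hr, Finset.mul_sum]
      push_cast
      apply Finset.sum_congr rfl
      intro m _
      rw [e1]
      push_cast
      ring
    rw [e2, hs2]
    norm_num

theorem nmin_le : nmin 4 ≤ 59 := Nat.sInf_le code59

theorem not_conj : ¬ ∀ t : ℕ, 1 ≤ t → nmin t = 3 * t ^ 2 + 3 * t + 1 := by
  intro h
  have h1 := h 4 (by norm_num)
  have h2 := nmin_le
  rw [h1] at h2
  norm_num at h2

end Pool.Agent.X188.PI
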