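import Pool.Agent.X188.SCR

/-! Windows along the orbits of automorphisms. -/

set_option autoImplicit false
set_option linter.unusedSectionVars false
set_option linter.deprecated false

open Finset Filter Topology

namespace Pool.Agent.X188.SC

universe u

section

variable {B : Type u} [CStarAlgebra B]

/-- the window sums -/
noncomputable def win (f : ℕ → ℂ) (α : B ≃⋆ₐ[ℂ] B) (x : B) (n L : ℕ) : B :=
  ∑ i ∈ range L, f (n + i) • (α ^ i) x

/-- the mean of the window sums with respect to `d` is at most `c` -/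
def ML (d : B → ℝ) (f : ℕ → ℂ) (α : B ≃⋆ₐ[ℂ] B) (x : B) (c : ℝ) : Prop :=
  ∀ ε : ℝ, 0 < ε → ∃ L : ℕ, 0 < L ∧ ∃ N₀ : ℕ, ∀ N ≥ N₀,
    ∑ n ∈ range N, d (win f α x n L) ≤ (c + ε) * L * N

theorem norm_al (α : B ≃⋆ₐ[ℂ] B) (x : B) : ‖α x‖ = ‖x‖ := StarAlgEquiv.norm_map α x

theorem win_norm {f : ℕ → ℂ} (hf : ∀ n, ‖f n‖ ≤ 1) (α : B ≃⋆ₐ[ℂ] B) (x : B) (n L : ℕ) :
    ‖win f α x n L‖ ≤ L * ‖x‖ := by
  unfold win
  refine (norm_sum_le _ _).trans ?_
  calc ∑ i ∈ range L, ‖f (n + i) • (α ^ i) x‖ ≤ ∑ i ∈ range L, ‖x‖ := by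
        refine sum_le_sum fun i _ => ?_
        rw [norm_smul, norm_al]
        exact mul_le_of_le_one_left (norm_nonneg _) (hf _)
    _ = L * ‖x‖ := by simp

theorem win_split {f : ℕ → ℂ} (hf : ∀ n, ‖f n‖ ≤ 1) (α : B ≃⋆ₐ[ℂ] B) (x : B) (n L M : ℕ) :
    ‖∑ i ∈ range M, (α ^ i) (win f α x (n + i) L) - (L : ℂ) • win f α x n M‖ ≤
      2 * L ^ 2 * ‖x‖ := by
  set g : ℕ → B := fun j => f (n + j) • (α ^ j) x with hg
  have hgn : ∀ j, ‖g j‖ ≤ ‖x‖ := by
    intro j
    rw [hg]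
    simp only
    rw [norm_smul, norm_al]
    exact mul_le_of_le_one_left (norm_nonneg _) (hf _)
  have e1 : ∑ i ∈ range M, (α ^ i) (win f α x (n + i) L) =
      ∑ l ∈ range L, ∑ i ∈ range M, g (l + i) := by
    rw [sum_comm]
    refine sum_congr rfl fun i _ => ?_
    unfold win
    rw [map_sum]
    refine sum_congr rfl fun l _ => ?_
    rw [map_smul, hg]
    simp only
    have e2 : n + i + l = n + (l + i) := by ring
    rw [e2, add_comm l i, pow_add]
    rfl
  have e2 : (L : ℂ) • win f α x n M = ∑ l ∈ range L, ∑ i ∈ range M, g i := by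
    rw [sum_const, card_range, ← Nat.cast_smul_eq_nsmul ℂ]
    rfl
  rw [e1, e2, ← sum_sub_distrib]
  have h1 : ∀ l ∈ range L, ‖∑ i ∈ range M, g (l + i) - ∑ i ∈ range M, g i‖ ≤ 2 * L * ‖x‖ := by
    intro l hl
    have h2 := sum_range_add g l M
    have h3 := sum_range_add g M l
    rw [add_comm M l] at h3
    have h4 : ∑ i ∈ range M, g (l + i) - ∑ i ∈ range M, g i =
        ∑ i ∈ range l, g (M + i) - ∑ i ∈ range l, g i := by
      have h5 : ∑ i ∈ range M, g (l + i) = ∑ i ∈ range (l + M), g i - ∑ i ∈ range l, g i := by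
        rw [h2]; abel
      rw [h5, h3]
      abel
    rw [h4]
    have h6 : ∀ (k : ℕ → ℕ), ‖∑ i ∈ range l, g (k i)‖ ≤ L * ‖x‖ := by
      intro k
      refine (norm_sum_le _ _).trans ?_
      calc ∑ i ∈ range l, ‖g (k i)‖ ≤ ∑ i ∈ range l, ‖x‖ := sum_le_sum fun i _ => hgn _
        _ = l * ‖x‖ := by simp
        _ ≤ L * ‖x‖ := by
            gcongr
            exact_mod_cast (mem_range.1 hl).le
    refine (norm_sub_le _ _).trans ?_
    have h7 := h6 (fun i => M + i)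
    have h8 := h6 (fun i => i)
    linarith
  refine (norm_sum_le _ _).trans ((sum_le_sum h1).trans (le_of_eq ?_))
  rw [sum_const, card_range, nsmul_eq_mul]
  ring

/-- the decomposition of the windows -/
theorem win_dec {f : ℕ → ℂ} (hf : ∀ n, ‖f n‖ ≤ 1) (α : B ≃⋆ₐ[ℂ] B) (x : B) (L : ℕ)
    (M : Submodule ℂ B) (ε : ℝ) (hε : 0 < ε) :
    ∃ (K : Finset B) (Z κ : ℕ → B), (∀ y ∈ K, y ∈ M) ∧ ∀ n, win f α x n L = Z n + κ n ∧
      κ n ∈ K ∧ ‖Z n‖ ≤ Metric.infDist (win f α x n L) (M : Set B) + ε := by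
  classical
  have hne : (M : Set B).Nonempty := ⟨0, M.zero_mem⟩
  set C : Set B := (fun c : Fin L → ℂ => ∑ i, c i • (α ^ (i : ℕ)) x) ''
    (Set.pi Set.univ fun _ => Metric.closedBall (0 : ℂ) 1) with hC
  have hCc : IsCompact C := by
    refine (isCompact_univ_pi fun _ => isCompact_closedBall _ _).image ?_
    fun_prop
  obtain ⟨t, htC, htf, htc⟩ := hCc.finite_cover_balls (show (0 : ℝ) < ε / 3 by positivity)
  have hk : ∀ y : B, ∃ k ∈ M, ‖y - k‖ ≤ Metric.infDist y (M : Set B) + ε / 3 := by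
    intro y
    obtain ⟨k, hk, h1⟩ := (Metric.infDist_lt_iff (s := (M : Set B)) (x := y) hne).1
      (show Metric.infDist y (M : Set B) < Metric.infDist y (M : Set B) + ε / 3 by linarith)
    exact ⟨k, hk, by rw [← dist_eq_norm]; exact h1.le⟩
  choose kf hkM hkn using hk
  have hn : ∀ n, ∃ y ∈ t, ‖win f α x n L - y‖ < ε / 3 := by
    intro n
    have h1 : win f α x n L ∈ C := by
      refine ⟨fun i => f (n + i), ?_, ?_⟩
      · intro i _
        rw [Metric.mem_closedBall, dist_zero_right]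
        exact hf _
      · unfold win
        exact (Finset.sum_range (fun i => f (n + i) • (α ^ i) x)).symm
    obtain ⟨y, hy, h2⟩ := Set.mem_iUnion₂.1 (htc h1)
    exact ⟨y, hy, by rwa [Metric.mem_ball, dist_eq_norm] at h2⟩
  choose yf hyt hyn using hn
  refine ⟨htf.toFinset.image kf, fun n => win f α x n L - kf (yf n), fun n => kf (yf n), ?_, ?_⟩
  · intro y hy
    rw [mem_image] at hy
    obtain ⟨z, _, rfl⟩ := hy
    exact hkM z
  · intro n
    refine ⟨(sub_add_cancel _ _).symm, mem_image_of_mem kf (by simpa using hyt n), ?_⟩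
    show ‖win f α x n L - kf (yf n)‖ ≤ _
    have h1 : win f α x n L - kf (yf n) = (win f α x n L - yf n) + (yf n - kf (yf n)) := by abel
    rw [h1]
    refine (norm_add_le _ _).trans ?_
    have h2 := hkn (yf n)
    have h3 := (hyn n).le
    have h4 : Metric.infDist (yf n) (M : Set B) ≤ Metric.infDist (win f α x n L) (M : Set B) + ε / 3 := by
      refine (Metric.infDist_le_infDist_add_dist (x := yf n) (y := win f α x n L)).trans ?_
      rw [dist_comm, dist_eq_norm]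
      linarith
    linarith

/-- the final summation -/
theorem ML_of {d : B → ℝ} (hd0 : ∀ y, 0 ≤ d y) {f : ℕ → ℂ} (α : B ≃⋆ₐ[ℂ] B) (x : B)
    (c : ℝ) (hc : 0 ≤ c) (h : ML d f α x c)
    (key : ∀ (L : ℕ), 0 < L → ∀ ε : ℝ, 0 < ε → ∃ (m : ℕ) (P₀ : ℕ) (F : ℕ → ℕ → ℝ), 0 < m ∧ Neg F ∧
      ∀ P ≥ P₀, ∀ n, ‖win f α x n (m * P)‖ ≤
        1 / L * ∑ i ∈ range (m * P), (d (win f α x (n + i) L) + ε) + ε * (m * P : ℕ) + F P n) :
    ML (fun y => ‖y‖) f α x c := by
  intro ε hε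
  obtain ⟨L, hL0, N₀, hN⟩ := h (ε / 8) (by positivity)
  obtain ⟨m, P₀, F, hm, hF, hP⟩ := key L hL0 (ε / 8) (by positivity)
  obtain ⟨P₁, hP1⟩ := hF (ε / 8) (by positivity)
  set P := max (max P₀ P₁) 1 with hPdef
  have hPP0 : P₀ ≤ P := le_trans (le_max_left _ _) (le_max_left _ _)
  have hPP1 : P₁ ≤ P := le_trans (le_max_right _ _) (le_max_left _ _)
  have hPone : 1 ≤ P := le_max_right _ _
  obtain ⟨N₁, hN1⟩ := hP1 P hPP1
  set M := m * P with hM
  have hM0 : 0 < M := Nat.mul_pos hm hPone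
  obtain ⟨N₂, hN2⟩ := exists_nat_ge ((c + 1) * M / (ε / 8))
  refine ⟨M, hM0, max (max N₀ N₁) (max N₂ M), fun N hNN => ?_⟩
  have g0 : N₀ ≤ N := le_trans (le_trans (le_max_left _ _) (le_max_left _ _)) hNN
  have g1 : N₁ ≤ N := le_trans (le_trans (le_max_right _ _) (le_max_left _ _)) hNN
  have g2 : N₂ ≤ N := le_trans (le_trans (le_max_left _ _) (le_max_right _ _)) hNN
  have g3 : M ≤ N := le_trans (le_trans (le_max_right _ _) (le_max_right _ _)) hNN
  have hLr : (0 : ℝ) < L := by exact_mod_cast hL0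
  have hMr : (0 : ℝ) < M := by exact_mod_cast hM0
  have s1 : ∑ n ∈ range N, ‖win f α x n M‖ ≤ ∑ n ∈ range N,
      (1 / L * ∑ i ∈ range M, (d (win f α x (n + i) L) + ε / 8) + ε / 8 * (M : ℕ) + F P n) :=
    sum_le_sum fun n _ => hP P hPP0 n
  refine s1.trans ?_
  rw [sum_add_distrib, sum_add_distrib, ← mul_sum]
  have s2 : ∑ n ∈ range N, ∑ i ∈ range M, (d (win f α x (n + i) L) + ε / 8) ≤
      M * ((c + ε / 8) * L * ((N : ℝ) + M)) + M * (N * (ε / 8)) := by
    rw [sum_comm]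
    have s3 : ∀ i ∈ range M, ∑ n ∈ range N, (d (win f α x (n + i) L) + ε / 8) ≤
        (c + ε / 8) * L * ((N : ℝ) + M) + N * (ε / 8) := by
      intro i hi
      rw [sum_add_distrib, sum_const, card_range, nsmul_eq_mul]
      have s4 : ∑ n ∈ range N, d (win f α x (n + i) L) ≤ (c + ε / 8) * L * ((N : ℝ) + M) := by
        have s5 := hN (i + N) (by omega)
        rw [sum_range_add (fun n => d (win f α x n L)) i N] at s5
        have s6 : 0 ≤ ∑ n ∈ range i, d (win f α x n L) := sum_nonneg fun _ _ => hd0 _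
        have s7 : ∑ n ∈ range N, d (win f α x (n + i) L) = ∑ n ∈ range N, d (win f α x (i + n) L) :=
          sum_congr rfl fun n _ => by rw [add_comm n i]
        rw [s7]
        have s8 : (i : ℝ) ≤ M := by exact_mod_cast (mem_range.1 hi).le
        have s9 : (c + ε / 8) * L * ((i + N : ℕ) : ℝ) ≤ (c + ε / 8) * L * ((N : ℝ) + M) := by
          push_cast
          exact mul_le_mul_of_nonneg_left (by linarith) (by positivity)
        linarith
      linarith
    refine (sum_le_sum s3).trans (le_of_eq ?_)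
    rw [sum_const, card_range, nsmul_eq_mul]
    ring
  have s10 : 1 / (L : ℝ) * ∑ n ∈ range N, ∑ i ∈ range M, (d (win f α x (n + i) L) + ε / 8) ≤
      M * ((c + ε / 8) * ((N : ℝ) + M)) + M * (N * (ε / 8)) := by
    calc 1 / (L : ℝ) * ∑ n ∈ range N, ∑ i ∈ range M, (d (win f α x (n + i) L) + ε / 8)
        ≤ 1 / (L : ℝ) * (M * ((c + ε / 8) * L * ((N : ℝ) + M)) + M * (N * (ε / 8))) := by gcongr
      _ = M * ((c + ε / 8) * ((N : ℝ) + M)) + 1 / (L : ℝ) * (M * (N * (ε / 8))) := by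
          field_simp
      _ ≤ M * ((c + ε / 8) * ((N : ℝ) + M)) + 1 * (M * (N * (ε / 8))) := by
          gcongr
          rw [div_le_one hLr]
          exact_mod_cast hL0
      _ = _ := by ring
  have s11 : ∑ n ∈ range N, F P n ≤ ε / 8 * P * N := hN1 N g1
  have s12 : ε / 8 * P * N ≤ ε / 8 * M * N := by
    gcongr
    exact Nat.le_mul_of_pos_left P hm
  have s13 : (c + 1) * M ≤ ε / 8 * N := by
    rw [div_le_iff₀ (by positivity)] at hN2
    have : (N₂ : ℝ) ≤ N := by exact_mod_cast g2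
    nlinarith
  have s14 : (M : ℝ) ≤ N := by exact_mod_cast g3
  rw [sum_const, card_range, nsmul_eq_mul]
  have s15 : (M : ℝ) * ((c + ε / 8) * ((N : ℝ) + M)) ≤ (c + 3 * (ε / 8)) * M * N := by
    have a1 : c * M ≤ ε / 8 * N := by nlinarith
    have a2 : (c + ε / 8) * ((N : ℝ) + M) ≤ (c + 3 * (ε / 8)) * N := by
      have a3 : ε / 8 * M ≤ ε / 8 * N := by gcongr
      nlinarith
    calc (M : ℝ) * ((c + ε / 8) * ((N : ℝ) + M)) ≤ M * ((c + 3 * (ε / 8)) * N) := by gcongr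
      _ = _ := by ring
  have s16 : 0 ≤ (M : ℝ) * N := by positivity
  nlinarith

end

end Pool.Agent.X188.SC
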