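import Pool.Agent.X188.SCE

/-! Sequences with small exponential sums in short intervals, against orbits of unitaries. -/

set_option autoImplicit false
set_option linter.unusedSectionVars false
set_option linter.deprecated false

open Finset Filter Topology

namespace Pool.Agent.X188.SC

open Pool.Agent.Helper188.NCM Pool.Agent.X188.BT
open Pool.Agent.H398R3.NCM (ee_add ee_zero star_ee E_sum ee_int)

/-- the sequence is bounded by one and its exponential sums over short intervals are small on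
average, uniformly in the frequency -/
structure ShortUniform (f : ℕ → ℂ) : Prop where
  bdd : ∀ n, ‖f n‖ ≤ 1
  small : ∀ ε : ℝ, 0 < ε → ∃ L₀ : ℕ, ∀ L ≥ L₀, ∃ N₀ : ℕ, ∀ N ≥ N₀, ∀ β : ℝ,
    ∑ n ∈ range N, ‖∑ i ∈ range L, f (n + i) * ee (β * i)‖ ≤ ε * L * N

/-- negligible in the mean -/
def Neg (F : ℕ → ℕ → ℝ) : Prop := ∀ ε : ℝ, 0 < ε → ∃ L₀ : ℕ, ∀ L ≥ L₀, ∃ N₀ : ℕ, ∀ N ≥ N₀,
  ∑ n ∈ range N, F L n ≤ ε * L * N

theorem Neg.mono {F G : ℕ → ℕ → ℝ} (h : Neg F) (hle : ∀ L n, G L n ≤ F L n) : Neg G := by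
  intro ε hε
  obtain ⟨L₀, h⟩ := h ε hε
  refine ⟨L₀, fun L hL => ?_⟩
  obtain ⟨N₀, h⟩ := h L hL
  exact ⟨N₀, fun N hN => (sum_le_sum fun n _ => hle L n).trans (h N hN)⟩

theorem Neg.add {F G : ℕ → ℕ → ℝ} (h : Neg F) (h' : Neg G) : Neg fun L n => F L n + G L n := by
  intro ε hε
  obtain ⟨L₀, h⟩ := h (ε / 2) (half_pos hε)
  obtain ⟨L₁, h'⟩ := h' (ε / 2) (half_pos hε)
  refine ⟨max L₀ L₁, fun L hL => ?_⟩
  obtain ⟨N₀, h⟩ := h L (le_trans (le_max_left _ _) hL)
  obtain ⟨N₁, h'⟩ := h' L (le_trans (le_max_right _ _) hL)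
  refine ⟨max N₀ N₁, fun N hN => ?_⟩
  have h1 := h N (le_trans (le_max_left _ _) hN)
  have h2 := h' N (le_trans (le_max_right _ _) hN)
  rw [sum_add_distrib]
  linarith

theorem Neg.const_mul {F : ℕ → ℕ → ℝ} (h : Neg F) (C : ℝ) (hC : 0 ≤ C) :
    Neg fun L n => C * F L n := by
  intro ε hε
  obtain ⟨L₀, h⟩ := h (ε / (C + 1)) (by positivity)
  refine ⟨L₀, fun L hL => ?_⟩
  obtain ⟨N₀, h⟩ := h L hL
  refine ⟨N₀, fun N hN => ?_⟩
  rw [← mul_sum]
  calc C * ∑ n ∈ range N, F L n ≤ C * (ε / (C + 1) * L * N) :=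
        mul_le_mul_of_nonneg_left (h N hN) hC
    _ = (C / (C + 1)) * (ε * L * N) := by ring
    _ ≤ 1 * (ε * L * N) := by
        gcongr
        rw [div_le_one (by positivity)]
        linarith
    _ = ε * L * N := one_mul _

theorem Neg.zero : Neg fun _ _ => 0 := by
  intro ε hε
  refine ⟨0, fun L _ => ⟨0, fun N _ => ?_⟩⟩
  simp only [sum_const_zero]
  positivity

theorem Neg.sum {ι : Type*} (s : Finset ι) {F : ι → ℕ → ℕ → ℝ} (h : ∀ i ∈ s, Neg (F i)) :
    Neg fun L n => ∑ i ∈ s, F i L n := by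
  classical
  induction s using Finset.induction_on with
  | empty => simpa using Neg.zero
  | insert a s ha ih =>
    have h1 := (h a (mem_insert_self a s)).add (ih fun i hi => h i (mem_insert_of_mem hi))
    refine h1.mono fun L n => ?_
    rw [sum_insert ha]

theorem ShortUniform.conj {f : ℕ → ℂ} (hf : ShortUniform f) : ShortUniform fun n => star (f n) := by
  refine ⟨fun n => by rw [norm_star]; exact hf.bdd n, fun ε hε => ?_⟩
  obtain ⟨L₀, h⟩ := hf.small ε hε
  refine ⟨L₀, fun L hL => ?_⟩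
  obtain ⟨N₀, h⟩ := h L hL
  refine ⟨N₀, fun N hN β => ?_⟩
  refine le_trans (le_of_eq ?_) (h N hN (-β))
  refine sum_congr rfl fun n _ => ?_
  rw [← norm_star, star_sum]
  congr 1
  refine sum_congr rfl fun i _ => ?_
  rw [star_mul', star_star, star_ee]
  congr 2
  ring

/-- sums along progressions -/
theorem prog (F : ℕ → ℂ) (m L : ℕ) (hm : 0 < m) (β : ℝ) :
    (m : ℂ) * ∑ l ∈ range L, F (m * l) * ee (β * l) =
      ∑ t ∈ range m, ∑ i ∈ range (m * L), F i * ee (((β + t) / m) * i) := by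
  have hm0 : (m : ℝ) ≠ 0 := by positivity
  rw [sum_comm]
  have h1 : ∀ i ∈ range (m * L), ∑ t ∈ range m, F i * ee (((β + t) / m) * i) =
      if m ∣ i then (m : ℂ) * (F i * ee (β / m * i)) else 0 := by
    intro i _
    have e1 : ∀ t ∈ range m, F i * ee (((β + t) / m) * i) =
        F i * ee (β / m * i) * ee ((t : ℝ) / m * ((i % m : ℕ) : ℤ)) := by
      intro t _
      rw [mul_assoc, ← ee_add]
      congr 1
      have e2 : (β + t) / m * i = β / m * i + (t : ℝ) / m * ((i % m : ℕ) : ℤ) +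
          ((t * (i / m) : ℕ) : ℤ) := by
        have h3 : (i : ℝ) = ((i % m : ℕ) : ℝ) + m * ((i / m : ℕ) : ℝ) := by
          exact_mod_cast (Nat.mod_add_div i m).symm
        conv_lhs => rw [add_div, add_mul]
        rw [add_assoc]
        congr 1
        conv_lhs => rw [h3]
        generalize i % m = r
        generalize i / m = q
        push_cast
        field_simp
      rw [e2, ee_add, ee_int, mul_one]
    rw [sum_congr rfl e1, ← mul_sum, E_sum m hm _ (by
      rw [Nat.abs_cast]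
      exact_mod_cast Nat.mod_lt i hm)]
    by_cases h : m ∣ i
    · rw [if_pos h, if_pos (by exact_mod_cast Nat.mod_eq_zero_of_dvd h)]
      ring
    · rw [if_neg h, if_neg (by
        intro h0
        apply h
        exact Nat.dvd_of_mod_eq_zero (by exact_mod_cast h0)), mul_zero]
  rw [sum_congr rfl h1, ← sum_filter, mul_sum]
  symm
  refine sum_nbij' (fun i => i / m) (fun l => m * l) ?_ ?_ ?_ ?_ ?_
  · intro i hi
    rw [mem_filter, mem_range] at hi
    rw [mem_range]
    exact Nat.div_lt_of_lt_mul hi.1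
  · intro l hl
    rw [mem_range] at hl
    rw [mem_filter, mem_range]
    exact ⟨Nat.mul_lt_mul_of_pos_left hl hm, Dvd.intro l rfl⟩
  · intro i hi
    rw [mem_filter] at hi
    exact Nat.mul_div_cancel' hi.2
  · intro l _
    exact Nat.mul_div_cancel_left l hm
  · intro i hi
    rw [mem_filter] at hi
    obtain ⟨l, rfl⟩ := hi.2
    rw [Nat.mul_div_cancel_left l hm]
    congr 2
    congr 1
    push_cast
    field_simp

/-- short sums along progressions -/
theorem ShortUniform.prog {f : ℕ → ℂ} (hf : ShortUniform f) (m : ℕ) (hm : 0 < m) (s : ℕ) (ε : ℝ)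
    (hε : 0 < ε) : ∃ L₀ : ℕ, ∀ L ≥ L₀, ∃ N₀ : ℕ, ∀ N ≥ N₀, ∀ β : ℝ,
      ∑ n ∈ range N, ‖∑ l ∈ range L, f (n + s + m * l) * ee (β * l)‖ ≤ ε * L * N := by
  have hmr : (0 : ℝ) < m := by exact_mod_cast hm
  obtain ⟨L₀, h⟩ := hf.small (ε / (2 * m)) (by positivity)
  refine ⟨L₀, fun L hL => ?_⟩
  obtain ⟨N₀, h⟩ := h (m * L) (le_trans hL (Nat.le_mul_of_pos_left L hm))
  refine ⟨max N₀ s, fun N hN β => ?_⟩
  have hN0 : N₀ ≤ N := le_trans (le_max_left _ _) hN
  have hNs : s ≤ N := le_trans (le_max_right _ _) hN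
  have h1 : ∀ n, (m : ℝ) * ‖∑ l ∈ range L, f (n + s + m * l) * ee (β * l)‖ ≤
      ∑ t ∈ range m, ‖∑ i ∈ range (m * L), f (n + s + i) * ee (((β + t) / m) * i)‖ := by
    intro n
    have := SC.prog (fun i => f (n + s + i)) m L hm β
    have h2 : (m : ℝ) * ‖∑ l ∈ range L, f (n + s + m * l) * ee (β * l)‖ =
        ‖(m : ℂ) * ∑ l ∈ range L, f (n + s + m * l) * ee (β * l)‖ := by
      rw [norm_mul, Complex.norm_natCast]
    rw [h2, this]
    exact norm_sum_le _ _
  have h3 : ∀ t : ℕ, ∑ n ∈ range N, ‖∑ i ∈ range (m * L), f (n + s + i) * ee (((β + t) / m) * i)‖ ≤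
      ε / (2 * m) * (m * L : ℕ) * ((s + N : ℕ) : ℝ) := by
    intro t
    have h4 := h (s + N) (by omega) ((β + t) / m)
    refine le_trans ?_ h4
    rw [sum_range_add (fun n => ‖∑ i ∈ range (m * L), f (n + i) * ee (((β + t) / m) * i)‖) s N]
    have h5 : 0 ≤ ∑ n ∈ range s, ‖∑ i ∈ range (m * L), f (n + i) * ee (((β + t) / m) * i)‖ :=
      sum_nonneg fun _ _ => norm_nonneg _
    have h6 : ∑ n ∈ range N, ‖∑ i ∈ range (m * L), f (n + s + i) * ee (((β + t) / m) * i)‖ =
        ∑ n ∈ range N, ‖∑ i ∈ range (m * L), f (s + n + i) * ee (((β + t) / m) * i)‖ :=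
      sum_congr rfl fun n _ => by rw [add_comm n s]
    rw [h6]
    linarith
  have h7 : (m : ℝ) * ∑ n ∈ range N, ‖∑ l ∈ range L, f (n + s + m * l) * ee (β * l)‖ ≤
      m * (ε / (2 * m) * (m * L : ℕ) * ((s + N : ℕ) : ℝ)) := by
    rw [mul_sum]
    refine (sum_le_sum fun n _ => h1 n).trans ?_
    rw [sum_comm]
    refine (sum_le_sum fun t _ => h3 t).trans (le_of_eq ?_)
    rw [sum_const, card_range, nsmul_eq_mul]
  have h8 := le_of_mul_le_mul_left h7 hmr
  refine h8.trans ?_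
  have h9 : ((s + N : ℕ) : ℝ) ≤ 2 * N := by
    have : (s : ℝ) ≤ N := by exact_mod_cast hNs
    push_cast
    linarith
  calc ε / (2 * m) * (m * L : ℕ) * ((s + N : ℕ) : ℝ) ≤ ε / (2 * m) * (m * L : ℕ) * (2 * N) := by
        gcongr
    _ = ε * L * N := by
        push_cast
        field_simp

section

variable {H : Type*} [NormedAddCommGroup H] [InnerProductSpace ℂ H] [CompleteSpace H]

theorem vec_neg {f : ℕ → ℂ} (hf : ShortUniform f) (U : unitary (H →L[ℂ] H)) (ζ : H) (γ : ℝ)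
    (m : ℕ) (hm : 0 < m) (s : ℕ) :
    Neg fun L n => ‖∑ l ∈ range L, (f (n + s + m * l) * ee (γ * l)) • BT.pw U l ζ‖ := by
  intro ε hε
  obtain ⟨L₀, h⟩ := hf.prog m hm s (ε ^ 2 / (‖ζ‖ ^ 2 + 1)) (by positivity)
  refine ⟨L₀, fun L hL => ?_⟩
  obtain ⟨N₀, h⟩ := h L hL
  refine ⟨N₀, fun N hN => ?_⟩
  set δ := ε ^ 2 / (‖ζ‖ ^ 2 + 1) with hδ
  let g : ℤ → ℂ := fun j => inner ℂ ζ (BT.pw U j ζ)
  have hgv : ∀ m n : ℤ, inner ℂ (BT.pw U m ζ) (BT.pw U n ζ) = g (n - m) := fun m n => inner_pw U m n ζ ζ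
  have hg : PosDef g := posDef_of hgv
  have h1 := pd_family g hg (range N) L (fun n l => f (n + s + m * l) * ee (γ * l))
    (L * (δ * L * N)) (fun β => by
      have hb : ∀ n ∈ range N, ‖∑ l ∈ range L, f (n + s + m * l) * ee (γ * l) * ee (β * l)‖ ^ 2 ≤
          L * ‖∑ l ∈ range L, f (n + s + m * l) * ee ((γ + β) * l)‖ := by
        intro n _
        have e1 : ∑ l ∈ range L, f (n + s + m * l) * ee (γ * l) * ee (β * l) =
            ∑ l ∈ range L, f (n + s + m * l) * ee ((γ + β) * l) := by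
          refine sum_congr rfl fun l _ => ?_
          rw [mul_assoc, ← ee_add, add_mul]
        rw [e1, sq]
        have e2 : ‖∑ l ∈ range L, f (n + s + m * l) * ee ((γ + β) * l)‖ ≤ L := by
          refine (norm_sum_le _ _).trans ?_
          calc ∑ l ∈ range L, ‖f (n + s + m * l) * ee ((γ + β) * l)‖ ≤ ∑ l ∈ range L, (1 : ℝ) := by
                refine sum_le_sum fun l _ => ?_
                rw [norm_mul, norm_ee, mul_one]
                exact hf.bdd _
            _ = L := by simp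
        exact mul_le_mul_of_nonneg_right e2 (norm_nonneg _)
      refine (sum_le_sum hb).trans ?_
      rw [← mul_sum]
      exact mul_le_mul_of_nonneg_left (h N hN (γ + β)) (Nat.cast_nonneg _))
  have h2 : ∑ n ∈ range N, ‖∑ l ∈ range L, (f (n + s + m * l) * ee (γ * l)) • BT.pw U l ζ‖ ^ 2 ≤
      L * (δ * L * N) * ‖ζ‖ ^ 2 := by
    have e1 : (g 0).re = ‖ζ‖ ^ 2 := by
      simp only [g]
      rw [pw_zero, ContinuousLinearMap.one_apply, inner_self_eq_norm_sq_to_K]
      have e : (((‖ζ‖ : ℝ) : ℂ) ^ 2).re = ‖ζ‖ ^ 2 := by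
        rw [← Complex.ofReal_pow, Complex.ofReal_re]
      exact e
    rw [e1] at h1
    refine le_trans (le_of_eq ?_) h1
    refine sum_congr rfl fun n _ => ?_
    rw [TT_eq hgv, Complex.ofReal_re]
  have h3 : (∑ n ∈ range N, ‖∑ l ∈ range L, (f (n + s + m * l) * ee (γ * l)) • BT.pw U l ζ‖) ^ 2 ≤
      (ε * L * N) ^ 2 := by
    refine (sq_sum_le_card_mul_sum_sq).trans ?_
    rw [card_range]
    calc (N : ℝ) * ∑ n ∈ range N, ‖∑ l ∈ range L, (f (n + s + m * l) * ee (γ * l)) • BT.pw U l ζ‖ ^ 2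
        ≤ N * (L * (δ * L * N) * ‖ζ‖ ^ 2) := by gcongr
      _ = (δ * ‖ζ‖ ^ 2) * (L * N) ^ 2 := by ring
      _ ≤ ε ^ 2 * (L * N) ^ 2 := by
          have h4 : δ * ‖ζ‖ ^ 2 ≤ ε ^ 2 := by
            rw [hδ, div_mul_eq_mul_div, div_le_iff₀ (by positivity)]
            nlinarith [sq_nonneg ε, sq_nonneg ‖ζ‖]
          gcongr
      _ = (ε * L * N) ^ 2 := by ring
  exact le_of_sq_le_sq h3 (by positivity)

/-- the part in the span of finitely many eigenvectors is negligible -/
theorem pp_neg {f : ℕ → ℂ} (hf : ShortUniform f) (U : unitary (H →L[ℂ] H)) (Y : H →L[ℂ] H)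
    (m : ℕ) (hm : 0 < m) (s : ℕ) (S : Finset H) (hS : ∀ e ∈ S, Eig U e) :
    Neg fun L n => ‖pp S * ∑ l ∈ range L, f (n + s + m * l) •
      (BT.pw U l * Y * BT.pw U (-(l : ℤ)))‖ := by
  classical
  have hfd : FiniteDimensional ℂ (Submodule.span ℂ (S : Set H)) := inferInstance
  let b := stdOrthonormalBasis ℂ (Submodule.span ℂ (S : Set H))
  -- the adjoints on the vectors of the span
  have h1 : ∀ w ∈ Submodule.span ℂ (S : Set H), Neg fun L n =>
      ‖(∑ l ∈ range L, star (f (n + s + m * l)) •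
        (BT.pw U l * star Y * BT.pw U (-(l : ℤ)))) w‖ := by
    intro w hw
    induction hw using Submodule.span_induction with
    | mem e he =>
      obtain ⟨β, hβ⟩ := (hS e (by exact_mod_cast he)).pw
      refine (vec_neg hf.conj U (star Y e) (-β) m hm s).mono fun L n => le_of_eq ?_
      congr 1
      rw [ContinuousLinearMap.sum_apply]
      refine sum_congr rfl fun l _ => ?_
      rw [ContinuousLinearMap.smul_apply, ContinuousLinearMap.mul_apply,
        ContinuousLinearMap.mul_apply, hβ, map_smul, map_smul, smul_smul]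
      congr 3
      push_cast
      ring
    | zero => 
      refine Neg.zero.mono fun L n => ?_
      rw [map_zero, norm_zero]
    | add x y _ _ hx hy =>
      refine (hx.add hy).mono fun L n => ?_
      rw [map_add]
      exact norm_add_le _ _
    | smul c x _ hx =>
      refine (hx.const_mul ‖c‖ (norm_nonneg c)).mono fun L n => ?_
      rw [map_smul, norm_smul]
  refine (Neg.sum univ (fun k _ => h1 (b k) (b k).2)).mono fun L n => ?_
  set T := ∑ l ∈ range L, f (n + s + m * l) • (BT.pw U l * Y * BT.pw U (-(l : ℤ))) with hT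
  have hTs : ∑ l ∈ range L, star (f (n + s + m * l)) •
        (BT.pw U l * star Y * BT.pw U (-(l : ℤ))) = star T := by
    rw [hT, star_sum]
    refine sum_congr rfl fun l _ => ?_
    rw [star_smul, star_mul, star_mul, pw_star, pw_star, neg_neg, mul_assoc]
  rw [hTs]
  refine ContinuousLinearMap.opNorm_le_bound _ (sum_nonneg fun _ _ => norm_nonneg _) fun h => ?_
  rw [ContinuousLinearMap.mul_apply]
  have e1 : pp S (T h) = ∑ k, (inner ℂ ((b k : Submodule.span ℂ (S : Set H)) : H) (T h) : ℂ) •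
      ((b k : Submodule.span ℂ (S : Set H)) : H) := by
    have h2 := b.sum_repr' ⟨pp S (T h), pp_mem S (T h)⟩
    have h3 := congrArg (fun z : Submodule.span ℂ (S : Set H) => (z : H)) h2
    simp only [Submodule.coe_sum, Submodule.coe_smul, Submodule.coe_inner] at h3
    rw [← h3]
    refine sum_congr rfl fun k _ => ?_
    congr 1
    have h4 := qq_orth S (T h) (b k) (b k).2
    rw [qq_apply, inner_sub_left, sub_eq_zero] at h4
    rw [← inner_conj_symm, ← h4, inner_conj_symm]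
  rw [e1, sum_mul]
  refine (norm_sum_le _ _).trans (sum_le_sum fun k _ => ?_)
  rw [norm_smul]
  have h5 : ‖((b k : Submodule.span ℂ (S : Set H)) : H)‖ = 1 := b.norm_eq_one k
  rw [h5, mul_one]
  have h6 : (inner ℂ ((b k : Submodule.span ℂ (S : Set H)) : H) (T h) : ℂ) =
      inner ℂ (star T ((b k : Submodule.span ℂ (S : Set H)) : H)) h := by
    rw [ContinuousLinearMap.star_eq_adjoint, ContinuousLinearMap.adjoint_inner_left]
  rw [h6]
  exact norm_inner_le_norm _ _

end

end Pool.Agent.X188.SC
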