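import Mathlib

/-! Quotients of C*-algebras by closed two-sided ideals. -/

set_option autoImplicit false

open Filter Topology

noncomputable section

namespace Pool.Agent.X188.SC

universe u

variable {A : Type u} [CStarAlgebra A]

/-- the cut-off `δ / (t + δ)` of `x x*` -/
def rr (δ : ℝ) (x : A) : A := cfc (fun t : ℝ => δ / (t + δ)) (x * star x)

theorem nonneg_spec (x : A) (t : ℝ) (ht : t ∈ spectrum ℝ (x * star x)) : 0 ≤ t := by
  have h := spectrum_star_mul_self_nonneg (b := star x)
  rw [star_star] at h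
  exact h t ht

theorem cont_aux (δ : ℝ) (hδ : 0 < δ) (x : A) (g : ℝ → ℝ) (hg : Continuous g) :
    ContinuousOn (fun t : ℝ => g t / (t + δ)) (spectrum ℝ (x * star x)) := by
  refine ContinuousOn.div hg.continuousOn (by fun_prop) fun t ht => ?_
  have := nonneg_spec x t ht
  positivity

theorem rr_sa (δ : ℝ) (x : A) : IsSelfAdjoint (rr δ x) := cfc_predicate _ _

theorem rr_norm (δ : ℝ) (hδ : 0 < δ) (x : A) : ‖rr δ x‖ ≤ 1 := by
  refine norm_cfc_le zero_le_one fun t ht => ?_
  have h0 := nonneg_spec x t ht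
  rw [Real.norm_eq_abs, abs_of_nonneg (by positivity), div_le_one (by positivity)]
  linarith

theorem one_sub_rr (δ : ℝ) (hδ : 0 < δ) (x : A) :
    1 - rr δ x = (x * star x) * cfc (fun t : ℝ => 1 / (t + δ)) (x * star x) := by
  have hsa : IsSelfAdjoint (x * star x) := IsSelfAdjoint.mul_star_self x
  have h1 : (x * star x) * cfc (fun t : ℝ => 1 / (t + δ)) (x * star x) =
      cfc (fun t : ℝ => t * (1 / (t + δ))) (x * star x) := by
    rw [cfc_mul (fun t : ℝ => t) (fun t : ℝ => 1 / (t + δ)) (x * star x) (by fun_prop)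
      (cont_aux δ hδ x _ continuous_const), cfc_id' ℝ (x * star x)]
  have h2 : (1 : A) - rr δ x = cfc (fun t : ℝ => 1 - δ / (t + δ)) (x * star x) := by
    rw [cfc_sub (fun _ : ℝ => (1 : ℝ)) (fun t : ℝ => δ / (t + δ)) (x * star x) (by fun_prop)
      (cont_aux δ hδ x _ continuous_const), cfc_const_one ℝ (x * star x)]
    rfl
  rw [h1, h2]
  refine cfc_congr fun t ht => ?_
  have h0 := nonneg_spec x t ht
  have h3 : t + δ ≠ 0 := by positivity
  field_simp
  ring

theorem rr_mul (δ : ℝ) (hδ : 0 < δ) (x : A) : ‖rr δ x * x‖ ^ 2 ≤ δ := by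
  have hsa : IsSelfAdjoint (x * star x) := IsSelfAdjoint.mul_star_self x
  have h1 : ‖rr δ x * x‖ ^ 2 = ‖rr δ x * (x * star x) * rr δ x‖ := by
    rw [sq, ← CStarRing.norm_self_mul_star, star_mul, (rr_sa δ x).star_eq]
    simp only [mul_assoc]
  have h2 : rr δ x * (x * star x) * rr δ x =
      cfc (fun t : ℝ => δ / (t + δ) * t * (δ / (t + δ))) (x * star x) := by
    rw [cfc_mul (fun t : ℝ => δ / (t + δ) * t) (fun t : ℝ => δ / (t + δ)) (x * star x)
      ((cont_aux δ hδ x _ continuous_const).mul (by fun_prop))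
      (cont_aux δ hδ x _ continuous_const),
      cfc_mul (fun t : ℝ => δ / (t + δ)) (fun t : ℝ => t) (x * star x)
      (cont_aux δ hδ x _ continuous_const) (by fun_prop), cfc_id' ℝ (x * star x)]
    rfl
  rw [h1, h2]
  refine norm_cfc_le hδ.le fun t ht => ?_
  have h0 := nonneg_spec x t ht
  have h3 : 0 < t + δ := by positivity
  rw [Real.norm_eq_abs, abs_of_nonneg (by positivity)]
  have h4 : δ / (t + δ) * t * (δ / (t + δ)) = δ * (δ * t / (t + δ) ^ 2) := by
    field_simp
  rw [h4]
  have h5 : δ * t / (t + δ) ^ 2 ≤ 1 := by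
    rw [div_le_one (by positivity)]
    nlinarith
  nlinarith

variable (J : Ideal A) [J.IsTwoSided] [hJ : IsClosed (J : Set A)]

include hJ in
theorem star_mem {x : A} (hx : x ∈ J) : star x ∈ J := by
  have h1 : ∀ δ : ℝ, 0 < δ → star x * (1 - rr δ x) ∈ J := by
    intro δ hδ
    rw [one_sub_rr δ hδ]
    refine J.mul_mem_left _ ?_
    exact Ideal.mul_mem_right _ _ (Ideal.mul_mem_right _ _ hx)
  have h2 : Tendsto (fun n : ℕ => star x * (1 - rr (1 / ((n : ℝ) + 1)) x)) atTop (𝓝 (star x)) := by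
    rw [tendsto_iff_norm_sub_tendsto_zero]
    have h3 : ∀ n : ℕ, ‖star x * (1 - rr (1 / ((n : ℝ) + 1)) x) - star x‖ ≤
        √(1 / ((n : ℝ) + 1)) := by
      intro n
      have e : star x * (1 - rr (1 / ((n : ℝ) + 1)) x) - star x =
          -star (rr (1 / ((n : ℝ) + 1)) x * x) := by
        rw [star_mul, (rr_sa _ x).star_eq, mul_sub, mul_one]
        abel
      rw [e, norm_neg, norm_star]
      exact Real.le_sqrt_of_sq_le (rr_mul _ (by positivity) x)
    refine squeeze_zero (fun n => norm_nonneg _) h3 ?_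
    have h4 := (Real.continuous_sqrt.tendsto 0).comp (tendsto_one_div_add_atTop_nhds_zero_nat (𝕜 := ℝ))
    rw [Real.sqrt_zero] at h4
    exact h4
  exact hJ.mem_of_tendsto h2 (Eventually.of_forall fun n => h1 _ (by positivity))

abbrev Quo : Type u := A ⧸ J

omit hJ in
theorem mk_surj (y : Quo J) : ∃ x : A, Ideal.Quotient.mk J x = y :=
  Ideal.Quotient.mk_surjective y

theorem norm_mul_le' (x y : Quo J) : ‖x * y‖ ≤ ‖x‖ * ‖y‖ := by
  have h1 : ∀ ε : ℝ, 0 < ε → ‖x * y‖ ≤ (‖x‖ + ε) * (‖y‖ + ε) := by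
    intro ε hε
    obtain ⟨a, ha, h2⟩ := Submodule.Quotient.norm_mk_lt x hε
    obtain ⟨b, hb, h3⟩ := Submodule.Quotient.norm_mk_lt y hε
    have e : x * y = Ideal.Quotient.mk J (a * b) := by
      rw [map_mul]
      congr 1
      · exact ha.symm
      · exact hb.symm
    rw [e]
    refine (Submodule.Quotient.norm_mk_le J (a * b)).trans ?_
    exact (norm_mul_le _ _).trans (mul_le_mul h2.le h3.le (norm_nonneg _) (by positivity))
  have h4 : Filter.Tendsto (fun ε : ℝ => (‖x‖ + ε) * (‖y‖ + ε)) (nhdsWithin 0 (Set.Ioi 0))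
      (nhds (‖x‖ * ‖y‖)) := by
    have : Continuous fun ε : ℝ => (‖x‖ + ε) * (‖y‖ + ε) := by fun_prop
    have h5 := this.tendsto 0
    rw [add_zero, add_zero] at h5
    exact h5.mono_left nhdsWithin_le_nhds
  exact ge_of_tendsto h4 (Filter.eventually_of_mem self_mem_nhdsWithin fun ε hε => h1 ε hε)

instance quoNormedRing : NormedRing (Quo J) :=
  { Ideal.Quotient.ring J, Submodule.Quotient.normedAddCommGroup J with
    norm_mul_le := norm_mul_le' J }

instance quoNA : NormedAlgebra ℂ (Quo J) :=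
  { Ideal.Quotient.algebra ℂ (I := J) with
    norm_smul_le := fun c x => (Submodule.Quotient.normedSpace J ℂ).norm_smul_le c x }

instance quoStar : Star (Quo J) where
  star := Quotient.map' star (by
    intro a b hab
    have h1 : a - b ∈ J := (Submodule.quotientRel_def _).1 hab
    refine (Submodule.quotientRel_def _).2 ?_
    rw [← star_sub]
    exact star_mem J h1)

theorem star_mk (a : A) : star (Ideal.Quotient.mk J a : Quo J) = Ideal.Quotient.mk J (star a) := rfl

instance quoStarRing : StarRing (Quo J) where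
  star_involutive := by
    intro x
    obtain ⟨a, rfl⟩ := mk_surj J x
    rw [star_mk, star_mk, star_star]
  star_mul := by
    intro x y
    obtain ⟨a, rfl⟩ := mk_surj J x
    obtain ⟨b, rfl⟩ := mk_surj J y
    rw [← map_mul, star_mk, star_mk, star_mk, ← map_mul, star_mul]
  star_add := by
    intro x y
    obtain ⟨a, rfl⟩ := mk_surj J x
    obtain ⟨b, rfl⟩ := mk_surj J y
    rw [← map_add, star_mk, star_mk, star_mk, ← map_add, star_add]

instance quoStarModule : StarModule ℂ (Quo J) where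
  star_smul := by
    intro c x
    obtain ⟨a, rfl⟩ := mk_surj J x
    change star (Ideal.Quotient.mk J (c • a)) = star c • Ideal.Quotient.mk J (star a)
    rw [star_mk, star_smul]
    rfl

instance quoCStarRing : CStarRing (Quo J) where
  norm_mul_self_le := by
    intro x
    obtain ⟨a, rfl⟩ := mk_surj J x
    rw [star_mk, ← map_mul]
    have key : ∀ δ : ℝ, 0 < δ → ‖(Ideal.Quotient.mk J a : Quo J)‖ * ‖(Ideal.Quotient.mk J a : Quo J)‖ ≤
        ‖(Ideal.Quotient.mk J (star a * a) : Quo J)‖ + δ + √δ := by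
      intro δ hδ
      obtain ⟨y, hy, h1⟩ := Submodule.Quotient.norm_mk_lt
        (Ideal.Quotient.mk J (star a * a) : Quo J) hδ
      have h2 : star a * a - y ∈ J := by
        rw [← Ideal.Quotient.eq]
        exact hy.symm
      set j := star a * a - y with hj
      have h3 : (Ideal.Quotient.mk J a : Quo J) = Ideal.Quotient.mk J (a * rr δ j) := by
        rw [Ideal.Quotient.eq]
        have e : a - a * rr δ j = a * (1 - rr δ j) := by rw [mul_sub, mul_one]
        rw [e, one_sub_rr δ hδ]
        refine J.mul_mem_left _ ?_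
        exact Ideal.mul_mem_right _ _ (Ideal.mul_mem_right _ _ h2)
      have h4 : ‖(Ideal.Quotient.mk J a : Quo J)‖ ≤ ‖a * rr δ j‖ := by
        rw [h3]
        exact Submodule.Quotient.norm_mk_le J _
      have h5 : ‖a * rr δ j‖ * ‖a * rr δ j‖ = ‖rr δ j * (star a * a) * rr δ j‖ := by
        rw [← CStarRing.norm_star_mul_self, star_mul, (rr_sa δ j).star_eq]
        simp only [mul_assoc]
      have h6 : rr δ j * (star a * a) * rr δ j = rr δ j * y * rr δ j + rr δ j * j * rr δ j := by
        rw [← add_mul, ← mul_add]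
        congr 2
        rw [hj]
        abel
      have n := rr_norm δ hδ j
      have h7 : ‖rr δ j * y * rr δ j‖ ≤ ‖y‖ := by
        calc ‖rr δ j * y * rr δ j‖ ≤ ‖rr δ j‖ * ‖y‖ * ‖rr δ j‖ :=
              (norm_mul_le _ _).trans (mul_le_mul_of_nonneg_right (norm_mul_le _ _) (norm_nonneg _))
          _ ≤ 1 * ‖y‖ * 1 := by gcongr
          _ = ‖y‖ := by ring
      have h8 : ‖rr δ j * j * rr δ j‖ ≤ √δ := by
        have h9 : ‖rr δ j * j‖ ≤ √δ := Real.le_sqrt_of_sq_le (rr_mul δ hδ j)
        calc ‖rr δ j * j * rr δ j‖ ≤ ‖rr δ j * j‖ * ‖rr δ j‖ := norm_mul_le _ _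
          _ ≤ √δ * 1 := by gcongr
          _ = √δ := mul_one _
      calc ‖(Ideal.Quotient.mk J a : Quo J)‖ * ‖(Ideal.Quotient.mk J a : Quo J)‖
          ≤ ‖a * rr δ j‖ * ‖a * rr δ j‖ := mul_self_le_mul_self (norm_nonneg _) h4
        _ ≤ ‖y‖ + √δ := by
            rw [h5, h6]
            exact (norm_add_le _ _).trans (add_le_add h7 h8)
        _ ≤ _ := by linarith
    have hc : Filter.Tendsto (fun δ : ℝ => ‖(Ideal.Quotient.mk J (star a * a) : Quo J)‖ + δ + √δ)
        (nhdsWithin 0 (Set.Ioi 0)) (nhds (‖(Ideal.Quotient.mk J (star a * a) : Quo J)‖)) := by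
      have : Continuous fun δ : ℝ => ‖(Ideal.Quotient.mk J (star a * a) : Quo J)‖ + δ + √δ := by
        fun_prop
      have h5 := this.tendsto 0
      rw [Real.sqrt_zero, add_zero, add_zero] at h5
      exact h5.mono_left nhdsWithin_le_nhds
    exact ge_of_tendsto hc (Filter.eventually_of_mem self_mem_nhdsWithin fun δ hδ => key δ hδ)

instance quoComplete : CompleteSpace (Quo J) := Submodule.Quotient.completeSpace J

instance quoCStarAlgebra : CStarAlgebra (Quo J) where

/-- the quotient map -/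
def quoMap : A →⋆ₐ[ℂ] Quo J where
  toFun := Ideal.Quotient.mk J
  map_one' := map_one _
  map_mul' := map_mul _
  map_zero' := map_zero _
  map_add' := map_add _
  commutes' := fun _ => rfl
  map_star' := fun _ => rfl

theorem exists_quotient : ∃ (B : Type u) (_ : CStarAlgebra B) (q : A →⋆ₐ[ℂ] B),
    Function.Surjective q ∧ (∀ a, q a = 0 ↔ a ∈ J) ∧
      ∀ a, ‖q a‖ = Metric.infDist a (J : Set A) := by
  refine ⟨Quo J, inferInstance, quoMap J, mk_surj J, fun a => ?_, fun a => ?_⟩
  · exact Ideal.Quotient.eq_zero_iff_mem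
  · exact QuotientAddGroup.norm_mk (S := Submodule.toAddSubgroup J) a

end Pool.Agent.X188.SC
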