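import Pool.Agent.X188.SCA
import Pool.Agent.X188.SCQ
import Pool.Agent.X188.SCM

/-! The ideal generated by the orbit of a minimal projection; the wandering case. -/

set_option autoImplicit false
set_option linter.unusedSectionVars false
set_option linter.deprecated false

open Finset Filter Topology

namespace Pool.Agent.X188.SC

universe u

section

variable {B : Type u} [CStarAlgebra B]

theorem al_add (α : B ≃⋆ₐ[ℂ] B) (j k : ℤ) (x : B) : (α ^ (j + k)) x = (α ^ j) ((α ^ k) x) := by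
  rw [zpow_add]; rfl

theorem al_zero (α : B ≃⋆ₐ[ℂ] B) (x : B) : (α ^ (0 : ℤ)) x = x := by
  rw [zpow_zero]; rfl

theorem al_inv (α : B ≃⋆ₐ[ℂ] B) (j : ℤ) (x : B) : (α ^ (-j)) ((α ^ j) x) = x := by
  rw [← al_add, neg_add_cancel, al_zero]

theorem al_inv' (α : B ≃⋆ₐ[ℂ] B) (j : ℤ) (x : B) : (α ^ j) ((α ^ (-j)) x) = x := by
  rw [← al_add, add_neg_cancel, al_zero]

theorem al_nat (α : B ≃⋆ₐ[ℂ] B) (j : ℕ) (x : B) : (α ^ (j : ℤ)) x = (α ^ j) x := by
  rw [zpow_natCast]

/-- the algebraic ideal generated by the orbit of `e` -/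
noncomputable def Mo (α : B ≃⋆ₐ[ℂ] B) (e : B) : Submodule ℂ B :=
  Submodule.span ℂ {y | ∃ (k : ℤ) (b b' : B), y = b * (α ^ k) e * b'}

theorem Mo_gen (α : B ≃⋆ₐ[ℂ] B) (e : B) (k : ℤ) (b b' : B) : b * (α ^ k) e * b' ∈ Mo α e :=
  Submodule.subset_span ⟨k, b, b', rfl⟩

theorem Mo_mul_left (α : B ≃⋆ₐ[ℂ] B) (e : B) (a : B) {y : B} (hy : y ∈ Mo α e) :
    a * y ∈ Mo α e := by
  unfold Mo at hy
  induction hy using Submodule.span_induction with
  | mem y hy =>
    obtain ⟨k, b, b', rfl⟩ := hy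
    have : a * (b * (α ^ k) e * b') = (a * b) * (α ^ k) e * b' := by simp only [mul_assoc]
    rw [this]
    exact Mo_gen α e k _ _
  | zero => rw [mul_zero]; exact Submodule.zero_mem _
  | add y z _ _ h1 h2 => rw [mul_add]; exact Submodule.add_mem _ h1 h2
  | smul c y _ h1 => rw [mul_smul_comm]; exact Submodule.smul_mem _ _ h1

theorem Mo_mul_right (α : B ≃⋆ₐ[ℂ] B) (e : B) (a : B) {y : B} (hy : y ∈ Mo α e) :
    y * a ∈ Mo α e := by
  unfold Mo at hy
  induction hy using Submodule.span_induction with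
  | mem y hy =>
    obtain ⟨k, b, b', rfl⟩ := hy
    have : b * (α ^ k) e * b' * a = b * (α ^ k) e * (b' * a) := by simp only [mul_assoc]
    rw [this]
    exact Mo_gen α e k _ _
  | zero => rw [zero_mul]; exact Submodule.zero_mem _
  | add y z _ _ h1 h2 => rw [add_mul]; exact Submodule.add_mem _ h1 h2
  | smul c y _ h1 => rw [smul_mul_assoc]; exact Submodule.smul_mem _ _ h1

theorem Mo_al (α : B ≃⋆ₐ[ℂ] B) (e : B) (j : ℤ) {y : B} (hy : y ∈ Mo α e) :
    (α ^ j) y ∈ Mo α e := by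
  unfold Mo at hy
  induction hy using Submodule.span_induction with
  | mem y hy =>
    obtain ⟨k, b, b', rfl⟩ := hy
    rw [map_mul, map_mul, ← al_add]
    exact Mo_gen α e _ _ _
  | zero => rw [map_zero]; exact Submodule.zero_mem _
  | add y z _ _ h1 h2 => rw [map_add]; exact Submodule.add_mem _ h1 h2
  | smul c y _ h1 => rw [map_smul]; exact Submodule.smul_mem _ _ h1

theorem al_cont (α : B ≃⋆ₐ[ℂ] B) : Continuous α :=
  (AddMonoidHomClass.isometry_of_norm α (norm_al α)).continuous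

/-- the closed ideal generated by the orbit of `e` -/
noncomputable def Dd (α : B ≃⋆ₐ[ℂ] B) (e : B) : Ideal B where
  carrier := closure (Mo α e : Set B)
  add_mem' {a b} ha hb := by
    have := (Mo α e).topologicalClosure.add_mem (x := a) (y := b) ha hb
    exact this
  zero_mem' := (Mo α e).topologicalClosure.zero_mem
  smul_mem' c {x} hx := by
    exact map_mem_closure (f := fun y => c * y) (by fun_prop) hx fun y hy => Mo_mul_left α e c hy

theorem mem_Dd {α : B ≃⋆ₐ[ℂ] B} {e : B} {y : B} : y ∈ Dd α e ↔ y ∈ closure (Mo α e : Set B) := Iff.rfl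

instance Dd_two (α : B ≃⋆ₐ[ℂ] B) (e : B) : (Dd α e).IsTwoSided where
  mul_mem_of_left {x} c hx := by
    exact map_mem_closure (f := fun y => y * c) (by fun_prop) hx fun y hy => Mo_mul_right α e c hy

instance Dd_closed (α : B ≃⋆ₐ[ℂ] B) (e : B) : IsClosed (Dd α e : Set B) := isClosed_closure

theorem Dd_al (α : B ≃⋆ₐ[ℂ] B) (e : B) (j : ℤ) {y : B} (hy : y ∈ Dd α e) : (α ^ j) y ∈ Dd α e :=
  map_mem_closure (al_cont _) hy fun _ hz => Mo_al α e j hz

theorem Mo_sub_Dd {α : B ≃⋆ₐ[ℂ] B} {e : B} {y : B} (hy : y ∈ Mo α e) : y ∈ Dd α e := subset_closure hy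

theorem infDist_Dd (α : B ≃⋆ₐ[ℂ] B) (e : B) (y : B) :
    Metric.infDist y (Dd α e : Set B) = Metric.infDist y (Mo α e : Set B) := by
  have : (Dd α e : Set B) = closure (Mo α e : Set B) := rfl
  rw [this, Metric.infDist_closure]

theorem e_mem_Dd (α : B ≃⋆ₐ[ℂ] B) (e : B) : e ∈ Dd α e := by
  refine Mo_sub_Dd ?_
  have := Mo_gen α e 0 1 1
  rwa [al_zero, one_mul, mul_one] at this

theorem Dd_le (α : B ≃⋆ₐ[ℂ] B) (e : B) (J : Ideal B) [hJ : J.IsTwoSided] (hJc : IsClosed (J : Set B))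
    (hJa : ∀ (k : ℤ), (α ^ k) e ∈ J) {y : B} (hy : y ∈ Dd α e) : y ∈ J := by
  have h1 : Mo α e ≤ J.restrictScalars ℂ := by
    refine Submodule.span_le.2 ?_
    rintro _ ⟨k, b, b', rfl⟩
    exact J.mul_mem_right _ (J.mul_mem_left _ (hJa k))
  exact closure_minimal (fun z hz => h1 hz) hJc hy

theorem MinP.al {e : B} (he : MinP e) (α : B ≃⋆ₐ[ℂ] B) : MinP (α e) := by
  refine ⟨by rw [← map_star, he.sa], by rw [← map_mul, he.idem], fun b => ?_⟩
  obtain ⟨c, hc⟩ := he.minl (α.symm b)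
  refine ⟨c, ?_⟩
  have h1 : b = α (α.symm b) := (α.apply_symm_apply b).symm
  rw [h1, ← map_mul, ← map_mul, hc, map_smul]

/-- the orbit sums of the elements of `Mo` are small in the wandering case -/
theorem wander (α : B ≃⋆ₐ[ℂ] B) (e : B) (hsa : star e = e)
    (hw : ∀ m : ℕ, 0 < m → ∀ b, (α ^ m) e * b * e = 0) {κ : B} (hκ : κ ∈ Mo α e) :
    ∃ C : ℝ, 0 ≤ C ∧ ∀ (L : ℕ) (c : ℕ → ℂ), (∀ i, ‖c i‖ ≤ 1) →
      ‖∑ i ∈ range L, c i • (α ^ i) κ‖ ≤ C * Real.sqrt L := by
  have hz : ∀ (i j : ℕ) (k : ℤ), i ≠ j → ∀ b, (α ^ ((i : ℤ) + k)) e * b * (α ^ ((j : ℤ) + k)) e = 0 := by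
    have h1 : ∀ (i j : ℕ) (k : ℤ), j < i → ∀ b,
        (α ^ ((i : ℤ) + k)) e * b * (α ^ ((j : ℤ) + k)) e = 0 := by
      intro i j k hij b
      have h2 := hw (i - j) (by omega) ((α ^ (-((j : ℤ) + k))) b)
      have h3 := congrArg (fun y => (α ^ ((j : ℤ) + k)) y) h2
      simp only [map_mul, map_zero] at h3
      rw [al_inv', ← al_nat, ← al_add] at h3
      have e1 : ((j : ℤ) + k) + ((i - j : ℕ) : ℤ) = (i : ℤ) + k := by
        rw [Nat.cast_sub hij.le]; ring
      rwa [e1] at h3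
    intro i j k hij b
    rcases lt_or_gt_of_ne hij with h | h
    · have h2 := congrArg star (h1 j i k h (star b))
      rw [star_mul, star_mul, star_star, star_zero, ← map_star, ← map_star, hsa, ← mul_assoc] at h2
      exact h2
    · exact h1 i j k h b
  unfold Mo at hκ
  induction hκ using Submodule.span_induction with
  | mem y hy =>
    obtain ⟨k, b, b', rfl⟩ := hy
    set y := b * (α ^ k) e * b' with hy
    refine ⟨‖y‖, norm_nonneg _, fun L c hc => ?_⟩
    have e1 : ∀ i : ℕ, (α ^ i) y = (α ^ i) b * (α ^ ((i : ℤ) + k)) e * (α ^ i) b' := by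
      intro i
      rw [hy, map_mul, map_mul, al_add, al_nat]
    have e2 : ∀ i j : ℕ, i ≠ j → star ((α ^ i) y) * (α ^ j) y = 0 := by
      intro i j hij
      rw [e1, e1, star_mul, star_mul]
      have h1 := hz i j k hij (star ((α ^ i) b) * (α ^ j) b)
      have h2 : star ((α ^ ((i : ℤ) + k)) e) = (α ^ ((i : ℤ) + k)) e := by rw [← map_star, hsa]
      rw [h2]
      calc star ((α ^ i) b') * ((α ^ ((i : ℤ) + k)) e * star ((α ^ i) b)) *
            ((α ^ j) b * (α ^ ((j : ℤ) + k)) e * (α ^ j) b')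
          = star ((α ^ i) b') * ((α ^ ((i : ℤ) + k)) e * (star ((α ^ i) b) * (α ^ j) b) *
              (α ^ ((j : ℤ) + k)) e) * (α ^ j) b' := by simp only [mul_assoc]
        _ = 0 := by rw [h1, mul_zero, zero_mul]
    set Y := ∑ i ∈ range L, c i • (α ^ i) y with hY
    have e3 : star Y * Y = ∑ i ∈ range L, (star (c i) * c i) • (star ((α ^ i) y) * (α ^ i) y) := by
      rw [hY, star_sum, sum_mul]
      refine sum_congr rfl fun i hi => ?_
      rw [mul_sum, sum_eq_single_of_mem i hi]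
      · rw [star_smul, smul_mul_smul_comm]
      · intro j _ hji
        rw [star_smul, smul_mul_smul_comm, e2 i j hji.symm, smul_zero]
    have e4 : ‖Y‖ ^ 2 ≤ L * ‖y‖ ^ 2 := by
      rw [sq, ← CStarRing.norm_star_mul_self, e3]
      refine (norm_sum_le _ _).trans ?_
      calc ∑ i ∈ range L, ‖(star (c i) * c i) • (star ((α ^ i) y) * (α ^ i) y)‖
          ≤ ∑ i ∈ range L, ‖y‖ ^ 2 := by
            refine sum_le_sum fun i _ => ?_
            have g1 : ‖star (c i) * c i‖ = ‖c i‖ ^ 2 := by rw [norm_mul, norm_star, sq]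
            have g2 : ‖star ((α ^ i) y) * (α ^ i) y‖ = ‖y‖ ^ 2 := by
              rw [CStarRing.norm_star_mul_self, norm_al, sq]
            rw [norm_smul, g1, g2]
            have : ‖c i‖ ^ 2 ≤ 1 := by
              have := hc i
              have h0 := norm_nonneg (c i)
              nlinarith
            exact mul_le_of_le_one_left (by positivity) this
        _ = L * ‖y‖ ^ 2 := by simp
    have e5 : ‖Y‖ ≤ Real.sqrt (L * ‖y‖ ^ 2) := Real.le_sqrt_of_sq_le e4
    rw [Real.sqrt_mul (by positivity), Real.sqrt_sq (norm_nonneg _)] at e5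
    linarith
  | zero => exact ⟨0, le_rfl, fun L c hc => by simp⟩
  | add y z _ _ h1 h2 =>
    obtain ⟨C, hC, h1⟩ := h1
    obtain ⟨C', hC', h2⟩ := h2
    refine ⟨C + C', by positivity, fun L c hc => ?_⟩
    simp only [map_add, smul_add, sum_add_distrib]
    refine (norm_add_le _ _).trans ?_
    have := h1 L c hc
    have := h2 L c hc
    linarith
  | smul a y _ h1 =>
    obtain ⟨C, hC, h1⟩ := h1
    refine ⟨‖a‖ * C, by positivity, fun L c hc => ?_⟩
    have e1 : ∑ i ∈ range L, c i • (α ^ i) (a • y) = a • ∑ i ∈ range L, c i • (α ^ i) y := by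
      rw [smul_sum]
      refine sum_congr rfl fun i _ => ?_
      rw [map_smul, smul_comm]
    rw [e1, norm_smul, mul_assoc]
    exact mul_le_mul_of_nonneg_left (h1 L c hc) (norm_nonneg _)

open Classical in
/-- grouping of a sum according to the value in a finite set -/
theorem group_sum (α : B ≃⋆ₐ[ℂ] B) (K : Finset B) (κ : ℕ → B) (hκ : ∀ n, κ n ∈ K)
    (g : ℕ → B → B) (N : ℕ) :
    ∑ i ∈ range N, g i (κ i) = ∑ y ∈ K, ∑ i ∈ range N, if κ i = y then g i y else 0 := by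
  rw [sum_comm]
  refine sum_congr rfl fun i _ => ?_
  rw [sum_ite_eq, if_pos (hκ i)]

/-- the key estimate in the wandering case -/
theorem lift_wander {f : ℕ → ℂ} (hf : ∀ n, ‖f n‖ ≤ 1) (α : B ≃⋆ₐ[ℂ] B) (e : B) (hsa : star e = e)
    (hw : ∀ m : ℕ, 0 < m → ∀ b, (α ^ m) e * b * e = 0) (x : B) (c : ℝ) (hc : 0 ≤ c)
    (h : ML (fun y => Metric.infDist y (Dd α e : Set B)) f α x c) :
    ML (fun y => ‖y‖) f α x c := by
  classical
  refine ML_of (fun y => Metric.infDist_nonneg) α x c hc h fun L hL ε hε => ?_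
  obtain ⟨K, Z, κ, hKM, hdec⟩ := win_dec hf α x L (Mo α e) ε hε
  have hC : ∀ y ∈ K, ∃ C : ℝ, 0 ≤ C ∧ ∀ (L : ℕ) (c : ℕ → ℂ), (∀ i, ‖c i‖ ≤ 1) →
      ‖∑ i ∈ range L, c i • (α ^ i) y‖ ≤ C * Real.sqrt L := fun y hy => wander α e hsa hw (hKM y hy)
  choose! C hC0 hC using hC
  set CC := ∑ y ∈ K, C y with hCC
  have hCC0 : 0 ≤ CC := sum_nonneg fun y hy => hC0 y hy
  have hLr : (0 : ℝ) < L := by exact_mod_cast hL
  obtain ⟨P₀, hP₀⟩ := exists_nat_ge ((2 * CC / ε) ^ 2 + 4 * L * ‖x‖ / ε)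
  refine ⟨1, P₀, fun _ _ => 0, one_pos, Neg.zero, fun P hP n => ?_⟩
  rw [one_mul, add_zero]
  have hPr : (2 * CC / ε) ^ 2 + 4 * L * ‖x‖ / ε ≤ P := hP₀.trans (by exact_mod_cast hP)
  have hP1 : CC * Real.sqrt P ≤ ε / 2 * P := by
    have h1 : (2 * CC / ε) ^ 2 ≤ P := le_trans (by
      have : 0 ≤ 4 * L * ‖x‖ / ε := by positivity
      linarith) hPr
    have h2 : 2 * CC / ε ≤ Real.sqrt P := Real.le_sqrt_of_sq_le h1
    rw [div_le_iff₀ hε] at h2
    have h3 : Real.sqrt P * Real.sqrt P = P := Real.mul_self_sqrt (by positivity)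
    have h4 : 0 ≤ Real.sqrt P := Real.sqrt_nonneg _
    nlinarith
  have hP2 : 2 * L * ‖x‖ ≤ ε / 2 * P := by
    have h1 : 4 * L * ‖x‖ / ε ≤ P := le_trans (by
      have : 0 ≤ (2 * CC / ε) ^ 2 := by positivity
      linarith) hPr
    rw [div_le_iff₀ hε] at h1
    linarith
  have h1 := win_split hf α x n L P
  have h2 : ∑ i ∈ range P, (α ^ i) (win f α x (n + i) L) =
      ∑ i ∈ range P, (α ^ i) (Z (n + i)) + ∑ i ∈ range P, (α ^ i) (κ (n + i)) := by
    rw [← sum_add_distrib]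
    refine sum_congr rfl fun i _ => ?_
    conv_lhs => rw [(hdec (n + i)).1]
    rw [map_add]
  have h3 : ‖∑ i ∈ range P, (α ^ i) (Z (n + i))‖ ≤
      ∑ i ∈ range P, (Metric.infDist (win f α x (n + i) L) (Dd α e : Set B) + ε) := by
    refine (norm_sum_le _ _).trans (sum_le_sum fun i _ => ?_)
    rw [norm_al, infDist_Dd]
    exact (hdec (n + i)).2.2
  have h4 : ‖∑ i ∈ range P, (α ^ i) (κ (n + i))‖ ≤ CC * Real.sqrt P := by
    rw [group_sum α K (fun i => κ (n + i)) (fun i => (hdec _).2.1) (fun i y => (α ^ i) y) P, hCC,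
      sum_mul]
    refine (norm_sum_le _ _).trans (sum_le_sum fun y hy => ?_)
    refine le_trans (le_of_eq ?_) (hC y hy P (fun i => if κ (n + i) = y then 1 else 0) fun i => ?_)
    · congr 1
      refine sum_congr rfl fun i _ => ?_
      rw [ite_smul, one_smul, zero_smul]
    · split_ifs <;> simp
  have h5 : ‖(L : ℂ) • win f α x n P‖ ≤
      ∑ i ∈ range P, (Metric.infDist (win f α x (n + i) L) (Dd α e : Set B) + ε) +
        CC * Real.sqrt P + 2 * L ^ 2 * ‖x‖ := by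
    have e1 : (L : ℂ) • win f α x n P = (∑ i ∈ range P, (α ^ i) (Z (n + i)) +
        ∑ i ∈ range P, (α ^ i) (κ (n + i))) - (∑ i ∈ range P, (α ^ i) (win f α x (n + i) L) -
          (L : ℂ) • win f α x n P) := by
      rw [h2]; abel
    rw [e1]
    refine (norm_sub_le _ _).trans ?_
    have h6 := norm_add_le (∑ i ∈ range P, (α ^ i) (Z (n + i))) (∑ i ∈ range P, (α ^ i) (κ (n + i)))
    linarith
  rw [norm_smul, Complex.norm_natCast] at h5
  have h6 : ‖win f α x n P‖ ≤ (1 / L : ℝ) * (∑ i ∈ range P,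
      (Metric.infDist (win f α x (n + i) L) (Dd α e : Set B) + ε) +
        CC * Real.sqrt P + 2 * L ^ 2 * ‖x‖) := by
    rw [one_div, inv_mul_eq_div, le_div_iff₀ hLr]
    linarith
  have h7 : (1 / L : ℝ) * (CC * Real.sqrt P) ≤ 1 * (ε / 2 * P) := by
    have : (1 / L : ℝ) ≤ 1 := by
      rw [div_le_one hLr]
      exact_mod_cast hL
    exact mul_le_mul this hP1 (by positivity) zero_le_one
  have h8 : (1 / L : ℝ) * (2 * L ^ 2 * ‖x‖) = 2 * L * ‖x‖ := by
    field_simp
  calc ‖win f α x n P‖ ≤ (1 / L : ℝ) * (∑ i ∈ range P,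
      (Metric.infDist (win f α x (n + i) L) (Dd α e : Set B) + ε)) +
        (1 / L : ℝ) * (CC * Real.sqrt P) + (1 / L : ℝ) * (2 * L ^ 2 * ‖x‖) := by
        rw [← mul_add, ← mul_add]; exact h6
    _ ≤ _ := by
        rw [h8]
        linarith

end

end Pool.Agent.X188.SC
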