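import Pool.Agent.X188.SCW

/-! Removing finitely many eigenvectors. -/

set_option autoImplicit false
set_option linter.unusedSectionVars false
set_option linter.deprecated false

open Finset Filter Topology

namespace Pool.Agent.X188.SC

open Pool.Agent.Helper188.NCM Pool.Agent.X188.BT
open Pool.Agent.H398R3.NCM (ee_add ee_zero star_ee)

section

variable {H : Type*} [NormedAddCommGroup H] [InnerProductSpace ℂ H] [CompleteSpace H]

/-- the projection onto the span of a finite set -/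
noncomputable def pp (s : Finset H) : H →L[ℂ] H := (Submodule.span ℂ (s : Set H)).starProjection

noncomputable def qq (s : Finset H) : H →L[ℂ] H := 1 - pp s

theorem qq_apply (s : Finset H) (x : H) : qq s x = x - pp s x := rfl

theorem pp_mem (s : Finset H) (x : H) : pp s x ∈ Submodule.span ℂ (s : Set H) :=
  Submodule.starProjection_apply_mem _ _

theorem qq_orth (s : Finset H) (x w : H) (hw : w ∈ Submodule.span ℂ (s : Set H)) :
    inner ℂ (qq s x) w = 0 := Submodule.starProjection_inner_eq_zero _ _ hw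

theorem qq_min (s : Finset H) (x y : H) (hy : y ∈ Submodule.span ℂ (s : Set H)) :
    ‖qq s x‖ ≤ ‖x - y‖ := by
  have e : x - y = qq s x + (pp s x - y) := by rw [qq_apply]; abel
  have h0 : inner ℂ (qq s x) (pp s x - y) = 0 := qq_orth s x _ (Submodule.sub_mem _ (pp_mem s x) hy)
  have h1 := norm_add_sq_eq_norm_sq_add_norm_sq_of_inner_eq_zero (𝕜 := ℂ) (qq s x) (pp s x - y) h0
  rw [← e] at h1
  have h2 : ‖qq s x‖ * ‖qq s x‖ ≤ ‖x - y‖ * ‖x - y‖ := by
    rw [h1]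
    have := mul_self_nonneg ‖pp s x - y‖
    linarith
  exact abs_le_of_sq_le_sq' (by rw [sq, sq]; exact h2) (norm_nonneg _) |>.2

theorem qq_norm_le (s : Finset H) (x : H) : ‖qq s x‖ ≤ ‖x‖ := by
  have := qq_min s x 0 (Submodule.zero_mem _)
  rwa [sub_zero] at this

theorem pp_fix (s : Finset H) (x : H) (hx : x ∈ Submodule.span ℂ (s : Set H)) : pp s x = x :=
  Submodule.starProjection_eq_self_iff.2 hx

theorem qq_mul (s t : Finset H) (h : s ⊆ t) : qq t * qq s = qq t := by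
  ext x
  show qq t (qq s x) = qq t x
  rw [qq_apply s, map_sub]
  have h1 : qq t (pp s x) = 0 := by
    rw [qq_apply, pp_fix t _ (Submodule.span_mono (by exact_mod_cast h) (pp_mem s x)), sub_self]
  rw [h1, sub_zero]

theorem Eig.pw {U : unitary (H →L[ℂ] H)} {f : H} (h : Eig U f) :
    ∃ β : ℝ, ∀ n : ℤ, BT.pw U n f = ee (β * n) • f := by
  obtain ⟨β, hβ⟩ := h
  have h1 : BT.pw U 1 f = ee (-β) • f := by
    conv_rhs => rw [← hβ]
    rw [smul_smul, ← ee_add, neg_add_cancel, ee_zero, one_smul]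
  have hn : ∀ n : ℕ, BT.pw U n f = ee (-β * n) • f := by
    intro n
    induction n with
    | zero => simp [pw_zero, ee_zero]
    | succ n ih =>
      have e : ((n + 1 : ℕ) : ℤ) = 1 + n := by push_cast; ring
      rw [e, pw_add, ContinuousLinearMap.mul_apply, ih, map_smul, h1, smul_smul, ← ee_add]
      congr 2
      push_cast
      ring
  refine ⟨-β, fun n => ?_⟩
  obtain ⟨m, rfl | rfl⟩ := Int.eq_nat_or_neg n
  · rw [hn m]
    push_cast
    rfl
  · have h2 : BT.pw U (-(m : ℤ)) (BT.pw U m f) = f := by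
      rw [← ContinuousLinearMap.mul_apply, ← pw_add, neg_add_cancel, pw_zero]
      rfl
    rw [hn m, map_smul] at h2
    rw [← h2]
    conv_rhs => rw [smul_smul, ← ee_add]
    have h3 : ee (-β * m) • BT.pw U (-(m : ℤ)) f = f := h2
    conv_lhs => rw [h3]
    have h4 : (-β) * ((-(m : ℤ) : ℤ) : ℝ) + (-β) * m = 0 := by push_cast; ring
    rw [h4, ee_zero, one_smul]

theorem span_inv {U : unitary (H →L[ℂ] H)} {s : Finset H} (hs : ∀ f ∈ s, Eig U f) (n : ℤ) (x : H)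
    (hx : x ∈ Submodule.span ℂ (s : Set H)) :
    BT.pw U n x ∈ Submodule.span ℂ (s : Set H) := by
  induction hx using Submodule.span_induction with
  | mem f hf =>
    obtain ⟨β, hβ⟩ := (hs f (by exact_mod_cast hf)).pw
    rw [hβ n]
    exact Submodule.smul_mem _ _ (Submodule.subset_span hf)
  | zero => rw [map_zero]; exact Submodule.zero_mem _
  | add x y _ _ hx hy => rw [map_add]; exact Submodule.add_mem _ hx hy
  | smul c x _ hx => rw [map_smul]; exact Submodule.smul_mem _ _ hx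

theorem pp_comm {U : unitary (H →L[ℂ] H)} {s : Finset H} (hs : ∀ f ∈ s, Eig U f) (n : ℤ) (x : H) :
    pp s (BT.pw U n x) = BT.pw U n (pp s x) := by
  refine (Submodule.eq_starProjection_of_mem_of_inner_eq_zero
    (span_inv hs n _ (pp_mem s x)) fun w hw => ?_)
  rw [← map_sub]
  have h1 : w = BT.pw U n (BT.pw U (-n) w) := by
    rw [← ContinuousLinearMap.mul_apply, ← pw_add, add_neg_cancel, pw_zero]
    rfl
  rw [h1, inner_pw, sub_self, pw_zero, ContinuousLinearMap.one_apply]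
  exact qq_orth s x _ (span_inv hs _ _ hw)

theorem qq_comm {U : unitary (H →L[ℂ] H)} {s : Finset H} (hs : ∀ f ∈ s, Eig U f) (n : ℤ) (x : H) :
    qq s (BT.pw U n x) = BT.pw U n (qq s x) := by
  rw [qq_apply, qq_apply, pp_comm hs, map_sub]

/-- after the removal of finitely many eigenvectors the exponential sums are small -/
theorem exists_small (U : unitary (H →L[ℂ] H)) (ξ : H) (τ : ℝ) (hτ : 0 < τ) :
    ∃ s : Finset H, (∀ f ∈ s, Eig U f) ∧
      ∃ L₀ : ℕ, ∀ L ≥ L₀, ∀ β : ℝ, ‖ex U (qq s ξ) L β‖ ≤ 2 * τ * L := by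
  set PE : Submodule ℂ H := Submodule.span ℂ {f | Eig U f} with hPE
  set r := Metric.infDist ξ (PE : Set H) with hr
  have hne : (PE : Set H).Nonempty := ⟨0, Submodule.zero_mem _⟩
  have hr0 : 0 ≤ r := Metric.infDist_nonneg
  have hlt : r < √(r ^ 2 + τ ^ 2) := Real.lt_sqrt_of_sq_lt (by nlinarith [sq_pos_of_pos hτ])
  obtain ⟨y, hy, hyd⟩ := (Metric.infDist_lt_iff hne).1 hlt
  obtain ⟨s, hs1, hs2⟩ := Submodule.mem_span_finite_of_mem_span hy
  have hs : ∀ f ∈ s, Eig U f := fun f hf => hs1 hf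
  refine ⟨s, hs, ex_uniform U (qq s ξ) τ hτ fun β => ?_⟩
  obtain ⟨f, hf, hort, hlim⟩ := mean_erg U (qq s ξ) β
  have h1 : ‖qq s ξ‖ ≤ √(r ^ 2 + τ ^ 2) := by
    rw [dist_eq_norm] at hyd
    exact (qq_min s ξ y hs2).trans hyd.le
  have h1' : ‖qq s ξ‖ ^ 2 < r ^ 2 + τ ^ 2 := by
    have h2 : ‖qq s ξ‖ < √(r ^ 2 + τ ^ 2) := by
      rw [dist_eq_norm] at hyd
      exact (qq_min s ξ y hs2).trans_lt hyd
    have h3 := Real.sq_sqrt (show (0 : ℝ) ≤ r ^ 2 + τ ^ 2 by positivity)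
    nlinarith [norm_nonneg (qq s ξ), Real.sqrt_nonneg (r ^ 2 + τ ^ 2)]
  have h2 : r ≤ ‖qq s ξ - f‖ := by
    have e : qq s ξ - f = ξ - (pp s ξ + f) := by rw [qq_apply]; abel
    rw [e, ← dist_eq_norm]
    refine Metric.infDist_le_dist_of_mem ?_
    refine Submodule.add_mem _ ?_ (Submodule.subset_span hf)
    exact Submodule.span_mono (fun g hg => hs g (by exact_mod_cast hg)) (pp_mem s ξ)
  have h3 : ‖qq s ξ‖ ^ 2 = ‖f‖ ^ 2 + ‖qq s ξ - f‖ ^ 2 := by
    have := norm_add_sq_eq_norm_sq_add_norm_sq_of_inner_eq_zero (𝕜 := ℂ) f (qq s ξ - f) hort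
    rw [add_sub_cancel] at this
    rw [sq, sq, sq]
    exact this
  have h4 : ‖f‖ < τ := by
    have : ‖f‖ ^ 2 < τ ^ 2 := by nlinarith [norm_nonneg (qq s ξ - f)]
    exact lt_of_pow_lt_pow_left₀ 2 hτ.le this
  obtain ⟨L1, hL1⟩ := eventually_atTop.1 (hlim.eventually (gt_mem_nhds h4))
  refine ⟨L1 + 1, by omega, ?_⟩
  have h5 := hL1 (L1 + 1) (by omega)
  rwa [div_lt_iff₀ (by positivity)] at h5

/-- rank one operators -/
noncomputable def ro (ξ η : H) : H →L[ℂ] H := (innerSL ℂ η).smulRight ξ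

theorem ro_apply (ξ η x : H) : ro ξ η x = (inner ℂ η x : ℂ) • ξ := rfl

/-- the orbit sums of `κ` are small off the span of `s` -/
def Small (U : unitary (H →L[ℂ] H)) (s : Finset H) (κ : H →L[ℂ] H) (ε : ℝ) : Prop :=
  ∃ L₀ : ℕ, ∀ L ≥ L₀, ∀ c : ℕ → ℂ, (∀ l, ‖c l‖ ≤ 1) →
    ‖qq s * ∑ l ∈ range L, c l • (BT.pw U l * κ * BT.pw U (-(l : ℤ)))‖ ≤ ε * L

theorem Small.mono {U : unitary (H →L[ℂ] H)} {s t : Finset H} {κ : H →L[ℂ] H} {ε : ℝ}
    (h : Small U s κ ε) (hst : s ⊆ t) : Small U t κ ε := by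
  obtain ⟨L₀, h⟩ := h
  refine ⟨L₀, fun L hL c hc => ?_⟩
  rw [← qq_mul s t hst, mul_assoc]
  refine (ContinuousLinearMap.opNorm_comp_le _ _).trans ?_
  have h1 : ‖qq t‖ ≤ 1 := ContinuousLinearMap.opNorm_le_bound _ zero_le_one fun x => by
    rw [one_mul]; exact qq_norm_le t x
  calc ‖qq t‖ * ‖qq s * ∑ l ∈ range L, c l • (BT.pw U l * κ * BT.pw U (-(l : ℤ)))‖
      ≤ 1 * (ε * L) := mul_le_mul h1 (h L hL c hc) (norm_nonneg _) zero_le_one
    _ = ε * L := one_mul _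

theorem Small.add {U : unitary (H →L[ℂ] H)} {s : Finset H} {κ κ' : H →L[ℂ] H} {ε ε' : ℝ}
    (h : Small U s κ ε) (h' : Small U s κ' ε') : Small U s (κ + κ') (ε + ε') := by
  obtain ⟨L₀, h⟩ := h
  obtain ⟨L₁, h'⟩ := h'
  refine ⟨max L₀ L₁, fun L hL c hc => ?_⟩
  have e : qq s * ∑ l ∈ range L, c l • (BT.pw U l * (κ + κ') * BT.pw U (-(l : ℤ))) =
      qq s * ∑ l ∈ range L, c l • (BT.pw U l * κ * BT.pw U (-(l : ℤ))) +
      qq s * ∑ l ∈ range L, c l • (BT.pw U l * κ' * BT.pw U (-(l : ℤ))) := by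
    rw [← mul_add, ← sum_add_distrib]
    congr 1
    refine sum_congr rfl fun l _ => ?_
    rw [mul_add, add_mul, smul_add]
  rw [e, add_mul]
  exact (norm_add_le _ _).trans (add_le_add (h L (le_trans (le_max_left _ _) hL) c hc)
    (h' L (le_trans (le_max_right _ _) hL) c hc))

theorem Small.le {U : unitary (H →L[ℂ] H)} {s : Finset H} {κ : H →L[ℂ] H} {ε ε' : ℝ}
    (h : Small U s κ ε) (hε : ε ≤ ε') : Small U s κ ε' := by
  obtain ⟨L₀, h⟩ := h
  exact ⟨L₀, fun L hL c hc => (h L hL c hc).trans (by gcongr)⟩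

theorem ro_small (U : unitary (H →L[ℂ] H)) (ξ η : H) (ε : ℝ) (hε : 0 < ε) :
    ∃ s : Finset H, (∀ f ∈ s, Eig U f) ∧ Small U s (ro ξ η) ε := by
  set D : ℝ := 2 * (‖η‖ ^ 2 * ‖ξ‖ + 1) with hD
  have hDpos : 0 < D := by positivity
  obtain ⟨s, hs, L₀, hL⟩ := exists_small U ξ (ε ^ 2 / D) (by positivity)
  refine ⟨s, hs, L₀, fun L hLL c hc => ?_⟩
  set ξ' := qq s ξ with hξ'
  set τ := 2 * (ε ^ 2 / D) with hτ
  have hτ0 : 0 < τ := by positivity
  have h1 := wiener_ineq U ξ' L ((τ * L) ^ 2) (fun β => by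
    have := hL L hLL β
    exact pow_le_pow_left₀ (norm_nonneg _) this 2)
  have h2 : ∑ n ∈ range L, ∑ m ∈ range L, ‖(inner ℂ (BT.pw U n ξ') (BT.pw U m ξ') : ℂ)‖ ≤
      τ * L ^ 2 * ‖ξ'‖ := by
    have h3 : (∑ n ∈ range L, ∑ m ∈ range L, ‖(inner ℂ (BT.pw U n ξ') (BT.pw U m ξ') : ℂ)‖) ^ 2 ≤
        (L : ℝ) ^ 2 * ∑ n ∈ range L, ∑ m ∈ range L,
          ‖(inner ℂ (BT.pw U n ξ') (BT.pw U m ξ') : ℂ)‖ ^ 2 := by
      rw [← sum_product', ← sum_product']
      refine (sq_sum_le_card_mul_sum_sq).trans (le_of_eq ?_)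
      rw [card_product, card_range]
      push_cast
      ring
    have h4 : (∑ n ∈ range L, ∑ m ∈ range L, ‖(inner ℂ (BT.pw U n ξ') (BT.pw U m ξ') : ℂ)‖) ^ 2 ≤
        (τ * L ^ 2 * ‖ξ'‖) ^ 2 := by
      refine h3.trans ?_
      calc (L : ℝ) ^ 2 * ∑ n ∈ range L, ∑ m ∈ range L,
          ‖(inner ℂ (BT.pw U n ξ') (BT.pw U m ξ') : ℂ)‖ ^ 2 ≤ (L : ℝ) ^ 2 * ((τ * L) ^ 2 * ‖ξ'‖ ^ 2) := by
            gcongr
        _ = _ := by ring
    exact le_of_sq_le_sq h4 (by positivity)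
  refine ContinuousLinearMap.opNorm_le_bound _ (by positivity) fun h => ?_
  have e1 : (qq s * ∑ l ∈ range L, c l • (BT.pw U l * ro ξ η * BT.pw U (-(l : ℤ)))) h =
      ∑ l ∈ range L, (c l * inner ℂ (BT.pw U l η) h) • BT.pw U l ξ' := by
    rw [ContinuousLinearMap.mul_apply, ContinuousLinearMap.sum_apply, map_sum]
    refine sum_congr rfl fun l _ => ?_
    rw [ContinuousLinearMap.smul_apply, map_smul, ContinuousLinearMap.mul_apply,
      ContinuousLinearMap.mul_apply, ro_apply, map_smul, map_smul, smul_smul, qq_comm hs]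
    congr 2
    have h5 := inner_pw U l 0 η h
    rw [pw_zero, ContinuousLinearMap.one_apply] at h5
    rw [h5]
    congr 2
    ring
  rw [e1]
  have h6 : ‖∑ l ∈ range L, (c l * inner ℂ (BT.pw U l η) h) • BT.pw U l ξ'‖ ^ 2 ≤
      (ε * L * ‖h‖) ^ 2 := by
    have h7 : ((‖∑ l ∈ range L, (c l * inner ℂ (BT.pw U l η) h) • BT.pw U l ξ'‖ ^ 2 : ℝ) : ℂ) =
        inner ℂ (∑ l ∈ range L, (c l * inner ℂ (BT.pw U l η) h) • BT.pw U l ξ')
          (∑ l ∈ range L, (c l * inner ℂ (BT.pw U l η) h) • BT.pw U l ξ') := by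
      rw [inner_self_eq_norm_sq_to_K]
      push_cast
      rfl
    have h8 : ‖∑ l ∈ range L, (c l * inner ℂ (BT.pw U l η) h) • BT.pw U l ξ'‖ ^ 2 =
        ‖(inner ℂ (∑ l ∈ range L, (c l * inner ℂ (BT.pw U l η) h) • BT.pw U l ξ')
          (∑ l ∈ range L, (c l * inner ℂ (BT.pw U l η) h) • BT.pw U l ξ') : ℂ)‖ := by
      rw [← h7, Complex.norm_real, Real.norm_of_nonneg (by positivity)]
    rw [h8, sum_inner]
    have hb : ∀ l, ‖c l * inner ℂ (BT.pw U l η) h‖ ≤ ‖η‖ * ‖h‖ := by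
      intro l
      rw [norm_mul]
      calc ‖c l‖ * ‖(inner ℂ (BT.pw U l η) h : ℂ)‖ ≤ 1 * (‖BT.pw U l η‖ * ‖h‖) :=
            mul_le_mul (hc l) (norm_inner_le_norm _ _) (norm_nonneg _) zero_le_one
        _ = ‖η‖ * ‖h‖ := by rw [norm_pw, one_mul]
    calc ‖∑ n ∈ range L, inner ℂ ((c n * inner ℂ (BT.pw U n η) h) • BT.pw U n ξ')
          (∑ l ∈ range L, (c l * inner ℂ (BT.pw U l η) h) • BT.pw U l ξ')‖
        ≤ ∑ n ∈ range L, ∑ m ∈ range L, (‖η‖ * ‖h‖) * (‖η‖ * ‖h‖) *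
            ‖(inner ℂ (BT.pw U n ξ') (BT.pw U m ξ') : ℂ)‖ := by
          refine (norm_sum_le _ _).trans (sum_le_sum fun n _ => ?_)
          rw [inner_sum]
          refine (norm_sum_le _ _).trans (sum_le_sum fun m _ => ?_)
          rw [inner_smul_left, inner_smul_right, norm_mul, norm_mul, RCLike.norm_conj, ← mul_assoc]
          exact mul_le_mul_of_nonneg_right (mul_le_mul (hb n) (hb m) (norm_nonneg _)
            (by positivity)) (norm_nonneg _)
      _ = (‖η‖ * ‖h‖) * (‖η‖ * ‖h‖) * ∑ n ∈ range L, ∑ m ∈ range L,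
            ‖(inner ℂ (BT.pw U n ξ') (BT.pw U m ξ') : ℂ)‖ := by
          rw [mul_sum]
          refine sum_congr rfl fun n _ => ?_
          rw [mul_sum]
      _ ≤ (‖η‖ * ‖h‖) * (‖η‖ * ‖h‖) * (τ * L ^ 2 * ‖ξ‖) := by
          gcongr
          exact h2.trans (by gcongr; exact qq_norm_le s ξ)
      _ = (‖η‖ ^ 2 * ‖ξ‖) * τ * (L * ‖h‖) ^ 2 := by ring
      _ ≤ ε ^ 2 * (L * ‖h‖) ^ 2 := by
          have h9 : (‖η‖ ^ 2 * ‖ξ‖) * τ ≤ ε ^ 2 := by
            rw [hτ, hD]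
            have : ‖η‖ ^ 2 * ‖ξ‖ * (2 * (ε ^ 2 / (2 * (‖η‖ ^ 2 * ‖ξ‖ + 1)))) =
                ε ^ 2 * ((‖η‖ ^ 2 * ‖ξ‖) / (‖η‖ ^ 2 * ‖ξ‖ + 1)) := by
              field_simp
            rw [this]
            have h10 : (‖η‖ ^ 2 * ‖ξ‖) / (‖η‖ ^ 2 * ‖ξ‖ + 1) ≤ 1 := by
              rw [div_le_one (by positivity)]
              linarith
            exact mul_le_of_le_one_right (by positivity) h10
          gcongr
      _ = (ε * L * ‖h‖) ^ 2 := by ring
  exact le_of_sq_le_sq h6 (by positivity)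

end

end Pool.Agent.X188.SC
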