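import Pool.Agent.X188.SCD

/-! The recurrent case. -/

set_option autoImplicit false
set_option linter.unusedSectionVars false
set_option linter.deprecated false

open Finset Filter Topology

namespace Pool.Agent.X188.SC

open Pool.Agent.X188.BT

universe u

section kill

variable {A C : Type*} [NonUnitalCStarAlgebra A] [NonUnitalCStarAlgebra C]

/-- the part of `x⋆x` above `D²` -/
noncomputable def cut (D : ℝ) (x : A) : A := cfcₙ (fun t : ℝ => max (t - D ^ 2) 0) (star x * x)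

open CStarAlgebra in
theorem cut_kill (φ : A →⋆ₙₐ[ℂ] C) (x : A) (D : ℝ) (h : ‖φ x‖ ≤ D) : φ (cut D x) = 0 := by
  set T : A := star x * x with hT
  have hTsa : IsSelfAdjoint T := IsSelfAdjoint.star_mul_self x
  let f : ℝ → ℝ := fun t => max (t - D ^ 2) 0
  have hf : Continuous f := by fun_prop
  have hf0 : f 0 = 0 := by
    simp only [f, zero_sub, max_eq_right_iff, Left.neg_nonpos_iff]
    positivity
  have hTi : IsSelfAdjoint (φ T) := hTsa.map φ
  have h2 : φ (cfcₙ f T) = cfcₙ f (φ T) := by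
    exact NonUnitalStarAlgHomClass.map_cfcₙ φ f T (hf.continuousOn) hf0 (map_continuous φ)
      hTsa hTi
  show φ (cfcₙ f T) = 0
  rw [h2, ← norm_le_zero_iff]
  refine norm_cfcₙ_le fun t ht => ?_
  have h3 : ‖t‖ ≤ ‖φ T‖ := by
    have h4 := norm_apply_le_norm_cfcₙ (fun t : ℝ => t) (φ T) ht
    rwa [cfcₙ_id' ℝ (φ T)] at h4
  have h5 : ‖φ T‖ ≤ D ^ 2 := by
    rw [hT, map_mul, map_star, CStarRing.norm_star_mul_self, sq]
    exact mul_self_le_mul_self (norm_nonneg _) h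
  have h6 : t ≤ D ^ 2 := (le_abs_self t).trans (h3.trans h5)
  simp only [f]
  rw [max_eq_right (by linarith), norm_zero]

open CStarAlgebra in
theorem cut_back (x : A) (D : ℝ) (hD : 0 ≤ D) (h : cut D x = 0) : ‖x‖ ≤ D := by
  let _ : PartialOrder A := CStarAlgebra.spectralOrder A
  let _ : StarOrderedRing A := CStarAlgebra.spectralOrderedRing A
  set T : A := star x * x with hT
  have hTsa : IsSelfAdjoint T := IsSelfAdjoint.star_mul_self x
  let f : ℝ → ℝ := fun t => max (t - D ^ 2) 0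
  have hf : Continuous f := by fun_prop
  have hf0 : f 0 = 0 := by
    simp only [f, zero_sub, max_eq_right_iff, Left.neg_nonpos_iff]
    positivity
  have h1 : cfcₙ f T = 0 := h
  have h2 : ‖T‖ ≤ D ^ 2 := by
    have h3 : ‖cfcₙ (fun t : ℝ => t) T‖ ≤ D ^ 2 := by
      refine norm_cfcₙ_le fun t ht => ?_
      have h4 := norm_apply_le_norm_cfcₙ f T ht
      rw [h1, norm_zero, norm_le_zero_iff] at h4
      have h5 : t - D ^ 2 ≤ 0 := by
        have := le_max_left (t - D ^ 2) 0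
        simp only [f] at h4
        linarith
      have h6 : 0 ≤ t := quasispectrum_nonneg_of_nonneg T (star_mul_self_nonneg x) t ht
      rw [Real.norm_eq_abs, abs_of_nonneg h6]
      linarith
    rwa [cfcₙ_id' ℝ T] at h3
  rw [hT, CStarRing.norm_star_mul_self, ← sq] at h2
  exact le_of_sq_le_sq h2 hD

end kill

section

variable {B : Type u} [CStarAlgebra B]
variable {H : Type u} [NormedAddCommGroup H] [InnerProductSpace ℂ H] [CompleteSpace H]

/-- the implementation of an automorphism which does not move `e` out of the block -/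
theorem exists_impl {e : B} (he : MinP e) (he0 : e ≠ 0) (π : B →⋆ₐ[ℂ] (H →L[ℂ] H)) (Ω : H)
    (hΩ : ‖Ω‖ = 1) (hπe : π e = ro Ω Ω) (hd : DenseRange (fun b => π b Ω))
    (hn : ∀ b, ‖π b Ω‖ = ‖b * e‖) (β : B ≃⋆ₐ[ℂ] B) (hβ : π (β e) ≠ 0) :
    ∃ V : unitary (H →L[ℂ] H), ∀ y, π (β y) = pw V 1 * π y * pw V (-1) := by
  obtain ⟨ζ, hζ, hp, x₀, hx₀⟩ := rank_one π Ω hΩ hπe hd (he.al β) hβ
  let g : B →ₗ[ℂ] H :=
    { toFun := fun b => π b Ω
      map_add' := fun a b => by rw [map_add]; rfl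
      map_smul' := fun c a => by rw [map_smul]; rfl }
  let f : B →ₗ[ℂ] H :=
    { toFun := fun b => π (β b) ζ
      map_add' := fun a b => by rw [map_add, map_add]; rfl
      map_smul' := fun c a => by rw [map_smul, map_smul]; rfl }
  have hζ2 : (inner ℂ ζ ζ : ℂ) = 1 := by
    rw [inner_self_eq_norm_sq_to_K, hζ]
    norm_num
  have hn' : ∀ b, ‖f b‖ = ‖g b‖ := by
    intro b
    have h1 := ph_spec he (star b * b)
    have h2 := congrArg (fun y => π (β y)) h1
    simp only [map_mul, map_smul] at h2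
    rw [hp] at h2
    have h3 := congrArg (fun T : H →L[ℂ] H => (inner ℂ ζ (T ζ) : ℂ)) h2
    have h4 : (inner ℂ ζ ((ro ζ ζ * (π (β (star b)) * π (β b)) * ro ζ ζ) ζ) : ℂ) =
        ((‖f b‖ ^ 2 : ℝ) : ℂ) := by
      have e1 : (ro ζ ζ * (π (β (star b)) * π (β b)) * ro ζ ζ) ζ =
          ro ζ ζ (π (β (star b)) (π (β b) (ro ζ ζ ζ))) := rfl
      rw [e1, ro_apply ζ ζ ζ, hζ2, one_smul, ro_apply, inner_smul_right, hζ2, mul_one,
        map_star, map_star, ContinuousLinearMap.star_eq_adjoint,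
        ContinuousLinearMap.adjoint_inner_right, inner_self_eq_norm_sq_to_K]
      push_cast
      rfl
    have h5 : (inner ℂ ζ ((ph he (star b * b) • ro ζ ζ) ζ) : ℂ) = ph he (star b * b) := by
      have e1 : (ph he (star b * b) • ro ζ ζ) ζ = ph he (star b * b) • ro ζ ζ ζ := rfl
      rw [e1, ro_apply, hζ2, one_smul, inner_smul_right, hζ2, mul_one]
    have h6 : ((‖f b‖ ^ 2 : ℝ) : ℂ) = ((‖b * e‖ ^ 2 : ℝ) : ℂ) := by
      rw [← h4, ← ph_star_mul he he0, ← h5]
      exact h3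
    have h7 : ‖f b‖ ^ 2 = ‖b * e‖ ^ 2 := by exact_mod_cast h6
    have h8 : ‖g b‖ = ‖b * e‖ := hn b
    rw [h8]
    exact (sq_eq_sq₀ (norm_nonneg _) (norm_nonneg _)).1 h7
  have hfd : DenseRange f := by
    refine hd.mono ?_
    rintro _ ⟨b, rfl⟩
    refine ⟨β.symm (b * x₀), ?_⟩
    show π (β (β.symm (b * x₀))) ζ = π b Ω
    rw [β.apply_symm_apply, map_mul, ContinuousLinearMap.mul_apply, hx₀]
  obtain ⟨V, hV⟩ := exists_unitary g f hn' hd hfd
  refine ⟨V, fun y => ?_⟩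
  have hV1 : pw V 1 = (V : H →L[ℂ] H) := by
    unfold pw
    rw [zpow_one]
  have h1 : ∀ h : H, pw V 1 (π y h) = π (β y) (pw V 1 h) := by
    have h2 : (fun h => pw V 1 (π y h)) = fun h => π (β y) (pw V 1 h) := by
      refine hd.equalizer (by fun_prop) (by fun_prop) (funext fun b => ?_)
      simp only [Function.comp]
      have e1 : π y (π b Ω) = g (y * b) := by
        show π y (π b Ω) = π (y * b) Ω
        rw [map_mul]; rfl
      have e2 : π b Ω = g b := rfl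
      rw [e1, e2, hV1, hV, hV]
      show π (β (y * b)) ζ = π (β y) (π (β b) ζ)
      rw [map_mul, map_mul]; rfl
    exact fun h => congrFun h2 h
  have h3 : pw V 1 * π y = π (β y) * pw V 1 := by
    ext h
    exact h1 h
  rw [h3, mul_assoc, ← pw_add, add_neg_cancel, pw_zero, mul_one]

theorem impl_int {π : B →⋆ₐ[ℂ] (H →L[ℂ] H)} {β : B ≃⋆ₐ[ℂ] B} {V : unitary (H →L[ℂ] H)}
    (h : ∀ y, π (β y) = pw V 1 * π y * pw V (-1)) (l : ℤ) (y : B) :
    π ((β ^ l) y) = pw V l * π y * pw V (-l) := by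
  have hb1 : ∀ z, (β ^ (1 : ℤ)) z = β z := fun z => by rw [zpow_one]
  induction l using Int.induction_on with
  | zero => rw [al_zero, neg_zero, pw_zero, one_mul, mul_one]
  | succ n ih =>
    have e1 : (n : ℤ) + 1 = 1 + n := by ring
    rw [e1, al_add, hb1, h, ih, pw_add]
    have e2 : -(1 + (n : ℤ)) = -n + -1 := by ring
    rw [e2, pw_add]
    simp only [mul_assoc]
  | pred n ih =>
    have h1 : π ((β ^ (-(n : ℤ))) y) = pw V 1 * π ((β ^ (-(n : ℤ) - 1)) y) * pw V (-1) := by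
      rw [← h, ← hb1, ← al_add]
      congr 3
      ring
    rw [ih] at h1
    have h2 : pw V (-1) * (pw V (-n) * π y * pw V (- -n)) * pw V 1 = π ((β ^ (-(n : ℤ) - 1)) y) := by
      rw [h1]
      calc pw V (-1) * (pw V 1 * π ((β ^ (-(n : ℤ) - 1)) y) * pw V (-1)) * pw V 1
          = (pw V (-1) * pw V 1) * π ((β ^ (-(n : ℤ) - 1)) y) * (pw V (-1) * pw V 1) := by
            simp only [mul_assoc]
        _ = _ := by
            rw [← pw_add, neg_add_cancel, pw_zero, one_mul, mul_one]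
    rw [← h2]
    have e1 : (-(n : ℤ) - 1) = -1 + -n := by ring
    have e2 : -(-(n : ℤ) - 1) = - -n + 1 := by ring
    rw [e2, e1, pw_add, pw_add]
    simp only [mul_assoc]

theorem norm_conj_pw (V : unitary (H →L[ℂ] H)) (l : ℤ) (T : H →L[ℂ] H) :
    ‖pw V l * T * pw V (-l)‖ ≤ ‖T‖ := by
  have h1 : ∀ j : ℤ, ‖pw V j‖ ≤ 1 := fun j =>
    ContinuousLinearMap.opNorm_le_bound _ zero_le_one fun x => by rw [norm_pw, one_mul]
  calc ‖pw V l * T * pw V (-l)‖ ≤ ‖pw V l‖ * ‖T‖ * ‖pw V (-l)‖ :=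
        (norm_mul_le _ _).trans (mul_le_mul_of_nonneg_right (norm_mul_le _ _) (norm_nonneg _))
    _ ≤ 1 * ‖T‖ * 1 := by
        gcongr
        · exact h1 _
        · exact h1 _
    _ = ‖T‖ := by ring

theorem Small.smul {U : unitary (H →L[ℂ] H)} {s : Finset H} {κ : H →L[ℂ] H} {ε : ℝ} (a : ℂ)
    (h : Small U s κ ε) : Small U s (a • κ) (‖a‖ * ε) := by
  obtain ⟨L₀, h⟩ := h
  refine ⟨L₀, fun L hL c hc => ?_⟩
  have e1 : ∑ l ∈ range L, c l • (pw U l * (a • κ) * pw U (-(l : ℤ))) =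
      a • ∑ l ∈ range L, c l • (pw U l * κ * pw U (-(l : ℤ))) := by
    rw [smul_sum]
    refine sum_congr rfl fun l _ => ?_
    rw [mul_smul_comm, smul_mul_assoc, smul_comm]
  rw [e1, mul_smul_comm, norm_smul, mul_assoc]
  exact mul_le_mul_of_nonneg_left (h L hL c hc) (norm_nonneg _)

/-- the orbit sums are small off the span of finitely many eigenvectors -/
def PS (U : unitary (H →L[ℂ] H)) (T : H →L[ℂ] H) : Prop :=
  ∀ ε : ℝ, 0 < ε → ∃ s : Finset H, (∀ f ∈ s, Eig U f) ∧ Small U s T ε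

theorem PS_zero (U : unitary (H →L[ℂ] H)) : PS U 0 := by
  intro ε hε
  refine ⟨∅, by simp, 0, fun L _ c _ => ?_⟩
  simp only [mul_zero, zero_mul, smul_zero, sum_const_zero, norm_zero]
  positivity

theorem PS.add {U : unitary (H →L[ℂ] H)} {T S : H →L[ℂ] H} (hT : PS U T) (hS : PS U S) :
    PS U (T + S) := by
  classical
  intro ε hε
  obtain ⟨s, hs, h1⟩ := hT (ε / 2) (by positivity)
  obtain ⟨t, ht, h2⟩ := hS (ε / 2) (by positivity)
  refine ⟨s ∪ t, fun f hf => ?_, ?_⟩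
  · rcases mem_union.1 hf with h | h
    · exact hs f h
    · exact ht f h
  · exact ((h1.mono subset_union_left).add (h2.mono subset_union_right)).le (by linarith)

theorem PS.smul {U : unitary (H →L[ℂ] H)} {T : H →L[ℂ] H} (a : ℂ) (hT : PS U T) :
    PS U (a • T) := by
  intro ε hε
  obtain ⟨s, hs, h1⟩ := hT (ε / (‖a‖ + 1)) (by positivity)
  refine ⟨s, hs, (h1.smul a).le ?_⟩
  rw [mul_div_assoc', div_le_iff₀ (by positivity)]
  nlinarith [norm_nonneg a]

theorem PS_common (U : unitary (H →L[ℂ] H)) {ι : Type*} (I : Finset ι) (T : ι → H →L[ℂ] H)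
    (h : ∀ i ∈ I, PS U (T i)) (ε : ℝ) (hε : 0 < ε) :
    ∃ s : Finset H, (∀ f ∈ s, Eig U f) ∧ ∃ L₀ : ℕ, ∀ i ∈ I, ∀ L ≥ L₀, ∀ c : ℕ → ℂ,
      (∀ l, ‖c l‖ ≤ 1) →
        ‖qq s * ∑ l ∈ range L, c l • (pw U l * T i * pw U (-(l : ℤ)))‖ ≤ ε * L := by
  classical
  induction I using Finset.induction_on with
  | empty => exact ⟨∅, by simp, 0, by simp⟩
  | insert a I _ ih =>
    obtain ⟨s, hs, L₀, h1⟩ := ih fun i hi => h i (mem_insert_of_mem hi)
    obtain ⟨t, ht, h2⟩ := h a (mem_insert_self _ _) ε hε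
    obtain ⟨L₁, h3⟩ := h2.mono (subset_union_right (s₁ := s))
    refine ⟨s ∪ t, fun f hf => ?_, max L₀ L₁, fun i hi L hL c hc => ?_⟩
    · rcases mem_union.1 hf with h | h
      · exact hs f h
      · exact ht f h
    · rcases mem_insert.1 hi with rfl | hi
      · exact h3 L (le_trans (le_max_right _ _) hL) c hc
      · rw [← qq_mul s (s ∪ t) subset_union_left, mul_assoc]
        refine (ContinuousLinearMap.opNorm_comp_le _ _).trans ?_
        have h4 : ‖qq (s ∪ t)‖ ≤ 1 := ContinuousLinearMap.opNorm_le_bound _ zero_le_one fun x => by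
          rw [one_mul]; exact qq_norm_le _ x
        exact (mul_le_of_le_one_left (norm_nonneg _) h4).trans
          (h1 i hi L (le_trans (le_max_left _ _) hL) c hc)

/-- the elements of the ideal have small orbit sums -/
theorem PS_Mo {e : B} (he : MinP e) (π : B →⋆ₐ[ℂ] (H →L[ℂ] H)) (Ω : H)
    (hΩ : ‖Ω‖ = 1) (hπe : π e = ro Ω Ω) (hd : DenseRange (fun b => π b Ω)) (α : B ≃⋆ₐ[ℂ] B)
    (U : unitary (H →L[ℂ] H)) {κ : B} (hκ : κ ∈ Mo α e) : PS U (π κ) := by
  unfold Mo at hκ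
  induction hκ using Submodule.span_induction with
  | mem y hy =>
    obtain ⟨k, b, b', rfl⟩ := hy
    by_cases h0 : π ((α ^ k) e) = 0
    · rw [map_mul, map_mul, h0, mul_zero, zero_mul]
      exact PS_zero U
    · obtain ⟨ζ, _, hp, _⟩ := rank_one π Ω hΩ hπe hd (he.al (α ^ k)) h0
      rw [map_mul, map_mul, hp, mul_ro, ro_mul]
      exact fun ε hε => ro_small U _ _ ε hε
  | zero => rw [map_zero]; exact PS_zero U
  | add y z _ _ h1 h2 => rw [map_add]; exact h1.add h2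
  | smul c y _ h1 => rw [map_smul]; exact h1.smul c

/-- the norm formula -/
theorem norm_formula {B' : Type u} [CStarAlgebra B'] {e : B} (π : B →⋆ₐ[ℂ] (H →L[ℂ] H)) (Ω : H)
    (hn : ∀ b, ‖π b Ω‖ = ‖b * e‖) (α : B ≃⋆ₐ[ℂ] B) (q : B →⋆ₐ[ℂ] B')
    (hq : ∀ y, q y = 0 → y ∈ Dd α e) (y : B) (M : ℝ) (hM : 0 ≤ M)
    (h1 : ∀ k : ℤ, ‖π ((α ^ k) y)‖ ≤ M) (h2 : ‖q y‖ ≤ M) : ‖y‖ ≤ M := by
  refine cut_back y M hM ?_
  set z := cut M y with hz
  have hq0 : q z = 0 := cut_kill (q : B →⋆ₙₐ[ℂ] B') y M h2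
  have hπ0 : ∀ k : ℤ, π ((α ^ k) z) = 0 := by
    intro k
    exact cut_kill ((π.comp ((α ^ k : B ≃⋆ₐ[ℂ] B) : B →⋆ₐ[ℂ] B) : B →⋆ₐ[ℂ] (H →L[ℂ] H)) :
      B →⋆ₙₐ[ℂ] (H →L[ℂ] H)) y M (h1 k)
  have hzD : z ∈ Dd α e := hq z hq0
  have h3 : ∀ (k : ℤ) (b : B), z * (b * (α ^ k) e) = 0 := by
    intro k b
    have h4 : ‖(α ^ (-k)) (z * b) * e‖ = 0 := by
      rw [← hn, map_mul, map_mul, hπ0, zero_mul]
      simp
    rw [norm_eq_zero] at h4
    have h5 := congrArg (fun w => (α ^ k) w) h4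
    simp only [map_mul, map_zero] at h5
    rw [al_inv', al_inv'] at h5
    rw [← mul_assoc]
    exact h5
  have h4 : ∀ w ∈ Mo α e, z * w = 0 := by
    intro w hw
    unfold Mo at hw
    induction hw using Submodule.span_induction with
    | mem w hw =>
      obtain ⟨k, b, b', rfl⟩ := hw
      rw [← mul_assoc, h3, zero_mul]
    | zero => rw [mul_zero]
    | add v w _ _ h5 h6 => rw [mul_add, h5, h6, add_zero]
    | smul c v _ h5 => rw [mul_smul_comm, h5, smul_zero]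
  have h5 : ∀ w ∈ Dd α e, z * w = 0 := by
    intro w hw
    have hcl : IsClosed {w : B | z * w = 0} := isClosed_eq (by fun_prop) continuous_const
    exact closure_minimal (fun w hw => h4 w hw) hcl hw
  have h6 : z * star z = 0 := h5 _ (star_mem _ hzD)
  exact CStarRing.mul_star_self_eq_zero_iff z |>.1 h6

theorem sum_mP {M : Type*} [AddCommMonoid M] (m P : ℕ) (g : ℕ → M) :
    ∑ j ∈ range (m * P), g j = ∑ r ∈ range m, ∑ l ∈ range P, g (r + m * l) := by
  induction P with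
  | zero => simp
  | succ P ih =>
    rw [Nat.mul_succ, sum_range_add, ih]
    simp only [sum_range_succ, sum_add_distrib]
    congr 1
    refine sum_congr rfl fun r _ => ?_
    rw [add_comm]

theorem conj_sum {π : B →⋆ₐ[ℂ] (H →L[ℂ] H)} {α : B ≃⋆ₐ[ℂ] B} {V : unitary (H →L[ℂ] H)} {m : ℕ}
    (hV : ∀ (l : ℤ) y, π (((α ^ m) ^ l) y) = pw V l * π y * pw V (-l)) (k P : ℕ) (c : ℕ → ℂ) (y : B) :
    π ((α ^ k) (∑ j ∈ range (m * P), c j • (α ^ j) y)) =
      ∑ r ∈ range m, ∑ l ∈ range P, c (r + m * l) •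
        (pw V l * π ((α ^ (k + r)) y) * pw V (-(l : ℤ))) := by
  rw [sum_mP, map_sum, map_sum]
  refine sum_congr rfl fun r _ => ?_
  rw [map_sum, map_sum]
  refine sum_congr rfl fun l _ => ?_
  rw [map_smul, map_smul, ← hV]
  congr 2
  have e1 : (α ^ k) ((α ^ (r + m * l)) y) = (α ^ (k + (r + m * l))) y := by
    rw [pow_add α k]; rfl
  have e2 : (((α ^ m) ^ (l : ℤ)) ((α ^ (k + r)) y)) = (α ^ (m * l + (k + r))) y := by
    rw [zpow_natCast, ← pow_mul, pow_add α (m * l)]; rfl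
  rw [e1, e2]
  congr 2
  ring

end

end Pool.Agent.X188.SC
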