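import Pool.Agent.X188.SCF

/-! The lifting lemma for the ideal generated by the orbit of a minimal projection. -/

set_option autoImplicit false
set_option linter.unusedSectionVars false
set_option linter.deprecated false

open Finset Filter Topology

namespace Pool.Agent.X188.SC

open Pool.Agent.X188.BT

universe u

section

variable {B : Type u} [CStarAlgebra B]
variable {H : Type u} [NormedAddCommGroup H] [InnerProductSpace ℂ H] [CompleteSpace H]

theorem norm_hom {A C : Type*} [CStarAlgebra A] [CStarAlgebra C] (φ : A →⋆ₐ[ℂ] C) (x : A) :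
    ‖φ x‖ ≤ ‖x‖ := NonUnitalStarAlgHom.norm_apply_le φ x

theorem norm_pp (s : Finset H) (T : H →L[ℂ] H) : ‖T‖ ≤ ‖pp s * T‖ + ‖qq s * T‖ := by
  have e : T = pp s * T + qq s * T := by
    rw [← add_mul]
    unfold qq
    rw [add_sub_cancel, one_mul]
  conv_lhs => rw [e]
  exact norm_add_le _ _

theorem norm_qq (s : Finset H) (T : H →L[ℂ] H) : ‖qq s * T‖ ≤ ‖T‖ := by
  refine (ContinuousLinearMap.opNorm_comp_le _ _).trans ?_
  have h4 : ‖qq s‖ ≤ 1 := ContinuousLinearMap.opNorm_le_bound _ zero_le_one fun x => by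
    rw [one_mul]; exact qq_norm_le _ x
  exact mul_le_of_le_one_left (norm_nonneg _) h4

theorem aux_card (a m ε L P : ℝ) (ha : 0 ≤ a) (hm : 0 ≤ m) (hε : 0 ≤ ε) (hL : 0 ≤ L) (hP : 0 ≤ P) :
    a * (m * (ε * L / (2 * (a + 1)) * P)) ≤ ε / 2 * (m * P) * L := by
  have e1 : a * (m * (ε * L / (2 * (a + 1)) * P)) = (a / (a + 1)) * (ε / 2 * (m * P) * L) := by
    have : a + 1 ≠ 0 := by positivity
    field_simp
  rw [e1]
  have e2 : a / (a + 1) ≤ 1 := by
    rw [div_le_one (by positivity)]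
    linarith
  exact mul_le_of_le_one_left (by positivity) e2

/-- the key estimate in the recurrent case -/
theorem lift_rec {f : ℕ → ℂ} (hf : ShortUniform f) (α : B ≃⋆ₐ[ℂ] B) {e : B} (he : MinP e)
    (π : B →⋆ₐ[ℂ] (H →L[ℂ] H)) (Ω : H) (hΩ : ‖Ω‖ = 1) (hπe : π e = ro Ω Ω)
    (hd : DenseRange (fun b => π b Ω)) (hn : ∀ b, ‖π b Ω‖ = ‖b * e‖) (m : ℕ) (hm : 0 < m)
    (V : unitary (H →L[ℂ] H)) (hV : ∀ (l : ℤ) y, π (((α ^ m) ^ l) y) = pw V l * π y * pw V (-l))
    (x : B) (c : ℝ) (hc : 0 ≤ c)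
    (h : ML (fun y => Metric.infDist y (Dd α e : Set B)) f α x c) :
    ML (fun y => ‖y‖) f α x c := by
  classical
  refine ML_of (fun y => Metric.infDist_nonneg) α x c hc h fun L hL ε hε => ?_
  obtain ⟨K, Z, κ, hKM, hdec⟩ := win_dec hf.bdd α x L (Mo α e) ε hε
  have hLr : (0 : ℝ) < L := by exact_mod_cast hL
  have hmr : (0 : ℝ) < m := by exact_mod_cast hm
  set ε₂ : ℝ := ε * L / (2 * (K.card + 1)) with hε2
  have hε2p : 0 < ε₂ := by positivity
  -- common finite set of eigenvectors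
  obtain ⟨s, hs, L₀, hL₀⟩ := PS_common V (K ×ˢ range (2 * m)) (fun p => π ((α ^ p.2) p.1))
    (fun p hp => PS_Mo he π Ω hΩ hπe hd α V (by
      rw [mem_product] at hp
      have := Mo_al α e (p.2 : ℤ) (hKM _ hp.1)
      rwa [al_nat] at this)) ε₂ hε2p
  -- the quotient by the ideal
  obtain ⟨B', _, q, _, hq, _⟩ := exists_quotient (Dd α e)
  obtain ⟨P₁, hP₁⟩ := exists_nat_ge (4 * L * ‖x‖ / ε)
  set G : ℕ → ℕ → ℕ → ℕ → ℝ := fun k r P n => ‖pp s * ∑ l ∈ range P, f (n + r + m * l) •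
    (pw V l * π ((α ^ (k + r)) x) * pw V (-(l : ℤ)))‖ with hG
  refine ⟨m, max L₀ P₁, fun P n => ∑ k ∈ range m, ∑ r ∈ range m, G k r P n, hm, ?_, fun P hP n => ?_⟩
  · exact Neg.sum (range m) fun k _ => Neg.sum (range m) fun r _ =>
      pp_neg hf V (π ((α ^ (k + r)) x)) m hm r s hs
  have hPL : L₀ ≤ P := le_trans (le_max_left _ _) hP
  have hPP : P₁ ≤ P := le_trans (le_max_right _ _) hP
  have hG0 : ∀ k r P n, 0 ≤ G k r P n := fun k r P n => norm_nonneg _
  set R := m * P with hR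
  set X := win f α x n R with hX
  set SZ : B := ∑ i ∈ range R, (α ^ i) (Z (n + i)) with hSZ
  set SK : B := ∑ i ∈ range R, (α ^ i) (κ (n + i)) with hSK
  set E : B := ∑ i ∈ range R, (α ^ i) (win f α x (n + i) L) - (L : ℂ) • X with hE
  set DD : ℝ := ∑ i ∈ range R, (Metric.infDist (win f α x (n + i) L) (Dd α e : Set B) + ε) with hDD
  have hDD0 : 0 ≤ DD := sum_nonneg fun i _ => by
    have := Metric.infDist_nonneg (x := win f α x (n + i) L) (s := (Dd α e : Set B))
    linarith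
  have hEn : ‖E‖ ≤ 2 * L ^ 2 * ‖x‖ := win_split hf.bdd α x n L R
  have h2 : ∑ i ∈ range R, (α ^ i) (win f α x (n + i) L) = SZ + SK := by
    rw [hSZ, hSK, ← sum_add_distrib]
    refine sum_congr rfl fun i _ => ?_
    conv_lhs => rw [(hdec (n + i)).1]
    rw [map_add]
  have hLX : (L : ℂ) • X = SZ + SK - E := by
    rw [hE, ← h2]; abel
  have hSZn : ‖SZ‖ ≤ DD := by
    refine (norm_sum_le _ _).trans (sum_le_sum fun i _ => ?_)
    rw [norm_al, infDist_Dd]
    exact (hdec (n + i)).2.2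
  have hSKD : SK ∈ Dd α e := by
    rw [hSK]
    refine Ideal.sum_mem _ fun i _ => ?_
    rw [← al_nat]
    exact Dd_al α e _ (Mo_sub_Dd (hKM _ (hdec (n + i)).2.1))
  have hfin : 2 * L * ‖x‖ ≤ ε / 2 * R := by
    have h1 : 4 * L * ‖x‖ / ε ≤ P := hP₁.trans (by exact_mod_cast hPP)
    rw [div_le_iff₀ hε] at h1
    have h3 : (P : ℝ) ≤ R := by
      rw [hR]
      exact_mod_cast Nat.le_mul_of_pos_left P hm
    nlinarith
  -- the quotient
  have hqX : L * ‖q X‖ ≤ DD + 2 * L ^ 2 * ‖x‖ := by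
    have e1 : (L : ℂ) • q X = q SZ - q E := by
      rw [← map_smul, hLX, map_sub, map_add, (hq SK).2 hSKD, add_zero]
    have e2 : L * ‖q X‖ = ‖(L : ℂ) • q X‖ := by rw [norm_smul, Complex.norm_natCast]
    rw [e2, e1]
    refine (norm_sub_le _ _).trans ?_
    have e3 := norm_hom q SZ
    have e4 := norm_hom q E
    linarith
  -- the representation
  have hπX : ∀ k, k < m → L * ‖π ((α ^ k) X)‖ ≤ DD + 2 * L ^ 2 * ‖x‖ + K.card * (m * (ε₂ * P)) +
      L * ∑ r ∈ range m, G k r P n := by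
    intro k hk
    have e1 : ‖pp s * π ((α ^ k) X)‖ ≤ ∑ r ∈ range m, G k r P n := by
      rw [hX, hR]
      unfold win
      rw [conj_sum hV k P (fun i => f (n + i)) x, mul_sum]
      refine (norm_sum_le _ _).trans (sum_le_sum fun r _ => le_of_eq ?_)
      rw [hG]
      simp only
      congr 3
      funext l
      rw [add_assoc]
    have e2 : ‖qq s * π ((α ^ k) SK)‖ ≤ K.card * (m * (ε₂ * P)) := by
      have g1 : SK = ∑ y ∈ K, ∑ i ∈ range R, (if κ (n + i) = y then (1 : ℂ) else 0) • (α ^ i) y := by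
        rw [hSK, group_sum α K (fun i => κ (n + i)) (fun i => (hdec _).2.1) (fun i y => (α ^ i) y) R]
        refine sum_congr rfl fun y _ => sum_congr rfl fun i _ => ?_
        rw [ite_smul, one_smul, zero_smul]
      rw [g1, map_sum, map_sum, mul_sum]
      refine (norm_sum_le _ _).trans ?_
      have g2 : ∀ y ∈ K, ‖qq s * π ((α ^ k) (∑ i ∈ range R,
          (if κ (n + i) = y then (1 : ℂ) else 0) • (α ^ i) y))‖ ≤ m * (ε₂ * P) := by
        intro y hy
        rw [hR, conj_sum hV k P (fun i => if κ (n + i) = y then (1 : ℂ) else 0) y, mul_sum]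
        refine (norm_sum_le _ _).trans ?_
        calc ∑ r ∈ range m, ‖qq s * ∑ l ∈ range P, (if κ (n + (r + m * l)) = y then (1 : ℂ) else 0) •
              (pw V l * π ((α ^ (k + r)) y) * pw V (-(l : ℤ)))‖ ≤ ∑ r ∈ range m, ε₂ * P := by
              refine sum_le_sum fun r hr => ?_
              exact hL₀ (y, k + r) (by
                rw [mem_product, mem_range]
                refine ⟨hy, ?_⟩
                have := mem_range.1 hr
                show k + r < 2 * m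
                omega) P hPL (fun l => if κ (n + (r + m * l)) = y then (1 : ℂ) else 0)
                (fun l => by split_ifs <;> simp)
          _ = m * (ε₂ * P) := by simp
      calc ∑ y ∈ K, ‖qq s * π ((α ^ k) (∑ i ∈ range R,
          (if κ (n + i) = y then (1 : ℂ) else 0) • (α ^ i) y))‖ ≤ ∑ y ∈ K, m * (ε₂ * P) :=
            sum_le_sum g2
        _ = K.card * (m * (ε₂ * P)) := by simp
    have e3 : L * ‖qq s * π ((α ^ k) X)‖ ≤ DD + 2 * L ^ 2 * ‖x‖ + K.card * (m * (ε₂ * P)) := by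
      have g1 : (L : ℂ) • (qq s * π ((α ^ k) X)) = qq s * π ((α ^ k) SZ) + qq s * π ((α ^ k) SK) -
          qq s * π ((α ^ k) E) := by
        rw [← mul_smul_comm, ← map_smul, ← map_smul, hLX, map_sub, map_add, map_sub, map_add,
          mul_sub, mul_add]
      have g2 : L * ‖qq s * π ((α ^ k) X)‖ = ‖(L : ℂ) • (qq s * π ((α ^ k) X))‖ := by
        rw [norm_smul, Complex.norm_natCast]
      rw [g2, g1]
      refine (norm_sub_le _ _).trans ?_
      have g3 := norm_add_le (qq s * π ((α ^ k) SZ)) (qq s * π ((α ^ k) SK))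
      have g4 : ‖qq s * π ((α ^ k) SZ)‖ ≤ ‖SZ‖ :=
        (norm_qq s _).trans ((norm_hom π _).trans (le_of_eq (norm_al _ _)))
      have g5 : ‖qq s * π ((α ^ k) E)‖ ≤ ‖E‖ :=
        (norm_qq s _).trans ((norm_hom π _).trans (le_of_eq (norm_al _ _)))
      linarith
    have e4 := norm_pp s (π ((α ^ k) X))
    have e5 : L * ‖π ((α ^ k) X)‖ ≤ L * (‖pp s * π ((α ^ k) X)‖ + ‖qq s * π ((α ^ k) X)‖) := by
      gcongr
    rw [mul_add] at e5
    have e6 : L * ‖pp s * π ((α ^ k) X)‖ ≤ L * ∑ r ∈ range m, G k r P n := by gcongr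
    linarith
  -- the bound
  set GG : ℝ := ∑ k ∈ range m, ∑ r ∈ range m, G k r P n with hGG
  have hGG0 : 0 ≤ GG := sum_nonneg fun k _ => sum_nonneg fun r _ => hG0 k r P n
  set MM : ℝ := 1 / L * DD + ε * (R : ℕ) + GG with hMM
  have hMM0 : 0 ≤ MM := by positivity
  have hKc : (K.card : ℝ) * (m * (ε₂ * P)) ≤ ε / 2 * R * L := by
    rw [hε2, hR, Nat.cast_mul]
    exact aux_card _ _ _ _ _ (Nat.cast_nonneg _) hmr.le hε.le hLr.le (Nat.cast_nonneg _)
  have hfin' : 2 * L ^ 2 * ‖x‖ ≤ ε / 2 * R * L := by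
    calc 2 * (L : ℝ) ^ 2 * ‖x‖ = L * (2 * L * ‖x‖) := by ring
      _ ≤ L * (ε / 2 * R) := by gcongr
      _ = _ := by ring
  have hMML : L * MM = DD + ε * R * L + L * GG := by
    rw [hMM]
    field_simp
  have hb1 : ∀ k, k < m → ‖π ((α ^ k) X)‖ ≤ MM := by
    intro k hk
    refine le_of_mul_le_mul_left (a := (L : ℝ)) ?_ hLr
    rw [hMML]
    have e1 : ∑ r ∈ range m, G k r P n ≤ GG :=
      single_le_sum (f := fun k => ∑ r ∈ range m, G k r P n)
        (fun k _ => sum_nonneg fun r _ => hG0 k r P n) (mem_range.2 hk)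
    have e2 : L * ∑ r ∈ range m, G k r P n ≤ L * GG := by gcongr
    have e3 := hπX k hk
    linarith
  have hb2 : ‖q X‖ ≤ MM := by
    refine le_of_mul_le_mul_left (a := (L : ℝ)) ?_ hLr
    rw [hMML]
    have e1 : 0 ≤ L * GG := by positivity
    have e2 : 0 ≤ ε / 2 * R * L := by positivity
    linarith
  have hb3 : ∀ k : ℤ, ‖π ((α ^ k) X)‖ ≤ MM := by
    intro k
    have hmz : (m : ℤ) ≠ 0 := by exact_mod_cast hm.ne'
    obtain ⟨t, ht⟩ : ∃ t : ℕ, (t : ℤ) = k % m := ⟨(k % m).toNat, Int.toNat_of_nonneg (Int.emod_nonneg k hmz)⟩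
    have htm : t < m := by
      have := Int.emod_lt_of_pos k (show (0 : ℤ) < m by exact_mod_cast hm)
      rw [← ht] at this
      exact_mod_cast this
    have e1 : (α ^ k) X = ((α ^ m) ^ (k / m)) ((α ^ t) X) := by
      rw [← al_nat α t, ← zpow_natCast α m, ← zpow_mul, ← al_add]
      congr 2
      rw [ht]
      exact (Int.mul_ediv_add_emod k m).symm
    rw [e1, hV]
    exact (norm_conj_pw V _ _).trans (hb1 t htm)
  exact norm_formula π Ω hn α q (fun y hy => (hq y).1 hy) X MM hMM0 hb3 hb2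

/-- **The lifting lemma** -/
theorem lift_min {f : ℕ → ℂ} (hf : ShortUniform f) (α : B ≃⋆ₐ[ℂ] B) {e : B} (he : MinP e)
    (he0 : e ≠ 0) (x : B) (c : ℝ) (hc : 0 ≤ c)
    (h : ML (fun y => Metric.infDist y (Dd α e : Set B)) f α x c) :
    ML (fun y => ‖y‖) f α x c := by
  obtain ⟨H, _, _, _, π, Ω, hΩ, hπe, hd, hn⟩ := exists_rep he he0
  by_cases hcase : ∃ m : ℕ, 0 < m ∧ π ((α ^ m) e) ≠ 0
  · obtain ⟨m, hm, hme⟩ := hcase
    obtain ⟨V, hV⟩ := exists_impl he he0 π Ω hΩ hπe hd hn (α ^ m) hme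
    exact lift_rec hf α he π Ω hΩ hπe hd hn m hm V (fun l y => impl_int hV l y) x c hc h
  · push Not at hcase
    refine lift_wander hf.bdd α e he.sa (fun m hm b => ?_) x c hc h
    have h1 : ‖(α ^ m) e * b * e‖ = 0 := by
      rw [← hn, map_mul, hcase m hm, zero_mul]
      simp
    exact norm_eq_zero.1 h1

end

end Pool.Agent.X188.SC
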