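import Pool.Agent.H398R3.NCM.PD

/-! Positive definite sequences against finite families of coefficients. -/

set_option autoImplicit false

open Finset

namespace Pool.Agent.X188.SC

open Pool.Agent.Helper188.NCM
open Pool.Agent.H398R3.NCM (ee_add ee_zero star_ee E_sum count)

/-- positive definite sequences -/
def PosDef (g : ℤ → ℂ) : Prop := ∀ (M : ℕ) (x : ℕ → ℂ),
  0 ≤ (∑ n ∈ range M, ∑ m ∈ range M, x n * star (x m) * g ((n : ℤ) - m)).re ∧
  (∑ n ∈ range M, ∑ m ∈ range M, x n * star (x m) * g ((n : ℤ) - m)).im = 0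

noncomputable def WW (g : ℤ → ℂ) (M L j : ℕ) : ℂ := ∑ k ∈ range M, ∑ l ∈ range M,
      ee ((j : ℝ) / L * k) * star (ee ((j : ℝ) / L * l)) * g ((k : ℤ) - l)

noncomputable def PPc (c : ℕ → ℂ) (N L j : ℕ) : ℂ := ∑ n ∈ range N, c n * ee (-((j : ℝ) / L) * n)

noncomputable def TTc (g : ℤ → ℂ) (c : ℕ → ℂ) (N : ℕ) : ℂ :=
  ∑ n ∈ range N, ∑ m ∈ range N, c n * star (c m) * g ((n : ℤ) - m)

noncomputable def BBc (g : ℤ → ℂ) (c : ℕ → ℂ) (N : ℕ) : ℂ :=
  ∑ n ∈ range N, ∑ m ∈ range N, c n * star (c m) * g ((n : ℤ) - m) * ((|(n : ℤ) - m| : ℤ) : ℂ)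

theorem W_sum (g : ℤ → ℂ) (M L : ℕ) (hML : M ≤ L) (hL0 : 0 < L) :
    ∑ j ∈ range L, WW g M L j = (L : ℂ) * M * g 0 := by
  simp only [WW]
  rw [sum_comm]
  have : ∀ k ∈ range M, ∑ j ∈ range L, ∑ l ∈ range M,
      ee ((j : ℝ) / L * k) * star (ee ((j : ℝ) / L * l)) * g ((k : ℤ) - l) =
      (L : ℂ) * g 0 := by
    intro k hk
    rw [sum_comm]
    have h1 : ∀ l ∈ range M, ∑ j ∈ range L,
        ee ((j : ℝ) / L * k) * star (ee ((j : ℝ) / L * l)) * g ((k : ℤ) - l) =
        if l = k then (L : ℂ) * g 0 else 0 := by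
      intro l hl
      rw [mem_range] at hk hl
      rw [← sum_mul]
      have h2 : ∀ j ∈ range L, ee ((j : ℝ) / L * k) * star (ee ((j : ℝ) / L * l)) =
          ee ((j : ℝ) / L * ((k : ℤ) - l : ℤ)) := by
        intro j _
        rw [star_ee, ← ee_add]
        congr 1
        push_cast
        ring
      rw [sum_congr rfl h2, E_sum L hL0 _ (by rw [abs_lt]; constructor <;> omega)]
      by_cases hlk : l = k
      · subst hlk; simp
      · rw [if_neg (by omega), if_neg hlk, zero_mul]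
    rw [sum_congr rfl h1, sum_ite_eq' (range M) k, if_pos hk]
  rw [sum_congr rfl this]
  simp
  ring

theorem main_ident (g : ℤ → ℂ) (c : ℕ → ℂ) (N M : ℕ) (hNM : N ≤ M) (hM : 0 < M) :
    ∑ j ∈ range (M + N), PPc c N (M + N) j * star (PPc c N (M + N) j) * WW g M (M + N) j =
      ((M + N : ℕ) : ℂ) * ((M : ℂ) * TTc g c N - BBc g c N) := by
  set L : ℕ := M + N with hL
  have hL0 : 0 < L := by omega
  have h1 : ∀ j ∈ range L, PPc c N L j * star (PPc c N L j) * WW g M L j =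
      ∑ n ∈ range N, ∑ m ∈ range N, ∑ k ∈ range M, ∑ l ∈ range M,
        c n * star (c m) * g ((k : ℤ) - l) *
          ee ((j : ℝ) / L * (((k : ℤ) - l) - ((n : ℤ) - m) : ℤ)) := by
    intro j _
    simp only [PPc, WW]
    rw [star_sum, sum_mul_sum, sum_mul]
    refine sum_congr rfl fun n _ => ?_
    rw [sum_mul]
    refine sum_congr rfl fun m _ => ?_
    rw [mul_sum]
    refine sum_congr rfl fun k _ => ?_
    rw [mul_sum]
    refine sum_congr rfl fun l _ => ?_
    rw [star_mul', star_ee, star_ee]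
    have e1 : ee ((j : ℝ) / L * (((k : ℤ) - l) - ((n : ℤ) - m) : ℤ)) =
        ee (-((j : ℝ) / L) * n) * ee (-(-((j : ℝ) / L) * m)) *
          (ee ((j : ℝ) / L * k) * ee (-((j : ℝ) / L * l))) := by
      rw [← ee_add, ← ee_add, ← ee_add]
      congr 1
      push_cast
      ring
    rw [e1]
    ring
  have h3 : ((L : ℂ) * ((M : ℂ) * TTc g c N - BBc g c N)) =
      ∑ n ∈ range N, ∑ m ∈ range N, (L : ℂ) * (c n * star (c m) * g ((n : ℤ) - m) *
          ((M : ℂ) - ((|(n : ℤ) - m| : ℤ) : ℂ))) := by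
    unfold TTc BBc
    simp only [mul_sum, mul_sub, ← sum_sub_distrib]
    refine sum_congr rfl fun n _ => sum_congr rfl fun m _ => ?_
    ring
  rw [h3, sum_congr rfl h1, sum_comm]
  refine sum_congr rfl fun n hn => ?_
  rw [sum_comm]
  refine sum_congr rfl fun m hm => ?_
  rw [mem_range] at hn hm
  rw [sum_comm]
  have h2 : ∀ k ∈ range M, ∑ j ∈ range L, ∑ l ∈ range M, c n * star (c m) * g ((k : ℤ) - l) *
      ee ((j : ℝ) / L * (((k : ℤ) - l) - ((n : ℤ) - m) : ℤ)) =
      ∑ l ∈ range M, (L : ℂ) * (c n * star (c m) * g ((n : ℤ) - m)) *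
        (if ((k : ℤ) - l) = (n : ℤ) - m then (1 : ℂ) else 0) := by
    intro k hk
    rw [sum_comm]
    refine sum_congr rfl fun l hl => ?_
    rw [mem_range] at hk hl
    rw [← mul_sum, E_sum L hL0 _ (by rw [abs_lt]; constructor <;> omega)]
    by_cases h : ((k : ℤ) - l) = (n : ℤ) - m
    · rw [if_pos (by omega), if_pos h, h]
      ring
    · rw [if_neg (by omega), if_neg h]
      ring
  rw [sum_congr rfl h2]
  simp only [← mul_sum]
  rw [count M _ (by rw [abs_le]; constructor <;> omega)]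
  ring

/-- positive definite sequences against finite families of coefficients -/
theorem pd_family {ι : Type*} (g : ℤ → ℂ) (hg : PosDef g) (I : Finset ι) (N : ℕ)
    (c : ι → ℕ → ℂ) (S : ℝ)
    (hS : ∀ β : ℝ, ∑ t ∈ I, ‖∑ n ∈ range N, c t n * ee (β * n)‖ ^ 2 ≤ S) :
    ∑ t ∈ I, (TTc g (c t) N).re ≤ S * (g 0).re := by
  set T : ℝ := ∑ t ∈ I, (TTc g (c t) N).re with hT
  set B : ℝ := ∑ t ∈ I, (BBc g (c t) N).re with hB
  have key : ∀ M : ℕ, N ≤ M → 0 < M → (M : ℝ) * T - B ≤ M * (S * (g 0).re) := by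
    intro M hNM hM
    set L : ℕ := M + N with hL
    have hL0 : 0 < L := by omega
    have hW1 : ∀ j, 0 ≤ (WW g M L j).re ∧ (WW g M L j).im = 0 := fun j =>
      hg M (fun k => ee ((j : ℝ) / L * k))
    have hWsum := W_sum g M L (by omega) hL0
    have hle : (∑ j ∈ range L, ∑ t ∈ I, PPc (c t) N L j * star (PPc (c t) N L j) * WW g M L j).re ≤
        S * (∑ j ∈ range L, WW g M L j).re := by
      rw [Complex.re_sum, Complex.re_sum, mul_sum]
      refine sum_le_sum fun j _ => ?_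
      have h1 : ∀ t, PPc (c t) N L j * star (PPc (c t) N L j) = ((‖PPc (c t) N L j‖ ^ 2 : ℝ) : ℂ) := by
        intro t
        rw [Complex.star_def, Complex.mul_conj, Complex.normSq_eq_norm_sq]
      simp_rw [h1]
      rw [← sum_mul, ← Complex.ofReal_sum, Complex.re_ofReal_mul]
      exact mul_le_mul_of_nonneg_right (hS (-((j : ℝ) / L))) (hW1 j).1
    rw [sum_comm, sum_congr rfl (fun t _ => main_ident g (c t) N M hNM hM), hWsum] at hle
    have h4 : (∑ t ∈ I, ((M + N : ℕ) : ℂ) * ((M : ℂ) * TTc g (c t) N - BBc g (c t) N)).re =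
        (L : ℝ) * ((M : ℝ) * T - B) := by
      rw [Complex.re_sum, hT, hB, mul_sum, ← sum_sub_distrib, mul_sum]
      refine sum_congr rfl fun t _ => ?_
      rw [← Complex.ofReal_natCast (M + N), Complex.re_ofReal_mul, Complex.sub_re,
        ← Complex.ofReal_natCast M, Complex.re_ofReal_mul]
    have h5 : ((L : ℂ) * M * g 0).re = (L : ℝ) * (M * (g 0).re) := by
      rw [mul_assoc, ← Complex.ofReal_natCast L, Complex.re_ofReal_mul,
        ← Complex.ofReal_natCast M, Complex.re_ofReal_mul]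
    rw [h4, h5] at hle
    have hLp : (0 : ℝ) < L := by exact_mod_cast hL0
    have h6 : (L : ℝ) * ((M : ℝ) * T - B) ≤ L * (M * (S * (g 0).re)) := by
      refine hle.trans (le_of_eq ?_)
      ring
    exact le_of_mul_le_mul_left h6 hLp
  by_contra hcon
  push Not at hcon
  obtain ⟨M, hM⟩ := exists_nat_gt (B / (T - S * (g 0).re))
  have hpos : 0 < T - S * (g 0).re := by linarith
  have h1 := key (M + N + 1) (by omega) (by omega)
  rw [div_lt_iff₀ hpos] at hM
  push_cast at h1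
  have hN : (0 : ℝ) ≤ N := Nat.cast_nonneg N
  have h2 : 0 ≤ ((N : ℝ) + 1) * (T - S * (g 0).re) := by positivity
  linarith

end Pool.Agent.X188.SC
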