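import Pool.Agent.X188.SCM

/-! The representation of a minimal projection. -/

set_option autoImplicit false
set_option linter.unusedSectionVars false
set_option linter.deprecated false
set_option linter.style.haveILetI false

open Finset Filter Topology
open scoped ComplexOrder

namespace Pool.Agent.X188.SC

open Pool.Agent.X188.BT

universe u

/-- minimal projections (or zero) -/
structure MinP {B : Type u} [CStarAlgebra B] (e : B) : Prop where
  sa : star e = e
  idem : e * e = e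
  minl : ∀ b : B, ∃ c : ℂ, e * b * e = c • e

section

variable {B : Type u} [CStarAlgebra B] {e : B}

theorem smul_inj (he0 : e ≠ 0) {c d : ℂ} (h : c • e = d • e) : c = d := by
  have h1 : (c - d) • e = 0 := by rw [sub_smul, h, sub_self]
  rcases smul_eq_zero.1 h1 with h2 | h2
  · exact sub_eq_zero.1 h2
  · exact absurd h2 he0

noncomputable def ph (he : MinP e) (b : B) : ℂ := (he.minl b).choose

theorem ph_spec (he : MinP e) (b : B) : e * b * e = ph he b • e := (he.minl b).choose_spec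

theorem ph_eq (he : MinP e) (he0 : e ≠ 0) {b : B} {c : ℂ} (h : e * b * e = c • e) : ph he b = c :=
  smul_inj he0 (by rw [← ph_spec, h])

noncomputable def phL (he : MinP e) (he0 : e ≠ 0) : B →ₗ[ℂ] ℂ where
  toFun := ph he
  map_add' a b := ph_eq he he0 (by rw [mul_add, add_mul, ph_spec he a, ph_spec he b, add_smul])
  map_smul' c b := ph_eq he he0 (by
    rw [mul_smul_comm, smul_mul_assoc, ph_spec he b, smul_smul]
    rfl)

theorem e_norm (he : MinP e) (he0 : e ≠ 0) : ‖e‖ = 1 := by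
  have h := CStarRing.norm_star_mul_self (x := e)
  rw [he.sa, he.idem] at h
  have h1 : ‖e‖ ≠ 0 := norm_ne_zero_iff.2 he0
  exact (mul_right_cancel₀ h1 (by rw [one_mul]; exact h)).symm

theorem ph_star_mul (he : MinP e) (he0 : e ≠ 0) (a : B) :
    ph he (star a * a) = ((‖a * e‖ ^ 2 : ℝ) : ℂ) := by
  letI : PartialOrder B := CStarAlgebra.spectralOrder B
  letI : StarOrderedRing B := CStarAlgebra.spectralOrderedRing B
  set lam := ph he (star a * a) with hl
  have h1 : star (a * e) * (a * e) = lam • e := by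
    rw [← ph_spec he, star_mul, he.sa]
    simp only [mul_assoc]
  have h2 : star lam = lam := by
    apply smul_inj he0
    have h3 := congrArg star h1
    rw [star_mul, star_star, star_smul, he.sa] at h3
    rw [← h3, h1]
  have h4 : lam.im = 0 := by
    have := congrArg Complex.im h2
    rw [Complex.star_def, Complex.conj_im] at this
    linarith
  have h5 : lam = ((lam.re : ℝ) : ℂ) := Complex.ext rfl (by simp [h4])
  have h6 : ‖a * e‖ ^ 2 = |lam.re| := by
    rw [sq, ← CStarRing.norm_star_mul_self, h1, norm_smul, e_norm he he0, mul_one, h5,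
      Complex.norm_real, Real.norm_eq_abs]
    simp
  have h7 : 0 ≤ lam.re := by
    by_contra hneg
    push Not at hneg
    have h8 : (0 : B) ≤ lam.re • e := by
      have : (0 : B) ≤ star (a * e) * (a * e) := star_mul_self_nonneg _
      rw [h1, h5] at this
      simpa using this
    have h9 : (0 : B) ≤ e := by
      have : (0 : B) ≤ star e * e := star_mul_self_nonneg e
      rwa [he.sa, he.idem] at this
    have h10 : (0 : B) ≤ (-lam.re) • e := smul_nonneg (by linarith) h9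
    rw [neg_smul] at h10
    have h11 : lam.re • e = 0 := le_antisymm (neg_nonneg.1 h10) h8
    rcases smul_eq_zero.1 h11 with h12 | h12
    · linarith
    · exact he0 h12
  rw [h6, abs_of_nonneg h7]
  exact h5

/-- the GNS representation of the pure state of a minimal projection -/
theorem exists_rep (he : MinP e) (he0 : e ≠ 0) :
    ∃ (H : Type u) (_ : NormedAddCommGroup H) (_ : InnerProductSpace ℂ H) (_ : CompleteSpace H)
      (π : B →⋆ₐ[ℂ] (H →L[ℂ] H)) (Ω : H), ‖Ω‖ = 1 ∧ π e = ro Ω Ω ∧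
      DenseRange (fun b => π b Ω) ∧ ∀ b, ‖π b Ω‖ = ‖b * e‖ := by
  letI : PartialOrder B := CStarAlgebra.spectralOrder B
  letI : StarOrderedRing B := CStarAlgebra.spectralOrderedRing B
  let φ : B →ₚ[ℂ] ℂ := PositiveLinearMap.mk₀ (phL he he0) (by
    intro x hx
    obtain ⟨a, ha⟩ := CStarAlgebra.nonneg_iff_eq_star_mul_self.1 hx
    rw [ha]
    show 0 ≤ ph he (star a * a)
    rw [ph_star_mul he he0]
    exact Complex.zero_le_real.2 (sq_nonneg _))
  have hφ : ∀ b, φ b = ph he b := fun b => rfl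
  let Ω : φ.GNS := ((φ.toPreGNS 1 : φ.PreGNS) : φ.GNS)
  have hπΩ : ∀ b, φ.gnsStarAlgHom b Ω = ((φ.toPreGNS b : φ.PreGNS) : φ.GNS) := by
    intro b
    show φ.gnsNonUnitalStarAlgHom b ((φ.toPreGNS 1 : φ.PreGNS) : φ.GNS) = _
    rw [PositiveLinearMap.gnsNonUnitalStarAlgHom_apply_coe]
    congr 1
    simp [PositiveLinearMap.leftMulMapPreGNS]
  have hn : ∀ b, ‖((φ.toPreGNS b : φ.PreGNS) : φ.GNS)‖ = ‖b * e‖ := by
    intro b
    rw [UniformSpace.Completion.norm_coe]
    have h1 := φ.preGNS_norm_sq (φ.toPreGNS b)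
    rw [PositiveLinearMap.ofPreGNS_toPreGNS, hφ, ph_star_mul he he0] at h1
    have h2 : ‖φ.toPreGNS b‖ ^ 2 = ‖b * e‖ ^ 2 := by exact_mod_cast h1
    exact (sq_eq_sq₀ (norm_nonneg _) (norm_nonneg _)).1 h2
  have hd : DenseRange (fun b => φ.gnsStarAlgHom b Ω) := by
    have h1 : (fun b => φ.gnsStarAlgHom b Ω) =
        (fun y : φ.PreGNS => (y : φ.GNS)) ∘ (fun b => φ.toPreGNS b) := by
      funext b
      exact hπΩ b
    rw [h1]
    exact (UniformSpace.Completion.denseRange_coe).comp (φ.toPreGNS.surjective.denseRange)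
      (UniformSpace.Completion.continuous_coe _)
  refine ⟨φ.GNS, inferInstance, inferInstance, inferInstance, φ.gnsStarAlgHom, Ω, ?_, ?_, hd,
    fun b => by rw [hπΩ, hn]⟩
  · rw [hn, one_mul, e_norm he he0]
  · refine ContinuousLinearMap.ext fun x => ?_
    have hc1 : Continuous fun x => φ.gnsStarAlgHom e x := (φ.gnsStarAlgHom e).continuous
    have hc2 : Continuous fun x => ro Ω Ω x := (ro Ω Ω).continuous
    refine congrFun (hd.equalizer hc1 hc2 ?_) x
    funext b
    show φ.gnsStarAlgHom e (φ.gnsStarAlgHom b Ω) = ro Ω Ω (φ.gnsStarAlgHom b Ω)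
    rw [← ContinuousLinearMap.mul_apply, ← map_mul, hπΩ, hπΩ, ro_apply]
    have h3 : (inner ℂ Ω ((φ.toPreGNS b : φ.PreGNS) : φ.GNS) : ℂ) = ph he b := by
      rw [UniformSpace.Completion.inner_coe, PositiveLinearMap.preGNS_inner_def, hφ]
      simp
    rw [h3, ← sub_eq_zero, ← norm_le_zero_iff]
    have h4 : ((φ.toPreGNS (e * b) : φ.PreGNS) : φ.GNS) - ph he b • Ω =
        ((φ.toPreGNS (e * b - ph he b • 1) : φ.PreGNS) : φ.GNS) := by
      rw [map_sub, map_smul, UniformSpace.Completion.coe_sub, UniformSpace.Completion.coe_smul]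
    rw [h4, hn, sub_mul, ph_spec he b, smul_mul_assoc, one_mul, sub_self, norm_zero]

end

section

variable {H : Type*} [NormedAddCommGroup H] [InnerProductSpace ℂ H] [CompleteSpace H]

theorem star_ro (ξ η : H) : star (ro ξ η) = ro η ξ := by
  rw [ContinuousLinearMap.star_eq_adjoint]
  symm
  rw [ContinuousLinearMap.eq_adjoint_iff]
  intro x y
  rw [ro_apply, ro_apply, inner_smul_left, inner_smul_right, inner_conj_symm]
  ring

theorem mul_ro (T : H →L[ℂ] H) (ξ η : H) : T * ro ξ η = ro (T ξ) η := by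
  ext x
  rw [ContinuousLinearMap.mul_apply, ro_apply, ro_apply, map_smul]

theorem ro_mul (T : H →L[ℂ] H) (ξ η : H) : ro ξ η * T = ro ξ (star T η) := by
  ext x
  rw [ContinuousLinearMap.mul_apply, ro_apply, ro_apply, ContinuousLinearMap.star_eq_adjoint,
    ContinuousLinearMap.adjoint_inner_left]

/-- the image of a minimal projection has rank at most one -/
theorem rank_one {B : Type u} [CStarAlgebra B] {e : B} (π : B →⋆ₐ[ℂ] (H →L[ℂ] H)) (Ω : H)
    (hΩ : ‖Ω‖ = 1) (hπe : π e = ro Ω Ω) (hd : DenseRange (fun b => π b Ω)) {p : B} (hp : MinP p)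
    (hp0 : π p ≠ 0) : ∃ ζ : H, ‖ζ‖ = 1 ∧ π p = ro ζ ζ ∧ ∃ x : B, π x ζ = Ω := by
  have hPsa : star (π p) = π p := by rw [← map_star, hp.sa]
  have hPid : ∀ x, π p (π p x) = π p x := fun x => by
    rw [← ContinuousLinearMap.mul_apply, ← map_mul, hp.idem]
  obtain ⟨b, hb⟩ : ∃ b, π p (π b Ω) ≠ 0 := by
    by_contra hcon
    push Not at hcon
    apply hp0
    refine ContinuousLinearMap.ext fun x => ?_
    refine congrFun (hd.equalizer (π p).continuous continuous_const ?_) x
    funext b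
    exact hcon b
  set ζ₀ := π p (π b Ω) with hζ₀
  have hn : ‖ζ₀‖ ≠ 0 := norm_ne_zero_iff.2 hb
  have hin : ∀ x y : H, inner ℂ (π p x) y = inner ℂ x (π p y) := by
    intro x y
    conv_rhs => rw [← hPsa, ContinuousLinearMap.star_eq_adjoint,
      ContinuousLinearMap.adjoint_inner_right]
  have h1 : π (e * star b) ζ₀ = ((‖ζ₀‖ ^ 2 : ℝ) : ℂ) • Ω := by
    rw [map_mul, ContinuousLinearMap.mul_apply, hπe, ro_apply]
    congr 1
    rw [map_star, ContinuousLinearMap.star_eq_adjoint, ContinuousLinearMap.adjoint_inner_right]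
    have h2 : ζ₀ = π p ζ₀ := (hPid _).symm
    rw [h2, ← hin, ← hζ₀, inner_self_eq_norm_sq_to_K, ← h2]
    push_cast
    rfl
  set ζ := ((‖ζ₀‖⁻¹ : ℝ) : ℂ) • ζ₀ with hζ
  have hζn : ‖ζ‖ = 1 := by
    rw [hζ, norm_smul, Complex.norm_real, norm_inv, norm_norm, inv_mul_cancel₀ hn]
  have hPζ : π p ζ = ζ := by
    rw [hζ, map_smul, hζ₀, hPid]
  have h3 : ∀ b', ∃ c : ℂ, π p (π b' Ω) = c • ζ := by
    intro b'
    obtain ⟨c, hc⟩ := hp.minl (b' * (e * star b))
    have h4 : π p (π b' (π (e * star b) ζ₀)) = c • ζ₀ := by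
      have h5 : ζ₀ = π p ζ₀ := (hPid _).symm
      conv_lhs => rw [h5]
      have h6 : π p (π b' (π (e * star b) (π p ζ₀))) = π (p * (b' * (e * star b)) * p) ζ₀ := by
        simp only [map_mul, ContinuousLinearMap.mul_apply]
      rw [h6, hc, map_smul, ContinuousLinearMap.smul_apply, ← h5]
    rw [h1, map_smul, map_smul] at h4
    have hn2 : (((‖ζ₀‖ ^ 2 : ℝ)) : ℂ) ≠ 0 := by
      exact_mod_cast pow_ne_zero 2 hn
    refine ⟨(((‖ζ₀‖ ^ 2 : ℝ)) : ℂ)⁻¹ * c * ((‖ζ₀‖ : ℝ) : ℂ), ?_⟩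
    have h7 : π p (π b' Ω) = (((‖ζ₀‖ ^ 2 : ℝ)) : ℂ)⁻¹ • c • ζ₀ := by
      rw [← h4, smul_smul, inv_mul_cancel₀ hn2, one_smul]
    rw [h7, hζ, smul_smul, smul_smul]
    congr 1
    have hn3 : ((‖ζ₀‖ : ℝ) : ℂ) ≠ 0 := by exact_mod_cast hn
    rw [mul_assoc, mul_assoc]
    congr 1
    push_cast
    rw [mul_inv_cancel₀ hn3, mul_one]
  refine ⟨ζ, hζn, ?_, ?_⟩
  · refine ContinuousLinearMap.ext fun x => ?_
    refine congrFun (hd.equalizer (π p).continuous (ro ζ ζ).continuous ?_) x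
    funext b'
    show π p (π b' Ω) = ro ζ ζ (π b' Ω)
    obtain ⟨c, hc⟩ := h3 b'
    rw [ro_apply, ← hPζ, hin, hc, inner_smul_right, hPζ, inner_self_eq_norm_sq_to_K, hζn]
    simp
  · refine ⟨(((‖ζ₀‖ : ℝ) : ℂ)⁻¹) • (e * star b), ?_⟩
    have hn3 : ((‖ζ₀‖ : ℝ) : ℂ) ≠ 0 := by exact_mod_cast hn
    have e1 : π ((((‖ζ₀‖ : ℝ) : ℂ)⁻¹) • (e * star b)) ζ =
        (((‖ζ₀‖ : ℝ) : ℂ)⁻¹) • π (e * star b) ζ := by
      rw [map_smul π]
      rfl
    rw [e1, hζ, map_smul, h1, smul_smul, smul_smul]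
    have : (((‖ζ₀‖ : ℝ) : ℂ)⁻¹ * ((‖ζ₀‖⁻¹ : ℝ) : ℂ) * ((‖ζ₀‖ ^ 2 : ℝ) : ℂ)) = 1 := by
      push_cast
      field_simp
    rw [this, one_smul]

/-- equal norms on dense ranges give a unitary -/
theorem exists_unitary {E : Type*} [AddCommGroup E] [Module ℂ E] (g f : E →ₗ[ℂ] H)
    (hn : ∀ x, ‖f x‖ = ‖g x‖) (hg : DenseRange g) (hf : DenseRange f) :
    ∃ V : unitary (H →L[ℂ] H), ∀ x, (V : H →L[ℂ] H) (g x) = f x := by
  letI : SeminormedAddCommGroup E := SeminormedAddCommGroup.induced E H g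
  letI : NormedSpace ℂ E := NormedSpace.induced ℂ E H g
  have hnorm : ∀ x : E, ‖x‖ = ‖g x‖ := fun x => rfl
  let gL : E →L[ℂ] H := g.mkContinuous 1 (fun x => by rw [one_mul, hnorm])
  let fL : E →L[ℂ] H := f.mkContinuous 1 (fun x => by rw [one_mul, hnorm, hn])
  have hiso : Isometry gL := AddMonoidHomClass.isometry_of_norm gL fun x => rfl
  let V₀ : H →L[ℂ] H := fL.extend gL
  have hV : ∀ x, V₀ (g x) = f x := fun x =>
    ContinuousLinearMap.extend_eq fL (by exact hg) hiso.isUniformInducing x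
  have hVn : ∀ h, ‖V₀ h‖ = ‖h‖ := by
    intro h
    refine congrFun (hg.equalizer V₀.continuous.norm continuous_norm ?_) h
    funext x
    show ‖V₀ (g x)‖ = ‖g x‖
    rw [hV, hn]
  let Vi : H →ₗᵢ[ℂ] H := ⟨V₀.toLinearMap, hVn⟩
  have hsurj : Function.Surjective Vi := by
    have hcl : IsClosed (Set.range Vi) := Vi.isometry.isClosedEmbedding.isClosed_range
    have hdr : DenseRange Vi := by
      refine Dense.mono ?_ hf
      rintro _ ⟨x, rfl⟩
      exact ⟨g x, hV x⟩
    intro y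
    have : y ∈ closure (Set.range Vi) := hdr y
    rwa [hcl.closure_eq] at this
  let Ve : H ≃ₗᵢ[ℂ] H := LinearIsometryEquiv.ofSurjective Vi hsurj
  refine ⟨Unitary.linearIsometryEquiv.symm Ve, fun x => ?_⟩
  exact hV x

end

end Pool.Agent.X188.SC
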