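import Pool.Agent.X188.SCP
import Pool.Agent.X188.BT1

/-! A Wiener lemma for unitary operators. -/

set_option autoImplicit false

open Finset Filter Topology

namespace Pool.Agent.X188.SC

open Pool.Agent.Helper188.NCM Pool.Agent.X188.BT
open Pool.Agent.H398R3.NCM (ee_add ee_zero star_ee)

theorem norm_ee (x : ℝ) : ‖ee x‖ = 1 := by
  have : (2 * Real.pi * Complex.I * x : ℂ) = ((2 * Real.pi * x : ℝ) : ℂ) * Complex.I := by
    push_cast; ring
  rw [ee, this, Complex.norm_exp_ofReal_mul_I]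

section

variable {H : Type*} [NormedAddCommGroup H] [InnerProductSpace ℂ H]

theorem TT_eq {v : ℤ → H} {g : ℤ → ℂ} (h : ∀ m n : ℤ, inner ℂ (v m) (v n) = g (n - m))
    (c : ℕ → ℂ) (N : ℕ) : TTc g c N = ((‖∑ n ∈ range N, c n • v n‖ ^ 2 : ℝ) : ℂ) := by
  have h1 : ((‖∑ n ∈ range N, c n • v n‖ ^ 2 : ℝ) : ℂ) =
      inner ℂ (∑ m ∈ range N, c m • v m) (∑ n ∈ range N, c n • v n) := by
    rw [inner_self_eq_norm_sq_to_K]
    push_cast
    rfl
  rw [h1, inner_sum]
  unfold TTc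
  refine sum_congr rfl fun n _ => ?_
  rw [sum_inner]
  refine sum_congr rfl fun m _ => ?_
  rw [inner_smul_left, inner_smul_right, h, starRingEnd_apply]
  ring

theorem posDef_of {v : ℤ → H} {g : ℤ → ℂ} (h : ∀ m n : ℤ, inner ℂ (v m) (v n) = g (n - m)) :
    PosDef g := by
  intro M x
  have h1 := TT_eq h x M
  unfold TTc at h1
  rw [h1, Complex.ofReal_re, Complex.ofReal_im]
  exact ⟨by positivity, rfl⟩

variable [CompleteSpace H]

/-- the Wiener type inequality -/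
theorem wiener_ineq (U : unitary (H →L[ℂ] H)) (ξ : H) (N : ℕ) (S : ℝ)
    (hS : ∀ β : ℝ, ‖∑ n ∈ range N, ee (β * n) • pw U n ξ‖ ^ 2 ≤ S) :
    ∑ n ∈ range N, ∑ m ∈ range N, ‖(inner ℂ (pw U n ξ) (pw U m ξ) : ℂ)‖ ^ 2 ≤ S * ‖ξ‖ ^ 2 := by
  classical
  set W : Submodule ℂ H := Submodule.span ℂ ((range N).image fun n : ℕ => pw U n ξ) with hW
  have hfd : FiniteDimensional ℂ W := by
    rw [hW]
    exact FiniteDimensional.span_finset ℂ _
  let b := stdOrthonormalBasis ℂ W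
  have hmem : ∀ n ∈ range N, pw U n ξ ∈ W := by
    intro n hn
    rw [hW]
    refine Submodule.subset_span ?_
    rw [coe_image]
    exact ⟨n, by exact_mod_cast hn, rfl⟩
  let w : ℕ → W := fun n => if h : n ∈ range N then ⟨pw U n ξ, hmem n h⟩ else 0
  have hw : ∀ n ∈ range N, ((w n : W) : H) = pw U n ξ := by
    intro n hn
    simp only [w, dif_pos hn]
  let c : Fin (Module.finrank ℂ W) → ℕ → ℂ := fun t n => inner ℂ (b t) (w n)
  let g : ℤ → ℂ := fun j => inner ℂ ξ (pw U (-j) ξ)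
  have hg : PosDef g := by
    refine posDef_of (v := fun n : ℤ => pw U (-n) ξ) fun m n => ?_
    rw [inner_pw]
    simp only [g]
    congr 3
    ring
  have h1 := pd_family g hg univ N c S (fun β => by
    refine le_trans (le_of_eq ?_) (hS β)
    have e1 : ∀ t, ∑ n ∈ range N, c t n * ee (β * n) =
        inner ℂ (b t) (∑ n ∈ range N, ee (β * n) • w n) := by
      intro t
      rw [inner_sum]
      refine sum_congr rfl fun n _ => ?_
      rw [inner_smul_right]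
      ring
    simp_rw [e1]
    rw [b.sum_sq_norm_inner_right]
    congr 1
    rw [← Submodule.norm_coe, Submodule.coe_sum]
    congr 1
    refine sum_congr rfl fun n hn => ?_
    rw [Submodule.coe_smul, hw n hn])
  have h2 : (g 0).re = ‖ξ‖ ^ 2 := by
    simp only [g, neg_zero]
    rw [pw_zero, ContinuousLinearMap.one_apply, inner_self_eq_norm_sq_to_K]
    have e : (((‖ξ‖ : ℝ) : ℂ) ^ 2).re = ‖ξ‖ ^ 2 := by
      rw [← Complex.ofReal_pow, Complex.ofReal_re]
    exact e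
  rw [h2] at h1
  refine le_trans (le_of_eq ?_) h1
  rw [← Complex.re_sum]
  have h3 : ∑ t, TTc g (c t) N = ∑ n ∈ range N, ∑ m ∈ range N,
      ((‖(inner ℂ (pw U n ξ) (pw U m ξ) : ℂ)‖ ^ 2 : ℝ) : ℂ) := by
    unfold TTc
    rw [sum_comm]
    refine sum_congr rfl fun n hn => ?_
    rw [sum_comm]
    refine sum_congr rfl fun m hm => ?_
    rw [← sum_mul]
    have e1 : ∑ t, c t n * star (c t m) = inner ℂ (pw U m ξ) (pw U n ξ) := by
      rw [← hw n hn, ← hw m hm, ← Submodule.coe_inner, ← b.sum_inner_mul_inner (w m) (w n)]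
      refine sum_congr rfl fun t _ => ?_
      have : star (c t m) = inner ℂ (w m) (b t) := inner_conj_symm _ _
      rw [this, mul_comm]
    have e2 : g ((n : ℤ) - m) = inner ℂ (pw U n ξ) (pw U m ξ) := by
      simp only [g]
      rw [inner_pw]
      congr 3
      ring
    rw [e1, e2, ← inner_conj_symm (pw U (m : ℤ) ξ) (pw U (n : ℤ) ξ)]
    rw [Complex.ofReal_pow]
    exact Complex.conj_mul' _
  rw [h3]
  have h4 : (∑ n ∈ range N, ∑ m ∈ range N,
      ((‖(inner ℂ (pw U n ξ) (pw U m ξ) : ℂ)‖ ^ 2 : ℝ) : ℂ)) =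
      ((∑ n ∈ range N, ∑ m ∈ range N, ‖(inner ℂ (pw U n ξ) (pw U m ξ) : ℂ)‖ ^ 2 : ℝ) : ℂ) := by
    push_cast
    rfl
  rw [h4, Complex.ofReal_re]

/-- the exponential sums along the orbit of `ξ` -/
noncomputable def ex (U : unitary (H →L[ℂ] H)) (ξ : H) (L : ℕ) (β : ℝ) : H :=
  ∑ l ∈ range L, ee (β * l) • pw U l ξ

theorem norm_pw (U : unitary (H →L[ℂ] H)) (n : ℤ) (x : H) : ‖pw U n x‖ = ‖x‖ := by
  have h := inner_pw U n n x x
  rw [sub_self, pw_zero, ContinuousLinearMap.one_apply, inner_self_eq_norm_sq_to_K,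
    inner_self_eq_norm_sq_to_K] at h
  have h' : ‖pw U n x‖ ^ 2 = ‖x‖ ^ 2 := by exact_mod_cast h
  exact (sq_eq_sq₀ (norm_nonneg _) (norm_nonneg _)).1 h'

theorem ex_norm_le (U : unitary (H →L[ℂ] H)) (ξ : H) (L : ℕ) (β : ℝ) :
    ‖ex U ξ L β‖ ≤ L * ‖ξ‖ := by
  unfold ex
  refine (norm_sum_le _ _).trans (le_of_eq ?_)
  rw [sum_congr rfl fun l _ => by rw [norm_smul, norm_ee, one_mul, norm_pw]]
  simp

theorem ex_add (U : unitary (H →L[ℂ] H)) (ξ : H) (K L : ℕ) (β : ℝ) :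
    ex U ξ (K + L) β = ex U ξ K β + ee (β * K) • pw U K (ex U ξ L β) := by
  unfold ex
  rw [sum_range_add, map_sum, smul_sum]
  congr 1
  refine sum_congr rfl fun l _ => ?_
  rw [map_smul, smul_smul, ← ee_add, ← ContinuousLinearMap.mul_apply, ← pw_add]
  push_cast
  congr 2
  ring

theorem ex_block (U : unitary (H →L[ℂ] H)) (ξ : H) (K : ℕ) (β : ℝ) (q : ℕ) :
    ‖ex U ξ (q * K) β‖ ≤ q * ‖ex U ξ K β‖ := by
  induction q with
  | zero => simp [ex]
  | succ q ih =>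
    rw [Nat.succ_mul, ex_add]
    refine (norm_add_le _ _).trans ?_
    rw [norm_smul, norm_ee, one_mul, norm_pw]
    push_cast
    linarith

theorem ex_period (U : unitary (H →L[ℂ] H)) (ξ : H) (L : ℕ) (β : ℝ) (k : ℤ) :
    ex U ξ L (β + k) = ex U ξ L β := by
  unfold ex
  refine sum_congr rfl fun l _ => ?_
  have e : (β + k) * l = β * l + ((k * l : ℤ) : ℝ) := by push_cast; ring
  rw [e, ee_add, Pool.Agent.H398R3.NCM.ee_int, mul_one]

theorem continuous_ee : Continuous ee := by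
  unfold ee
  fun_prop

theorem ex_continuous (U : unitary (H →L[ℂ] H)) (ξ : H) (L : ℕ) :
    Continuous fun β => ex U ξ L β := by
  unfold ex
  refine continuous_finsetSum _ fun l _ => ?_
  exact (continuous_ee.comp (by fun_prop : Continuous fun β : ℝ => β * (l : ℝ))).smul
    continuous_const

/-- uniform smallness from pointwise smallness -/
theorem ex_uniform (U : unitary (H →L[ℂ] H)) (ξ : H) (τ : ℝ) (hτ : 0 < τ)
    (h : ∀ β : ℝ, ∃ L : ℕ, 0 < L ∧ ‖ex U ξ L β‖ < τ * L) :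
    ∃ L₀ : ℕ, ∀ L ≥ L₀, ∀ β : ℝ, ‖ex U ξ L β‖ ≤ 2 * τ * L := by
  choose Lf hL0 hL1 using h
  have hcov : ∃ t : Finset ℝ, Set.Icc (0 : ℝ) 1 ⊆ ⋃ β ∈ t, {x | ‖ex U ξ (Lf β) x‖ < τ * Lf β} := by
    refine isCompact_Icc.elim_finite_subcover _ (fun β => ?_) fun x _ => ?_
    · exact isOpen_lt (ex_continuous U ξ _).norm continuous_const
    · exact Set.mem_iUnion.2 ⟨x, hL1 x⟩
  obtain ⟨t, ht⟩ := hcov
  set K : ℕ := ∏ β ∈ t, Lf β with hK
  have hKpos : 0 < K := prod_pos fun β _ => hL0 β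
  have hKb : ∀ β : ℝ, ‖ex U ξ K β‖ ≤ τ * K := by
    intro β
    have e : β = Int.fract β + (⌊β⌋ : ℤ) := (Int.fract_add_floor β).symm
    rw [e, ex_period]
    have hmem : Int.fract β ∈ Set.Icc (0 : ℝ) 1 :=
      ⟨Int.fract_nonneg β, (Int.fract_lt_one β).le⟩
    obtain ⟨x, hx⟩ := Set.mem_iUnion.1 (ht hmem)
    obtain ⟨hxt, hx2⟩ := Set.mem_iUnion.1 hx
    obtain ⟨q, hq⟩ := Finset.dvd_prod_of_mem Lf hxt
    have hKq : K = q * Lf x := by rw [hK, hq, mul_comm]
    rw [hKq]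
    refine (ex_block U ξ (Lf x) _ q).trans ?_
    push_cast
    have h1 : ‖ex U ξ (Lf x) (Int.fract β)‖ ≤ τ * Lf x := le_of_lt hx2
    calc (q : ℝ) * ‖ex U ξ (Lf x) (Int.fract β)‖ ≤ q * (τ * Lf x) := by gcongr
      _ = τ * (q * Lf x) := by ring
  obtain ⟨L₀, hL⟩ := exists_nat_gt (K * ‖ξ‖ / τ)
  refine ⟨L₀, fun L hLL β => ?_⟩
  have hdm : L = (L / K) * K + L % K := (Nat.div_add_mod' L K).symm
  have h1 : ‖ex U ξ L β‖ ≤ (L / K : ℕ) * ‖ex U ξ K β‖ + (L % K : ℕ) * ‖ξ‖ := by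
    conv_lhs => rw [hdm, ex_add]
    refine (norm_add_le _ _).trans (add_le_add (ex_block U ξ K β _) ?_)
    rw [norm_smul, norm_ee, one_mul, norm_pw]
    exact ex_norm_le U ξ _ β
  have h2 : ((L / K : ℕ) : ℝ) * ‖ex U ξ K β‖ ≤ τ * L := by
    calc ((L / K : ℕ) : ℝ) * ‖ex U ξ K β‖ ≤ (L / K : ℕ) * (τ * K) := by
          gcongr
          exact hKb β
      _ = τ * ((L / K * K : ℕ) : ℝ) := by push_cast; ring
      _ ≤ τ * L := by
          gcongr
          exact Nat.div_mul_le_self L K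
  have h3 : ((L % K : ℕ) : ℝ) * ‖ξ‖ ≤ τ * L := by
    have h4 : ((L % K : ℕ) : ℝ) ≤ K := by exact_mod_cast (Nat.mod_lt L hKpos).le
    have h5 : (K : ℝ) * ‖ξ‖ ≤ τ * L₀ := by
      rw [div_lt_iff₀ hτ] at hL
      linarith
    have h6 : (L₀ : ℝ) ≤ L := by exact_mod_cast hLL
    calc ((L % K : ℕ) : ℝ) * ‖ξ‖ ≤ K * ‖ξ‖ := by gcongr
      _ ≤ τ * L₀ := h5
      _ ≤ τ * L := by gcongr
  linarith

/-- eigenvectors (or zero) -/
def Eig (U : unitary (H →L[ℂ] H)) (f : H) : Prop := ∃ β : ℝ, ee β • pw U 1 f = f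

/-- the mean ergodic theorem for the rotated unitary -/
theorem mean_erg (U : unitary (H →L[ℂ] H)) (ξ : H) (β : ℝ) :
    ∃ f : H, Eig U f ∧ inner ℂ f (ξ - f) = 0 ∧
      Tendsto (fun L : ℕ => ‖ex U ξ L β‖ / L) atTop (𝓝 ‖f‖) := by
  set V : H →L[ℂ] H := ee β • pw U 1 with hV
  have hVn : ‖V‖ ≤ 1 := by
    refine ContinuousLinearMap.opNorm_le_bound _ zero_le_one fun x => ?_
    rw [hV, ContinuousLinearMap.smul_apply, norm_smul, norm_ee, one_mul, norm_pw, one_mul]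
  have h1 := V.tendsto_birkhoffAverage_orthogonalProjection hVn ξ
  set P := (V.eqLocus (1 : H →L[ℂ] H)) with hP
  set f : H := ((P.orthogonalProjectionOnto ξ : P) : H) with hf
  refine ⟨f, ⟨β, ?_⟩, ?_, ?_⟩
  · have h2 : f ∈ P := SetLike.coe_mem _
    have h3 : V f = f := h2
    exact h3
  · have h2 : ξ - f ∈ Pᗮ := by
      rw [hf]
      exact Submodule.sub_starProjection_mem_orthogonal ξ
    exact h2 f (SetLike.coe_mem _)
  · have h4 : ∀ L : ℕ, V^[L] ξ = ee (β * L) • pw U L ξ := by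
      intro L
      induction L with
      | zero => simp [ee_zero, pw_zero]
      | succ L ih =>
        rw [Function.iterate_succ_apply', ih, hV, ContinuousLinearMap.smul_apply, map_smul, smul_smul,
          ← ee_add, ← ContinuousLinearMap.mul_apply, ← pw_add]
        push_cast
        congr 2
        · ring
        · congr 1; ring
    have h5 : ∀ L : ℕ, ‖birkhoffAverage ℂ V _root_.id L ξ‖ = ‖ex U ξ L β‖ / L := by
      intro L
      unfold birkhoffAverage birkhoffSum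
      rw [norm_smul, norm_inv, Complex.norm_natCast, inv_mul_eq_div]
      congr 2
      unfold ex
      exact sum_congr rfl fun l _ => h4 l
    have h6 := h1.norm
    simp_rw [h5] at h6
    exact h6

end

end Pool.Agent.X188.SC
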