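import Pool.Agent.X188.SCZ

/-! Elements which are almost periodic modulo the ideal. -/

set_option autoImplicit false
set_option linter.unusedSectionVars false
set_option linter.deprecated false

open Finset Filter Topology

namespace Pool.Agent.X188.SC

open Pool.Agent.Helper188.NCM
open Pool.Agent.H398R3.NCM (ee_add ee_zero star_ee)

universe u

section

variable {A : Type u} [CStarAlgebra A]

theorem win_add (f : ℕ → ℂ) (α : A ≃⋆ₐ[ℂ] A) (x y : A) (n L : ℕ) :
    win f α (x + y) n L = win f α x n L + win f α y n L := by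
  unfold win
  rw [← sum_add_distrib]
  exact sum_congr rfl fun i _ => by rw [map_add, smul_add]

theorem win_smul (f : ℕ → ℂ) (α : A ≃⋆ₐ[ℂ] A) (a : ℂ) (y : A) (n L : ℕ) :
    win f α (a • y) n L = a • win f α y n L := by
  unfold win
  rw [smul_sum]
  exact sum_congr rfl fun i _ => by rw [map_smul, smul_comm]

theorem win_zero (f : ℕ → ℂ) (α : A ≃⋆ₐ[ℂ] A) (n L : ℕ) :
    win f α 0 n L = 0 := by
  unfold win
  exact sum_eq_zero fun i _ => by rw [map_zero, smul_zero]

theorem ap_neg {f : ℕ → ℂ} (hf : ShortUniform f) (α : A ≃⋆ₐ[ℂ] A) {B : Type u} [CStarAlgebra B]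
    (q : A →⋆ₐ[ℂ] B) (hqa : ∀ a, q a = 0 → q (α a) = 0) (x : A)
    (hx : x ∈ closure ((Submodule.span ℂ {y : A | ∃ β : ℝ, q (α y) = ee β • q y} : Submodule ℂ A) : Set A)) :
    Neg fun L n => ‖q (win f α x n L)‖ := by
  -- the span
  have h1 : ∀ y ∈ Submodule.span ℂ {y : A | ∃ β : ℝ, q (α y) = ee β • q y},
      Neg fun L n => ‖q (win f α y n L)‖ := by
    intro y hy
    induction hy using Submodule.span_induction with
    | mem y hy =>
      obtain ⟨β, hβ⟩ := hy
      have h2 : ∀ i : ℕ, q ((α ^ i) y) = ee (β * i) • q y := by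
        intro i
        induction i with
        | zero =>
          rw [pow_zero, Nat.cast_zero, mul_zero, ee_zero, one_smul]
          rfl
        | succ i ih =>
          have e1 : (α ^ (i + 1)) y = α ((α ^ i) y) := by rw [pow_succ']; rfl
          have e2 : q (α ((α ^ i) y - ee (β * i) • y)) = 0 := by
            apply hqa
            rw [map_sub, ih, map_smul, sub_self]
          rw [map_sub, map_sub, map_smul, map_smul, hβ, smul_smul] at e2
          rw [e1, sub_eq_zero.1 e2, ← ee_add]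
          congr 2
          push_cast
          ring
      have h3 : ∀ L n, ‖q (win f α y n L)‖ = ‖q y‖ * ‖∑ i ∈ range L, f (n + i) * ee (β * i)‖ := by
        intro L n
        have e1 : q (win f α y n L) = (∑ i ∈ range L, f (n + i) * ee (β * i)) • q y := by
          unfold win
          rw [map_sum, sum_smul]
          refine sum_congr rfl fun i _ => ?_
          rw [map_smul, h2, smul_smul]
        rw [e1, norm_smul, mul_comm]
      have h4 : Neg fun L n => ‖∑ i ∈ range L, f (n + i) * ee (β * i)‖ := by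
        intro ε hε
        obtain ⟨L₀, hL⟩ := hf.small ε hε
        refine ⟨L₀, fun L hLL => ?_⟩
        obtain ⟨N₀, hN⟩ := hL L hLL
        exact ⟨N₀, fun N hNN => hN N hNN β⟩
      exact (h4.const_mul ‖q y‖ (norm_nonneg _)).mono fun L n => le_of_eq (h3 L n)
    | zero =>
      refine Neg.zero.mono fun L n => ?_
      rw [win_zero, map_zero, norm_zero]
    | add y z _ _ hy hz =>
      refine (hy.add hz).mono fun L n => ?_
      rw [win_add, map_add]
      exact norm_add_le _ _
    | smul a y _ hy =>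
      refine (hy.const_mul ‖a‖ (norm_nonneg _)).mono fun L n => ?_
      rw [win_smul, map_smul, norm_smul]
  intro ε hε
  obtain ⟨y, hy, hxy⟩ := Metric.mem_closure_iff.1 hx (ε / 2) (by positivity)
  rw [dist_eq_norm] at hxy
  obtain ⟨L₀, hL⟩ := h1 y hy (ε / 2) (by positivity)
  refine ⟨L₀, fun L hLL => ?_⟩
  obtain ⟨N₀, hN⟩ := hL L hLL
  refine ⟨N₀, fun N hNN => ?_⟩
  have h2 : ∀ n ∈ range N, ‖q (win f α x n L)‖ ≤ ‖q (win f α y n L)‖ + ε / 2 * L := by
    intro n _
    have e1 : win f α x n L = win f α y n L + win f α (x - y) n L := by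
      rw [← win_add, add_sub_cancel]
    rw [e1, map_add]
    refine (norm_add_le _ _).trans ?_
    have e2 := norm_hom q (win f α (x - y) n L)
    have e3 := win_norm hf.bdd α (x - y) n L
    have e4 : (L : ℝ) * ‖x - y‖ ≤ L * (ε / 2) := by gcongr
    linarith
  refine (sum_le_sum h2).trans ?_
  rw [sum_add_distrib, sum_const, card_range, nsmul_eq_mul]
  have := hN N hNN
  linarith

theorem ML_of_neg {f : ℕ → ℂ} {α : A ≃⋆ₐ[ℂ] A} {x : A} {d : A → ℝ}
    (h : Neg fun L n => d (win f α x n L)) : ML d f α x 0 := by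
  intro ε hε
  obtain ⟨L₀, hL⟩ := h ε hε
  obtain ⟨N₀, hN⟩ := hL (max L₀ 1) (le_max_left _ _)
  refine ⟨max L₀ 1, by positivity, N₀, fun N hNN => ?_⟩
  rw [zero_add]
  exact hN N hNN

/-- windows along the orbit -/
theorem win_shift (f : ℕ → ℂ) (α : A ≃⋆ₐ[ℂ] A) (x : A) (n L : ℕ) :
    ∑ i ∈ Ico n (n + L), f i • (α ^ i) x = (α ^ n) (win f α x n L) := by
  unfold win
  rw [map_sum, sum_Ico_eq_sum_range, Nat.add_sub_cancel_left]
  refine sum_congr rfl fun i _ => ?_
  rw [map_smul, pow_add]
  rfl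

theorem infDist_al (α : A ≃⋆ₐ[ℂ] A) (S : Ideal A) (hSa : ∀ (k : ℤ), ∀ y ∈ S, (α ^ k) y ∈ S)
    (k : ℤ) (y : A) : Metric.infDist ((α ^ k) y) (S : Set A) = Metric.infDist y (S : Set A) := by
  have h1 : ∀ (k : ℤ) (y : A), Metric.infDist ((α ^ k) y) (S : Set A) ≤
      Metric.infDist y (S : Set A) := by
    intro k y
    refine (Metric.le_infDist ⟨0, S.zero_mem⟩).2 fun j hj => ?_
    refine (Metric.infDist_le_dist_of_mem (hSa k j hj)).trans ?_
    rw [dist_eq_norm, dist_eq_norm, ← map_sub, norm_al]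
  refine le_antisymm (h1 k y) ?_
  have h2 := h1 (-k) ((α ^ k) y)
  rwa [al_inv] at h2

/-- invariance under all powers -/
theorem inv_pow (α : A ≃⋆ₐ[ℂ] A) (S : Ideal A) (h : ∀ x, α x ∈ S ↔ x ∈ S) (k : ℤ) (y : A)
    (hy : y ∈ S) : (α ^ k) y ∈ S := by
  have hα1 : ∀ b, (α ^ (1 : ℤ)) b = α b := fun b => by rw [zpow_one]
  induction k using Int.induction_on with
  | zero => rwa [al_zero]
  | succ n ih =>
    have e1 : (n : ℤ) + 1 = 1 + n := by ring
    rw [e1, al_add, hα1]
    exact (h _).2 ih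
  | pred n ih =>
    apply (h _).1
    rw [← hα1, ← al_add]
    have e2 : (1 : ℤ) + (-(n : ℤ) - 1) = -n := by ring
    rwa [e2]

end

end Pool.Agent.X188.SC
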