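import Pool.Agent.X188.SCG

/-! The transfinite composition. -/

set_option autoImplicit false
set_option linter.unusedSectionVars false
set_option linter.deprecated false

open Finset Filter Topology

namespace Pool.Agent.X188.SC

universe u

section

variable {A : Type u} [CStarAlgebra A]

/-- a nonzero element `v` with `v B v ⊆ ℂ v` gives a minimal projection -/
theorem exists_minP {B : Type u} [CStarAlgebra B] (v : B) (hv0 : v ≠ 0)
    (hv : ∀ a, ∃ c : ℂ, v * a * v = c • v) :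
    ∃ l : ℂ, MinP (l • (star v * v)) ∧ l • (star v * v) ≠ 0 := by
  set w := star v * v with hw
  have hw0 : w ≠ 0 := fun h => hv0 ((CStarRing.star_mul_self_eq_zero_iff v).1 h)
  have hwsa : star w = w := by rw [hw, star_mul, star_star]
  have hww : w * w ≠ 0 := by
    intro h
    apply hw0
    have : star w * w = 0 := by rw [hwsa]; exact h
    exact (CStarRing.star_mul_self_eq_zero_iff w).1 this
  have hwa : ∀ a, ∃ c : ℂ, w * a * w = c • w := by
    intro a
    obtain ⟨c, hc⟩ := hv (a * star v)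
    refine ⟨c, ?_⟩
    calc w * a * w = star v * (v * (a * star v) * v) := by rw [hw]; simp only [mul_assoc]
      _ = c • w := by rw [hc, mul_smul_comm]
  obtain ⟨lam, hlam⟩ := hwa 1
  rw [mul_one] at hlam
  have hl0 : lam ≠ 0 := by
    intro h
    rw [h, zero_smul] at hlam
    exact hww hlam
  have hlsa : star lam = lam := by
    apply smul_inj hw0
    have h1 := congrArg star hlam
    rw [star_mul, star_smul, hwsa] at h1
    rw [← h1, hlam]
  have hli : star lam⁻¹ = lam⁻¹ := by rw [star_inv₀, hlsa]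
  refine ⟨lam⁻¹, ⟨?_, ?_, ?_⟩, smul_ne_zero (inv_ne_zero hl0) hw0⟩
  · rw [star_smul, hli, hwsa]
  · rw [smul_mul_smul_comm, hlam, smul_smul]
    congr 1
    field_simp
  · intro b
    obtain ⟨c, hc⟩ := hwa b
    refine ⟨lam⁻¹ * c, ?_⟩
    rw [smul_mul_assoc, smul_mul_smul_comm, hc, smul_smul, smul_smul]
    congr 1
    ring

/-- the induced automorphism of the quotient -/
theorem exists_induced {B : Type u} [CStarAlgebra B] (q : A →⋆ₐ[ℂ] B) (hq : Function.Surjective q)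
    (α : A ≃⋆ₐ[ℂ] A) (h1 : ∀ a, q a = 0 → q (α a) = 0) (h2 : ∀ a, q a = 0 → q ((α ^ (-1 : ℤ)) a) = 0) :
    ∃ β : B ≃⋆ₐ[ℂ] B, ∀ a, β (q a) = q (α a) := by
  have hw1 : ∀ a a', q a = q a' → q (α a) = q (α a') := by
    intro a a' h
    have := h1 (a - a') (by rw [map_sub, h, sub_self])
    rw [map_sub, map_sub] at this
    exact sub_eq_zero.1 this
  have hw2 : ∀ a a', q a = q a' → q ((α ^ (-1 : ℤ)) a) = q ((α ^ (-1 : ℤ)) a') := by
    intro a a' h
    have := h2 (a - a') (by rw [map_sub, h, sub_self])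
    rw [map_sub, map_sub] at this
    exact sub_eq_zero.1 this
  have hα1 : ∀ a, (α ^ (-1 : ℤ)) (α a) = a := by
    intro a
    have := al_inv α 1 a
    rwa [zpow_one] at this
  have hα2 : ∀ a, α ((α ^ (-1 : ℤ)) a) = a := by
    intro a
    have := al_inv' α 1 a
    rwa [zpow_one] at this
  let s : B → A := Function.surjInv hq
  have hs : ∀ b, q (s b) = b := Function.surjInv_eq hq
  let F : B → B := fun b => q (α (s b))
  let G : B → B := fun b => q ((α ^ (-1 : ℤ)) (s b))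
  have hF : ∀ a, F (q a) = q (α a) := fun a => hw1 _ _ (hs (q a))
  have hG : ∀ a, G (q a) = q ((α ^ (-1 : ℤ)) a) := fun a => hw2 _ _ (hs (q a))
  refine ⟨{ toFun := F, invFun := G, left_inv := ?_, right_inv := ?_, map_mul' := ?_, map_add' := ?_,
            map_star' := ?_, map_smul' := ?_ }, hF⟩
  · intro b
    obtain ⟨a, rfl⟩ := hq b
    rw [hF, hG, hα1]
  · intro b
    obtain ⟨a, rfl⟩ := hq b
    rw [hG, hF, hα2]
  · intro b b'
    obtain ⟨a, rfl⟩ := hq b
    obtain ⟨a', rfl⟩ := hq b'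
    rw [← map_mul, hF, hF, hF, map_mul, map_mul]
  · intro b b'
    obtain ⟨a, rfl⟩ := hq b
    obtain ⟨a', rfl⟩ := hq b'
    rw [← map_add, hF, hF, hF, map_add, map_add]
  · intro b
    obtain ⟨a, rfl⟩ := hq b
    rw [← map_star, hF, hF, map_star, map_star]
  · intro c b
    obtain ⟨a, rfl⟩ := hq b
    rw [← map_smul, hF, hF, map_smul, map_smul]

/-- `S` is scattered: every nonzero quotient of `S` has a minimal projection -/
def Scat (S : Ideal A) : Prop :=
  ∀ J : Ideal A, J.IsTwoSided → IsClosed (J : Set A) → J ≤ S → J ≠ S →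
    ∃ v ∈ S, v ∉ J ∧ ∀ a, ∃ c : ℂ, v * a * v - c • v ∈ J

/-- the lifting property -/
def Lift (f : ℕ → ℂ) (α : A ≃⋆ₐ[ℂ] A) (J : Ideal A) : Prop :=
  ∀ (x : A) (c : ℝ), 0 ≤ c → ML (fun y => Metric.infDist y (J : Set A)) f α x c →
    ML (fun y => ‖y‖) f α x c

/-- one more step -/
theorem lift_step {f : ℕ → ℂ} (hf : ShortUniform f) (α : A ≃⋆ₐ[ℂ] A) (S J : Ideal A)
    [J.IsTwoSided] (hJc : IsClosed (J : Set A)) (hSt : S.IsTwoSided) (hSc : IsClosed (S : Set A))
    (hJS : J ≤ S) (hJa : ∀ (k : ℤ), ∀ y ∈ J, (α ^ k) y ∈ J) (hSa : ∀ (k : ℤ), ∀ y ∈ S, (α ^ k) y ∈ S)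
    (hL : Lift f α J) (v : A) (hvS : v ∈ S) (hvJ : v ∉ J)
    (hv : ∀ a, ∃ c : ℂ, v * a * v - c • v ∈ J) :
    ∃ J' : Ideal A, J'.IsTwoSided ∧ IsClosed (J' : Set A) ∧ J' ≤ S ∧
      (∀ (k : ℤ), ∀ y ∈ J', (α ^ k) y ∈ J') ∧ Lift f α J' ∧ J ≤ J' ∧ J' ≠ J := by
  have : IsClosed (J : Set A) := hJc
  obtain ⟨B, _, q, hqs, hqk, hqn⟩ := exists_quotient J
  obtain ⟨β, hβ⟩ := exists_induced q hqs α
    (fun a ha => (hqk _).2 (by
      have := hJa 1 a ((hqk a).1 ha)
      rwa [zpow_one] at this))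
    (fun a ha => (hqk _).2 (hJa (-1) a ((hqk a).1 ha)))
  have hβz : ∀ (k : ℤ) a, (β ^ k) (q a) = q ((α ^ k) a) := by
    intro k a
    have hβ1 : ∀ b, (β ^ (1 : ℤ)) b = β b := fun b => by rw [zpow_one]
    have hα1 : ∀ b, (α ^ (1 : ℤ)) b = α b := fun b => by rw [zpow_one]
    induction k using Int.induction_on with
    | zero => rw [al_zero, al_zero]
    | succ n ih =>
      have e1 : (n : ℤ) + 1 = 1 + n := by ring
      rw [e1, al_add, al_add, ih, hβ1, hα1, hβ]
    | pred n ih =>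
      have e1 : (-(n : ℤ) - 1) = -1 + -n := by ring
      have h1 : (β ^ (1 : ℤ)) ((β ^ (-1 + -(n : ℤ))) (q a)) =
          (β ^ (1 : ℤ)) (q ((α ^ (-1 + -(n : ℤ))) a)) := by
        rw [← al_add, hβ1 (q _), hβ, ← hα1, ← al_add]
        have e2 : (1 : ℤ) + (-1 + -(n : ℤ)) = -n := by ring
        rw [e2, ih]
      rw [e1]
      rw [hβ1, hβ1] at h1
      exact β.injective h1
  obtain ⟨l, hmin, hne⟩ := exists_minP (q v) (fun h => hvJ ((hqk v).1 h)) (fun b => by
    obtain ⟨a, rfl⟩ := hqs b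
    obtain ⟨c, hc⟩ := hv a
    refine ⟨c, ?_⟩
    have := (hqk _).2 hc
    rw [map_sub, map_mul, map_mul, map_smul] at this
    exact sub_eq_zero.1 this)
  set e0 : A := l • (star v * v) with he0
  have hqe : q e0 = l • (star (q v) * q v) := by rw [he0, map_smul, map_mul, map_star]
  rw [← hqe] at hmin hne
  have hle : ∀ (c : ℂ) (y : A), c • y = (c • (1 : A)) * y := fun c y => by
    rw [smul_mul_assoc, one_mul]
  have he0S : e0 ∈ S := by
    rw [he0, hle]
    exact S.mul_mem_left _ (S.mul_mem_left _ hvS)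
  have hqcont : Continuous q := by
    refine AddMonoidHomClass.continuous_of_bound q 1 fun a => ?_
    rw [one_mul]
    exact norm_hom q a
  let J' : Ideal A := Ideal.comap (q : A →⋆ₐ[ℂ] B) (Dd β (q e0))
  have hJ'mem : ∀ a, a ∈ J' ↔ q a ∈ Dd β (q e0) := fun a => Iff.rfl
  refine ⟨J', ⟨?_⟩, ?_, ?_, ?_, ?_, ?_, ?_⟩
  · intro a b ha
    rw [hJ'mem, map_mul]
    exact (Dd β (q e0)).mul_mem_right _ ((hJ'mem a).1 ha)
  · exact (Dd_closed β (q e0)).preimage hqcont
  · -- J' ≤ S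
    intro a ha
    rw [hJ'mem] at ha
    -- q a is in the closure of q S
    have h1 : (Mo β (q e0) : Set B) ⊆ q '' (S : Set A) := by
      have h2 : Mo β (q e0) ≤ (S.restrictScalars ℂ).map (q : A →⋆ₐ[ℂ] B).toAlgHom.toLinearMap := by
        refine Submodule.span_le.2 ?_
        rintro _ ⟨k, b, b', rfl⟩
        obtain ⟨a, rfl⟩ := hqs b
        obtain ⟨a', rfl⟩ := hqs b'
        refine ⟨a * (α ^ k) e0 * a', S.mul_mem_right _ (S.mul_mem_left _ (hSa k _ he0S)), ?_⟩
        show q (a * (α ^ k) e0 * a') = _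
        rw [map_mul, map_mul, hβz]
      intro b hb
      obtain ⟨a, ha, h3⟩ := h2 hb
      exact ⟨a, ha, h3⟩
    have h3 : a ∈ closure (S : Set A) := by
      rw [Metric.mem_closure_iff]
      intro ε hε
      have h4 : q a ∈ closure (q '' (S : Set A)) := closure_mono h1 ha
      obtain ⟨_, ⟨s, hs, rfl⟩, h5⟩ := Metric.mem_closure_iff.1 h4 ε hε
      rw [dist_eq_norm, ← map_sub, hqn] at h5
      obtain ⟨j, hj, h6⟩ := (Metric.infDist_lt_iff ⟨0, J.zero_mem⟩).1 h5
      refine ⟨s + j, S.add_mem hs (hJS hj), ?_⟩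
      rw [dist_eq_norm] at h6 ⊢
      have : a - (s + j) = a - s - j := by abel
      rwa [this]
    rwa [hSc.closure_eq] at h3
  · intro k y hy
    rw [hJ'mem] at hy ⊢
    rw [← hβz]
    exact Dd_al β _ k hy
  · -- the lifting property
    intro x c hc hML
    apply hL x c hc
    have hwin : ∀ n L, q (win f α x n L) = win f β (q x) n L := by
      intro n L
      unfold win
      rw [map_sum]
      refine sum_congr rfl fun i _ => ?_
      rw [map_smul, ← al_nat α, ← hβz, al_nat]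
    have h1 : ML (fun y => Metric.infDist y (Dd β (q e0) : Set B)) f β (q x) c := by
      intro ε hε
      obtain ⟨L, hL0, N₀, hN⟩ := hML ε hε
      refine ⟨L, hL0, N₀, fun N hNN => le_trans (sum_le_sum fun n _ => ?_) (hN N hNN)⟩
      show Metric.infDist (win f β (q x) n L) (Dd β (q e0) : Set B) ≤
        Metric.infDist (win f α x n L) (J' : Set A)
      rw [← hwin]
      refine (Metric.le_infDist ⟨0, J'.zero_mem⟩).2 fun j hj => ?_
      refine (Metric.infDist_le_dist_of_mem (show q j ∈ (Dd β (q e0) : Set B) from hj)).trans ?_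
      rw [dist_eq_norm, dist_eq_norm, ← map_sub]
      exact norm_hom q _
    have h2 := lift_min hf β hmin hne (q x) c hc h1
    intro ε hε
    obtain ⟨L, hL0, N₀, hN⟩ := h2 ε hε
    refine ⟨L, hL0, N₀, fun N hNN => le_trans (sum_le_sum fun n _ => ?_) (hN N hNN)⟩
    show Metric.infDist (win f α x n L) (J : Set A) ≤ ‖win f β (q x) n L‖
    rw [← hwin, hqn]
  · intro a ha
    rw [hJ'mem, (hqk a).2 ha]
    exact (Dd β (q e0)).zero_mem
  · intro h
    apply hne
    rw [hqk, ← h, hJ'mem]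
    exact e_mem_Dd β (q e0)

theorem mem_chain {c : Set (Ideal A)} (hc : IsChain (· ≤ ·) c) (hne : c.Nonempty) (K : Finset A)
    (hK : ∀ k ∈ K, k ∈ sSup c) : ∃ J ∈ c, ∀ k ∈ K, k ∈ J := by
  classical
  induction K using Finset.induction_on with
  | empty =>
    obtain ⟨J, hJ⟩ := hne
    exact ⟨J, hJ, by simp⟩
  | insert a K _ ih =>
    obtain ⟨J, hJ, h1⟩ := ih fun k hk => hK k (mem_insert_of_mem hk)
    obtain ⟨J', hJ', h2⟩ := (Submodule.mem_sSup_of_directed hne hc.directedOn).1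
      (hK a (mem_insert_self _ _))
    rcases hc.total hJ hJ' with h | h
    · refine ⟨J', hJ', fun k hk => ?_⟩
      rcases mem_insert.1 hk with rfl | hk
      · exact h2
      · exact h (h1 k hk)
    · refine ⟨J, hJ, fun k hk => ?_⟩
      rcases mem_insert.1 hk with rfl | hk
      · exact h h2
      · exact h1 k hk

/-- **Lifting through scattered ideals** -/
theorem lift_scat {f : ℕ → ℂ} (hf : ShortUniform f) (α : A ≃⋆ₐ[ℂ] A) (S : Ideal A)
    (hSt : S.IsTwoSided) (hSc : IsClosed (S : Set A)) (hSa : ∀ (k : ℤ), ∀ y ∈ S, (α ^ k) y ∈ S)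
    (hS : Scat S) : Lift f α S := by
  classical
  set s : Set (Ideal A) := {J | J.IsTwoSided ∧ IsClosed (J : Set A) ∧ J ≤ S ∧
    (∀ (k : ℤ), ∀ y ∈ J, (α ^ k) y ∈ J) ∧ Lift f α J} with hs
  have hbot : (⊥ : Ideal A) ∈ s := by
    refine ⟨inferInstance, ?_, bot_le, ?_, ?_⟩
    · have : ((⊥ : Ideal A) : Set A) = {0} := by ext; simp
      rw [this]
      exact isClosed_singleton
    · intro k y hy
      rw [Ideal.mem_bot] at hy ⊢
      rw [hy, map_zero]
    · intro x c _ h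
      have : ((⊥ : Ideal A) : Set A) = {0} := by ext; simp
      rw [this] at h
      simpa only [Metric.infDist_singleton, dist_zero_right] using h
  have hchain : ∀ c ⊆ s, IsChain (· ≤ ·) c → ∀ y ∈ c, ∃ ub ∈ s, ∀ z ∈ c, z ≤ ub := by
    intro c hcs hc y hy
    have hne : c.Nonempty := ⟨y, hy⟩
    have hU : ∀ a, a ∈ sSup c ↔ ∃ J ∈ c, a ∈ J := fun a =>
      Submodule.mem_sSup_of_directed hne hc.directedOn
    refine ⟨(sSup c).closure, ⟨⟨fun {a} b ha => ?_⟩, ?_, ?_, ?_, ?_⟩, ?_⟩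
    · refine map_mem_closure (f := fun y => y * b) (by fun_prop) ha fun y hy => ?_
      obtain ⟨J, hJ, h1⟩ := (hU y).1 hy
      have := (hcs hJ).1
      exact (hU _).2 ⟨J, hJ, J.mul_mem_right b h1⟩
    · rw [Ideal.coe_closure]
      exact isClosed_closure
    · intro a ha
      refine closure_minimal (s := ((sSup c : Ideal A) : Set A)) ?_ hSc ha
      intro y hy
      obtain ⟨J, hJ, h1⟩ := (hU y).1 hy
      exact (hcs hJ).2.2.1 h1
    · intro k a ha
      refine map_mem_closure (al_cont (α ^ k)) ha fun y hy => ?_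
      obtain ⟨J, hJ, h1⟩ := (hU y).1 hy
      exact (hU _).2 ⟨J, hJ, (hcs hJ).2.2.2.1 k y h1⟩
    · intro x c₀ hc₀ hML ε hε
      obtain ⟨L, hL0, N₀, hN⟩ := hML (ε / 3) (by positivity)
      obtain ⟨K, Z, κ, hK, hdec⟩ := win_dec hf.bdd α x L ((sSup c).restrictScalars ℂ) (ε / 3)
        (by positivity)
      obtain ⟨J, hJ, hKJ⟩ := mem_chain hc hne K hK
      have hLr : (1 : ℝ) ≤ L := by exact_mod_cast hL0
      have h1 : ∀ n, Metric.infDist (win f α x n L) (J : Set A) ≤
          Metric.infDist (win f α x n L) ((sSup c).closure : Set A) + ε / 3 := by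
        intro n
        have h2 := hdec n
        rw [Ideal.coe_closure, Metric.infDist_closure]
        refine (Metric.infDist_le_dist_of_mem (show κ n ∈ (J : Set A) from hKJ _ h2.2.1)).trans ?_
        rw [dist_eq_norm]
        have h3 : win f α x n L - κ n = Z n := by rw [h2.1, add_sub_cancel_right]
        rw [h3]
        exact h2.2.2
      have h2 : ML (fun y => Metric.infDist y (J : Set A)) f α x (c₀ + 2 * (ε / 3)) := by
        intro ε' hε'
        refine ⟨L, hL0, N₀, fun N hNN => ?_⟩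
        refine (sum_le_sum fun n _ => h1 n).trans ?_
        rw [sum_add_distrib, sum_const, card_range, nsmul_eq_mul]
        have h3 := hN N hNN
        have h4 : (N : ℝ) * (ε / 3) ≤ ε / 3 * L * N := by
          have : 0 ≤ ε / 3 * N := by positivity
          nlinarith
        have h5 : 0 ≤ ε' * L * N := by positivity
        have h6 : ∑ n ∈ range N, Metric.infDist (win f α x n L) ((sSup c).closure : Set A) ≤
          (c₀ + ε / 3) * L * N := h3
        nlinarith
      obtain ⟨L', hL', N', hN'⟩ := (hcs hJ).2.2.2.2 x _ (by positivity) h2 (ε / 3) (by positivity)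
      refine ⟨L', hL', N', fun N hNN => (hN' N hNN).trans (le_of_eq ?_)⟩
      ring
    · intro z hz a ha
      exact subset_closure ((hU a).2 ⟨z, hz, ha⟩)
  obtain ⟨J, _, hJmax⟩ := zorn_le_nonempty₀ s hchain ⊥ hbot
  obtain ⟨hJt, hJc, hJS, hJa, hJL⟩ := hJmax.prop
  by_cases hJ : J = S
  · rw [← hJ]
    exact hJL
  exfalso
  obtain ⟨v, hvS, hvJ, hv⟩ := hS J hJt hJc hJS hJ
  obtain ⟨J', h1, h2, h3, h4, h5, h6, h7⟩ := lift_step hf α S J hJc hSt hSc hJS hJa hSa hJL v hvS hvJ hv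
  exact h7 (le_antisymm (hJmax.le_of_ge ⟨h1, h2, h3, h4, h5⟩ h6) h6)

/-- the bound for the averages -/
theorem avg_of_ML {f : ℕ → ℂ} (hf : ∀ n, ‖f n‖ ≤ 1) (α : A ≃⋆ₐ[ℂ] A) (x : A) (c : ℝ)
    (h : ML (fun y => ‖y‖) f α x c) (ε : ℝ) (hε : 0 < ε) :
    ∃ N₀ : ℕ, ∀ N ≥ N₀, ‖∑ n ∈ range N, f n • (α ^ n) x‖ ≤ (c + ε) * N := by
  obtain ⟨L, hL0, N₀, hN⟩ := h (ε / 2) (by positivity)
  have hLr : (0 : ℝ) < L := by exact_mod_cast hL0
  obtain ⟨N₁, hN₁⟩ := exists_nat_ge (4 * L * ‖x‖ / ε)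
  refine ⟨max N₀ N₁, fun N hNN => ?_⟩
  have h1 := win_split hf α x 0 L N
  have h2 := hN N (le_trans (le_max_left _ _) hNN)
  have h3 : win f α x 0 N = ∑ n ∈ range N, f n • (α ^ n) x := by
    unfold win
    simp only [zero_add]
  simp only [zero_add] at h1
  rw [h3] at h1
  have h4 : ‖∑ i ∈ range N, (α ^ i) (win f α x i L)‖ ≤ (c + ε / 2) * L * N := by
    refine (norm_sum_le _ _).trans (le_trans (le_of_eq ?_) h2)
    exact sum_congr rfl fun i _ => norm_al _ _
  have h5 : L * ‖∑ n ∈ range N, f n • (α ^ n) x‖ ≤ (c + ε / 2) * L * N + 2 * L ^ 2 * ‖x‖ := by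
    have e1 : L * ‖∑ n ∈ range N, f n • (α ^ n) x‖ = ‖(L : ℂ) • ∑ n ∈ range N, f n • (α ^ n) x‖ := by
      rw [norm_smul, Complex.norm_natCast]
    have e2 : (L : ℂ) • ∑ n ∈ range N, f n • (α ^ n) x = ∑ i ∈ range N, (α ^ i) (win f α x i L) -
        (∑ i ∈ range N, (α ^ i) (win f α x i L) - (L : ℂ) • ∑ n ∈ range N, f n • (α ^ n) x) := by
      abel
    rw [e1, e2]
    refine (norm_sub_le _ _).trans ?_
    linarith
  have h6 : 2 * L * ‖x‖ ≤ ε / 2 * N := by
    have g1 : 4 * L * ‖x‖ / ε ≤ N := hN₁.trans (by exact_mod_cast le_trans (le_max_right _ _) hNN)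
    rw [div_le_iff₀ hε] at g1
    linarith
  refine le_of_mul_le_mul_left (a := (L : ℝ)) ?_ hLr
  calc L * ‖∑ n ∈ range N, f n • (α ^ n) x‖ ≤ (c + ε / 2) * L * N + L * (2 * L * ‖x‖) := by
        linarith
    _ ≤ (c + ε / 2) * L * N + L * (ε / 2 * N) := by gcongr
    _ = _ := by ring

end

end Pool.Agent.X188.SC
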