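import Pool.Agent.X188.MulOp

/-! The right-shift semigroup on `L²((0,∞), ds/s)` (plus the identity on the negative half-line). -/

open MeasureTheory Filter Topology Set
open scoped ENNReal

namespace Pool.Agent.X188

noncomputable section

abbrev HH := Lp ℂ 2 (volume : Measure ℝ)

/-- the weight -/
def phi (t : ℝ) (s : ℝ) : ℂ := if |t| < s then ((Real.sqrt ((s - |t|) / s) : ℝ) : ℂ) else 0

lemma phi_bd (t : ℝ) : Bd (phi t) 1 where
  meas := by
    unfold phi
    refine Measurable.ite measurableSet_Ioi ?_ measurable_const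
    fun_prop
  bd s := by
    unfold phi
    split_ifs with h
    · have hs : 0 < s := lt_of_le_of_lt (abs_nonneg t) h
      rw [Complex.norm_real, Real.norm_eq_abs, abs_of_nonneg (Real.sqrt_nonneg _)]
      refine Real.sqrt_le_one.mpr ?_
      rw [div_le_one hs]
      linarith [abs_nonneg t]
    · simp

/-- indicator of a measurable set -/
def ind (A : Set ℝ) : ℝ → ℂ := A.indicator 1

lemma ind_bd {A : Set ℝ} (hA : MeasurableSet A) : Bd (ind A) 1 where
  meas := measurable_const.indicator hA
  bd s := by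
    unfold ind
    by_cases h : s ∈ A <;> simp [h]

/-- the semigroup -/
def T (t : ℝ) : HH →L[ℂ] HH :=
  mulOp volume (ind_bd (measurableSet_Iic (a := (0:ℝ)))) +
    (mulOp volume (phi_bd t)).comp (trans t)

lemma T_ae (t : ℝ) (f : HH) :
    T t f =ᵐ[volume] fun s => ind (Iic 0) s * f s + phi t s * f (s - t) := by
  unfold T
  simp only [_root_.add_apply, ContinuousLinearMap.comp_apply]
  filter_upwards [Lp.coeFn_add (mulOp volume (ind_bd (measurableSet_Iic (a := (0:ℝ)))) f)
    (mulOp volume (phi_bd t) (trans t f)), mulOp_ae (ind_bd (measurableSet_Iic (a := (0:ℝ)))) f,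
    mulOp_ae (phi_bd t) (trans t f), trans_ae t f] with s h1 h2 h3 h4
  rw [h1, Pi.add_apply, h2, h3, h4]

lemma ae_shift {p : ℝ → Prop} (h : ∀ᵐ x ∂(volume : Measure ℝ), p x) (t : ℝ) :
    ∀ᵐ x ∂(volume : Measure ℝ), p (x - t) :=
  (measurePreserving_sub_right volume t).quasiMeasurePreserving.ae h

lemma T_zero : T 0 = ContinuousLinearMap.id ℂ HH := by
  ext1 f
  refine Lp.ext ?_
  filter_upwards [T_ae 0 f] with s h
  rw [h]
  simp only [ContinuousLinearMap.id_apply, sub_zero, phi, abs_zero, ind]
  by_cases hs : s ≤ 0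
  · have : ¬ (0 < s) := not_lt.mpr hs
    simp [hs, this]
  · have h1 : 0 < s := not_le.mp hs
    simp [hs, h1, div_self h1.ne']

lemma T_add (r t : ℝ) (hr : 0 ≤ r) (ht : 0 ≤ t) : T (r + t) = (T r).comp (T t) := by
  ext1 f
  refine Lp.ext ?_
  simp only [ContinuousLinearMap.comp_apply]
  filter_upwards [T_ae (r + t) f, T_ae r (T t f), T_ae t f, ae_shift (T_ae t f) r]
    with s h1 h2 h3 h4
  rw [h1, h2, h3, h4]
  simp only [phi, ind, abs_of_nonneg hr, abs_of_nonneg ht, abs_of_nonneg (add_nonneg hr ht)]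
  by_cases hs : s ≤ 0
  · have e1 : ¬ (r + t < s) := by linarith
    have e2 : ¬ (r < s) := by linarith
    have e3 : ¬ (t < s) := by linarith
    simp [hs, e1, e2, e3]
  · have hs0 : 0 < s := not_le.mp hs
    by_cases hrs : r < s
    · have e1 : ¬ (s - r ≤ 0) := by linarith
      have e1' : ¬ (s ≤ r) := by linarith
      by_cases hrt : r + t < s
      · have e2 : t < s - r := by linarith
        have e3 : s - (r + t) = s - r - t := by ring
        have e4 : (Real.sqrt ((s - r - t) / s) : ℝ) =
            Real.sqrt ((s - r) / s) * Real.sqrt ((s - r - t) / (s - r)) := by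
          rw [← Real.sqrt_mul (div_nonneg (by linarith) hs0.le)]
          congr 1
          have h5 : s - r ≠ 0 := by linarith
          field_simp
        simp [hs, hrs, hrt, e1, e2, e3, e4, e1', mul_assoc]
      · have e2 : ¬ (t < s - r) := by linarith
        simp [hs, hrs, hrt, e1, e2, e1']
    · have e1 : ¬ (r + t < s) := by linarith
      simp [hs, hrs, e1]

lemma norm_T_le (t : ℝ) (ht : 0 ≤ t) : ‖T t‖ ≤ 1 := by
  refine ContinuousLinearMap.opNorm_le_bound _ zero_le_one fun f => ?_
  rw [one_mul]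
  have hI := measurableSet_Iic (a := (0:ℝ))
  have hJ := measurableSet_Ioi (a := (0:ℝ))
  set u := mulOp volume (ind_bd hI) f with hu
  set v := mulOp volume (ind_bd hJ) f with hv
  set w := mulOp volume (phi_bd t) (trans t v) with hw
  have h1 : T t f = u + w := by
    refine Lp.ext ?_
    filter_upwards [T_ae t f, Lp.coeFn_add u w, mulOp_ae (ind_bd hI) f,
      mulOp_ae (phi_bd t) (trans t v), trans_ae t v,
      ae_shift (mulOp_ae (ind_bd hJ) f) t] with s e1 e2 e3 e4 e5 e6
    rw [e1, e2, Pi.add_apply, e3, e4, e5, hv, e6]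
    congr 1
    simp only [phi, ind, abs_of_nonneg ht]
    by_cases h : t < s
    · simp [h]
    · simp [h]
  have h2 : ‖T t f‖ ^ 2 = ‖u‖ ^ 2 + ‖w‖ ^ 2 := by
    rw [h1]
    refine norm_add_sq_of_disj u w ?_
    filter_upwards [mulOp_ae (ind_bd hI) f, mulOp_ae (phi_bd t) (trans t v)] with s e3 e4
    by_cases h : s ≤ 0
    · right
      rw [e4, phi, if_neg, zero_mul]
      have := abs_nonneg t
      linarith
    · left
      rw [e3]
      simp [ind, h]
  have h3 : f = u + v := by
    refine Lp.ext ?_
    filter_upwards [Lp.coeFn_add u v, mulOp_ae (ind_bd hI) f, mulOp_ae (ind_bd hJ) f]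
      with s e1 e2 e3
    rw [e1, Pi.add_apply, e2, e3]
    by_cases h : s ≤ 0
    · simp [ind, h]
    · simp [ind, h, not_le.mp h]
  have h4 : ‖f‖ ^ 2 = ‖u‖ ^ 2 + ‖v‖ ^ 2 := by
    conv_lhs => rw [h3]
    refine norm_add_sq_of_disj u v ?_
    filter_upwards [mulOp_ae (ind_bd hI) f, mulOp_ae (ind_bd hJ) f] with s e3 e4
    by_cases h : s ≤ 0
    · right
      rw [e4]
      simp [ind, h]
    · left
      rw [e3]
      simp [ind, h]
  have h5 : ‖w‖ ≤ ‖v‖ := by
    refine (norm_mulOp_le (phi_bd t) (trans t v)).trans ?_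
    rw [one_mul, norm_trans]
  have h6 : ‖T t f‖ ^ 2 ≤ ‖f‖ ^ 2 := by
    rw [h2, h4]
    have := norm_nonneg w
    gcongr
  exact (sq_le_sq₀ (norm_nonneg _) (norm_nonneg _)).mp h6

/-- right continuity at `0` -/
lemma tendsto_T_zero (f : HH) : Tendsto (fun t => T t f) (𝓝[≥] 0) (𝓝 f) := by
  have hI := measurableSet_Iic (a := (0:ℝ))
  have hJ := measurableSet_Ioi (a := (0:ℝ))
  -- first part: `mulOp (phi t) (trans t f - f) → 0`
  have h1 : Tendsto (fun t => mulOp volume (phi_bd t) (trans t f - f)) (𝓝[≥] 0) (𝓝 0) := by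
    rw [tendsto_zero_iff_norm_tendsto_zero]
    have h2 : Tendsto (fun t => ‖trans t f - f‖) (𝓝[≥] 0) (𝓝 0) := by
      have h3 : Tendsto (fun t => ‖trans t f - f‖) (𝓝 0) (𝓝 ‖trans 0 f - f‖) :=
        (((continuous_trans f).sub continuous_const).norm).tendsto 0
      have h4 : trans 0 f = f := by
        refine Lp.ext ?_
        filter_upwards [trans_ae 0 f] with s e
        rw [e, sub_zero]
      rw [h4, sub_self, norm_zero] at h3
      exact h3.mono_left nhdsWithin_le_nhds
    refine squeeze_zero (fun _ => norm_nonneg _) (fun t => ?_) h2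
    exact (norm_mulOp_le (phi_bd t) _).trans (by rw [one_mul])
  -- second part: `mulOp (phi t) f - mulOp (ind Ioi) f → 0` by dominated convergence
  have h2 : Tendsto (fun t => mulOp volume (phi_bd t) f - mulOp volume (ind_bd hJ) f)
      (𝓝[≥] 0) (𝓝 0) := by
    rw [tendsto_zero_iff_norm_tendsto_zero]
    have h3 : Tendsto (fun t => ‖mulOp volume (phi_bd t) f - mulOp volume (ind_bd hJ) f‖ ^ 2)
        (𝓝[≥] 0) (𝓝 0) := by
      have e1 : ∀ t, ‖mulOp volume (phi_bd t) f - mulOp volume (ind_bd hJ) f‖ ^ 2 =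
          ∫ s, ‖phi t s - ind (Ioi 0) s‖ ^ 2 * ‖f s‖ ^ 2 := by
        intro t
        rw [norm_sq_eq_integral]
        refine integral_congr_ae ?_
        filter_upwards [Lp.coeFn_sub (mulOp volume (phi_bd t) f) (mulOp volume (ind_bd hJ) f),
          mulOp_ae (phi_bd t) f, mulOp_ae (ind_bd hJ) f] with s a1 a2 a3
        rw [a1, Pi.sub_apply, a2, a3, ← sub_mul, norm_mul, mul_pow]
      simp_rw [e1]
      have e2 : Tendsto (fun t => ∫ s, ‖phi t s - ind (Ioi 0) s‖ ^ 2 * ‖f s‖ ^ 2) (𝓝[≥] 0)
          (𝓝 (∫ _ : ℝ, (0:ℝ))) := by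
        refine tendsto_integral_filter_of_dominated_convergence (fun s => 4 * ‖f s‖ ^ 2) ?_ ?_ ?_ ?_
        · refine Eventually.of_forall fun t => ?_
          refine AEStronglyMeasurable.mul ?_ ?_
          · exact ((((phi_bd t).meas.sub (ind_bd hJ).meas).norm).pow_const 2).aestronglyMeasurable
          · exact ((Lp.aestronglyMeasurable f).norm.pow 2)
        · refine Eventually.of_forall fun t => Eventually.of_forall fun s => ?_
          have b1 := (phi_bd t).bd s
          have b2 := (ind_bd hJ).bd s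
          have b3 : ‖phi t s - ind (Ioi 0) s‖ ≤ 2 := (norm_sub_le _ _).trans (by linarith)
          rw [Real.norm_eq_abs, abs_of_nonneg (by positivity)]
          have b4 : ‖phi t s - ind (Ioi 0) s‖ ^ 2 ≤ 4 := by
            have := norm_nonneg (phi t s - ind (Ioi 0) s)
            nlinarith
          exact mul_le_mul_of_nonneg_right b4 (by positivity)
        · exact ((Lp.memLp f).integrable_norm_pow (by norm_num)).const_mul 4
        · refine Eventually.of_forall fun s => ?_
          have c1 : Tendsto (fun t => phi t s) (𝓝[≥] 0) (𝓝 (ind (Ioi 0) s)) := by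
            by_cases hs : 0 < s
            · have c2 : ind (Ioi 0) s = ((Real.sqrt ((s - |(0:ℝ)|) / s) : ℝ) : ℂ) := by
                simp [ind, hs, div_self hs.ne']
              rw [c2]
              have c3 : Continuous fun t : ℝ => ((Real.sqrt ((s - |t|) / s) : ℝ) : ℂ) := by
                fun_prop
              have c4 : ∀ᶠ t in 𝓝[≥] (0:ℝ), phi t s = ((Real.sqrt ((s - |t|) / s) : ℝ) : ℂ) := by
                have c5 : ∀ᶠ t in 𝓝 (0:ℝ), |t| < s := by
                  have : Tendsto (fun t : ℝ => |t|) (𝓝 0) (𝓝 |(0:ℝ)|) := continuous_abs.tendsto 0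
                  rw [abs_zero] at this
                  exact this.eventually_lt_const hs
                filter_upwards [c5.filter_mono nhdsWithin_le_nhds] with t ht
                simp [phi, ht]
              exact ((c3.tendsto 0).mono_left nhdsWithin_le_nhds).congr'
                (c4.mono fun t ht => ht.symm)
            · have c2 : ind (Ioi 0) s = 0 := by simp [ind, hs]
              have c3 : ∀ t, phi t s = 0 := by
                intro t
                rw [phi, if_neg]
                have := abs_nonneg t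
                linarith
              simp_rw [c3]
              rw [c2]
              exact tendsto_const_nhds
          have c6 : Tendsto (fun t => ‖phi t s - ind (Ioi 0) s‖ ^ 2 * ‖f s‖ ^ 2) (𝓝[≥] 0)
              (𝓝 (‖ind (Ioi 0) s - ind (Ioi 0) s‖ ^ 2 * ‖f s‖ ^ 2)) :=
            (((c1.sub_const _).norm).pow 2).mul_const _
          simpa using c6
      simpa using e2
    have h4 := h3.sqrt
    simpa [Real.sqrt_sq] using h4
  have h3 : Tendsto (fun t => mulOp volume (phi_bd t) (trans t f - f) +
      (mulOp volume (phi_bd t) f - mulOp volume (ind_bd hJ) f) + f) (𝓝[≥] 0) (𝓝 (0 + 0 + f)) :=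
    (h1.add h2).add_const f
  rw [add_zero, zero_add] at h3
  refine h3.congr fun t => ?_
  have h5 : f = mulOp volume (ind_bd hI) f + mulOp volume (ind_bd hJ) f := by
    refine Lp.ext ?_
    filter_upwards [Lp.coeFn_add (mulOp volume (ind_bd hI) f) (mulOp volume (ind_bd hJ) f),
      mulOp_ae (ind_bd hI) f, mulOp_ae (ind_bd hJ) f] with s e1 e2 e3
    rw [e1, Pi.add_apply, e2, e3]
    by_cases h : s ≤ 0
    · simp [ind, h]
    · simp [ind, h, not_le.mp h]
  have h6 : T t f = mulOp volume (ind_bd hI) f + mulOp volume (phi_bd t) (trans t f) := rfl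
  rw [h6, map_sub]
  generalize mulOp volume (phi_bd t) (trans t f) = a
  generalize mulOp volume (phi_bd t) f = b
  generalize mulOp volume (ind_bd hJ) f = c at h5
  generalize mulOp volume (ind_bd hI) f = d at h5
  subst h5
  abel

end

end Pool.Agent.X188
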